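import Pool.Agent.H203.GE.Defs4

set_option autoImplicit false

/-! (BMG) all moments of the prime side are bounded, all L-functions (adapted from ME/BMB.lean). -/

open Complex Filter Topology Set MeasureTheory

namespace Pool.Agent.H203.GE

open Pool.Agent.H203.ME hiding BG S_PT S_BBI S_EFW S_APX S_PRM

namespace BMGL

open ArithmeticFunction

/-- the coefficients -/
noncomputable def ag (u : ℕ → ℂ) (F : ℝ → ℝ) (R : ℝ) (n : ℕ) : ℂ := BMBL.aa F R n * u n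

lemma ag_le {u : ℕ → ℂ} (hu : ∀ n, ‖u n‖ ≤ 1) (F : ℝ → ℝ) (R : ℝ) (n : ℕ) :
    ‖ag u F R n‖ ≤ ‖BMBL.aa F R n‖ := by
  unfold ag
  rw [norm_mul]
  exact mul_le_of_le_one_right (norm_nonneg _) (hu n)

lemma tail_term {u : ℕ → ℂ} (hu : ∀ n, ‖u n‖ ≤ 1) {F : ℝ → ℝ} (hF : ∀ ξ, ‖FF F ξ‖ ≤ 1) {R : ℝ}
    (hR16 : 16 ≤ R) (n : ℕ) (hn1 : 1 ≤ n) (hn : 2 * R ≤ Real.log n) (t : ℝ) :
    ‖((vonMangoldt n / Real.sqrt n * cR R (Real.log n) : ℝ) : ℂ) *
      FF F (Real.log n) * (u n * ee n t)‖ ≤ 2 * (1 / (n : ℝ) ^ 2) := by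
  refine le_trans ?_ (BMBL.tail_term hF hR16 n hn1 hn t)
  rw [norm_mul _ (u n * ee n t), norm_mul (u n), norm_mul _ (ee n t)]
  apply mul_le_mul_of_nonneg_left _ (norm_nonneg _)
  exact mul_le_of_le_one_left (norm_nonneg _) (hu n)

lemma split {u : ℕ → ℂ} (hu : ∀ n, ‖u n‖ ≤ 1) {F : ℝ → ℝ} (hF : ∀ ξ, ‖FF F ξ‖ ≤ 1) {R : ℝ}
    (hR16 : 16 ≤ R) (X : ℕ) (hX : ∀ n : ℕ, X < n → 2 * R ≤ Real.log n) (t : ℝ) :
    ∃ w : ℂ, ‖w‖ ≤ 2 * PRML.Z1 ∧
      BG u F R t = ((∑ n ∈ Finset.Icc 1 X, ag u F R n * ee n t) + w).re := by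
  set f : ℕ → ℂ := fun n => ((vonMangoldt n / Real.sqrt n * cR R (Real.log n) : ℝ) : ℂ) *
      FF F (Real.log n) * (u n * ee n t) with hf
  have hb : ∀ n : ℕ, ‖f (n + (X + 1))‖ ≤ 2 * (1 / ((n + 1 : ℕ) : ℝ) ^ 2) := by
    intro n
    have h1 := tail_term hu hF hR16 (n + (X + 1)) (by omega) (hX _ (by omega)) t
    refine h1.trans ?_
    apply mul_le_mul_of_nonneg_left _ (by norm_num)
    apply one_div_le_one_div_of_le (by positivity)
    apply pow_le_pow_left₀ (by positivity)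
    push_cast
    have : (0 : ℝ) ≤ X := Nat.cast_nonneg X
    linarith
  have hsg : HasSum (fun n : ℕ => 2 * (1 / ((n + 1 : ℕ) : ℝ) ^ 2)) (2 * PRML.Z1) :=
    PRML.Z1_summable.hasSum.mul_left _
  have hsum' : Summable (fun n => f (n + (X + 1))) := Summable.of_norm_bounded hsg.summable hb
  have hsum : Summable f := (summable_nat_add_iff (X + 1)).1 hsum'
  have htail : ‖∑' n, f (n + (X + 1))‖ ≤ 2 * PRML.Z1 := tsum_of_norm_bounded hsg hb
  have hsplit := hsum.sum_add_tsum_nat_add (X + 1)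
  have hfin : ∑ n ∈ Finset.range (X + 1), f n = ∑ n ∈ Finset.Icc 1 X, f n := by
    symm
    apply Finset.sum_subset
    · intro n hn
      rw [Finset.mem_Icc] at hn
      rw [Finset.mem_range]; omega
    · intro n hn hn'
      rw [Finset.mem_range] at hn
      rw [Finset.mem_Icc] at hn'
      have : n = 0 := by omega
      subst this
      simp [hf]
  set c : ℝ := 2 / Real.sqrt (2 * Real.pi) with hc
  refine ⟨(c : ℂ) * ∑' n, f (n + (X + 1)), ?_, ?_⟩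
  · rw [norm_mul, Complex.norm_real, Real.norm_eq_abs, abs_of_nonneg (by positivity)]
    have h1 := PRML.two_div_le_one
    rw [← hc] at h1
    have h2 := norm_nonneg (∑' n, f (n + (X + 1)))
    nlinarith
  · have hBB : BG u F R t = ((c : ℂ) * ∑' n, f n).re := by
      unfold BG
      rw [Complex.re_ofReal_mul]
    rw [hBB, ← hsplit, hfin, mul_add]
    congr 2
    rw [Finset.mul_sum]
    refine Finset.sum_congr rfl fun n _ => ?_
    rw [hf]
    unfold ag BMBL.aa PRML.kap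
    rw [← hc]
    push_cast
    ring

lemma primes {u : ℕ → ℂ} (hu : ∀ n, ‖u n‖ ≤ 1) {F : ℝ → ℝ} {c h R : ℝ} (hR : 0 < R) (hc : 0 ≤ c)
    (hh : 0 < h) (h8 : h ≤ 1 / 8) (hF : ∀ ξ, ‖FF F ξ‖ ≤ BMBL.bp c h ξ) (M : ℕ) :
    ∑ n ∈ (Finset.Icc 1 M).filter Nat.Prime, ‖ag u F R n‖ ^ 2 ≤ 23 * c ^ 2 :=
  (Finset.sum_le_sum fun n _ => pow_le_pow_left₀ (norm_nonneg _) (ag_le hu F R n) 2).trans
    (BMBL.primes hR hc hh h8 hF M)

lemma nonprimes : ∃ C : ℝ, 0 < C ∧ ∀ (u : ℕ → ℂ), (∀ n, ‖u n‖ ≤ 1) → ∀ (F : ℝ → ℝ) (c h R : ℝ),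
    0 < R → 0 ≤ c → 0 < h → h ≤ 1 / 8 → c * h ≤ 1 → (∀ ξ, ‖FF F ξ‖ ≤ BMBL.bp c h ξ) → ∀ M : ℕ,
    ∑ n ∈ (Finset.Icc 1 M).filter (fun n => ¬ n.Prime), ‖ag u F R n‖ ≤ C + 23 * c := by
  obtain ⟨C, hC, h⟩ := BMBL.nonprimes
  refine ⟨C, hC, fun u hu F c h' R h1 h2 h3 h4 h5 h6 M => ?_⟩
  exact (Finset.sum_le_sum fun n _ => ag_le hu F R n).trans (h F c h' R h1 h2 h3 h4 h5 h6 M)

end BMGL

open BMGL BMBL in
theorem t_BMG (_hB : S_BBI) : S_BMG := by
  intro m f hf hs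
  obtain ⟨C3, hC3, hnp⟩ := BMGL.nonprimes
  obtain ⟨A, hA0, hA⟩ := FINL.bd hs
  set c : ℝ := (∫ x : ℝ, |f x|) + (∫ x : ℝ, |deriv (deriv f) x|) with hc
  have hc0 : 0 ≤ c := add_nonneg (integral_nonneg fun _ => abs_nonneg _) (integral_nonneg fun _ => abs_nonneg _)
  set D : ℝ := 2 * PRML.Z1 + (C3 + 23 * c) with hD
  have hD0 : 0 ≤ D := by
    have := PRML.Z1_nonneg
    positivity
  set B : ℝ := (m.factorial : ℝ) * (1 + m ^ 2) * (1 + 23 * c ^ 2) ^ m with hB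
  have hB0 : 0 ≤ B := by positivity
  refine ⟨2 ^ (2 * m) * (B + 2 + D ^ (2 * m)), 16 + c + A, 10, by positivity, by linarith, le_rfl, ?_⟩
  intro T hT u hu h R hh hhK hhR hRT
  have hT0 : 0 < T := by linarith
  have hK0 : 0 < 16 + c + A := by positivity
  have hKh : h * (16 + c + A) ≤ 1 := by
    rw [le_div_iff₀ hK0] at hhK
    exact hhK
  have h8 : h ≤ 1 / 8 := by nlinarith
  have hch : c * h ≤ 1 := by nlinarith
  have hR16 : 16 ≤ R := by
    by_contra hcon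
    push Not at hcon
    nlinarith
  have hR0 : 0 < R := by linarith
  set F : ℝ → ℝ := fun x => f (x / h) with hF
  have hFb : ∀ ξ, ‖FF F ξ‖ ≤ bp c h ξ := fun ξ => FF_bp hf hs le_rfl hh ξ
  have hF1 : ∀ ξ, ‖FF F ξ‖ ≤ 1 := fun ξ => (hFb ξ).trans ((bp_le hc0 hh ξ).trans hch)
  set M : ℕ := ⌊Real.exp (2 * R)⌋₊ with hM
  have hMle : (M : ℝ) ≤ Real.exp (2 * R) := Nat.floor_le (Real.exp_pos _).le
  have hM1 : 1 ≤ M := by
    rw [hM, Nat.one_le_floor_iff]
    exact Real.one_le_exp (by linarith)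
  have hMX : ∀ n : ℕ, M < n → 2 * R ≤ Real.log n := by
    intro n hn
    have h1 : Real.exp (2 * R) < n := (Nat.floor_lt (Real.exp_pos _).le).1 hn
    rw [Real.le_log_iff_exp_le ((Real.exp_pos _).trans h1)]
    exact h1.le
  have haa : ∀ p : ℕ, ‖ag u F R p‖ ≤ 1 := by
    intro p
    refine (ag_le hu F R p).trans ((aa_le hR0 p).trans ?_)
    have h1 : ArithmeticFunction.vonMangoldt p / Real.sqrt p ≤ 1 :=
      (div_le_div_of_nonneg_right ArithmeticFunction.vonMangoldt_le_log (Real.sqrt_nonneg _)).trans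
        (log_div_sqrt_le p)
    calc _ ≤ 1 * 1 := mul_le_mul h1 (hF1 _) (norm_nonneg _) zero_le_one
      _ = 1 := one_mul _
  have hS := BMGL.primes hu hR0 hc0 hh h8 hFb M
  have hmom := mom t_MOM m M (ag u F R) T hM1 (by linarith) haa (23 * c ^ 2) hS
  rw [← hB] at hmom
  have hM4 : (M : ℝ) ^ (4 * m) ≤ T := by
    calc (M : ℝ) ^ (4 * m) ≤ (Real.exp (2 * R)) ^ (4 * m) := pow_le_pow_left₀ (Nat.cast_nonneg _) hMle _
      _ = Real.exp ((4 * m : ℕ) * (2 * R)) := by rw [← Real.exp_nat_mul]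
      _ ≤ Real.exp (Real.log T) := by
          apply Real.exp_le_exp.2
          push_cast
          rw [le_div_iff₀ (by positivity)] at hRT
          have hm0 : (0 : ℝ) ≤ m := Nat.cast_nonneg m
          nlinarith
      _ = T := Real.exp_log hT0
  set P : ℝ → ℂ := fun t => ∑ p ∈ (Finset.Icc 1 M).filter Nat.Prime, ag u F R p * ee p t with hP
  have hPc : Continuous P := by
    rw [hP]
    unfold ee
    fun_prop
  have hpt : ∀ t : ℝ, (BG u F R t) ^ (2 * m) ≤ 2 ^ (2 * m) * (‖P t‖ ^ (2 * m) + D ^ (2 * m)) := by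
    intro t
    obtain ⟨w, hw, he⟩ := BMGL.split hu hF1 hR16 M hMX t
    have h1 : ∑ n ∈ Finset.Icc 1 M, ag u F R n * ee n t = P t +
        ∑ n ∈ (Finset.Icc 1 M).filter (fun n => ¬ n.Prime), ag u F R n * ee n t :=
      (Finset.sum_filter_add_sum_filter_not _ _ _).symm
    have h2 : ‖∑ n ∈ (Finset.Icc 1 M).filter (fun n => ¬ n.Prime), ag u F R n * ee n t‖ ≤ C3 + 23 * c := by
      refine (norm_sum_le _ _).trans
        (le_trans (le_of_eq ?_) (hnp u hu F c h R hR0 hc0 hh h8 hch hFb M))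
      refine Finset.sum_congr rfl fun n _ => ?_
      rw [norm_mul, PRML.norm_ee, mul_one]
    have h3 : |BG u F R t| ≤ ‖P t‖ + D := by
      rw [he, h1]
      refine (Complex.abs_re_le_norm _).trans ((norm_add_le _ _).trans ?_)
      have := norm_add_le (P t) (∑ n ∈ (Finset.Icc 1 M).filter (fun n => ¬ n.Prime), ag u F R n * ee n t)
      rw [hD]
      linarith
    calc (BG u F R t) ^ (2 * m) = |BG u F R t| ^ (2 * m) := by rw [pow_mul, pow_mul, sq_abs]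
      _ ≤ (‖P t‖ + D) ^ (2 * m) := pow_le_pow_left₀ (abs_nonneg _) h3 _
      _ ≤ _ := add_pow_le' _ _ (norm_nonneg _) hD0 _
  by_cases hii : IntervalIntegrable (fun t => (BG u F R t) ^ (2 * m)) volume T (2 * T)
  · have hPi : IntervalIntegrable (fun t => ‖P t‖ ^ (2 * m)) volume T (2 * T) :=
      (hPc.norm.pow _).intervalIntegrable _ _
    have h1 : ∫ t in T..(2 * T), (BG u F R t) ^ (2 * m) ≤
        ∫ t in T..(2 * T), 2 ^ (2 * m) * (‖P t‖ ^ (2 * m) + D ^ (2 * m)) := by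
      apply intervalIntegral.integral_mono_on (by linarith) hii
      · exact ((hPi.add intervalIntegrable_const).const_mul _)
      · intro t _; exact hpt t
    rw [intervalIntegral.integral_const_mul, intervalIntegral.integral_add hPi intervalIntegrable_const,
      intervalIntegral.integral_const, smul_eq_mul] at h1
    refine h1.trans ?_
    have h2 : (∫ t in T..(2 * T), ‖P t‖ ^ (2 * m)) + (2 * T - T) * D ^ (2 * m) ≤ (B + 2 + D ^ (2 * m)) * T := by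
      have : ∫ t in T..(2 * T), ‖P t‖ ^ (2 * m) ≤ T * B + 2 * T := by linarith
      nlinarith
    calc _ ≤ 2 ^ (2 * m) * ((B + 2 + D ^ (2 * m)) * T) := mul_le_mul_of_nonneg_left h2 (by positivity)
      _ = _ := by ring
  · rw [intervalIntegral.integral_undef hii]
    positivity

end Pool.Agent.H203.GE
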