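import Pool.Agent.H203.GE.Defs

set_option autoImplicit false

/-! Leaf APX: the approximate formula on average (copy of ME/APX.lean, APX2.lean, APX3.lean). -/

open Complex Filter Topology Set MeasureTheory

namespace Pool.Agent.H203.GE

open Pool.Agent.H203.ME hiding S_EFW S_BBI S_APX XF_eq Zf_symm Z_eq point_diff

/-- the zeros of a window, as a real sum -/
lemma XG_eq {G : ℂ → ℂ} {w : ℕ → ℂ} (hG : Lf G w) {F : ℝ → ℝ} (hF : C2c F) {U1 U2 T t : ℝ} (hU : 1 ≤ U1) (h1 : U1 + 1 ≤ t) (h2 : t ≤ U2 - 1) :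
    XG G F T t = (∑ s ∈ H370.Zf G U1 U2, (H370.mult G s : ℝ) * F (s.im - t)) -
      Real.log T / (2 * Real.pi) * ∫ x : ℝ, F x := by
  unfold XG ZG
  congr 1
  have hZ : ∀ s : ℂ, s ∈ H370.Zf G U1 U2 ↔ s ∈ H370.zset G U1 U2 := fun s =>
    H370.mem_Zf hG.good hU
  rw [finsum_mem_eq_sum_of_inter_support_eq]
  ext s
  simp only [mem_inter_iff, Function.mem_support, SetLike.mem_coe, hZ]
  constructor
  · rintro ⟨⟨ha, hb, hc⟩, hd⟩
    refine ⟨⟨hb, hc, ?_, ?_, ha⟩, hd⟩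
    · by_contra h
      push Not at h
      exact hd (by rw [hF.supp _ (by rw [le_abs]; right; linarith), mul_zero])
    · by_contra h
      push Not at h
      exact hd (by rw [hF.supp _ (by rw [le_abs]; left; linarith), mul_zero])
  · rintro ⟨⟨ha, hb, hc, hd, he⟩, hf⟩
    exact ⟨⟨he, ha, hb⟩, hf⟩

/-- symmetry of the zeros -/
lemma Zf_symm {G : ℂ → ℂ} {w : ℕ → ℂ} (hG : Lf G w) {U1 U2 : ℝ} (hU : 1 ≤ U1) (g : ℂ → ℂ) :
    ∑ s ∈ H370.Zf G U1 U2, (H370.mult G s : ℂ) * g s =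
      ∑ s ∈ H370.Zf G U1 U2, (H370.mult G s : ℂ) * g (1 - (starRingEnd ℂ) s) := by
  have hG := hG.good
  have hZ : ∀ s : ℂ, s ∈ H370.Zf G U1 U2 ↔ s ∈ H370.zset G U1 U2 := fun s =>
    H370.mem_Zf hG hU
  have hord : ∀ s ∈ H370.Zf G U1 U2,
      analyticOrderAt G (1 - (starRingEnd ℂ) s) = analyticOrderAt G s := by
    intro s hs
    obtain ⟨ha, hb, hc, hd, he⟩ := (hZ s).1 hs
    exact hG.symm s ha hb (by linarith)
  have hmem : ∀ s ∈ H370.Zf G U1 U2, 1 - (starRingEnd ℂ) s ∈ H370.Zf G U1 U2 := by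
    intro s hs
    obtain ⟨ha, hb, hc, hd, he⟩ := (hZ s).1 hs
    rw [hZ]
    refine ⟨by simp; linarith, by simp; linarith, by simpa using hc, by simpa using hd, ?_⟩
    have h1 := hord s hs
    have h2 : analyticOrderAt G s ≠ 0 := by
      rw [(hG.an s (by linarith)).analyticOrderAt_ne_zero]; exact he
    rw [← h1] at h2
    by_contra h3
    apply h2
    have h4 : AnalyticAt ℂ G (1 - (starRingEnd ℂ) s) := hG.an _ (by simp; linarith)
    rw [h4.analyticOrderAt_eq_zero]; exact h3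
  symm
  refine Finset.sum_nbij' (fun s => 1 - (starRingEnd ℂ) s) (fun s => 1 - (starRingEnd ℂ) s) hmem hmem
    (fun s _ => by simp) (fun s _ => by simp) (fun s hs => ?_)
  have : H370.mult G (1 - (starRingEnd ℂ) s) = H370.mult G s := by
    unfold H370.mult analyticOrderNatAt
    rw [hord s hs]
  rw [this]

/-- the explicit formula integrated against `F` -/
lemma Z_eq {G : ℂ → ℂ} {w : ℕ → ℂ} (hw : ∀ n, ‖w n‖ ≤ 1) (hBB : S_BBI) {F : ℝ → ℝ} (hF : C2c F) {C T U1 U2 R t : ℝ} (hR : 1 ≤ R)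
    (hE : ∀ t : ℝ, T + Real.log T ≤ t → t ≤ 2 * T - Real.log T →
      ‖(∑ s ∈ H370.Zf G U1 U2, (H370.mult G s : ℂ) * WR R (H370.zz s - t)) -
        ((Real.log T / (2 * Real.pi) * om R - PG w R t : ℝ) : ℂ)‖ ≤ C)
    (h1 : T + Real.log T + 1 ≤ t) (h2 : t ≤ 2 * T - Real.log T - 1) :
    ‖(∑ s ∈ H370.Zf G U1 U2, (H370.mult G s : ℂ) * KF F R (H370.zz s - t)) -
      ((Real.log T / (2 * Real.pi) * om R * (∫ x : ℝ, F x) - BG w F R t : ℝ) : ℂ)‖ ≤ C * ∫ x : ℝ, |F x| := by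
  have hW := WR_cont R
  have hP := (hBB w hw F hF R hR).1
  -- the first sum as an integral
  have e1 : (∑ s ∈ H370.Zf G U1 U2, (H370.mult G s : ℂ) * KF F R (H370.zz s - t)) =
      ∫ s : ℝ, (F s : ℂ) * ∑ ρ ∈ H370.Zf G U1 U2, (H370.mult G ρ : ℂ) * WR R (H370.zz ρ - (t + s : ℝ)) := by
    simp only [Finset.mul_sum]
    rw [integral_finsetSum]
    · refine Finset.sum_congr rfl fun ρ _ => ?_
      unfold KF
      rw [← integral_const_mul]
      congr 1
      funext s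
      have : H370.zz ρ - (t : ℂ) - (s : ℂ) = H370.zz ρ - ((t + s : ℝ) : ℂ) := by push_cast; ring
      rw [this]; ring
    · intro ρ _
      apply hF.intmul
      fun_prop
  have e2 : ((Real.log T / (2 * Real.pi) * om R * (∫ x : ℝ, F x) - BG w F R t : ℝ) : ℂ) =
      ∫ s : ℝ, (F s : ℂ) * ((Real.log T / (2 * Real.pi) * om R - PG w R (t + s) : ℝ) : ℂ) := by
    rw [← (hBB w hw F hF R hR).2.2 t]
    have h3 : ∫ s : ℝ, F s * (Real.log T / (2 * Real.pi) * om R - PG w R (t + s)) =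
        Real.log T / (2 * Real.pi) * om R * (∫ x : ℝ, F x) - ∫ s : ℝ, F s * PG w R (t + s) := by
      rw [← integral_const_mul, ← integral_sub]
      · congr 1
        funext s
        ring
      · exact hF.int.const_mul _
      · apply Continuous.integrable_of_hasCompactSupport
        · have := hF.cont; fun_prop
        · exact hF.hcs.mul_right
    rw [← h3, ← integral_complex_ofReal]
    congr 1
    funext s
    push_cast
    ring
  rw [e1, e2, ← integral_sub]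
  · calc ‖∫ s : ℝ, ((F s : ℂ) * ∑ ρ ∈ H370.Zf G U1 U2, (H370.mult G ρ : ℂ) * WR R (H370.zz ρ - (t + s : ℝ)) -
          (F s : ℂ) * ((Real.log T / (2 * Real.pi) * om R - PG w R (t + s) : ℝ) : ℂ))‖ ≤
        ∫ s : ℝ, C * |F s| := by
          apply norm_integral_le_of_norm_le (hF.int.abs.const_mul C)
          refine Eventually.of_forall fun s => ?_
          rw [← mul_sub, norm_mul, Complex.norm_real, Real.norm_eq_abs, mul_comm]
          by_cases hs : 1 ≤ |s|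
          · rw [hF.supp s hs]; simp
          · push Not at hs
            have hs' := abs_lt.1 hs
            exact mul_le_mul_of_nonneg_right (hE (t + s) (by linarith) (by linarith)) (abs_nonneg _)
      _ = C * ∫ x : ℝ, |F x| := integral_const_mul _ _
  · apply hF.intmul
    fun_prop
  · apply hF.intmul
    fun_prop

/-- passage from the complex zeros to the ordinates, pointwise -/
lemma point_diff {G : ℂ → ℂ} {w : ℕ → ℂ} (hG : Lf G w) {F : ℝ → ℝ} {R U1 U2 t : ℝ} (hU : 1 ≤ U1) :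
    ‖((∑ s ∈ H370.Zf G U1 U2, (H370.mult G s : ℝ) * F (s.im - t) : ℝ) : ℂ) -
      ∑ s ∈ H370.Zf G U1 U2, (H370.mult G s : ℂ) * KF F R (H370.zz s - t)‖ ≤
    ∑ s ∈ H370.Zf G U1 U2, (H370.mult G s : ℝ) * (‖KF F R ((s.im - t : ℝ) : ℂ) - F (s.im - t)‖ +
      ‖KF F R (((s.im - t : ℝ) : ℂ) + ((s.re - 1 / 2 : ℝ) : ℂ) * I) +
        KF F R (((s.im - t : ℝ) : ℂ) - ((s.re - 1 / 2 : ℝ) : ℂ) * I) - 2 * KF F R ((s.im - t : ℝ) : ℂ)‖) := by
  have h1 := Zf_symm hG (U2 := U2) hU (fun s => KF F R (H370.zz s - t))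
  have h2 : ∑ s ∈ H370.Zf G U1 U2, (H370.mult G s : ℂ) * KF F R (H370.zz s - t) =
      ∑ s ∈ H370.Zf G U1 U2, (H370.mult G s : ℂ) * (1 / 2 *
        (KF F R (((s.im - t : ℝ) : ℂ) + ((s.re - 1 / 2 : ℝ) : ℂ) * I) +
          KF F R (((s.im - t : ℝ) : ℂ) - ((s.re - 1 / 2 : ℝ) : ℂ) * I))) := by
    have h3 : ∑ s ∈ H370.Zf G U1 U2, (H370.mult G s : ℂ) * KF F R (H370.zz s - t) =
        1 / 2 * (∑ s ∈ H370.Zf G U1 U2, (H370.mult G s : ℂ) * KF F R (H370.zz s - t) +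
          ∑ s ∈ H370.Zf G U1 U2, (H370.mult G s : ℂ) * KF F R (H370.zz (1 - (starRingEnd ℂ) s) - t)) := by
      rw [← h1]; ring
    rw [h3, ← Finset.sum_add_distrib, Finset.mul_sum]
    refine Finset.sum_congr rfl fun s _ => ?_
    have e1 : H370.zz s - (t : ℂ) = ((s.im - t : ℝ) : ℂ) - ((s.re - 1 / 2 : ℝ) : ℂ) * I := by
      rw [zz_eq]; push_cast; ring
    have e2 : H370.zz (1 - (starRingEnd ℂ) s) - (t : ℂ) =
        ((s.im - t : ℝ) : ℂ) + ((s.re - 1 / 2 : ℝ) : ℂ) * I := by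
      rw [zz_symm]; push_cast; ring
    rw [e1, e2]; ring
  rw [h2]
  push_cast
  rw [← Finset.sum_sub_distrib]
  refine (norm_sum_le _ _).trans (Finset.sum_le_sum fun s _ => ?_)
  have h4 : (H370.mult G s : ℂ) * (F (s.im - t) : ℂ) - (H370.mult G s : ℂ) * (1 / 2 *
        (KF F R ((s.im : ℂ) - (t : ℂ) + ((s.re : ℂ) - 1 / 2) * I) +
          KF F R ((s.im : ℂ) - (t : ℂ) - ((s.re : ℂ) - 1 / 2) * I))) =
      (H370.mult G s : ℂ) * (-(KF F R ((s.im : ℂ) - (t : ℂ)) - F (s.im - t)) -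
        1 / 2 * (KF F R ((s.im : ℂ) - (t : ℂ) + ((s.re : ℂ) - 1 / 2) * I) +
          KF F R ((s.im : ℂ) - (t : ℂ) - ((s.re : ℂ) - 1 / 2) * I) - 2 * KF F R ((s.im : ℂ) - (t : ℂ)))) := by
    ring
  rw [h4, norm_mul]
  have h5 : ‖(H370.mult G s : ℂ)‖ = (H370.mult G s : ℝ) := by simp
  rw [h5]
  apply mul_le_mul_of_nonneg_left _ (Nat.cast_nonneg _)
  refine (norm_sub_le _ _).trans ?_
  rw [norm_neg, norm_mul]
  have h6 : ‖(1 / 2 : ℂ)‖ = 1 / 2 := by simp
  rw [h6]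
  have h7 := norm_nonneg (KF F R ((s.im : ℂ) - (t : ℂ) + ((s.re : ℂ) - 1 / 2) * I) +
          KF F R ((s.im : ℂ) - (t : ℂ) - ((s.re : ℂ) - 1 / 2) * I) - 2 * KF F R ((s.im : ℂ) - (t : ℂ)))
  linarith

theorem t_APX (hEF : S_EFW) (hB : S_BBI) : S_APX := by
  intro G w hG
  obtain ⟨C1, T1, hC1, hT1, hEF⟩ := hEF G w hG
  have hA := t_L1A t_KER t_OM
  have hL := t_L1B t_KER
  have hO := t_OM
  obtain ⟨C2, hC2, hA⟩ := hA
  obtain ⟨C3, hC3, hL⟩ := hL
  obtain ⟨C4, T4, hC4, hT4, hD⟩ := hG.dens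
  obtain ⟨C5, hC5, hO⟩ := hO
  obtain ⟨C6, T6, hC6, hT6, hN⟩ := H370.nn_asymp hG.good
  refine ⟨(1 + C6) * (16 * C2) * 2 + C3 * C4 + C1 + 16 * C5, max (max T1 T4) (max T6 (Real.exp 20)),
    by positivity, le_trans hT1 ((le_max_left _ _).trans (le_max_left _ _)), fun T hT => ?_⟩
  have hTT1 : T1 ≤ T := ((le_max_left _ _).trans (le_max_left _ _)).trans hT
  have hTT4 : T4 ≤ T := ((le_max_right _ _).trans (le_max_left _ _)).trans hT
  have hTT6 : T6 ≤ T := ((le_max_left _ _).trans (le_max_right _ _)).trans hT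
  have hTe : Real.exp 20 ≤ T := ((le_max_right _ _).trans (le_max_right _ _)).trans hT
  have hT0 : 0 < T := (Real.exp_pos _).trans_le hTe
  have hL20 : 20 ≤ Real.log T := by rw [Real.le_log_iff_exp_le hT0]; exact hTe
  refine ⟨hL20, fun η V F hη hF => ?_⟩
  have hLT := log_le_tenth hTe
  set L := Real.log T with hLd
  have hab : T + 2 * L ≤ 2 * T - 2 * L := by linarith
  obtain ⟨U1, U2, hU1, hU1', hU2, hU2', hE⟩ := hEF T hTT1
  have hT10 : 10 ≤ T := hT1.trans hTT1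
  have hU : 1 ≤ U1 := by linarith
  have hc2 := hF.c2
  have hFc := hc2.cont
  have hR : 1 ≤ L / 4 := by linarith
  set Z := H370.Zf G U1 U2 with hZ
  set IF := ∫ x : ℝ, F x with hIF
  set I1 := ∫ x : ℝ, |F x| with hI1
  set I2 := ∫ x : ℝ, |deriv (deriv F) x| with hI2
  have hI10 : 0 ≤ I1 := integral_nonneg fun _ => abs_nonneg _
  have hI20 : 0 ≤ I2 := integral_nonneg fun _ => abs_nonneg _
  have hKc := KF_cont hc2 (L / 4)
  have hBc := (hB w hG.le1 F hc2 (L / 4) hR).2.1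
  -- the statistic on the window
  have hXF : ∀ t ∈ Icc (T + 2 * L) (2 * T - 2 * L), XG G F T t =
      (∑ s ∈ Z, (H370.mult G s : ℝ) * F (s.im - t)) - L / (2 * Real.pi) * IF := by
    intro t ht
    exact XG_eq hG hc2 hU (by linarith [ht.1]) (by linarith [ht.2])
  have hXc : Continuous fun t : ℝ => (∑ s ∈ Z, (H370.mult G s : ℝ) * F (s.im - t)) - L / (2 * Real.pi) * IF := by
    fun_prop
  refine ⟨hXc.continuousOn.congr hXF, hab, ?_⟩
  -- the bound functions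
  set g1 : ℝ → ℝ := fun x => ‖KF F (L / 4) x - F x‖ with hg1
  set g2 : ℂ → ℝ → ℝ := fun s x => ‖KF F (L / 4) ((x : ℂ) + ((s.re - 1 / 2 : ℝ) : ℂ) * I) +
        KF F (L / 4) ((x : ℂ) - ((s.re - 1 / 2 : ℝ) : ℂ) * I) - 2 * KF F (L / 4) x‖ with hg2
  have hg1c : Continuous g1 := by rw [hg1]; fun_prop
  have hg2c : ∀ s, Continuous (g2 s) := by intro s; rw [hg2]; fun_prop
  have hpt : ∀ t ∈ Icc (T + 2 * L) (2 * T - 2 * L), |XG G F T t + BG w F (L / 4) t| ≤
      (∑ s ∈ Z, (H370.mult G s : ℝ) * (g1 (s.im - t) + g2 s (s.im - t))) +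
        (C1 * I1 + L / (2 * Real.pi) * (C5 / (L / 4) ^ 2) * I1) := by
    intro t ht
    have h1 := point_diff hG (F := F) (R := L / 4) (U2 := U2) (t := t) hU
    have h2 := Z_eq (G := G) hG.le1 hB hc2 (T := T) (U1 := U1) (U2 := U2) (t := t) hR
      (fun t h1 h2 => hE (L / 4) t hR (by linarith) h1 h2) (by linarith [ht.1]) (by linarith [ht.2])
    have h3 : |XG G F T t + BG w F (L / 4) t| = ‖(((XG G F T t + BG w F (L / 4) t : ℝ)) : ℂ)‖ := by
      rw [Complex.norm_real, Real.norm_eq_abs]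
    rw [h3, hXF t ht]
    have h4 : (((∑ s ∈ Z, (H370.mult G s : ℝ) * F (s.im - t)) - L / (2 * Real.pi) * IF + BG w F (L / 4) t : ℝ) : ℂ) =
        (((∑ s ∈ Z, (H370.mult G s : ℝ) * F (s.im - t) : ℝ) : ℂ) -
          ∑ s ∈ Z, (H370.mult G s : ℂ) * KF F (L / 4) (H370.zz s - t)) +
        ((∑ s ∈ Z, (H370.mult G s : ℂ) * KF F (L / 4) (H370.zz s - t)) -
          ((L / (2 * Real.pi) * om (L / 4) * IF - BG w F (L / 4) t : ℝ) : ℂ)) +
        ((L / (2 * Real.pi) * (om (L / 4) - 1) * IF : ℝ) : ℂ) := by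
      push_cast; ring
    rw [h4]
    refine (norm_add_le _ _).trans ?_
    have h5 : ‖((L / (2 * Real.pi) * (om (L / 4) - 1) * IF : ℝ) : ℂ)‖ ≤
        L / (2 * Real.pi) * (C5 / (L / 4) ^ 2) * I1 := by
      rw [Complex.norm_real, Real.norm_eq_abs, abs_mul, abs_mul]
      have h6 : |IF| ≤ I1 := by
        rw [hIF, ← Real.norm_eq_abs]
        exact norm_integral_le_integral_norm _
      have h7 : |L / (2 * Real.pi)| = L / (2 * Real.pi) := abs_of_nonneg (by positivity)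
      rw [h7]
      have h8 := hO (L / 4) hR
      exact mul_le_mul (mul_le_mul_of_nonneg_left h8 (by positivity)) h6 (abs_nonneg _) (by positivity)
    have h9 := norm_add_le (((∑ s ∈ Z, (H370.mult G s : ℝ) * F (s.im - t) : ℝ) : ℂ) -
          ∑ s ∈ Z, (H370.mult G s : ℂ) * KF F (L / 4) (H370.zz s - t))
        ((∑ s ∈ Z, (H370.mult G s : ℂ) * KF F (L / 4) (H370.zz s - t)) -
          ((L / (2 * Real.pi) * om (L / 4) * IF - BG w F (L / 4) t : ℝ) : ℂ))
    have h10 : ‖((∑ s ∈ Z, (H370.mult G s : ℝ) * F (s.im - t) : ℝ) : ℂ) -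
          ∑ s ∈ Z, (H370.mult G s : ℂ) * KF F (L / 4) (H370.zz s - t)‖ ≤
        ∑ s ∈ Z, (H370.mult G s : ℝ) * (g1 (s.im - t) + g2 s (s.im - t)) := h1
    linarith
  -- integrate
  have hint : ∫ t in (T + 2 * L)..(2 * T - 2 * L), |XG G F T t + BG w F (L / 4) t| ≤
      ∫ t in (T + 2 * L)..(2 * T - 2 * L), ((∑ s ∈ Z, (H370.mult G s : ℝ) * (g1 (s.im - t) + g2 s (s.im - t))) +
        (C1 * I1 + L / (2 * Real.pi) * (C5 / (L / 4) ^ 2) * I1)) := by
    have he : ∫ t in (T + 2 * L)..(2 * T - 2 * L), |XG G F T t + BG w F (L / 4) t| =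
        ∫ t in (T + 2 * L)..(2 * T - 2 * L), |(∑ s ∈ Z, (H370.mult G s : ℝ) * F (s.im - t)) -
          L / (2 * Real.pi) * IF + BG w F (L / 4) t| := by
      apply intervalIntegral.integral_congr
      intro t ht
      rw [uIcc_of_le hab] at ht
      simp only
      rw [hXF t ht]
    rw [he]
    apply intervalIntegral.integral_mono_on hab
    · exact Continuous.intervalIntegrable (by fun_prop) _ _
    · exact Continuous.intervalIntegrable (by fun_prop) _ _
    · intro t ht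
      have := hpt t ht
      rw [hXF t ht] at this
      exact this
  refine hint.trans ?_
  have hsplit : ∫ t in (T + 2 * L)..(2 * T - 2 * L), ((∑ s ∈ Z, (H370.mult G s : ℝ) * (g1 (s.im - t) + g2 s (s.im - t))) +
        (C1 * I1 + L / (2 * Real.pi) * (C5 / (L / 4) ^ 2) * I1)) =
      (∑ s ∈ Z, (H370.mult G s : ℝ) * ((∫ t in (T + 2 * L)..(2 * T - 2 * L), g1 (s.im - t)) +
        ∫ t in (T + 2 * L)..(2 * T - 2 * L), g2 s (s.im - t))) +
      (2 * T - 2 * L - (T + 2 * L)) * (C1 * I1 + L / (2 * Real.pi) * (C5 / (L / 4) ^ 2) * I1) := by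
    rw [intervalIntegral.integral_add, intervalIntegral.integral_const, smul_eq_mul]
    · congr 1
      rw [intervalIntegral.integral_finsetSum]
      · refine Finset.sum_congr rfl fun s _ => ?_
        rw [intervalIntegral.integral_const_mul, intervalIntegral.integral_add]
        · exact (hg1c.comp (by fun_prop)).intervalIntegrable _ _
        · exact ((hg2c s).comp (by fun_prop)).intervalIntegrable _ _
      · intro s _
        have := hg2c s
        exact Continuous.intervalIntegrable (by fun_prop) _ _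
    · have := hg2c
      exact Continuous.intervalIntegrable (by fun_prop) _ _
    · exact intervalIntegrable_const
  rw [hsplit]
  -- the two parts
  obtain ⟨ha1, ha2⟩ := hA F hc2 (L / 4) hR
  have hb : ∀ s ∈ Z, (H370.mult G s : ℝ) * ((∫ t in (T + 2 * L)..(2 * T - 2 * L), g1 (s.im - t)) +
        ∫ t in (T + 2 * L)..(2 * T - 2 * L), g2 s (s.im - t)) ≤
      (H370.mult G s : ℝ) * (C2 / (L / 4) ^ 2 * (I1 + I2)) +
        C3 * I2 * ((H370.mult G s : ℝ) * ((s.re - 1 / 2) ^ 2 * Real.exp (L * |s.re - 1 / 2| / 4))) := by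
    intro s hs
    rw [hZ, H370.mem_Zf hG.good hU] at hs
    obtain ⟨hs1, hs2, -⟩ := hs
    have hy : |s.re - 1 / 2| ≤ 1 / 2 := by rw [abs_le]; constructor <;> linarith
    obtain ⟨hb1, hb2⟩ := hL F hc2 (L / 4) (s.re - 1 / 2) hR hy
    have h1 := int_shift_le ha1.norm (fun _ => norm_nonneg _) s.im (T + 2 * L) (2 * T - 2 * L) hab
    have h2 := int_shift_le hb1.norm (fun _ => norm_nonneg _) s.im (T + 2 * L) (2 * T - 2 * L) hab
    have h3 : ∫ t in (T + 2 * L)..(2 * T - 2 * L), g1 (s.im - t) ≤ C2 / (L / 4) ^ 2 * (I1 + I2) := h1.trans ha2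
    have h4 : ∫ t in (T + 2 * L)..(2 * T - 2 * L), g2 s (s.im - t) ≤
        C3 * (s.re - 1 / 2) ^ 2 * Real.exp (L / 4 * |s.re - 1 / 2|) * I2 := h2.trans hb2
    have h5 : Real.exp (L / 4 * |s.re - 1 / 2|) ≤ Real.exp (L * |s.re - 1 / 2| / 4) := by
      apply Real.exp_le_exp.2
      nlinarith [mul_nonneg (by linarith : (0:ℝ) ≤ L) (abs_nonneg (s.re - 1 / 2))]
    have h6 : C3 * (s.re - 1 / 2) ^ 2 * Real.exp (L / 4 * |s.re - 1 / 2|) * I2 ≤
        C3 * I2 * ((s.re - 1 / 2) ^ 2 * Real.exp (L * |s.re - 1 / 2| / 4)) := by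
      have : C3 * (s.re - 1 / 2) ^ 2 * Real.exp (L / 4 * |s.re - 1 / 2|) * I2 =
        C3 * I2 * ((s.re - 1 / 2) ^ 2 * Real.exp (L / 4 * |s.re - 1 / 2|)) := by ring
      rw [this]
      gcongr
    have hm : (0 : ℝ) ≤ H370.mult G s := Nat.cast_nonneg _
    calc _ ≤ (H370.mult G s : ℝ) * (C2 / (L / 4) ^ 2 * (I1 + I2) +
          C3 * I2 * ((s.re - 1 / 2) ^ 2 * Real.exp (L * |s.re - 1 / 2| / 4))) :=
          mul_le_mul_of_nonneg_left (by linarith) hm
      _ = _ := by ring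
  have hsum := Finset.sum_le_sum hb
  rw [Finset.sum_add_distrib, ← Finset.sum_mul, ← Finset.mul_sum] at hsum
  have hNN : ∑ s ∈ Z, (H370.mult G s : ℝ) ≤ (1 + C6) * T * L := by
    have h1 := hN T hTT6 U1 U2 hU1 hU1' hU2 hU2'
    have h2 : (H370.NN G U1 U2 : ℝ) = ∑ s ∈ Z, (H370.mult G s : ℝ) := by
      rw [H370.NN_eq hG.good hU]
      push_cast
      rfl
    rw [h2] at h1
    have h3 := (abs_le.1 h1).2
    have hpi := Real.pi_gt_three
    have h4 : T * L / (2 * Real.pi) ≤ T * L := by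
      apply div_le_self (by positivity); linarith
    nlinarith [mul_pos hT0 (by linarith : (0:ℝ) < L), mul_le_mul_of_nonneg_left (by linarith : (1:ℝ) ≤ L) (by positivity : (0:ℝ) ≤ C6 * T)]
  have hDD := hD T hTT4 U1 U2 hU1 hU1' hU2 hU2'
  have hη1 := hF.l1
  have hη2 := hF.l2
  rw [← hI1] at hη1
  rw [← hI2] at hη2
  have hL0 : 0 < L := by linarith
  have p1 : (∑ s ∈ Z, (H370.mult G s : ℝ)) * (C2 / (L / 4) ^ 2 * (I1 + I2)) ≤ (1 + C6) * (16 * C2) * 2 * (T * η) := by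
    calc (∑ s ∈ Z, (H370.mult G s : ℝ)) * (C2 / (L / 4) ^ 2 * (I1 + I2)) ≤
        ((1 + C6) * T * L) * (C2 / (L / 4) ^ 2 * (η + η * L)) := by gcongr
      _ = (1 + C6) * (16 * C2) * (1 / L + 1) * (T * η) := by field_simp; ring
      _ ≤ _ := by
          have : 1 / L + 1 ≤ 2 := by
            have : 1 / L ≤ 1 := by rw [div_le_one hL0]; linarith
            linarith
          gcongr
  have p2 : C3 * I2 * (∑ s ∈ Z, (H370.mult G s : ℝ) * ((s.re - 1 / 2) ^ 2 * Real.exp (L * |s.re - 1 / 2| / 4))) ≤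
      C3 * C4 * (T * η) := by
    calc C3 * I2 * (∑ s ∈ Z, (H370.mult G s : ℝ) * ((s.re - 1 / 2) ^ 2 * Real.exp (L * |s.re - 1 / 2| / 4))) ≤
        C3 * (η * L) * (C4 * T / L) := by
          apply mul_le_mul (mul_le_mul_of_nonneg_left hη2 hC3.le) hDD _ (by positivity)
          exact Finset.sum_nonneg fun s _ => by positivity
      _ = _ := by field_simp
  have p3 : (2 * T - 2 * L - (T + 2 * L)) * (C1 * I1 + L / (2 * Real.pi) * (C5 / (L / 4) ^ 2) * I1) ≤
      (C1 + 16 * C5) * (T * η) := by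
    have h1 : L / (2 * Real.pi) * (C5 / (L / 4) ^ 2) ≤ 16 * C5 := by
      have hpi := Real.pi_gt_three
      have : L / (2 * Real.pi) * (C5 / (L / 4) ^ 2) = 16 * C5 / (2 * Real.pi * L) := by
        field_simp
        norm_num
      rw [this]
      apply div_le_self (by positivity)
      nlinarith
    calc _ ≤ T * (C1 * I1 + 16 * C5 * I1) := by
          apply mul_le_mul (by linarith) _ (by positivity) hT0.le
          gcongr
      _ = (C1 + 16 * C5) * (T * I1) := by ring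
      _ ≤ _ := by gcongr
  calc _ ≤ (1 + C6) * (16 * C2) * 2 * (T * η) + C3 * C4 * (T * η) + (C1 + 16 * C5) * (T * η) := by linarith
    _ = _ := by ring

end Pool.Agent.H203.GE
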