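import Pool.Agent.H203.GE.Defs

set_option autoImplicit false

/-! Leaf BBI: the prime side with coefficients (copy of ME/BBI.lean, ME/PRC.lean). -/

open Complex Filter Topology Set MeasureTheory

namespace Pool.Agent.H203.GE

open Pool.Agent.H203.ME hiding S_BBI

namespace BBIL

lemma cf_norm {w : ℕ → ℂ} (hw : ∀ n, ‖w n‖ ≤ 1) (c : ℝ) (n : ℕ) (t : ℝ) :
    ‖(c : ℂ) * (w n * ee n t)‖ ≤ |c| := by
  rw [norm_mul, norm_mul, Pool.Agent.H203.ME.BBIL.norm_ee, mul_one, Complex.norm_real, Real.norm_eq_abs]
  exact mul_le_of_le_one_right (abs_nonneg _) (hw n)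

lemma inter {w : ℕ → ℂ} (hw : ∀ n, ‖w n‖ ≤ 1) {F : ℝ → ℝ} (hF : C2c F) {R : ℝ} (hR : 1 ≤ R) (t : ℝ) :
    ∫ s : ℝ, F s * PG w R (t + s) = BG w F R t := by
  set c : ℕ → ℝ := fun n => ArithmeticFunction.vonMangoldt n / Real.sqrt n * cR R (Real.log n) with hc
  have hcs : Summable (fun n => |c n|) := Pool.Agent.H203.ME.BBIL.coef_summable hR
  have hFc : Continuous F := hF.cd.continuous
  have hFk : HasCompactSupport F := Pool.Agent.H203.ME.BBIL.hcs hF
  have hFi : Integrable F := hFc.integrable_of_hasCompactSupport hFk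
  -- the series
  set S : ℝ → ℂ := fun s => ∑' n : ℕ, (c n : ℂ) * (w n * ee n (t + s)) with hS
  have hce : ∀ n, Continuous (fun s : ℝ => w n * ee n (t + s)) := fun n =>
    continuous_const.mul (Pool.Agent.H203.ME.BBIL.cont_ee n t)
  have hScont : Continuous S := by
    apply continuous_tsum (u := fun n => |c n|)
    · intro n
      exact continuous_const.mul (hce n)
    · exact hcs
    · intro n s
      exact cf_norm hw _ n _
  have hfc : Continuous (fun s : ℝ => (F s : ℂ) * S s) :=
    (Complex.continuous_ofReal.comp hFc).mul hScont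
  have hfk : HasCompactSupport (fun s : ℝ => (F s : ℂ) * S s) := by
    apply HasCompactSupport.mul_right
    exact hFk.comp_left (g := fun x : ℝ => (x : ℂ)) (by simp)
  have hfi : Integrable (fun s : ℝ => (F s : ℂ) * S s) := hfc.integrable_of_hasCompactSupport hfk
  -- interchange
  set G : ℕ → ℝ → ℂ := fun n s => (F s : ℂ) * ((c n : ℂ) * (w n * ee n (t + s))) with hG
  have hGc : ∀ n, Continuous (G n) := fun n =>
    (Complex.continuous_ofReal.comp hFc).mul (continuous_const.mul (hce n))
  have hGi : ∀ n, Integrable (G n) := by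
    intro n
    apply (hGc n).integrable_of_hasCompactSupport
    apply HasCompactSupport.mul_right
    exact hFk.comp_left (g := fun x : ℝ => (x : ℂ)) (by simp)
  have hGn : ∀ n s, ‖G n s‖ ≤ |c n| * |F s| := by
    intro n s
    rw [hG]
    simp only
    rw [norm_mul, Complex.norm_real, Real.norm_eq_abs, mul_comm]
    exact mul_le_mul_of_nonneg_right (cf_norm hw _ n _) (abs_nonneg _)
  have hGs : Summable (fun n => ∫ s, ‖G n s‖) := by
    refine Summable.of_nonneg_of_le (fun n => integral_nonneg fun _ => norm_nonneg _) (fun n => ?_)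
      (hcs.mul_right (∫ s, |F s|))
    rw [← integral_const_mul]
    exact integral_mono (hGi n).norm (hFi.abs.const_mul _) (hGn n)
  have hsum := hasSum_integral_of_summable_integral_norm hGi hGs
  have hGS : ∀ s, ∑' n, G n s = (F s : ℂ) * S s := by
    intro s
    rw [hG, hS]
    simp only
    rw [tsum_mul_left]
  simp_rw [hGS] at hsum
  have hGint : ∀ n, ∫ s, G n s = (c n : ℂ) * FF F (Real.log n) * (w n * ee n t) := by
    intro n
    unfold FF
    rw [show (c n : ℂ) * (∫ s : ℝ, (F s : ℂ) * cexp (-(((Real.log n * s : ℝ) : ℂ) * I))) * (w n * ee n t) =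
      ((c n : ℂ) * (w n * ee n t)) * ∫ s : ℝ, (F s : ℂ) * cexp (-(((Real.log n * s : ℝ) : ℂ) * I)) by ring]
    rw [← integral_const_mul]
    congr 1
    funext s
    rw [hG]
    simp only
    rw [Pool.Agent.H203.ME.BBIL.ee_add]
    ring
  simp_rw [hGint] at hsum
  -- conclusion
  unfold BG
  rw [hsum.tsum_eq]
  have hre : (∫ s : ℝ, (F s : ℂ) * S s).re = ∫ s : ℝ, ((F s : ℂ) * S s).re :=
    (integral_re hfi).symm
  rw [hre, ← integral_const_mul]
  congr 1
  funext s
  unfold PG
  rw [Complex.re_ofReal_mul]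
  simp only [hS, hc]
  ring

end BBIL

theorem t_BBI : S_BBI := by
  intro w hw F hF R hR
  refine ⟨?_, ?_, fun t => BBIL.inter hw hF hR t⟩
  · unfold PG
    refine continuous_const.mul (Complex.continuous_re.comp ?_)
    refine continuous_tsum (u := fun n : ℕ =>
      |ArithmeticFunction.vonMangoldt n / Real.sqrt n * cR R (Real.log n)|) (fun n => ?_)
      (Pool.Agent.H203.ME.BBIL.coef_summable hR) ?_
    · unfold ee; fun_prop
    · intro n t
      exact BBIL.cf_norm hw _ n _
  · unfold BG
    refine continuous_const.mul (Complex.continuous_re.comp ?_)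
    refine continuous_tsum (u := fun n : ℕ =>
      |ArithmeticFunction.vonMangoldt n / Real.sqrt n * cR R (Real.log n)| * ∫ x : ℝ, |F x|) (fun n => ?_)
      ((Pool.Agent.H203.ME.BBIL.coef_summable hR).mul_right _) ?_
    · unfold ee; fun_prop
    · intro n t
      rw [mul_right_comm, norm_mul]
      exact mul_le_mul (BBIL.cf_norm hw _ n _) (FF_norm_le F _) (norm_nonneg _) (abs_nonneg _)

end Pool.Agent.H203.GE
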