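import Pool.Agent.H203.GE.Defs

set_option autoImplicit false

/-! The approximation in mean on `[aT, bT]` by the prime sum (leaf AP). -/

open Complex Filter Topology Set MeasureTheory

namespace Pool.Agent.H203.GE

open Pool.Agent.H203.ME

namespace APL

lemma adm_mono {η η' V L : ℝ} {F : ℝ → ℝ} (h : Adm η V L F) (hη : η ≤ η') (hL : 0 ≤ L) :
    Adm η' V L F where
  c2 := h.c2
  l1 := h.l1.trans hη
  l2 := h.l2.trans (mul_le_mul_of_nonneg_right hη hL)
  va := h.va
  tv := h.tv.trans hη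

lemma adm_two {η V L L' : ℝ} {F : ℝ → ℝ} (h : Adm η V L F) (hη : 0 ≤ η) (hL : L ≤ 2 * L') :
    Adm (2 * η) V L' F where
  c2 := h.c2
  l1 := h.l1.trans (by linarith)
  l2 := h.l2.trans (by nlinarith)
  va := h.va
  tv := h.tv.trans (by linarith)

lemma YG_cont (u : ℕ → ℂ) (F : ℝ → ℝ) (N : ℕ) : Continuous (YG u F N) := by
  unfold YG ee
  fun_prop

lemma XG_change (G : ℂ → ℂ) (F : ℝ → ℝ) (T W t : ℝ) :
    XG G F T t = XG G F W t + (Real.log W - Real.log T) / (2 * Real.pi) * ∫ x : ℝ, F x := by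
  unfold XG; ring

/-- the conclusion on one interval -/
def Q (G : ℂ → ℂ) (u : ℕ → ℂ) (a b : ℝ) : Prop := ∀ V δ : ℝ, 0 < V → 0 < δ →
  ∃ ε0 : ℝ, 0 < ε0 ∧ ∀ ε : ℝ, 0 < ε → ε ≤ ε0 → ∃ η T0 : ℝ, 0 < η ∧ η ≤ 1 ∧ 10 ≤ T0 ∧ ∀ T : ℝ, T0 ≤ T →
    ∀ F : ℝ → ℝ, Adm η V (Real.log T) F →
      ContinuousOn (XG G F T) (Icc (a * T) (b * T)) ∧
      ∫ t in (a * T)..(b * T), |XG G F T t + YG u F ⌊T ^ ε⌋₊ t| ≤ δ * T

lemma ev_log (c : ℝ) (hc : 0 < c) (w : ℝ) (hw : 0 < w) :
    ∀ᶠ T : ℝ in atTop, 2 * Real.log (w * T) ≤ c * T := by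
  have h1 : Tendsto (fun T : ℝ => w * T) atTop atTop := tendsto_id.const_mul_atTop hw
  have h2 := (Real.isLittleO_log_id_atTop.comp_tendsto h1).bound
    (show (0 : ℝ) < c / (2 * w) by positivity)
  filter_upwards [h2, h1.eventually_ge_atTop 1, eventually_gt_atTop 0] with T h3 h4 h5
  simp only [Function.comp, id, Real.norm_eq_abs] at h3
  rw [abs_of_nonneg (Real.log_nonneg h4), abs_of_nonneg (by linarith)] at h3
  have : c / (2 * w) * (w * T) = c * T / 2 := by field_simp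
  linarith

lemma ev_floor (w ε : ℝ) (hw : 0 < w) (hε : 0 < ε) : ∀ᶠ T : ℝ in atTop,
    ε * Real.log (w * T) / 4 ≤ Real.log (⌊T ^ ε⌋₊ : ℕ) ∧
      Real.log (⌊T ^ ε⌋₊ : ℕ) ≤ 2 * ε * Real.log (w * T) := by
  have h1 : Tendsto Real.log atTop atTop := Real.tendsto_log_atTop
  filter_upwards [eventually_ge_atTop 1,
    h1.eventually_ge_atTop ((Real.log 2 + ε * |Real.log w|) / ε * 2 + 2 * |Real.log w|)] with T hT h2
  have h3 : 1 ≤ T ^ ε := Real.one_le_rpow hT hε.le
  have h4 : 1 ≤ ⌊T ^ ε⌋₊ := Nat.one_le_floor_iff _ |>.2 h3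
  have h5 : T ^ ε / 2 ≤ (⌊T ^ ε⌋₊ : ℝ) := by
    have h6 := Nat.lt_floor_add_one (T ^ ε)
    have h7 : (1 : ℝ) ≤ (⌊T ^ ε⌋₊ : ℝ) := by exact_mod_cast h4
    linarith
  have h6 : (⌊T ^ ε⌋₊ : ℝ) ≤ T ^ ε := Nat.floor_le (by linarith)
  have hTp : 0 < T := by linarith
  have h7 : Real.log (T ^ ε) = ε * Real.log T := Real.log_rpow hTp ε
  have h8 : Real.log (w * T) = Real.log w + Real.log T := Real.log_mul hw.ne' hTp.ne'
  have h9 : Real.log (⌊T ^ ε⌋₊ : ℝ) ≤ ε * Real.log T := by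
    rw [← h7]; exact Real.log_le_log (by exact_mod_cast h4) h6
  have h10 : ε * Real.log T - Real.log 2 ≤ Real.log (⌊T ^ ε⌋₊ : ℝ) := by
    rw [← h7, ← Real.log_div (by positivity) (by norm_num)]
    exact Real.log_le_log (by positivity) h5
  have h11 : Real.log 2 + ε * |Real.log w| ≤ ε * Real.log T / 2 := by
    have h12 : (Real.log 2 + ε * |Real.log w|) / ε * 2 ≤ Real.log T := by
      have := abs_nonneg (Real.log w); linarith
    have h13 : (Real.log 2 + ε * |Real.log w|) / ε * 2 * ε ≤ Real.log T * ε :=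
      mul_le_mul_of_nonneg_right h12 hε.le
    have h14 : (Real.log 2 + ε * |Real.log w|) / ε * 2 * ε = (Real.log 2 + ε * |Real.log w|) * 2 := by
      field_simp
    linarith
  have h15 := le_abs_self (Real.log w)
  have h16 := neg_abs_le (Real.log w)
  have h17 : 2 * |Real.log w| ≤ Real.log T := by
    have : 0 ≤ (Real.log 2 + ε * |Real.log w|) / ε * 2 := by
      have := Real.log_nonneg (show (1 : ℝ) ≤ 2 by norm_num)
      positivity
    linarith
  constructor
  · rw [h8]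
    have : ε * Real.log w ≤ ε * |Real.log w| := mul_le_mul_of_nonneg_left h15 hε.le
    have h18 : 0 ≤ Real.log 2 := Real.log_nonneg (by norm_num)
    have h19 : 0 ≤ ε * |Real.log w| := by positivity
    nlinarith
  · rw [h8]
    nlinarith

/-- one piece -/
lemma piece (hA : S_APX) (hP : S_PRM) (hB : S_BBI) (G : ℂ → ℂ) (u : ℕ → ℂ) (hL : Lf G u)
    (x : ℝ) (hx : 0 < x) : Q G u x (5 / 4 * x) := by
  intro V δ hV hδ
  obtain ⟨CA, TA, hCA, hTA, hA⟩ := hA G u hL
  obtain ⟨CP, hCP, hP⟩ := hP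
  set w : ℝ := 3 / 4 * x with hw
  have hwp : 0 < w := by positivity
  set δ' : ℝ := δ / (4 * x) with hδ'
  have hδp : 0 < δ' := by positivity
  refine ⟨min (1 / 4) (δ * δ' / (CP * w * (V + 1))), by positivity, fun ε hε hε0 => ?_⟩
  have hε4 : ε ≤ 1 / 4 := hε0.trans (min_le_left _ _)
  have hε5 : ε ≤ δ * δ' / (CP * w * (V + 1)) := hε0.trans (min_le_right _ _)
  obtain ⟨TP, hTP, hP⟩ := hP ε hε hε4
  set c1 : ℝ := |Real.log w| with hc1
  have hc10 : 0 ≤ c1 := abs_nonneg _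
  set η : ℝ := min (1 / 2) (min (δ / 4 / (2 * CA * w + x * c1)) (δ / 4 * (ε ^ 2 * δ') / (CP * w))) with hη
  have hden : 0 < 2 * CA * w + x * c1 := by positivity
  have hηp : 0 < η := by positivity
  have hη1 : η ≤ 1 / 2 := min_le_left _ _
  have hη2 : (2 * CA * w + x * c1) * η ≤ δ / 4 := by
    have : η ≤ δ / 4 / (2 * CA * w + x * c1) := (min_le_right _ _).trans (min_le_left _ _)
    rw [le_div_iff₀ hden] at this
    linarith
  have hη3 : CP * w * η ≤ δ / 4 * (ε ^ 2 * δ') := by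
    have : η ≤ δ / 4 * (ε ^ 2 * δ') / (CP * w) := (min_le_right _ _).trans (min_le_right _ _)
    rw [le_div_iff₀ (by positivity)] at this
    linarith
  have hwT : Tendsto (fun T : ℝ => w * T) atTop atTop := tendsto_id.const_mul_atTop hwp
  have hev : ∀ᶠ T : ℝ in atTop, TA ≤ w * T ∧ TP ≤ w * T ∧ 2 * Real.log (w * T) ≤ (1 / 4 * x) * T ∧
      (ε * Real.log (w * T) / 4 ≤ Real.log (⌊T ^ ε⌋₊ : ℕ) ∧
      Real.log (⌊T ^ ε⌋₊ : ℕ) ≤ 2 * ε * Real.log (w * T)) ∧ 2 * c1 ≤ Real.log T :=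
    (hwT.eventually_ge_atTop TA).and ((hwT.eventually_ge_atTop TP).and
      ((ev_log (1 / 4 * x) (by positivity) w hwp).and ((ev_floor w ε hwp hε).and
        (Real.tendsto_log_atTop.eventually_ge_atTop _))))
  obtain ⟨T1, hT1⟩ := eventually_atTop.1 hev
  refine ⟨η, max 10 T1, hηp, by linarith, le_max_left _ _, fun T hT F hF => ?_⟩
  have hT10 : 10 ≤ T := (le_max_left _ _).trans hT
  have hTp : 0 < T := by linarith
  obtain ⟨h1, h2, h3, ⟨h4, h5⟩, h6⟩ := hT1 T ((le_max_right _ _).trans hT)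
  have h8 : Real.log (w * T) = Real.log w + Real.log T := Real.log_mul hwp.ne' hTp.ne'
  have h9 : Real.log T ≤ 2 * Real.log (w * T) := by
    rw [h8]; have := neg_abs_le (Real.log w); linarith
  have hF2 : Adm (2 * η) V (Real.log (w * T)) F := adm_two hF hηp.le h9
  obtain ⟨hl20, hA⟩ := hA (w * T) h1
  obtain ⟨hc, hle, hAi⟩ := hA (2 * η) V F (by positivity) hF2
  have hPi := hP (w * T) h2 u hL.le1 ⌊T ^ ε⌋₊ h4 h5 (2 * η) V F (by positivity) (by linarith) hV.le hF2
  obtain ⟨-, hBc, -⟩ := hB u hL.le1 F hF.c2 (Real.log (w * T) / 4) (by linarith)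
  set W : ℝ := w * T with hW
  have hlW : 0 ≤ Real.log W := by linarith
  have hsub : Icc (x * T) (5 / 4 * x * T) ⊆ Icc (W + 2 * Real.log W) (2 * W - 2 * Real.log W) := by
    refine Icc_subset_Icc ?_ ?_
    · have : W = 3 / 4 * x * T := by rw [hW, hw]
      linarith
    · have : W = 3 / 4 * x * T := by rw [hW, hw]
      linarith
  have hsub2 : Icc (x * T) (5 / 4 * x * T) ⊆ Icc W (2 * W) :=
    hsub.trans (Icc_subset_Icc (by linarith) (by linarith))
  have hxT : x * T ≤ 5 / 4 * x * T := by nlinarith [mul_pos hx hTp]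
  have hcont : ContinuousOn (XG G F T) (Icc (x * T) (5 / 4 * x * T)) := by
    have e : XG G F T = fun t => XG G F W t + (Real.log W - Real.log T) / (2 * Real.pi) * ∫ x : ℝ, F x := by
      funext t; exact XG_change G F T W t
    rw [e]
    exact (hc.mono hsub).add continuousOn_const
  refine ⟨hcont, ?_⟩
  -- the three parts
  have hYc := YG_cont u F ⌊T ^ ε⌋₊
  set N := ⌊T ^ ε⌋₊ with hN
  set κ : ℝ := |(Real.log W - Real.log T) / (2 * Real.pi) * ∫ x : ℝ, F x| with hκ
  have hκle : κ ≤ c1 * η := by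
    have e1 : |∫ x : ℝ, F x| ≤ η := (abs_integral_le_integral_abs).trans hF.l1
    have e2 : |(Real.log W - Real.log T) / (2 * Real.pi)| ≤ c1 := by
      rw [h8, add_sub_cancel_right, abs_div, abs_of_pos (show (0 : ℝ) < 2 * Real.pi by positivity),
        div_le_iff₀ (by positivity)]
      nlinarith [Real.pi_gt_three]
    rw [hκ, abs_mul]
    exact mul_le_mul e2 e1 (abs_nonneg _) hc10
  have hpt : ∀ t, |XG G F T t + YG u F N t| ≤
      |XG G F W t + BG u F (Real.log W / 4) t| + (κ + δ') +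
        1 / (4 * δ') * (BG u F (Real.log W / 4) t - YG u F N t) ^ 2 := by
    intro t
    rw [XG_change G F T W t]
    set B := BG u F (Real.log W / 4) t
    set Y := YG u F N t
    set c := (Real.log W - Real.log T) / (2 * Real.pi) * ∫ x : ℝ, F x
    have e1 : XG G F W t + c + Y = (XG G F W t + B) + c - (B - Y) := by ring
    have e2 : |B - Y| ≤ δ' + 1 / (4 * δ') * (B - Y) ^ 2 := by
      have e3 : 0 ≤ (|B - Y| - 2 * δ') ^ 2 := sq_nonneg _
      have e4 : |B - Y| ^ 2 = (B - Y) ^ 2 := sq_abs _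
      have e5 : |B - Y| ≤ (4 * δ' ^ 2 + (B - Y) ^ 2) / (4 * δ') := by
        rw [le_div_iff₀ (by positivity)]
        nlinarith
      refine e5.trans (le_of_eq ?_)
      field_simp
    rw [e1]
    calc |XG G F W t + B + c - (B - Y)| ≤ |XG G F W t + B + c| + |B - Y| := abs_sub _ _
      _ ≤ |XG G F W t + B| + |c| + |B - Y| := by gcongr; exact abs_add_le _ _
      _ ≤ _ := by linarith
  have hI1 : IntervalIntegrable (fun t => |XG G F W t + BG u F (Real.log W / 4) t|) volume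
      (x * T) (5 / 4 * x * T) := by
    apply ContinuousOn.intervalIntegrable
    rw [uIcc_of_le hxT]
    exact ((hc.mono hsub).add hBc.continuousOn).abs
  have hI1' : IntervalIntegrable (fun t => |XG G F W t + BG u F (Real.log W / 4) t|) volume
      (W + 2 * Real.log W) (2 * W - 2 * Real.log W) := by
    apply ContinuousOn.intervalIntegrable
    rw [uIcc_of_le hle]
    exact (hc.add hBc.continuousOn).abs
  have hsqc : Continuous fun t => (BG u F (Real.log W / 4) t - YG u F N t) ^ 2 := (hBc.sub hYc).pow 2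
  have hI2 : IntervalIntegrable (fun t => 1 / (4 * δ') * (BG u F (Real.log W / 4) t - YG u F N t) ^ 2)
      volume (x * T) (5 / 4 * x * T) := (continuous_const.mul hsqc).intervalIntegrable _ _
  have hI0 : IntervalIntegrable (fun t => |XG G F T t + YG u F N t|) volume (x * T) (5 / 4 * x * T) := by
    apply ContinuousOn.intervalIntegrable
    rw [uIcc_of_le hxT]
    exact (hcont.add hYc.continuousOn).abs
  have hb1 : ∫ t in (x * T)..(5 / 4 * x * T), |XG G F W t + BG u F (Real.log W / 4) t| ≤ CA * W * (2 * η) := by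
    refine le_trans ?_ hAi
    have hmem1 := hsub (left_mem_Icc.2 hxT)
    have hmem2 := hsub (right_mem_Icc.2 hxT)
    exact intervalIntegral.integral_mono_interval hmem1.1 hxT hmem2.2
      (Eventually.of_forall fun t => abs_nonneg _) hI1'
  have hb2 : ∫ t in (x * T)..(5 / 4 * x * T), (BG u F (Real.log W / 4) t - YG u F N t) ^ 2 ≤
      CP * W * ((2 * η) ^ 2 / ε ^ 2 + ε ^ 4 * (V + 1)) := by
    refine le_trans ?_ hPi
    have hmem1 := hsub2 (left_mem_Icc.2 hxT)
    have hmem2 := hsub2 (right_mem_Icc.2 hxT)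
    exact intervalIntegral.integral_mono_interval hmem1.1 hxT hmem2.2
      (Eventually.of_forall fun t => sq_nonneg _) (hsqc.intervalIntegrable _ _)
  have hmain : ∫ t in (x * T)..(5 / 4 * x * T), |XG G F T t + YG u F N t| ≤
      CA * W * (2 * η) + (κ + δ') * (1 / 4 * x * T) +
        1 / (4 * δ') * (CP * W * ((2 * η) ^ 2 / ε ^ 2 + ε ^ 4 * (V + 1))) := by
    calc _ ≤ ∫ t in (x * T)..(5 / 4 * x * T), (|XG G F W t + BG u F (Real.log W / 4) t| + (κ + δ') +
        1 / (4 * δ') * (BG u F (Real.log W / 4) t - YG u F N t) ^ 2) :=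
          intervalIntegral.integral_mono_on hxT hI0
            ((hI1.add intervalIntegrable_const).add hI2) fun t _ => hpt t
      _ = (∫ t in (x * T)..(5 / 4 * x * T), |XG G F W t + BG u F (Real.log W / 4) t|) +
          (κ + δ') * (1 / 4 * x * T) +
          1 / (4 * δ') * ∫ t in (x * T)..(5 / 4 * x * T), (BG u F (Real.log W / 4) t - YG u F N t) ^ 2 := by
          rw [intervalIntegral.integral_add (hI1.add intervalIntegrable_const) hI2,
            intervalIntegral.integral_add hI1 intervalIntegrable_const,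
            intervalIntegral.integral_const, intervalIntegral.integral_const_mul, smul_eq_mul]
          ring
      _ ≤ _ := by gcongr
  refine hmain.trans ?_
  have hWe : W = w * T := rfl
  -- the final estimate
  have f1 : CA * W * (2 * η) + κ * (1 / 4 * x * T) ≤ δ / 4 * T := by
    have : κ * (1 / 4 * x * T) ≤ (c1 * η) * (x * T) := by
      apply mul_le_mul hκle _ (by positivity) (by positivity)
      nlinarith [mul_pos hx hTp]
    have e : CA * W * (2 * η) + (c1 * η) * (x * T) = ((2 * CA * w + x * c1) * η) * T := by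
      rw [hWe]; ring
    calc _ ≤ CA * W * (2 * η) + (c1 * η) * (x * T) := by linarith
      _ = _ := e
      _ ≤ _ := mul_le_mul_of_nonneg_right hη2 hTp.le
  have f2 : δ' * (1 / 4 * x * T) ≤ δ / 4 * T := by
    rw [hδ']
    have : δ / (4 * x) * (1 / 4 * x * T) = δ / 16 * T := by field_simp; ring
    rw [this]
    nlinarith [mul_pos hδ hTp]
  have f3 : 1 / (4 * δ') * (CP * W * ((2 * η) ^ 2 / ε ^ 2)) ≤ δ / 4 * T := by
    have e1 : 1 / (4 * δ') * (CP * W * ((2 * η) ^ 2 / ε ^ 2)) = (CP * w * η) * η * T / (ε ^ 2 * δ') := by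
      rw [hWe]; field_simp; ring
    rw [e1, div_le_iff₀ (by positivity)]
    have e2 : (CP * w * η) * η ≤ (δ / 4 * (ε ^ 2 * δ')) * 1 :=
      mul_le_mul hη3 (by linarith) hηp.le (by positivity)
    nlinarith
  have f4 : 1 / (4 * δ') * (CP * W * (ε ^ 4 * (V + 1))) ≤ δ / 4 * T := by
    have e0 : ε ^ 4 ≤ ε := by
      have : ε ^ 4 ≤ ε ^ 1 := pow_le_pow_of_le_one hε.le (by linarith) (by norm_num)
      simpa using this
    have e1 : CP * w * (V + 1) * ε ≤ δ * δ' := by
      rw [le_div_iff₀ (by positivity)] at hε5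
      linarith
    have e2 : CP * w * (V + 1) * ε ^ 4 ≤ δ * δ' :=
      (mul_le_mul_of_nonneg_left e0 (by positivity)).trans e1
    have e3 : 1 / (4 * δ') * (CP * W * (ε ^ 4 * (V + 1))) = (CP * w * (V + 1) * ε ^ 4) * T / (4 * δ') := by
      rw [hWe]; field_simp
    rw [e3, div_le_iff₀ (by positivity)]
    nlinarith
  have e : CA * W * (2 * η) + (κ + δ') * (1 / 4 * x * T) +
        1 / (4 * δ') * (CP * W * ((2 * η) ^ 2 / ε ^ 2 + ε ^ 4 * (V + 1))) =
      (CA * W * (2 * η) + κ * (1 / 4 * x * T)) + δ' * (1 / 4 * x * T) +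
      1 / (4 * δ') * (CP * W * ((2 * η) ^ 2 / ε ^ 2)) + 1 / (4 * δ') * (CP * W * (ε ^ 4 * (V + 1))) := by
    ring
  rw [e]
  linarith

/-- gluing two intervals -/
lemma glue (G : ℂ → ℂ) (u : ℕ → ℂ) (a b c : ℝ) (hab : a ≤ b) (hbc : b ≤ c) (h1 : Q G u a b)
    (h2 : Q G u b c) : Q G u a c := by
  intro V δ hV hδ
  obtain ⟨e1, he1, h1⟩ := h1 V (δ / 2) hV (by positivity)
  obtain ⟨e2, he2, h2⟩ := h2 V (δ / 2) hV (by positivity)
  refine ⟨min e1 e2, lt_min he1 he2, fun ε hε hεm => ?_⟩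
  obtain ⟨η1, T1, hη1, hη1', hT1, h1⟩ := h1 ε hε (hεm.trans (min_le_left _ _))
  obtain ⟨η2, T2, hη2, hη2', hT2, h2⟩ := h2 ε hε (hεm.trans (min_le_right _ _))
  refine ⟨min η1 η2, max T1 T2, lt_min hη1 hη2, (min_le_left _ _).trans hη1',
    hT1.trans (le_max_left _ _), fun T hT F hF => ?_⟩
  have hTT : T1 ≤ T := (le_max_left _ _).trans hT
  have hTp : 0 < T := by linarith
  have hl : 0 ≤ Real.log T := Real.log_nonneg (by linarith)
  obtain ⟨c1, i1⟩ := h1 T hTT F (adm_mono hF (min_le_left _ _) hl)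
  obtain ⟨c2, i2⟩ := h2 T ((le_max_right _ _).trans hT) F (adm_mono hF (min_le_right _ _) hl)
  have hab' : a * T ≤ b * T := mul_le_mul_of_nonneg_right hab hTp.le
  have hbc' : b * T ≤ c * T := mul_le_mul_of_nonneg_right hbc hTp.le
  have hc : ContinuousOn (XG G F T) (Icc (a * T) (c * T)) := by
    rw [← Icc_union_Icc_eq_Icc hab' hbc']
    exact c1.union_of_isClosed c2 isClosed_Icc isClosed_Icc
  refine ⟨hc, ?_⟩
  have hYc := YG_cont u F ⌊T ^ ε⌋₊
  have j1 : IntervalIntegrable (fun t => |XG G F T t + YG u F ⌊T ^ ε⌋₊ t|) volume (a * T) (b * T) := by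
    apply ContinuousOn.intervalIntegrable
    rw [uIcc_of_le hab']
    exact (c1.add hYc.continuousOn).abs
  have j2 : IntervalIntegrable (fun t => |XG G F T t + YG u F ⌊T ^ ε⌋₊ t|) volume (b * T) (c * T) := by
    apply ContinuousOn.intervalIntegrable
    rw [uIcc_of_le hbc']
    exact (c2.add hYc.continuousOn).abs
  rw [← intervalIntegral.integral_add_adjacent_intervals j1 j2]
  linarith

lemma chain (hA : S_APX) (hP : S_PRM) (hB : S_BBI) (G : ℂ → ℂ) (u : ℕ → ℂ) (hL : Lf G u)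
    (a : ℝ) (ha : 0 < a) (n : ℕ) : Q G u a ((5 / 4) ^ (n + 1) * a) := by
  induction n with
  | zero => simpa using piece hA hP hB G u hL a ha
  | succ n ih =>
    have h := piece hA hP hB G u hL ((5 / 4) ^ (n + 1) * a) (by positivity)
    have e : 5 / 4 * ((5 / 4) ^ (n + 1) * a) = (5 / 4) ^ (n + 1 + 1) * a := by ring
    rw [e] at h
    refine glue G u a _ _ ?_ ?_ ih h
    · have : (1 : ℝ) ≤ (5 / 4) ^ (n + 1) := one_le_pow₀ (by norm_num)
      nlinarith
    · rw [← e]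
      have : 0 < (5 / 4 : ℝ) ^ (n + 1) * a := by positivity
      linarith

end APL

open APL in
theorem t_AP (hA : S_APX) (hP : S_PRM) (hB : S_BBI) : S_AP := by
  intro G u hL a b V δ ha hab hV hδ
  obtain ⟨n, hn⟩ := pow_unbounded_of_one_lt (b / a) (show (1 : ℝ) < 5 / 4 by norm_num)
  have hn' : b ≤ (5 / 4) ^ (n + 1) * a := by
    rw [div_lt_iff₀ ha] at hn
    have : (5 / 4 : ℝ) ^ n * a ≤ (5 / 4) ^ (n + 1) * a := by
      apply mul_le_mul_of_nonneg_right _ ha.le
      exact pow_le_pow_right₀ (by norm_num) (Nat.le_succ n)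
    linarith
  obtain ⟨ε0, hε0, h⟩ := chain hA hP hB G u hL a ha n V δ hV hδ
  refine ⟨ε0, hε0, fun ε hε hεm => ?_⟩
  obtain ⟨η, T0, hη, hη1, hT0, h⟩ := h ε hε hεm
  refine ⟨η, T0, hη, hη1, hT0, fun T hT F hF => ?_⟩
  obtain ⟨hc, hi⟩ := h T hT F hF
  have hTp : 0 < T := by linarith
  have hbT : b * T ≤ (5 / 4) ^ (n + 1) * a * T := mul_le_mul_of_nonneg_right hn' hTp.le
  have haT : a * T ≤ b * T := mul_le_mul_of_nonneg_right hab.le hTp.le
  refine ⟨hc.mono (Icc_subset_Icc le_rfl hbT), le_trans ?_ hi⟩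
  have hYc := YG_cont u F ⌊T ^ ε⌋₊
  refine intervalIntegral.integral_mono_interval le_rfl haT hbT
    (Eventually.of_forall fun t => abs_nonneg _) ?_
  apply ContinuousOn.intervalIntegrable
  rw [uIcc_of_le (haT.trans hbT)]
  exact (hc.add hYc.continuousOn).abs

end Pool.Agent.H203.GE
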