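import Pool.Agent.H203.GE.Defs4
import Pool.Agent.H203.GE.APX
import Pool.Agent.H203.GE.AP

set_option autoImplicit false

/-! All moments of the linear statistics on `[aT, bT]` (leaf BMI). -/

open Complex Filter Topology Set MeasureTheory

namespace Pool.Agent.H203.GE

open Pool.Agent.H203.ME hiding BG S_PT S_BBI S_EFW S_APX S_PRM XF_eq Zf_symm Z_eq point_diff

namespace BMIL

/-- continuity of the statistic -/
lemma cont {G : ℂ → ℂ} {u : ℕ → ℂ} (hG : Lf G u) {F : ℝ → ℝ} (hF : C2c F) (T : ℝ) {x y : ℝ}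
    (hx : 2 ≤ x) : ContinuousOn (XG G F T) (Icc x y) := by
  have hFc : Continuous F := hF.cd.continuous
  have hc : Continuous fun t : ℝ => (∑ s ∈ H370.Zf G (x - 1) (y + 1), (H370.mult G s : ℝ) * F (s.im - t)) -
      Real.log T / (2 * Real.pi) * ∫ x : ℝ, F x := by
    fun_prop
  refine hc.continuousOn.congr fun t ht => ?_
  exact XG_eq hG hF (by linarith) (by linarith [ht.1]) (by linarith [ht.2])

/-- the conclusion on one interval -/
def Q (G : ℂ → ℂ) (m : ℕ) (f : ℝ → ℝ) (a b : ℝ) : Prop := ∃ C K T0 : ℝ, 0 < C ∧ 1 ≤ K ∧ 10 ≤ T0 ∧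
  ∀ T : ℝ, T0 ≤ T → ∀ h : ℝ, 2 * (Real.log (Real.log T)) ^ 2 ≤ h * Real.log T → h ≤ 1 / K →
    ContinuousOn (XG G (fun x => f (x / h)) T) (Icc (a * T) (b * T)) ∧
    ∫ t in (a * T)..(b * T), |XG G (fun x => f (x / h)) T t| ^ m ≤ C * T

/-- the iterated logarithms of comparable numbers -/
lemma ev_loglog (w : ℝ) (hw : 0 < w) : ∀ᶠ T : ℝ in atTop,
    3 / 4 * Real.log T ≤ Real.log (w * T) ∧ 0 < Real.log (w * T) ∧
      (Real.log (Real.log (w * T))) ^ 2 ≤ 3 / 2 * (Real.log (Real.log T)) ^ 2 ∧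
      1 ≤ Real.log (Real.log T) := by
  have hll : Tendsto (fun T : ℝ => Real.log (Real.log T)) atTop atTop :=
    Real.tendsto_log_atTop.comp Real.tendsto_log_atTop
  filter_upwards [Real.tendsto_log_atTop.eventually_ge_atTop (4 * |Real.log w| + 4),
    hll.eventually_ge_atTop (10 * Real.log 2 + 1), eventually_gt_atTop 0] with T h1 h2 h3
  have h8 : Real.log (w * T) = Real.log w + Real.log T := Real.log_mul hw.ne' h3.ne'
  have h9 := le_abs_self (Real.log w)
  have h10 := neg_abs_le (Real.log w)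
  have h11 := abs_nonneg (Real.log w)
  have h12 : 0 < Real.log 2 := Real.log_pos (by norm_num)
  have h13 : 0 < Real.log T := by linarith
  refine ⟨by rw [h8]; linarith, by rw [h8]; linarith, ?_, by linarith⟩
  have h14 : 1 ≤ Real.log (w * T) := by rw [h8]; linarith
  have h15 : 0 ≤ Real.log (Real.log (w * T)) := Real.log_nonneg h14
  have h16 : Real.log (Real.log (w * T)) ≤ Real.log 2 + Real.log (Real.log T) := by
    rw [← Real.log_mul (by norm_num) h13.ne']
    exact Real.log_le_log (by linarith) (by rw [h8]; linarith)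
  have h17 : Real.log (Real.log (w * T)) ≤ 11 / 10 * Real.log (Real.log T) := by linarith
  have h18 : 0 ≤ Real.log (Real.log T) := by linarith
  calc (Real.log (Real.log (w * T))) ^ 2 ≤ (11 / 10 * Real.log (Real.log T)) ^ 2 :=
        pow_le_pow_left₀ h15 h17 2
    _ ≤ 3 / 2 * (Real.log (Real.log T)) ^ 2 := by nlinarith [sq_nonneg (Real.log (Real.log T))]

/-- one piece -/
lemma piece (hB : S_BMH) (G : ℂ → ℂ) (u : ℕ → ℂ) (hL : Lf G u) (m : ℕ) (f : ℝ → ℝ)
    (hf1 : ContDiff ℝ 2 f) (hf2 : HasCompactSupport f) (x : ℝ) (hx : 0 < x) :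
    Q G m f x (5 / 4 * x) := by
  obtain ⟨C1, K1, T1, hC1, hK1, hT1, hB⟩ := hB G u hL m f hf1 hf2
  obtain ⟨A, hA, hA'⟩ := FINL.bd hf2
  set w : ℝ := 3 / 4 * x with hw
  have hwp : 0 < w := by positivity
  set c1 : ℝ := |Real.log w| with hc1
  have hc10 : 0 ≤ c1 := abs_nonneg _
  set I0 : ℝ := |∫ x : ℝ, f x| with hI0
  have hI00 : 0 ≤ I0 := abs_nonneg _
  set c2 : ℝ := c1 * I0 with hc2
  have hc20 : 0 ≤ c2 := mul_nonneg hc10 hI00
  have hwT : Tendsto (fun T : ℝ => w * T) atTop atTop := tendsto_id.const_mul_atTop hwp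
  have hev : ∀ᶠ T : ℝ in atTop, (T1 ≤ w * T ∧ 2 ≤ x * T ∧ 2 ≤ w * T) ∧
      2 * Real.log (w * T) ≤ (1 / 4 * x) * T ∧
      (3 / 4 * Real.log T ≤ Real.log (w * T) ∧ 0 < Real.log (w * T) ∧
      (Real.log (Real.log (w * T))) ^ 2 ≤ 3 / 2 * (Real.log (Real.log T)) ^ 2 ∧
      1 ≤ Real.log (Real.log T)) ∧ 1 ≤ Real.log T := by
    have hxT : Tendsto (fun T : ℝ => x * T) atTop atTop := tendsto_id.const_mul_atTop hx
    exact ((hwT.eventually_ge_atTop T1).and ((hxT.eventually_ge_atTop 2).and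
      (hwT.eventually_ge_atTop 2))).and ((APL.ev_log (1 / 4 * x) (by positivity) w hwp).and
        ((ev_loglog w hwp).and (Real.tendsto_log_atTop.eventually_ge_atTop _)))
  obtain ⟨T2, hT2⟩ := eventually_atTop.1 hev
  refine ⟨2 ^ m * (C1 * w + c2 ^ m * x), max K1 A, max 10 T2, by positivity,
    hK1.trans (le_max_left _ _), le_max_left _ _, fun T hT h hh1 hh2 => ?_⟩
  have hT10 : 10 ≤ T := (le_max_left _ _).trans hT
  have hTp : 0 < T := by linarith
  obtain ⟨⟨h1, h2, h3⟩, h4, ⟨h5, h6, h7, h8⟩, h9⟩ := hT2 T ((le_max_right _ _).trans hT)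
  have hKp : 0 < max K1 A := lt_of_lt_of_le (by linarith) (le_max_left K1 A)
  have hhL : 0 < h * Real.log T := lt_of_lt_of_le (by nlinarith) hh1
  have hh0 : 0 < h := pos_of_mul_pos_left hhL (by linarith)
  have hhK1 : h ≤ 1 / K1 := hh2.trans (one_div_le_one_div_of_le (by linarith) (le_max_left _ _))
  have hh1' : h ≤ 1 := hhK1.trans (by rw [div_le_one (by linarith)]; exact hK1)
  have hFc : C2c (fun x => f (x / h)) := by
    refine FINL.c2c_scale hf1 hA' hh0 ?_
    calc h * A ≤ (1 / max K1 A) * max K1 A := mul_le_mul hh2 (le_max_right _ _) hA.le (by positivity)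
      _ = 1 := by field_simp
  set W : ℝ := w * T with hW
  have hWe : W = 3 / 4 * x * T := by rw [hW, hw]
  have hlW : 0 ≤ Real.log W := h6.le
  have hcond : (Real.log (Real.log W)) ^ 2 ≤ h * Real.log W := by
    have e1 : 3 / 4 * (h * Real.log T) ≤ h * Real.log W := by
      have := mul_le_mul_of_nonneg_left h5 hh0.le
      linarith
    linarith
  have hBi := hB W h1 h hcond hhK1
  have hsub : Icc (x * T) (5 / 4 * x * T) ⊆ Icc (W + 2 * Real.log W) (2 * W - 2 * Real.log W) :=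
    Icc_subset_Icc (by linarith) (by linarith)
  have hxT : x * T ≤ 5 / 4 * x * T := by nlinarith [mul_pos hx hTp]
  have hcT : ContinuousOn (XG G (fun x => f (x / h)) T) (Icc (x * T) (5 / 4 * x * T)) :=
    cont hL hFc T h2
  refine ⟨hcT, ?_⟩
  have hWW : W + 2 * Real.log W ≤ 2 * W - 2 * Real.log W := by
    have hm1 := hsub (left_mem_Icc.2 hxT)
    exact hm1.1.trans hm1.2
  have hcW : ContinuousOn (XG G (fun x => f (x / h)) W) (Icc (W + 2 * Real.log W) (2 * W - 2 * Real.log W)) :=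
    cont hL hFc W (by linarith)
  -- the constant
  set κ : ℝ := (Real.log W - Real.log T) / (2 * Real.pi) * ∫ x : ℝ, f (x / h) with hκ
  have hκle : |κ| ≤ c2 := by
    have e1 : |∫ x : ℝ, f (x / h)| ≤ I0 := by
      rw [Measure.integral_comp_div, smul_eq_mul, abs_mul, abs_abs, abs_of_pos hh0]
      exact mul_le_of_le_one_left hI00 hh1'
    have e2 : |(Real.log W - Real.log T) / (2 * Real.pi)| ≤ c1 := by
      rw [hW, Real.log_mul hwp.ne' hTp.ne', add_sub_cancel_right, abs_div,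
        abs_of_pos (show (0 : ℝ) < 2 * Real.pi by positivity), div_le_iff₀ (by positivity)]
      nlinarith [Real.pi_gt_three]
    rw [hκ, abs_mul]
    exact mul_le_mul e2 e1 (abs_nonneg _) hc10
  have hpt : ∀ t, |XG G (fun x => f (x / h)) T t| ^ m ≤
      2 ^ m * |XG G (fun x => f (x / h)) W t| ^ m + 2 ^ m * c2 ^ m := by
    intro t
    rw [APL.XG_change G (fun x => f (x / h)) T W t]
    have e1 : |XG G (fun x => f (x / h)) W t + κ| ≤ |XG G (fun x => f (x / h)) W t| + c2 :=
      (abs_add_le _ _).trans (by linarith)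
    have e2 := pow_le_pow_left₀ (abs_nonneg _) e1 m
    have e3 : (|XG G (fun x => f (x / h)) W t| + c2) ^ m ≤
        2 ^ (m - 1) * (|XG G (fun x => f (x / h)) W t| ^ m + c2 ^ m) :=
      add_pow_le (abs_nonneg _) hc20 m
    have e4 : (2 : ℝ) ^ (m - 1) ≤ 2 ^ m := pow_le_pow_right₀ (by norm_num) (Nat.sub_le _ _)
    have e5 : 0 ≤ |XG G (fun x => f (x / h)) W t| ^ m + c2 ^ m := by positivity
    refine e2.trans (e3.trans ?_)
    rw [← mul_add]
    exact mul_le_mul_of_nonneg_right e4 e5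
  have hI0 : IntervalIntegrable (fun t => |XG G (fun x => f (x / h)) T t| ^ m) volume
      (x * T) (5 / 4 * x * T) := by
    apply ContinuousOn.intervalIntegrable
    rw [uIcc_of_le hxT]
    exact hcT.abs.pow m
  have hI1 : IntervalIntegrable (fun t => |XG G (fun x => f (x / h)) W t| ^ m) volume
      (x * T) (5 / 4 * x * T) := by
    apply ContinuousOn.intervalIntegrable
    rw [uIcc_of_le hxT]
    exact ((hcW.mono hsub).abs).pow m
  have hI1' : IntervalIntegrable (fun t => |XG G (fun x => f (x / h)) W t| ^ m) volume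
      (W + 2 * Real.log W) (2 * W - 2 * Real.log W) := by
    apply ContinuousOn.intervalIntegrable
    rw [uIcc_of_le hWW]
    exact hcW.abs.pow m
  have hb1 : ∫ t in (x * T)..(5 / 4 * x * T), |XG G (fun x => f (x / h)) W t| ^ m ≤ C1 * W := by
    refine le_trans ?_ hBi
    have hmem1 := hsub (left_mem_Icc.2 hxT)
    have hmem2 := hsub (right_mem_Icc.2 hxT)
    exact intervalIntegral.integral_mono_interval hmem1.1 hxT hmem2.2
      (Eventually.of_forall fun t => by positivity) hI1'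
  calc ∫ t in (x * T)..(5 / 4 * x * T), |XG G (fun x => f (x / h)) T t| ^ m
      ≤ ∫ t in (x * T)..(5 / 4 * x * T), (2 ^ m * |XG G (fun x => f (x / h)) W t| ^ m + 2 ^ m * c2 ^ m) :=
        intervalIntegral.integral_mono_on hxT hI0
          ((hI1.const_mul _).add intervalIntegrable_const) fun t _ => hpt t
    _ = 2 ^ m * (∫ t in (x * T)..(5 / 4 * x * T), |XG G (fun x => f (x / h)) W t| ^ m) +
        (5 / 4 * x * T - x * T) * (2 ^ m * c2 ^ m) := by
        rw [intervalIntegral.integral_add (hI1.const_mul _) intervalIntegrable_const,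
          intervalIntegral.integral_const, intervalIntegral.integral_const_mul, smul_eq_mul]
    _ ≤ 2 ^ m * (C1 * W) + (x * T) * (2 ^ m * c2 ^ m) := by
        have e1 : 5 / 4 * x * T - x * T ≤ x * T := by nlinarith [mul_pos hx hTp]
        have e2 : 0 ≤ (2 : ℝ) ^ m * c2 ^ m := by positivity
        have e3 := mul_le_mul_of_nonneg_right e1 e2
        have e4 := mul_le_mul_of_nonneg_left hb1 (show (0 : ℝ) ≤ 2 ^ m by positivity)
        linarith
    _ = 2 ^ m * (C1 * w + c2 ^ m * x) * T := by rw [hW]; ring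

/-- gluing two intervals -/
lemma glue (G : ℂ → ℂ) (m : ℕ) (f : ℝ → ℝ) (a b c : ℝ) (hab : a ≤ b) (hbc : b ≤ c)
    (h1 : Q G m f a b) (h2 : Q G m f b c) : Q G m f a c := by
  obtain ⟨C1, K1, T1, hC1, hK1, hT1, h1⟩ := h1
  obtain ⟨C2, K2, T2, hC2, hK2, hT2, h2⟩ := h2
  refine ⟨C1 + C2, max K1 K2, max T1 T2, by positivity, hK1.trans (le_max_left _ _),
    hT1.trans (le_max_left _ _), fun T hT h hh1 hh2 => ?_⟩
  have hTT : T1 ≤ T := (le_max_left _ _).trans hT
  have hTp : 0 < T := by linarith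
  obtain ⟨c1, i1⟩ := h1 T hTT h hh1
    (hh2.trans (one_div_le_one_div_of_le (by linarith) (le_max_left _ _)))
  obtain ⟨c2, i2⟩ := h2 T ((le_max_right _ _).trans hT) h hh1
    (hh2.trans (one_div_le_one_div_of_le (by linarith) (le_max_right _ _)))
  have hab' : a * T ≤ b * T := mul_le_mul_of_nonneg_right hab hTp.le
  have hbc' : b * T ≤ c * T := mul_le_mul_of_nonneg_right hbc hTp.le
  have hc : ContinuousOn (XG G (fun x => f (x / h)) T) (Icc (a * T) (c * T)) := by
    rw [← Icc_union_Icc_eq_Icc hab' hbc']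
    exact c1.union_of_isClosed c2 isClosed_Icc isClosed_Icc
  refine ⟨hc, ?_⟩
  have j1 : IntervalIntegrable (fun t => |XG G (fun x => f (x / h)) T t| ^ m) volume (a * T) (b * T) := by
    apply ContinuousOn.intervalIntegrable
    rw [uIcc_of_le hab']
    exact c1.abs.pow m
  have j2 : IntervalIntegrable (fun t => |XG G (fun x => f (x / h)) T t| ^ m) volume (b * T) (c * T) := by
    apply ContinuousOn.intervalIntegrable
    rw [uIcc_of_le hbc']
    exact c2.abs.pow m
  rw [← intervalIntegral.integral_add_adjacent_intervals j1 j2]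
  linarith

lemma chain (hB : S_BMH) (G : ℂ → ℂ) (u : ℕ → ℂ) (hL : Lf G u) (m : ℕ) (f : ℝ → ℝ)
    (hf1 : ContDiff ℝ 2 f) (hf2 : HasCompactSupport f) (a : ℝ) (ha : 0 < a) (n : ℕ) :
    Q G m f a ((5 / 4) ^ (n + 1) * a) := by
  induction n with
  | zero => simpa using piece hB G u hL m f hf1 hf2 a ha
  | succ n ih =>
    have h := piece hB G u hL m f hf1 hf2 ((5 / 4) ^ (n + 1) * a) (by positivity)
    have e : 5 / 4 * ((5 / 4) ^ (n + 1) * a) = (5 / 4) ^ (n + 1 + 1) * a := by ring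
    rw [e] at h
    refine glue G m f a _ _ ?_ ?_ ih h
    · have : (1 : ℝ) ≤ (5 / 4) ^ (n + 1) := one_le_pow₀ (by norm_num)
      nlinarith
    · rw [← e]
      have : 0 < (5 / 4 : ℝ) ^ (n + 1) * a := by positivity
      linarith

end BMIL

open BMIL in
theorem t_BMI (hB : S_BMH) : S_BMI := by
  intro G u hL m f hf1 hf2 a b ha hab
  obtain ⟨n, hn⟩ := pow_unbounded_of_one_lt (b / a) (show (1 : ℝ) < 5 / 4 by norm_num)
  have hn' : b ≤ (5 / 4) ^ (n + 1) * a := by
    rw [div_lt_iff₀ ha] at hn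
    have : (5 / 4 : ℝ) ^ n * a ≤ (5 / 4) ^ (n + 1) * a := by
      apply mul_le_mul_of_nonneg_right _ ha.le
      exact pow_le_pow_right₀ (by norm_num) (Nat.le_succ n)
    linarith
  obtain ⟨C, K, T0, hC, hK, hT0, h⟩ := chain hB G u hL m f hf1 hf2 a ha n
  refine ⟨C, K, T0, hC, hK, hT0, fun T hT y hy1 hy2 => ?_⟩
  obtain ⟨hc, hi⟩ := h T hT y hy1 hy2
  have hTp : 0 < T := by linarith
  have hbT : b * T ≤ (5 / 4) ^ (n + 1) * a * T := mul_le_mul_of_nonneg_right hn' hTp.le
  have haT : a * T ≤ b * T := mul_le_mul_of_nonneg_right hab.le hTp.le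
  refine ⟨hc.mono (Icc_subset_Icc le_rfl hbT), le_trans ?_ hi⟩
  refine intervalIntegral.integral_mono_interval le_rfl haT hbT
    (Eventually.of_forall fun t => by positivity) ?_
  apply ContinuousOn.intervalIntegrable
  rw [uIcc_of_le (haT.trans hbT)]
  exact hc.abs.pow m

end Pool.Agent.H203.GE
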