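import Pool.Agent.H203.GE.Defs4

set_option autoImplicit false

/-! Mesoscopic statistics of the zeros of all Dirichlet L-functions: the pointwise decomposition of the linear statistic. -/

open Complex Filter Topology Set MeasureTheory

namespace Pool.Agent.H203.GE

open Pool.Agent.H203.ME hiding BG S_PT S_BBI S_EFW S_APX S_PRM

namespace DEGL

/-- conditions on large `T` -/
lemma large (m : ℕ) : ∃ T0 : ℝ, 10 ≤ T0 ∧ ∀ T : ℝ, T0 ≤ T →
    16 * ((m : ℝ) + 1) ≤ Real.log (Real.log T) ∧ 1 ≤ Real.log T ∧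
      256 * ((m : ℝ) + 1) ^ 2 * (Real.log (Real.log T)) ^ 2 ≤ Real.log T := by
  have h1 : Tendsto (fun T : ℝ => Real.log (Real.log T)) atTop atTop :=
    Real.tendsto_log_atTop.comp Real.tendsto_log_atTop
  have h2 : ∀ᶠ x : ℝ in atTop, 256 * ((m : ℝ) + 1) ^ 2 * (Real.log x) ^ 2 ≤ x := by
    have h3 := (Real.isLittleO_pow_log_id_atTop (n := 2)).bound
      (c := 1 / (256 * ((m : ℝ) + 1) ^ 2)) (by positivity)
    filter_upwards [h3, eventually_ge_atTop (0 : ℝ)] with x hx hx0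
    rw [Real.norm_eq_abs, Real.norm_eq_abs, id, abs_of_nonneg hx0, abs_of_nonneg (sq_nonneg _),
      div_mul_eq_mul_div, one_mul, le_div_iff₀ (by positivity)] at hx
    linarith
  have h4 : ∀ᶠ T : ℝ in atTop, 16 * ((m : ℝ) + 1) ≤ Real.log (Real.log T) ∧ 1 ≤ Real.log T ∧
      256 * ((m : ℝ) + 1) ^ 2 * (Real.log (Real.log T)) ^ 2 ≤ Real.log T := by
    filter_upwards [h1.eventually_ge_atTop (16 * ((m : ℝ) + 1)),
      Real.tendsto_log_atTop.eventually_ge_atTop 1, Real.tendsto_log_atTop.eventually h2]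
      with T q1 q2 q3
    exact ⟨q1, q2, q3⟩
  obtain ⟨T0, hT0⟩ := eventually_atTop.1 h4
  exact ⟨max 10 T0, le_max_left _ _, fun T hT => hT0 T ((le_max_right _ _).trans hT)⟩

lemma w1_nonneg (u : ℝ) : 0 ≤ w1 u := by
  unfold w1
  positivity

lemma NW_nonneg (G : ℂ → ℂ) (T h t : ℝ) : 0 ≤ NWG G T h t :=
  Finset.sum_nonneg fun _ _ => mul_nonneg (Nat.cast_nonneg _) (w1_nonneg _)

lemma PF_nonneg (G : ℂ → ℂ) (m : ℕ) (T h t : ℝ) : 0 ≤ PFG G m T h t :=
  Finset.sum_nonneg fun _ _ => mul_nonneg (Nat.cast_nonneg _)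
    (mul_nonneg (w1_nonneg _) (mul_nonneg (sq_nonneg _) (Real.exp_pos _).le))

/-- one zero -/
lemma term {C h R y w a b : ℝ} (hC : 0 < C) (hh : 0 < h) (hR : 0 < R) (hw : 0 ≤ w)
    (ha : a ≤ C / (h * R) ^ 2 * w) (hb : b ≤ C * (y / h) ^ 2 * Real.exp (R * |y|) * w) :
    a + b ≤ C * (1 + Real.exp 1) * (1 / (h * R) ^ 2) * w +
      C * (if 1 < R * |y| then w * ((y / h) ^ 2 * Real.exp (R * |y|)) else 0) := by
  split_ifs with h1
  · have e1 : 0 ≤ C * Real.exp 1 * (1 / (h * R) ^ 2) * w := by positivity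
    have e2 : C / (h * R) ^ 2 * w = C * (1 / (h * R) ^ 2) * w := by ring
    linarith
  · push Not at h1
    have e1 : (y / h) ^ 2 ≤ 1 / (h * R) ^ 2 := by
      have e2 : |y| ≤ 1 / R := by
        rw [le_div_iff₀ hR]; linarith
      have e3 : |y / h| ≤ 1 / (h * R) := by
        rw [abs_div, abs_of_pos hh, div_le_iff₀ hh]
        calc |y| ≤ 1 / R := e2
          _ = 1 / (h * R) * h := by field_simp
      calc (y / h) ^ 2 = |y / h| ^ 2 := (sq_abs _).symm
        _ ≤ (1 / (h * R)) ^ 2 := by gcongr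
        _ = 1 / (h * R) ^ 2 := by rw [div_pow, one_pow]
    have e4 : Real.exp (R * |y|) ≤ Real.exp 1 := Real.exp_le_exp.2 h1
    have e5 : C * (y / h) ^ 2 * Real.exp (R * |y|) * w ≤ C * (1 / (h * R) ^ 2) * Real.exp 1 * w := by
      gcongr
    have e2 : C / (h * R) ^ 2 * w = C * (1 / (h * R) ^ 2) * w := by ring
    linarith

end DEGL

open DEGL in
theorem t_DEG (hp : S_PTH) : S_DEG := by
  intro G u hG m f hf hs
  obtain ⟨Ck, Kk, hCk, hKk, hkp⟩ := t_KPT f hf hs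
  obtain ⟨Cp, Tp, hCp, hTp, hpt⟩ := hp G u hG
  obtain ⟨A, hA, hA'⟩ := FINL.bd hs
  obtain ⟨T1, hT1, hlarge⟩ := large m
  set If := ∫ x, |f x| with hIfd
  have hIf : 0 ≤ If := integral_nonneg fun _ => abs_nonneg _
  have he : 0 < Real.exp 1 := Real.exp_pos 1
  refine ⟨256 * ((m : ℝ) + 1) ^ 2 * (Ck * (1 + Real.exp 1)) + Ck + 2 * Cp * If, max Kk A, max Tp T1,
    by positivity, le_max_of_le_left hKk, le_max_of_le_left hTp, ?_⟩
  intro T hT h hhL hhK t ht
  obtain ⟨hl, hL1, hlL⟩ := hlarge T ((le_max_right _ _).trans hT)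
  obtain ⟨-, -, hpt⟩ := hpt T ((le_max_left _ _).trans hT)
  have hT10 : 10 ≤ T := hTp.trans ((le_max_left _ _).trans hT)
  set L := Real.log T with hLd
  set l := Real.log L with hld
  have hm : (0 : ℝ) ≤ m := Nat.cast_nonneg _
  have hl0 : 0 < l := by linarith
  have hL0 : 0 < L := by linarith
  have hh0 : 0 < h := by
    by_contra hh
    push Not at hh
    nlinarith [mul_pos hl0 hl0, mul_nonneg_of_nonpos_of_nonpos hh (neg_nonpos.2 hL0.le)]
  have hKm : 1 ≤ max Kk A := le_max_of_le_left hKk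
  have hh1 : h ≤ 1 := hhK.trans (by rw [div_le_one (by linarith)]; exact hKm)
  have hhKk : h ≤ 1 / Kk := hhK.trans (one_div_le_one_div_of_le (by linarith) (le_max_left _ _))
  have hhA : h * A ≤ 1 := by
    have e1 : h ≤ 1 / A := hhK.trans (one_div_le_one_div_of_le hA (le_max_right _ _))
    rwa [le_div_iff₀ hA] at e1
  set R := RG m T with hRd
  have hR : R = L / (16 * ((m : ℝ) + 1) * l) := rfl
  have hR0 : 0 < R := by rw [hR]; positivity
  have hhR : 1 ≤ h * R := by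
    rw [hR, ← mul_div_assoc, le_div_iff₀ (by positivity)]
    nlinarith
  have hR1 : 1 ≤ R := by nlinarith
  have hRL : R ≤ L := by
    rw [hR]
    apply div_le_self hL0.le
    nlinarith
  have hLR : L / R ^ 2 ≤ 1 := by
    have e1 : L / R ^ 2 = 256 * ((m : ℝ) + 1) ^ 2 * l ^ 2 / L := by
      rw [hR]
      field_simp
      ring
    rw [e1, div_le_one hL0]
    exact hlL
  have hhR2 : 1 / (h * R) ^ 2 = 256 * ((m : ℝ) + 1) ^ 2 * (l ^ 2 / (h * L) ^ 2) := by
    rw [hR]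
    field_simp
    ring
  have hF : C2c (fun x => f (x / h)) := FINL.c2c_scale hf hA' hh0 hhA
  have h1 := hpt _ hF R hR1 hRL t ht
  have hint : ∫ x : ℝ, |f (x / h)| = h * If := by
    have := Measure.integral_comp_div (fun x => |f x|) h
    rw [this, abs_of_pos hh0, smul_eq_mul]
  rw [hint] at h1
  have hsum : (∑ s ∈ H370.Zf G T (2 * T), (H370.mult G s : ℝ) *
        (‖KF (fun x => f (x / h)) R ((s.im - t : ℝ) : ℂ) - (f ((s.im - t) / h) : ℂ)‖ +
          ‖KF (fun x => f (x / h)) R (((s.im - t : ℝ) : ℂ) + ((s.re - 1 / 2 : ℝ) : ℂ) * I) +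
            KF (fun x => f (x / h)) R (((s.im - t : ℝ) : ℂ) - ((s.re - 1 / 2 : ℝ) : ℂ) * I) -
              2 * KF (fun x => f (x / h)) R ((s.im - t : ℝ) : ℂ)‖)) ≤
      Ck * (1 + Real.exp 1) * (1 / (h * R) ^ 2) * NWG G T h t + Ck * PFG G m T h t := by
    unfold NWG PFG
    rw [Finset.sum_filter, Finset.mul_sum, Finset.mul_sum, ← Finset.sum_add_distrib]
    refine Finset.sum_le_sum fun s hs => ?_
    rw [H370.mem_Zf hG.good (by linarith)] at hs
    obtain ⟨hs1, hs2, -⟩ := hs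
    have hy : |s.re - 1 / 2| ≤ 1 / 2 := by rw [abs_le]; constructor <;> linarith
    obtain ⟨q1, q2⟩ := hkp h R hh0 hhKk hhR (s.im - t)
    have q3 := q2 (s.re - 1 / 2) hy
    have q4 := term (y := s.re - 1 / 2) hCk hh0 hR0 (w1_nonneg ((s.im - t) / h)) q1 q3
    have q5 := mul_le_mul_of_nonneg_left q4 (Nat.cast_nonneg (H370.mult G s) : (0 : ℝ) ≤ H370.mult G s)
    refine q5.trans (le_of_eq ?_)
    rw [← hRd]
    split_ifs <;> ring
  have h2 : |XG G (fun x => f (x / h)) T t| ≤ |BG u (fun x => f (x / h)) R t| +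
      |XG G (fun x => f (x / h)) T t + BG u (fun x => f (x / h)) R t| := by
    have := abs_sub (XG G (fun x => f (x / h)) T t + BG u (fun x => f (x / h)) R t)
      (BG u (fun x => f (x / h)) R t)
    rw [add_sub_cancel_right] at this
    linarith
  have h3 : Cp * (1 + L / R ^ 2) * (h * If) ≤ 2 * Cp * If := by
    have e1 : h * If ≤ 1 * If := mul_le_mul_of_nonneg_right hh1 hIf
    have e2 : Cp * (1 + L / R ^ 2) ≤ Cp * 2 := by gcongr; linarith
    calc Cp * (1 + L / R ^ 2) * (h * If) ≤ Cp * 2 * (1 * If) := by gcongr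
      _ = 2 * Cp * If := by ring
  have hNW := NW_nonneg G T h t
  have hPF := PF_nonneg G m T h t
  rw [hhR2] at hsum
  set X := l ^ 2 / (h * L) ^ 2 with hX
  have hX0 : 0 ≤ X := by positivity
  have e1 : Ck * (1 + Real.exp 1) * (256 * ((m : ℝ) + 1) ^ 2 * X) * NWG G T h t ≤
      (256 * ((m : ℝ) + 1) ^ 2 * (Ck * (1 + Real.exp 1)) + Ck + 2 * Cp * If) * l ^ 2 / (h * L) ^ 2 *
        NWG G T h t := by
    have e2 : (256 * ((m : ℝ) + 1) ^ 2 * (Ck * (1 + Real.exp 1)) + Ck + 2 * Cp * If) * l ^ 2 /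
        (h * L) ^ 2 * NWG G T h t = Ck * (1 + Real.exp 1) * (256 * ((m : ℝ) + 1) ^ 2 * X) * NWG G T h t +
        (Ck + 2 * Cp * If) * X * NWG G T h t := by
      rw [hX]; ring
    rw [e2]
    have : 0 ≤ (Ck + 2 * Cp * If) * X * NWG G T h t := by positivity
    linarith
  have e3 : Ck * PFG G m T h t ≤
      (256 * ((m : ℝ) + 1) ^ 2 * (Ck * (1 + Real.exp 1)) + Ck + 2 * Cp * If) * PFG G m T h t := by
    apply mul_le_mul_of_nonneg_right _ hPF
    have : 0 ≤ 256 * ((m : ℝ) + 1) ^ 2 * (Ck * (1 + Real.exp 1)) := by positivity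
    have : 0 ≤ 2 * Cp * If := by positivity
    linarith
  have e4 : 2 * Cp * If ≤ 256 * ((m : ℝ) + 1) ^ 2 * (Ck * (1 + Real.exp 1)) + Ck + 2 * Cp * If := by
    have : 0 ≤ 256 * ((m : ℝ) + 1) ^ 2 * (Ck * (1 + Real.exp 1)) := by positivity
    linarith
  have h1' := h1.trans (add_le_add hsum h3)
  linarith

end Pool.Agent.H203.GE
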