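import Pool.Agent.H203.GE.Defs4

set_option autoImplicit false

/-! (FAG) moments of the contribution of the zeros far from the critical line (compare `ME/FAR.lean`). -/

open Complex Filter Topology Set MeasureTheory

namespace Pool.Agent.H203.GE

open Pool.Agent.H203.ME hiding BG S_PT S_BBI S_EFW S_APX S_PRM

namespace FAGL

open Pool.Agent.H203.ME.FARL (w1_cont w1_nonneg int_w1 pmean fin_ar)

/-- the factor of a far zero -/
noncomputable def qf (m : ℕ) (T h : ℝ) (s : ℂ) : ℝ :=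
  ((s.re - 1 / 2) / h) ^ 2 * Real.exp (RG m T * |s.re - 1 / 2|)

lemma qf_nonneg (m : ℕ) (T h : ℝ) (s : ℂ) : 0 ≤ qf m T h s := by
  unfold qf
  positivity

open Classical in
lemma PFG_eq (G : ℂ → ℂ) (m : ℕ) (T h t : ℝ) : PFG G m T h t =
    ∑ s ∈ (H370.Zf G T (2 * T)).filter (fun s => 1 < RG m T * |s.re - 1 / 2|),
      ((H370.mult G s : ℝ) * w1 ((s.im - t) / h)) * qf m T h s := by
  unfold PFG qf
  exact Finset.sum_congr rfl fun s _ => by ring

open Classical in
lemma PFG_cont (G : ℂ → ℂ) (m : ℕ) (T h : ℝ) : Continuous (PFG G m T h) := by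
  unfold PFG
  refine continuous_finsetSum _ fun s _ => ?_
  refine continuous_const.mul (Continuous.mul ?_ continuous_const)
  exact w1_cont.comp (by fun_prop)

/-- the powers of the factor of a far zero -/
lemma qf_pow {k : ℕ} {T h : ℝ} (hL : 1 ≤ Real.log T) (hl : 1 ≤ Real.log (Real.log T)) (hh : 0 < h)
    {s : ℂ} (h0 : 0 < s.re) (h1 : s.re < 1) (hs : 1 < RG (k + 1) T * |s.re - 1 / 2|) :
    qf (k + 1) T h s ^ (k + 1) ≤ (h ^ (2 * (k + 1)))⁻¹ * (Real.log T ^ (3 * (k + 2)))⁻¹ *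
      ((s.re - 1 / 2) ^ 2 * Real.exp (Real.log T * |s.re - 1 / 2| / 4)) := by
  set L := Real.log T with hLd
  set y := s.re - 1 / 2 with hy
  have hL0 : 0 < L := by linarith
  have hk : (0 : ℝ) < (k : ℝ) + 1 + 1 := by positivity
  have hR : RG (k + 1) T = L / (16 * ((k : ℝ) + 1 + 1) * Real.log L) := by
    unfold RG
    push_cast
    rfl
  have hR0 : 0 < RG (k + 1) T := by
    rw [hR]
    positivity
  have hy1 : |y| ≤ 1 := by
    rw [abs_le]
    constructor <;> rw [hy] <;> linarith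
  have hyn : 0 ≤ |y| := abs_nonneg y
  -- the exponent
  have hmR : ((k : ℝ) + 1) * RG (k + 1) T ≤ L / 16 := by
    rw [hR, mul_div_assoc', div_le_div_iff₀ (by positivity) (by norm_num)]
    have h2 : ((k : ℝ) + 1) ≤ ((k : ℝ) + 1 + 1) * Real.log L := by nlinarith
    nlinarith
  have hfar : 3 * ((k : ℝ) + 2) * Real.log L ≤ 3 / 16 * L * |y| := by
    have h3 : L = RG (k + 1) T * (16 * ((k : ℝ) + 1 + 1) * Real.log L) := by
      rw [hR]
      field_simp
    have h4 : 3 / 16 * L * |y| = (RG (k + 1) T * |y|) * (3 * ((k : ℝ) + 2) * Real.log L) := by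
      calc 3 / 16 * L * |y| = 3 / 16 * (RG (k + 1) T * (16 * ((k : ℝ) + 1 + 1) * Real.log L)) * |y| := by
            rw [← h3]
        _ = _ := by ring
    rw [h4]
    have h5 : 0 ≤ 3 * ((k : ℝ) + 2) * Real.log L := by positivity
    nlinarith
  have hexp : ((k : ℝ) + 1) * (RG (k + 1) T * |y|) ≤
      L * |y| / 4 + -(3 * ((k : ℝ) + 2) * Real.log L) := by
    have h6 : ((k : ℝ) + 1) * (RG (k + 1) T * |y|) ≤ L / 16 * |y| := by
      calc ((k : ℝ) + 1) * (RG (k + 1) T * |y|) = (((k : ℝ) + 1) * RG (k + 1) T) * |y| := by ring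
        _ ≤ _ := mul_le_mul_of_nonneg_right hmR hyn
    linarith
  have e1 : qf (k + 1) T h s ^ (k + 1) = (h ^ (2 * (k + 1)))⁻¹ *
      (y ^ (2 * (k + 1)) * Real.exp (((k : ℝ) + 1) * (RG (k + 1) T * |y|))) := by
    unfold qf
    rw [mul_pow, ← pow_mul, div_pow, ← Real.exp_nat_mul, ← hy]
    push_cast
    rw [div_eq_inv_mul]
    ring
  have e2 : Real.exp (-(3 * ((k : ℝ) + 2) * Real.log L)) = (L ^ (3 * (k + 2)))⁻¹ := by
    rw [Real.exp_neg]
    congr 1
    have h7 : 3 * ((k : ℝ) + 2) * Real.log L = ((3 * (k + 2) : ℕ) : ℝ) * Real.log L := by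
      push_cast
      ring
    rw [h7, Real.exp_nat_mul, Real.exp_log hL0]
  have hy2 : y ^ (2 * (k + 1)) ≤ y ^ 2 := by
    rw [pow_mul]
    have h8 : y ^ 2 ≤ 1 := by
      rw [← sq_abs]
      nlinarith
    calc (y ^ 2) ^ (k + 1) = (y ^ 2) ^ k * y ^ 2 := pow_succ _ _
      _ ≤ 1 * y ^ 2 := mul_le_mul_of_nonneg_right (pow_le_one₀ (sq_nonneg y) h8) (sq_nonneg y)
      _ = y ^ 2 := one_mul _
  have hE : Real.exp (((k : ℝ) + 1) * (RG (k + 1) T * |y|)) ≤
      Real.exp (L * |y| / 4) * (L ^ (3 * (k + 2)))⁻¹ := by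
    rw [← e2, ← Real.exp_add]
    exact Real.exp_le_exp.2 hexp
  rw [e1]
  calc (h ^ (2 * (k + 1)))⁻¹ *
      (y ^ (2 * (k + 1)) * Real.exp (((k : ℝ) + 1) * (RG (k + 1) T * |y|)))
      ≤ (h ^ (2 * (k + 1)))⁻¹ * (y ^ 2 * (Real.exp (L * |y| / 4) * (L ^ (3 * (k + 2)))⁻¹)) := by
        refine mul_le_mul_of_nonneg_left ?_ (by positivity)
        exact mul_le_mul hy2 hE (Real.exp_pos _).le (sq_nonneg y)
    _ = _ := by ring

end FAGL

open FAGL
open Pool.Agent.H203.ME.FARL (w1_cont w1_nonneg int_w1 pmean fin_ar)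

theorem t_FAG (hn : S_NCG) : S_FAG := by
  classical
  intro G u hG m
  obtain ⟨C, T1, hC, hT1, hN⟩ := hn G u hG
  obtain ⟨C', T2, hC', hT2, hD⟩ := hG.dens
  rcases m with _ | k
  · refine ⟨10, le_rfl, fun T hT h _ _ => ?_⟩
    simp only [pow_zero, intervalIntegral.integral_const, smul_eq_mul, mul_one]
    linarith
  · set B := max (Real.exp 1) (C ^ k * Real.pi * C') with hB
    refine ⟨max (max T1 T2) (Real.exp B), ?_, ?_⟩
    · exact (hT1.trans (le_max_left _ _)).trans (le_max_left _ _)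
    intro T hT h hlo hh1
    have hTT1 : T1 ≤ T := ((le_max_left _ _).trans (le_max_left _ _)).trans hT
    have hTT2 : T2 ≤ T := ((le_max_right _ _).trans (le_max_left _ _)).trans hT
    have hTB : Real.exp B ≤ T := (le_max_right _ _).trans hT
    have hT0 : 0 < T := (Real.exp_pos _).trans_le hTB
    have hT10 : 10 ≤ T := hT1.trans hTT1
    set L := Real.log T with hLd
    have hLB : B ≤ L := by
      rw [hLd, Real.le_log_iff_exp_le hT0]
      exact hTB
    have hLe : Real.exp 1 ≤ L := (le_max_left _ _).trans hLB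
    have hLc : C ^ k * Real.pi * C' ≤ L := (le_max_right _ _).trans hLB
    have hL0 : 0 < L := (Real.exp_pos _).trans_le hLe
    have hL1 : 1 ≤ L := by
      have := Real.add_one_le_exp (1 : ℝ)
      linarith
    have hl : 1 ≤ Real.log L := by
      rw [Real.le_log_iff_exp_le hL0]
      exact hLe
    have hhL : 1 ≤ h * L := by
      have : 1 ≤ (Real.log L) ^ 2 := by nlinarith
      linarith
    have hh : 0 < h := by
      by_contra hcon
      push Not at hcon
      nlinarith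
    set Z := H370.Zf G T (2 * T) with hZ
    set F := Z.filter (fun s => 1 < RG (k + 1) T * |s.re - 1 / 2|) with hF
    have hmem : ∀ s ∈ F, 0 < s.re ∧ s.re < 1 ∧ 1 < RG (k + 1) T * |s.re - 1 / 2| := by
      intro s hs
      rw [hF, Finset.mem_filter] at hs
      have h1 := (H370.mem_Zf hG.good (by linarith : 1 ≤ T)).1 hs.1
      exact ⟨h1.1, h1.2.1, hs.2⟩
    have hNW : ∀ t : ℝ, ∑ s ∈ F, (H370.mult G s : ℝ) * w1 ((s.im - t) / h) ≤ C * L := by
      intro t
      refine le_trans ?_ (hN T hTT1 h hh hh1 t)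
      unfold NWG
      refine Finset.sum_le_sum_of_subset_of_nonneg (Finset.filter_subset _ _) fun s _ _ => ?_
      exact mul_nonneg (Nat.cast_nonneg _) (w1_nonneg _)
    have hpt : ∀ t : ℝ, (PFG G (k + 1) T h t) ^ (k + 1) ≤
        (C * L) ^ k * ∑ s ∈ F, ((H370.mult G s : ℝ) * qf (k + 1) T h s ^ (k + 1)) * w1 ((s.im - t) / h) := by
      intro t
      rw [FAGL.PFG_eq]
      refine (pmean F (fun s => (H370.mult G s : ℝ) * w1 ((s.im - t) / h)) (qf (k + 1) T h)
        (fun s _ => mul_nonneg (Nat.cast_nonneg _) (w1_nonneg _))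
        (fun s _ => qf_nonneg _ _ _ _) k).trans ?_
      have e : ∑ s ∈ F, (H370.mult G s : ℝ) * w1 ((s.im - t) / h) * qf (k + 1) T h s ^ (k + 1) =
          ∑ s ∈ F, ((H370.mult G s : ℝ) * qf (k + 1) T h s ^ (k + 1)) * w1 ((s.im - t) / h) :=
        Finset.sum_congr rfl fun s _ => by ring
      rw [e]
      refine mul_le_mul_of_nonneg_right ?_ ?_
      · exact pow_le_pow_left₀ (Finset.sum_nonneg fun s _ =>
          mul_nonneg (Nat.cast_nonneg _) (w1_nonneg _)) (hNW t) _
      · exact Finset.sum_nonneg fun s _ => mul_nonneg (mul_nonneg (Nat.cast_nonneg _)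
          (pow_nonneg (qf_nonneg _ _ _ _) _)) (w1_nonneg _)
    have hcs : ∀ s : ℂ, Continuous fun t : ℝ => w1 ((s.im - t) / h) := fun s =>
      w1_cont.comp (by fun_prop)
    have hint : ∫ t in T..(2 * T), (PFG G (k + 1) T h t) ^ (k + 1) ≤
        ∫ t in T..(2 * T), (C * L) ^ k *
          ∑ s ∈ F, ((H370.mult G s : ℝ) * qf (k + 1) T h s ^ (k + 1)) * w1 ((s.im - t) / h) := by
      refine intervalIntegral.integral_mono (by linarith) ?_ ?_ hpt
      · exact ((PFG_cont G (k + 1) T h).pow (k + 1)).intervalIntegrable _ _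
      · refine Continuous.intervalIntegrable ?_ _ _
        exact continuous_const.mul (continuous_finsetSum _ fun s _ =>
          continuous_const.mul (hcs s))
    have hint2 : ∫ t in T..(2 * T), (C * L) ^ k *
          ∑ s ∈ F, ((H370.mult G s : ℝ) * qf (k + 1) T h s ^ (k + 1)) * w1 ((s.im - t) / h) =
        (C * L) ^ k * ∑ s ∈ F, ((H370.mult G s : ℝ) * qf (k + 1) T h s ^ (k + 1)) *
          ∫ t in T..(2 * T), w1 ((s.im - t) / h) := by
      rw [intervalIntegral.integral_const_mul, intervalIntegral.integral_finsetSum]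
      · congr 1
        exact Finset.sum_congr rfl fun s _ => by rw [intervalIntegral.integral_const_mul]
      · intro s _
        exact (continuous_const.mul (hcs s)).intervalIntegrable _ _
    have hsum : ∑ s ∈ F, ((H370.mult G s : ℝ) * qf (k + 1) T h s ^ (k + 1)) *
          ∫ t in T..(2 * T), w1 ((s.im - t) / h) ≤
        (Real.pi * h) * ((h ^ (2 * (k + 1)))⁻¹ * (L ^ (3 * (k + 2)))⁻¹ * (C' * T / L)) := by
      have h1 : ∑ s ∈ F, ((H370.mult G s : ℝ) * qf (k + 1) T h s ^ (k + 1)) *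
          ∫ t in T..(2 * T), w1 ((s.im - t) / h) ≤
          ∑ s ∈ F, (Real.pi * h) * ((h ^ (2 * (k + 1)))⁻¹ * (L ^ (3 * (k + 2)))⁻¹ *
            ((H370.mult G s : ℝ) * ((s.re - 1 / 2) ^ 2 * Real.exp (L * |s.re - 1 / 2| / 4)))) := by
        refine Finset.sum_le_sum fun s hs => ?_
        obtain ⟨a1, a2, a3⟩ := hmem s hs
        have h2 := qf_pow (k := k) hL1 hl hh a1 a2 a3
        have h3 := int_w1 hh s.im T (2 * T)
        have hmz : (0 : ℝ) ≤ H370.mult G s := Nat.cast_nonneg _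
        calc ((H370.mult G s : ℝ) * qf (k + 1) T h s ^ (k + 1)) * ∫ t in T..(2 * T), w1 ((s.im - t) / h)
            ≤ ((H370.mult G s : ℝ) * qf (k + 1) T h s ^ (k + 1)) * (Real.pi * h) :=
              mul_le_mul_of_nonneg_left h3 (mul_nonneg hmz (pow_nonneg (qf_nonneg _ _ _ _) _))
          _ ≤ ((H370.mult G s : ℝ) * ((h ^ (2 * (k + 1)))⁻¹ * (L ^ (3 * (k + 2)))⁻¹ *
              ((s.re - 1 / 2) ^ 2 * Real.exp (L * |s.re - 1 / 2| / 4)))) * (Real.pi * h) := by
              refine mul_le_mul_of_nonneg_right ?_ (by have := Real.pi_pos; positivity)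
              exact mul_le_mul_of_nonneg_left h2 hmz
          _ = _ := by ring
      refine h1.trans ?_
      rw [← Finset.mul_sum, ← Finset.mul_sum]
      refine mul_le_mul_of_nonneg_left ?_ (by have := Real.pi_pos; positivity)
      refine mul_le_mul_of_nonneg_left ?_ (by positivity)
      refine le_trans ?_ (hD T hTT2 T (2 * T) le_rfl (by linarith) (by linarith) le_rfl)
      refine Finset.sum_le_sum_of_subset_of_nonneg (Finset.filter_subset _ _) fun s _ _ => ?_
      exact mul_nonneg (Nat.cast_nonneg _) (by positivity)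
    calc ∫ t in T..(2 * T), (PFG G (k + 1) T h t) ^ (k + 1)
        ≤ (C * L) ^ k * ∑ s ∈ F, ((H370.mult G s : ℝ) * qf (k + 1) T h s ^ (k + 1)) *
          ∫ t in T..(2 * T), w1 ((s.im - t) / h) := by rw [← hint2]; exact hint
      _ ≤ (C * L) ^ k * ((Real.pi * h) *
          ((h ^ (2 * (k + 1)))⁻¹ * (L ^ (3 * (k + 2)))⁻¹ * (C' * T / L))) :=
          mul_le_mul_of_nonneg_left hsum (by positivity)
      _ = (C * L) ^ k * (Real.pi * h) *
          ((h ^ (2 * (k + 1)))⁻¹ * (L ^ (3 * (k + 2)))⁻¹ * (C' * T / L)) := by ring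
      _ ≤ T := fin_ar k hC hC' hT0 hh hL1 hhL hLc

end Pool.Agent.H203.GE
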