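import Pool.Agent.H203.GE.Defs4
import Pool.Agent.H203.GE.APX

set_option autoImplicit false

/-! Leaf PTH: the approximate formula, pointwise, for every `R` (compare ME/PT.lean). -/

open Complex Filter Topology Set MeasureTheory

namespace Pool.Agent.H203.GE

open Pool.Agent.H203.ME hiding BG S_PT S_BBI S_EFW S_APX S_PRM XF_eq Zf_symm Z_eq point_diff t_BBI
  t_EFW t_APX

namespace PTHL

/-- a smaller window has fewer zeros -/
lemma Zf_sub {G : ℂ → ℂ} {w : ℕ → ℂ} (hG : Lf G w) {U1 U2 V1 V2 : ℝ} (hU : 1 ≤ U1) (hV : 1 ≤ V1)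
    (h1 : V1 ≤ U1) (h2 : U2 ≤ V2) : H370.Zf G U1 U2 ⊆ H370.Zf G V1 V2 := by
  intro s hs
  rw [H370.mem_Zf hG.good hU] at hs
  rw [H370.mem_Zf hG.good hV]
  obtain ⟨ha, hb, hc, hd, he⟩ := hs
  exact ⟨ha, hb, by linarith, by linarith, he⟩

end PTHL

/-- (PTH) -/
theorem t_PTH (hE : S_EFW) (hB : S_BBI) : S_PTH := by
  intro G w hG
  obtain ⟨C1, T1, hC1, hT1, hEF⟩ := hE G w hG
  obtain ⟨C5, hC5, hO⟩ := t_OM
  refine ⟨C1 + C5, max T1 (Real.exp 20), by positivity, le_trans hT1 (le_max_left _ _), fun T hT => ?_⟩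
  have hTT1 : T1 ≤ T := (le_max_left _ _).trans hT
  have hTe : Real.exp 20 ≤ T := (le_max_right _ _).trans hT
  have hT0 : 0 < T := (Real.exp_pos _).trans_le hTe
  have hL20 : 20 ≤ Real.log T := by rw [Real.le_log_iff_exp_le hT0]; exact hTe
  have hLT := log_le_tenth hTe
  refine ⟨hL20, by linarith, fun F hc2 R hR hRL t ht => ?_⟩
  set L := Real.log T with hLd
  obtain ⟨U1, U2, hU1, hU1', hU2, hU2', hE⟩ := hEF T hTT1
  have hT10 : 10 ≤ T := hT1.trans hTT1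
  have hU : 1 ≤ U1 := by linarith
  set Z := H370.Zf G U1 U2 with hZ
  set IF := ∫ x : ℝ, F x with hIF
  set I1 := ∫ x : ℝ, |F x| with hI1
  have hI10 : 0 ≤ I1 := integral_nonneg fun _ => abs_nonneg _
  have hR0 : 0 < R := by linarith
  have hXF : XG G F T t = (∑ s ∈ Z, (H370.mult G s : ℝ) * F (s.im - t)) - L / (2 * Real.pi) * IF :=
    XG_eq hG hc2 hU (by linarith [ht.1]) (by linarith [ht.2])
  have h1 := point_diff hG (F := F) (R := R) (U2 := U2) (t := t) hU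
  have h2 := Z_eq (G := G) hG.le1 hB hc2 (T := T) (U1 := U1) (U2 := U2) (t := t) hR
    (fun t h1 h2 => hE R t hR hRL h1 h2) (by linarith [ht.1]) (by linarith [ht.2])
  have h3 : |XG G F T t + BG w F R t| = ‖(((XG G F T t + BG w F R t : ℝ)) : ℂ)‖ := by
    rw [Complex.norm_real, Real.norm_eq_abs]
  have h4 : (((∑ s ∈ Z, (H370.mult G s : ℝ) * F (s.im - t)) - L / (2 * Real.pi) * IF + BG w F R t : ℝ) : ℂ) =
      (((∑ s ∈ Z, (H370.mult G s : ℝ) * F (s.im - t) : ℝ) : ℂ) -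
        ∑ s ∈ Z, (H370.mult G s : ℂ) * KF F R (H370.zz s - t)) +
      ((∑ s ∈ Z, (H370.mult G s : ℂ) * KF F R (H370.zz s - t)) -
        ((L / (2 * Real.pi) * om R * IF - BG w F R t : ℝ) : ℂ)) +
      ((L / (2 * Real.pi) * (om R - 1) * IF : ℝ) : ℂ) := by
    push_cast; ring
  have h5 : ‖((L / (2 * Real.pi) * (om R - 1) * IF : ℝ) : ℂ)‖ ≤
      L / (2 * Real.pi) * (C5 / R ^ 2) * I1 := by
    rw [Complex.norm_real, Real.norm_eq_abs, abs_mul, abs_mul]
    have h6 : |IF| ≤ I1 := by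
      rw [hIF, ← Real.norm_eq_abs]
      exact norm_integral_le_integral_norm _
    have h7 : |L / (2 * Real.pi)| = L / (2 * Real.pi) := abs_of_nonneg (by positivity)
    rw [h7]
    have h8 := hO R hR
    exact mul_le_mul (mul_le_mul_of_nonneg_left h8 (by positivity)) h6 (abs_nonneg _) (by positivity)
  have h9 := norm_add_le (((∑ s ∈ Z, (H370.mult G s : ℝ) * F (s.im - t) : ℝ) : ℂ) -
        ∑ s ∈ Z, (H370.mult G s : ℂ) * KF F R (H370.zz s - t))
      ((∑ s ∈ Z, (H370.mult G s : ℂ) * KF F R (H370.zz s - t)) -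
        ((L / (2 * Real.pi) * om R * IF - BG w F R t : ℝ) : ℂ))
  have h10 : L / (2 * Real.pi) * (C5 / R ^ 2) ≤ C5 * (L / R ^ 2) := by
    have hpi := Real.pi_gt_three
    have e : L / (2 * Real.pi) * (C5 / R ^ 2) = C5 * (L / R ^ 2) / (2 * Real.pi) := by
      field_simp
    rw [e]
    apply div_le_self (by positivity)
    linarith
  have h11 : L / (2 * Real.pi) * (C5 / R ^ 2) * I1 ≤ C5 * (L / R ^ 2) * I1 :=
    mul_le_mul_of_nonneg_right h10 hI10
  -- the larger window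
  have h12 : (∑ s ∈ Z, (H370.mult G s : ℝ) *
        (‖KF F R ((s.im - t : ℝ) : ℂ) - F (s.im - t)‖ +
          ‖KF F R (((s.im - t : ℝ) : ℂ) + ((s.re - 1 / 2 : ℝ) : ℂ) * I) +
            KF F R (((s.im - t : ℝ) : ℂ) - ((s.re - 1 / 2 : ℝ) : ℂ) * I) - 2 * KF F R ((s.im - t : ℝ) : ℂ)‖)) ≤
      ∑ s ∈ H370.Zf G T (2 * T), (H370.mult G s : ℝ) *
        (‖KF F R ((s.im - t : ℝ) : ℂ) - F (s.im - t)‖ +
          ‖KF F R (((s.im - t : ℝ) : ℂ) + ((s.re - 1 / 2 : ℝ) : ℂ) * I) +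
            KF F R (((s.im - t : ℝ) : ℂ) - ((s.re - 1 / 2 : ℝ) : ℂ) * I) - 2 * KF F R ((s.im - t : ℝ) : ℂ)‖) := by
    apply Finset.sum_le_sum_of_subset_of_nonneg
    · exact PTHL.Zf_sub hG hU (by linarith) hU1 hU2'
    · intro s _ _
      positivity
  have h13 : C1 * I1 + C5 * (L / R ^ 2) * I1 ≤ (C1 + C5) * (1 + L / R ^ 2) * I1 := by
    have h14 : 0 ≤ L / R ^ 2 := by positivity
    have h15 : 0 ≤ C1 * (L / R ^ 2) * I1 := by positivity
    have h16 : 0 ≤ C5 * I1 := by positivity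
    nlinarith
  rw [h3, hXF, h4]
  refine (norm_add_le _ _).trans ?_
  refine le_trans (add_le_add (h9.trans (add_le_add (h1.trans h12) h2)) (h5.trans h11)) ?_
  linarith

end Pool.Agent.H203.GE
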