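import Pool.Agent.H203.GE.Defs4
import Pool.Agent.H203.GE.APX
import Pool.Agent.H203.GE.BBI

set_option autoImplicit false

/-! Moments of the weighted count of ordinates, for L-functions (adaptation of ME/WIN5.lean). -/

open Complex Filter Topology Set MeasureTheory

namespace Pool.Agent.H203.GE

open Pool.Agent.H203.ME hiding BG S_PT S_BBI S_EFW S_APX S_PRM XF_eq Zf_symm Z_eq point_diff t_BBI t_EFW t_APX t_PRM

namespace WIGL

open WIN5L

theorem NW_contG (G : ℂ → ℂ) (T h : ℝ) : Continuous (NWG G T h) := by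
  unfold NWG
  refine continuous_finsetSum _ fun s _ => continuous_const.mul ?_
  exact w1_cont.comp (by fun_prop)

theorem NW_nonnegG (G : ℂ → ℂ) (T h t : ℝ) : 0 ≤ NWG G T h t :=
  Finset.sum_nonneg fun _ _ => mul_nonneg (Nat.cast_nonneg _) (w1_nonneg _)

theorem PF_contG (G : ℂ → ℂ) (m : ℕ) (T h : ℝ) : Continuous (PFG G m T h) := by
  unfold PFG
  refine continuous_finsetSum _ fun s _ => continuous_const.mul ?_
  exact (w1_cont.comp (by fun_prop)).mul continuous_const

theorem PF_nonnegG (G : ℂ → ℂ) (m : ℕ) (T h t : ℝ) : 0 ≤ PFG G m T h t :=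
  Finset.sum_nonneg fun _ _ => mul_nonneg (Nat.cast_nonneg _) (mul_nonneg (w1_nonneg _)
    (mul_nonneg (sq_nonneg _) (Real.exp_pos _).le))

theorem BG_contG (G : ℂ → ℂ) (T h : ℝ) : Continuous (SCG G T h) := by
  unfold SCG
  refine continuous_finsetSum _ fun s _ => continuous_const.mul ?_
  exact (LLNL.bu_cd (-1) 2 1).continuous.comp (by fun_prop)

theorem BG_nonnegG (G : ℂ → ℂ) (T h t : ℝ) : 0 ≤ SCG G T h t :=
  Finset.sum_nonneg fun _ _ => mul_nonneg (Nat.cast_nonneg _) (LLNL.bu_nonneg _ _ _ _)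

theorem BG_leG (G : ℂ → ℂ) (T h t : ℝ) : SCG G T h t ≤ 5 * NWG G T h t := by
  unfold SCG NWG
  rw [Finset.mul_sum]
  refine Finset.sum_le_sum fun s _ => ?_
  have := mul_le_mul_of_nonneg_left (bu_le_w1 ((s.im - t) / h)) (Nat.cast_nonneg (α := ℝ) (H370.mult G s))
  linarith

/-- step one -/
theorem step1G {G : ℂ → ℂ} {T h L Cv Cn a b : ℝ} {m : ℕ} (hh : 0 < h) (hh1 : h ≤ 1) (hL : 0 ≤ L)
    (hCv : 0 < Cv) (hCn : 0 < Cn) (hab : a ≤ b) (hbT : b - a ≤ T)
    (hn : ∀ t, NWG G T h t ≤ Cn * L)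
    (hc : ∀ t ∈ Icc a b, NWG G T h t ≤ Cv * ∑ j ∈ Finset.Icc (-⌈1 / h⌉) ⌈1 / h⌉,
      1 / (1 + (j : ℝ) ^ 2) * SCG G T h (t + j * h) + Cv * (h ^ 2 * L)) :
    ∫ t in a..b, (NWG G T h t) ^ m ≤ (2 * Cv) ^ m * (W0 ^ m * (W0 *
      ((∫ t in a..b, (SCG G T h t) ^ m) + 4 * (5 * Cn * L) ^ m)) + (h * L) ^ m * T) := by
  set s : Finset ℤ := Finset.Icc (-⌈1 / h⌉) ⌈1 / h⌉ with hs
  have hcl : (0 : ℝ) < 1 / h := by positivity
  have hcl0 : 0 ≤ ⌈1 / h⌉ := (Int.ceil_pos.2 hcl).le
  have h0s : (0 : ℤ) ∈ s := Finset.mem_Icc.2 ⟨by omega, hcl0⟩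
  have hBGM : ∀ t, SCG G T h t ≤ 5 * Cn * L := fun t => by
    have := BG_leG G T h t
    have := hn t
    linarith
  have hBGc := BG_contG G T h
  -- pointwise
  have hpt : ∀ t ∈ Icc a b, (NWG G T h t) ^ m ≤ (2 * Cv) ^ m * (W0 ^ m * (∑ j ∈ s,
      1 / (1 + (j : ℝ) ^ 2) * SCG G T h (t + j * h) ^ m) + (h * L) ^ m) := by
    intro t ht
    set S : ℝ := ∑ j ∈ s, 1 / (1 + (j : ℝ) ^ 2) * SCG G T h (t + j * h) with hS
    have hS0 : 0 ≤ S := Finset.sum_nonneg fun j _ => mul_nonneg (by positivity)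
      (BG_nonnegG G _ _ _)
    have h1 : NWG G T h t ≤ Cv * (S + h * L) := by
      have h2 := hc t ht
      have h3 : h ^ 2 * L ≤ h * L := by
        apply mul_le_mul_of_nonneg_right _ hL
        nlinarith
      have h4 := mul_le_mul_of_nonneg_left h3 hCv.le
      rw [mul_add]
      linarith
    have h5 := pow_le_pow_left₀ (NW_nonnegG G T h t) h1 m
    rw [mul_pow] at h5
    have h6 : (S + h * L) ^ m ≤ 2 ^ m * (S ^ m + (h * L) ^ m) := by
      refine (add_pow_le hS0 (by positivity) m).trans ?_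
      refine mul_le_mul_of_nonneg_right (pow_le_pow_right₀ one_le_two (Nat.sub_le m 1)) ?_
      positivity
    have h7 : S ^ m ≤ W0 ^ m * (∑ j ∈ s, 1 / (1 + (j : ℝ) ^ 2) * SCG G T h (t + j * h) ^ m) :=
      pmean s h0s (fun j => SCG G T h (t + j * h)) (fun j _ => BG_nonnegG G _ _ _) m
    calc (NWG G T h t) ^ m ≤ Cv ^ m * (S + h * L) ^ m := h5
      _ ≤ Cv ^ m * (2 ^ m * (S ^ m + (h * L) ^ m)) :=
          mul_le_mul_of_nonneg_left h6 (by positivity)
      _ = (2 * Cv) ^ m * (S ^ m + (h * L) ^ m) := by rw [mul_pow]; ring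
      _ ≤ _ := by
          apply mul_le_mul_of_nonneg_left _ (by positivity)
          linarith
  -- integrability
  have hci : ∀ j : ℤ, Continuous fun t => 1 / (1 + (j : ℝ) ^ 2) * SCG G T h (t + j * h) ^ m :=
    fun j => continuous_const.mul ((hBGc.comp (by fun_prop)).pow m)
  have hsc : Continuous fun t => ∑ j ∈ s, 1 / (1 + (j : ℝ) ^ 2) * SCG G T h (t + j * h) ^ m :=
    continuous_finsetSum _ fun j _ => hci j
  have hint : ∫ t in a..b, (NWG G T h t) ^ m ≤ ∫ t in a..b, (2 * Cv) ^ m * (W0 ^ m * (∑ j ∈ s,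
      1 / (1 + (j : ℝ) ^ 2) * SCG G T h (t + j * h) ^ m) + (h * L) ^ m) := by
    refine intervalIntegral.integral_mono_on hab (((NW_contG G T h).pow m).intervalIntegrable _ _)
      (Continuous.intervalIntegrable ?_ _ _) hpt
    exact continuous_const.mul ((continuous_const.mul hsc).add continuous_const)
  refine hint.trans ?_
  rw [intervalIntegral.integral_const_mul]
  refine mul_le_mul_of_nonneg_left ?_ (by positivity)
  have i1 : IntervalIntegrable (fun t => W0 ^ m * ∑ j ∈ s, 1 / (1 + (j : ℝ) ^ 2) *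
      SCG G T h (t + j * h) ^ m) volume a b := (continuous_const.mul hsc).intervalIntegrable _ _
  have i2 : IntervalIntegrable (fun _ : ℝ => (h * L) ^ m) volume a b :=
    continuous_const.intervalIntegrable _ _
  rw [intervalIntegral.integral_add i1 i2, intervalIntegral.integral_const_mul,
    intervalIntegral.integral_finsetSum fun j _ => (hci j).intervalIntegrable _ _,
    intervalIntegral.integral_const, smul_eq_mul, mul_comm (b - a)]
  refine add_le_add (mul_le_mul_of_nonneg_left ?_ (pow_nonneg (by linarith [one_le_W0]) m))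
    (mul_le_mul_of_nonneg_left hbT (by positivity))
  set J : ℝ := ∫ t in a..b, (SCG G T h t) ^ m with hJ
  have hJ0 : 0 ≤ J := intervalIntegral.integral_nonneg hab fun t _ => pow_nonneg
    (BG_nonnegG G _ _ _) m
  have hterm : ∀ j ∈ s, ∫ t in a..b, 1 / (1 + (j : ℝ) ^ 2) * SCG G T h (t + j * h) ^ m ≤
      1 / (1 + (j : ℝ) ^ 2) * (J + 4 * (5 * Cn * L) ^ m) := by
    intro j hj
    rw [intervalIntegral.integral_const_mul]
    refine mul_le_mul_of_nonneg_left ?_ (by positivity)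
    have hjh : |(j : ℝ) * h| ≤ 2 := by
      rw [abs_mul, abs_of_pos hh]
      have h1 := Finset.mem_Icc.1 hj
      have h2 : |j| ≤ ⌈1 / h⌉ := abs_le.2 h1
      have h3 : |(j : ℝ)| ≤ (⌈1 / h⌉ : ℝ) := by exact_mod_cast h2
      have h4 : (⌈1 / h⌉ : ℝ) < 1 / h + 1 := Int.ceil_lt_add_one _
      calc |(j : ℝ)| * h ≤ (1 / h + 1) * h := mul_le_mul_of_nonneg_right (h3.trans h4.le) hh.le
        _ = 1 + h := by field_simp
        _ ≤ 2 := by linarith
    exact shift (g := fun t => SCG G T h t ^ m) (hBGc.pow m)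
      (fun t => pow_le_pow_left₀ (BG_nonnegG G _ _ _) (hBGM t) m)
      (fun t => pow_nonneg (BG_nonnegG G _ _ _) m) hjh
  refine (Finset.sum_le_sum hterm).trans ?_
  rw [← Finset.sum_mul]
  refine mul_le_mul_of_nonneg_right (sum_le s) ?_
  have h5 : 0 ≤ (5 * Cn * L) ^ m := by positivity
  linarith

theorem BG_XFG {G : ℂ → ℂ} {w : ℕ → ℂ} (hG : Lf G w) {T h t : ℝ} (hh : 0 < h) (h2 : h ≤ 1 / 2) (hT : 1 ≤ T) (h3 : T + 1 ≤ t)
    (h4 : t ≤ 2 * T - 1) (hL : 0 ≤ Real.log T) :
    SCG G T h t ≤ |XG G (fun x => LLNL.bu (-1) 2 1 (x / h)) T t| + h * Real.log T := by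
  have h5 := XG_eq hG (c2c hh h2) (U1 := T) (U2 := 2 * T) (T := T) hT h3 h4
  have h6 : ∑ s ∈ H370.Zf G T (2 * T), (H370.mult G s : ℝ) *
      (fun x => LLNL.bu (-1) 2 1 (x / h)) (s.im - t) = SCG G T h t := rfl
  rw [h6] at h5
  have h7 : ∫ x : ℝ, LLNL.bu (-1) 2 1 (x / h) ≤ 3 * h := by
    rw [Measure.integral_comp_div (fun x => LLNL.bu (-1) 2 1 x) h, abs_of_pos hh, smul_eq_mul]
    have h8 := LLNL.bu_int_le (p := -1) (q := 2) (ν := 1) one_pos (by norm_num)
    nlinarith
  have h9 : Real.log T / (2 * Real.pi) * ∫ x : ℝ, LLNL.bu (-1) 2 1 (x / h) ≤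
      h * Real.log T := by
    have hpi := Real.pi_gt_three
    have h10 : 0 ≤ Real.log T / (2 * Real.pi) := by positivity
    refine (mul_le_mul_of_nonneg_left h7 h10).trans ?_
    rw [div_mul_eq_mul_div, div_le_iff₀ (by positivity)]
    have h11 : 0 ≤ h * Real.log T := by positivity
    nlinarith
  have h12 := le_abs_self (XG G (fun x => LLNL.bu (-1) 2 1 (x / h)) T t)
  linarith

/-- step two -/
theorem step2G {G : ℂ → ℂ} {T h L a b ν C E P Q : ℝ} {m : ℕ} (hh : 0 < h) (hL : 0 ≤ L) (hab : a ≤ b)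
    (hbT : b - a ≤ T) (hν : 0 ≤ ν) (hC : 0 ≤ C) {B : ℝ → ℝ} (hB : Continuous B)
    (hE : E = 16 ^ m)
    (hpt : ∀ t ∈ Icc a b, SCG G T h t ≤ |B t| + ν * NWG G T h t + C * PFG G m T h t + C + h * L)
    (hBI : ∫ t in a..b, |B t| ^ m ≤ P) (hPI : ∫ t in a..b, PFG G m T h t ^ m ≤ Q) :
    ∫ t in a..b, (SCG G T h t) ^ m ≤ E * (P + ν ^ m * (∫ t in a..b, (NWG G T h t) ^ m) + C ^ m * Q +
      C ^ m * T + (h * L) ^ m * T) := by
  have hBa : Continuous fun t => |B t| ^ m := (continuous_abs.comp hB).pow m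
  have hNc : Continuous fun t => ν ^ m * NWG G T h t ^ m := continuous_const.mul ((NW_contG G T h).pow m)
  have hPc : Continuous fun t => C ^ m * PFG G m T h t ^ m :=
    continuous_const.mul ((PF_contG G m T h).pow m)
  have h1 : ∀ t ∈ Icc a b, (SCG G T h t) ^ m ≤ E * (|B t| ^ m + ν ^ m * NWG G T h t ^ m +
      C ^ m * PFG G m T h t ^ m + C ^ m + (h * L) ^ m) := by
    intro t ht
    have h2 := pow_le_pow_left₀ (BG_nonnegG G T h t) (hpt t ht) m
    refine h2.trans ((five (abs_nonneg _) (mul_nonneg hν (NW_nonnegG G _ _ _))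
      (mul_nonneg hC (PF_nonnegG G _ _ _ _)) hC (by positivity) m).trans (le_of_eq ?_))
    rw [hE, mul_pow ν, mul_pow C]
  have hcont : Continuous fun t => |B t| ^ m + ν ^ m * NWG G T h t ^ m +
      C ^ m * PFG G m T h t ^ m + C ^ m + (h * L) ^ m :=
    (((hBa.add hNc).add hPc).add continuous_const).add continuous_const
  have hcc : IntervalIntegrable (fun t => E * (|B t| ^ m + ν ^ m * NWG G T h t ^ m +
      C ^ m * PFG G m T h t ^ m + C ^ m + (h * L) ^ m)) volume a b :=
    (continuous_const.mul hcont).intervalIntegrable _ _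
  refine (intervalIntegral.integral_mono_on hab (((BG_contG G T h).pow m).intervalIntegrable _ _)
    hcc h1).trans ?_
  rw [intervalIntegral.integral_const_mul]
  have hE0 : 0 ≤ E := by rw [hE]; positivity
  refine mul_le_mul_of_nonneg_left ?_ hE0
  have j1 : IntervalIntegrable (fun t => |B t| ^ m) volume a b := hBa.intervalIntegrable _ _
  have j2 : IntervalIntegrable (fun t => ν ^ m * NWG G T h t ^ m) volume a b :=
    hNc.intervalIntegrable _ _
  have j3 : IntervalIntegrable (fun t => C ^ m * PFG G m T h t ^ m) volume a b :=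
    hPc.intervalIntegrable _ _
  have j4 : IntervalIntegrable (fun _ : ℝ => C ^ m) volume a b :=
    continuous_const.intervalIntegrable _ _
  have j5 : IntervalIntegrable (fun _ : ℝ => (h * L) ^ m) volume a b :=
    continuous_const.intervalIntegrable _ _
  rw [intervalIntegral.integral_add (((j1.add j2).add j3).add j4) j5,
    intervalIntegral.integral_add ((j1.add j2).add j3) j4,
    intervalIntegral.integral_add (j1.add j2) j3, intervalIntegral.integral_add j1 j2,
    intervalIntegral.integral_const_mul, intervalIntegral.integral_const_mul,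
    intervalIntegral.integral_const, intervalIntegral.integral_const, smul_eq_mul, smul_eq_mul,
    mul_comm (b - a), mul_comm (b - a)]
  have k1 : C ^ m * (∫ t in a..b, PFG G m T h t ^ m) ≤ C ^ m * Q :=
    mul_le_mul_of_nonneg_left hPI (by positivity)
  have k2 : C ^ m * (b - a) ≤ C ^ m * T := mul_le_mul_of_nonneg_left hbT (by positivity)
  have k3 : (h * L) ^ m * (b - a) ≤ (h * L) ^ m * T :=
    mul_le_mul_of_nonneg_left hbT (by positivity)
  linarith

end WIGL

open WIN5L WIGL in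
theorem t_WIG (hC : S_CVG) (hD : S_DEG) (hB : S_BMG) (hF : S_FAG) (hN : S_NCG) : S_WIG := by
  intro G u hG m
  rcases Nat.eq_zero_or_pos m with rfl | hm
  · refine ⟨1, 1, 64, one_pos, le_rfl, by norm_num, fun T hT h _ _ => ?_⟩
    have h1 : 0 < Real.log T := Real.log_pos (by linarith)
    simp only [pow_zero, intervalIntegral.integral_const, smul_eq_mul, mul_one, one_mul]
    linarith
  obtain ⟨Cv, Tv, hCv, hTv, hc⟩ := hC G u hG
  obtain ⟨Cn, Tn, hCn, hTn, hn⟩ := hN G u hG
  obtain ⟨Cd, Kd, Td, hCd, hKd, hTd, hd⟩ := hD G u hG m (LLNL.bu (-1) 2 1) (LLNL.bu_cd _ _ _)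
    (LLNL.bu_cs one_pos)
  obtain ⟨Cb, Kb, Tb, hCb, hKb, hTb, hb⟩ := hB m (LLNL.bu (-1) 2 1) (LLNL.bu_cd _ _ _)
    (LLNL.bu_cs one_pos)
  obtain ⟨Tf, hTf, hf⟩ := hF G u hG m
  have hW := one_le_W0
  set C₁ : ℝ := (2 * Cv) ^ m * (W0 ^ m * W0 + 1) with hC₁
  have hC₁0 : 0 < C₁ := by positivity
  set E : ℝ := 16 ^ m with hE
  have hE0 : 0 < E := by positivity
  set B : ℝ := 16 * (m + 1) + Cd * (2 * E * C₁ + 1) with hB
  have hB0 : 8 ≤ B := by
    have h1 : 0 ≤ Cd * (2 * E * C₁ + 1) := by positivity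
    have h2 : (0 : ℝ) ≤ m := Nat.cast_nonneg m
    linarith
  -- large T
  have hev : ∀ᶠ T : ℝ in atTop, B ≤ Real.log (Real.log T) ∧ 4 * (5 * Cn * Real.log T) ^ m ≤ T := by
    have h1 : Tendsto (fun T : ℝ => Real.log (Real.log T)) atTop atTop :=
      Real.tendsto_log_atTop.comp Real.tendsto_log_atTop
    have h2 := (Real.isLittleO_pow_log_id_atTop (n := m)).def
      (c := 1 / (4 * (5 * Cn) ^ m)) (by positivity)
    filter_upwards [h1.eventually_ge_atTop B, h2, eventually_gt_atTop 1] with T h3 h4 h5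
    refine ⟨h3, ?_⟩
    rw [id, Real.norm_of_nonneg (by linarith : (0 : ℝ) ≤ T), norm_pow,
      Real.norm_of_nonneg (Real.log_nonneg h5.le)] at h4
    rw [mul_pow]
    have h6 : (0 : ℝ) < 4 * (5 * Cn) ^ m := by positivity
    calc 4 * ((5 * Cn) ^ m * Real.log T ^ m) = 4 * (5 * Cn) ^ m * Real.log T ^ m := by ring
      _ ≤ 4 * (5 * Cn) ^ m * (1 / (4 * (5 * Cn) ^ m) * T) :=
          mul_le_mul_of_nonneg_left h4 h6.le
      _ = T := by field_simp
  obtain ⟨Te, hTe⟩ := eventually_atTop.1 hev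
  set C₂ : ℝ := 2 * (E * (1 + (1 + Cb) + 2 * Cd ^ m) + 1 / 2) with hC₂
  have hC₂0 : 0 < C₂ := by positivity
  refine ⟨C₁ * (C₂ + 1), max (max Kd Kb) 2, max (max (max Tv Tn) (max Td Tb)) (max (max Tf Te) 64),
    by positivity, ?_, ?_, ?_⟩
  · exact le_trans (by norm_num) (le_max_right _ _)
  · exact le_trans (by norm_num) ((le_max_right (max Tf Te) 64).trans (le_max_right _ _))
  intro T hT h hlh hhK
  have g1 : Tv ≤ T := ((le_max_left _ _).trans (le_max_left _ _)).trans ((le_max_left _ _).trans hT)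
  have g2 : Tn ≤ T := ((le_max_right _ _).trans (le_max_left _ _)).trans ((le_max_left _ _).trans hT)
  have g3 : Td ≤ T := ((le_max_left _ _).trans (le_max_right _ _)).trans ((le_max_left _ _).trans hT)
  have g4 : Tb ≤ T := ((le_max_right _ _).trans (le_max_right _ _)).trans ((le_max_left _ _).trans hT)
  have g5 : Tf ≤ T := ((le_max_left _ _).trans (le_max_left _ _)).trans ((le_max_right _ _).trans hT)
  have g6 : Te ≤ T := ((le_max_right _ _).trans (le_max_left _ _)).trans ((le_max_right _ _).trans hT)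
  have g7 : 64 ≤ T := (le_max_right _ _).trans ((le_max_right _ _).trans hT)
  obtain ⟨hl, hTbig⟩ := hTe T g6
  set L : ℝ := Real.log T with hLdef
  set l : ℝ := Real.log L with hldef
  have hl8 : 8 ≤ l := hB0.trans hl
  have hL0 : 0 < L := Real.log_pos (by linarith)
  have hL1 : 1 ≤ L := by
    by_contra hcon
    push Not at hcon
    have := Real.log_nonpos hL0.le hcon.le
    rw [← hldef] at this
    linarith
  have hm1 : (1 : ℝ) ≤ m := by exact_mod_cast hm
  have hlam : 0 < h * L := lt_of_lt_of_le (by positivity) hlh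
  have hh : 0 < h := by
    by_contra hcon
    push Not at hcon
    have := mul_nonpos_of_nonpos_of_nonneg hcon hL0.le
    linarith
  have hKd' : 0 < Kd := by linarith
  have hKb' : 0 < Kb := by linarith
  have hK1 : h ≤ 1 / 2 := hhK.trans (one_div_le_one_div_of_le two_pos (le_max_right _ _))
  have hK2 : h ≤ 1 / Kd := hhK.trans (one_div_le_one_div_of_le hKd'
    ((le_max_left _ _).trans (le_max_left _ _)))
  have hK3 : h ≤ 1 / Kb := hhK.trans (one_div_le_one_div_of_le hKb'
    ((le_max_right _ _).trans (le_max_left _ _)))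
  have hh1 : h ≤ 1 := by linarith
  have hlam1 : 1 ≤ h * L := (one_le_pow₀ (by linarith : (1 : ℝ) ≤ l)).trans hlh
  have h4L : 4 * L ≤ T := LLNL.log_le_quarter g7
  set a : ℝ := T + 2 * L with ha
  set b : ℝ := 2 * T - 2 * L with hb'
  have hab : a ≤ b := by linarith
  have hbT : b - a ≤ T := by linarith
  have haT : T ≤ a := by linarith
  have hbT2 : b ≤ 2 * T := by linarith
  have hT0 : 0 ≤ T := by linarith
  -- the bandwidth
  set R : ℝ := RG m T with hR
  have hRe : R = L / (16 * (m + 1) * l) := rfl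
  have hden : 0 < 16 * ((m : ℝ) + 1) * l := by positivity
  have hlm : 16 * ((m : ℝ) + 1) ≤ l := by
    have h1 : 0 ≤ Cd * (2 * E * C₁ + 1) := by positivity
    linarith
  have hl0 : 0 ≤ l := by linarith
  have hhR : 1 ≤ h * R := by
    rw [hRe, mul_div_assoc', le_div_iff₀ hden, one_mul]
    exact (mul_le_mul_of_nonneg_right hlm hl0).trans ((sq l).symm.le.trans hlh)
  have hR1 : 1 ≤ R := by
    have hR0 : 0 < R := by rw [hRe]; positivity
    refine hhR.trans ?_
    have := mul_le_mul_of_nonneg_right hh1 hR0.le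
    rwa [one_mul] at this
  have hR2 : R ≤ L / (64 * (m + 1)) := by
    rw [hRe]
    apply div_le_div_of_nonneg_left hL0.le (by positivity)
    have := mul_le_mul_of_nonneg_left hl8 (by positivity : (0 : ℝ) ≤ 16 * (m + 1))
    linarith
  -- the two steps
  set J : ℝ := ∫ t in a..b, (SCG G T h t) ^ m with hJ
  have hJ0 : 0 ≤ J := intervalIntegral.integral_nonneg hab fun t _ => pow_nonneg
    (BG_nonnegG G _ _ _) m
  have hlm1 : 1 ≤ (h * L) ^ m := one_le_pow₀ hlam1
  have hTl : T ≤ (h * L) ^ m * T := le_mul_of_one_le_left hT0 hlm1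
  have s1 : ∫ t in a..b, (NWG G T h t) ^ m ≤ C₁ * (J + (h * L) ^ m * T) := by
    refine (step1G hh hh1 hL0.le hCv hCn hab hbT (fun t => hn T g2 h hh hh1 t) (fun t ht =>
      hc T g1 h hh hh1 t ⟨haT.trans ht.1, ht.2.trans hbT2⟩)).trans ?_
    have e1 : C₁ * (J + (h * L) ^ m * T) = (2 * Cv) ^ m * ((W0 ^ m * W0 + 1) *
        (J + (h * L) ^ m * T)) := by rw [hC₁]; ring
    rw [e1]
    have h0 : (0 : ℝ) ≤ (2 * Cv) ^ m := by positivity
    refine mul_le_mul_of_nonneg_left ?_ h0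
    have h1 : 0 ≤ W0 ^ m * W0 := by positivity
    have h2 : J + 4 * (5 * Cn * L) ^ m ≤ J + (h * L) ^ m * T := by linarith
    have h3 := mul_le_mul_of_nonneg_left h2 h1
    rw [← mul_assoc (W0 ^ m), add_mul, one_mul]
    linarith
  have hFc : C2c (fun x => LLNL.bu (-1) 2 1 (x / h)) := c2c hh hK1
  have hBc : Continuous (BG u (fun x => LLNL.bu (-1) 2 1 (x / h)) R) := (t_BBI u hG.le1 _ hFc R hR1).2.1
  set ν : ℝ := Cd * l ^ 2 / (h * L) ^ 2 with hν
  have hν0 : 0 ≤ ν := by positivity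
  have s2 : J ≤ E * ((1 + Cb) * T + ν ^ m * (∫ t in a..b, (NWG G T h t) ^ m) + Cd ^ m * T +
      Cd ^ m * T + (h * L) ^ m * T) := by
    refine step2G hh hL0.le hab hbT hν0 hCd.le hBc hE (fun t ht => ?_) ?_ ?_
    · have h1 := hd T g3 h hlh hK2 t ht
      have h2 := BG_XFG hG (T := T) (h := h) (t := t) hh hK1 (by linarith)
        (by have := ht.1; linarith) (by have := ht.2; linarith) hL0.le
      linarith
    · have h1 : ∀ t ∈ Icc a b, |BG u (fun x => LLNL.bu (-1) 2 1 (x / h)) R t| ^ m ≤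
          1 + BG u (fun x => LLNL.bu (-1) 2 1 (x / h)) R t ^ (2 * m) := by
        intro t _
        set y := BG u (fun x => LLNL.bu (-1) 2 1 (x / h)) R t
        have h2 : y ^ (2 * m) = (|y| ^ m) ^ 2 := by
          rw [← pow_mul, mul_comm m 2, pow_mul, pow_mul, sq_abs]
        rw [h2]
        nlinarith [sq_nonneg (|y| ^ m - 1), pow_nonneg (abs_nonneg y) m]
      have h3 : Continuous fun t => BG u (fun x => LLNL.bu (-1) 2 1 (x / h)) R t ^ (2 * m) :=
        hBc.pow _
      have j1 : IntervalIntegrable (fun _ : ℝ => (1 : ℝ)) volume a b :=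
        continuous_const.intervalIntegrable _ _
      have j2 : IntervalIntegrable (fun t => BG u (fun x => LLNL.bu (-1) 2 1 (x / h)) R t ^ (2 * m))
        volume a b := h3.intervalIntegrable _ _
      have j3 : IntervalIntegrable (fun t => 1 +
        BG u (fun x => LLNL.bu (-1) 2 1 (x / h)) R t ^ (2 * m)) volume a b := j1.add j2
      refine (intervalIntegral.integral_mono_on hab
        (((continuous_abs.comp hBc).pow m).intervalIntegrable _ _) j3 h1).trans ?_
      rw [intervalIntegral.integral_add j1 j2, intervalIntegral.integral_const, smul_eq_mul,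
        mul_one]
      have h4 := int_le h3 (fun t => by rw [pow_mul]; positivity) haT hab hbT2
      have h5 := hb T g4 u hG.le1 h R hh hK3 hhR hR2
      linarith
    · refine (int_le (g := fun t => PFG G m T h t ^ m) ((PF_contG G m T h).pow m)
        (fun t => pow_nonneg (PF_nonnegG G _ _ _ _) m) haT hab hbT2).trans ?_
      exact hf T g5 h hlh hh1
  -- absorption
  have hνs : E * ν ^ m * C₁ ≤ 1 / 2 := by
    have h1 : ν * l ≤ Cd := by
      have h21 : l ≤ h * L := by
        refine le_trans ?_ hlh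
        rw [sq]
        exact le_mul_of_one_le_left hl0 (by linarith)
      have h2 : l ^ 2 * l ≤ (h * L) ^ 2 := by
        rw [sq (h * L)]
        exact mul_le_mul hlh h21 hl0 hlam.le
      rw [hν, div_mul_eq_mul_div, div_le_iff₀ (by positivity), mul_assoc]
      exact mul_le_mul_of_nonneg_left h2 hCd.le
    have h3 : ν * (Cd * (2 * E * C₁ + 1)) ≤ Cd := by
      have h4 : Cd * (2 * E * C₁ + 1) ≤ l := by
        have h5 : (0 : ℝ) ≤ 16 * (m + 1) := by positivity
        linarith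
      exact (mul_le_mul_of_nonneg_left h4 hν0).trans h1
    have hEC : 0 < E * C₁ := by positivity
    have hq : 0 ≤ ν * (E * C₁) := mul_nonneg hν0 hEC.le
    have h6 : 2 * (ν * (E * C₁)) + ν ≤ 1 := by
      have h61 : Cd * (2 * (ν * (E * C₁)) + ν) ≤ Cd * 1 := by
        have e : Cd * (2 * (ν * (E * C₁)) + ν) = ν * (Cd * (2 * E * C₁ + 1)) := by ring
        rw [e, mul_one]
        exact h3
      exact le_of_mul_le_mul_left h61 hCd
    have h7 : ν ≤ 1 := by linarith
    have h8 : ν ^ m ≤ ν := by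
      calc ν ^ m ≤ ν ^ 1 := pow_le_pow_of_le_one hν0 h7 hm
        _ = ν := pow_one ν
    have h9 : E * ν ^ m * C₁ ≤ E * ν * C₁ := by gcongr
    have h10 : E * ν * C₁ = ν * (E * C₁) := by ring
    linarith
  have s3 : E * (ν ^ m * (∫ t in a..b, (NWG G T h t) ^ m)) ≤ 1 / 2 * (J + (h * L) ^ m * T) := by
    have h1 : 0 ≤ J + (h * L) ^ m * T := by positivity
    calc E * (ν ^ m * (∫ t in a..b, (NWG G T h t) ^ m)) ≤
        E * (ν ^ m * (C₁ * (J + (h * L) ^ m * T))) := by gcongr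
      _ = E * ν ^ m * C₁ * (J + (h * L) ^ m * T) := by ring
      _ ≤ _ := mul_le_mul_of_nonneg_right hνs h1
  have hCdm : 0 ≤ Cd ^ m := by positivity
  have s4 : J ≤ C₂ * ((h * L) ^ m * T) := by
    have h1 : J ≤ E * ((1 + Cb) * T + Cd ^ m * T + Cd ^ m * T + (h * L) ^ m * T) +
        1 / 2 * (J + (h * L) ^ m * T) := by
      have e : E * ((1 + Cb) * T + ν ^ m * (∫ t in a..b, (NWG G T h t) ^ m) + Cd ^ m * T +
          Cd ^ m * T + (h * L) ^ m * T) =
          E * ((1 + Cb) * T + Cd ^ m * T + Cd ^ m * T + (h * L) ^ m * T) +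
          E * (ν ^ m * (∫ t in a..b, (NWG G T h t) ^ m)) := by ring
      rw [e] at s2
      linarith
    have h2 : (1 + Cb) * T + Cd ^ m * T + Cd ^ m * T + (h * L) ^ m * T ≤
        (1 + (1 + Cb) + 2 * Cd ^ m) * ((h * L) ^ m * T) := by
      have h3 : (1 + Cb) * T ≤ (1 + Cb) * ((h * L) ^ m * T) :=
        mul_le_mul_of_nonneg_left hTl (by positivity)
      have h4 : Cd ^ m * T ≤ Cd ^ m * ((h * L) ^ m * T) := mul_le_mul_of_nonneg_left hTl hCdm
      linarith
    have h5 := mul_le_mul_of_nonneg_left h2 hE0.le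
    rw [hC₂]
    linarith
  calc ∫ t in a..b, (NWG G T h t) ^ m ≤ C₁ * (J + (h * L) ^ m * T) := s1
    _ ≤ C₁ * (C₂ * ((h * L) ^ m * T) + (h * L) ^ m * T) := by gcongr
    _ = C₁ * (C₂ + 1) * (h * L) ^ m * T := by ring

end Pool.Agent.H203.GE
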