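import Pool.Agent.H203.GE.ENM
import Pool.Agent.H203.GE.PTH
import Pool.Agent.H203.GE.BMG
import Pool.Agent.H203.GE.NCG
import Pool.Agent.H203.GE.FAG
import Pool.Agent.H203.GE.DEG
import Pool.Agent.H203.GE.CVG
import Pool.Agent.H203.GE.WIG
import Pool.Agent.H203.GE.BMH
import Pool.Agent.H203.GE.BMI

set_option autoImplicit false

/-! The leaves of the fourth stage put together. -/

open Complex Filter Topology Set MeasureTheory

namespace Pool.Agent.H203.GE

theorem p_PTH : S_PTH := t_PTH t_EFW t_BBI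

theorem p_BMG : S_BMG := t_BMG t_BBI

theorem p_FAG : S_FAG := t_FAG t_NCG

theorem p_DEG : S_DEG := t_DEG p_PTH

theorem p_WIG : S_WIG := t_WIG t_CVG p_DEG p_BMG p_FAG t_NCG

theorem p_BMH : S_BMH := t_BMH p_DEG p_BMG p_WIG p_FAG

theorem p_BMI : S_BMI := t_BMI p_BMH

end Pool.Agent.H203.GE
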