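import Pool.Agent.H203.GE.Defs

set_option autoImplicit false

/-! Leaf EFW: the explicit formula for the band-limited kernel (copy of ME/EFW.lean). -/

open Complex Filter Topology Set MeasureTheory

namespace Pool.Agent.H203.GE

open Pool.Agent.H203.ME

namespace EFWL

open Pool.Agent.H203.ME.EFWL (gR_even sq_le gR_nonneg gR_le gR_le_one split_int gauss_ft om_eq norm_ee
  FN_summable exp_int)

/-! ### the zero side -/

/-- the normalised zero side -/
noncomputable def DD (G : ℂ → ℂ) (U1 U2 t u : ℝ) : ℂ := cexp (-(I * u * t)) * H370.AA G U1 U2 u t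

lemma DD_sum {G : ℂ → ℂ} {w : ℕ → ℂ} (hG : Lf G w) {U1 U2 : ℝ} (hU : 1 ≤ U1) (t u : ℝ) : DD G U1 U2 t u =
    ∑ s ∈ H370.Zf G U1 U2, (H370.mult G s : ℂ) *
      (cexp (I * u * (H370.zz s - t)) * cexp (-(H370.zz s - t) ^ 2 / 2)) := by
  unfold DD
  rw [H370.AA_eq hG.good hU, Finset.mul_sum]
  refine Finset.sum_congr rfl fun s _ => ?_
  rw [H370.hh_eq, show I * (u : ℂ) * (H370.zz s - t) = -(I * u * t) + I * u * H370.zz s by ring,
    Complex.exp_add]
  ring

lemma DD_cont {G : ℂ → ℂ} {w : ℕ → ℂ} (hG : Lf G w) {U1 U2 : ℝ} (hU : 1 ≤ U1) (t : ℝ) : Continuous (DD G U1 U2 t) := by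
  have h : DD G U1 U2 t = fun u : ℝ => ∑ s ∈ H370.Zf G U1 U2, (H370.mult G s : ℂ) *
      (cexp (I * u * (H370.zz s - t)) * cexp (-(H370.zz s - t) ^ 2 / 2)) :=
    funext fun u => DD_sum hG hU t u
  rw [h]
  fun_prop

lemma DD_neg {G : ℂ → ℂ} {w : ℕ → ℂ} (hG : Lf G w) {U1 U2 : ℝ} (hU : 1 ≤ U1) (t u : ℝ) :
    DD G U1 U2 t (-u) = (starRingEnd ℂ) (DD G U1 U2 t u) := by
  rw [DD_sum hG hU, DD_sum hG hU, ← H370.sum_refl hG.good hU, map_sum]
  refine Finset.sum_congr rfl fun s hs => ?_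
  rw [H370.mem_Zf hG.good hU] at hs
  have h1 : H370.mult G (1 - (starRingEnd ℂ) s) = H370.mult G s := by
    exact H370.mult_refl hG.good hs.1 hs.2.1 (by linarith [hs.2.2.1])
  rw [h1, H370.zz_refl]
  simp only [map_mul, ← Complex.exp_conj, Complex.conj_natCast, Complex.conj_I, Complex.conj_ofReal,
    map_sub, map_div₀, map_neg, map_pow, Complex.conj_ofNat]
  congr 3
  push_cast
  ring

lemma sum_WR {G : ℂ → ℂ} {w : ℕ → ℂ} (hG : Lf G w) {U1 U2 : ℝ} (hU : 1 ≤ U1) (R t : ℝ) :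
    (∑ s ∈ H370.Zf G U1 U2, (H370.mult G s : ℂ) * WR R (H370.zz s - t)) =
      ((∫ u in (0 : ℝ)..R, gR R u * (2 * (DD G U1 U2 t u).re) : ℝ) : ℂ) := by
  have h1 : (∑ s ∈ H370.Zf G U1 U2, (H370.mult G s : ℂ) * WR R (H370.zz s - t)) =
      ∫ u in (-R)..R, (gR R u : ℂ) * DD G U1 U2 t u := by
    simp_rw [DD_sum hG hU, Finset.mul_sum]
    rw [intervalIntegral.integral_finsetSum]
    · refine Finset.sum_congr rfl fun s _ => ?_
      unfold WR
      rw [← intervalIntegral.integral_mul_const, ← intervalIntegral.integral_const_mul]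
      refine intervalIntegral.integral_congr fun u _ => ?_
      ring
    · intro s _
      apply Continuous.intervalIntegrable
      have := gR_cont R
      fun_prop
  rw [h1, split_int (by
    have := gR_cont R
    have := DD_cont hG (U1 := U1) (U2 := U2) hU t
    fun_prop), ← intervalIntegral.integral_ofReal]
  refine intervalIntegral.integral_congr fun u _ => ?_
  rw [gR_even, DD_neg hG hU, ← mul_add, Complex.add_conj]
  push_cast
  ring

/-! ### the prime side -/

/-- the terms of the prime side -/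
noncomputable def FN (w : ℕ → ℂ) (R t : ℝ) (n : ℕ) (u : ℝ) : ℂ :=
  ((ArithmeticFunction.vonMangoldt n / Real.sqrt n : ℝ) : ℂ) * (w n * ee n t) *
    ((gR R u * Real.exp (-(u - Real.log n) ^ 2 / 2) : ℝ) : ℂ)

lemma FN_cont (w : ℕ → ℂ) (R t : ℝ) (n : ℕ) : Continuous (FN w R t n) := by
  unfold FN
  have := gR_cont R
  fun_prop

lemma FN_bound {w : ℕ → ℂ} (hw : ∀ n, ‖w n‖ ≤ 1) {R : ℝ} (hR : 0 < R) (t : ℝ) (n : ℕ) {u : ℝ} (hu : u ∈ Icc (0 : ℝ) R) :
    ‖FN w R t n u‖ ≤ Real.exp ((R + 1) ^ 2 / 2) *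
      (ArithmeticFunction.vonMangoldt n * (n : ℝ) ^ (-(3 / 2 : ℝ))) := by
  rcases Nat.eq_zero_or_pos n with h | h
  · subst h
    simp [FN]
  have hn : (0 : ℝ) < n := by exact_mod_cast h
  unfold FN
  rw [norm_mul, norm_mul, norm_mul, norm_ee, mul_one, Complex.norm_real, Complex.norm_real, Real.norm_eq_abs,
    Real.norm_eq_abs, mul_right_comm]
  refine (mul_le_of_le_one_right (by positivity) (hw n)).trans ?_
  have habs : |u| ≤ R := by rw [abs_of_nonneg hu.1]; exact hu.2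
  have hg0 := gR_nonneg hR habs
  have hg1 := gR_le_one hR habs
  have hΛ : (0 : ℝ) ≤ ArithmeticFunction.vonMangoldt n := ArithmeticFunction.vonMangoldt_nonneg
  rw [abs_of_nonneg (by positivity), abs_of_nonneg (by positivity)]
  set x := Real.log n with hx
  have hexp : Real.exp (-(u - x) ^ 2 / 2) ≤ Real.exp ((R + 1) ^ 2 / 2) * Real.exp (-x) := by
    rw [← Real.exp_add]
    apply Real.exp_le_exp.2
    have hx0 : 0 ≤ x := Real.log_natCast_nonneg n
    nlinarith [sq_nonneg (x - (R + 1)), mul_nonneg hx0 (sub_nonneg.2 hu.2), sq_nonneg u]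
  have hex : Real.exp (-x) = (n : ℝ) ^ (-(1 : ℝ)) := by
    rw [Real.rpow_neg_one, Real.exp_neg, hx, Real.exp_log hn]
  have hsq : (Real.sqrt n)⁻¹ = (n : ℝ) ^ (-(1 / 2 : ℝ)) := by
    rw [Real.rpow_neg hn.le, Real.sqrt_eq_rpow]
  have hprod : (n : ℝ) ^ (-(3 / 2 : ℝ)) = (n : ℝ) ^ (-(1 : ℝ)) * (n : ℝ) ^ (-(1 / 2 : ℝ)) := by
    rw [← Real.rpow_add hn]; norm_num
  calc ArithmeticFunction.vonMangoldt n / Real.sqrt n *
        (gR R u * Real.exp (-(u - x) ^ 2 / 2)) ≤
      ArithmeticFunction.vonMangoldt n / Real.sqrt n *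
        (1 * (Real.exp ((R + 1) ^ 2 / 2) * Real.exp (-x))) := by
        apply mul_le_mul_of_nonneg_left _ (by positivity)
        exact mul_le_mul hg1 hexp (Real.exp_pos _).le zero_le_one
    _ = _ := by
        rw [hex, hprod, ← hsq]
        ring

lemma FN_summable (R : ℝ) : Summable (fun n : ℕ => Real.exp ((R + 1) ^ 2 / 2) *
      (ArithmeticFunction.vonMangoldt n * (n : ℝ) ^ (-(3 / 2 : ℝ)))) :=
  H370.lam_summable.mul_left _

lemma FN_tsum (w : ℕ → ℂ) (R t u : ℝ) : ∑' n : ℕ, FN w R t n u =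
    (gR R u : ℂ) * (cexp (-(I * u * t)) *
      H370.PP (fun n => (ArithmeticFunction.vonMangoldt n : ℂ) * w n) u t) := by
  unfold H370.PP
  rw [← tsum_mul_left, ← tsum_mul_left]
  refine tsum_congr fun n => ?_
  unfold FN ee
  have h1 : cexp (-(((t * Real.log n : ℝ) : ℂ) * I)) =
      cexp (-(I * u * t)) * cexp (I * t * (u - Real.log n)) := by
    rw [← Complex.exp_add]
    congr 1
    push_cast
    ring
  rw [h1]
  push_cast
  ring

lemma FN_hasSum {w : ℕ → ℂ} (hw : ∀ n, ‖w n‖ ≤ 1) {R : ℝ} (hR : 0 < R) (t : ℝ) :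
    HasSum (fun n : ℕ => ∫ u in (0 : ℝ)..R, FN w R t n u) (∫ u in (0 : ℝ)..R, ∑' n : ℕ, FN w R t n u) := by
  have hb : ∀ n : ℕ, ∀ u : ℝ, u ∈ uIoc (0 : ℝ) R → ‖FN w R t n u‖ ≤ Real.exp ((R + 1) ^ 2 / 2) *
      (ArithmeticFunction.vonMangoldt n * (n : ℝ) ^ (-(3 / 2 : ℝ))) := by
    intro n u hu
    rw [uIoc_of_le hR.le] at hu
    exact FN_bound hw hR t n ⟨hu.1.le, hu.2⟩
  refine intervalIntegral.hasSum_integral_of_dominated_convergence
    (fun n _ => Real.exp ((R + 1) ^ 2 / 2) *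
      (ArithmeticFunction.vonMangoldt n * (n : ℝ) ^ (-(3 / 2 : ℝ)))) ?_ ?_ ?_ ?_ ?_
  · intro n
    exact (FN_cont w R t n).aestronglyMeasurable
  · intro n
    exact Eventually.of_forall fun u hu => hb n u hu
  · exact Eventually.of_forall fun u _ => FN_summable R
  · exact intervalIntegrable_const
  · exact Eventually.of_forall fun u hu =>
      (Summable.of_norm_bounded (FN_summable R) fun n => hb n u hu).hasSum

lemma FN_contOn {w : ℕ → ℂ} (hw : ∀ n, ‖w n‖ ≤ 1) {R : ℝ} (hR : 0 < R) (t : ℝ) :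
    ContinuousOn (fun u : ℝ => ∑' n : ℕ, FN w R t n u) (Icc (0 : ℝ) R) :=
  continuousOn_tsum (fun n => (FN_cont w R t n).continuousOn) (FN_summable R)
    (fun n _ hu => FN_bound hw hR t n hu)

lemma FN_integral (w : ℕ → ℂ) (R t : ℝ) (n : ℕ) : ∫ u in (0 : ℝ)..R, FN w R t n u =
    ((ArithmeticFunction.vonMangoldt n / Real.sqrt n * cR R (Real.log n) : ℝ) : ℂ) * (w n * ee n t) := by
  unfold FN cR
  rw [intervalIntegral.integral_const_mul, intervalIntegral.integral_ofReal]
  push_cast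
  ring

lemma PG_eq {w : ℕ → ℂ} (hw : ∀ n, ‖w n‖ ≤ 1) {R : ℝ} (hR : 0 < R) (t : ℝ) : PG w R t =
    2 / Real.sqrt (2 * Real.pi) * ∫ u in (0 : ℝ)..R, (∑' n : ℕ, FN w R t n u).re := by
  unfold PG
  congr 1
  have h1 := (FN_hasSum hw hR t).tsum_eq
  simp_rw [FN_integral] at h1
  rw [h1]
  have hint : IntervalIntegrable (fun u : ℝ => ∑' n : ℕ, FN w R t n u) volume 0 R := by
    apply ContinuousOn.intervalIntegrable
    rw [uIcc_of_le hR.le]
    exact FN_contOn hw hR t
  rw [intervalIntegral.integral_of_le hR.le, intervalIntegral.integral_of_le hR.le]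
  exact (integral_re hint.1).symm

end EFWL

open Pool.Agent.H203.GE.EFWL in
open Pool.Agent.H203.ME.EFWL (gR_even sq_le gR_nonneg gR_le gR_le_one split_int gauss_ft om_eq norm_ee FN_summable exp_int) in
theorem t_EFW : S_EFW := by
  intro G w hG
  have hw := hG.le1
  obtain ⟨C, T0, hC, hT0, hmain⟩ := H370.A2.ef_known hG.good
    (a := fun n => (ArithmeticFunction.vonMangoldt n : ℂ) * w n) (fun n => by
      rw [norm_mul, Complex.norm_real, Real.norm_eq_abs, abs_of_nonneg ArithmeticFunction.vonMangoldt_nonneg]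
      exact mul_le_of_le_one_right ArithmeticFunction.vonMangoldt_nonneg (hw n))
    hG.ld
  refine ⟨C, T0, hC, hT0, fun T hT => ?_⟩
  obtain ⟨U1, U2, hU1, hU1', hU2, hU2', hm⟩ := hmain T hT
  refine ⟨U1, U2, hU1, hU1', hU2, hU2', fun R t hR1 hRL ht1 ht2 => ?_⟩
  have hU : 1 ≤ U1 := by linarith
  have hR : 0 < R := by linarith
  rw [sum_WR hG hU]
  set L := Real.log T with hL
  have hs2 : (0 : ℝ) < Real.sqrt (2 * Real.pi) := by positivity
  have hsq : Real.sqrt (2 * Real.pi) * Real.sqrt (2 * Real.pi) = 2 * Real.pi :=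
    Real.mul_self_sqrt (by positivity)
  -- the approximation
  set EE : ℝ → ℝ := fun u => (1 / Real.sqrt (2 * Real.pi)) *
    (L * (gR R u * Real.exp (-u ^ 2 / 2)) - (∑' n : ℕ, FN w R t n u).re) with hEE
  have hFc := FN_contOn hw hR t
  have hFre : ContinuousOn (fun u : ℝ => (∑' n : ℕ, FN w R t n u).re) (Icc (0 : ℝ) R) :=
    Complex.continuous_re.comp_continuousOn hFc
  have hgc := gR_cont R
  have hEc : ContinuousOn EE (Icc (0 : ℝ) R) := by
    rw [hEE]
    refine continuousOn_const.mul (ContinuousOn.sub ?_ hFre)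
    apply Continuous.continuousOn
    fun_prop
  have hEint : IntervalIntegrable EE volume 0 R := by
    apply ContinuousOn.intervalIntegrable
    rwa [uIcc_of_le hR.le]
  have hval : L / (2 * Real.pi) * om R - PG w R t = ∫ u in (0 : ℝ)..R, 2 * EE u := by
    have hi1 : IntervalIntegrable (fun u : ℝ => L * (gR R u * Real.exp (-u ^ 2 / 2))) volume 0 R := by
      apply Continuous.intervalIntegrable
      fun_prop
    have hi2 : IntervalIntegrable (fun u : ℝ => (∑' n : ℕ, FN w R t n u).re) volume 0 R := by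
      apply ContinuousOn.intervalIntegrable
      rwa [uIcc_of_le hR.le]
    rw [intervalIntegral.integral_const_mul, hEE, intervalIntegral.integral_const_mul,
      intervalIntegral.integral_sub hi1 hi2, intervalIntegral.integral_const_mul, PG_eq hw hR,
      om_eq hR.le]
    generalize Real.sqrt (2 * Real.pi) = s at hs2 hsq
    rw [← hsq]
    field_simp
  rw [hval, ← Complex.ofReal_sub, Complex.norm_real, Real.norm_eq_abs]
  have hDc := DD_cont hG (U1 := U1) (U2 := U2) hU t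
  have hDi : Continuous fun u : ℝ => gR R u * (2 * (DD G U1 U2 t u).re) :=
    hgc.mul (continuous_const.mul (Complex.continuous_re.comp hDc))
  rw [← intervalIntegral.integral_sub (hDi.intervalIntegrable _ _) (hEint.const_mul 2)]
  have hpt : ∀ u ∈ Icc (0 : ℝ) R,
      ‖gR R u * (2 * (DD G U1 U2 t u).re) - 2 * EE u‖ ≤ C / Real.pi * Real.exp (-u) := by
    intro u hu
    have h1 := hm u t hu.1 (hu.2.trans hRL) ht1 ht2
    have habs : |u| ≤ R := by rw [abs_of_nonneg hu.1]; exact hu.2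
    have hg0 := gR_nonneg hR habs
    have hg1 := gR_le hR habs
    set P := H370.PP (fun n => (ArithmeticFunction.vonMangoldt n : ℂ) * w n) u t with hP
    have hE : EE u = gR R u * ((1 / Real.sqrt (2 * Real.pi)) *
        (L * Real.exp (-u ^ 2 / 2) - (cexp (-(I * u * t)) * P).re)) := by
      rw [hEE]
      simp only
      rw [FN_tsum, ← hP, Complex.re_ofReal_mul]
      ring
    have hdiff : DD G U1 U2 t u - ((1 / Real.sqrt (2 * Real.pi) : ℝ) : ℂ) *
        (((L * Real.exp (-u ^ 2 / 2) : ℝ) : ℂ) - cexp (-(I * u * t)) * P) =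
        cexp (-(I * u * t)) * (H370.AA G U1 U2 u t -
          ((1 / Real.sqrt (2 * Real.pi) : ℝ) : ℂ) * ((L : ℂ) * cexp (I * u * t) *
              (Real.exp (-u ^ 2 / 2) : ℂ) - P)) := by
      unfold DD
      have : cexp (-(I * u * t)) * cexp (I * u * t) = 1 := by
        rw [← Complex.exp_add]; simp
      push_cast
      linear_combination ((1 / (Real.sqrt (2 * Real.pi) : ℂ)) * L * cexp (-(u : ℂ) ^ 2 / 2)) * this
    have hn1 : ‖cexp (-(I * (u : ℂ) * t))‖ = 1 := by
      rw [show -(I * (u : ℂ) * t) = ((-(u * t) : ℝ) : ℂ) * I by push_cast; ring,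
        Complex.norm_exp_ofReal_mul_I]
    have hre : |(DD G U1 U2 t u).re - (1 / Real.sqrt (2 * Real.pi)) *
        (L * Real.exp (-u ^ 2 / 2) - (cexp (-(I * u * t)) * P).re)| ≤ C * Real.exp (-u) := by
      have h2 : (DD G U1 U2 t u).re - (1 / Real.sqrt (2 * Real.pi)) *
        (L * Real.exp (-u ^ 2 / 2) - (cexp (-(I * u * t)) * P).re) =
        (DD G U1 U2 t u - ((1 / Real.sqrt (2 * Real.pi) : ℝ) : ℂ) *
        (((L * Real.exp (-u ^ 2 / 2) : ℝ) : ℂ) - cexp (-(I * u * t)) * P)).re := by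
        rw [Complex.sub_re, Complex.re_ofReal_mul, Complex.sub_re, Complex.ofReal_re]
      rw [h2]
      refine (Complex.abs_re_le_norm _).trans ?_
      rw [hdiff, norm_mul, hn1, one_mul]
      exact h1
    rw [hE, Real.norm_eq_abs]
    have h3 : gR R u * (2 * (DD G U1 U2 t u).re) - 2 * (gR R u * ((1 / Real.sqrt (2 * Real.pi)) *
        (L * Real.exp (-u ^ 2 / 2) - (cexp (-(I * u * t)) * P).re))) =
        2 * gR R u * ((DD G U1 U2 t u).re - (1 / Real.sqrt (2 * Real.pi)) *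
        (L * Real.exp (-u ^ 2 / 2) - (cexp (-(I * u * t)) * P).re)) := by ring
    rw [h3, abs_mul, abs_of_nonneg (by positivity)]
    calc _ ≤ 2 * (1 / (2 * Real.pi)) * (C * Real.exp (-u)) :=
          mul_le_mul (by linarith) hre (abs_nonneg _) (by positivity)
      _ = _ := by field_simp
  have hfin : ‖∫ u in (0 : ℝ)..R, (gR R u * (2 * (DD G U1 U2 t u).re) - 2 * EE u)‖ ≤
      ∫ u in (0 : ℝ)..R, C / Real.pi * Real.exp (-u) := by
    refine intervalIntegral.norm_integral_le_of_norm_le hR.le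
      (Eventually.of_forall fun u hu => hpt u ⟨hu.1.le, hu.2⟩) ?_
    apply Continuous.intervalIntegrable
    fun_prop
  rw [Real.norm_eq_abs] at hfin
  refine hfin.trans ?_
  rw [intervalIntegral.integral_const_mul]
  calc C / Real.pi * ∫ u in (0 : ℝ)..R, Real.exp (-u) ≤ C / Real.pi * 1 :=
        mul_le_mul_of_nonneg_left exp_int (by positivity)
    _ ≤ C := by
        rw [mul_one, div_le_iff₀ Real.pi_pos]
        nlinarith [Real.pi_gt_three]

end Pool.Agent.H203.GE

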