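import Pool.Agent.H203.GE.Defs2

set_option autoImplicit false

/-! (L1G) the linear statistics of the zeros of an L-function are bounded in `L¹`. -/

open Complex Filter Topology Set MeasureTheory

namespace Pool.Agent.H203.GE

open Pool.Agent.H203.ME

namespace L1GL

lemma YG_cont (u : ℕ → ℂ) (F : ℝ → ℝ) (N : ℕ) : Continuous (YG u F N) := by
  unfold YG ee
  fun_prop

/-- the coefficients -/
noncomputable def ag (u : ℕ → ℂ) (F : ℝ → ℝ) (p : ℕ) : ℂ :=
  if ‖u p‖ ≤ 1 then ap F p * u p else 0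

lemma ag_norm (u : ℕ → ℂ) (F : ℝ → ℝ) (p : ℕ) : ‖ag u F p‖ ≤ ‖ap F p‖ := by
  unfold ag
  split_ifs with h
  · rw [norm_mul]
    exact mul_le_of_le_one_right (norm_nonneg _) h
  · rw [norm_zero]
    exact norm_nonneg _

lemma YG_eq (u : ℕ → ℂ) (hu : ∀ n, ‖u n‖ ≤ 1) (F : ℝ → ℝ) (N : ℕ) (t : ℝ) :
    ((∑ p ∈ (Finset.Icc 1 N).filter Nat.Prime, ag u F p * ee p t).re : ℝ) = - YG u F N t := by
  unfold YG ag ap
  rw [← Complex.neg_re, ← Finset.sum_neg_distrib]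
  congr 1
  refine Finset.sum_congr rfl fun p _ => ?_
  rw [if_pos (hu p)]
  ring

/-- one dyadic interval -/
lemma one (u : ℕ → ℂ) (hu : ∀ n, ‖u n‖ ≤ 1) (F : ℝ → ℝ) (N : ℕ) (W S : ℝ) (hN : 1 ≤ N) (hW : 1 ≤ W)
    (hNW : (N : ℝ) ^ 4 ≤ W) (hF : ∫ x : ℝ, |F x| ≤ 1)
    (hS : ∑ p ∈ (Finset.Icc 1 N).filter Nat.Prime, ‖ap F p‖ ^ 2 ≤ S) :
    ∫ t in W..(2 * W), |YG u F N t| ≤ W * (2 * S + 4) := by
  have hW0 : 0 < W := by linarith
  have hmom := L1XL.mom2 t_MOM N (ag u F) W hN hW hNW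
    (fun p => (ag_norm u F p).trans ((ap_le F p).trans hF))
  have hS2 : ∑ p ∈ (Finset.Icc 1 N).filter Nat.Prime, ‖ag u F p‖ ^ 2 ≤ S :=
    (Finset.sum_le_sum fun p _ => pow_le_pow_left₀ (norm_nonneg _) (ag_norm u F p) 2).trans hS
  have hYc := YG_cont u F N
  have hAc : Continuous fun t : ℝ =>
      ‖∑ p ∈ (Finset.Icc 1 N).filter Nat.Prime, ag u F p * ee p t‖ ^ 2 := by
    unfold ee
    fun_prop
  have i1 : IntervalIntegrable (fun t : ℝ =>
      ‖∑ p ∈ (Finset.Icc 1 N).filter Nat.Prime, ag u F p * ee p t‖ ^ 2) volume W (2 * W) :=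
    hAc.intervalIntegrable _ _
  have i2 : IntervalIntegrable (fun _ : ℝ => (1 : ℝ)) volume W (2 * W) := intervalIntegrable_const
  have h1 : ∫ t in W..(2 * W), |YG u F N t| ≤ ∫ t in W..(2 * W),
      (‖∑ p ∈ (Finset.Icc 1 N).filter Nat.Prime, ag u F p * ee p t‖ ^ 2 + 1) := by
    apply intervalIntegral.integral_mono_on (by linarith)
    · exact (hYc.abs).intervalIntegrable _ _
    · exact i1.add i2
    · intro t _
      have h3 := Complex.abs_re_le_norm
        (∑ p ∈ (Finset.Icc 1 N).filter Nat.Prime, ag u F p * ee p t)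
      rw [YG_eq u hu, abs_neg] at h3
      set x := ‖∑ p ∈ (Finset.Icc 1 N).filter Nat.Prime, ag u F p * ee p t‖
      have h4 : x ≤ x ^ 2 + 1 := by nlinarith [sq_nonneg (x - 1)]
      exact h3.trans h4
  rw [intervalIntegral.integral_add i1 i2, intervalIntegral.integral_const, smul_eq_mul] at h1
  have h2 : W * (2 * (∑ p ∈ (Finset.Icc 1 N).filter Nat.Prime, ‖ag u F p‖ ^ 2) + 3) ≤
      W * (2 * S + 3) := by
    apply mul_le_mul_of_nonneg_left _ hW0.le
    linarith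
  calc _ ≤ _ := h1
    _ ≤ W * (2 * S + 3) + (2 * W - W) * 1 := by linarith
    _ = _ := by ring

/-- several dyadic intervals -/
lemma many (f : ℝ → ℝ) (hf : Continuous f) (K w W0 : ℝ) (hw : 0 < w) (hW0 : W0 ≤ w)
    (h : ∀ W, W0 ≤ W → ∫ t in W..(2 * W), f t ≤ W * K) (m : ℕ) :
    ∫ t in w..(2 ^ m * w), f t ≤ (2 ^ m - 1) * w * K := by
  induction m with
  | zero => simp
  | succ m ih =>
    have h1 : (1 : ℝ) ≤ 2 ^ m := one_le_pow₀ (by norm_num)
    have h2 : W0 ≤ 2 ^ m * w := hW0.trans (le_mul_of_one_le_left hw.le h1)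
    have h3 := h (2 ^ m * w) h2
    have h4 : (2 : ℝ) ^ (m + 1) * w = 2 * (2 ^ m * w) := by ring
    rw [h4, ← intervalIntegral.integral_add_adjacent_intervals (hf.intervalIntegrable w (2 ^ m * w))
      (hf.intervalIntegrable (2 ^ m * w) (2 * (2 ^ m * w)))]
    calc _ ≤ (2 ^ m - 1) * w * K + 2 ^ m * w * K := add_le_add ih h3
      _ = _ := by ring

end L1GL

theorem t_L1G (hA : S_AP) : S_L1G := by
  intro G u hG a b V ha hab hV0
  obtain ⟨ε0, hε0, hA⟩ := hA G u hG a b V 1 ha hab hV0 one_pos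
  obtain ⟨ε, hεdef⟩ : ∃ ε, ε = min ε0 (1 / 16) := ⟨_, rfl⟩
  have hε : 0 < ε := by rw [hεdef]; exact lt_min hε0 (by norm_num)
  have hε16 : ε ≤ 1 / 16 := by rw [hεdef]; exact min_le_right _ _
  obtain ⟨η, T1, hη0, hη1, hT1, hA⟩ := hA ε hε (by rw [hεdef]; exact min_le_left _ _)
  obtain ⟨CV, hCV, hV⟩ := t_VAR
  -- the number of the dyadic intervals
  obtain ⟨m, hm⟩ := pow_unbounded_of_one_lt (b / a) (one_lt_two : (1 : ℝ) < 2)
  have hma : b ≤ 2 ^ m * a := by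
    rw [div_lt_iff₀ ha] at hm
    exact hm.le
  obtain ⟨S, hS⟩ : ∃ S, S = V + CV * (1 + 1 + (2 / ε) ^ 2) := ⟨_, rfl⟩
  have hS0 : 0 ≤ S := by rw [hS]; positivity
  -- large T
  have hev : ∀ᶠ T : ℝ in atTop, T1 ≤ T ∧ 10 ≤ T ∧ 4 ≤ T ^ ε ∧ 1 ≤ a * T ∧ T ^ (1 / 4 : ℝ) ≤ a * T ∧
      1 ≤ Real.log T := by
    have e1 : ∀ᶠ T : ℝ in atTop, T ^ (1 / 4 : ℝ) ≤ a * T := by
      have h1 : Tendsto (fun T : ℝ => T ^ (3 / 4 : ℝ)) atTop atTop :=
        tendsto_rpow_atTop (by norm_num)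
      filter_upwards [h1.eventually_ge_atTop (1 / a), eventually_gt_atTop 0] with T h2 h3
      rw [div_le_iff₀ ha] at h2
      have h4 : T = T ^ (3 / 4 : ℝ) * T ^ (1 / 4 : ℝ) := by
        rw [← Real.rpow_add h3]; norm_num
      have h5 : 0 ≤ T ^ (1 / 4 : ℝ) := by positivity
      calc T ^ (1 / 4 : ℝ) = 1 * T ^ (1 / 4 : ℝ) := (one_mul _).symm
        _ ≤ (T ^ (3 / 4 : ℝ) * a) * T ^ (1 / 4 : ℝ) := mul_le_mul_of_nonneg_right h2 h5
        _ = a * (T ^ (3 / 4 : ℝ) * T ^ (1 / 4 : ℝ)) := by ring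
        _ = a * T := by rw [← h4]
    exact (eventually_ge_atTop T1).and ((eventually_ge_atTop 10).and
      (((tendsto_rpow_atTop hε).eventually_ge_atTop 4).and
      (((tendsto_id.const_mul_atTop ha).eventually_ge_atTop 1).and
      (e1.and (Real.tendsto_log_atTop.eventually_ge_atTop 1)))))
  obtain ⟨T0, hT0⟩ := eventually_atTop.1 hev
  refine ⟨1 + 2 ^ m * a * (2 * S + 4), η, max T0 10, by positivity, hη0, hη1, le_max_right _ _,
    fun T hT F hF => ?_⟩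
  obtain ⟨k1, k2, k3, k4, k5, k6⟩ := hT0 T ((le_max_left _ _).trans hT)
  obtain ⟨hXc, hA⟩ := hA T k1 F hF
  refine ⟨hXc, ?_⟩
  have hTp : 0 < T := by linarith
  obtain ⟨N, hN⟩ : ∃ N, N = ⌊T ^ ε⌋₊ := ⟨_, rfl⟩
  obtain ⟨hNlog, hN3⟩ := floor_log k3
  rw [← hN] at hNlog hN3 hA
  have hlogN : ε * Real.log T / 2 ≤ Real.log N := by
    rw [Real.log_rpow hTp] at hNlog
    exact hNlog
  have hlogN0 : 0 < Real.log N := lt_of_lt_of_le (by positivity) hlogN
  have hVN := hV η V (Real.log T) F hη0 k6 hF N hN3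
  have n3 : CV * (η + η ^ 2 + (η * Real.log T / Real.log N) ^ 2) ≤ CV * (1 + 1 + (2 / ε) ^ 2) := by
    have h1 : η * Real.log T / Real.log N ≤ 2 / ε := by
      rw [div_le_div_iff₀ hlogN0 hε]
      have h2 : η * Real.log T ≤ Real.log T := mul_le_of_le_one_left (by linarith) hη1
      nlinarith
    have h2 : (η * Real.log T / Real.log N) ^ 2 ≤ (2 / ε) ^ 2 :=
      pow_le_pow_left₀ (by positivity) h1 2
    have h3 : η ^ 2 ≤ 1 := by nlinarith
    apply mul_le_mul_of_nonneg_left _ hCV.le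
    linarith
  obtain ⟨SS, hSS⟩ : ∃ SS, SS = ∑ p ∈ (Finset.Icc 1 N).filter Nat.Prime,
    (Real.log p) ^ 2 / p * ‖FF F (Real.log p)‖ ^ 2 := ⟨_, rfl⟩
  rw [← hSS] at hVN
  have hSap : ∑ p ∈ (Finset.Icc 1 N).filter Nat.Prime, ‖ap F p‖ ^ 2 = 1 / Real.pi ^ 2 * SS := by
    rw [hSS, Finset.mul_sum]
    exact Finset.sum_congr rfl fun p _ => ap_sq F p
  have hpi2 : 1 / Real.pi ^ 2 ≤ 1 := by
    rw [div_le_one (by positivity)]
    nlinarith [Real.pi_gt_three]
  have hSS0 : 0 ≤ SS := by rw [hSS]; exact Finset.sum_nonneg fun p _ => by positivity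
  have hSS1 : SS ≤ S := by
    have h1 := (abs_le.1 (hVN.trans n3)).2
    have h2 := hF.va
    rw [hS]
    linarith
  have hS1 : ∑ p ∈ (Finset.Icc 1 N).filter Nat.Prime, ‖ap F p‖ ^ 2 ≤ S := by
    rw [hSap]
    exact (mul_le_of_le_one_left hSS0 hpi2).trans hSS1
  have hN4 : (N : ℝ) ^ 4 ≤ a * T := by
    have h1 : (N : ℝ) ≤ T ^ ε := by rw [hN]; exact Nat.floor_le (by positivity)
    calc (N : ℝ) ^ 4 ≤ (T ^ ε) ^ 4 := pow_le_pow_left₀ (Nat.cast_nonneg _) h1 4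
      _ = T ^ (ε * 4) := by rw [← Real.rpow_natCast, ← Real.rpow_mul hTp.le]; norm_num
      _ ≤ T ^ (1 / 4 : ℝ) := Real.rpow_le_rpow_of_exponent_le (by linarith) (by linarith)
      _ ≤ a * T := k5
  have hYc := L1GL.YG_cont u F N
  have hY := L1GL.many (fun t => |YG u F N t|) hYc.abs (2 * S + 4) (a * T) (a * T) (by positivity)
    le_rfl (fun W hW => L1GL.one u hG.le1 F N W S (by omega) (k4.trans hW) (hN4.trans hW)
      (hF.l1.trans hη1) hS1) m
  have haT : a * T ≤ b * T := mul_le_mul_of_nonneg_right hab.le hTp.le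
  have hbT : b * T ≤ 2 ^ m * (a * T) := by
    have := mul_le_mul_of_nonneg_right hma hTp.le
    linarith
  have hY2 : ∫ t in (a * T)..(b * T), |YG u F N t| ≤ ∫ t in (a * T)..(2 ^ m * (a * T)), |YG u F N t| := by
    apply intervalIntegral.integral_mono_interval le_rfl haT hbT
    · exact Eventually.of_forall fun t => abs_nonneg _
    · exact hYc.abs.intervalIntegrable _ _
  have i0 : IntervalIntegrable (fun t => |XG G F T t|) volume (a * T) (b * T) := by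
    apply ContinuousOn.intervalIntegrable
    rw [uIcc_of_le haT]
    exact hXc.abs
  have i1 : IntervalIntegrable (fun t => |XG G F T t + YG u F N t|) volume (a * T) (b * T) := by
    apply ContinuousOn.intervalIntegrable
    rw [uIcc_of_le haT]
    exact (hXc.add hYc.continuousOn).abs
  have i2 : IntervalIntegrable (fun t => |YG u F N t|) volume (a * T) (b * T) :=
    hYc.abs.intervalIntegrable _ _
  have hmain : ∫ t in (a * T)..(b * T), |XG G F T t| ≤
      ∫ t in (a * T)..(b * T), (|XG G F T t + YG u F N t| + |YG u F N t|) := by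
    apply intervalIntegral.integral_mono_on haT i0 (i1.add i2)
    intro t _
    have h1 : XG G F T t = (XG G F T t + YG u F N t) - YG u F N t := by ring
    calc |XG G F T t| = |(XG G F T t + YG u F N t) - YG u F N t| := by rw [← h1]
      _ ≤ _ := abs_sub _ _
  rw [intervalIntegral.integral_add i1 i2] at hmain
  have hK : (2 ^ m - 1) * (a * T) * (2 * S + 4) ≤ 2 ^ m * a * (2 * S + 4) * T := by
    have h1 : 0 ≤ a * T * (2 * S + 4) := by positivity
    nlinarith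
  calc _ ≤ _ := hmain
    _ ≤ 1 * T + 2 ^ m * a * (2 * S + 4) * T := add_le_add hA ((hY2.trans hY).trans hK)
    _ = _ := by ring

end Pool.Agent.H203.GE
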