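import Pool.Agent.H203.GE.Defs

set_option autoImplicit false

/-! The part (PRM): mean square of the prime side minus the short prime sum, with coefficients `u n`, `‖u n‖ ≤ 1`
(helper168, after `Pool.Agent.H203.ME.PRM`). -/

open Complex Filter Topology Set MeasureTheory

namespace Pool.Agent.H203.GE

open Pool.Agent.H203.ME

namespace PRML

open Pool.Agent.H203.ME.PRML

/-- the coefficients of the difference -/
noncomputable def bcu (u : ℕ → ℂ) (F : ℝ → ℝ) (R : ℝ) (N : ℕ) (n : ℕ) : ℂ := bc F R N n * u n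

lemma bcu_le {u : ℕ → ℂ} (hu : ∀ n, ‖u n‖ ≤ 1) (F : ℝ → ℝ) (R : ℝ) (N n : ℕ) :
    ‖bcu u F R N n‖ ^ 2 ≤ ‖bc F R N n‖ ^ 2 := by
  unfold bcu
  rw [norm_mul, mul_pow]
  have h1 : ‖u n‖ ^ 2 ≤ 1 := pow_le_one₀ (norm_nonneg _) (hu n)
  have h2 : 0 ≤ ‖bc F R N n‖ ^ 2 := by positivity
  nlinarith

lemma split_main {u : ℕ → ℂ} (hu : ∀ n, ‖u n‖ ≤ 1) {F : ℝ → ℝ} {η V L : ℝ} (hη : 0 ≤ η)
    (h : Adm η V L F) (hL : 64 ≤ L) (X N : ℕ)
    (hX : ∀ n : ℕ, X < n → L / 2 ≤ Real.log n) (hNX : N ≤ X) (t : ℝ) :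
    ∃ w : ℂ, ‖w‖ ≤ 2 * η * Z1 ∧ BG u F (L / 4) t - YG u F N t =
      ((∑ n ∈ Finset.Icc 1 X, bcu u F (L / 4) N n * (n : ℂ) ^ (-(t : ℂ) * I)) + w).re := by
  set f : ℕ → ℂ := fun n => ((ArithmeticFunction.vonMangoldt n / Real.sqrt n * cR (L / 4) (Real.log n) : ℝ) : ℂ) *
      FF F (Real.log n) * (u n * ee n t) with hf
  have hb : ∀ n : ℕ, ‖f (n + (X + 1))‖ ≤ 2 * η * (1 / ((n + 1 : ℕ) : ℝ) ^ 2) := by
    intro n
    have h1 := tail_term hη h hL (n + (X + 1)) (by omega) (hX _ (by omega)) t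
    have h0 : ‖f (n + (X + 1))‖ ≤ ‖((ArithmeticFunction.vonMangoldt (n + (X + 1)) /
        Real.sqrt ((n + (X + 1) : ℕ) : ℝ) * cR (L / 4) (Real.log ((n + (X + 1) : ℕ) : ℝ)) : ℝ) : ℂ) *
        FF F (Real.log ((n + (X + 1) : ℕ) : ℝ)) * ee (n + (X + 1)) t‖ := by
      rw [hf]
      simp only [norm_mul]
      have := hu (n + (X + 1))
      have h3 := norm_nonneg (u (n + (X + 1)))
      have h4 := norm_nonneg (ee (n + (X + 1)) t)
      apply mul_le_mul_of_nonneg_left _ (by positivity)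
      nlinarith
    refine (h0.trans h1).trans ?_
    apply mul_le_mul_of_nonneg_left _ (by positivity)
    apply one_div_le_one_div_of_le (by positivity)
    apply pow_le_pow_left₀ (by positivity)
    push_cast
    have : (0 : ℝ) ≤ X := Nat.cast_nonneg X
    linarith
  have hsg : HasSum (fun n : ℕ => 2 * η * (1 / ((n + 1 : ℕ) : ℝ) ^ 2)) (2 * η * Z1) :=
    Z1_summable.hasSum.mul_left _
  have hsum' : Summable (fun n => f (n + (X + 1))) := Summable.of_norm_bounded hsg.summable hb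
  have hsum : Summable f := (summable_nat_add_iff (X + 1)).1 hsum'
  have htail : ‖∑' n, f (n + (X + 1))‖ ≤ 2 * η * Z1 := tsum_of_norm_bounded hsg hb
  have hsplit := hsum.sum_add_tsum_nat_add (X + 1)
  have hfin : ∑ n ∈ Finset.range (X + 1), f n = ∑ n ∈ Finset.Icc 1 X, f n := by
    symm
    apply Finset.sum_subset
    · intro n hn
      rw [Finset.mem_Icc] at hn
      rw [Finset.mem_range]; omega
    · intro n hn hn'
      rw [Finset.mem_range] at hn
      rw [Finset.mem_Icc] at hn'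
      have : n = 0 := by omega
      subst this
      simp [hf]
  set c : ℝ := 2 / Real.sqrt (2 * Real.pi) with hc
  refine ⟨(c : ℂ) * ∑' n, f (n + (X + 1)), ?_, ?_⟩
  · rw [norm_mul, Complex.norm_real, Real.norm_eq_abs, abs_of_nonneg (by positivity)]
    have h1 := two_div_le_one
    rw [← hc] at h1
    have h2 := norm_nonneg (∑' n, f (n + (X + 1)))
    nlinarith
  · have hBB : BG u F (L / 4) t = ((c : ℂ) * ∑' n, f n).re := by
      unfold BG
      rw [Complex.re_ofReal_mul]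
    have hY : YG u F N t = (∑ n ∈ Finset.Icc 1 X,
        (((if n.Prime ∧ n ≤ N then 1 / Real.pi * (Real.log n / Real.sqrt n) else 0 : ℝ) : ℂ) *
          FF F (Real.log n) * (u n * ee n t))).re := by
      unfold YG
      congr 1
      rw [Finset.sum_filter]
      rw [← Finset.sum_subset (Finset.Icc_subset_Icc le_rfl hNX)]
      · refine Finset.sum_congr rfl fun n hn => ?_
        have hnN := (Finset.mem_Icc.1 hn).2
        by_cases hp : n.Prime
        · rw [if_pos hp, if_pos ⟨hp, hnN⟩]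
        · rw [if_neg hp, if_neg (fun hh => hp hh.1)]; simp
      · intro n hn hn'
        rw [Finset.mem_Icc] at hn hn'
        rw [if_neg (fun hh => hn' ⟨hn.1, hh.2⟩)]; simp
    rw [hBB, hY, ← Complex.sub_re, ← hsplit, hfin, mul_add]
    congr 1
    rw [Finset.mul_sum, add_sub_right_comm, ← Finset.sum_sub_distrib]
    congr 1
    refine Finset.sum_congr rfl fun n hn => ?_
    have hn1 := (Finset.mem_Icc.1 hn).1
    rw [← ee_eq n hn1 t, hf]
    unfold bcu bc kap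
    rw [← hc]
    push_cast
    ring

lemma sum_bc (hV : S_VAR) : ∃ K : ℝ, 0 < K ∧ ∀ (ε η V L : ℝ) (F : ℝ → ℝ), 0 < ε → ε ≤ 1 →
    0 < η → η ≤ 1 → 0 ≤ V → Adm η V L F → 64 ≤ L → 4 / ε ≤ L → ∀ N X : ℕ, 3 ≤ N → N ≤ X →
    Real.log N ≤ ε * L → ε * L / 2 ≤ Real.log N →
    ∑ n ∈ Finset.Icc 1 X, ‖bc F (L / 4) N n‖ ^ 2 ≤ K * (η ^ 2 / ε ^ 2 + ε ^ 4 * (V + 1)) := by
  obtain ⟨C1, hC1, h1⟩ := sum_prime_powers
  obtain ⟨C2, hC2, h2⟩ := sum_gauss_primes
  obtain ⟨Cv, hCv, h3⟩ := hV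
  refine ⟨C1 + 32 * C2 + 52428800 * (1 + 6 * Cv) + 32, by positivity, ?_⟩
  intro ε η V L F hε hε4 hη hη1 hV0 hF hL hεL N X hN hNX hlogN hlogN'
  have hL0 : 0 < L := by linarith
  have hlN0 : 0 < Real.log N := lt_of_lt_of_le (by positivity) hlogN'
  set q := η ^ 2 / ε ^ 2 with hq
  have hq0 : 0 ≤ q := by positivity
  have hηq : η ^ 2 ≤ q := by
    rw [hq, le_div_iff₀ (by positivity)]
    have : ε ^ 2 ≤ 1 := by nlinarith
    nlinarith [sq_nonneg η]
  have hratio : (η * L / Real.log N) ^ 2 ≤ 4 * q := by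
    have e1 : η * L / Real.log N ≤ 2 * η / ε := by
      rw [div_le_div_iff₀ hlN0 hε]
      nlinarith
    have e2 : 0 ≤ η * L / Real.log N := by positivity
    calc (η * L / Real.log N) ^ 2 ≤ (2 * η / ε) ^ 2 := pow_le_pow_left₀ e2 e1 2
      _ = 4 * q := by rw [hq]; ring
  have hsum : ∑ n ∈ Finset.Icc 1 X, ‖bc F (L / 4) N n‖ ^ 2 ≤
      ∑ n ∈ Finset.Icc 1 X, (η ^ 2 * (if ¬ n.Prime then (ArithmeticFunction.vonMangoldt n) ^ 2 / n else 0) +
      (if n.Prime ∧ n ≤ N then (Real.log n) ^ 2 / n * ‖FF F (Real.log n)‖ ^ 2 *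
        (kap (L / 4) (Real.log n) - 1 / Real.pi) ^ 2 else 0) +
      (if N < n then (η * L) ^ 2 * (ArithmeticFunction.vonMangoldt n / n * (1 / (Real.log n) ^ 3)) else 0)) :=
    Finset.sum_le_sum fun n hn => bc_bound hη.le hF hL N hN n (Finset.mem_Icc.1 hn).1
  rw [Finset.sum_add_distrib, Finset.sum_add_distrib, ← Finset.mul_sum, ← Finset.sum_filter,
    ← Finset.sum_filter, ← Finset.sum_filter] at hsum
  -- third sum
  have hI3 : (Finset.Icc 1 X).filter (fun n => N < n) = Finset.Ioc N X := by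
    ext n; rw [Finset.mem_filter, Finset.mem_Icc, Finset.mem_Ioc]; omega
  have hS3 : ∑ n ∈ (Finset.Icc 1 X).filter (fun n => N < n),
      (η * L) ^ 2 * (ArithmeticFunction.vonMangoldt n / n * (1 / (Real.log n) ^ 3)) ≤ 32 * q := by
    rw [hI3, ← Finset.mul_sum]
    have := sum_cubes' N hN X hNX
    calc (η * L) ^ 2 * ∑ n ∈ Finset.Ioc N X, ArithmeticFunction.vonMangoldt n / n * (1 / (Real.log n) ^ 3)
        ≤ (η * L) ^ 2 * (8 / (Real.log N) ^ 2) := mul_le_mul_of_nonneg_left this (by positivity)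
      _ = 8 * (η * L / Real.log N) ^ 2 := by ring
      _ ≤ 32 * q := by linarith
  -- first sum
  have hS1 := h1 X
  have hS1' : η ^ 2 * ∑ n ∈ (Finset.Icc 1 X).filter (fun n => ¬ n.Prime),
      (ArithmeticFunction.vonMangoldt n) ^ 2 / n ≤ q * C1 := by
    apply mul_le_mul hηq hS1 _ hq0
    exact Finset.sum_nonneg fun n _ => by positivity
  -- second sum
  have hI2 : (Finset.Icc 1 X).filter (fun n => n.Prime ∧ n ≤ N) = (Finset.Icc 1 N).filter Nat.Prime := by
    ext n; rw [Finset.mem_filter, Finset.mem_filter, Finset.mem_Icc, Finset.mem_Icc]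
    constructor
    · rintro ⟨⟨a, b⟩, c, d⟩; exact ⟨⟨a, d⟩, c⟩
    · rintro ⟨⟨a, b⟩, c⟩; exact ⟨⟨a, by omega⟩, c, b⟩
  have hvar := h3 η V L F hη (by linarith) hF N hN
  have hvar' : ∑ p ∈ (Finset.Icc 1 N).filter Nat.Prime, (Real.log p) ^ 2 / p * ‖FF F (Real.log p)‖ ^ 2 ≤
      V + Cv * (2 + 4 * q) := by
    have e1 := le_of_abs_le hvar
    have e2 := hF.va
    have e3 : Cv * (η + η ^ 2 + (η * L / Real.log N) ^ 2) ≤ Cv * (2 + 4 * q) := by
      apply mul_le_mul_of_nonneg_left _ hCv.le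
      nlinarith
    linarith
  have hS2 : ∑ n ∈ (Finset.Icc 1 X).filter (fun n => n.Prime ∧ n ≤ N),
      (Real.log n) ^ 2 / n * ‖FF F (Real.log n)‖ ^ 2 * (kap (L / 4) (Real.log n) - 1 / Real.pi) ^ 2 ≤
      32 * C2 * q + 52428800 * ε ^ 4 * (V + Cv * (2 + 4 * q)) := by
    rw [hI2]
    have e1 : ∑ n ∈ (Finset.Icc 1 N).filter Nat.Prime,
        (Real.log n) ^ 2 / n * ‖FF F (Real.log n)‖ ^ 2 * (kap (L / 4) (Real.log n) - 1 / Real.pi) ^ 2 ≤
        ∑ n ∈ (Finset.Icc 1 N).filter Nat.Prime, (32 * η ^ 2 * ((Real.log n) ^ 2 / n * Real.exp (-(Real.log n) ^ 2)) +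
          52428800 * ε ^ 4 * ((Real.log n) ^ 2 / n * ‖FF F (Real.log n)‖ ^ 2)) := by
      refine Finset.sum_le_sum fun n hn => ?_
      rw [Finset.mem_filter, Finset.mem_Icc] at hn
      have hn0 : (0 : ℝ) < n := by exact_mod_cast hn.1.1
      have hl0 : 0 ≤ Real.log n := Real.log_natCast_nonneg n
      have hlN : Real.log n ≤ Real.log N := Real.log_le_log hn0 (by exact_mod_cast hn.1.2)
      have hk := kap_close_small hε hL hεL hl0 (hlN.trans hlogN)
      have hF2 : ‖FF F (Real.log n)‖ ^ 2 ≤ η ^ 2 := pow_le_pow_left₀ (norm_nonneg _) (FF_l1 hF _) 2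
      have hA : 0 ≤ (Real.log n) ^ 2 / n := by positivity
      have hE := Real.exp_pos (-(Real.log n) ^ 2)
      calc (Real.log n) ^ 2 / n * ‖FF F (Real.log n)‖ ^ 2 * (kap (L / 4) (Real.log n) - 1 / Real.pi) ^ 2
          ≤ (Real.log n) ^ 2 / n * ‖FF F (Real.log n)‖ ^ 2 *
            (32 * Real.exp (-(Real.log n) ^ 2) + 52428800 * ε ^ 4) :=
              mul_le_mul_of_nonneg_left hk (by positivity)
        _ = 32 * ‖FF F (Real.log n)‖ ^ 2 * ((Real.log n) ^ 2 / n * Real.exp (-(Real.log n) ^ 2)) +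
            52428800 * ε ^ 4 * ((Real.log n) ^ 2 / n * ‖FF F (Real.log n)‖ ^ 2) := by ring
        _ ≤ _ := by
            have : 32 * ‖FF F (Real.log n)‖ ^ 2 * ((Real.log n) ^ 2 / n * Real.exp (-(Real.log n) ^ 2)) ≤
              32 * η ^ 2 * ((Real.log n) ^ 2 / n * Real.exp (-(Real.log n) ^ 2)) := by
                apply mul_le_mul_of_nonneg_right _ (by positivity)
                linarith
            linarith
    rw [Finset.sum_add_distrib, ← Finset.mul_sum, ← Finset.mul_sum] at e1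
    have e2 : ∑ n ∈ (Finset.Icc 1 N).filter Nat.Prime, ((Real.log n) ^ 2 / n * Real.exp (-(Real.log n) ^ 2)) ≤ C2 := by
      refine le_trans (Finset.sum_le_sum_of_subset_of_nonneg (Finset.filter_subset _ _) ?_) (h2 N)
      intro n _ _; positivity
    have e3 : 32 * η ^ 2 * ∑ n ∈ (Finset.Icc 1 N).filter Nat.Prime,
        ((Real.log n) ^ 2 / n * Real.exp (-(Real.log n) ^ 2)) ≤ 32 * q * C2 := by
      apply mul_le_mul (by linarith) e2 (Finset.sum_nonneg fun n _ => by positivity) (by positivity)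
    have e4 := mul_le_mul_of_nonneg_left hvar' (by positivity : 0 ≤ 52428800 * ε ^ 4)
    linarith
  have hε41 : ε ^ 4 ≤ 1 := pow_le_one₀ hε.le (by linarith)
  have hε40 : 0 ≤ ε ^ 4 := by positivity
  have hfin : ε ^ 4 * (Cv * (2 + 4 * q)) ≤ 2 * Cv * ε ^ 4 + 4 * Cv * q := by
    have : ε ^ 4 * q ≤ q := by nlinarith
    nlinarith
  have hVV : 0 ≤ ε ^ 4 * (V + 1) := by positivity
  have htot := hsum.trans (add_le_add (add_le_add hS1' hS2) hS3)
  have g1 : 0 ≤ C1 * (ε ^ 4 * (V + 1)) := by positivity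
  have g2 : 0 ≤ C2 * (ε ^ 4 * (V + 1)) := by positivity
  have g3 : 0 ≤ Cv * (ε ^ 4 * V) := by positivity
  have g4 : 0 ≤ Cv * q := by positivity
  have g5 : 0 ≤ Cv * ε ^ 4 := by positivity
  nlinarith

end PRML

open PRML in
theorem t_PRM : S_PRM := by
  obtain ⟨K, hK, hbc⟩ := PRML.sum_bc Pool.Agent.H203.ME.t_VAR
  have hZ1 : 0 ≤ ME.PRML.Z1 := ME.PRML.Z1_nonneg
  refine ⟨64 * K + 8 * ME.PRML.Z1 ^ 2, by positivity, ?_⟩
  intro ε hε hε4
  set M := max 64 (16 / ε) with hM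
  refine ⟨Real.exp M, ?_, ?_⟩
  · have h1 : (64 : ℝ) ≤ M := le_max_left _ _
    have h2 := Real.add_one_le_exp M
    linarith
  intro T hT u hu N hNlo hNup η V F hη hη1 hV0 hF
  have hT0 : 0 < T := (Real.exp_pos M).trans_le hT
  set L := Real.log T with hLdef
  have hML : M ≤ L := (Real.le_log_iff_exp_le hT0).2 hT
  have hL : 64 ≤ L := (le_max_left _ _).trans hML
  have hεL : 16 / ε ≤ L := (le_max_right _ _).trans hML
  have hεL' : 16 ≤ ε * L := by
    rw [div_le_iff₀ hε] at hεL; linarith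
  have hL0 : 0 < L := by linarith
  have hT1 : 1 < T := by
    have := Real.add_one_le_exp M
    have h1 : (64 : ℝ) ≤ M := le_max_left _ _
    linarith
  set X := ⌊T ^ (1 / 2 : ℝ)⌋₊ with hX
  have hpos : ∀ s : ℝ, 0 < T ^ s := fun s => Real.rpow_pos_of_pos hT0 s
  have hT12 : T ^ (1 / 2 : ℝ) = Real.exp (L / 2) := by
    rw [Real.rpow_def_of_pos hT0]; congr 1; ring
  -- N
  have hlogN4 : 4 ≤ Real.log N := by linarith
  have hN1 : N ≠ 0 := by
    rintro rfl
    simp at hlogN4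
    linarith
  have hN0 : (0 : ℝ) < N := by
    have : 0 < N := Nat.pos_of_ne_zero hN1
    exact_mod_cast this
  have hN3 : 3 ≤ N := by
    have h1 : Real.exp 4 ≤ N := (Real.le_log_iff_exp_le hN0).1 hlogN4
    have h2 := Real.add_one_le_exp (4 : ℝ)
    have : (3 : ℝ) ≤ N := by linarith
    exact_mod_cast this
  have hNL2 : Real.log N ≤ L / 2 := by nlinarith
  have hNX : N ≤ X := by
    apply Nat.le_floor
    rw [hT12]
    exact (Real.log_le_iff_le_exp hN0).1 hNL2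
  have hXn : ∀ n : ℕ, X < n → L / 2 ≤ Real.log n := by
    intro n hn
    have h1 : T ^ (1 / 2 : ℝ) < n := (Nat.floor_lt (hpos _).le).1 hn
    have hn0 : (0 : ℝ) < n := (hpos _).trans h1
    rw [Real.le_log_iff_exp_le hn0, ← hT12]
    exact h1.le
  -- the exponent of `N`
  set e := Real.log N / L with he
  have he0 : 0 < e := by positivity
  have heL : e * L = Real.log N := by
    rw [he]; field_simp
  have he1 : e ≤ 1 := by
    rw [he, div_le_one hL0]; linarith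
  have heε : ε / 4 ≤ e := by
    rw [he, le_div_iff₀ hL0]; linarith
  have heε2 : e ≤ 2 * ε := by
    rw [he, div_le_iff₀ hL0]; linarith
  have heL4 : 4 / e ≤ L := by
    rw [div_le_iff₀ he0]; linarith
  have hsumbc0 := hbc e η V L F he0 he1 hη hη1 hV0 hF hL heL4 N X hN3 hNX heL.ge
    (by rw [heL]; linarith)
  have hE : η ^ 2 / e ^ 2 + e ^ 4 * (V + 1) ≤ 16 * (η ^ 2 / ε ^ 2 + ε ^ 4 * (V + 1)) := by
    have h1 : η ^ 2 / e ^ 2 ≤ η ^ 2 / (ε / 4) ^ 2 := by
      apply div_le_div_of_nonneg_left (by positivity) (by positivity)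
      exact pow_le_pow_left₀ (by positivity) heε 2
    have h2 : η ^ 2 / (ε / 4) ^ 2 = 16 * (η ^ 2 / ε ^ 2) := by
      field_simp
      norm_num
    have h3 : e ^ 4 ≤ (2 * ε) ^ 4 := pow_le_pow_left₀ he0.le heε2 4
    have h4 : e ^ 4 * (V + 1) ≤ (2 * ε) ^ 4 * (V + 1) := mul_le_mul_of_nonneg_right h3 (by linarith)
    have h5 : (2 * ε) ^ 4 * (V + 1) = 16 * (ε ^ 4 * (V + 1)) := by ring
    linarith
  have hsumbc : ∑ n ∈ Finset.Icc 1 X, ‖PRML.bcu u F (L / 4) N n‖ ^ 2 ≤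
      16 * K * (η ^ 2 / ε ^ 2 + ε ^ 4 * (V + 1)) := by
    refine (Finset.sum_le_sum fun n _ => PRML.bcu_le hu F (L / 4) N n).trans (hsumbc0.trans ?_)
    have := mul_le_mul_of_nonneg_left hE hK.le
    linarith
  -- pointwise bound
  set D : ℝ → ℂ := fun t => ∑ n ∈ Finset.Icc 1 X, PRML.bcu u F (L / 4) N n * (n : ℂ) ^ (-(t : ℂ) * I) with hD
  have hpt : ∀ t : ℝ, (BG u F (L / 4) t - YG u F N t) ^ 2 ≤ 2 * ‖D t‖ ^ 2 + 2 * (2 * η * ME.PRML.Z1) ^ 2 := by
    intro t
    obtain ⟨w, hw, he⟩ := PRML.split_main hu hη.le hF hL X N hXn hNX t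
    rw [he]
    have h1 : |(D t + w).re| ≤ ‖D t‖ + 2 * η * ME.PRML.Z1 :=
      (Complex.abs_re_le_norm _).trans ((norm_add_le _ _).trans (by linarith))
    have h2 : ((D t + w).re) ^ 2 ≤ (‖D t‖ + 2 * η * ME.PRML.Z1) ^ 2 := by
      rw [← sq_abs]
      exact pow_le_pow_left₀ (abs_nonneg _) h1 2
    calc ((D t + w).re) ^ 2 ≤ (‖D t‖ + 2 * η * ME.PRML.Z1) ^ 2 := h2
      _ ≤ _ := by nlinarith [sq_nonneg (‖D t‖ - 2 * η * ME.PRML.Z1)]
  have hDcont : Continuous D := by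
    rw [hD]
    apply continuous_finsetSum
    intro n hn
    have hn1 := (Finset.mem_Icc.1 hn).1
    have : (fun t : ℝ => (n : ℂ) ^ (-(t : ℂ) * I)) = fun t => ee n t := by
      ext t; rw [ME.PRML.ee_eq n hn1]
    apply Continuous.mul continuous_const
    rw [this]
    unfold ee
    fun_prop
  have hmv := H370.mean_value (PRML.bcu u F (L / 4) N) X T (2 * T) (by linarith)
  have hXle : (X : ℝ) ≤ Real.exp (L / 2) := by
    rw [← hT12]
    exact Nat.floor_le (hpos _).le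
  have hX0 : (0 : ℝ) < X := by
    have : (N : ℝ) ≤ X := by exact_mod_cast hNX
    linarith
  have hlogX : Real.log X ≤ L / 2 := by
    rw [Real.log_le_iff_le_exp hX0]
    exact hXle
  have hlogX0 : 0 ≤ Real.log X := Real.log_natCast_nonneg X
  have hlen : 8 * (X : ℝ) * (1 + Real.log X) ≤ T := by
    have hTexp : T = Real.exp (L / 2) * Real.exp (L / 2) := by
      rw [← Real.exp_add, add_halves, hLdef, Real.exp_log hT0]
    have h1 : 8 * (1 + L / 2) ≤ Real.exp (L / 2) := by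
      have := Real.quadratic_le_exp_of_nonneg (by linarith : 0 ≤ L / 2)
      nlinarith
    calc 8 * (X : ℝ) * (1 + Real.log X) = X * (8 * (1 + Real.log X)) := by ring
      _ ≤ Real.exp (L / 2) * (8 * (1 + L / 2)) := by
          apply mul_le_mul hXle _ (by positivity) (Real.exp_pos _).le
          linarith
      _ ≤ Real.exp (L / 2) * Real.exp (L / 2) := mul_le_mul_of_nonneg_left h1 (Real.exp_pos _).le
      _ = T := hTexp.symm
  have hint : ∫ t in T..(2 * T), ‖D t‖ ^ 2 ≤ (2 * T) * (16 * K * (η ^ 2 / ε ^ 2 + ε ^ 4 * (V + 1))) := by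
    refine hmv.trans ?_
    apply mul_le_mul _ hsumbc (Finset.sum_nonneg fun n _ => by positivity) (by positivity)
    linarith
  have hRHS : 0 ≤ (64 * K + 8 * ME.PRML.Z1 ^ 2) * T * (η ^ 2 / ε ^ 2 + ε ^ 4 * (V + 1)) := by positivity
  by_cases hii : IntervalIntegrable (fun t => (BG u F (L / 4) t - YG u F N t) ^ 2) volume T (2 * T)
  · have h1 : ∫ t in T..(2 * T), (BG u F (L / 4) t - YG u F N t) ^ 2 ≤
        ∫ t in T..(2 * T), (2 * ‖D t‖ ^ 2 + 2 * (2 * η * ME.PRML.Z1) ^ 2) := by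
      apply intervalIntegral.integral_mono_on (by linarith) hii
      · apply Continuous.intervalIntegrable
        fun_prop
      · intro t _; exact hpt t
    rw [intervalIntegral.integral_add (by apply Continuous.intervalIntegrable; fun_prop) (by simp),
      intervalIntegral.integral_const_mul, intervalIntegral.integral_const] at h1
    have hηq : η ^ 2 ≤ η ^ 2 / ε ^ 2 := by
      rw [le_div_iff₀ (by positivity)]
      have : ε ^ 2 ≤ 1 := by nlinarith
      nlinarith [sq_nonneg η]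
    have h2 : η ^ 2 ≤ η ^ 2 / ε ^ 2 + ε ^ 4 * (V + 1) := by
      have : 0 ≤ ε ^ 4 * (V + 1) := by positivity
      linarith
    have h3 : (8 * ME.PRML.Z1 ^ 2 * T) * η ^ 2 ≤ (8 * ME.PRML.Z1 ^ 2 * T) * (η ^ 2 / ε ^ 2 + ε ^ 4 * (V + 1)) :=
      mul_le_mul_of_nonneg_left h2 (by positivity)
    have h4 : (2 * T - T) • (2 * (2 * η * ME.PRML.Z1) ^ 2) = (8 * ME.PRML.Z1 ^ 2 * T) * η ^ 2 := by
      rw [smul_eq_mul]; ring
    rw [h4] at h1
    linarith
  · rw [intervalIntegral.integral_undef hii]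
    exact hRHS

end Pool.Agent.H203.GE
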