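import Pool.Agent.H203.GE.ENB

set_option autoImplicit false

/-! The characteristic function for independent uniform parameters. -/

open Complex Filter Topology Set MeasureTheory

namespace Pool.Agent.H203.GE

open Pool.Agent.H203.ME

namespace ENGL

variable {k n D : ℕ}

lemma adm_ev' (d : Dt k n D) (ok : Ok d) (j : Fin k) : ∃ V : ℝ, 0 < V ∧ ∀ η : ℝ, 0 < η →
    ∀ᶠ T in atTop, Adm η V (d.E j * Real.log T) (d.F j T) := by
  obtain ⟨V, hV, hA⟩ := t_ADM 1 (fun _ => d.f j) (fun _ => ok.cd j) (fun _ => ok.cs j)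
  refine ⟨V, hV, fun η hη => ?_⟩
  obtain ⟨K, hK, hA⟩ := hA η hη
  have h1 : Tendsto (fun T => d.E j * (d.h j T * Real.log T)) atTop atTop := (ok.sc.infty j).const_mul_atTop (ok.Epos j)
  have h2 : Tendsto (fun T => d.E j * Real.log T) atTop atTop := Real.tendsto_log_atTop.const_mul_atTop (ok.Epos j)
  filter_upwards [FINL.pos ok.sc, (ok.sc.zero j).eventually (gt_mem_nhds (show (0 : ℝ) < 1 / K by positivity)),
    h1.eventually (eventually_ge_atTop K), h2.eventually (eventually_ge_atTop 1)] with T a1 a2 a3 a4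
  have h3 := hA (d.E j * Real.log T) (fun _ => d.h j T) (fun _ => 1) a4 (fun _ => ⟨a1 j, a2.le, by
    calc K ≤ d.E j * (d.h j T * Real.log T) := a3
      _ = d.h j T * (d.E j * Real.log T) := by ring⟩) (fun _ => by simp)
  have e : (fun x => ∑ j' : Fin 1, (1 : ℝ) * d.f j (x / d.h j T)) = d.F j T := by
    funext x
    unfold Dt.F
    simp
  rw [e] at h3
  exact h3

lemma int_F (d : Dt k n D) (j : Fin k) {T : ℝ} (hT : 0 < d.h j T) :
    ∫ x, |d.F j T x| = d.h j T * ∫ x, |d.f j x| := by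
  unfold Dt.F
  have h1 := Measure.integral_comp_div (fun y : ℝ => |d.f j y|) (d.h j T)
  rw [abs_of_pos hT, smul_eq_mul] at h1
  exact h1

/-- the coefficients -/
noncomputable def _root_.Pool.Agent.H203.GE.Dt.b (d : Dt k n D) (v : Fin k → ℝ) (T : ℝ) (j : Fin k) : ℕ → ℂ := bb (d.F j T) (d.u j) (d.τ j) (v j)

lemma b_small (d : Dt k n D) (ok : Ok d) (v : Fin k → ℝ) {η : ℝ} (hη : 0 < η) :
    ∀ᶠ T in atTop, ∀ j p, ‖d.b v T j p‖ ≤ η := by
  have h1 : ∀ j, ∀ᶠ T in atTop, |v j| * (d.h j T * ∫ x, |d.f j x|) < η := by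
    intro j
    have h2 : Tendsto (fun T => |v j| * (d.h j T * ∫ x, |d.f j x|)) atTop (𝓝 0) := by
      have := ((ok.sc.zero j).mul_const (∫ x, |d.f j x|)).const_mul |v j|
      simpa using this
    exact h2.eventually (gt_mem_nhds hη)
  filter_upwards [FINL.pos ok.sc, eventually_all.2 h1] with T a1 a2 j p
  refine (bb_le (u_le d j) (d.τ j) (v j) p).trans ?_
  rw [int_F d j (a1 j)]
  exact (a2 j).le

lemma S_ev (d : Dt k n D) (ok : Ok d) (v : Fin k → ℝ) : ∃ S0 : ℝ, 0 < S0 ∧ ∀ κ : ℝ, 0 < κ →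
    ∀ᶠ T in atTop, ∀ j, ∑ p ∈ (Finset.Icc 1 ⌊T ^ κ⌋₊).filter Nat.Prime, ‖d.b v T j p‖ ^ 2 ≤ S0 := by
  classical
  refine ⟨1 + ∑ j, |2 * (v j * v j * cv (d.f j) (d.f j))|,
    add_pos_of_pos_of_nonneg one_pos (Finset.sum_nonneg fun _ _ => abs_nonneg _), fun κ hκ => ?_⟩
  rw [eventually_all]
  intro j
  have h1 := KV_lim ok j j hκ
  rw [if_pos ⟨fun _ => rfl, rfl, rfl⟩] at h1
  have h2 := (h1.const_mul (v j * v j)).const_mul 2
  have h3 : 2 * (v j * v j * cv (d.f j) (d.f j)) < 1 + ∑ j, |2 * (v j * v j * cv (d.f j) (d.f j))| := by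
    have h4 : |2 * (v j * v j * cv (d.f j) (d.f j))| ≤ ∑ j, |2 * (v j * v j * cv (d.f j) (d.f j))| :=
      Finset.single_le_sum (f := fun j => |2 * (v j * v j * cv (d.f j) (d.f j))|) (fun _ _ => abs_nonneg _)
        (Finset.mem_univ j)
    linarith [le_abs_self (2 * (v j * v j * cv (d.f j) (d.f j)))]
  filter_upwards [h2.eventually (gt_mem_nhds h3), FINL.pos ok.sc] with T a1 a2
  have h5 := bb_cov (d.f j) (d.f j) (a2 j) (a2 j) (d.u j) (d.u j) (d.τ j) (d.τ j) (v j) (v j) ⌊T ^ κ⌋₊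
  rw [← h5] at a1
  refine le_of_eq_of_le ?_ a1.le
  refine Finset.sum_congr rfl fun p _ => ?_
  rw [Complex.mul_conj, Complex.ofReal_re, Complex.normSq_eq_norm_sq]
  rfl

open Classical in
lemma Q_lim (d : Dt k n D) (ok : Ok d) (v : Fin k → ℝ) {B : ℕ} (hB : 0 < B) {A' : Fin k → Fin n × Fin D → ℤ}
    (hA : ∀ j c, (A' j c : ℝ) = B * (d.A j c.1 c.2 : ℝ)) {κ : ℝ} (hκ : 0 < κ) :
    Tendsto (fun T => (1 / 4 : ℝ) * ∑ i, ∑ j, (if A' i = A' j then
      ∑ p ∈ (Finset.Icc 1 ⌊T ^ κ⌋₊).filter Nat.Prime, (d.b v T i p * (starRingEnd ℂ) (d.b v T j p)).re else 0)) atTop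
      (𝓝 ((∑ i, ∑ j, v i * v j * d.cM i j) / 2)) := by
  have e1 : (∑ i, ∑ j, v i * v j * d.cM i j) / 2 = (1 / 4 : ℝ) * ∑ i, ∑ j, (if A' i = A' j then
      2 * (v i * v j * (if (∀ m : ℕ, d.χ i m = d.χ j m) ∧ d.τ i = d.τ j ∧ d.h i = d.h j then cv (d.f i) (d.f j) else 0))
      else 0) := by
    rw [Finset.mul_sum, Finset.sum_div]
    refine Finset.sum_congr rfl fun i _ => ?_
    rw [Finset.mul_sum, Finset.sum_div]
    refine Finset.sum_congr rfl fun j _ => ?_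
    unfold Dt.cM
    simp only [Matrix.of_apply]
    by_cases h1 : A' i = A' j
    · have h2 := (A_iff hB hA i j).1 h1
      by_cases h3 : (∀ m : ℕ, d.χ i m = d.χ j m) ∧ d.τ i = d.τ j ∧ d.h i = d.h j
      · rw [if_pos ⟨h2, h3⟩, if_pos h1, if_pos h3]; ring
      · rw [if_neg (fun h => h3 h.2), if_pos h1, if_neg h3]; ring
    · have h2 : ¬ d.A i = d.A j := fun h => h1 ((A_iff hB hA i j).2 h)
      rw [if_neg (fun h => h2 h.1), if_neg h1]; ring
  rw [e1]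
  refine Tendsto.const_mul _ (tendsto_finsetSum _ fun i _ => tendsto_finsetSum _ fun j _ => ?_)
  by_cases h1 : A' i = A' j
  · simp only [if_pos h1]
    refine (((KV_lim ok i j hκ).const_mul (v i * v j)).const_mul 2).congr' ?_
    filter_upwards [FINL.pos ok.sc] with T a2
    exact (bb_cov (d.f i) (d.f j) (a2 i) (a2 j) (d.u i) (d.u j) (d.τ i) (d.τ j) (v i) (v j) ⌊T ^ κ⌋₊).symm
  · simp only [if_neg h1]
    exact tendsto_const_nhds

lemma ee_cont (p : ℕ) : Continuous (ee p) := by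
  unfold ee
  fun_prop

lemma YG_cont (u : ℕ → ℂ) (F : ℝ → ℝ) (N : ℕ) : Continuous (YG u F N) := by
  unfold YG ee
  fun_prop

lemma HH_cont {e : Fin D → ℝ} (he : ∀ i, 0 < e i) (A : Fin n → Fin D → ℚ) (τ : ℝ) : Continuous (HH e A τ) := by
  unfold HH
  refine Continuous.add ?_ continuous_const
  refine continuous_finsetSum _ fun i _ => continuous_finsetSum _ fun j _ => ?_
  exact continuous_const.mul ((Real.continuous_rpow_const (he j).le).comp (continuous_apply i))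

/-- two real phases -/
lemma phase_cmp {Ω : Type} [MeasurableSpace Ω] (μ : Measure Ω) {a b g : Ω → ℝ}
    (ha : AEStronglyMeasurable a μ) (hb : AEStronglyMeasurable b μ) [IsProbabilityMeasure μ] (hg : Integrable g μ)
    (h : ∀ ω, |a ω - b ω| ≤ g ω) :
    ‖(∫ ω, cexp (I * (a ω : ℂ)) ∂μ) - ∫ ω, cexp (I * (b ω : ℂ)) ∂μ‖ ≤ ∫ ω, g ω ∂μ := by
  have hi : ∀ {a : Ω → ℝ}, AEStronglyMeasurable a μ → Integrable (fun ω => cexp (I * (a ω : ℂ))) μ := by
    intro a ha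
    refine Integrable.of_bound (C := 1) ?_ (Eventually.of_forall fun ω => ?_)
    · exact (by fun_prop : Continuous fun x : ℝ => cexp (I * (x : ℂ))).comp_aestronglyMeasurable ha
    · rw [mul_comm, Complex.norm_exp_ofReal_mul_I]
  rw [← integral_sub (hi ha) (hi hb)]
  refine (norm_integral_le_integral_norm _).trans ?_
  refine integral_mono_of_nonneg (Eventually.of_forall fun _ => norm_nonneg _) hg (Eventually.of_forall fun ω => ?_)
  exact (exp_diff _ _).trans (h ω)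

end ENGL

open ENGL

/-- the characteristic function for independent uniform parameters -/
theorem eng1 (hCLA : S_CLA) (hMOV : S_MOV) (hAPN : S_APN) {k n D : ℕ} (d : Dt k n D) (ok : Ok d) (v : Fin k → ℝ) :
    Tendsto (fun T => ∫ t, cexp (I * ((∑ j, v j * d.X T j t : ℝ) : ℂ)) ∂(Measure.pi (fun _ : Fin n => mT T))) atTop
      (𝓝 (cexp (-((∑ i, ∑ j, v i * v j * d.cM i j : ℝ) : ℂ) / 2))) := by
  classical
  obtain ⟨B, A', hB, hA'⟩ := den d.A
  have hAne := A_ne ok hB hA'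
  obtain ⟨S0, hS0, hS⟩ := S_ev d ok v
  obtain ⟨a, b, TH, ha, hab, hTH, hH⟩ := ok.ht
  rw [Metric.tendsto_nhds]
  intro ε hε
  obtain ⟨ηc, M, Bd, hηc, hcla⟩ := hCLA k (Fin n × Fin D) A' hAne S0 (ε / 4) hS0 (by positivity)
  obtain ⟨κ, σ, TM, hκ, hσ, hTM, hmov⟩ := hMOV n D d.e ok.epos ok.emono (1 / B) (by positivity) M Bd
  choose V hV hadm using adm_ev' d ok
  obtain ⟨δ, hδ, hδv⟩ : ∃ δ : ℝ, 0 < δ ∧ ∑ j, |v j| * δ ≤ ε / 4 := by
    refine ⟨ε / 4 / (1 + ∑ j, |v j|), by positivity, ?_⟩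
    rw [← Finset.sum_mul]
    have h1 : 0 ≤ ∑ j, |v j| := Finset.sum_nonneg fun _ _ => abs_nonneg _
    rw [mul_div_assoc', div_le_iff₀ (by positivity)]
    nlinarith
  choose ε0 hε0 hapn using fun j => hAPN (d.G j) (d.u j) (lf d ok j) n (d.E j) a b (V j) δ (ok.Epos j) ha hab (hV j) hδ
  -- the exponent of the length
  obtain ⟨κ', hκ', hκ1, hκ2, hκ3⟩ : ∃ κ' : ℝ, 0 < κ' ∧ κ' ≤ κ ∧ κ' * M ≤ σ / 2 ∧ ∀ j, κ' ≤ ε0 j := by
    have h1 : ∀ᶠ x : ℝ in 𝓝[>] 0, x ≤ κ := (eventually_le_nhds hκ).filter_mono nhdsWithin_le_nhds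
    have h2 : ∀ᶠ x : ℝ in 𝓝[>] 0, x * M ≤ σ / 2 := by
      have h3 : Tendsto (fun x : ℝ => x * M) (𝓝[>] 0) (𝓝 0) := by
        have : Tendsto (fun x : ℝ => x * M) (𝓝 0) (𝓝 (0 * M)) := (continuous_mul_const _).tendsto 0
        rw [zero_mul] at this
        exact this.mono_left nhdsWithin_le_nhds
      exact h3.eventually (eventually_le_nhds (by positivity))
    have h3 : ∀ᶠ x : ℝ in 𝓝[>] 0, ∀ j, x ≤ ε0 j := by
      rw [eventually_all]
      exact fun j => (eventually_le_nhds (hε0 j)).filter_mono nhdsWithin_le_nhds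
    obtain ⟨x, ⟨h1, h2, h3⟩, h4⟩ := ((h1.and (h2.and h3)).and self_mem_nhdsWithin).exists
    exact ⟨x, h4, h1, h2, h3⟩
  choose η T0 hη hη1 hT0 hapn using fun j => hapn j κ' hκ' (hκ3 j)
  have hQ := Q_lim d ok v hB hA' hκ'
  have hQ2 : Tendsto (fun T => cexp (-(((1 / 4 : ℝ) * ∑ i, ∑ j, (if A' i = A' j then
      ∑ p ∈ (Finset.Icc 1 ⌊T ^ κ'⌋₊).filter Nat.Prime, (d.b v T i p * (starRingEnd ℂ) (d.b v T j p)).re else 0) : ℝ) : ℂ)))
      atTop (𝓝 (cexp (-((∑ i, ∑ j, v i * v j * d.cM i j : ℝ) : ℂ) / 2))) := by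
    have h1 : -((∑ i, ∑ j, v i * v j * d.cM i j : ℝ) : ℂ) / 2 = -((((∑ i, ∑ j, v i * v j * d.cM i j) / 2 : ℝ)) : ℂ) := by
      push_cast; ring
    rw [h1]
    exact (Complex.continuous_exp.tendsto _).comp (((Complex.continuous_ofReal.tendsto _).comp hQ).neg)
  have hpow : ∀ᶠ T : ℝ in atTop, T ^ (-σ) * ((⌊T ^ κ'⌋₊ : ℝ) + 1) ^ M ≤ ηc := by
    have h1 : Tendsto (fun T : ℝ => (2 : ℝ) ^ M * T ^ (-(σ / 2))) atTop (𝓝 0) := by
      have := (tendsto_rpow_neg_atTop (show 0 < σ / 2 by positivity)).const_mul ((2 : ℝ) ^ M)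
      rwa [mul_zero] at this
    filter_upwards [h1.eventually (eventually_le_nhds hηc), eventually_ge_atTop (1 : ℝ)] with T a1 a2
    refine le_trans ?_ a1
    have hT : 0 < T := by linarith
    have h2 : (⌊T ^ κ'⌋₊ : ℝ) + 1 ≤ 2 * T ^ κ' := by
      have := Nat.floor_le (Real.rpow_nonneg hT.le κ')
      have := Real.one_le_rpow a2 hκ'.le
      linarith
    calc T ^ (-σ) * ((⌊T ^ κ'⌋₊ : ℝ) + 1) ^ M ≤ T ^ (-σ) * (2 * T ^ κ') ^ M := by gcongr
      _ = 2 ^ M * (T ^ (-σ) * T ^ (κ' * M)) := by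
          rw [mul_pow, Real.rpow_mul_natCast hT.le]; ring
      _ = 2 ^ M * T ^ (-σ + κ' * M) := by rw [Real.rpow_add hT]
      _ ≤ 2 ^ M * T ^ (-(σ / 2)) := by
          gcongr
          linarith
  filter_upwards [hQ2.eventually (Metric.ball_mem_nhds _ (show 0 < ε / 4 by positivity)), hpow, hS κ' hκ',
    b_small d ok v hηc, eventually_all.2 (fun j => hadm j (η j) (hη j)), eventually_all.2 (fun j => eventually_ge_atTop (T0 j)),
    eventually_ge_atTop TH, eventually_ge_atTop TM] with T a1 a2 a3 a4 a5 a6 a7 a8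
  have hT1 : 1 ≤ T := hTH.trans a7
  have hT : 0 < T := by linarith
  have hmp : ∀ _ : Fin n, IsProbabilityMeasure (mT T) := fun _ => mT_prob hT
  have hms : ∀ _ : Fin n, mT T (Icc T (2 * T))ᶜ = 0 := fun _ => mT_supp T
  have := mT_prob hT
  have hN : ((⌊T ^ κ'⌋₊ : ℕ) : ℝ) ≤ T ^ κ :=
    (Nat.floor_le (Real.rpow_nonneg hT.le κ')).trans (Real.rpow_le_rpow_of_exponent_le hT1 hκ1)
  have hmono := hmov T a8 ⌊T ^ κ'⌋₊ hN
  have hmeasΨ : ∀ c : Fin n × Fin D, Measurable (fun t : Fin n → ℝ => 1 / (B : ℝ) * (t c.1) ^ (d.e c.2)) := fun c =>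
    (continuous_const.mul ((Real.continuous_rpow_const (ok.epos c.2).le).comp (continuous_apply c.1))).measurable
  have hc := hcla (Fin n → ℝ) (Measure.pi (fun _ : Fin n => mT T))
    (fun (c : Fin n × Fin D) (t : Fin n → ℝ) => 1 / (B : ℝ) * (t c.1) ^ (d.e c.2)) hmeasΨ ⌊T ^ κ'⌋₊ (T ^ (-σ)) hmono a2
    (fun j => d.b v T j) a4 a3
  -- the prime sums
  have hYb : ∀ t : Fin n → ℝ, (∑ j, ∑ p ∈ (Finset.Icc 1 ⌊T ^ κ'⌋₊).filter Nat.Prime,
      d.b v T j p * ee p (∑ c : Fin n × Fin D, (A' j c : ℝ) * (1 / (B : ℝ) * (t c.1) ^ (d.e c.2)))).re =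
      ∑ j, -(v j * YG (d.u j) (d.F j T) ⌊T ^ κ'⌋₊ (d.H j t)) := by
    intro t
    rw [Complex.re_sum]
    refine Finset.sum_congr rfl fun j _ => ?_
    unfold Dt.b Dt.H
    rw [bb_YG, HH_eq d.e (d.A j) (d.τ j) hB (hA' j)]
  simp only [hYb] at hc
  -- comparison
  have hap : ∀ j, _ := fun j => hapn j T (a6 j) (d.F j T) (a5 j) (d.H j) (hH T a7 j)
  have hXc : ContinuousOn (fun t => ∑ j, v j * d.X T j t) (Bx n T) :=
    continuousOn_finsetSum _ fun j _ => continuousOn_const.mul (hap j).1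
  have hYc : Continuous (fun t => ∑ j, -(v j * YG (d.u j) (d.F j T) ⌊T ^ κ'⌋₊ (d.H j t))) :=
    continuous_finsetSum _ fun j _ => (continuous_const.mul ((YG_cont _ _ _).comp (HH_cont ok.epos _ _))).neg
  have hcmp := phase_cmp (Measure.pi (fun _ : Fin n => mT T)) (aesm_Bx hmp hms hXc) hYc.aestronglyMeasurable
    (g := fun t => ∑ j, |v j| * |XG (d.G j) (d.F j T) (T ^ d.E j) (d.H j t) +
      YG (d.u j) (d.F j T) ⌊T ^ κ'⌋₊ (d.H j t)|)
    (integrable_finsetSum _ fun j _ => (hap j).2.1.const_mul _) (fun t => by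
      rw [← Finset.sum_sub_distrib]
      refine (Finset.abs_sum_le_sum_abs _ _).trans (Finset.sum_le_sum fun j _ => ?_)
      rw [sub_neg_eq_add, ← mul_add, abs_mul]
      exact le_rfl)
  have hcmp2 : ∫ t, (∑ j, |v j| * |XG (d.G j) (d.F j T) (T ^ d.E j) (d.H j t) +
      YG (d.u j) (d.F j T) ⌊T ^ κ'⌋₊ (d.H j t)|) ∂(Measure.pi (fun _ : Fin n => mT T)) ≤ ε / 4 := by
    rw [integral_finsetSum _ fun j _ => (hap j).2.1.const_mul _]
    refine le_trans (Finset.sum_le_sum fun j _ => ?_) hδv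
    rw [integral_const_mul]
    exact mul_le_mul_of_nonneg_left (hap j).2.2 (abs_nonneg _)
  rw [dist_eq_norm]
  have a1' : ‖cexp (-(((1 / 4 : ℝ) * ∑ i, ∑ j, (if A' i = A' j then
      ∑ p ∈ (Finset.Icc 1 ⌊T ^ κ'⌋₊).filter Nat.Prime, (d.b v T i p * (starRingEnd ℂ) (d.b v T j p)).re else 0) : ℝ) : ℂ)) -
      cexp (-((∑ i, ∑ j, v i * v j * d.cM i j : ℝ) : ℂ) / 2)‖ < ε / 4 := by
    rw [← dist_eq_norm]
    exact a1
  have h1 := norm_add₃_le (a := (∫ t, cexp (I * ((∑ j, v j * d.X T j t : ℝ) : ℂ)) ∂(Measure.pi (fun _ : Fin n => mT T))) -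
      ∫ t, cexp (I * ((∑ j, -(v j * YG (d.u j) (d.F j T) ⌊T ^ κ'⌋₊ (d.H j t)) : ℝ) : ℂ)) ∂(Measure.pi (fun _ : Fin n => mT T)))
    (b := (∫ t, cexp (I * ((∑ j, -(v j * YG (d.u j) (d.F j T) ⌊T ^ κ'⌋₊ (d.H j t)) : ℝ) : ℂ))
      ∂(Measure.pi (fun _ : Fin n => mT T))) - cexp (-(((1 / 4 : ℝ) * ∑ i, ∑ j, (if A' i = A' j then
      ∑ p ∈ (Finset.Icc 1 ⌊T ^ κ'⌋₊).filter Nat.Prime, (d.b v T i p * (starRingEnd ℂ) (d.b v T j p)).re else 0) : ℝ) : ℂ)))
    (c := cexp (-(((1 / 4 : ℝ) * ∑ i, ∑ j, (if A' i = A' j then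
      ∑ p ∈ (Finset.Icc 1 ⌊T ^ κ'⌋₊).filter Nat.Prime, (d.b v T i p * (starRingEnd ℂ) (d.b v T j p)).re else 0) : ℝ) : ℂ)) -
      cexp (-((∑ i, ∑ j, v i * v j * d.cM i j : ℝ) : ℂ) / 2))
  rw [show ∀ x y z w : ℂ, x - y + (y - z) + (z - w) = x - w from fun x y z w => by ring] at h1
  refine h1.trans_lt ?_
  have h2 := hcmp.trans hcmp2
  linarith

end Pool.Agent.H203.GE
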