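import Pool.Agent.H203.GE.Defs

set_option autoImplicit false

/-! Time averages of monomials in the prime phases at polynomial heights. -/

open Complex Filter Topology Set MeasureTheory

namespace Pool.Agent.H203.GE

open Pool.Agent.H203.ME

namespace MONOL

variable {m : ℕ}

/-- the numerator -/
def P (x : Fin m → ℕ) (b : Fin m → ℤ) : ℕ := ∏ i, (x i) ^ (b i).toNat

theorem P_ne (x : Fin m → ℕ) (b : Fin m → ℤ) (hx : ∀ i, (x i).Prime) : P x b ≠ 0 :=
  Finset.prod_ne_zero_iff.2 fun i _ => pow_ne_zero _ (hx i).ne_zero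

theorem log_sub (x : Fin m → ℕ) (b : Fin m → ℤ) (hx : ∀ i, (x i).Prime) :
    ∑ i, (b i : ℝ) * Real.log (x i) =
      Real.log (P x b : ℕ) - Real.log (P x (fun i => - b i) : ℕ) := by
  unfold P
  push_cast
  rw [Real.log_prod (fun i _ => pow_ne_zero _ (by exact_mod_cast (hx i).ne_zero)),
    Real.log_prod (fun i _ => pow_ne_zero _ (by exact_mod_cast (hx i).ne_zero)),
    ← Finset.sum_sub_distrib]
  refine Finset.sum_congr rfl fun i _ => ?_
  rw [Real.log_pow, Real.log_pow, ← sub_mul]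
  congr 1
  have h := Int.toNat_sub_toNat_neg (b i)
  have h' : ((((b i).toNat : ℤ) - ((-(b i)).toNat : ℤ) : ℤ) : ℝ) = ((b i : ℤ) : ℝ) := by rw [h]
  push_cast at h'
  linarith

theorem fact_P (x : Fin m → ℕ) (b : Fin m → ℤ) (hx : ∀ i, (x i).Prime) (p : ℕ) :
    (P x b).factorization p = ∑ i, (if x i = p then (b i).toNat else 0) := by
  unfold P
  rw [Nat.factorization_prod (fun i _ => pow_ne_zero _ (hx i).ne_zero), Finsupp.finsetSum_apply]
  refine Finset.sum_congr rfl fun i _ => ?_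
  rw [Nat.Prime.factorization_pow (hx i), Finsupp.single_apply]

theorem eq_iff (x : Fin m → ℕ) (b : Fin m → ℤ) (hx : ∀ i, (x i).Prime)
    (h : P x b = P x (fun i => - b i)) (p : ℕ) : ∑ i, (if x i = p then b i else 0) = 0 := by
  have h1 := fact_P x b hx p
  have h2 := fact_P x (fun i => - b i) hx p
  rw [h, h2] at h1
  have h3 : ((∑ i, (if x i = p then (-(b i)).toNat else 0) : ℕ) : ℤ) =
    ((∑ i, (if x i = p then (b i).toNat else 0) : ℕ) : ℤ) := by rw [h1]
  push_cast at h3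
  have h4 : ∑ i, (if x i = p then b i else 0) =
      ∑ i, (if x i = p then (((b i).toNat : ℕ) : ℤ) else 0) -
        ∑ i, (if x i = p then (((-(b i)).toNat : ℕ) : ℤ) else 0) := by
    rw [← Finset.sum_sub_distrib]
    refine Finset.sum_congr rfl fun i _ => ?_
    split_ifs
    · exact (Int.toNat_sub_toNat_neg (b i)).symm
    · rfl
  rw [h4]
  push_cast at h3 ⊢
  linarith

theorem sum_zero (x : Fin m → ℕ) (b : Fin m → ℤ)
    (h : ∀ p : ℕ, ∑ i, (if x i = p then b i else 0) = 0) :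
    ∑ i, (b i : ℝ) * Real.log (x i) = 0 := by
  have h1 : ∑ i, (b i : ℝ) * Real.log (x i) =
      ∑ p ∈ Finset.univ.image x, ∑ i, (if x i = p then (b i : ℝ) * Real.log (x i) else 0) := by
    rw [Finset.sum_comm]
    refine Finset.sum_congr rfl fun i _ => ?_
    rw [Finset.sum_ite_eq]
    rw [if_pos (Finset.mem_image_of_mem _ (Finset.mem_univ _))]
  rw [h1]
  refine Finset.sum_eq_zero fun p _ => ?_
  have h2 : ∑ i, (if x i = p then (b i : ℝ) * Real.log (x i) else 0) =
      ((∑ i, (if x i = p then b i else 0) : ℤ) : ℝ) * Real.log p := by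
    push_cast
    rw [Finset.sum_mul]
    refine Finset.sum_congr rfl fun i _ => ?_
    split_ifs with hi
    · rw [hi]
    · simp
  rw [h2, h p]
  simp

theorem P_le (x : Fin m → ℕ) (b : Fin m → ℤ) (M : ℝ) (hM : 1 ≤ M) (K : ℕ)
    (hx : ∀ i, (x i : ℝ) ≤ M) (hK : ∑ i, (b i).toNat ≤ K) : ((P x b : ℕ) : ℝ) ≤ M ^ K := by
  unfold P
  push_cast
  calc ∏ i, (x i : ℝ) ^ (b i).toNat ≤ ∏ i, M ^ (b i).toNat :=
        Finset.prod_le_prod (fun i _ => by positivity) fun i _ =>
          pow_le_pow_left₀ (Nat.cast_nonneg _) (hx i) _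
    _ = M ^ (∑ i, (b i).toNat) := Finset.prod_pow_eq_pow_sum _ _ _
    _ ≤ M ^ K := pow_le_pow_right₀ hM hK

theorem log_gap (P Q : ℕ) (hP : P ≠ 0) (hQ : Q ≠ 0) (h : P ≠ Q) (W : ℝ) (h1 : (P : ℝ) ≤ W)
    (h2 : (Q : ℝ) ≤ W) : 1 / W ≤ |Real.log P - Real.log Q| := by
  have key : ∀ a b : ℕ, a ≠ 0 → b ≠ 0 → a < b → (b : ℝ) ≤ W →
      1 / W ≤ Real.log b - Real.log a := by
    intro a b ha hb hab hbW
    have ha0 : (0 : ℝ) < a := by exact_mod_cast Nat.pos_of_ne_zero ha
    have hb0 : (0 : ℝ) < b := by exact_mod_cast Nat.pos_of_ne_zero hb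
    have h3 : (a : ℝ) + 1 ≤ b := by exact_mod_cast hab
    have h4 : Real.log ((a : ℝ) / b) ≤ (a : ℝ) / b - 1 := Real.log_le_sub_one_of_pos (by positivity)
    rw [Real.log_div ha0.ne' hb0.ne'] at h4
    have h5 : 1 / (b : ℝ) ≤ 1 - (a : ℝ) / b := by
      rw [div_le_iff₀ hb0, sub_mul, div_mul_cancel₀ _ hb0.ne']
      linarith
    have h6 : 1 / W ≤ 1 / (b : ℝ) := one_div_le_one_div_of_le hb0 hbW
    linarith
  rcases lt_or_gt_of_ne h with hlt | hlt
  · rw [abs_sub_comm]
    exact (key P Q hP hQ hlt h2).trans (le_abs_self _)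
  · exact (key Q P hQ hP hlt h1).trans (le_abs_self _)

theorem prod_ee {D : ℕ} (x : Fin m → ℕ) (β : Fin m → Fin D → ℤ) (t : ℝ) :
    ∏ i, ee (x i) (∑ d, (β i d : ℝ) * t ^ ((d : ℕ) + 1)) =
      cexp (-(((∑ d, (∑ i, (β i d : ℝ) * Real.log (x i)) * t ^ ((d : ℕ) + 1) : ℝ) : ℂ) * I)) := by
  unfold ee
  rw [← Complex.exp_sum]
  congr 1
  rw [Finset.sum_neg_distrib, ← Finset.sum_mul, ← Complex.ofReal_sum]
  congr 3
  simp only [Finset.sum_mul]
  rw [Finset.sum_comm]
  refine Finset.sum_congr rfl fun i _ => Finset.sum_congr rfl fun d _ => ?_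
  ring

end MONOL

open MONOL in
theorem t_MONO (hO : S_OSC) : S_MONO := by
  intro m D β
  obtain ⟨T0, hT0, hO⟩ := hO D
  obtain ⟨K, hK⟩ : ∃ K : ℕ, K = ∑ i, ∑ d, (β i d).natAbs := ⟨_, rfl⟩
  have hKd : ∀ d, ∑ i, (β i d).natAbs ≤ K := by
    intro d
    rw [hK]
    refine Finset.sum_le_sum fun i _ => ?_
    exact Finset.single_le_sum (f := fun d => (β i d).natAbs) (fun _ _ => Nat.zero_le _)
      (Finset.mem_univ d)
  have hK0 : (0 : ℝ) < 8 * (K + 1) := by positivity
  refine ⟨1 / (8 * (K + 1)), T0, by positivity, ?_, hT0, ?_⟩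
  · rw [div_le_iff₀ hK0]
    have : (0 : ℝ) ≤ K := Nat.cast_nonneg K
    linarith
  intro T hT N hN x hx
  have hT1 : 1 ≤ T := hT0.trans hT
  have hTpos : 0 < T := by linarith
  obtain ⟨κ, hκ⟩ : ∃ κ : ℝ, κ = 1 / (8 * (K + 1)) := ⟨_, rfl⟩
  rw [← hκ] at hN
  have hκ0 : 0 < κ := by rw [hκ]; positivity
  have hκK : κ * K ≤ 1 / 8 := by
    rw [hκ, div_mul_eq_mul_div, div_le_iff₀ hK0]
    linarith
  obtain ⟨M, hM⟩ : ∃ M : ℝ, M = T ^ κ := ⟨_, rfl⟩
  have hM1 : 1 ≤ M := by rw [hM]; exact Real.one_le_rpow hT1 hκ0.le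
  have hxM : ∀ i, (x i : ℝ) ≤ M := by
    intro i
    rw [hM]
    refine le_trans ?_ hN
    exact_mod_cast (hx i).2
  have hxp : ∀ i, (x i).Prime := fun i => (hx i).1
  have hMK : M ^ K ≤ T ^ (1 / 8 : ℝ) := by
    rw [hM, ← Real.rpow_natCast, ← Real.rpow_mul hTpos.le]
    exact Real.rpow_le_rpow_of_exponent_le hT1 hκK
  obtain ⟨lam, hlam⟩ : ∃ lam : Fin D → ℝ, lam = fun d => ∑ i, (β i d : ℝ) * Real.log (x i) :=
    ⟨_, rfl⟩
  have hprod : ∀ t : ℝ, ∏ i, ee (x i) (∑ d, (β i d : ℝ) * t ^ ((d : ℕ) + 1)) =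
      cexp (-(((∑ d, lam d * t ^ ((d : ℕ) + 1) : ℝ) : ℂ) * I)) := by
    intro t
    rw [prod_ee, hlam]
  simp only [hprod]
  have hlow : ∀ d, (∀ p : ℕ, ∑ i, (if x i = p then β i d else 0) = 0) ∨
      T ^ (-(1 / 8 : ℝ)) ≤ |lam d| := by
    intro d
    by_cases hPQ : P x (fun i => β i d) = P x (fun i => - β i d)
    · exact Or.inl (eq_iff x (fun i => β i d) hxp hPQ)
    · right
      have e1 : lam d = Real.log (P x (fun i => β i d) : ℕ) -
          Real.log (P x (fun i => - β i d) : ℕ) := by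
        rw [hlam]
        exact log_sub x (fun i => β i d) hxp
      have h1 := P_le x (fun i => β i d) M hM1 K hxM
        (le_trans (Finset.sum_le_sum fun i _ => by omega) (hKd d))
      have h2 := P_le x (fun i => - β i d) M hM1 K hxM
        (le_trans (Finset.sum_le_sum fun i _ => by omega) (hKd d))
      rw [e1]
      refine le_trans ?_ (log_gap _ _ (P_ne x _ hxp) (P_ne x _ hxp) hPQ (M ^ K) h1 h2)
      rw [Real.rpow_neg hTpos.le, ← one_div]
      exact one_div_le_one_div_of_le (by positivity) hMK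
  have hup : ∀ d, |lam d| ≤ T ^ (1 / 8 : ℝ) := by
    intro d
    have hlogM : Real.log M = κ * Real.log T := by rw [hM, Real.log_rpow hTpos]
    have h1 : |lam d| ≤ (K : ℝ) * Real.log M := by
      rw [hlam]
      refine (Finset.abs_sum_le_sum_abs _ _).trans ?_
      have h2 : ∀ i ∈ (Finset.univ : Finset (Fin m)), |(β i d : ℝ) * Real.log (x i)| ≤
          ((β i d).natAbs : ℝ) * Real.log M := by
        intro i _
        rw [abs_mul]
        have h3 : |((β i d : ℤ) : ℝ)| = (((β i d).natAbs : ℕ) : ℝ) := by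
          rw [Nat.cast_natAbs]
          push_cast
          rfl
        rw [h3, abs_of_nonneg (Real.log_natCast_nonneg _)]
        refine mul_le_mul_of_nonneg_left ?_ (Nat.cast_nonneg _)
        exact Real.log_le_log (by exact_mod_cast (hxp i).pos) (hxM i)
      refine (Finset.sum_le_sum h2).trans ?_
      rw [← Finset.sum_mul]
      refine mul_le_mul_of_nonneg_right ?_ (Real.log_nonneg hM1)
      exact_mod_cast hKd d
    have h4 : Real.log T ≤ T ^ (1 / 8 : ℝ) / (1 / 8) := Real.log_le_rpow_div hTpos.le (by norm_num)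
    have h5 : 0 ≤ Real.log T := Real.log_nonneg hT1
    rw [hlogM] at h1
    have h6 : (K : ℝ) * (κ * Real.log T) ≤ 1 / 8 * Real.log T := by
      have := mul_le_mul_of_nonneg_right hκK h5
      linarith
    linarith
  have hzero : ∀ d, (∀ p : ℕ, ∑ i, (if x i = p then β i d else 0) = 0) → lam d = 0 := by
    intro d hd
    rw [hlam]
    exact sum_zero x (fun i => β i d) hd
  have hTpow : (0 : ℝ) < T ^ (-(1 / 8 : ℝ)) := Real.rpow_pos_of_pos hTpos _
  split_ifs with hall
  · have hl : ∀ d, lam d = 0 := fun d => hzero d (hall d)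
    simp only [hl]
    simp only [zero_mul, Finset.sum_const_zero, Complex.ofReal_zero, neg_zero, Complex.exp_zero,
      intervalIntegral.integral_const]
    have e1 : (2 * T - T) • (1 : ℂ) = (T : ℂ) := by
      rw [show 2 * T - T = T by ring]
      simp
    have hTc : (T : ℂ) ≠ 0 := by exact_mod_cast hTpos.ne'
    rw [e1, one_div, inv_mul_cancel₀ hTc, sub_self, norm_zero]
    positivity
  · have hex : ∃ d, lam d ≠ 0 := by
      by_contra hcon
      push Not at hcon
      apply hall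
      intro d
      rcases hlow d with h | h
      · exact h
      · rw [hcon d, abs_zero] at h
        exact absurd h (not_le.2 hTpow)
    have h1 := hO T hT lam hex (fun d => (hlow d).imp (hzero d) id) hup
    rw [sub_zero, norm_mul]
    have e2 : ‖(1 / T : ℂ)‖ = T⁻¹ := by
      rw [one_div, norm_inv, Complex.norm_real, Real.norm_eq_abs, abs_of_pos hTpos]
    rw [e2]
    calc T⁻¹ * _ ≤ T⁻¹ * T ^ (1 / 2 : ℝ) := mul_le_mul_of_nonneg_left h1 (by positivity)
      _ = T ^ (-(1 / 2 : ℝ)) := by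
        rw [← Real.rpow_neg_one, ← Real.rpow_add hTpos]
        norm_num

end Pool.Agent.H203.GE
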