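import Pool.Agent.H203.GE.Defs2
import Pool.Agent.H203.GE.MONO

set_option autoImplicit false

/-! Averages of monomials in the prime phases at heights with real exponents (helper828). -/

open Complex Filter Topology Set MeasureTheory

namespace Pool.Agent.H203.GE

open Pool.Agent.H203.ME

namespace MORL

variable {m : ℕ}

theorem prod_ee {D : ℕ} (e : Fin D → ℝ) (c : ℝ) (x : Fin m → ℕ) (β : Fin m → Fin D → ℤ) (t : ℝ) :
    ∏ i, ee (x i) (∑ d, (β i d : ℝ) * (c * t ^ (e d))) =
      cexp (-(((∑ d, (c * ∑ i, (β i d : ℝ) * Real.log (x i)) * t ^ (e d) : ℝ) : ℂ) * I)) := by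
  unfold ee
  rw [← Complex.exp_sum]
  congr 1
  rw [Finset.sum_neg_distrib, ← Finset.sum_mul, ← Complex.ofReal_sum]
  congr 3
  simp only [Finset.sum_mul, Finset.mul_sum]
  rw [Finset.sum_comm]
  refine Finset.sum_congr rfl fun d _ => Finset.sum_congr rfl fun i _ => ?_
  ring

/-- the integral with respect to the uniform law -/
theorem int_mT (T : ℝ) (hT : 0 < T) (G : ℝ → ℂ) :
    ∫ t, G t ∂(mT T) = (T⁻¹ : ℝ) • ∫ t in T..(2 * T), G t := by
  unfold mT
  rw [integral_smul_measure, intervalIntegral.integral_of_le (by linarith), ENNReal.toReal_inv,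
    ENNReal.toReal_ofReal hT.le]

end MORL

open MONOL in
theorem t_MOR (hO : S_OSR) : S_MOR := by
  intro D e he hes c hc M B
  obtain ⟨σ, T1, hσ, hT1, hO⟩ := hO D e he hes
  obtain ⟨K, hK⟩ : ∃ K : ℕ, K = M * B := ⟨_, rfl⟩
  have hK0 : (0 : ℝ) < 2 * (K + 1) := by positivity
  obtain ⟨κ, hκ⟩ : ∃ κ : ℝ, κ = σ / (2 * (K + 1)) := ⟨_, rfl⟩
  have hκ0 : 0 < κ := by rw [hκ]; positivity
  have hκK : κ * K ≤ σ / 2 := by
    rw [hκ, div_mul_eq_mul_div, div_le_iff₀ hK0]
    nlinarith
  obtain ⟨A, hA⟩ : ∃ A : ℝ, A = max 1 (max c (1 / c)) := ⟨_, rfl⟩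
  have hA1 : 1 ≤ A := by rw [hA]; exact le_max_left _ _
  have hAc : c ≤ A := by rw [hA]; exact (le_max_left _ _).trans (le_max_right _ _)
  have hAc' : 1 / c ≤ A := by rw [hA]; exact (le_max_right _ _).trans (le_max_right _ _)
  refine ⟨κ, σ, max T1 (A ^ (2 / σ)), hκ0, hσ, hT1.trans (le_max_left _ _), ?_⟩
  intro T hT N hN m hm β hβ x hx
  have hTT1 : T1 ≤ T := (le_max_left _ _).trans hT
  have hTA : A ^ (2 / σ) ≤ T := (le_max_right _ _).trans hT
  have hT1' : 1 ≤ T := hT1.trans hTT1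
  have hTpos : 0 < T := by linarith
  -- large powers of `T`
  have hAT : A ≤ T ^ (σ / 2) := by
    have h1 := Real.rpow_le_rpow (by positivity) hTA (by positivity : (0 : ℝ) ≤ σ / 2)
    rw [← Real.rpow_mul (by linarith), show 2 / σ * (σ / 2) = 1 by field_simp, Real.rpow_one] at h1
    exact h1
  have hKd : ∀ d, ∑ i, (β i d).natAbs ≤ K := by
    intro d
    rw [hK]
    calc ∑ i, (β i d).natAbs ≤ ∑ _i : Fin m, B := by
          refine Finset.sum_le_sum fun i _ => ?_
          have h1 := hβ i d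
          rw [Int.abs_eq_natAbs] at h1
          exact_mod_cast h1
      _ = m * B := by simp
      _ ≤ M * B := Nat.mul_le_mul_right _ hm
  obtain ⟨W, hW⟩ : ∃ W : ℝ, W = T ^ κ := ⟨_, rfl⟩
  have hW1 : 1 ≤ W := by rw [hW]; exact Real.one_le_rpow hT1' hκ0.le
  have hxW : ∀ i, (x i : ℝ) ≤ W := by
    intro i
    rw [hW]
    refine le_trans ?_ hN
    exact_mod_cast (hx i).2
  have hxp : ∀ i, (x i).Prime := fun i => (hx i).1
  have hWK : W ^ K ≤ T ^ (σ / 2) := by
    rw [hW, ← Real.rpow_natCast, ← Real.rpow_mul hTpos.le]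
    exact Real.rpow_le_rpow_of_exponent_le hT1' hκK
  have hsplit : T ^ σ = T ^ (σ / 2) * T ^ (σ / 2) := by
    rw [← Real.rpow_add hTpos]
    congr 1
    ring
  have hTh : 0 < T ^ (σ / 2) := Real.rpow_pos_of_pos hTpos _
  obtain ⟨lam, hlam⟩ : ∃ lam : Fin D → ℝ, lam = fun d => c * ∑ i, (β i d : ℝ) * Real.log (x i) :=
    ⟨_, rfl⟩
  have hprod : ∀ t : ℝ, ∏ i, ee (x i) (∑ d, (β i d : ℝ) * (c * t ^ (e d))) =
      cexp (-(((∑ d, lam d * t ^ (e d) : ℝ) : ℂ) * I)) := by
    intro t
    rw [MORL.prod_ee, hlam]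
  simp only [hprod]
  have hlow : ∀ d, (∀ p : ℕ, ∑ i, (if x i = p then β i d else 0) = 0) ∨
      T ^ (-σ) ≤ |lam d| := by
    intro d
    by_cases hPQ : P x (fun i => β i d) = P x (fun i => - β i d)
    · exact Or.inl (eq_iff x (fun i => β i d) hxp hPQ)
    · right
      have e1 : lam d = c * (Real.log (P x (fun i => β i d) : ℕ) -
          Real.log (P x (fun i => - β i d) : ℕ)) := by
        rw [hlam]
        exact congrArg (c * ·) (log_sub x (fun i => β i d) hxp)
      have h1 := P_le x (fun i => β i d) W hW1 K hxW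
        (le_trans (Finset.sum_le_sum fun i _ => by omega) (hKd d))
      have h2 := P_le x (fun i => - β i d) W hW1 K hxW
        (le_trans (Finset.sum_le_sum fun i _ => by omega) (hKd d))
      have h3 := log_gap _ _ (P_ne x _ hxp) (P_ne x _ hxp) hPQ (W ^ K) h1 h2
      rw [e1, abs_mul, abs_of_pos hc]
      have h4 : 1 / T ^ (σ / 2) ≤ 1 / W ^ K := one_div_le_one_div_of_le (by positivity) hWK
      have h5 : 1 / T ^ (σ / 2) ≤ c := by
        rw [div_le_iff₀ hTh]
        have h6 : 1 / c ≤ T ^ (σ / 2) := hAc'.trans hAT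
        rw [div_le_iff₀ hc] at h6
        linarith
      calc T ^ (-σ) = 1 / T ^ (σ / 2) * (1 / T ^ (σ / 2)) := by
            rw [Real.rpow_neg hTpos.le, hsplit, mul_inv, one_div]
        _ ≤ c * (1 / T ^ (σ / 2)) := mul_le_mul_of_nonneg_right h5 (by positivity)
        _ ≤ c * |_| := mul_le_mul_of_nonneg_left (h4.trans h3) hc.le
  have hup : ∀ d, |lam d| ≤ T ^ σ := by
    intro d
    have hlogW : Real.log W = κ * Real.log T := by rw [hW, Real.log_rpow hTpos]
    have h1 : |lam d| ≤ c * ((K : ℝ) * Real.log W) := by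
      rw [hlam]
      simp only
      rw [abs_mul, abs_of_pos hc]
      refine mul_le_mul_of_nonneg_left ?_ hc.le
      refine (Finset.abs_sum_le_sum_abs _ _).trans ?_
      have h2 : ∀ i ∈ (Finset.univ : Finset (Fin m)), |(β i d : ℝ) * Real.log (x i)| ≤
          ((β i d).natAbs : ℝ) * Real.log W := by
        intro i _
        rw [abs_mul]
        have h3 : |((β i d : ℤ) : ℝ)| = (((β i d).natAbs : ℕ) : ℝ) := by
          rw [Nat.cast_natAbs]
          push_cast
          rfl
        rw [h3, abs_of_nonneg (Real.log_natCast_nonneg _)]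
        refine mul_le_mul_of_nonneg_left ?_ (Nat.cast_nonneg _)
        exact Real.log_le_log (by exact_mod_cast (hxp i).pos) (hxW i)
      refine (Finset.sum_le_sum h2).trans ?_
      rw [← Finset.sum_mul]
      refine mul_le_mul_of_nonneg_right ?_ (Real.log_nonneg hW1)
      exact_mod_cast hKd d
    have h4 : Real.log T ≤ T ^ (σ / 2) / (σ / 2) := Real.log_le_rpow_div hTpos.le (by positivity)
    have h5 : 0 ≤ Real.log T := Real.log_nonneg hT1'
    have h6 : (K : ℝ) * Real.log W ≤ T ^ (σ / 2) := by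
      rw [hlogW]
      calc (K : ℝ) * (κ * Real.log T) = κ * K * Real.log T := by ring
        _ ≤ σ / 2 * Real.log T := mul_le_mul_of_nonneg_right hκK h5
        _ ≤ σ / 2 * (T ^ (σ / 2) / (σ / 2)) := mul_le_mul_of_nonneg_left h4 (by positivity)
        _ = T ^ (σ / 2) := by field_simp
    calc |lam d| ≤ c * ((K : ℝ) * Real.log W) := h1
      _ ≤ c * T ^ (σ / 2) := mul_le_mul_of_nonneg_left h6 hc.le
      _ ≤ T ^ (σ / 2) * T ^ (σ / 2) := mul_le_mul_of_nonneg_right (hAc.trans hAT) hTh.le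
      _ = T ^ σ := hsplit.symm
  have hzero : ∀ d, (∀ p : ℕ, ∑ i, (if x i = p then β i d else 0) = 0) → lam d = 0 := by
    intro d hd
    rw [hlam]
    simp only
    rw [sum_zero x (fun i => β i d) hd, mul_zero]
  have hTpow : (0 : ℝ) < T ^ (-σ) := Real.rpow_pos_of_pos hTpos _
  rw [MORL.int_mT T hTpos]
  split_ifs with hall
  · have hl : ∀ d, lam d = 0 := fun d => hzero d (hall d)
    simp only [hl]
    simp only [zero_mul, Finset.sum_const_zero, Complex.ofReal_zero, neg_zero, Complex.exp_zero,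
      intervalIntegral.integral_const]
    rw [show 2 * T - T = T by ring, smul_smul, inv_mul_cancel₀ hTpos.ne', one_smul, sub_self,
      norm_zero]
    exact hTpow.le
  · have hex : ∃ d, lam d ≠ 0 := by
      by_contra hcon
      push Not at hcon
      apply hall
      intro d
      rcases hlow d with h | h
      · exact h
      · rw [hcon d, abs_zero] at h
        exact absurd h (not_le.2 hTpow)
    have h1 := hO T hTT1 lam hex (fun d => (hlow d).imp (hzero d) id) hup
    rw [sub_zero, norm_smul, Real.norm_eq_abs, abs_of_pos (inv_pos.2 hTpos)]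
    calc T⁻¹ * _ ≤ T⁻¹ * T ^ (1 - σ) := mul_le_mul_of_nonneg_left h1 (by positivity)
      _ = T ^ (-σ) := by
        rw [← Real.rpow_neg_one, ← Real.rpow_add hTpos]
        congr 1
        ring

end Pool.Agent.H203.GE
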