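import Pool.Agent.H203.GE.Defs2

set_option autoImplicit false

open Complex Filter Topology Set MeasureTheory

namespace Pool.Agent.H203.GE

namespace OSRL

/-- first derivative test, without a condition on the sign of the second derivative -/
lemma fdt (a b A R : ℝ) (hab : a ≤ b) (φ φ' φ'' : ℝ → ℝ)
    (h1 : ∀ t ∈ Icc a b, HasDerivAt φ (φ' t) t) (h2 : ∀ t ∈ Icc a b, HasDerivAt φ' (φ'' t) t)
    (hc : ContinuousOn φ'' (Icc a b)) (hne : ∀ t ∈ Icc a b, φ' t ≠ 0)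
    (hA : ∀ t ∈ Icc a b, |(φ' t)⁻¹| ≤ A) (hR0 : ∀ t ∈ Icc a b, |φ'' t / (φ' t) ^ 2| ≤ R) :
    ‖∫ t in a..b, cexp (-((φ t : ℂ) * I))‖ ≤ 2 * A + (b - a) * R := by
  have hcφ : ContinuousOn φ (Icc a b) := fun t ht => (h1 t ht).continuousAt.continuousWithinAt
  have hcφ' : ContinuousOn φ' (Icc a b) := fun t ht => (h2 t ht).continuousAt.continuousWithinAt
  have hd : ∀ t ∈ Icc a b, HasDerivAt (fun t => (φ' t)⁻¹) (-(φ'' t) / (φ' t) ^ 2) t := by
    intro t ht
    exact (h2 t ht).inv (hne t ht)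
  have hdc : ∀ t ∈ Icc a b, HasDerivAt (fun t => (((φ' t)⁻¹ : ℝ) : ℂ))
      (((-(φ'' t) / (φ' t) ^ 2 : ℝ)) : ℂ) t := fun t ht => (hd t ht).ofReal_comp
  have hv : ∀ t ∈ Icc a b, HasDerivAt (fun t => I * cexp (-((φ t : ℂ) * I)))
      ((φ' t : ℂ) * cexp (-((φ t : ℂ) * I))) t := by
    intro t ht
    have e1 : HasDerivAt (fun t => -((φ t : ℂ) * I)) (-((φ' t : ℂ) * I)) t :=
      (((h1 t ht).ofReal_comp).mul_const I).neg
    have e2 := (e1.cexp).const_mul I
    refine e2.congr_deriv ?_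
    linear_combination (-(φ' t : ℂ) * cexp (-((φ t : ℂ) * I))) * I_mul_I
  have hcont : ContinuousOn (fun t => -(φ'' t) / (φ' t) ^ 2) (Icc a b) := by
    refine ContinuousOn.div hc.neg (hcφ'.pow 2) fun t ht => ?_
    exact pow_ne_zero 2 (hne t ht)
  have hcontc : ContinuousOn (fun t => (((-(φ'' t) / (φ' t) ^ 2 : ℝ)) : ℂ)) (Icc a b) :=
    continuous_ofReal.comp_continuousOn hcont
  have hcexp : ContinuousOn (fun t => cexp (-((φ t : ℂ) * I))) (Icc a b) :=
    ((continuous_ofReal.comp_continuousOn hcφ).mul continuousOn_const).neg.cexp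
  have hv' : ContinuousOn (fun t => (φ' t : ℂ) * cexp (-((φ t : ℂ) * I))) (Icc a b) :=
    (continuous_ofReal.comp_continuousOn hcφ').mul hcexp
  have hu : uIcc a b = Icc a b := uIcc_of_le hab
  have hparts := intervalIntegral.integral_mul_deriv_eq_deriv_mul (a := a) (b := b)
    (u := fun t => (((φ' t)⁻¹ : ℝ) : ℂ)) (v := fun t => I * cexp (-((φ t : ℂ) * I)))
    (u' := fun t => (((-(φ'' t) / (φ' t) ^ 2 : ℝ)) : ℂ))
    (v' := fun t => (φ' t : ℂ) * cexp (-((φ t : ℂ) * I)))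
    (fun t ht => hdc t (hu ▸ ht)) (fun t ht => hv t (hu ▸ ht))
    (by rw [← hu] at hcontc; exact hcontc.intervalIntegrable)
    (by rw [← hu] at hv'; exact hv'.intervalIntegrable)
  have hL : ∫ t in a..b, cexp (-((φ t : ℂ) * I)) =
      ∫ t in a..b, (((φ' t)⁻¹ : ℝ) : ℂ) * ((φ' t : ℂ) * cexp (-((φ t : ℂ) * I))) := by
    refine intervalIntegral.integral_congr fun t ht => ?_
    rw [hu] at ht
    have h3 : (φ' t : ℂ) ≠ 0 := by exact_mod_cast hne t ht
    simp only [ofReal_inv]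
    rw [← mul_assoc, inv_mul_cancel₀ h3, one_mul]
  have hnorm : ∀ t : ℝ, ‖I * cexp (-((φ t : ℂ) * I))‖ = 1 := by
    intro t
    rw [norm_mul, norm_I, one_mul, show -((φ t : ℂ) * I) = ((-φ t : ℝ) : ℂ) * I by push_cast; ring,
      norm_exp_ofReal_mul_I]
  have hR : ‖∫ t in a..b, (((-(φ'' t) / (φ' t) ^ 2 : ℝ)) : ℂ) * (I * cexp (-((φ t : ℂ) * I)))‖ ≤
      R * |b - a| := by
    refine intervalIntegral.norm_integral_le_of_norm_le_const fun t ht => ?_
    rw [uIoc_of_le hab] at ht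
    rw [norm_mul, hnorm, mul_one, norm_real, Real.norm_eq_abs, neg_div, abs_neg]
    exact hR0 t ⟨ht.1.le, ht.2⟩
  rw [abs_of_nonneg (sub_nonneg.2 hab)] at hR
  rw [hL, hparts]
  have t1 : ‖(((φ' b)⁻¹ : ℝ) : ℂ) * (I * cexp (-((φ b : ℂ) * I)))‖ ≤ A := by
    rw [norm_mul, hnorm, mul_one, norm_real, Real.norm_eq_abs]
    exact hA b ⟨hab, le_refl _⟩
  have t2 : ‖(((φ' a)⁻¹ : ℝ) : ℂ) * (I * cexp (-((φ a : ℂ) * I)))‖ ≤ A := by
    rw [norm_mul, hnorm, mul_one, norm_real, Real.norm_eq_abs]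
    exact hA a ⟨le_refl _, hab⟩
  have e3 : 2 * A + (b - a) * R = A + A + R * (b - a) := by ring
  rw [e3]
  refine (norm_sub_le _ _).trans ?_
  exact add_le_add ((norm_sub_le _ _).trans (add_le_add t1 t2)) hR

lemma lowpos {ι : Type} [Fintype ι] (f : ι → ℝ) (hf : ∀ i, 0 < f i) : ∃ g, 0 < g ∧ ∀ i, g ≤ f i := by
  have h0 : 0 ≤ ∑ i, (f i)⁻¹ := Finset.sum_nonneg fun i _ => (inv_pos.2 (hf i)).le
  refine ⟨(∑ i, (f i)⁻¹ + 1)⁻¹, by positivity, fun i => ?_⟩
  have h1 : (f i)⁻¹ ≤ ∑ i, (f i)⁻¹ :=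
    Finset.single_le_sum (f := fun i => (f i)⁻¹) (fun i _ => (inv_pos.2 (hf i)).le)
      (Finset.mem_univ i)
  rw [inv_le_comm₀ (by positivity) (hf i)]
  linarith

/-- the derivatives of the phase -/
lemma hPh {D : ℕ} (e lam : Fin D → ℝ) {t : ℝ} (ht : 0 < t) :
    HasDerivAt (fun t : ℝ => ∑ d, lam d * t ^ (e d)) (∑ d, lam d * (e d * t ^ (e d - 1))) t := by
  refine HasDerivAt.fun_sum fun d _ => ?_
  exact (Real.hasDerivAt_rpow_const (Or.inl ht.ne')).const_mul (lam d)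

lemma hPh1 {D : ℕ} (e lam : Fin D → ℝ) {t : ℝ} (ht : 0 < t) :
    HasDerivAt (fun t : ℝ => ∑ d, lam d * (e d * t ^ (e d - 1)))
      (∑ d, lam d * (e d * ((e d - 1) * t ^ (e d - 1 - 1)))) t := by
  refine HasDerivAt.fun_sum fun d _ => ?_
  exact ((Real.hasDerivAt_rpow_const (Or.inl ht.ne')).const_mul (e d)).const_mul (lam d)

lemma pow_ratio {T t y : ℝ} (hT : 0 < T) (h1 : T ≤ t) (h2 : t ≤ 2 * T) (hy : y ≤ 1) :
    t ^ y ≤ 2 * T ^ y := by
  have ht : 0 < t := by linarith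
  have hTy : 0 < T ^ y := Real.rpow_pos_of_pos hT y
  rcases le_total y 0 with h | h
  · have := Real.rpow_le_rpow_of_nonpos hT h1 h
    linarith
  · calc t ^ y ≤ (2 * T) ^ y := Real.rpow_le_rpow ht.le h2 h
      _ = 2 ^ y * T ^ y := Real.mul_rpow (by norm_num) hT.le
      _ ≤ 2 ^ (1:ℝ) * T ^ y := by
          gcongr
          · norm_num
      _ = 2 * T ^ y := by rw [Real.rpow_one]

/-- the leading term dominates -/
lemma lead {D : ℕ} (e lam : Fin D → ℝ) (he : ∀ d, 0 < e d) {g σ T t : ℝ} (hσ : 0 < σ)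
    (hg : ∀ d' d, d' < d → g ≤ e d - e d') (hT : 1 ≤ T) (ht : T ≤ t) (d₀ : Fin D)
    (hl0 : T ^ (-σ) ≤ |lam d₀|) (hl : ∀ d, |lam d| ≤ T ^ σ) (hz : ∀ d, d₀ < d → lam d = 0)
    (hmono : StrictMono e) (hTg : 2 * (D : ℝ) ≤ T ^ (g - 2 * σ)) (hg0 : 0 < g) :
    e d₀ / 2 * T ^ (-σ) * t ^ (e d₀ - 1) ≤ |∑ d, lam d * (e d * t ^ (e d - 1))| := by
  have hT0 : 0 < T := by linarith
  have ht1 : 1 ≤ t := hT.trans ht
  have ht0 : 0 < t := by linarith
  have hpt : 0 < t ^ (e d₀ - 1) := Real.rpow_pos_of_pos ht0 _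
  have hpT : 0 < T ^ σ := Real.rpow_pos_of_pos hT0 _
  rw [← Finset.add_sum_erase _ _ (Finset.mem_univ d₀)]
  have h1 : T ^ (-σ) * (e d₀ * t ^ (e d₀ - 1)) ≤ |lam d₀ * (e d₀ * t ^ (e d₀ - 1))| := by
    rw [abs_mul, abs_of_pos (mul_pos (he d₀) hpt)]
    exact mul_le_mul_of_nonneg_right hl0 (mul_pos (he d₀) hpt).le
  have h2 : |∑ d ∈ Finset.univ.erase d₀, lam d * (e d * t ^ (e d - 1))| ≤
      D * (T ^ σ * (e d₀ * (t ^ (e d₀ - 1) * T ^ (-g)))) := by
    refine (Finset.abs_sum_le_sum_abs _ _).trans ?_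
    have h3 : ∀ d ∈ Finset.univ.erase d₀, |lam d * (e d * t ^ (e d - 1))| ≤
        T ^ σ * (e d₀ * (t ^ (e d₀ - 1) * T ^ (-g))) := by
      intro d hd
      have hne : d ≠ d₀ := (Finset.mem_erase.1 hd).1
      have hTg0 : 0 < T ^ (-g) := Real.rpow_pos_of_pos hT0 _
      rcases lt_or_gt_of_ne hne with h | h
      · rw [abs_mul, abs_of_pos (mul_pos (he d) (Real.rpow_pos_of_pos ht0 _))]
        have h4 : t ^ (e d - 1) ≤ t ^ (e d₀ - 1) * T ^ (-g) := by
          calc t ^ (e d - 1) ≤ t ^ ((e d₀ - 1) + (-g)) :=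
                Real.rpow_le_rpow_of_exponent_le ht1 (by linarith [hg d d₀ h])
            _ = t ^ (e d₀ - 1) * t ^ (-g) := Real.rpow_add ht0 _ _
            _ ≤ t ^ (e d₀ - 1) * T ^ (-g) := by
                refine mul_le_mul_of_nonneg_left ?_ hpt.le
                exact Real.rpow_le_rpow_of_nonpos hT0 ht (by linarith)
        refine mul_le_mul (hl d) ?_ (mul_pos (he d) (Real.rpow_pos_of_pos ht0 _)).le hpT.le
        exact mul_le_mul (hmono h).le h4 (Real.rpow_pos_of_pos ht0 _).le (he d₀).le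
      · rw [hz d h, zero_mul, abs_zero]
        have := he d₀
        positivity
    refine (Finset.sum_le_sum h3).trans ?_
    rw [Finset.sum_const, nsmul_eq_mul]
    refine mul_le_mul_of_nonneg_right ?_ ?_
    · have : (Finset.univ.erase d₀).card ≤ D := by
        refine (Finset.card_le_card (Finset.erase_subset _ _)).trans ?_
        simp
      exact_mod_cast this
    · have := he d₀
      have hTg0 : 0 < T ^ (-g) := Real.rpow_pos_of_pos hT0 _
      positivity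
  have h5 : D * (T ^ σ * (e d₀ * (t ^ (e d₀ - 1) * T ^ (-g)))) ≤
      1 / 2 * (T ^ (-σ) * (e d₀ * t ^ (e d₀ - 1))) := by
    have h6 : 2 * (D : ℝ) * (T ^ σ * T ^ (-g)) ≤ T ^ (-σ) := by
      have e1 : T ^ (-σ) = T ^ (g - 2 * σ) * (T ^ σ * T ^ (-g)) := by
        rw [← Real.rpow_add hT0, ← Real.rpow_add hT0]
        congr 1
        ring
      rw [e1]
      refine mul_le_mul_of_nonneg_right hTg ?_
      have hTg0 : 0 < T ^ (-g) := Real.rpow_pos_of_pos hT0 _
      positivity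
    have h7 : 0 < e d₀ * t ^ (e d₀ - 1) := mul_pos (he d₀) hpt
    calc D * (T ^ σ * (e d₀ * (t ^ (e d₀ - 1) * T ^ (-g)))) =
        1 / 2 * ((2 * (D : ℝ) * (T ^ σ * T ^ (-g))) * (e d₀ * t ^ (e d₀ - 1))) := by ring
      _ ≤ 1 / 2 * (T ^ (-σ) * (e d₀ * t ^ (e d₀ - 1))) := by gcongr
  have h8 : ∀ x y : ℝ, |x| - |y| ≤ |x + y| := by
    intro x y
    have := abs_sub_abs_le_abs_sub x (-y)
    rw [abs_neg, sub_neg_eq_add] at this
    exact this
  have h9 := h8 (lam d₀ * (e d₀ * t ^ (e d₀ - 1)))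
    (∑ d ∈ Finset.univ.erase d₀, lam d * (e d * t ^ (e d - 1)))
  have h10 : e d₀ / 2 * T ^ (-σ) * t ^ (e d₀ - 1) =
      T ^ (-σ) * (e d₀ * t ^ (e d₀ - 1)) - 1 / 2 * (T ^ (-σ) * (e d₀ * t ^ (e d₀ - 1))) := by ring
  rw [h10]
  linarith

/-- the second derivative -/
lemma second {D : ℕ} (e lam : Fin D → ℝ) (he : ∀ d, 0 < e d) {σ T t : ℝ}
    (hT : 1 ≤ T) (ht : T ≤ t) (d₀ : Fin D)
    (hl : ∀ d, |lam d| ≤ T ^ σ) (hz : ∀ d, d₀ < d → lam d = 0) (hmono : StrictMono e) :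
    |∑ d, lam d * (e d * ((e d - 1) * t ^ (e d - 1 - 1)))| ≤
      (∑ d, e d * (e d + 1)) * (T ^ σ * t ^ (e d₀ - 2)) := by
  have hT0 : 0 < T := by linarith
  have ht1 : 1 ≤ t := hT.trans ht
  have ht0 : 0 < t := by linarith
  have hpT : 0 < T ^ σ := Real.rpow_pos_of_pos hT0 _
  have hpt : 0 < t ^ (e d₀ - 2) := Real.rpow_pos_of_pos ht0 _
  refine (Finset.abs_sum_le_sum_abs _ _).trans ?_
  rw [Finset.sum_mul]
  refine Finset.sum_le_sum fun d _ => ?_
  rcases lt_or_ge d₀ d with h | h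
  · rw [hz d h, zero_mul, abs_zero]
    have := he d
    positivity
  · rw [abs_mul, abs_mul, abs_mul, abs_of_pos (he d), abs_of_pos (Real.rpow_pos_of_pos ht0 _)]
    have h1 : |e d - 1| ≤ e d + 1 := by
      have := he d
      rw [abs_le]
      constructor <;> linarith
    have h2 : t ^ (e d - 1 - 1) ≤ t ^ (e d₀ - 2) :=
      Real.rpow_le_rpow_of_exponent_le ht1 (by linarith [hmono.monotone h])
    have h3 : 0 ≤ e d := (he d).le
    calc |lam d| * (e d * (|e d - 1| * t ^ (e d - 1 - 1))) ≤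
        T ^ σ * (e d * ((e d + 1) * t ^ (e d₀ - 2))) := by
          have h4 := Real.rpow_pos_of_pos ht0 (e d - 1 - 1)
          gcongr
          exact hl d
      _ = e d * (e d + 1) * (T ^ σ * t ^ (e d₀ - 2)) := by ring

theorem osr : S_OSR := by
  intro D e he hmono
  obtain ⟨η, hη, hηe⟩ := lowpos e he
  obtain ⟨g, hg, hgp⟩ := lowpos (ι := Fin D × Fin D)
    (fun p => if p.1 < p.2 then e p.2 - e p.1 else 1) (fun p => by
      split_ifs with h
      · exact sub_pos.2 (hmono h)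
      · exact one_pos)
  have hgap : ∀ d' d, d' < d → g ≤ e d - e d' := by
    intro d' d h
    have := hgp (d', d)
    simp only [h, if_true] at this
    exact this
  set E : ℝ := ∑ d, e d * (e d + 1) with hE
  have hE0 : 0 ≤ E := Finset.sum_nonneg fun d _ => by have := he d; positivity
  set K0 : ℝ := 8 / η + 4 * E / η ^ 2 with hK0
  have hK00 : 0 < K0 := by positivity
  set σ : ℝ := min g η / 8 with hσd
  have hσ : 0 < σ := by have := lt_min hg hη; positivity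
  have hσg : 8 * σ ≤ g := by rw [hσd]; linarith [min_le_left g η]
  have hση : 8 * σ ≤ η := by rw [hσd]; linarith [min_le_right g η]
  obtain ⟨T1, hT1⟩ := eventually_atTop.1 ((tendsto_rpow_atTop (show 0 < g - 2 * σ by linarith)
    ).eventually_ge_atTop (2 * (D : ℝ)))
  obtain ⟨T2, hT2⟩ := eventually_atTop.1 ((tendsto_rpow_atTop (show 0 < η / 2 by linarith)
    ).eventually_ge_atTop K0)
  refine ⟨σ, max 1 (max T1 T2), hσ, le_max_left _ _, ?_⟩
  intro T hT lam hne hlo hup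
  have hT1' : 1 ≤ T := (le_max_left _ _).trans hT
  have hTg := hT1 T ((le_max_left _ _).trans ((le_max_right _ _).trans hT))
  have hTη := hT2 T ((le_max_right _ _).trans ((le_max_right _ _).trans hT))
  have hT0 : 0 < T := by linarith
  obtain ⟨d₀, hd₀, hmax⟩ : ∃ d₀, lam d₀ ≠ 0 ∧ ∀ d, d₀ < d → lam d = 0 := by
    classical
    have hS : (Finset.univ.filter fun d => lam d ≠ 0).Nonempty := by
      obtain ⟨d, hd⟩ := hne
      exact ⟨d, Finset.mem_filter.2 ⟨Finset.mem_univ _, hd⟩⟩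
    refine ⟨_, (Finset.mem_filter.1 (Finset.max'_mem _ hS)).2, fun d hd => ?_⟩
    by_contra h
    exact absurd (Finset.le_max' _ d (Finset.mem_filter.2 ⟨Finset.mem_univ _, h⟩)) (not_le.2 hd)
  have hl0 : T ^ (-σ) ≤ |lam d₀| := (hlo d₀).resolve_left hd₀
  set e0 := e d₀ with he0
  have he0p : 0 < e0 := he d₀
  have hηe0 : η ≤ e0 := hηe d₀
  have hpos : ∀ t ∈ Icc T (2 * T), 0 < t := fun t ht => hT0.trans_le ht.1
  have hlead : ∀ t ∈ Icc T (2 * T), e0 / 2 * T ^ (-σ) * t ^ (e0 - 1) ≤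
      |∑ d, lam d * (e d * t ^ (e d - 1))| := fun t ht =>
    lead e lam he hσ hgap hT1' ht.1 d₀ hl0 hup hmax hmono hTg hg
  have hlpos : ∀ t ∈ Icc T (2 * T), 0 < e0 / 2 * T ^ (-σ) * t ^ (e0 - 1) := fun t ht => by
    have h1 := Real.rpow_pos_of_pos hT0 (-σ)
    have h2 := Real.rpow_pos_of_pos (hpos t ht) (e0 - 1)
    positivity
  have key := fdt T (2 * T) (4 / e0 * T ^ (1 + σ - e0)) (4 * E / e0 ^ 2 * T ^ (3 * σ - e0))
    (by linarith) (fun t : ℝ => ∑ d, lam d * t ^ (e d))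
    (fun t => ∑ d, lam d * (e d * t ^ (e d - 1)))
    (fun t => ∑ d, lam d * (e d * ((e d - 1) * t ^ (e d - 1 - 1))))
    (fun t ht => hPh e lam (hpos t ht)) (fun t ht => hPh1 e lam (hpos t ht))
    (by
      refine continuousOn_finsetSum _ fun d _ => ?_
      refine continuousOn_const.mul (continuousOn_const.mul (continuousOn_const.mul ?_))
      exact continuousOn_id.rpow_const fun t ht => Or.inl (hpos t ht).ne')
    (fun t ht h0 => by
      have h1 := hlead t ht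
      have h2 := hlpos t ht
      beta_reduce at h0
      rw [h0, abs_zero] at h1
      linarith)
    (fun t ht => by
      have h1 := hlead t ht
      have h2 := hlpos t ht
      rw [abs_inv]
      have h3 : |∑ d, lam d * (e d * t ^ (e d - 1))|⁻¹ ≤ (e0 / 2 * T ^ (-σ) * t ^ (e0 - 1))⁻¹ :=
        inv_anti₀ h2 h1
      refine h3.trans ?_
      have h4 : (e0 / 2 * T ^ (-σ) * t ^ (e0 - 1))⁻¹ = 2 / e0 * T ^ σ * t ^ (1 - e0) := by
        have a1 : (t ^ (e0 - 1))⁻¹ = t ^ (1 - e0) := by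
          rw [← Real.rpow_neg (hpos t ht).le]
          congr 1
          ring
        rw [mul_inv, mul_inv, a1, Real.rpow_neg hT0.le, inv_inv, inv_div]
      rw [h4]
      have h5 := pow_ratio hT0 ht.1 ht.2 (show 1 - e0 ≤ 1 by linarith)
      have h6 : T ^ (1 + σ - e0) = T ^ σ * T ^ (1 - e0) := by
        rw [← Real.rpow_add hT0]
        congr 1
        ring
      rw [h6]
      have h7 := Real.rpow_pos_of_pos hT0 σ
      calc 2 / e0 * T ^ σ * t ^ (1 - e0) ≤ 2 / e0 * T ^ σ * (2 * T ^ (1 - e0)) := by gcongr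
        _ = 4 / e0 * (T ^ σ * T ^ (1 - e0)) := by ring)
    (fun t ht => by
      have h1 := hlead t ht
      have h2 := hlpos t ht
      have h3 := second e lam he hT1' ht.1 d₀ hup hmax hmono
      have ht0 := hpos t ht
      rw [abs_div, abs_pow]
      have h4 : (e0 / 2 * T ^ (-σ) * t ^ (e0 - 1)) ^ 2 ≤ |∑ d, lam d * (e d * t ^ (e d - 1))| ^ 2 :=
        pow_le_pow_left₀ h2.le h1 2
      have h5 : |∑ d, lam d * (e d * ((e d - 1) * t ^ (e d - 1 - 1)))| /
          |∑ d, lam d * (e d * t ^ (e d - 1))| ^ 2 ≤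
          E * (T ^ σ * t ^ (e0 - 2)) / (e0 / 2 * T ^ (-σ) * t ^ (e0 - 1)) ^ 2 :=
        div_le_div₀ (by
          have a1 := Real.rpow_pos_of_pos hT0 σ
          have a2 := Real.rpow_pos_of_pos ht0 (e0 - 2)
          positivity) h3 (by positivity) h4
      refine h5.trans ?_
      have h6 : E * (T ^ σ * t ^ (e0 - 2)) / (e0 / 2 * T ^ (-σ) * t ^ (e0 - 1)) ^ 2 =
          4 * E / e0 ^ 2 * (T ^ (3 * σ) * t ^ (-e0)) := by
        have a1 : (T ^ (-σ)) ^ 2 = T ^ (-2 * σ) := by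
          rw [← Real.rpow_natCast, ← Real.rpow_mul hT0.le]
          congr 1
          push_cast
          ring
        have a2 : (t ^ (e0 - 1)) ^ 2 = t ^ (2 * e0 - 2) := by
          rw [← Real.rpow_natCast, ← Real.rpow_mul ht0.le]
          congr 1
          push_cast
          ring
        have a3 : T ^ σ = T ^ (3 * σ) * T ^ (-2 * σ) := by
          rw [← Real.rpow_add hT0]
          congr 1
          ring
        have a4 : t ^ (e0 - 2) = t ^ (-e0) * t ^ (2 * e0 - 2) := by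
          rw [← Real.rpow_add ht0]
          congr 1
          ring
        have b1 := Real.rpow_pos_of_pos hT0 (-2 * σ)
        have b2 := Real.rpow_pos_of_pos ht0 (2 * e0 - 2)
        rw [mul_pow, mul_pow, a1, a2, a3, a4]
        field_simp
        norm_num
      rw [h6]
      have h7 : T ^ (3 * σ - e0) = T ^ (3 * σ) * T ^ (-e0) := by
        rw [← Real.rpow_add hT0]
        congr 1
      rw [h7]
      have h8 : t ^ (-e0) ≤ T ^ (-e0) := Real.rpow_le_rpow_of_nonpos hT0 ht.1 (by linarith)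
      have h9 := Real.rpow_pos_of_pos hT0 (3 * σ)
      gcongr)
  refine key.trans ?_
  have e1 : 2 * T - T = T := by ring
  rw [e1]
  have c1 : T ^ (1 + σ - e0) ≤ T ^ (1 - e0 + 3 * σ) :=
    Real.rpow_le_rpow_of_exponent_le hT1' (by linarith)
  have c2 : T * T ^ (3 * σ - e0) = T ^ (1 - e0 + 3 * σ) := by
    nth_rewrite 1 [← Real.rpow_one T]
    rw [← Real.rpow_add hT0]
    congr 1
    ring
  have c3 : 0 < T ^ (1 - e0 + 3 * σ) := Real.rpow_pos_of_pos hT0 _
  have c4 : 8 / e0 ≤ 8 / η := by gcongr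
  have c5 : 4 * E / e0 ^ 2 ≤ 4 * E / η ^ 2 := by gcongr
  have c6 : K0 ≤ T ^ (e0 - 4 * σ) :=
    hTη.trans (Real.rpow_le_rpow_of_exponent_le hT1' (by linarith))
  calc 2 * (4 / e0 * T ^ (1 + σ - e0)) + T * (4 * E / e0 ^ 2 * T ^ (3 * σ - e0)) =
      8 / e0 * T ^ (1 + σ - e0) + 4 * E / e0 ^ 2 * (T * T ^ (3 * σ - e0)) := by ring
    _ ≤ 8 / η * T ^ (1 - e0 + 3 * σ) + 4 * E / η ^ 2 * T ^ (1 - e0 + 3 * σ) := by
        rw [c2]
        gcongr
    _ = K0 * T ^ (1 - e0 + 3 * σ) := by rw [hK0]; ring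
    _ ≤ T ^ (e0 - 4 * σ) * T ^ (1 - e0 + 3 * σ) := by gcongr
    _ = T ^ (1 - σ) := by
        rw [← Real.rpow_add hT0]
        congr 1
        ring

end OSRL

theorem t_OSR : S_OSR := OSRL.osr

end Pool.Agent.H203.GE
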