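import Pool.Agent.H203.GE.Defs2
import Pool.Agent.H203.ME.ZER

set_option autoImplicit false
set_option linter.unusedVariables false

/-! Task TRG: from random zeros to random real numbers. -/

open Complex Filter Topology Set MeasureTheory

namespace Pool.Agent.H203.GE

open Pool.Agent.H203.ME

namespace TRGL

open Pool.Agent.H203.ME.ZERL (Ph ind_int Ph_cont Ph_sub Ph_mono Ph_le Ph_nonneg Ph_sub_eq Ph_shift
  dn dn_nonneg dn_int dn_mul_int dn_mul_int' dn_le dn_eq sum_ii)

/-- the passage from heights to points, general form -/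
theorem passG (Z : Finset ℂ) (m : ℂ → ℝ) (hm : ∀ z ∈ Z, 0 ≤ m z) (E : ℝ → ℂ) (Y : ℝ → ℝ)
    (a b s q : ℝ) (hab : a ≤ b) (hs : 0 < s) (hq : 0 ≤ q) (hE1 : ∀ t, ‖E t‖ ≤ 1)
    (hEc : ContinuousOn E (Icc a b)) (hY : ContinuousOn Y (Icc a b))
    (hinc0 : ∀ x y : ℝ, a ≤ x → x ≤ y → y ≤ b → ‖E y - E x‖ ≤ ∫ r in x..y, |Y r|) :
    ‖(s : ℂ) * (∑ z ∈ Z, (m z : ℂ) * E z.im) - (q : ℂ) * ∫ t in a..b, E t‖ ≤
    q * s * (∫ r in a..b, |Y r|) + 3 * (∫ t in a..b, |(∑ z ∈ Z, m z * dn s z.im t) - q|) +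
      2 * s * ∑ z ∈ Z.filter (fun z => ¬ (a + s ≤ z.im ∧ z.im ≤ b)), m z := by
  have hEi : IntervalIntegrable E volume a b := by
    apply ContinuousOn.intervalIntegrable
    rwa [uIcc_of_le hab]
  set W : ℝ → ℝ := fun t => Ph Y a b (t + s) - Ph Y a b t with hW
  have hPc := Ph_cont hY
  have hWc : Continuous W := by
    rw [hW]
    exact (hPc.comp (continuous_add_const s)).sub hPc
  have hW0 : ∀ t, 0 ≤ W t := fun t => sub_nonneg.2 (Ph_mono hY (by linarith))
  have hM : Continuous fun t => min 2 (W t) := continuous_const.min hWc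
  have hMi : IntervalIntegrable (fun t => min 2 (W t)) volume a b := hM.intervalIntegrable _ _
  -- the increments
  have hinc : ∀ t ∈ Icc a b, ∀ γ ≤ b, t ≤ γ → γ ≤ t + s → ‖E γ - E t‖ ≤ W t := by
    intro t ht γ hγ h1 h2
    refine (hinc0 t γ ht.1 h1 hγ).trans ?_
    rw [← Ph_sub_eq hY ht.1 h1 hγ]
    exact sub_le_sub_right (Ph_mono hY h2) _
  -- one point
  have hone : ∀ z ∈ Z, ‖(s : ℂ) * E z.im - ∫ t in a..b, (dn s z.im t : ℂ) * E t‖ ≤
      (∫ t in a..b, dn s z.im t * min 2 (W t)) +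
        2 * s * (if ¬ (a + s ≤ z.im ∧ z.im ≤ b) then 1 else 0) := by
    intro z hz
    have hpos : 0 ≤ ∫ t in a..b, dn s z.im t * min 2 (W t) :=
      intervalIntegral.integral_nonneg hab fun t _ =>
        mul_nonneg (dn_nonneg _ _ _) (le_min (by norm_num) (hW0 t))
    by_cases hgood : a + s ≤ z.im ∧ z.im ≤ b
    · rw [if_neg (not_not.2 hgood), mul_zero, add_zero]
      have h1 : (s : ℂ) * E z.im = ∫ t in a..b, (dn s z.im t : ℂ) * E z.im := by
        rw [intervalIntegral.integral_mul_const, intervalIntegral.integral_ofReal,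
          dn_eq s z.im hs.le hgood.1 hgood.2]
      rw [h1, ← intervalIntegral.integral_sub (dn_mul_int s z.im intervalIntegrable_const)
        (dn_mul_int s z.im hEi)]
      refine intervalIntegral.norm_integral_le_of_norm_le hab
        (Eventually.of_forall fun t ht => ?_) (dn_mul_int' s z.im hMi)
      rw [← mul_sub, norm_mul, Complex.norm_real, Real.norm_eq_abs, abs_of_nonneg (dn_nonneg _ _ _)]
      by_cases hmem : t ∈ Ico (z.im - s) z.im
      · refine mul_le_mul_of_nonneg_left (le_min ?_ ?_) (dn_nonneg _ _ _)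
        · have h2 := norm_sub_le (E z.im) (E t)
          have h3 := hE1 z.im
          have h4 := hE1 t
          linarith
        · exact hinc t ⟨ht.1.le, ht.2⟩ z.im hgood.2 hmem.2.le (by linarith [hmem.1])
      · unfold dn
        rw [indicator_of_notMem hmem, zero_mul, zero_mul]
    · rw [if_pos hgood, mul_one]
      have h1 : ‖(s : ℂ) * E z.im‖ ≤ s := by
        rw [norm_mul, Complex.norm_real, Real.norm_eq_abs, abs_of_pos hs]
        exact mul_le_of_le_one_right hs.le (hE1 _)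
      have h2 : ‖∫ t in a..b, (dn s z.im t : ℂ) * E t‖ ≤ ∫ t in a..b, dn s z.im t := by
        refine intervalIntegral.norm_integral_le_of_norm_le hab
          (Eventually.of_forall fun t ht => ?_) (dn_int s z.im a b)
        rw [norm_mul, Complex.norm_real, Real.norm_eq_abs,
          abs_of_nonneg (dn_nonneg _ _ _)]
        exact mul_le_of_le_one_right (dn_nonneg _ _ _) (hE1 _)
      have h3 := dn_le s z.im hs.le hab
      have h4 := norm_sub_le ((s : ℂ) * E z.im) (∫ t in a..b, (dn s z.im t : ℂ) * E t)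
      linarith
  -- the sum
  set n : ℝ → ℝ := fun t => ∑ z ∈ Z, m z * dn s z.im t with hn
  have hni : IntervalIntegrable n volume a b := by
    exact sum_ii Z (fun z t => m z * dn s z.im t) fun z _ => (dn_int s z.im a b).const_mul (m z)
  have hnE : ∫ t in a..b, (n t : ℂ) * E t = ∑ z ∈ Z, (m z : ℂ) * ∫ t in a..b, (dn s z.im t : ℂ) * E t := by
    have h1 : ∀ t, (n t : ℂ) * E t = ∑ z ∈ Z, (m z : ℂ) * ((dn s z.im t : ℂ) * E t) := by
      intro t
      rw [hn]
      push_cast
      rw [Finset.sum_mul]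
      exact Finset.sum_congr rfl fun z _ => by ring
    simp_rw [h1]
    rw [intervalIntegral.integral_finsetSum fun z _ => (dn_mul_int s z.im hEi).const_mul _]
    exact Finset.sum_congr rfl fun z _ => intervalIntegral.integral_const_mul _ _
  have hnM : ∫ t in a..b, n t * min 2 (W t) = ∑ z ∈ Z, m z * ∫ t in a..b, dn s z.im t * min 2 (W t) := by
    have h1 : ∀ t, n t * min 2 (W t) = ∑ z ∈ Z, m z * (dn s z.im t * min 2 (W t)) := by
      intro t
      rw [hn, Finset.sum_mul]
      exact Finset.sum_congr rfl fun z _ => by ring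
    simp_rw [h1]
    rw [intervalIntegral.integral_finsetSum fun z _ => (dn_mul_int' s z.im hMi).const_mul _]
    exact Finset.sum_congr rfl fun z _ => intervalIntegral.integral_const_mul _ _
  have hA : ‖(s : ℂ) * (∑ z ∈ Z, (m z : ℂ) * E z.im) - ∫ t in a..b, (n t : ℂ) * E t‖ ≤
      (∫ t in a..b, n t * min 2 (W t)) +
        2 * s * ∑ z ∈ Z.filter (fun z => ¬ (a + s ≤ z.im ∧ z.im ≤ b)), m z := by
    have h1 : (s : ℂ) * (∑ z ∈ Z, (m z : ℂ) * E z.im) - ∫ t in a..b, (n t : ℂ) * E t =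
        ∑ z ∈ Z, (m z : ℂ) * ((s : ℂ) * E z.im - ∫ t in a..b, (dn s z.im t : ℂ) * E t) := by
      rw [hnE, Finset.mul_sum, ← Finset.sum_sub_distrib]
      exact Finset.sum_congr rfl fun z _ => by ring
    rw [h1, hnM, Finset.sum_filter, Finset.mul_sum, ← Finset.sum_add_distrib]
    refine (norm_sum_le _ _).trans (Finset.sum_le_sum fun z hz => ?_)
    rw [norm_mul, Complex.norm_real, Real.norm_eq_abs, abs_of_nonneg (hm z hz)]
    refine (mul_le_mul_of_nonneg_left (hone z hz) (hm z hz)).trans (le_of_eq ?_)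
    split_ifs <;> ring
  have hDi : IntervalIntegrable (fun t => |n t - q|) volume a b :=
    (hni.sub intervalIntegrable_const).abs
  have hB : ∫ t in a..b, n t * min 2 (W t) ≤
      q * s * (∫ r in a..b, |Y r|) + 2 * ∫ t in a..b, |n t - q| := by
    have hnMi : IntervalIntegrable (fun t => n t * min 2 (W t)) volume a b := by
      have h1 : (fun t => n t * min 2 (W t)) = fun t => ∑ z ∈ Z, m z * (dn s z.im t * min 2 (W t)) := by
        funext t
        rw [hn, Finset.sum_mul]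
        exact Finset.sum_congr rfl fun z _ => by ring
      rw [h1]
      exact sum_ii Z _ fun z _ => (dn_mul_int' s z.im hMi).const_mul _
    have h1 : ∫ t in a..b, n t * min 2 (W t) ≤ ∫ t in a..b, (q * W t + 2 * |n t - q|) := by
      refine intervalIntegral.integral_mono_on hab hnMi
        (((hWc.intervalIntegrable a b).const_mul q).add (hDi.const_mul 2)) fun t _ => ?_
      have h2 : 0 ≤ min 2 (W t) := le_min (by norm_num) (hW0 t)
      have h3 : min 2 (W t) ≤ 2 := min_le_left _ _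
      have h4 : min 2 (W t) ≤ W t := min_le_right _ _
      have h5 : n t - q ≤ |n t - q| := le_abs_self _
      have h6 : 0 ≤ |n t - q| := abs_nonneg _
      calc n t * min 2 (W t) = q * min 2 (W t) + (n t - q) * min 2 (W t) := by ring
        _ ≤ q * W t + |n t - q| * 2 := by
            refine add_le_add (mul_le_mul_of_nonneg_left h4 hq) ?_
            exact (mul_le_mul_of_nonneg_right h5 h2).trans (mul_le_mul_of_nonneg_left h3 h6)
        _ = _ := by ring
    refine h1.trans ?_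
    rw [intervalIntegral.integral_add ((hWc.intervalIntegrable a b).const_mul q) (hDi.const_mul 2),
      intervalIntegral.integral_const_mul]
    have h2i : ∫ t in a..b, 2 * |n t - q| = 2 * ∫ t in a..b, |n t - q| :=
      intervalIntegral.integral_const_mul _ _
    rw [h2i]
    have h7 : ∫ t in a..b, W t ≤ s * ∫ r in a..b, |Y r| := Ph_shift hY hab hs.le
    have h8 : q * (∫ t in a..b, W t) ≤ q * (s * ∫ r in a..b, |Y r|) :=
      mul_le_mul_of_nonneg_left h7 hq
    have h9 : q * (s * ∫ r in a..b, |Y r|) = q * s * (∫ r in a..b, |Y r|) := by ring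
    linarith
  have hC : ‖(∫ t in a..b, (n t : ℂ) * E t) - (q : ℂ) * ∫ t in a..b, E t‖ ≤
      ∫ t in a..b, |n t - q| := by
    have hnEi : IntervalIntegrable (fun t => (n t : ℂ) * E t) volume a b := by
      have h1 : (fun t => (n t : ℂ) * E t) = fun t => ∑ z ∈ Z, (m z : ℂ) * ((dn s z.im t : ℂ) * E t) := by
        funext t
        rw [hn]
        push_cast
        rw [Finset.sum_mul]
        exact Finset.sum_congr rfl fun z _ => by ring
      rw [h1]
      exact sum_ii Z _ fun z _ => (dn_mul_int s z.im hEi).const_mul _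
    rw [← intervalIntegral.integral_const_mul, ← intervalIntegral.integral_sub hnEi (hEi.const_mul _)]
    refine intervalIntegral.norm_integral_le_of_norm_le hab (Eventually.of_forall fun t _ => ?_) hDi
    rw [← sub_mul, norm_mul, ← Complex.ofReal_sub, Complex.norm_real, Real.norm_eq_abs]
    exact mul_le_of_le_one_right (abs_nonneg _) (hE1 _)
  have hfin := norm_sub_le_norm_sub_add_norm_sub ((s : ℂ) * (∑ z ∈ Z, (m z : ℂ) * E z.im))
    (∫ t in a..b, (n t : ℂ) * E t) ((q : ℂ) * ∫ t in a..b, E t)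
  refine hfin.trans ?_
  linarith

/-! ### counting the zeros near the ends -/

lemma NN_le {G : ℂ → ℂ} (hG : H370.GoodL G) {C : ℝ} (hC : 0 < C)
    (hz : ∀ t : ℝ, 3 ≤ t → (H370.NN G (t - 1) (t + 1) : ℝ) ≤ C * Real.log t) (x : ℝ) (hx : 3 ≤ x)
    (n : ℕ) : (H370.NN G x (x + 2 * n) : ℝ) ≤ n * (C * Real.log (x + 2 * n)) := by
  induction n with
  | zero =>
    have h1 : H370.NN G x (x + 2 * (0 : ℕ)) = 0 := by
      rw [H370.NN_eq hG (by linarith)]
      refine Finset.sum_eq_zero fun s hs => ?_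
      have h2 := (H370.mem_Zf hG (by linarith)).1 hs
      have h3 := h2.2.2.1
      have h4 := h2.2.2.2.1
      simp only [Nat.cast_zero, mul_zero, add_zero] at h4
      exact absurd h3 (not_lt.2 h4)
    rw [h1]
    simp
  | succ n ih =>
    have hn : (0 : ℝ) ≤ n := Nat.cast_nonneg n
    have h1 := H370.NN_add hG (a := x) (b := x + 2 * n) (c := x + 2 * ((n + 1 : ℕ) : ℝ))
      (by linarith) (by linarith) (by push_cast; linarith)
    rw [h1]
    have h2 := hz (x + 2 * n + 1) (by linarith)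
    have e1 : x + 2 * (n : ℝ) + 1 - 1 = x + 2 * n := by ring
    have e2 : x + 2 * (n : ℝ) + 1 + 1 = x + 2 * ((n + 1 : ℕ) : ℝ) := by push_cast; ring
    rw [e1, e2] at h2
    have h3 : Real.log (x + 2 * n) ≤ Real.log (x + 2 * ((n + 1 : ℕ) : ℝ)) :=
      Real.log_le_log (by linarith) (by push_cast; linarith)
    have h4 : Real.log (x + 2 * n + 1) ≤ Real.log (x + 2 * ((n + 1 : ℕ) : ℝ)) :=
      Real.log_le_log (by linarith) (by push_cast; linarith)
    have h5 : (n : ℝ) * (C * Real.log (x + 2 * n)) ≤ n * (C * Real.log (x + 2 * ((n + 1 : ℕ) : ℝ))) := by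
      gcongr
    have h6 : C * Real.log (x + 2 * n + 1) ≤ C * Real.log (x + 2 * ((n + 1 : ℕ) : ℝ)) := by
      gcongr
    push_cast at *
    linarith

/-- the zeros near the ends of the window -/
lemma bad_le {G : ℂ → ℂ} (hG : H370.GoodL G) : ∃ C : ℝ, 0 < C ∧ ∀ T s : ℝ, 100 ≤ T → 0 < s → s ≤ 1 →
    ∑ z ∈ (H370.Zf G T (2 * T)).filter
      (fun z => ¬ (T + 2 * Real.log T + s ≤ z.im ∧ z.im ≤ 2 * T - 2 * Real.log T)), (H370.mult G z : ℝ) ≤
      C * Real.log T ^ 2 := by
  obtain ⟨C, hC, hz⟩ := H370.zcount hG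
  refine ⟨12 * C, by positivity, fun T s hT hs hs1 => ?_⟩
  set L := Real.log T with hL
  have hL1 : 1 ≤ L := by
    rw [hL, Real.le_log_iff_exp_le (by linarith)]
    linarith [Real.exp_one_lt_d9]
  have hLT : 4 * L ≤ T := by
    have h1 : Real.log (T / 16) ≤ T / 16 - 1 := Real.log_le_sub_one_of_pos (by linarith)
    rw [Real.log_div (by linarith) (by norm_num), ← hL] at h1
    have h2 : Real.log 16 ≤ 3 := by
      have h3 : (16 : ℝ) = 2 ^ 4 := by norm_num
      rw [h3, Real.log_pow]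
      have := Real.log_two_lt_d9
      push_cast
      linarith
    linarith
  -- the zeros counted twice
  have hsub : ∑ z ∈ (H370.Zf G T (2 * T)).filter
      (fun z => ¬ (T + 2 * L + s ≤ z.im ∧ z.im ≤ 2 * T - 2 * L)), (H370.mult G z : ℝ) ≤
      (H370.NN G T (T + 2 * L + 1) : ℝ) + H370.NN G (2 * T - 2 * L) (2 * T) := by
    rw [H370.NN_eq hG (show (1 : ℝ) ≤ T by linarith),
      H370.NN_eq hG (show (1 : ℝ) ≤ 2 * T - 2 * L by linarith)]
    push_cast
    rw [← Finset.sum_filter_add_sum_filter_not _ (fun z : ℂ => z.im ≤ T + 2 * L + 1)]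
    refine add_le_add (Finset.sum_le_sum_of_subset_of_nonneg ?_ fun _ _ _ => Nat.cast_nonneg _)
      (Finset.sum_le_sum_of_subset_of_nonneg ?_ fun _ _ _ => Nat.cast_nonneg _)
    · intro z hz'
      rw [Finset.mem_filter, Finset.mem_filter, H370.mem_Zf hG (by linarith)] at hz'
      rw [H370.mem_Zf hG (by linarith)]
      obtain ⟨⟨h1, _⟩, h2⟩ := hz'
      exact ⟨h1.1, h1.2.1, h1.2.2.1, h2, h1.2.2.2.2⟩
    · intro z hz'
      rw [Finset.mem_filter, Finset.mem_filter, H370.mem_Zf hG (by linarith)] at hz'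
      rw [H370.mem_Zf hG (by linarith)]
      obtain ⟨⟨h1, h3⟩, h2⟩ := hz'
      refine ⟨h1.1, h1.2.1, ?_, h1.2.2.2.1, h1.2.2.2.2⟩
      by_contra h4
      exact h3 ⟨by linarith, not_lt.1 h4⟩
  obtain ⟨n, hn1, hn2⟩ : ∃ n : ℕ, L + 1 ≤ n ∧ (n : ℝ) ≤ L + 2 :=
    ⟨⌈L + 1⌉₊, Nat.le_ceil _, by linarith [Nat.ceil_lt_add_one (show 0 ≤ L + 1 by linarith)]⟩
  have hlog : ∀ x : ℝ, 3 ≤ x → x ≤ 2 * T → Real.log (x + 2 * n) ≤ 2 * L := by
    intro x hx hx2
    have h1 : Real.log (x + 2 * n) ≤ Real.log (T ^ 2) := by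
      refine Real.log_le_log (by have : (0 : ℝ) ≤ n := Nat.cast_nonneg n
                                 linarith) ?_
      nlinarith
    rw [Real.log_pow] at h1
    exact_mod_cast h1
  have hcnt : ∀ x : ℝ, 3 ≤ x → x ≤ 2 * T →
      (H370.NN G x (x + 2 * n) : ℝ) ≤ (L + 2) * (C * (2 * L)) := by
    intro x hx hx2
    refine (NN_le hG hC hz x hx n).trans ?_
    have h1 := hlog x hx hx2
    have h2 : 0 ≤ Real.log (x + 2 * n) := Real.log_nonneg (by
      have : (0 : ℝ) ≤ n := Nat.cast_nonneg n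
      linarith)
    gcongr
  have h1 : (H370.NN G T (T + 2 * L + 1) : ℝ) ≤ (L + 2) * (C * (2 * L)) := by
    refine le_trans ?_ (hcnt T (by linarith) (by linarith))
    exact Nat.cast_le.2 (H370.NN_mono hG (by linarith) le_rfl (by linarith))
  have h2 : (H370.NN G (2 * T - 2 * L) (2 * T) : ℝ) ≤ (L + 2) * (C * (2 * L)) := by
    refine le_trans ?_ (hcnt (2 * T - 2 * L) (by linarith) (by linarith))
    exact Nat.cast_le.2 (H370.NN_mono hG (by linarith) le_rfl (by linarith))
  refine hsub.trans ?_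
  nlinarith [mul_pos hC (show 0 < L by linarith)]

/-! ### the measures -/

lemma cntG_eq (G : ℂ → ℂ) (T s t : ℝ) : cnG G T t (t + s) =
    ∑ z ∈ H370.Zf G T (2 * T), (H370.mult G z : ℝ) * dn s z.im t := by
  unfold cnG dn
  refine Finset.sum_congr rfl fun z _ => ?_
  congr 1
  by_cases h : z.im ∈ Ioc t (t + s)
  · rw [indicator_of_mem h, indicator_of_mem (show t ∈ Ico (z.im - s) z.im from
      ⟨by linarith [h.2], h.1⟩)]
  · rw [indicator_of_notMem h, indicator_of_notMem (show ¬ t ∈ Ico (z.im - s) z.im from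
      fun h' => h ⟨h'.2, by linarith [h'.1]⟩)]

lemma mT_int {T : ℝ} (hT : 0 < T) (Φ : ℝ → ℂ) :
    ∫ t, Φ t ∂(mT T) = (1 / T : ℂ) * ∫ t in T..(2 * T), Φ t := by
  unfold mT
  rw [integral_smul_measure, intervalIntegral.integral_of_le (by linarith), ENNReal.toReal_inv,
    ENNReal.toReal_ofReal hT.le, Complex.real_smul]
  push_cast
  rw [one_div]

lemma NN_cast {G : ℂ → ℂ} (hG : H370.GoodL G) {T : ℝ} (hT : 1 ≤ T) :
    (H370.NN G T (2 * T) : ℝ) = ∑ z ∈ H370.Zf G T (2 * T), (H370.mult G z : ℝ) := by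
  rw [H370.NN_eq hG hT]
  push_cast
  rfl

lemma mZ_int {G : ℂ → ℂ} (T : ℝ) (Φ : ℝ → ℂ) :
    ∫ t, Φ t ∂(mZ G T) = (1 / (H370.NN G T (2 * T) : ℂ)) *
      ∑ z ∈ H370.Zf G T (2 * T), ((H370.mult G z : ℝ) : ℂ) * Φ z.im := by
  unfold mZ
  rw [integral_finsetSum_measure]
  · rw [Finset.mul_sum]
    refine Finset.sum_congr rfl fun z _ => ?_
    rw [integral_smul_measure, integral_dirac, ENNReal.toReal_ofReal (by positivity),
      Complex.real_smul]
    push_cast
    ring
  · intro z _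
    exact (integrable_dirac (by simp)).smul_measure ENNReal.ofReal_ne_top

lemma mZ_prob {G : ℂ → ℂ} (hG : H370.GoodL G) {T : ℝ} (hT : 1 ≤ T)
    (hN : 0 < (H370.NN G T (2 * T) : ℝ)) : IsProbabilityMeasure (mZ G T) := by
  constructor
  unfold mZ
  rw [Measure.finsetSum_apply]
  have h1 : ∀ z ∈ H370.Zf G T (2 * T), (ENNReal.ofReal ((H370.mult G z : ℝ) /
      (H370.NN G T (2 * T) : ℝ)) • Measure.dirac z.im) Set.univ =
      ENNReal.ofReal ((H370.mult G z : ℝ) / (H370.NN G T (2 * T) : ℝ)) := by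
    intro z _
    rw [Measure.smul_apply, measure_univ, smul_eq_mul, mul_one]
  rw [Finset.sum_congr rfl h1, ← ENNReal.ofReal_sum_of_nonneg fun z _ => by positivity,
    ← Finset.sum_div, ← NN_cast hG hT, div_self hN.ne', ENNReal.ofReal_one]

lemma mZ_supp {G : ℂ → ℂ} (hG : H370.GoodL G) {T : ℝ} (hT : 1 ≤ T) :
    mZ G T (Icc T (2 * T))ᶜ = 0 := by
  unfold mZ
  rw [Measure.finsetSum_apply]
  refine Finset.sum_eq_zero fun z hz => ?_
  have h2 := (H370.mem_Zf hG hT).1 hz
  rw [Measure.smul_apply, Measure.dirac_apply' _ measurableSet_Icc.compl,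
    indicator_of_notMem, smul_zero]
  intro h3
  exact h3 ⟨h2.2.2.1.le, h2.2.2.2.1⟩

end TRGL

open TRGL in
open Pool.Agent.H203.ME.ZERL (dn) in
theorem t_TRG (hL : S_LLG) : S_TRG := by
  intro G u hG ε hε
  obtain ⟨CB, hCB, hbad⟩ := bad_le hG.good
  obtain ⟨CN, TN, hCN, hTN, hNN⟩ := H370.nn_asymp hG.good
  obtain ⟨ε', hε'⟩ : ∃ ε' : ℝ, ε' = ε / 200 := ⟨_, rfl⟩
  have hε'0 : 0 < ε' := by rw [hε']; positivity
  obtain ⟨K, TL, hK, hTL, hN⟩ := hL G u hG ε' hε'0
  have hev : ∀ᶠ T : ℝ in atTop, TN ≤ T ∧ TL ≤ T ∧ 100 ≤ T ∧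
      (2 * CB + 4) * Real.log T ≤ ε' * T ∧ CN ≤ ε' * Real.log T ∧ 16 * CN ≤ Real.log T := by
    refine (eventually_ge_atTop TN).and ((eventually_ge_atTop TL).and
      ((eventually_ge_atTop 100).and (Eventually.and ?_ (Eventually.and ?_ ?_))))
    · have h1 := Real.isLittleO_log_id_atTop.bound (show 0 < ε' / (2 * CB + 4) by positivity)
      filter_upwards [h1, eventually_ge_atTop (1 : ℝ)] with T h1 h2
      rw [Real.norm_eq_abs, abs_of_nonneg (Real.log_nonneg h2)] at h1
      simp only [id, Real.norm_eq_abs] at h1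
      rw [abs_of_nonneg (by linarith)] at h1
      calc (2 * CB + 4) * Real.log T ≤ (2 * CB + 4) * (ε' / (2 * CB + 4) * T) := by gcongr
        _ = _ := by field_simp
    · have h1 := Real.tendsto_log_atTop.eventually (eventually_ge_atTop (CN / ε'))
      filter_upwards [h1] with T h1
      rw [div_le_iff₀ (by positivity)] at h1
      linarith
    · exact Real.tendsto_log_atTop.eventually (eventually_ge_atTop (16 * CN))
  obtain ⟨T1, hT1⟩ := eventually_atTop.1 hev
  refine ⟨K, max T1 10, hK, le_max_right _ _, fun T hT => ?_⟩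
  obtain ⟨hTN', hTL', hT100, hB1, hB2, hB3⟩ := hT1 T ((le_max_left _ _).trans hT)
  set L := Real.log T with hLdef
  have hT0 : 0 < T := by linarith
  have hL1 : 1 ≤ L := by
    rw [hLdef, Real.le_log_iff_exp_le (by linarith)]
    linarith [Real.exp_one_lt_d9]
  have hLT : 8 * L ≤ T := by
    have h1 : Real.log (T / 32) ≤ T / 32 - 1 := Real.log_le_sub_one_of_pos (by linarith)
    rw [Real.log_div (by linarith) (by norm_num), ← hLdef] at h1
    have h2 : Real.log 32 ≤ 4 := by
      have h3 : (32 : ℝ) = 2 ^ 5 := by norm_num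
      rw [h3, Real.log_pow]
      have := Real.log_two_lt_d9
      push_cast
      linarith
    nlinarith
  have hpi := Real.pi_gt_three
  have hpi4 := Real.pi_le_four
  obtain ⟨P, hP⟩ : ∃ P : ℝ, P = L / (2 * Real.pi) := ⟨_, rfl⟩
  have hP0 : 0 < P := by rw [hP]; positivity
  have hPL : P ≤ L := by rw [hP]; exact div_le_self (by linarith) (by linarith)
  have hPL8 : L ≤ 8 * P := by
    rw [hP, ← mul_div_assoc, le_div_iff₀ (by positivity)]
    nlinarith
  have hNN' : |(H370.NN G T (2 * T) : ℝ) - T * P| ≤ CN * T := by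
    have h1 := hNN T hTN' T (2 * T) le_rfl (by linarith) (by linarith) le_rfl
    have h2 : T * Real.log T / (2 * Real.pi) = T * P := by rw [hP]; ring
    rwa [h2] at h1
  obtain ⟨Q, hQ⟩ : ∃ Q : ℝ, Q = (H370.NN G T (2 * T) : ℝ) := ⟨_, rfl⟩
  have hQP : P * T / 2 ≤ Q := by
    have h1 := (abs_le.1 hNN').1
    rw [← hQ] at h1
    have h2 : CN * T ≤ P * T / 2 := by
      have h3 : CN ≤ P / 2 := by linarith
      calc CN * T ≤ P / 2 * T := by gcongr
        _ = _ := by ring
    linarith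
  have hQ0 : 0 < Q := lt_of_lt_of_le (by positivity) hQP
  refine ⟨mZ_prob hG.good (by linarith) (hQ ▸ hQ0), mZ_supp hG.good (by linarith), ?_⟩
  intro s hsL hsK Φ W hΦ1 hΦc hWc hW0 hΦW
  have hK0 : 0 < K := by linarith
  have hs0 : 0 < s := by
    by_contra h
    have h1 : s * L ≤ 0 := mul_nonpos_of_nonpos_of_nonneg (not_lt.1 h) (by linarith)
    linarith
  have hs1 : s ≤ 1 := hsK.trans (by rw [div_le_one hK0]; exact hK)
  set a := T + 2 * L with ha
  set b := 2 * T - 2 * L with hb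
  have hab : a ≤ b := by rw [ha, hb]; linarith
  have hTa : T ≤ a := by rw [ha]; linarith
  have hb2 : b ≤ 2 * T := by rw [hb]; linarith
  have hsub : Icc a b ⊆ Icc T (2 * T) := Icc_subset_Icc hTa hb2
  obtain ⟨q, hq⟩ : ∃ q : ℝ, q = s * P := ⟨_, rfl⟩
  have hq0 : 0 ≤ q := by rw [hq]; positivity
  have hqL : s * L / (2 * Real.pi) = q := by rw [hq, hP]; ring
  have hN' := hN T hTL' s hsL hsK
  have hbad' := hbad T s hT100 hs0 hs1
  rw [← hLdef, ← ha, ← hb] at hN' hbad'
  rw [hqL] at hN'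
  simp_rw [cntG_eq] at hN'
  have hp := passG (H370.Zf G T (2 * T)) (fun z => (H370.mult G z : ℝ)) (fun z _ => Nat.cast_nonneg _)
    Φ W a b s q hab hs0 hq0 hΦ1 (hΦc.mono hsub) (hWc.mono hsub) (by
      intro x y hx hxy hy
      refine (hΦW x y (hTa.trans hx) hxy (hy.trans hb2)).trans (le_of_eq ?_)
      exact intervalIntegral.integral_congr fun r _ => (abs_of_nonneg (hW0 r)).symm)
  obtain ⟨IW, hIW⟩ : ∃ IW : ℝ, IW = ∫ r in T..(2 * T), W r := ⟨_, rfl⟩
  have hWi : IntervalIntegrable W volume T (2 * T) := by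
    apply ContinuousOn.intervalIntegrable
    rwa [uIcc_of_le (by linarith)]
  have hWab : ∫ r in a..b, |W r| ≤ IW := by
    have h1 : ∫ r in a..b, |W r| = ∫ r in a..b, W r :=
      intervalIntegral.integral_congr fun r _ => abs_of_nonneg (hW0 r)
    rw [h1, hIW]
    exact intervalIntegral.integral_mono_interval hTa hab hb2
      (Eventually.of_forall fun r => hW0 r) hWi
  have hIW0 : 0 ≤ IW := by
    rw [hIW]
    exact intervalIntegral.integral_nonneg (by linarith) fun r _ => hW0 r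
  set SS : ℂ := ∑ z ∈ H370.Zf G T (2 * T), ((H370.mult G z : ℝ) : ℂ) * Φ z.im with hSS
  have hp' : ‖(s : ℂ) * SS - (q : ℂ) * ∫ t in a..b, Φ t‖ ≤
      q * s * IW + 3 * (ε' * s * L * T) + 2 * s * (CB * L ^ 2) := by
    refine hp.trans ?_
    gcongr
  -- the integral over the whole window
  have hii : ∀ x y : ℝ, T ≤ x → x ≤ y → y ≤ 2 * T → IntervalIntegrable Φ volume x y := by
    intro x y hx hxy hy
    apply ContinuousOn.intervalIntegrable
    rw [uIcc_of_le hxy]
    exact hΦc.mono (Icc_subset_Icc hx hy)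
  have hI : ‖(∫ t in a..b, Φ t) - ∫ t in T..(2 * T), Φ t‖ ≤ 4 * L := by
    have h3 : ∫ t in T..(2 * T), Φ t = (∫ t in T..a, Φ t) +
        (∫ t in a..b, Φ t) + ∫ t in b..(2 * T), Φ t := by
      rw [intervalIntegral.integral_add_adjacent_intervals (hii T a le_rfl hTa (by linarith))
        (hii a b hTa hab hb2), intervalIntegral.integral_add_adjacent_intervals
        (hii T b le_rfl (by linarith) hb2) (hii b (2 * T) (by linarith) hb2 le_rfl)]
    have h4 : ‖∫ t in T..a, Φ t‖ ≤ 2 * L := by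
      have := intervalIntegral.norm_integral_le_of_norm_le_const (a := T) (b := a)
        (f := Φ) (C := 1) (fun t _ => hΦ1 t)
      rw [abs_of_nonneg (by linarith)] at this
      linarith
    have h5 : ‖∫ t in b..(2 * T), Φ t‖ ≤ 2 * L := by
      have := intervalIntegral.norm_integral_le_of_norm_le_const (a := b) (b := 2 * T)
        (f := Φ) (C := 1) (fun t _ => hΦ1 t)
      rw [abs_of_nonneg (by linarith)] at this
      linarith
    have h6 : (∫ t in a..b, Φ t) - ∫ t in T..(2 * T), Φ t =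
        -(∫ t in T..a, Φ t) - ∫ t in b..(2 * T), Φ t := by
      rw [h3]; ring
    rw [h6]
    have h7 := norm_sub_le (-(∫ t in T..a, Φ t)) (∫ t in b..(2 * T), Φ t)
    rw [norm_neg] at h7
    linarith
  set J : ℂ := ∫ t in T..(2 * T), Φ t with hJ
  have hJT : ‖J‖ ≤ T := by
    have := intervalIntegral.norm_integral_le_of_norm_le_const (a := T) (b := 2 * T)
      (f := Φ) (C := 1) (fun t _ => hΦ1 t)
    rw [abs_of_nonneg (by linarith)] at this
    linarith
  -- division by `s`
  have hmain : ‖SS - (P : ℂ) * J‖ ≤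
      P * s * IW + 3 * (ε' * L * T) + 2 * (CB * L ^ 2) + P * (4 * L) := by
    have h1 : (s : ℂ) * (SS - (P : ℂ) * J) =
        ((s : ℂ) * SS - (q : ℂ) * ∫ t in a..b, Φ t) +
          (q : ℂ) * ((∫ t in a..b, Φ t) - J) := by
      rw [hq]
      push_cast
      ring
    have h2 : ‖(s : ℂ) * (SS - (P : ℂ) * J)‖ ≤
        s * (P * s * IW + 3 * (ε' * L * T) + 2 * (CB * L ^ 2) + P * (4 * L)) := by
      rw [h1]
      refine (norm_add_le _ _).trans ?_
      rw [norm_mul (q : ℂ), Complex.norm_real, Real.norm_eq_abs, abs_of_nonneg hq0]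
      have h3 : q * ‖(∫ t in a..b, Φ t) - J‖ ≤ q * (4 * L) := mul_le_mul_of_nonneg_left hI hq0
      have h4 : q * s * IW = s * (P * s * IW) := by rw [hq]; ring
      have h5 : q * (4 * L) = s * (P * (4 * L)) := by rw [hq]; ring
      calc _ ≤ (q * s * IW + 3 * (ε' * s * L * T) + 2 * s * (CB * L ^ 2)) + q * (4 * L) :=
            add_le_add hp' h3
        _ = _ := by rw [h4, h5]; ring
    rw [norm_mul, Complex.norm_real, Real.norm_eq_abs, abs_of_pos hs0] at h2
    exact le_of_mul_le_mul_left h2 hs0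
  -- division by the number of zeros
  have hNe : ‖(P : ℂ) * J - ((Q / T : ℝ) : ℂ) * J‖ ≤ CN * T := by
    rw [← sub_mul, norm_mul, ← Complex.ofReal_sub, Complex.norm_real, Real.norm_eq_abs]
    have h1 : P - Q / T = -((Q - T * P) / T) := by field_simp; ring
    rw [h1, abs_neg, abs_div, abs_of_pos hT0, hQ]
    calc |(H370.NN G T (2 * T) : ℝ) - T * P| / T * ‖J‖ ≤ (CN * T) / T * T := by gcongr
      _ = CN * T := by field_simp
  have hQc : ((H370.NN G T (2 * T) : ℕ) : ℂ) = (Q : ℂ) := by rw [hQ]; push_cast; rfl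
  have hQc0 : (Q : ℂ) ≠ 0 := by exact_mod_cast hQ0.ne'
  have hTc0 : (T : ℂ) ≠ 0 := by exact_mod_cast hT0.ne'
  rw [mZ_int, mT_int hT0, ← hSS, hQc, ← hIW]
  have hfac : (1 / (Q : ℂ)) * SS - (1 / (T : ℂ)) * J =
      ((1 / Q : ℝ) : ℂ) * ((SS - (P : ℂ) * J) + ((P : ℂ) * J - ((Q / T : ℝ) : ℂ) * J)) := by
    push_cast
    field_simp
    ring
  rw [hfac, norm_mul, Complex.norm_real, Real.norm_eq_abs, abs_of_pos (by positivity),
    one_div, inv_mul_le_iff₀ hQ0]
  refine (norm_add_le _ _).trans ((add_le_add hmain hNe).trans ?_)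
  have g1 : P * s * IW ≤ Q * (2 * s * (1 / T * IW)) := by
    calc P * s * IW = (P * T / 2) * (2 * s * (1 / T * IW)) := by field_simp
      _ ≤ Q * (2 * s * (1 / T * IW)) := by gcongr
  have g2 : 2 * (CB * L ^ 2) + P * (4 * L) ≤ ε' * L * T := by
    calc 2 * (CB * L ^ 2) + P * (4 * L) ≤ 2 * (CB * L ^ 2) + L * (4 * L) := by gcongr
      _ = ((2 * CB + 4) * L) * L := by ring
      _ ≤ (ε' * T) * L := by gcongr
      _ = _ := by ring
  have g3 : CN * T ≤ ε' * L * T := by gcongr
  have g4 : 5 * (ε' * L * T) ≤ Q * ε := by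
    calc 5 * (ε' * L * T) = ε / 40 * T * L := by rw [hε']; ring
      _ ≤ ε / 40 * T * (8 * P) := by gcongr
      _ = (P * T / 2) * (ε * (2 / 5)) := by ring
      _ ≤ Q * (ε * (2 / 5)) := by gcongr
      _ ≤ Q * ε := by
          apply mul_le_mul_of_nonneg_left _ hQ0.le
          linarith
  have g5 : Q * (ε + 2 * s * (1 / T * IW)) = Q * ε + Q * (2 * s * (1 / T * IW)) := by ring
  rw [g5]
  linarith

end Pool.Agent.H203.GE
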