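import Pool.Agent.H203.GE.Defs2
import Pool.Agent.H203.GE.AP

set_option autoImplicit false

/-! Approximation in mean by the prime sum at the height `H` (leaf APN). -/

open Complex Filter Topology Set MeasureTheory

namespace Pool.Agent.H203.GE

open Pool.Agent.H203.ME

namespace APNL

lemma mT_prob {T : ℝ} (hT : 0 < T) : IsProbabilityMeasure (mT T) := by
  constructor
  unfold mT
  rw [Measure.smul_apply, Measure.restrict_apply_univ, Real.volume_Ioc, smul_eq_mul]
  have h : 2 * T - T = T := by ring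
  rw [h, ENNReal.inv_mul_cancel]
  · simpa using hT
  · exact ENNReal.ofReal_ne_top

lemma mT_compl {T : ℝ} : mT T (Icc T (2 * T))ᶜ = 0 := by
  unfold mT
  rw [Measure.smul_apply, Measure.restrict_apply measurableSet_Icc.compl, smul_eq_mul]
  have h : (Icc T (2 * T))ᶜ ∩ Ioc T (2 * T) = ∅ := by
    ext x
    simp only [mem_inter_iff, mem_compl_iff, mem_Icc, mem_Ioc, mem_empty_iff_false, iff_false]
    rintro ⟨h1, h2, h3⟩
    exact h1 ⟨h2.le, h3⟩
  rw [h, measure_empty, mul_zero]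

lemma int_mT {T : ℝ} (hT : 0 < T) (f : ℝ → ℝ) : ∫ s, f s ∂(mT T) = T⁻¹ * ∫ s in T..(2 * T), f s := by
  unfold mT
  rw [integral_smul_measure, intervalIntegral.integral_of_le (by linarith), ENNReal.toReal_inv,
    ENNReal.toReal_ofReal hT.le, smul_eq_mul]

lemma integrable_mT {T : ℝ} (hT : 0 < T) (f : ℝ → ℝ) (hf : ContinuousOn f (Icc T (2 * T))) :
    Integrable f (mT T) := by
  unfold mT
  refine Integrable.smul_measure ?_ ?_
  · exact (hf.integrableOn_Icc).mono_set Ioc_subset_Icc_self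
  · simpa using hT

lemma Bx_eq (n : ℕ) (T : ℝ) : Bx n T = Set.pi univ (fun _ : Fin n => Icc T (2 * T)) := by
  ext t
  exact ⟨fun h i _ => h i, fun h i => h i (mem_univ i)⟩

lemma Bx_meas (n : ℕ) (T : ℝ) : MeasurableSet (Bx n T) := by
  rw [Bx_eq]
  exact MeasurableSet.univ_pi fun _ => measurableSet_Icc

lemma ae_Bx (n : ℕ) {T : ℝ} (hT : 0 < T) :
    ∀ᵐ t ∂(Measure.pi (fun _ : Fin n => mT T)), t ∈ Bx n T := by
  have := mT_prob hT
  rw [Bx_eq]
  have h : ∀ i : Fin n, ∀ᵐ t ∂(Measure.pi (fun _ : Fin n => mT T)), t i ∈ Icc T (2 * T) := by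
    intro i
    have h1 : ∀ᵐ s ∂(mT T), s ∈ Icc T (2 * T) := by
      rw [ae_iff]
      exact mT_compl
    exact (Measure.tendsto_eval_ae_ae (μ := fun _ : Fin n => mT T) (i := i)).eventually h1
  have h2 := ae_all_iff.2 h
  filter_upwards [h2] with t ht
  exact fun i _ => ht i

lemma aesm_of_continuousOn (n : ℕ) {T : ℝ} (hT : 0 < T) {f : (Fin n → ℝ) → ℝ}
    (hf : ContinuousOn f (Bx n T)) :
    AEStronglyMeasurable f (Measure.pi (fun _ : Fin n => mT T)) := by
  have h1 : AEStronglyMeasurable f ((Measure.pi (fun _ : Fin n => mT T)).restrict (Bx n T)) :=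
    hf.aestronglyMeasurable (Bx_meas n T)
  rwa [Measure.restrict_eq_self_of_ae_mem (ae_Bx n hT)] at h1

lemma update_mem {n : ℕ} {T : ℝ} {t : Fin n → ℝ} (ht : t ∈ Bx n T) (i : Fin n) {s : ℝ}
    (hs : s ∈ Icc T (2 * T)) : Function.update t i s ∈ Bx n T := by
  intro j
  by_cases h : j = i
  · subst h
    rw [Function.update_self]
    exact hs
  · rw [Function.update_of_ne h]
    exact ht j

end APNL

open APNL in
theorem t_APN (hA : S_AP) (hC : S_CVR) (hM : S_MAR) : S_APN := by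
  intro G u hL n E a b V δ hE ha hab hV hδ
  obtain ⟨ε0, hε0, h⟩ := hA G u hL a b V (δ * a) ha hab hV (by positivity)
  refine ⟨E * ε0, by positivity, fun ε hε hεm => ?_⟩
  obtain ⟨η, T0, hη, hη1, hT0, h⟩ := h (ε / E) (by positivity) (by
    rw [div_le_iff₀ hE]
    linarith)
  refine ⟨η, max 10 (T0 ^ (1 / E)), hη, hη1, le_max_left _ _, fun T hT F hF H hH => ?_⟩
  have hT10 : 10 ≤ T := (le_max_left _ _).trans hT
  have hTp : 0 < T := by linarith
  have hT0p : 0 < T0 := by linarith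
  have hTE : T0 ≤ T ^ E := by
    have h1 : T0 ^ (1 / E) ≤ T := (le_max_right _ _).trans hT
    have h2 : (T0 ^ (1 / E)) ^ E ≤ T ^ E := Real.rpow_le_rpow (by positivity) h1 hE.le
    rwa [← Real.rpow_mul hT0p.le, one_div, inv_mul_cancel₀ hE.ne', Real.rpow_one] at h2
  have hTEp : 0 < T ^ E := by positivity
  have hlog : Real.log (T ^ E) = E * Real.log T := Real.log_rpow hTp E
  obtain ⟨hXc, hint⟩ := h (T ^ E) hTE F (by rw [hlog]; exact hF)
  have hpow : (T ^ E) ^ (ε / E) = T ^ ε := by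
    rw [← Real.rpow_mul hTp.le, mul_div_cancel₀ ε hE.ne']
  rw [hpow] at hint
  have hYc := APL.YG_cont u F ⌊T ^ ε⌋₊
  have hφc : ContinuousOn (fun v => |XG G F (T ^ E) v + YG u F ⌊T ^ ε⌋₊ v|)
      (Icc (a * T ^ E) (b * T ^ E)) := (hXc.add hYc.continuousOn).abs
  have hmaps : MapsTo H (Bx n T) (Icc (a * T ^ E) (b * T ^ E)) := fun t ht => hH.maps t ht
  have hfc : ContinuousOn (fun t => |XG G F (T ^ E) (H t) + YG u F ⌊T ^ ε⌋₊ (H t)|) (Bx n T) :=
    hφc.comp hH.cont.continuousOn hmaps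
  refine ⟨hXc.comp hH.cont.continuousOn hmaps, ?_⟩
  obtain ⟨i, hi⟩ := hH.ex
  refine hM n T hTp (fun _ => mT T) (fun _ => mT_prob hTp) (fun _ => mT_compl) i
    (fun t => |XG G F (T ^ E) (H t) + YG u F ⌊T ^ ε⌋₊ (H t)|) δ (fun t => abs_nonneg _)
    (aesm_of_continuousOn n hTp hfc) fun t ht => ?_
  have hmon := hi t ht
  have hupd : Continuous fun s : ℝ => Function.update t i s := continuous_const.update i continuous_id
  have hfc' : ContinuousOn (fun s => |XG G F (T ^ E) (H (Function.update t i s)) +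
      YG u F ⌊T ^ ε⌋₊ (H (Function.update t i s))|) (Icc T (2 * T)) :=
    hfc.comp hupd.continuousOn fun s hs => update_mem ht i hs
  refine ⟨integrable_mT hTp _ hfc', ?_⟩
  rw [int_mT hTp]
  have h1 := hC E a b T ha hab hTp _ hmon (fun v => |XG G F (T ^ E) v + YG u F ⌊T ^ ε⌋₊ v|) hφc
    (fun v => abs_nonneg _)
  have hTE1 : T ^ (E - 1) = T ^ E / T := by
    rw [Real.rpow_sub hTp, Real.rpow_one]
  have h2 : 1 / (a * T ^ (E - 1)) * (∫ v in (a * T ^ E)..(b * T ^ E),
      |XG G F (T ^ E) v + YG u F ⌊T ^ ε⌋₊ v|) ≤ 1 / (a * T ^ (E - 1)) * (δ * a * T ^ E) :=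
    mul_le_mul_of_nonneg_left hint (by positivity)
  have h3 : 1 / (a * T ^ (E - 1)) * (δ * a * T ^ E) = δ * T := by
    rw [hTE1]
    field_simp
  rw [h3] at h2
  have h4 := h1.trans h2
  rw [inv_mul_le_iff₀ hTp]
  linarith

end Pool.Agent.H203.GE
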