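import Pool.Agent.H203.GE.Defs

set_option autoImplicit false

/-! The central limit theorem for prime polynomials at polynomial heights, from the averages of monomials. -/

open Complex Filter Topology Set MeasureTheory

namespace Pool.Agent.H203.GE

open Pool.Agent.H203.ME

namespace CLGL

/-- telescoping for products of numbers in the unit disc -/
theorem prod_sub_le {ι : Type*} (s : Finset ι) (z w : ι → ℂ) (hz : ∀ i ∈ s, ‖z i‖ ≤ 1)
    (hw : ∀ i ∈ s, ‖w i‖ ≤ 1) : ‖∏ i ∈ s, z i - ∏ i ∈ s, w i‖ ≤ ∑ i ∈ s, ‖z i - w i‖ := by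
  classical
  induction s using Finset.induction_on with
  | empty => simp
  | insert a s ha ih =>
    rw [Finset.prod_insert ha, Finset.prod_insert ha, Finset.sum_insert ha]
    have h1 : z a * ∏ i ∈ s, z i - w a * ∏ i ∈ s, w i =
        (z a - w a) * ∏ i ∈ s, z i + w a * (∏ i ∈ s, z i - ∏ i ∈ s, w i) := by ring
    rw [h1]
    refine (norm_add_le _ _).trans (add_le_add ?_ ?_)
    · rw [norm_mul]
      refine mul_le_of_le_one_right (norm_nonneg _) ?_
      rw [norm_prod]
      exact Finset.prod_le_one (fun _ _ => norm_nonneg _) fun i hi => hz i (Finset.mem_insert_of_mem hi)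
    · rw [norm_mul]
      exact (mul_le_of_le_one_left (norm_nonneg _) (hw a (Finset.mem_insert_self _ _))).trans
        (ih (fun i hi => hz i (Finset.mem_insert_of_mem hi)) fun i hi => hw i (Finset.mem_insert_of_mem hi))

/-- the characteristic function and the moments -/
theorem cmp {Ω : Type*} [MeasurableSpace Ω] (μ : Measure Ω) [IsProbabilityMeasure μ] (Y : Ω → ℝ)
    (hY : Measurable Y) (hi : ∀ m : ℕ, Integrable (fun w => Y w ^ m) μ) (M : ℕ) :
    ‖∫ w, cexp (I * (Y w : ℂ)) ∂μ - ∑ m ∈ Finset.range (2 * M), I ^ m / (m.factorial : ℂ) *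
      ((∫ w, Y w ^ m ∂μ : ℝ) : ℂ)‖ ≤ (∫ w, Y w ^ (2 * M) ∂μ) / (2 * M).factorial := by
  have e1 : ∑ m ∈ Finset.range (2 * M), I ^ m / (m.factorial : ℂ) * ((∫ w, Y w ^ m ∂μ : ℝ) : ℂ) =
      ∫ w, ∑ m ∈ Finset.range (2 * M), (I * (Y w : ℂ)) ^ m / (m.factorial : ℂ) ∂μ := by
    rw [integral_finsetSum]
    · refine Finset.sum_congr rfl fun m _ => ?_
      rw [← integral_complex_ofReal, ← integral_const_mul]
      refine integral_congr_ae (Eventually.of_forall fun w => ?_)
      simp only [Complex.ofReal_pow, mul_pow]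
      ring
    · intro m _
      have h1 : Integrable (fun w => (I ^ m / (m.factorial : ℂ)) * (((Y w ^ m : ℝ)) : ℂ)) μ :=
        (hi m).ofReal.const_mul _
      refine h1.congr (Eventually.of_forall fun w => ?_)
      simp only [Complex.ofReal_pow, mul_pow]
      ring
  have hint : Integrable (fun w => cexp (I * (Y w : ℂ))) μ := by
    refine Integrable.of_bound ?_ 1 (Eventually.of_forall fun w => ?_)
    · have : Measurable fun w => cexp (I * (Y w : ℂ)) :=
        Complex.measurable_exp.comp ((Complex.measurable_ofReal.comp hY).const_mul I)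
      exact this.aestronglyMeasurable
    · rw [mul_comm, Complex.norm_exp_ofReal_mul_I]
  have hint2 : Integrable (fun w => ∑ m ∈ Finset.range (2 * M), (I * (Y w : ℂ)) ^ m / (m.factorial : ℂ)) μ := by
    refine integrable_finsetSum _ fun m _ => ?_
    have h1 : Integrable (fun w => (I ^ m / (m.factorial : ℂ)) * (((Y w ^ m : ℝ)) : ℂ)) μ :=
      (hi m).ofReal.const_mul _
    refine h1.congr (Eventually.of_forall fun w => ?_)
    simp only [Complex.ofReal_pow, mul_pow]
    ring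
  rw [e1, ← integral_sub hint hint2, ← integral_div]
  refine norm_integral_le_of_norm_le ((hi (2 * M)).div_const _) (Eventually.of_forall fun w => ?_)
  have h5 := CLTL.rem_abs (2 * M) (Y w)
  rwa [pow_mul |Y w|, sq_abs, ← pow_mul] at h5

section model

variable {ι K : Type*} [Fintype ι] [MeasurableSpace K] (ν : Measure K) [IsProbabilityMeasure ν]
  (X : ι → K → ℝ) (c : ι → ℝ)

omit [Fintype ι] in
theorem int_X (hm : ∀ i, Measurable (X i)) (hc : ∀ i θ, |X i θ| ≤ c i) (i : ι) : Integrable (X i) ν :=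
  Integrable.of_bound (hm i).aestronglyMeasurable (c i) (Eventually.of_forall fun θ => hc i θ)

theorem exp_one (hm : ∀ i, Measurable (X i)) (hc : ∀ i θ, |X i θ| ≤ c i) (hc2 : ∀ i, c i ≤ 1 / 2)
    (h0 : ∀ i, ∫ θ, X i θ ∂ν = 0) (σ : ℝ) (hσ : |σ| = 2) :
    ∫ θ, Real.exp (σ * ∑ i, X i (θ i)) ∂(Measure.pi fun _ : ι => ν) ≤ Real.exp (4 * ∑ i, c i ^ 2) := by
  have e : ∀ θ : ι → K, Real.exp (σ * ∑ i, X i (θ i)) = ∏ i, Real.exp (σ * X i (θ i)) := by
    intro θ
    rw [Finset.mul_sum, Real.exp_sum]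
  simp_rw [e]
  rw [integral_fintype_prod_eq_prod (fun i θ => Real.exp (σ * X i θ)), Finset.mul_sum, Real.exp_sum]
  refine Finset.prod_le_prod (fun i _ => integral_nonneg fun _ => (Real.exp_pos _).le) fun i _ => ?_
  have hb : ∀ θ, Real.exp (σ * X i θ) ≤ 1 + σ * X i θ + 4 * c i ^ 2 := by
    intro θ
    have h1 : |σ * X i θ| ≤ 1 := by
      rw [abs_mul, hσ]
      have := hc i θ
      have := hc2 i
      linarith
    have h2 := Real.abs_exp_sub_one_sub_id_le h1
    have h3 : (σ * X i θ) ^ 2 ≤ 4 * c i ^ 2 := by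
      have h4 : (σ * X i θ) ^ 2 = 4 * |X i θ| ^ 2 := by
        rw [mul_pow, ← sq_abs σ, hσ, sq_abs]
        norm_num
      rw [h4]
      have := pow_le_pow_left₀ (abs_nonneg _) (hc i θ) 2
      linarith
    have h5 := (abs_le.1 h2).2
    linarith
  have hX := int_X ν X c hm hc i
  have hI : Integrable (fun θ => 1 + σ * X i θ + 4 * c i ^ 2) ν :=
    ((integrable_const _).add (hX.const_mul σ)).add (integrable_const _)
  have hI2 : Integrable (fun θ => Real.exp (σ * X i θ)) ν := by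
    refine Integrable.of_bound ?_ (Real.exp 1) (Eventually.of_forall fun θ => ?_)
    · exact (Real.measurable_exp.comp ((hm i).const_mul σ)).aestronglyMeasurable
    · rw [Real.norm_of_nonneg (Real.exp_pos _).le]
      refine Real.exp_le_exp.2 ((le_abs_self _).trans ?_)
      rw [abs_mul, hσ]
      have := hc i θ
      have := hc2 i
      linarith
  calc ∫ θ, Real.exp (σ * X i θ) ∂ν ≤ ∫ θ, (1 + σ * X i θ + 4 * c i ^ 2) ∂ν := integral_mono hI2 hI hb
    _ = 1 + 4 * c i ^ 2 := by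
        have hI3 : Integrable (fun θ => 1 + σ * X i θ) ν := (integrable_const _).add (hX.const_mul σ)
        rw [integral_add hI3 (integrable_const _),
          integral_add (integrable_const _) (hX.const_mul σ), integral_const_mul, h0 i]
        simp
    _ ≤ Real.exp (4 * c i ^ 2) := by
        rw [add_comm]
        exact Real.add_one_le_exp _

theorem int_pow (hm : ∀ i, Measurable (X i)) (hc : ∀ i θ, |X i θ| ≤ c i) (m : ℕ) :
    Integrable (fun θ : ι → K => (∑ i, X i (θ i)) ^ m) (Measure.pi fun _ : ι => ν) := by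
  refine Integrable.of_bound ?_ ((∑ i, c i) ^ m) (Eventually.of_forall fun θ => ?_)
  · have : Measurable fun θ : ι → K => (∑ i, X i (θ i)) ^ m :=
      (Finset.measurable_sum _ fun i _ => (hm i).comp (measurable_pi_apply i)).pow_const m
    exact this.aestronglyMeasurable
  · rw [norm_pow, Real.norm_eq_abs]
    refine pow_le_pow_left₀ (abs_nonneg _) ?_ m
    exact (Finset.abs_sum_le_sum_abs _ _).trans (Finset.sum_le_sum fun i _ => hc i _)

theorem mom_le (hm : ∀ i, Measurable (X i)) (hc : ∀ i θ, |X i θ| ≤ c i) (hc2 : ∀ i, c i ≤ 1 / 2)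
    (h0 : ∀ i, ∫ θ, X i θ ∂ν = 0) (M : ℕ) :
    (∫ θ, (∑ i, X i (θ i)) ^ (2 * M) ∂(Measure.pi fun _ : ι => ν)) / (2 * M).factorial ≤
      2 * Real.exp (4 * ∑ i, c i ^ 2) / 4 ^ M := by
  have hme : ∀ σ : ℝ, Measurable fun θ : ι → K => Real.exp (σ * ∑ i, X i (θ i)) := fun σ =>
    Real.measurable_exp.comp
      ((Finset.measurable_sum _ fun i _ => (hm i).comp (measurable_pi_apply i)).const_mul σ)
  have hie : ∀ σ : ℝ, |σ| = 2 → Integrable (fun θ : ι → K => Real.exp (σ * ∑ i, X i (θ i)))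
      (Measure.pi fun _ : ι => ν) := by
    intro σ hσ
    refine Integrable.of_bound (hme σ).aestronglyMeasurable (Real.exp (2 * ∑ i, c i))
      (Eventually.of_forall fun θ => ?_)
    rw [Real.norm_of_nonneg (Real.exp_pos _).le]
    refine Real.exp_le_exp.2 ((le_abs_self _).trans ?_)
    rw [abs_mul, hσ]
    have : |∑ i, X i (θ i)| ≤ ∑ i, c i :=
      (Finset.abs_sum_le_sum_abs _ _).trans (Finset.sum_le_sum fun i _ => hc i _)
    linarith
  have e1 := exp_one ν X c hm hc hc2 h0 2 (by norm_num)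
  have e2 := exp_one ν X c hm hc hc2 h0 (-2) (by norm_num)
  have hpt : ∀ θ : ι → K, (∑ i, X i (θ i)) ^ (2 * M) / (2 * M).factorial ≤
      (Real.exp (2 * ∑ i, X i (θ i)) + Real.exp ((-2) * ∑ i, X i (θ i))) / 4 ^ M := by
    intro θ
    set y := ∑ i, X i (θ i) with hy
    have h1 := Real.pow_div_factorial_le_exp (|2 * y|) (abs_nonneg _) (2 * M)
    have h2 : |2 * y| ^ (2 * M) = 4 ^ M * y ^ (2 * M) := by
      rw [pow_mul, sq_abs, mul_pow, mul_pow, ← pow_mul y]
      norm_num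
    have h3 : Real.exp |2 * y| ≤ Real.exp (2 * y) + Real.exp (-2 * y) := by
      rcases abs_cases (2 * y) with ⟨h, _⟩ | ⟨h, _⟩
      · rw [h]
        have := Real.exp_pos (-2 * y)
        linarith
      · rw [h, show -(2 * y) = -2 * y by ring]
        have := Real.exp_pos (2 * y)
        linarith
    rw [le_div_iff₀ (by positivity)]
    rw [h2] at h1
    calc y ^ (2 * M) / (2 * M).factorial * 4 ^ M = 4 ^ M * y ^ (2 * M) / (2 * M).factorial := by ring
      _ ≤ _ := h1.trans h3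
  rw [← integral_div]
  have hI4 : Integrable (fun θ : ι → K => (Real.exp (2 * ∑ i, X i (θ i)) +
      Real.exp ((-2) * ∑ i, X i (θ i))) / 4 ^ M) (Measure.pi fun _ : ι => ν) :=
    ((hie 2 (by norm_num)).add (hie (-2) (by norm_num))).div_const _
  refine (integral_mono ((int_pow ν X c hm hc _).div_const _) hI4 hpt).trans ?_
  rw [integral_div]
  refine div_le_div_of_nonneg_right ?_ (by positivity)
  rw [integral_add (hie 2 (by norm_num)) (hie (-2) (by norm_num))]
  linarith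

omit [Fintype ι] in
/-- one factor of the characteristic function -/
theorem char_one (hm : ∀ i, Measurable (X i)) (hc : ∀ i θ, |X i θ| ≤ c i) (hc2 : ∀ i, c i ≤ 1 / 2)
    (h0 : ∀ i, ∫ θ, X i θ ∂ν = 0) (i : ι) :
    ‖∫ θ, cexp (I * (X i θ : ℂ)) ∂ν - cexp (-((1 / 2 * ∫ θ, X i θ ^ 2 ∂ν : ℝ) : ℂ))‖ ≤ c i ^ 3 := by
  have hX := int_X ν X c hm hc i
  have hne : Nonempty K := by
    by_contra h
    rw [not_nonempty_iff] at h
    have := measure_univ (μ := ν)
    rw [Set.eq_empty_of_isEmpty (Set.univ : Set K), measure_empty] at this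
    exact zero_ne_one this
  obtain ⟨θ0⟩ := hne
  have hc0 : 0 ≤ c i := (abs_nonneg _).trans (hc i θ0)
  have hX2 : Integrable (fun θ => X i θ ^ 2) ν := by
    refine Integrable.of_bound ((hm i).pow_const 2).aestronglyMeasurable (c i ^ 2)
      (Eventually.of_forall fun θ => ?_)
    rw [norm_pow, Real.norm_eq_abs]
    exact pow_le_pow_left₀ (abs_nonneg _) (hc i θ) 2
  set v := ∫ θ, X i θ ^ 2 ∂ν with hv
  have hv0 : 0 ≤ v := integral_nonneg fun θ => sq_nonneg _
  have hv1 : v ≤ c i ^ 2 := by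
    have : v ≤ ∫ _, c i ^ 2 ∂ν := by
      refine integral_mono hX2 (integrable_const _) fun θ => ?_
      have := pow_le_pow_left₀ (abs_nonneg _) (hc i θ) 2
      rwa [sq_abs] at this
    simpa using this
  have hexp : Integrable (fun θ => cexp (I * (X i θ : ℂ))) ν := by
    refine Integrable.of_bound ?_ 1 (Eventually.of_forall fun w => ?_)
    · have : Measurable fun w => cexp (I * (X i w : ℂ)) :=
        Complex.measurable_exp.comp ((Complex.measurable_ofReal.comp (hm i)).const_mul I)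
      exact this.aestronglyMeasurable
    · rw [mul_comm, Complex.norm_exp_ofReal_mul_I]
  have hpol : Integrable (fun θ => (1 : ℂ) + I * (X i θ : ℂ) + (-1 / 2 : ℂ) * ((X i θ ^ 2 : ℝ) : ℂ)) ν :=
    ((integrable_const _).add (hX.ofReal.const_mul _)).add (hX2.ofReal.const_mul _)
  have e1 : ∫ θ, ((1 : ℂ) + I * (X i θ : ℂ) + (-1 / 2 : ℂ) * ((X i θ ^ 2 : ℝ) : ℂ)) ∂ν =
      ((1 - v / 2 : ℝ) : ℂ) := by
    have hI7 : Integrable (fun θ => I * (X i θ : ℂ)) ν := hX.ofReal.const_mul _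
    have hI6 : Integrable (fun θ => (-1 / 2 : ℂ) * ((X i θ ^ 2 : ℝ) : ℂ)) ν := hX2.ofReal.const_mul _
    have hI5 : Integrable (fun θ => (1 : ℂ) + I * (X i θ : ℂ)) ν := (integrable_const _).add hI7
    rw [integral_add hI5 hI6, integral_add (integrable_const _) hI7, integral_const_mul, integral_const_mul,
      integral_complex_ofReal, integral_complex_ofReal, h0 i, ← hv]
    simp
    ring
  have h1 : ‖∫ θ, cexp (I * (X i θ : ℂ)) ∂ν - ((1 - v / 2 : ℝ) : ℂ)‖ ≤ c i ^ 3 / 6 := by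
    rw [← e1, ← integral_sub hexp hpol]
    refine (norm_integral_le_of_norm_le (g := fun _ => c i ^ 3 / 6) (integrable_const _)
      (Eventually.of_forall fun θ => ?_)).trans (le_of_eq (by simp))
    have h5 := CLTL.rem_abs 3 (X i θ)
    have e2 : ∑ m ∈ Finset.range 3, (I * (X i θ : ℂ)) ^ m / (m.factorial : ℂ) =
        (1 : ℂ) + I * (X i θ : ℂ) + (-1 / 2 : ℂ) * ((X i θ ^ 2 : ℝ) : ℂ) := by
      simp only [Finset.sum_range_succ, Finset.sum_range_zero, pow_zero, Nat.factorial, pow_one, mul_pow,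
        Complex.I_sq]
      push_cast
      ring
    rw [e2] at h5
    refine h5.trans ?_
    have h6 := pow_le_pow_left₀ (abs_nonneg _) (hc i θ) 3
    have h7 : ((3 : ℕ).factorial : ℝ) = 6 := by norm_num [Nat.factorial]
    rw [h7]
    linarith
  have h2 : ‖((1 - v / 2 : ℝ) : ℂ) - cexp (-((1 / 2 * v : ℝ) : ℂ))‖ ≤ c i ^ 3 / 2 := by
    rw [← Complex.ofReal_neg, ← Complex.ofReal_exp, ← Complex.ofReal_sub, Complex.norm_real,
      Real.norm_eq_abs, abs_sub_comm]
    have hc3 := hc2 i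
    have h3 : |-(1 / 2 * v)| ≤ 1 := by
      rw [abs_neg, abs_of_nonneg (by linarith)]
      nlinarith
    have h4 := Real.abs_exp_sub_one_sub_id_le h3
    have e3 : Real.exp (-(1 / 2 * v)) - (1 - v / 2) = Real.exp (-(1 / 2 * v)) - 1 - -(1 / 2 * v) := by ring
    rw [e3]
    refine h4.trans ?_
    have h5 : v ^ 2 ≤ c i ^ 2 * c i ^ 2 := by
      rw [sq]
      exact mul_le_mul hv1 hv1 hv0 (by positivity)
    have h6 : c i ^ 2 * c i ^ 2 = c i ^ 3 * c i := by ring
    have h7 : c i ^ 3 * c i ≤ c i ^ 3 * (1 / 2) := mul_le_mul_of_nonneg_left hc3 (by positivity)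
    have h8 : 0 ≤ c i ^ 3 := by positivity
    nlinarith
  have htri := norm_sub_le_norm_sub_add_norm_sub (∫ θ, cexp (I * (X i θ : ℂ)) ∂ν)
    ((1 - v / 2 : ℝ) : ℂ) (cexp (-((1 / 2 * v : ℝ) : ℂ)))
  have h8 : 0 ≤ c i ^ 3 := by positivity
  linarith

theorem char_all (hm : ∀ i, Measurable (X i)) (hc : ∀ i θ, |X i θ| ≤ c i) (hc2 : ∀ i, c i ≤ 1 / 2)
    (h0 : ∀ i, ∫ θ, X i θ ∂ν = 0) :
    ‖∫ θ, cexp (I * ((∑ i, X i (θ i) : ℝ) : ℂ)) ∂(Measure.pi fun _ : ι => ν) -
      cexp (-((1 / 2 * ∑ i, ∫ θ, X i θ ^ 2 ∂ν : ℝ) : ℂ))‖ ≤ ∑ i, c i ^ 3 := by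
  have e : ∀ θ : ι → K, cexp (I * ((∑ i, X i (θ i) : ℝ) : ℂ)) = ∏ i, cexp (I * (X i (θ i) : ℂ)) := by
    intro θ
    rw [Complex.ofReal_sum, Finset.mul_sum, Complex.exp_sum]
  simp_rw [e]
  rw [integral_fintype_prod_eq_prod (fun i θ => cexp (I * (X i θ : ℂ)))]
  have e2 : cexp (-((1 / 2 * ∑ i, ∫ θ, X i θ ^ 2 ∂ν : ℝ) : ℂ)) =
      ∏ i, cexp (-((1 / 2 * ∫ θ, X i θ ^ 2 ∂ν : ℝ) : ℂ)) := by
    rw [← Complex.exp_sum, Finset.mul_sum, Complex.ofReal_sum, Finset.sum_neg_distrib]
  rw [e2]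
  refine (prod_sub_le _ _ _ (fun i _ => ?_) (fun i _ => ?_)).trans
    (Finset.sum_le_sum fun i _ => char_one ν X c hm hc hc2 h0 i)
  · refine (norm_integral_le_of_norm_le (g := fun _ => (1 : ℝ)) (integrable_const _)
      (Eventually.of_forall fun θ => ?_)).trans (le_of_eq (by simp))
    rw [mul_comm, Complex.norm_exp_ofReal_mul_I]
  · rw [← Complex.ofReal_neg, Complex.norm_exp_ofReal, Real.exp_le_one_iff]
    have : 0 ≤ ∫ θ, X i θ ^ 2 ∂ν := integral_nonneg fun θ => sq_nonneg _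
    linarith

end model

section torus

variable {D : ℕ}

/-- the torus -/
abbrev KK (D : ℕ) : Type := Fin D → AddCircle (1 : ℝ)

/-- the Haar measure of the torus -/
noncomputable def nu (D : ℕ) : Measure (KK D) :=
  Measure.pi fun _ => (AddCircle.haarAddCircle : Measure (AddCircle (1 : ℝ)))

instance (D : ℕ) : IsProbabilityMeasure (nu D) := by
  unfold nu
  infer_instance

/-- the characters of the torus -/
noncomputable def ch (a : Fin D → ℤ) (θ : KK D) : ℂ := ∏ d, (fourier (a d) (θ d) : ℂ)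

theorem ch_zero (θ : KK D) : ch (0 : Fin D → ℤ) θ = 1 := by
  unfold ch
  refine Finset.prod_eq_one fun d _ => ?_
  rw [Pi.zero_apply, fourier_zero]

theorem ch_add (a b : Fin D → ℤ) (θ : KK D) : ch (a + b) θ = ch a θ * ch b θ := by
  unfold ch
  rw [← Finset.prod_mul_distrib]
  refine Finset.prod_congr rfl fun d _ => ?_
  rw [Pi.add_apply, fourier_add]

theorem ch_neg (a : Fin D → ℤ) (θ : KK D) : ch (-a) θ = (starRingEnd ℂ) (ch a θ) := by
  unfold ch
  rw [map_prod]
  refine Finset.prod_congr rfl fun d _ => ?_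
  rw [Pi.neg_apply, fourier_neg]

theorem ch_norm (a : Fin D → ℤ) (θ : KK D) : ‖ch a θ‖ = 1 := by
  unfold ch
  rw [norm_prod]
  refine Finset.prod_eq_one fun d _ => ?_
  rw [fourier_apply]
  exact Circle.norm_coe _

theorem ch_meas (a : Fin D → ℤ) : Measurable (ch a) := by
  unfold ch
  refine Finset.measurable_prod _ fun d _ => ?_
  exact (fourier (a d)).continuous.measurable.comp (measurable_pi_apply d)

theorem ch_sum {ι : Type*} (s : Finset ι) (f : ι → Fin D → ℤ) (θ : KK D) :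
    ch (∑ i ∈ s, f i) θ = ∏ i ∈ s, ch (f i) θ := by
  classical
  induction s using Finset.induction_on with
  | empty => rw [Finset.sum_empty, Finset.prod_empty, ch_zero]
  | insert a s ha ih => rw [Finset.sum_insert ha, Finset.prod_insert ha, ch_add, ih]

theorem four_int (n : ℤ) : ∫ x : AddCircle (1 : ℝ), (fourier n x : ℂ) ∂AddCircle.haarAddCircle =
    if n = 0 then 1 else 0 := by
  split_ifs with h
  · subst h
    have : ∀ x : AddCircle (1 : ℝ), (fourier 0 x : ℂ) = 1 := fun x => fourier_zero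
    simp_rw [this]
    simp
  · exact integral_eq_zero_of_add_right_eq_neg (μ := AddCircle.haarAddCircle)
      (fourier_add_half_inv_index h one_pos)

theorem ch_int (a : Fin D → ℤ) : ∫ θ, ch a θ ∂(nu D) = if a = 0 then 1 else 0 := by
  unfold ch nu
  rw [integral_fintype_prod_eq_prod (fun d x => (fourier (a d) x : ℂ))]
  simp_rw [four_int]
  split_ifs with h
  · subst h
    simp
  · obtain ⟨d, hd⟩ := Function.ne_iff.1 h
    exact Finset.prod_eq_zero (Finset.mem_univ d) (if_neg hd)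

theorem ch_integrable (a : Fin D → ℤ) : Integrable (ch a) (nu D) :=
  Integrable.of_bound (ch_meas a).aestronglyMeasurable 1 (Eventually.of_forall fun θ => (ch_norm a θ).le)

variable {k : ℕ}

/-- the variables of the model -/
noncomputable def XX (A : Fin k → Fin D → ℤ) (β : Fin k → ℂ) (θ : KK D) : ℝ := (∑ j, β j * ch (A j) θ).re

theorem XX_meas (A : Fin k → Fin D → ℤ) (β : Fin k → ℂ) : Measurable (XX A β) := by
  unfold XX
  exact Complex.measurable_re.comp (Finset.measurable_sum _ fun j _ => (ch_meas (A j)).const_mul _)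

theorem XX_le (A : Fin k → Fin D → ℤ) (β : Fin k → ℂ) (θ : KK D) : |XX A β θ| ≤ ∑ j, ‖β j‖ := by
  unfold XX
  refine (Complex.abs_re_le_norm _).trans ((norm_sum_le _ _).trans (Finset.sum_le_sum fun j _ => ?_))
  rw [norm_mul, ch_norm, mul_one]

theorem re_int {Ω : Type*} [MeasurableSpace Ω] (μ : Measure Ω) (f : Ω → ℂ) (hf : Integrable f μ) :
    ∫ w, (f w).re ∂μ = (∫ w, f w ∂μ).re := Complex.reCLM.integral_comp_comm hf

theorem XX_int (A : Fin k → Fin D → ℤ) (hA : ∀ i, A i ≠ 0) (β : Fin k → ℂ) : ∫ θ, XX A β θ ∂(nu D) = 0 := by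
  unfold XX
  rw [re_int _ _ (integrable_finsetSum _ fun j _ => (ch_integrable (A j)).const_mul _),
    integral_finsetSum _ fun j _ => (ch_integrable (A j)).const_mul _, Finset.sum_eq_zero, Complex.zero_re]
  intro j _
  rw [integral_const_mul, ch_int, if_neg (hA j), mul_zero]

theorem XX_var (A : Fin k → Fin D → ℤ) (hA : ∀ i j, A i ≠ - A j) (β : Fin k → ℂ) :
    ∫ θ, XX A β θ ^ 2 ∂(nu D) =
      1 / 2 * ∑ i, ∑ j, (if A i = A j then (β i * (starRingEnd ℂ) (β j)).re else 0) := by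
  have e : ∀ θ, XX A β θ ^ 2 = (∑ i, ∑ j, ((1 / 2 : ℂ) * (β i * (starRingEnd ℂ) (β j)) * ch (A i + -A j) θ +
      (1 / 2 : ℂ) * (β i * β j) * ch (A i + A j) θ)).re := by
    intro θ
    set z := ∑ j, β j * ch (A j) θ with hz
    have h1 : ∑ i, ∑ j, ((1 / 2 : ℂ) * (β i * (starRingEnd ℂ) (β j)) * ch (A i + -A j) θ +
        (1 / 2 : ℂ) * (β i * β j) * ch (A i + A j) θ) = (1 / 2 : ℂ) * (z * (starRingEnd ℂ) z + z * z) := by
      rw [hz, map_sum, Finset.sum_mul_sum, Finset.sum_mul_sum, ← Finset.sum_add_distrib, Finset.mul_sum]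
      refine Finset.sum_congr rfl fun i _ => ?_
      rw [← Finset.sum_add_distrib, Finset.mul_sum]
      refine Finset.sum_congr rfl fun j _ => ?_
      rw [ch_add, ch_add, ch_neg, map_mul]
      ring
    rw [h1]
    have h2 : XX A β θ = z.re := rfl
    rw [h2]
    simp only [Complex.mul_re, Complex.add_re, Complex.conj_re, Complex.conj_im, Complex.add_im,
      Complex.mul_im, Complex.div_ofNat_re, Complex.div_ofNat_im, Complex.one_re, Complex.one_im]
    ring
  simp_rw [e]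
  have hI : ∀ i j, Integrable (fun θ => (1 / 2 : ℂ) * (β i * (starRingEnd ℂ) (β j)) * ch (A i + -A j) θ +
      (1 / 2 : ℂ) * (β i * β j) * ch (A i + A j) θ) (nu D) := fun i j =>
    ((ch_integrable _).const_mul _).add ((ch_integrable _).const_mul _)
  rw [re_int _ _ (integrable_finsetSum _ fun i _ => integrable_finsetSum _ fun j _ => hI i j),
    integral_finsetSum _ fun i _ => integrable_finsetSum _ fun j _ => hI i j, Complex.re_sum, Finset.mul_sum]
  refine Finset.sum_congr rfl fun i _ => ?_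
  rw [integral_finsetSum _ fun j _ => hI i j, Complex.re_sum, Finset.mul_sum]
  refine Finset.sum_congr rfl fun j _ => ?_
  rw [integral_add ((ch_integrable _).const_mul _) ((ch_integrable _).const_mul _), integral_const_mul,
    integral_const_mul, ch_int, ch_int, if_neg (fun h => hA i j (eq_neg_of_add_eq_zero_left h)), mul_zero,
    add_zero]
  by_cases h : A i = A j
  · rw [if_pos h, if_pos (by rw [h, add_neg_cancel]), mul_one]
    have : (1 / 2 : ℂ) = ((1 / 2 : ℝ) : ℂ) := by push_cast; rfl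
    rw [this, Complex.re_ofReal_mul]
  · rw [if_neg h, if_neg (fun h2 => h (by rwa [← sub_eq_add_neg, sub_eq_zero] at h2)), mul_zero, mul_zero,
      Complex.zero_re]

open Classical in
/-- the expectation of a monomial -/
theorem model_mono (P : Finset ℕ) (m : ℕ) (β : Fin m → Fin D → ℤ) (q : Fin m → P) :
    ∫ θ : P → KK D, ∏ i, ch (β i) (θ (q i)) ∂(Measure.pi fun _ => nu D) =
      if ∀ (d : Fin D) (p : ℕ), ∑ i, (if (q i : ℕ) = p then β i d else 0) = 0 then 1 else 0 := by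
  have e : ∀ θ : P → KK D, ∏ i, ch (β i) (θ (q i)) = ∏ p : P, ch (∑ i, if q i = p then β i else 0) (θ p) := by
    intro θ
    simp_rw [ch_sum]
    rw [Finset.prod_comm]
    refine Finset.prod_congr rfl fun i _ => ?_
    rw [Finset.prod_eq_single (q i)]
    · rw [if_pos rfl]
    · intro p _ hp
      rw [if_neg (Ne.symm hp), ch_zero]
    · intro h
      exact absurd (Finset.mem_univ _) h
  simp_rw [e]
  rw [integral_fintype_prod_eq_prod (fun (p : P) θ => ch (∑ i, if q i = p then β i else 0) θ)]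
  simp_rw [ch_int]
  by_cases h : ∀ (d : Fin D) (p : ℕ), ∑ i, (if (q i : ℕ) = p then β i d else 0) = 0
  · rw [if_pos h]
    refine Finset.prod_eq_one fun p _ => if_pos ?_
    funext d
    rw [Finset.sum_apply, Pi.zero_apply]
    rw [← h d p]
    refine Finset.sum_congr rfl fun i _ => ?_
    by_cases h2 : q i = p
    · rw [if_pos h2, if_pos (by rw [h2])]
    · rw [if_neg h2, if_neg (fun h3 => h2 (Subtype.ext h3)), Pi.zero_apply]
  · rw [if_neg h]
    push Not at h
    obtain ⟨d, p, hp⟩ := h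
    have hpP : p ∈ P := by
      by_contra h2
      refine hp (Finset.sum_eq_zero fun i _ => if_neg fun h3 => h2 ?_)
      rw [← h3]
      exact (q i).2
    refine Finset.prod_eq_zero (Finset.mem_univ (⟨p, hpP⟩ : P)) (if_neg fun h4 => hp ?_)
    have h5 := congrFun h4 d
    rw [Finset.sum_apply, Pi.zero_apply] at h5
    refine Eq.trans ?_ h5
    refine Finset.sum_congr rfl fun i _ => ?_
    by_cases h2 : (q i : ℕ) = p
    · rw [if_pos h2, if_pos (Subtype.ext h2)]
    · rw [if_neg h2, if_neg (fun h3 => h2 (by rw [h3])), Pi.zero_apply]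

/-- the coefficients of the expansion -/
noncomputable def cf {P : Finset ℕ} (b : Fin k → ℕ → ℂ) (a : Fin k × P × Bool) : ℂ :=
  if a.2.2 then b a.1 a.2.1 / 2 else (starRingEnd ℂ) (b a.1 a.2.1) / 2

/-- the exponents of the expansion -/
def be (A : Fin k → Fin D → ℤ) (a : Fin k × Bool) (d : Fin D) : ℤ := if a.2 then A a.1 d else - A a.1 d

theorem re_expand {P : Finset ℕ} (b : Fin k → ℕ → ℂ) (W : Fin k → P → Bool → ℂ)
    (hW : ∀ j p, W j p false = (starRingEnd ℂ) (W j p true)) :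
    (((∑ j, ∑ p : P, b j p * W j p true).re : ℝ) : ℂ) =
      ∑ a : Fin k × P × Bool, cf b a * W a.1 a.2.1 a.2.2 := by
  rw [Complex.re_eq_add_conj, map_sum, ← Finset.sum_add_distrib, Finset.sum_div, Fintype.sum_prod_type]
  refine Finset.sum_congr rfl fun j _ => ?_
  rw [map_sum, ← Finset.sum_add_distrib, Finset.sum_div, Fintype.sum_prod_type]
  refine Finset.sum_congr rfl fun p _ => ?_
  rw [Fintype.sum_bool, map_mul, hW]
  unfold cf
  simp only [if_true, Bool.false_eq_true, if_false]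
  ring

theorem pow_expand {P : Finset ℕ} (b : Fin k → ℕ → ℂ) (W : Fin k → P → Bool → ℂ)
    (hW : ∀ j p, W j p false = (starRingEnd ℂ) (W j p true)) (m : ℕ) :
    ((((∑ j, ∑ p : P, b j p * W j p true).re) ^ m : ℝ) : ℂ) =
      ∑ x : Fin m → Fin k × P × Bool, (∏ i, cf b (x i)) * ∏ i, W (x i).1 (x i).2.1 (x i).2.2 := by
  rw [Complex.ofReal_pow, re_expand b W hW, Fintype.sum_pow]
  refine Finset.sum_congr rfl fun x _ => ?_
  rw [Finset.prod_mul_distrib]

theorem cf_norm {P : Finset ℕ} (b : Fin k → ℕ → ℂ) (a : Fin k × P × Bool) : ‖cf b a‖ = ‖b a.1 a.2.1‖ / 2 := by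
  unfold cf
  split_ifs
  · rw [norm_div, Complex.norm_ofNat]
  · rw [norm_div, Complex.norm_ofNat, Complex.norm_conj]

theorem cf_sum {P : Finset ℕ} (b : Fin k → ℕ → ℂ) (hb : ∀ j p, ‖b j p‖ ≤ 1) :
    ∑ a : Fin k × P × Bool, ‖cf b a‖ ≤ k * P.card := by
  calc ∑ a : Fin k × P × Bool, ‖cf b a‖ ≤ ∑ _a : Fin k × P × Bool, (1 / 2 : ℝ) := by
        refine Finset.sum_le_sum fun a _ => ?_
        rw [cf_norm]
        have := hb a.1 a.2.1
        linarith
    _ = k * P.card := by
        rw [Finset.sum_const, Finset.card_univ, Fintype.card_prod, Fintype.card_prod, Fintype.card_fin,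
          Fintype.card_bool, Fintype.card_coe, nsmul_eq_mul]
        push_cast
        ring

/-- the prime polynomial -/
noncomputable def YY (P : Finset ℕ) (b : Fin k → ℕ → ℂ) (A : Fin k → Fin D → ℤ) (t : ℝ) : ℝ :=
  (∑ j, ∑ p : P, b j p * ee p (∑ d, (A j d : ℝ) * t ^ ((d : ℕ) + 1))).re

/-- the model -/
noncomputable def YM (P : Finset ℕ) (b : Fin k → ℕ → ℂ) (A : Fin k → Fin D → ℤ) (θ : P → KK D) : ℝ :=
  ∑ p : P, XX A (fun j => b j p) (θ p)

theorem YM_eq (P : Finset ℕ) (b : Fin k → ℕ → ℂ) (A : Fin k → Fin D → ℤ) (θ : P → KK D) :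
    YM P b A θ = (∑ j, ∑ p : P, b j p * ch (A j) (θ p)).re := by
  unfold YM XX
  rw [Finset.sum_comm, Complex.re_sum]

theorem ee_cont (n : ℕ) : Continuous (ee n) := by
  unfold ee
  fun_prop

theorem ee_neg (n : ℕ) (t : ℝ) : ee n (-t) = (starRingEnd ℂ) (ee n t) := by
  unfold ee
  rw [← Complex.exp_conj, map_neg, map_mul, Complex.conj_ofReal, Complex.conj_I]
  congr 1
  push_cast
  ring

theorem YY_cont (P : Finset ℕ) (b : Fin k → ℕ → ℂ) (A : Fin k → Fin D → ℤ) : Continuous (YY P b A) := by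
  unfold YY
  refine Complex.continuous_re.comp (continuous_finsetSum _ fun j _ => continuous_finsetSum _ fun p _ => ?_)
  refine continuous_const.mul ((ee_cont _).comp (continuous_finsetSum _ fun d _ => ?_))
  fun_prop

theorem mom_cmp (P : Finset ℕ) (b : Fin k → ℕ → ℂ) (hb : ∀ j p, ‖b j p‖ ≤ 1) (A : Fin k → Fin D → ℤ) (m : ℕ)
    (T δ : ℝ) (hδ : 0 ≤ δ) (h : ∀ x : Fin m → Fin k × P × Bool,
      ‖(1 / T : ℂ) * (∫ t in T..(2 * T), ∏ i, ee (x i).2.1
        (∑ d, (be A ((x i).1, (x i).2.2) d : ℝ) * t ^ ((d : ℕ) + 1))) -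
        ∫ θ : P → KK D, ∏ i, ch (be A ((x i).1, (x i).2.2)) (θ (x i).2.1) ∂(Measure.pi fun _ => nu D)‖ ≤ δ) :
    |(1 / T) * (∫ t in T..(2 * T), YY P b A t ^ m) -
      ∫ θ, YM P b A θ ^ m ∂(Measure.pi fun _ => nu D)| ≤ (k * P.card : ℝ) ^ m * δ := by
  have e1 : ((((1 / T) * (∫ t in T..(2 * T), YY P b A t ^ m) : ℝ)) : ℂ) =
      ∑ x : Fin m → Fin k × P × Bool, (∏ i, cf b (x i)) * ((1 / T : ℂ) *
        (∫ t in T..(2 * T), ∏ i, ee (x i).2.1 (∑ d, (be A ((x i).1, (x i).2.2) d : ℝ) * t ^ ((d : ℕ) + 1)))) := by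
    rw [Complex.ofReal_mul, ← intervalIntegral.integral_ofReal]
    have e2 : ∀ t : ℝ, ((YY P b A t ^ m : ℝ) : ℂ) = ∑ x : Fin m → Fin k × P × Bool, (∏ i, cf b (x i)) *
        ∏ i, ee (x i).2.1 (∑ d, (be A ((x i).1, (x i).2.2) d : ℝ) * t ^ ((d : ℕ) + 1)) := by
      intro t
      have h2 := pow_expand b (fun j (p : P) s => ee p (∑ d, (be A (j, s) d : ℝ) * t ^ ((d : ℕ) + 1)))
        (fun j p => by
          rw [← ee_neg]
          congr 1
          rw [← Finset.sum_neg_distrib]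
          refine Finset.sum_congr rfl fun d _ => ?_
          unfold be
          simp only [Bool.false_eq_true, if_false, if_true]
          push_cast
          ring) m
      rw [← h2]
      rfl
    rw [intervalIntegral.integral_congr (g := fun t => ∑ x : Fin m → Fin k × P × Bool, (∏ i, cf b (x i)) *
        ∏ i, ee (x i).2.1 (∑ d, (be A ((x i).1, (x i).2.2) d : ℝ) * t ^ ((d : ℕ) + 1))) (fun t _ => e2 t),
      intervalIntegral.integral_finsetSum]
    · rw [Finset.mul_sum]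
      refine Finset.sum_congr rfl fun x _ => ?_
      rw [intervalIntegral.integral_const_mul]
      push_cast
      ring
    · intro x _
      apply Continuous.intervalIntegrable
      refine continuous_const.mul (continuous_finsetProd _ fun i _ => (ee_cont _).comp ?_)
      fun_prop
  have hint : ∀ x : Fin m → Fin k × P × Bool, Integrable (fun θ : P → KK D =>
      ∏ i, ch (be A ((x i).1, (x i).2.2)) (θ (x i).2.1)) (Measure.pi fun _ => nu D) := by
    intro x
    refine Integrable.of_bound ?_ 1 (Eventually.of_forall fun θ => ?_)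
    · have h3 : Measurable fun θ : P → KK D => ∏ i, ch (be A ((x i).1, (x i).2.2)) (θ (x i).2.1) :=
        Finset.measurable_prod _ fun i _ => (ch_meas _).comp (measurable_pi_apply (x i).2.1)
      exact h3.aestronglyMeasurable
    · rw [norm_prod]
      exact (Finset.prod_eq_one fun i _ => ch_norm _ _).le
  have e3 : (((∫ θ, YM P b A θ ^ m ∂(Measure.pi fun _ => nu D) : ℝ)) : ℂ) =
      ∑ x : Fin m → Fin k × P × Bool, (∏ i, cf b (x i)) *
        ∫ θ : P → KK D, ∏ i, ch (be A ((x i).1, (x i).2.2)) (θ (x i).2.1) ∂(Measure.pi fun _ => nu D) := by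
    rw [← integral_complex_ofReal]
    have e4 : ∀ θ : P → KK D, ((YM P b A θ ^ m : ℝ) : ℂ) = ∑ x : Fin m → Fin k × P × Bool,
        (∏ i, cf b (x i)) * ∏ i, ch (be A ((x i).1, (x i).2.2)) (θ (x i).2.1) := by
      intro θ
      have h2 := pow_expand b (fun j (p : P) s => ch (be A (j, s)) (θ p))
        (fun j p => by
          rw [← ch_neg]
          congr 1) m
      rw [← h2, YM_eq]
      rfl
    simp_rw [e4]
    rw [integral_finsetSum _ fun x _ => (hint x).const_mul _]
    refine Finset.sum_congr rfl fun x _ => ?_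
    rw [integral_const_mul]
  rw [← Real.norm_eq_abs, ← Complex.norm_real, Complex.ofReal_sub, e1, e3, ← Finset.sum_sub_distrib]
  calc ‖∑ x : Fin m → Fin k × P × Bool, ((∏ i, cf b (x i)) * ((1 / T : ℂ) *
        (∫ t in T..(2 * T), ∏ i, ee (x i).2.1 (∑ d, (be A ((x i).1, (x i).2.2) d : ℝ) * t ^ ((d : ℕ) + 1)))) -
        (∏ i, cf b (x i)) *
        ∫ θ : P → KK D, ∏ i, ch (be A ((x i).1, (x i).2.2)) (θ (x i).2.1) ∂(Measure.pi fun _ => nu D))‖
      ≤ ∑ x : Fin m → Fin k × P × Bool, (∏ i, ‖cf b (x i)‖) * δ := by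
        refine (norm_sum_le _ _).trans (Finset.sum_le_sum fun x _ => ?_)
        rw [← mul_sub, norm_mul, norm_prod]
        exact mul_le_mul_of_nonneg_left (h x) (Finset.prod_nonneg fun _ _ => norm_nonneg _)
    _ = (∑ a : Fin k × P × Bool, ‖cf b a‖) ^ m * δ := by
        rw [Fintype.sum_pow, Finset.sum_mul]
    _ ≤ (k * P.card : ℝ) ^ m * δ := by
        refine mul_le_mul_of_nonneg_right (pow_le_pow_left₀ (Finset.sum_nonneg fun _ _ => norm_nonneg _)
          (cf_sum b hb) m) hδ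

end torus

/-- the uniform distribution on `(T, 2T]` -/
noncomputable def uT (T : ℝ) : Measure ℝ := ENNReal.ofReal (1 / T) • (volume.restrict (Set.Ioc T (2 * T)))

theorem uT_prob (T : ℝ) (hT : 0 < T) : IsProbabilityMeasure (uT T) := by
  constructor
  unfold uT
  rw [Measure.smul_apply, Measure.restrict_apply_univ, Real.volume_Ioc, smul_eq_mul,
    ← ENNReal.ofReal_mul (by positivity)]
  rw [show 1 / T * (2 * T - T) = 1 by field_simp; ring, ENNReal.ofReal_one]

theorem uT_int {E : Type*} [NormedAddCommGroup E] [NormedSpace ℝ E] (T : ℝ) (hT : 0 < T) (f : ℝ → E) :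
    ∫ t, f t ∂(uT T) = (1 / T) • ∫ t in T..(2 * T), f t := by
  unfold uT
  rw [integral_smul_measure, ENNReal.toReal_ofReal (by positivity),
    intervalIntegral.integral_of_le (by linarith)]

theorem uT_integrable (T : ℝ) (f : ℝ → ℝ) (hf : Continuous f) : Integrable f (uT T) := by
  unfold uT
  refine Integrable.smul_measure ?_ ENNReal.ofReal_ne_top
  exact hf.integrableOn_Ioc

/-- comparison of the characteristic functions -/
theorem char_cmp {k D : ℕ} (P : Finset ℕ) (b : Fin k → ℕ → ℂ) (A : Fin k → Fin D → ℤ)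
    (hA : ∀ i j, A i ≠ - A j) (η S0 T δ : ℝ) (M : ℕ) (hT : 0 < T) (hη : k * η ≤ 1 / 2)
    (hb : ∀ j p, ‖b j p‖ ≤ η) (hS : ∀ j, ∑ p ∈ P, ‖b j p‖ ^ 2 ≤ S0)
    (hmo : ∀ m ≤ 2 * M, |(1 / T) * (∫ t in T..(2 * T), YY P b A t ^ m) -
      ∫ θ, YM P b A θ ^ m ∂(Measure.pi fun _ => nu D)| ≤ δ) :
    ‖(1 / T : ℂ) * (∫ t in T..(2 * T), cexp (I * (YY P b A t : ℂ))) -
      cexp (-((1 / 2 * ∑ p : P, ∫ θ, XX A (fun j => b j p) θ ^ 2 ∂(nu D) : ℝ) : ℂ))‖ ≤
      4 * Real.exp (4 * (k * (k * S0))) / 4 ^ M + (2 * M + 1) * δ + k * η * (k * (k * S0)) := by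
  have hprob : IsProbabilityMeasure (uT T) := uT_prob T hT
  set μ : Measure (P → KK D) := Measure.pi fun _ => nu D with hμ
  set c : P → ℝ := fun p => ∑ j, ‖b j p‖ with hc
  have hAi : ∀ i, A i ≠ 0 := by
    intro i h
    apply hA i i
    rw [h, neg_zero]
  have hm : ∀ p : P, Measurable (XX A (fun j => b j p)) := fun p => XX_meas A _
  have hXc : ∀ (p : P) θ, |XX A (fun j => b j p) θ| ≤ c p := fun p θ => XX_le A _ θ
  have hcη : ∀ p, c p ≤ k * η := by
    intro p
    calc c p ≤ ∑ _j : Fin k, η := Finset.sum_le_sum fun j _ => hb j p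
      _ = k * η := by simp
  have hc0 : ∀ p, 0 ≤ c p := fun p => Finset.sum_nonneg fun j _ => norm_nonneg _
  have hc2 : ∀ p, c p ≤ 1 / 2 := fun p => (hcη p).trans hη
  have h0 : ∀ p : P, ∫ θ, XX A (fun j => b j p) θ ∂(nu D) = 0 := fun p => XX_int A hAi _
  have hcs : ∑ p, c p ^ 2 ≤ k * (k * S0) := by
    calc ∑ p, c p ^ 2 ≤ ∑ p : P, (k : ℝ) * ∑ j, ‖b j p‖ ^ 2 := by
          refine Finset.sum_le_sum fun p _ => ?_
          have := sq_sum_le_card_mul_sum_sq (s := (Finset.univ : Finset (Fin k))) (f := fun j => ‖b j p‖)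
          simpa using this
      _ = k * ∑ j, ∑ p ∈ P, ‖b j p‖ ^ 2 := by
          rw [← Finset.mul_sum, Finset.sum_comm]
          congr 1
          refine Finset.sum_congr rfl fun j _ => ?_
          rw [← Finset.sum_coe_sort P]
      _ ≤ k * ∑ _j : Fin k, S0 := by
          refine mul_le_mul_of_nonneg_left (Finset.sum_le_sum fun j _ => hS j) (Nat.cast_nonneg _)
      _ = k * (k * S0) := by simp
  have hc3 : ∑ p, c p ^ 3 ≤ k * η * (k * (k * S0)) := by
    calc ∑ p, c p ^ 3 ≤ ∑ p, k * η * c p ^ 2 := by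
          refine Finset.sum_le_sum fun p _ => ?_
          have h1 : c p ^ 3 = c p * c p ^ 2 := by ring
          rw [h1]
          exact mul_le_mul_of_nonneg_right (hcη p) (sq_nonneg _)
      _ = k * η * ∑ p, c p ^ 2 := by rw [Finset.mul_sum]
      _ ≤ k * η * (k * (k * S0)) := by
          rcases isEmpty_or_nonempty (Fin k) with h | ⟨⟨j0⟩⟩
          · have hk : (k : ℝ) = 0 := by
              have := Fintype.card_eq_zero (α := Fin k)
              rw [Fintype.card_fin] at this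
              rw [this, Nat.cast_zero]
            rw [hk]
            simp
          · have hη0 : 0 ≤ η := (norm_nonneg _).trans (hb j0 0)
            exact mul_le_mul_of_nonneg_left hcs (by positivity)
  -- the model
  have m1 := char_all (nu D) (fun (p : P) => XX A (fun j => b j p)) c hm hXc hc2 h0
  have m2 := cmp μ (YM P b A) (by
      unfold YM
      exact Finset.measurable_sum _ fun p _ => (hm p).comp (measurable_pi_apply p))
    (fun m => int_pow (nu D) (fun (p : P) => XX A (fun j => b j p)) c hm hXc m) M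
  have m3 := mom_le (nu D) (fun (p : P) => XX A (fun j => b j p)) c hm hXc hc2 h0 M
  change ‖∫ θ, cexp (I * ((YM P b A θ : ℝ) : ℂ)) ∂μ - _‖ ≤ _ at m1
  change (∫ θ, YM P b A θ ^ (2 * M) ∂μ) / _ ≤ _ at m3
  have m4 : (∫ θ, YM P b A θ ^ (2 * M) ∂μ) / (2 * M).factorial ≤
      2 * Real.exp (4 * (k * (k * S0))) / 4 ^ M := by
    refine m3.trans (div_le_div_of_nonneg_right (mul_le_mul_of_nonneg_left (Real.exp_le_exp.2 ?_)
      (by norm_num)) (by positivity))
    linarith
  -- the time average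
  have t1 := cmp (uT T) (YY P b A) (YY_cont P b A).measurable
    (fun m => uT_integrable T _ ((YY_cont P b A).pow m)) M
  have e1 : ∫ w, cexp (I * (YY P b A w : ℂ)) ∂(uT T) =
      (1 / T : ℂ) * (∫ t in T..(2 * T), cexp (I * (YY P b A t : ℂ))) := by
    rw [uT_int T hT, Complex.real_smul]
    push_cast
    rfl
  have e2 : ∀ m : ℕ, ∫ w, YY P b A w ^ m ∂(uT T) = (1 / T) * ∫ t in T..(2 * T), YY P b A t ^ m := by
    intro m
    rw [uT_int T hT, smul_eq_mul]
  rw [e1] at t1
  simp_rw [e2] at t1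
  have hδ : 0 ≤ δ := (abs_nonneg _).trans (hmo 0 (Nat.zero_le _))
  have hfac : (1 : ℝ) ≤ (2 * M).factorial := by exact_mod_cast Nat.factorial_pos (2 * M)
  -- the last moment
  have t2 : ((1 / T) * ∫ t in T..(2 * T), YY P b A t ^ (2 * M)) / (2 * M).factorial ≤
      2 * Real.exp (4 * (k * (k * S0))) / 4 ^ M + δ := by
    have h1 := (abs_le.1 (hmo (2 * M) le_rfl)).2
    have h2 : ((1 / T) * ∫ t in T..(2 * T), YY P b A t ^ (2 * M)) / (2 * M).factorial ≤
        ((∫ θ, YM P b A θ ^ (2 * M) ∂μ) + δ) / (2 * M).factorial := by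
      refine div_le_div_of_nonneg_right ?_ (by positivity)
      linarith
    refine h2.trans ?_
    rw [add_div]
    refine add_le_add m4 (div_le_self hδ hfac)
  -- the other moments
  have t3 : ‖(∑ m ∈ Finset.range (2 * M), I ^ m / (m.factorial : ℂ) *
      (((1 / T) * ∫ t in T..(2 * T), YY P b A t ^ m : ℝ) : ℂ)) -
      ∑ m ∈ Finset.range (2 * M), I ^ m / (m.factorial : ℂ) * ((∫ θ, YM P b A θ ^ m ∂μ : ℝ) : ℂ)‖ ≤
      2 * M * δ := by
    rw [← Finset.sum_sub_distrib]
    calc ‖∑ m ∈ Finset.range (2 * M), (I ^ m / (m.factorial : ℂ) *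
      (((1 / T) * ∫ t in T..(2 * T), YY P b A t ^ m : ℝ) : ℂ) -
        I ^ m / (m.factorial : ℂ) * ((∫ θ, YM P b A θ ^ m ∂μ : ℝ) : ℂ))‖ ≤
        ∑ m ∈ Finset.range (2 * M), δ := by
          refine (norm_sum_le _ _).trans (Finset.sum_le_sum fun m hm' => ?_)
          rw [← mul_sub, norm_mul, norm_div, norm_pow, Complex.norm_I, one_pow, Complex.norm_natCast,
            ← Complex.ofReal_sub, Complex.norm_real, Real.norm_eq_abs]
          have h5 : (1 : ℝ) ≤ m.factorial := by exact_mod_cast Nat.factorial_pos m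
          have h6 := hmo m (Finset.mem_range.1 hm').le
          calc 1 / (m.factorial : ℝ) * _ ≤ 1 * δ :=
              mul_le_mul (by rw [div_le_one (by linarith)]; exact h5) h6 (abs_nonneg _) zero_le_one
            _ = δ := one_mul _
      _ = 2 * M * δ := by
          rw [Finset.sum_const, Finset.card_range, nsmul_eq_mul]
          push_cast
          ring
  have r1 := norm_sub_le_norm_sub_add_norm_sub
    ((1 / T : ℂ) * (∫ t in T..(2 * T), cexp (I * (YY P b A t : ℂ))))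
    (∑ m ∈ Finset.range (2 * M), I ^ m / (m.factorial : ℂ) *
      (((1 / T) * ∫ t in T..(2 * T), YY P b A t ^ m : ℝ) : ℂ))
    (cexp (-((1 / 2 * ∑ p : P, ∫ θ, XX A (fun j => b j p) θ ^ 2 ∂(nu D) : ℝ) : ℂ)))
  have r2 := norm_sub_le_norm_sub_add_norm_sub
    (∑ m ∈ Finset.range (2 * M), I ^ m / (m.factorial : ℂ) *
      (((1 / T) * ∫ t in T..(2 * T), YY P b A t ^ m : ℝ) : ℂ))
    (∑ m ∈ Finset.range (2 * M), I ^ m / (m.factorial : ℂ) * ((∫ θ, YM P b A θ ^ m ∂μ : ℝ) : ℂ))
    (cexp (-((1 / 2 * ∑ p : P, ∫ θ, XX A (fun j => b j p) θ ^ 2 ∂(nu D) : ℝ) : ℂ)))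
  have r3 := norm_sub_le_norm_sub_add_norm_sub
    (∑ m ∈ Finset.range (2 * M), I ^ m / (m.factorial : ℂ) * ((∫ θ, YM P b A θ ^ m ∂μ : ℝ) : ℂ))
    (∫ θ, cexp (I * ((YM P b A θ : ℝ) : ℂ)) ∂μ)
    (cexp (-((1 / 2 * ∑ p : P, ∫ θ, XX A (fun j => b j p) θ ^ 2 ∂(nu D) : ℝ) : ℂ)))
  rw [norm_sub_rev] at m2
  have e5 : 4 * Real.exp (4 * (k * (k * S0))) / 4 ^ M = 2 * Real.exp (4 * (k * (k * S0))) / 4 ^ M +
    2 * Real.exp (4 * (k * (k * S0))) / 4 ^ M := by ring
  rw [e5]
  linarith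

end CLGL

open CLGL in
theorem t_CLG (hM : S_MONO) : S_CLG := by
  classical
  intro k D A hA S0 ε hS0 hε
  set B : ℝ := Real.exp (4 * (k * (k * S0))) with hB
  have hB0 : 0 < B := Real.exp_pos _
  -- the number of moments
  obtain ⟨M, hMε⟩ : ∃ M : ℕ, 4 * B / 4 ^ M ≤ ε / 3 := by
    have hlim : Tendsto (fun M : ℕ => 4 * B * (1 / 4 : ℝ) ^ M) atTop (𝓝 (4 * B * 0)) :=
      (tendsto_pow_atTop_nhds_zero_of_lt_one (by norm_num) (by norm_num)).const_mul _
    rw [mul_zero] at hlim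
    obtain ⟨M, hM⟩ := (hlim.eventually (gt_mem_nhds (show (0 : ℝ) < ε / 3 by positivity))).exists
    refine ⟨M, ?_⟩
    have h1 : 4 * B / 4 ^ M = 4 * B * (1 / 4 : ℝ) ^ M := by
      rw [one_div, inv_pow, div_eq_mul_inv]
    rw [h1]
    exact hM.le
  -- the constants of (MONO)
  choose κf T0f hκ0 hκ1 hT0 hmono using
    fun y : (Σ m : Fin (2 * M + 1), (Fin m → Fin k × Bool)) => hM y.1 D (fun i => be A (y.2 i))
  have hne : Nonempty (Σ m : Fin (2 * M + 1), (Fin m → Fin k × Bool)) :=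
    ⟨⟨⟨0, by omega⟩, fun i => i.elim0⟩⟩
  obtain ⟨y1, hy1⟩ := Finite.exists_min κf
  obtain ⟨y2, hy2⟩ := Finite.exists_max T0f
  set η : ℝ := min (1 / (2 * (k + 1))) (ε / (3 * (k + 1) * (k * (k * S0) + 1))) with hη
  have hη0 : 0 < η := lt_min (by positivity) (by positivity)
  have hη1 : (k : ℝ) * η ≤ 1 / 2 := by
    have h1 : η ≤ 1 / (2 * (k + 1)) := min_le_left _ _
    rw [le_div_iff₀ (by positivity)] at h1
    nlinarith
  have hη2 : η ≤ 1 := by
    have h1 : η ≤ 1 / (2 * (k + 1)) := min_le_left _ _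
    refine h1.trans ?_
    rw [div_le_one (by positivity)]
    have : (0 : ℝ) ≤ k := Nat.cast_nonneg _
    linarith
  have hη3 : k * η * (k * (k * S0)) ≤ ε / 3 := by
    have h1 : η ≤ ε / (3 * (k + 1) * (k * (k * S0) + 1)) := min_le_right _ _
    rw [le_div_iff₀ (by positivity)] at h1
    have h2 : (0 : ℝ) ≤ k := Nat.cast_nonneg _
    have h3 : k * η * (k * (k * S0)) ≤ (k + 1) * η * (k * (k * S0) + 1) := by
      apply mul_le_mul
      · nlinarith
      · linarith
      · positivity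
      · positivity
    nlinarith
  set κ : ℝ := min (κf y1) (1 / (8 * (M + 1))) with hκ
  have hκpos : 0 < κ := lt_min (hκ0 y1) (by positivity)
  set T1 : ℝ := max (T0f y2) ((3 * ((2 * M + 1) * (1 + k) ^ (2 * M)) / ε) ^ 4) with hT1
  refine ⟨η, κ, T1, hη0, hκpos, (min_le_left _ _).trans (hκ1 y1), (hT0 y2).trans (le_max_left _ _), ?_⟩
  intro T hT N b hN hb hS
  have hT1' : 1 ≤ T := ((hT0 y2).trans (le_max_left _ _)).trans hT
  have hTpos : 0 < T := by linarith
  set P := (Finset.Icc 1 N).filter Nat.Prime with hP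
  -- the rewriting of the statement
  have eY : ∀ t : ℝ, (∑ j, ∑ p ∈ P, b j p * ee p (∑ d, (A j d : ℝ) * t ^ ((d : ℕ) + 1))).re = YY P b A t := by
    intro t
    unfold YY
    congr 1
    refine Finset.sum_congr rfl fun j _ => ?_
    rw [← Finset.sum_coe_sort P]
  have eV : (1 / 4 * ∑ i, ∑ j, (if A i = A j then ∑ p ∈ P, (b i p * (starRingEnd ℂ) (b j p)).re else 0) : ℝ) =
      1 / 2 * ∑ p : P, ∫ θ, XX A (fun j => b j p) θ ^ 2 ∂(nu D) := by
    simp_rw [XX_var A hA]
    rw [← Finset.mul_sum, ← mul_assoc, show (1 / 2 : ℝ) * (1 / 2) = 1 / 4 by norm_num]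
    congr 1
    symm
    rw [Finset.sum_comm]
    refine Finset.sum_congr rfl fun i _ => ?_
    rw [Finset.sum_comm]
    refine Finset.sum_congr rfl fun j _ => ?_
    by_cases h : A i = A j
    · simp only [if_pos h]
      exact Finset.sum_coe_sort P (fun p => (b i p * (starRingEnd ℂ) (b j p)).re)
    · simp only [if_neg h, Finset.sum_const_zero]
  simp_rw [eY]
  rw [eV]
  -- the moments
  set δ : ℝ := (1 + k) ^ (2 * M) * T ^ (-(1 / 4) : ℝ) with hδ
  have hkN : (k : ℝ) * P.card ≤ (1 + k) * T ^ κ := by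
    have h1 : (P.card : ℝ) ≤ N := by
      have : P.card ≤ N := (Finset.card_filter_le _ _).trans (by simp)
      exact_mod_cast this
    have h2 : (0 : ℝ) ≤ k := Nat.cast_nonneg _
    have h3 : (0 : ℝ) ≤ T ^ κ := Real.rpow_nonneg hTpos.le _
    calc (k : ℝ) * P.card ≤ k * T ^ κ := mul_le_mul_of_nonneg_left (h1.trans hN) h2
      _ ≤ (1 + k) * T ^ κ := by nlinarith
  have hbase : 1 ≤ (1 + k) * T ^ κ := by
    have h2 : (0 : ℝ) ≤ k := Nat.cast_nonneg _
    have h3 : 1 ≤ T ^ κ := Real.one_le_rpow hT1' hκpos.le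
    nlinarith
  have hmo : ∀ m ≤ 2 * M, |(1 / T) * (∫ t in T..(2 * T), YY P b A t ^ m) -
      ∫ θ, YM P b A θ ^ m ∂(Measure.pi fun _ => nu D)| ≤ δ := by
    intro m hm
    refine (mom_cmp P b (fun j p => (hb j p).trans hη2) A m T (T ^ (-(1 / 2) : ℝ))
      (Real.rpow_nonneg hTpos.le _) ?_).trans ?_
    · intro x
      have h1 := hmono ⟨⟨m, by omega⟩, fun i => ((x i).1, (x i).2.2)⟩ T
        ((hy2 _).trans ((le_max_left _ _).trans hT)) N
        (hN.trans (Real.rpow_le_rpow_of_exponent_le hT1' ((min_le_left _ _).trans (hy1 _))))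
        (fun i => ((x i).2.1 : ℕ)) (fun i => by
          have h7 := Finset.mem_filter.1 (x i).2.1.2
          exact ⟨h7.2, (Finset.mem_Icc.1 h7.1).2⟩)
      rw [model_mono]
      exact h1
    · have h1 : ((k : ℝ) * P.card) ^ m ≤ ((1 + k) * T ^ κ) ^ (2 * M) :=
        (pow_le_pow_left₀ (by positivity) hkN m).trans (pow_le_pow_right₀ hbase hm)
      have h2 : ((1 + k) * T ^ κ) ^ (2 * M) ≤ (1 + k) ^ (2 * M) * T ^ (1 / 4 : ℝ) := by
        rw [mul_pow]
        refine mul_le_mul_of_nonneg_left ?_ (by positivity)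
        rw [← Real.rpow_natCast, ← Real.rpow_mul hTpos.le]
        refine Real.rpow_le_rpow_of_exponent_le hT1' ?_
        have h3 : κ ≤ 1 / (8 * (M + 1)) := min_le_right _ _
        rw [le_div_iff₀ (by positivity)] at h3
        push_cast
        nlinarith
      calc ((k : ℝ) * P.card) ^ m * T ^ (-(1 / 2) : ℝ) ≤
            (1 + k) ^ (2 * M) * T ^ (1 / 4 : ℝ) * T ^ (-(1 / 2) : ℝ) :=
            mul_le_mul_of_nonneg_right (h1.trans h2) (Real.rpow_nonneg hTpos.le _)
        _ = δ := by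
            rw [hδ, mul_assoc, ← Real.rpow_add hTpos]
            norm_num
  refine (char_cmp P b A hA η S0 T δ M hTpos hη1 hb hS hmo).trans ?_
  have hδε : (2 * M + 1) * δ ≤ ε / 3 := by
    have h1 : 3 * ((2 * M + 1) * (1 + k) ^ (2 * M)) / ε ≤ T ^ (1 / 4 : ℝ) := by
      have h2 : (3 * ((2 * M + 1) * (1 + k) ^ (2 * M)) / ε) ^ 4 ≤ T := (le_max_right _ _).trans hT
      have h3 : (0 : ℝ) ≤ 3 * ((2 * M + 1) * (1 + k) ^ (2 * M)) / ε := by positivity
      have h5 : ∀ y : ℝ, 0 ≤ y → y = (y ^ 4) ^ (1 / 4 : ℝ) := by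
        intro y hy
        rw [← Real.rpow_natCast, ← Real.rpow_mul hy]
        norm_num
      calc 3 * ((2 * M + 1) * (1 + k) ^ (2 * M)) / ε =
            ((3 * ((2 * M + 1) * (1 + k) ^ (2 * M)) / ε) ^ 4) ^ (1 / 4 : ℝ) := h5 _ h3
        _ ≤ T ^ (1 / 4 : ℝ) := Real.rpow_le_rpow (by positivity) h2 (by norm_num)
    have hq : 0 < T ^ (1 / 4 : ℝ) := Real.rpow_pos_of_pos hTpos _
    have h4 : T ^ (-(1 / 4) : ℝ) = (T ^ (1 / 4 : ℝ))⁻¹ := Real.rpow_neg hTpos.le _
    rw [hδ, h4, ← mul_assoc, ← div_eq_mul_inv, div_le_iff₀ hq]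
    rw [div_le_iff₀ hε] at h1
    linarith
  linarith

end Pool.Agent.H203.GE
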