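import Pool.Agent.H203.GE.Defs2
import Pool.Agent.H203.GE.CLG

set_option autoImplicit false

/-! The abstract central limit theorem for prime polynomials, from the averages of monomials. -/

open Complex Filter Topology Set MeasureTheory

namespace Pool.Agent.H203.GE

open Pool.Agent.H203.ME

namespace CLAL

open CLGL (prod_sub_le cmp int_X exp_one int_pow mom_le char_one char_all re_int)

section torus

variable {ι : Type} [Fintype ι]

/-- the torus -/
abbrev KK (ι : Type) : Type := ι → AddCircle (1 : ℝ)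

/-- the Haar measure of the torus -/
noncomputable def nu (ι : Type) [Fintype ι] : Measure (KK ι) :=
  Measure.pi fun _ => (AddCircle.haarAddCircle : Measure (AddCircle (1 : ℝ)))

instance (ι : Type) [Fintype ι] : IsProbabilityMeasure (nu ι) := by
  unfold nu
  infer_instance

/-- the characters of the torus -/
noncomputable def ch (a : ι → ℤ) (θ : KK ι) : ℂ := ∏ d, (fourier (a d) (θ d) : ℂ)

theorem ch_zero (θ : KK ι) : ch (0 : ι → ℤ) θ = 1 := by
  unfold ch
  refine Finset.prod_eq_one fun d _ => ?_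
  rw [Pi.zero_apply, fourier_zero]

theorem ch_add (a b : ι → ℤ) (θ : KK ι) : ch (a + b) θ = ch a θ * ch b θ := by
  unfold ch
  rw [← Finset.prod_mul_distrib]
  refine Finset.prod_congr rfl fun d _ => ?_
  rw [Pi.add_apply, fourier_add]

theorem ch_neg (a : ι → ℤ) (θ : KK ι) : ch (-a) θ = (starRingEnd ℂ) (ch a θ) := by
  unfold ch
  rw [map_prod]
  refine Finset.prod_congr rfl fun d _ => ?_
  rw [Pi.neg_apply, fourier_neg]

theorem ch_norm (a : ι → ℤ) (θ : KK ι) : ‖ch a θ‖ = 1 := by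
  unfold ch
  rw [norm_prod]
  refine Finset.prod_eq_one fun d _ => ?_
  rw [fourier_apply]
  exact Circle.norm_coe _

theorem ch_meas (a : ι → ℤ) : Measurable (ch a) := by
  unfold ch
  refine Finset.measurable_prod _ fun d _ => ?_
  exact (fourier (a d)).continuous.measurable.comp (measurable_pi_apply d)

theorem ch_sum {κ : Type*} (s : Finset κ) (f : κ → ι → ℤ) (θ : KK ι) :
    ch (∑ i ∈ s, f i) θ = ∏ i ∈ s, ch (f i) θ := by
  classical
  induction s using Finset.induction_on with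
  | empty => rw [Finset.sum_empty, Finset.prod_empty, ch_zero]
  | insert a s ha ih => rw [Finset.sum_insert ha, Finset.prod_insert ha, ch_add, ih]

theorem four_int (n : ℤ) : ∫ x : AddCircle (1 : ℝ), (fourier n x : ℂ) ∂AddCircle.haarAddCircle =
    if n = 0 then 1 else 0 := by
  split_ifs with h
  · subst h
    have : ∀ x : AddCircle (1 : ℝ), (fourier 0 x : ℂ) = 1 := fun x => fourier_zero
    simp_rw [this]
    simp
  · exact integral_eq_zero_of_add_right_eq_neg (μ := AddCircle.haarAddCircle)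
      (fourier_add_half_inv_index h one_pos)

theorem ch_int (a : ι → ℤ) : ∫ θ, ch a θ ∂(nu ι) = if a = 0 then 1 else 0 := by
  unfold ch nu
  rw [integral_fintype_prod_eq_prod (fun d x => (fourier (a d) x : ℂ))]
  simp_rw [four_int]
  split_ifs with h
  · subst h
    simp
  · obtain ⟨d, hd⟩ := Function.ne_iff.1 h
    exact Finset.prod_eq_zero (Finset.mem_univ d) (if_neg hd)

theorem ch_integrable (a : ι → ℤ) : Integrable (ch a) (nu ι) :=
  Integrable.of_bound (ch_meas a).aestronglyMeasurable 1 (Eventually.of_forall fun θ => (ch_norm a θ).le)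

variable {k : ℕ}

/-- the variables of the model -/
noncomputable def XX (A : Fin k → ι → ℤ) (β : Fin k → ℂ) (θ : KK ι) : ℝ := (∑ j, β j * ch (A j) θ).re

theorem XX_meas (A : Fin k → ι → ℤ) (β : Fin k → ℂ) : Measurable (XX A β) := by
  unfold XX
  exact Complex.measurable_re.comp (Finset.measurable_sum _ fun j _ => (ch_meas (A j)).const_mul _)

theorem XX_le (A : Fin k → ι → ℤ) (β : Fin k → ℂ) (θ : KK ι) : |XX A β θ| ≤ ∑ j, ‖β j‖ := by
  unfold XX
  refine (Complex.abs_re_le_norm _).trans ((norm_sum_le _ _).trans (Finset.sum_le_sum fun j _ => ?_))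
  rw [norm_mul, ch_norm, mul_one]

theorem XX_int (A : Fin k → ι → ℤ) (hA : ∀ i, A i ≠ 0) (β : Fin k → ℂ) : ∫ θ, XX A β θ ∂(nu ι) = 0 := by
  unfold XX
  rw [re_int _ _ (integrable_finsetSum _ fun j _ => (ch_integrable (A j)).const_mul _),
    integral_finsetSum _ fun j _ => (ch_integrable (A j)).const_mul _, Finset.sum_eq_zero, Complex.zero_re]
  intro j _
  rw [integral_const_mul, ch_int, if_neg (hA j), mul_zero]

theorem XX_var (A : Fin k → ι → ℤ) (hA : ∀ i j, A i ≠ - A j) (β : Fin k → ℂ) :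
    ∫ θ, XX A β θ ^ 2 ∂(nu ι) =
      1 / 2 * ∑ i, ∑ j, (if A i = A j then (β i * (starRingEnd ℂ) (β j)).re else 0) := by
  have e : ∀ θ, XX A β θ ^ 2 = (∑ i, ∑ j, ((1 / 2 : ℂ) * (β i * (starRingEnd ℂ) (β j)) * ch (A i + -A j) θ +
      (1 / 2 : ℂ) * (β i * β j) * ch (A i + A j) θ)).re := by
    intro θ
    set z := ∑ j, β j * ch (A j) θ with hz
    have h1 : ∑ i, ∑ j, ((1 / 2 : ℂ) * (β i * (starRingEnd ℂ) (β j)) * ch (A i + -A j) θ +
        (1 / 2 : ℂ) * (β i * β j) * ch (A i + A j) θ) = (1 / 2 : ℂ) * (z * (starRingEnd ℂ) z + z * z) := by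
      rw [hz, map_sum, Finset.sum_mul_sum, Finset.sum_mul_sum, ← Finset.sum_add_distrib, Finset.mul_sum]
      refine Finset.sum_congr rfl fun i _ => ?_
      rw [← Finset.sum_add_distrib, Finset.mul_sum]
      refine Finset.sum_congr rfl fun j _ => ?_
      rw [ch_add, ch_add, ch_neg, map_mul]
      ring
    rw [h1]
    have h2 : XX A β θ = z.re := rfl
    rw [h2]
    simp only [Complex.mul_re, Complex.add_re, Complex.conj_re, Complex.conj_im, Complex.add_im,
      Complex.mul_im, Complex.div_ofNat_re, Complex.div_ofNat_im, Complex.one_re, Complex.one_im]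
    ring
  simp_rw [e]
  have hI : ∀ i j, Integrable (fun θ => (1 / 2 : ℂ) * (β i * (starRingEnd ℂ) (β j)) * ch (A i + -A j) θ +
      (1 / 2 : ℂ) * (β i * β j) * ch (A i + A j) θ) (nu ι) := fun i j =>
    ((ch_integrable _).const_mul _).add ((ch_integrable _).const_mul _)
  rw [re_int _ _ (integrable_finsetSum _ fun i _ => integrable_finsetSum _ fun j _ => hI i j),
    integral_finsetSum _ fun i _ => integrable_finsetSum _ fun j _ => hI i j, Complex.re_sum, Finset.mul_sum]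
  refine Finset.sum_congr rfl fun i _ => ?_
  rw [integral_finsetSum _ fun j _ => hI i j, Complex.re_sum, Finset.mul_sum]
  refine Finset.sum_congr rfl fun j _ => ?_
  rw [integral_add ((ch_integrable _).const_mul _) ((ch_integrable _).const_mul _), integral_const_mul,
    integral_const_mul, ch_int, ch_int, if_neg (fun h => hA i j (eq_neg_of_add_eq_zero_left h)), mul_zero,
    add_zero]
  by_cases h : A i = A j
  · rw [if_pos h, if_pos (by rw [h, add_neg_cancel]), mul_one]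
    have : (1 / 2 : ℂ) = ((1 / 2 : ℝ) : ℂ) := by push_cast; rfl
    rw [this, Complex.re_ofReal_mul]
  · rw [if_neg h, if_neg (fun h2 => h (by rwa [← sub_eq_add_neg, sub_eq_zero] at h2)), mul_zero, mul_zero,
      Complex.zero_re]

open Classical in
/-- the expectation of a monomial -/
theorem model_mono (P : Finset ℕ) (m : ℕ) (β : Fin m → ι → ℤ) (q : Fin m → P) :
    ∫ θ : P → KK ι, ∏ i, ch (β i) (θ (q i)) ∂(Measure.pi fun _ => nu ι) =
      if ∀ (d : ι) (p : ℕ), ∑ i, (if (q i : ℕ) = p then β i d else 0) = 0 then 1 else 0 := by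
  have e : ∀ θ : P → KK ι, ∏ i, ch (β i) (θ (q i)) = ∏ p : P, ch (∑ i, if q i = p then β i else 0) (θ p) := by
    intro θ
    simp_rw [ch_sum]
    rw [Finset.prod_comm]
    refine Finset.prod_congr rfl fun i _ => ?_
    rw [Finset.prod_eq_single (q i)]
    · rw [if_pos rfl]
    · intro p _ hp
      rw [if_neg (Ne.symm hp), ch_zero]
    · intro h
      exact absurd (Finset.mem_univ _) h
  simp_rw [e]
  rw [integral_fintype_prod_eq_prod (fun (p : P) θ => ch (∑ i, if q i = p then β i else 0) θ)]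
  simp_rw [ch_int]
  by_cases h : ∀ (d : ι) (p : ℕ), ∑ i, (if (q i : ℕ) = p then β i d else 0) = 0
  · rw [if_pos h]
    refine Finset.prod_eq_one fun p _ => if_pos ?_
    funext d
    rw [Finset.sum_apply, Pi.zero_apply]
    rw [← h d p]
    refine Finset.sum_congr rfl fun i _ => ?_
    by_cases h2 : q i = p
    · rw [if_pos h2, if_pos (by rw [h2])]
    · rw [if_neg h2, if_neg (fun h3 => h2 (Subtype.ext h3)), Pi.zero_apply]
  · rw [if_neg h]
    push Not at h
    obtain ⟨d, p, hp⟩ := h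
    have hpP : p ∈ P := by
      by_contra h2
      refine hp (Finset.sum_eq_zero fun i _ => if_neg fun h3 => h2 ?_)
      rw [← h3]
      exact (q i).2
    refine Finset.prod_eq_zero (Finset.mem_univ (⟨p, hpP⟩ : P)) (if_neg fun h4 => hp ?_)
    have h5 := congrFun h4 d
    rw [Finset.sum_apply, Pi.zero_apply] at h5
    refine Eq.trans ?_ h5
    refine Finset.sum_congr rfl fun i _ => ?_
    by_cases h2 : (q i : ℕ) = p
    · rw [if_pos h2, if_pos (Subtype.ext h2)]
    · rw [if_neg h2, if_neg (fun h3 => h2 (by rw [h3])), Pi.zero_apply]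

/-- the coefficients of the expansion -/
noncomputable def cf {P : Finset ℕ} (b : Fin k → ℕ → ℂ) (a : Fin k × P × Bool) : ℂ :=
  if a.2.2 then b a.1 a.2.1 / 2 else (starRingEnd ℂ) (b a.1 a.2.1) / 2

/-- the exponents of the expansion -/
def be (A : Fin k → ι → ℤ) (a : Fin k × Bool) (d : ι) : ℤ := if a.2 then A a.1 d else - A a.1 d

theorem re_expand {P : Finset ℕ} (b : Fin k → ℕ → ℂ) (W : Fin k → P → Bool → ℂ)
    (hW : ∀ j p, W j p false = (starRingEnd ℂ) (W j p true)) :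
    (((∑ j, ∑ p : P, b j p * W j p true).re : ℝ) : ℂ) =
      ∑ a : Fin k × P × Bool, cf b a * W a.1 a.2.1 a.2.2 := by
  rw [Complex.re_eq_add_conj, map_sum, ← Finset.sum_add_distrib, Finset.sum_div, Fintype.sum_prod_type]
  refine Finset.sum_congr rfl fun j _ => ?_
  rw [map_sum, ← Finset.sum_add_distrib, Finset.sum_div, Fintype.sum_prod_type]
  refine Finset.sum_congr rfl fun p _ => ?_
  rw [Fintype.sum_bool, map_mul, hW]
  unfold cf
  simp only [if_true, Bool.false_eq_true, if_false]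
  ring

theorem pow_expand {P : Finset ℕ} (b : Fin k → ℕ → ℂ) (W : Fin k → P → Bool → ℂ)
    (hW : ∀ j p, W j p false = (starRingEnd ℂ) (W j p true)) (m : ℕ) :
    ((((∑ j, ∑ p : P, b j p * W j p true).re) ^ m : ℝ) : ℂ) =
      ∑ x : Fin m → Fin k × P × Bool, (∏ i, cf b (x i)) * ∏ i, W (x i).1 (x i).2.1 (x i).2.2 := by
  rw [Complex.ofReal_pow, re_expand b W hW, Fintype.sum_pow]
  refine Finset.sum_congr rfl fun x _ => ?_
  rw [Finset.prod_mul_distrib]

theorem cf_norm {P : Finset ℕ} (b : Fin k → ℕ → ℂ) (a : Fin k × P × Bool) : ‖cf b a‖ = ‖b a.1 a.2.1‖ / 2 := by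
  unfold cf
  split_ifs
  · rw [norm_div, Complex.norm_ofNat]
  · rw [norm_div, Complex.norm_ofNat, Complex.norm_conj]

theorem cf_sum {P : Finset ℕ} (b : Fin k → ℕ → ℂ) (hb : ∀ j p, ‖b j p‖ ≤ 1) :
    ∑ a : Fin k × P × Bool, ‖cf b a‖ ≤ k * P.card := by
  calc ∑ a : Fin k × P × Bool, ‖cf b a‖ ≤ ∑ _a : Fin k × P × Bool, (1 / 2 : ℝ) := by
        refine Finset.sum_le_sum fun a _ => ?_
        rw [cf_norm]
        have := hb a.1 a.2.1
        linarith
    _ = k * P.card := by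
        rw [Finset.sum_const, Finset.card_univ, Fintype.card_prod, Fintype.card_prod, Fintype.card_fin,
          Fintype.card_bool, Fintype.card_coe, nsmul_eq_mul]
        push_cast
        ring

/-- the prime polynomial -/
noncomputable def YY {Ω : Type} (Ψ : ι → Ω → ℝ) (P : Finset ℕ) (b : Fin k → ℕ → ℂ) (A : Fin k → ι → ℤ) (ω : Ω) : ℝ :=
  (∑ j, ∑ p : P, b j p * ee p (∑ d, (A j d : ℝ) * Ψ d ω)).re

/-- the model -/
noncomputable def YM (P : Finset ℕ) (b : Fin k → ℕ → ℂ) (A : Fin k → ι → ℤ) (θ : P → KK ι) : ℝ :=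
  ∑ p : P, XX A (fun j => b j p) (θ p)

theorem YM_eq (P : Finset ℕ) (b : Fin k → ℕ → ℂ) (A : Fin k → ι → ℤ) (θ : P → KK ι) :
    YM P b A θ = (∑ j, ∑ p : P, b j p * ch (A j) (θ p)).re := by
  unfold YM XX
  rw [Finset.sum_comm, Complex.re_sum]

theorem ee_cont (n : ℕ) : Continuous (ee n) := by
  unfold ee
  fun_prop

theorem ee_norm (n : ℕ) (t : ℝ) : ‖ee n t‖ = 1 := by
  unfold ee
  rw [← neg_mul, ← Complex.ofReal_neg, Complex.norm_exp_ofReal_mul_I]

theorem ee_neg (n : ℕ) (t : ℝ) : ee n (-t) = (starRingEnd ℂ) (ee n t) := by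
  unfold ee
  rw [← Complex.exp_conj, map_neg, map_mul, Complex.conj_ofReal, Complex.conj_I]
  congr 1
  push_cast
  ring

theorem YY_meas {Ω : Type} [MeasurableSpace Ω] (Ψ : ι → Ω → ℝ) (hΨ : ∀ d, Measurable (Ψ d)) (P : Finset ℕ)
    (b : Fin k → ℕ → ℂ) (A : Fin k → ι → ℤ) : Measurable (YY Ψ P b A) := by
  unfold YY
  refine Complex.measurable_re.comp (Finset.measurable_sum _ fun j _ => Finset.measurable_sum _ fun p _ => ?_)
  refine ((ee_cont _).measurable.comp (Finset.measurable_sum _ fun d _ => ?_)).const_mul _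
  exact (hΨ d).const_mul _

theorem YY_le {Ω : Type} (Ψ : ι → Ω → ℝ) (P : Finset ℕ) (b : Fin k → ℕ → ℂ) (A : Fin k → ι → ℤ) (ω : Ω) :
    |YY Ψ P b A ω| ≤ ∑ j, ∑ p : P, ‖b j p‖ := by
  unfold YY
  refine (Complex.abs_re_le_norm _).trans ((norm_sum_le _ _).trans (Finset.sum_le_sum fun j _ => ?_))
  refine (norm_sum_le _ _).trans (Finset.sum_le_sum fun p _ => ?_)
  rw [norm_mul, ee_norm, mul_one]

theorem YY_pow {Ω : Type} [MeasurableSpace Ω] (μ : Measure Ω) [IsProbabilityMeasure μ] (Ψ : ι → Ω → ℝ)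
    (hΨ : ∀ d, Measurable (Ψ d)) (P : Finset ℕ) (b : Fin k → ℕ → ℂ) (A : Fin k → ι → ℤ) (m : ℕ) :
    Integrable (fun ω => YY Ψ P b A ω ^ m) μ := by
  refine Integrable.of_bound ((YY_meas Ψ hΨ P b A).pow_const m).aestronglyMeasurable
    ((∑ j, ∑ p : P, ‖b j p‖) ^ m) (Eventually.of_forall fun ω => ?_)
  rw [norm_pow, Real.norm_eq_abs]
  exact pow_le_pow_left₀ (abs_nonneg _) (YY_le Ψ P b A ω) m

theorem mom_cmp {Ω : Type} [MeasurableSpace Ω] (μ : Measure Ω) [IsProbabilityMeasure μ] (Ψ : ι → Ω → ℝ)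
    (hΨ : ∀ d, Measurable (Ψ d)) (P : Finset ℕ) (b : Fin k → ℕ → ℂ) (hb : ∀ j p, ‖b j p‖ ≤ 1)
    (A : Fin k → ι → ℤ) (m : ℕ) (δ : ℝ) (hδ : 0 ≤ δ) (h : ∀ x : Fin m → Fin k × P × Bool,
      ‖(∫ ω, ∏ i, ee (x i).2.1 (∑ d, (be A ((x i).1, (x i).2.2) d : ℝ) * Ψ d ω) ∂μ) -
        ∫ θ : P → KK ι, ∏ i, ch (be A ((x i).1, (x i).2.2)) (θ (x i).2.1) ∂(Measure.pi fun _ => nu ι)‖ ≤ δ) :
    |(∫ ω, YY Ψ P b A ω ^ m ∂μ) -
      ∫ θ, YM P b A θ ^ m ∂(Measure.pi fun _ => nu ι)| ≤ (k * P.card : ℝ) ^ m * δ := by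
  have hintW : ∀ x : Fin m → Fin k × P × Bool, Integrable (fun ω : Ω =>
      ∏ i, ee (x i).2.1 (∑ d, (be A ((x i).1, (x i).2.2) d : ℝ) * Ψ d ω)) μ := by
    intro x
    refine Integrable.of_bound ?_ 1 (Eventually.of_forall fun θ => ?_)
    · have h3 : Measurable fun ω : Ω => ∏ i, ee (x i).2.1 (∑ d, (be A ((x i).1, (x i).2.2) d : ℝ) * Ψ d ω) :=
        Finset.measurable_prod _ fun i _ => (ee_cont _).measurable.comp
          (Finset.measurable_sum _ fun d _ => (hΨ d).const_mul _)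
      exact h3.aestronglyMeasurable
    · rw [norm_prod]
      exact (Finset.prod_eq_one fun i _ => ee_norm _ _).le
  have e1 : (((∫ ω, YY Ψ P b A ω ^ m ∂μ : ℝ)) : ℂ) =
      ∑ x : Fin m → Fin k × P × Bool, (∏ i, cf b (x i)) *
        (∫ ω, ∏ i, ee (x i).2.1 (∑ d, (be A ((x i).1, (x i).2.2) d : ℝ) * Ψ d ω) ∂μ) := by
    rw [← integral_complex_ofReal]
    have e2 : ∀ ω : Ω, ((YY Ψ P b A ω ^ m : ℝ) : ℂ) = ∑ x : Fin m → Fin k × P × Bool, (∏ i, cf b (x i)) *
        ∏ i, ee (x i).2.1 (∑ d, (be A ((x i).1, (x i).2.2) d : ℝ) * Ψ d ω) := by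
      intro ω
      have h2 := pow_expand b (fun j (p : P) s => ee p (∑ d, (be A (j, s) d : ℝ) * Ψ d ω))
        (fun j p => by
          rw [← ee_neg]
          congr 1
          rw [← Finset.sum_neg_distrib]
          refine Finset.sum_congr rfl fun d _ => ?_
          unfold be
          simp only [Bool.false_eq_true, if_false, if_true]
          push_cast
          ring) m
      rw [← h2]
      rfl
    simp_rw [e2]
    rw [integral_finsetSum _ fun x _ => (hintW x).const_mul _]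
    refine Finset.sum_congr rfl fun x _ => ?_
    rw [integral_const_mul]
  have hint : ∀ x : Fin m → Fin k × P × Bool, Integrable (fun θ : P → KK ι =>
      ∏ i, ch (be A ((x i).1, (x i).2.2)) (θ (x i).2.1)) (Measure.pi fun _ => nu ι) := by
    intro x
    refine Integrable.of_bound ?_ 1 (Eventually.of_forall fun θ => ?_)
    · have h3 : Measurable fun θ : P → KK ι => ∏ i, ch (be A ((x i).1, (x i).2.2)) (θ (x i).2.1) :=
        Finset.measurable_prod _ fun i _ => (ch_meas _).comp (measurable_pi_apply (x i).2.1)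
      exact h3.aestronglyMeasurable
    · rw [norm_prod]
      exact (Finset.prod_eq_one fun i _ => ch_norm _ _).le
  have e3 : (((∫ θ, YM P b A θ ^ m ∂(Measure.pi fun _ => nu ι) : ℝ)) : ℂ) =
      ∑ x : Fin m → Fin k × P × Bool, (∏ i, cf b (x i)) *
        ∫ θ : P → KK ι, ∏ i, ch (be A ((x i).1, (x i).2.2)) (θ (x i).2.1) ∂(Measure.pi fun _ => nu ι) := by
    rw [← integral_complex_ofReal]
    have e4 : ∀ θ : P → KK ι, ((YM P b A θ ^ m : ℝ) : ℂ) = ∑ x : Fin m → Fin k × P × Bool,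
        (∏ i, cf b (x i)) * ∏ i, ch (be A ((x i).1, (x i).2.2)) (θ (x i).2.1) := by
      intro θ
      have h2 := pow_expand b (fun j (p : P) s => ch (be A (j, s)) (θ p))
        (fun j p => by
          rw [← ch_neg]
          congr 1) m
      rw [← h2, YM_eq]
      rfl
    simp_rw [e4]
    rw [integral_finsetSum _ fun x _ => (hint x).const_mul _]
    refine Finset.sum_congr rfl fun x _ => ?_
    rw [integral_const_mul]
  rw [← Real.norm_eq_abs, ← Complex.norm_real, Complex.ofReal_sub, e1, e3, ← Finset.sum_sub_distrib]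
  calc ‖∑ x : Fin m → Fin k × P × Bool, ((∏ i, cf b (x i)) *
        (∫ ω, ∏ i, ee (x i).2.1 (∑ d, (be A ((x i).1, (x i).2.2) d : ℝ) * Ψ d ω) ∂μ) -
        (∏ i, cf b (x i)) *
        ∫ θ : P → KK ι, ∏ i, ch (be A ((x i).1, (x i).2.2)) (θ (x i).2.1) ∂(Measure.pi fun _ => nu ι))‖
      ≤ ∑ x : Fin m → Fin k × P × Bool, (∏ i, ‖cf b (x i)‖) * δ := by
        refine (norm_sum_le _ _).trans (Finset.sum_le_sum fun x _ => ?_)
        rw [← mul_sub, norm_mul, norm_prod]
        exact mul_le_mul_of_nonneg_left (h x) (Finset.prod_nonneg fun _ _ => norm_nonneg _)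
    _ = (∑ a : Fin k × P × Bool, ‖cf b a‖) ^ m * δ := by
        rw [Fintype.sum_pow, Finset.sum_mul]
    _ ≤ (k * P.card : ℝ) ^ m * δ := by
        refine mul_le_mul_of_nonneg_right (pow_le_pow_left₀ (Finset.sum_nonneg fun _ _ => norm_nonneg _)
          (cf_sum b hb) m) hδ

end torus

/-- comparison of the characteristic functions -/
theorem char_cmp {k : ℕ} {ι : Type} [Fintype ι] {Ω : Type} [MeasurableSpace Ω] (ρ : Measure Ω)
    [IsProbabilityMeasure ρ] (Ψ : ι → Ω → ℝ) (hΨ : ∀ d, Measurable (Ψ d)) (P : Finset ℕ) (b : Fin k → ℕ → ℂ)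
    (A : Fin k → ι → ℤ) (hA : ∀ i j, A i ≠ - A j) (η S0 δ : ℝ) (M : ℕ) (hη : k * η ≤ 1 / 2)
    (hb : ∀ j p, ‖b j p‖ ≤ η) (hS : ∀ j, ∑ p ∈ P, ‖b j p‖ ^ 2 ≤ S0)
    (hmo : ∀ m ≤ 2 * M, |(∫ ω, YY Ψ P b A ω ^ m ∂ρ) -
      ∫ θ, YM P b A θ ^ m ∂(Measure.pi fun _ => nu ι)| ≤ δ) :
    ‖(∫ ω, cexp (I * (YY Ψ P b A ω : ℂ)) ∂ρ) -
      cexp (-((1 / 2 * ∑ p : P, ∫ θ, XX A (fun j => b j p) θ ^ 2 ∂(nu ι) : ℝ) : ℂ))‖ ≤
      4 * Real.exp (4 * (k * (k * S0))) / 4 ^ M + (2 * M + 1) * δ + k * η * (k * (k * S0)) := by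
  set μ : Measure (P → KK ι) := Measure.pi fun _ => nu ι with hμ
  set c : P → ℝ := fun p => ∑ j, ‖b j p‖ with hc
  have hAi : ∀ i, A i ≠ 0 := by
    intro i h
    apply hA i i
    rw [h, neg_zero]
  have hm : ∀ p : P, Measurable (XX A (fun j => b j p)) := fun p => XX_meas A _
  have hXc : ∀ (p : P) θ, |XX A (fun j => b j p) θ| ≤ c p := fun p θ => XX_le A _ θ
  have hcη : ∀ p, c p ≤ k * η := by
    intro p
    calc c p ≤ ∑ _j : Fin k, η := Finset.sum_le_sum fun j _ => hb j p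
      _ = k * η := by simp
  have hc0 : ∀ p, 0 ≤ c p := fun p => Finset.sum_nonneg fun j _ => norm_nonneg _
  have hc2 : ∀ p, c p ≤ 1 / 2 := fun p => (hcη p).trans hη
  have h0 : ∀ p : P, ∫ θ, XX A (fun j => b j p) θ ∂(nu ι) = 0 := fun p => XX_int A hAi _
  have hcs : ∑ p, c p ^ 2 ≤ k * (k * S0) := by
    calc ∑ p, c p ^ 2 ≤ ∑ p : P, (k : ℝ) * ∑ j, ‖b j p‖ ^ 2 := by
          refine Finset.sum_le_sum fun p _ => ?_
          have := sq_sum_le_card_mul_sum_sq (s := (Finset.univ : Finset (Fin k))) (f := fun j => ‖b j p‖)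
          simpa using this
      _ = k * ∑ j, ∑ p ∈ P, ‖b j p‖ ^ 2 := by
          rw [← Finset.mul_sum, Finset.sum_comm]
          congr 1
          refine Finset.sum_congr rfl fun j _ => ?_
          rw [← Finset.sum_coe_sort P]
      _ ≤ k * ∑ _j : Fin k, S0 := by
          refine mul_le_mul_of_nonneg_left (Finset.sum_le_sum fun j _ => hS j) (Nat.cast_nonneg _)
      _ = k * (k * S0) := by simp
  have hc3 : ∑ p, c p ^ 3 ≤ k * η * (k * (k * S0)) := by
    calc ∑ p, c p ^ 3 ≤ ∑ p, k * η * c p ^ 2 := by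
          refine Finset.sum_le_sum fun p _ => ?_
          have h1 : c p ^ 3 = c p * c p ^ 2 := by ring
          rw [h1]
          exact mul_le_mul_of_nonneg_right (hcη p) (sq_nonneg _)
      _ = k * η * ∑ p, c p ^ 2 := by rw [Finset.mul_sum]
      _ ≤ k * η * (k * (k * S0)) := by
          rcases isEmpty_or_nonempty (Fin k) with h | ⟨⟨j0⟩⟩
          · have hk : (k : ℝ) = 0 := by
              have := Fintype.card_eq_zero (α := Fin k)
              rw [Fintype.card_fin] at this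
              rw [this, Nat.cast_zero]
            rw [hk]
            simp
          · have hη0 : 0 ≤ η := (norm_nonneg _).trans (hb j0 0)
            exact mul_le_mul_of_nonneg_left hcs (by positivity)
  -- the model
  have m1 := char_all (nu ι) (fun (p : P) => XX A (fun j => b j p)) c hm hXc hc2 h0
  have m2 := cmp μ (YM P b A) (by
      unfold YM
      exact Finset.measurable_sum _ fun p _ => (hm p).comp (measurable_pi_apply p))
    (fun m => int_pow (nu ι) (fun (p : P) => XX A (fun j => b j p)) c hm hXc m) M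
  have m3 := mom_le (nu ι) (fun (p : P) => XX A (fun j => b j p)) c hm hXc hc2 h0 M
  change ‖∫ θ, cexp (I * ((YM P b A θ : ℝ) : ℂ)) ∂μ - _‖ ≤ _ at m1
  change (∫ θ, YM P b A θ ^ (2 * M) ∂μ) / _ ≤ _ at m3
  have m4 : (∫ θ, YM P b A θ ^ (2 * M) ∂μ) / (2 * M).factorial ≤
      2 * Real.exp (4 * (k * (k * S0))) / 4 ^ M := by
    refine m3.trans (div_le_div_of_nonneg_right (mul_le_mul_of_nonneg_left (Real.exp_le_exp.2 ?_)
      (by norm_num)) (by positivity))
    linarith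
  -- the time average
  have t1 := cmp ρ (YY Ψ P b A) (YY_meas Ψ hΨ P b A) (fun m => YY_pow ρ Ψ hΨ P b A m) M
  have hδ : 0 ≤ δ := (abs_nonneg _).trans (hmo 0 (Nat.zero_le _))
  have hfac : (1 : ℝ) ≤ (2 * M).factorial := by exact_mod_cast Nat.factorial_pos (2 * M)
  -- the last moment
  have t2 : (∫ ω, YY Ψ P b A ω ^ (2 * M) ∂ρ) / (2 * M).factorial ≤
      2 * Real.exp (4 * (k * (k * S0))) / 4 ^ M + δ := by
    have h1 := (abs_le.1 (hmo (2 * M) le_rfl)).2
    have h2 : (∫ ω, YY Ψ P b A ω ^ (2 * M) ∂ρ) / (2 * M).factorial ≤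
        ((∫ θ, YM P b A θ ^ (2 * M) ∂μ) + δ) / (2 * M).factorial := by
      refine div_le_div_of_nonneg_right ?_ (by positivity)
      linarith
    refine h2.trans ?_
    rw [add_div]
    refine add_le_add m4 (div_le_self hδ hfac)
  -- the other moments
  have t3 : ‖(∑ m ∈ Finset.range (2 * M), I ^ m / (m.factorial : ℂ) *
      ((∫ ω, YY Ψ P b A ω ^ m ∂ρ : ℝ) : ℂ)) -
      ∑ m ∈ Finset.range (2 * M), I ^ m / (m.factorial : ℂ) * ((∫ θ, YM P b A θ ^ m ∂μ : ℝ) : ℂ)‖ ≤
      2 * M * δ := by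
    rw [← Finset.sum_sub_distrib]
    calc ‖∑ m ∈ Finset.range (2 * M), (I ^ m / (m.factorial : ℂ) *
      ((∫ ω, YY Ψ P b A ω ^ m ∂ρ : ℝ) : ℂ) -
        I ^ m / (m.factorial : ℂ) * ((∫ θ, YM P b A θ ^ m ∂μ : ℝ) : ℂ))‖ ≤
        ∑ m ∈ Finset.range (2 * M), δ := by
          refine (norm_sum_le _ _).trans (Finset.sum_le_sum fun m hm' => ?_)
          rw [← mul_sub, norm_mul, norm_div, norm_pow, Complex.norm_I, one_pow, Complex.norm_natCast,
            ← Complex.ofReal_sub, Complex.norm_real, Real.norm_eq_abs]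
          have h5 : (1 : ℝ) ≤ m.factorial := by exact_mod_cast Nat.factorial_pos m
          have h6 := hmo m (Finset.mem_range.1 hm').le
          calc 1 / (m.factorial : ℝ) * _ ≤ 1 * δ :=
              mul_le_mul (by rw [div_le_one (by linarith)]; exact h5) h6 (abs_nonneg _) zero_le_one
            _ = δ := one_mul _
      _ = 2 * M * δ := by
          rw [Finset.sum_const, Finset.card_range, nsmul_eq_mul]
          push_cast
          ring
  have r1 := norm_sub_le_norm_sub_add_norm_sub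
    (∫ ω, cexp (I * (YY Ψ P b A ω : ℂ)) ∂ρ)
    (∑ m ∈ Finset.range (2 * M), I ^ m / (m.factorial : ℂ) *
      ((∫ ω, YY Ψ P b A ω ^ m ∂ρ : ℝ) : ℂ))
    (cexp (-((1 / 2 * ∑ p : P, ∫ θ, XX A (fun j => b j p) θ ^ 2 ∂(nu ι) : ℝ) : ℂ)))
  have r2 := norm_sub_le_norm_sub_add_norm_sub
    (∑ m ∈ Finset.range (2 * M), I ^ m / (m.factorial : ℂ) *
      ((∫ ω, YY Ψ P b A ω ^ m ∂ρ : ℝ) : ℂ))
    (∑ m ∈ Finset.range (2 * M), I ^ m / (m.factorial : ℂ) * ((∫ θ, YM P b A θ ^ m ∂μ : ℝ) : ℂ))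
    (cexp (-((1 / 2 * ∑ p : P, ∫ θ, XX A (fun j => b j p) θ ^ 2 ∂(nu ι) : ℝ) : ℂ)))
  have r3 := norm_sub_le_norm_sub_add_norm_sub
    (∑ m ∈ Finset.range (2 * M), I ^ m / (m.factorial : ℂ) * ((∫ θ, YM P b A θ ^ m ∂μ : ℝ) : ℂ))
    (∫ θ, cexp (I * ((YM P b A θ : ℝ) : ℂ)) ∂μ)
    (cexp (-((1 / 2 * ∑ p : P, ∫ θ, XX A (fun j => b j p) θ ^ 2 ∂(nu ι) : ℝ) : ℂ)))
  rw [norm_sub_rev] at m2
  have e5 : 4 * Real.exp (4 * (k * (k * S0))) / 4 ^ M = 2 * Real.exp (4 * (k * (k * S0))) / 4 ^ M +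
    2 * Real.exp (4 * (k * (k * S0))) / 4 ^ M := by ring
  rw [e5]
  linarith

end CLAL

open CLAL in
open Classical in
theorem t_CLA : S_CLA := by
  intro k ι _ A hA S0 ε hS0 hε
  set B : ℝ := Real.exp (4 * (k * (k * S0))) with hB
  have hB0 : 0 < B := Real.exp_pos _
  -- the number of moments
  obtain ⟨M, hMε⟩ : ∃ M : ℕ, 4 * B / 4 ^ M ≤ ε / 3 := by
    have hlim : Tendsto (fun M : ℕ => 4 * B * (1 / 4 : ℝ) ^ M) atTop (𝓝 (4 * B * 0)) :=
      (tendsto_pow_atTop_nhds_zero_of_lt_one (by norm_num) (by norm_num)).const_mul _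
    rw [mul_zero] at hlim
    obtain ⟨M, hM⟩ := (hlim.eventually (gt_mem_nhds (show (0 : ℝ) < ε / 3 by positivity))).exists
    refine ⟨M, ?_⟩
    have h1 : 4 * B / 4 ^ M = 4 * B * (1 / 4 : ℝ) ^ M := by
      rw [one_div, inv_pow, div_eq_mul_inv]
    rw [h1]
    exact hM.le
  have hk0 : (0 : ℝ) ≤ k := Nat.cast_nonneg _
  set η1 : ℝ := min (1 / (2 * (k + 1))) (ε / (3 * (k + 1) * (k * (k * S0) + 1))) with hη
  have hη0 : 0 < η1 := lt_min (by positivity) (by positivity)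
  have hη1 : (k : ℝ) * η1 ≤ 1 / 2 := by
    have h1 : η1 ≤ 1 / (2 * (k + 1)) := min_le_left _ _
    rw [le_div_iff₀ (by positivity)] at h1
    nlinarith
  have hη2 : η1 ≤ 1 := by
    have h1 : η1 ≤ 1 / (2 * (k + 1)) := min_le_left _ _
    refine h1.trans ?_
    rw [div_le_one (by positivity)]
    linarith
  have hη3 : k * η1 * (k * (k * S0)) ≤ ε / 3 := by
    have h1 : η1 ≤ ε / (3 * (k + 1) * (k * (k * S0) + 1)) := min_le_right _ _
    rw [le_div_iff₀ (by positivity)] at h1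
    have h3 : k * η1 * (k * (k * S0)) ≤ (k + 1) * η1 * (k * (k * S0) + 1) := by
      apply mul_le_mul
      · nlinarith
      · linarith
      · positivity
      · positivity
    nlinarith
  set η2 : ℝ := ε / (3 * (2 * M + 1) * (1 + k) ^ (2 * M)) with hη2d
  have hη20 : 0 < η2 := by positivity
  refine ⟨min η1 η2, 2 * M, ∑ j, ∑ d, (A j d).natAbs, lt_min hη0 hη20, ?_⟩
  intro Ω _ μ _ Ψ hΨ N δ hmono hδN b hb hS
  set P := (Finset.Icc 1 N).filter Nat.Prime with hP
  have hδ0 : 0 ≤ δ := (norm_nonneg _).trans (hmono 0 (Nat.zero_le _) (fun i => i.elim0) (fun i => i.elim0)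
    (fun i => i.elim0) (fun i => i.elim0))
  have hb1 : ∀ j p, ‖b j p‖ ≤ η1 := fun j p => (hb j p).trans (min_le_left _ _)
  -- the rewriting of the statement
  have eY : ∀ ω : Ω, (∑ j, ∑ p ∈ P, b j p * ee p (∑ d, (A j d : ℝ) * Ψ d ω)).re = YY Ψ P b A ω := by
    intro ω
    unfold YY
    congr 1
    refine Finset.sum_congr rfl fun j _ => ?_
    rw [← Finset.sum_coe_sort P]
  have eV : (1 / 4 * ∑ i, ∑ j, (if A i = A j then ∑ p ∈ P, (b i p * (starRingEnd ℂ) (b j p)).re else 0) : ℝ) =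
      1 / 2 * ∑ p : P, ∫ θ, XX A (fun j => b j p) θ ^ 2 ∂(nu ι) := by
    simp_rw [XX_var A hA]
    rw [← Finset.mul_sum, ← mul_assoc, show (1 / 2 : ℝ) * (1 / 2) = 1 / 4 by norm_num]
    congr 1
    symm
    rw [Finset.sum_comm]
    refine Finset.sum_congr rfl fun i _ => ?_
    rw [Finset.sum_comm]
    refine Finset.sum_congr rfl fun j _ => ?_
    by_cases h : A i = A j
    · simp only [if_pos h]
      exact Finset.sum_coe_sort P (fun p => (b i p * (starRingEnd ℂ) (b j p)).re)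
    · simp only [if_neg h, Finset.sum_const_zero]
  simp_rw [eY]
  rw [eV]
  -- the moments
  have hkN : (k : ℝ) * P.card ≤ (1 + k) * ((N : ℝ) + 1) := by
    have h1 : (P.card : ℝ) ≤ N := by
      have : P.card ≤ N := (Finset.card_filter_le _ _).trans (by simp)
      exact_mod_cast this
    have h3 : (0 : ℝ) ≤ N := Nat.cast_nonneg _
    nlinarith
  have hbase : 1 ≤ (1 + k) * ((N : ℝ) + 1) := by
    have h3 : (0 : ℝ) ≤ N := Nat.cast_nonneg _
    nlinarith
  have hAb : ∀ (a : Fin k × Bool) (d : ι), |be A a d| ≤ ((∑ j, ∑ d, (A j d).natAbs : ℕ) : ℤ) := by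
    intro a d
    have h1 : |be A a d| = ((A a.1 d).natAbs : ℤ) := by
      unfold be
      split_ifs
      · exact Int.abs_eq_natAbs _
      · rw [abs_neg]
        exact Int.abs_eq_natAbs _
    rw [h1]
    have h2 : (A a.1 d).natAbs ≤ ∑ d, (A a.1 d).natAbs :=
      Finset.single_le_sum (f := fun d => (A a.1 d).natAbs) (fun _ _ => Nat.zero_le _) (Finset.mem_univ d)
    have h3 : ∑ d, (A a.1 d).natAbs ≤ ∑ j, ∑ d, (A j d).natAbs :=
      Finset.single_le_sum (f := fun j => ∑ d, (A j d).natAbs) (fun _ _ => Nat.zero_le _) (Finset.mem_univ a.1)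
    exact_mod_cast h2.trans h3
  have hmo : ∀ m ≤ 2 * M, |(∫ ω, YY Ψ P b A ω ^ m ∂μ) -
      ∫ θ, YM P b A θ ^ m ∂(Measure.pi fun _ => nu ι)| ≤ (1 + k) ^ (2 * M) * η2 := by
    intro m hm
    refine (mom_cmp μ Ψ hΨ P b (fun j p => (hb1 j p).trans hη2) A m δ hδ0 ?_).trans ?_
    · intro x
      have h1 := hmono m hm (fun i => be A ((x i).1, (x i).2.2)) (fun i d => hAb _ _)
        (fun i => ((x i).2.1 : ℕ)) (fun i => by
          have h7 := Finset.mem_filter.1 (x i).2.1.2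
          exact ⟨h7.2, (Finset.mem_Icc.1 h7.1).2⟩)
      rw [model_mono]
      exact h1
    · have h1 : ((k : ℝ) * P.card) ^ m ≤ ((1 + k) * ((N : ℝ) + 1)) ^ (2 * M) :=
        (pow_le_pow_left₀ (by positivity) hkN m).trans (pow_le_pow_right₀ hbase hm)
      calc ((k : ℝ) * P.card) ^ m * δ ≤ ((1 + k) * ((N : ℝ) + 1)) ^ (2 * M) * δ :=
            mul_le_mul_of_nonneg_right h1 hδ0
        _ = (1 + k) ^ (2 * M) * (δ * ((N : ℝ) + 1) ^ (2 * M)) := by
            rw [mul_pow]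
            ring
        _ ≤ (1 + k) ^ (2 * M) * η2 :=
            mul_le_mul_of_nonneg_left (hδN.trans (min_le_right _ _)) (by positivity)
  refine (char_cmp μ Ψ hΨ P b A hA η1 S0 _ M hη1 hb1 hS hmo).trans ?_
  have hδε : (2 * M + 1) * ((1 + k) ^ (2 * M) * η2) = ε / 3 := by
    rw [hη2d]
    have h1 : (1 + (k : ℝ)) ^ (2 * M) ≠ 0 := by positivity
    have h2 : (2 * (M : ℝ) + 1) ≠ 0 := by positivity
    field_simp
  rw [hδε]
  linarith

end Pool.Agent.H203.GE
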