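import Pool.Agent.H203.GE.Defs

set_option autoImplicit false

/-! The limits of the covariances of prime sums. -/

open Complex Filter Topology Set MeasureTheory

namespace Pool.Agent.H203.GE

open Pool.Agent.H203.ME

namespace COXL

open ArithmeticFunction

/-- decay of the transform and of its derivative -/
theorem bd {f : ℝ → ℝ} (hf : ContDiff ℝ 2 f) (hs : HasCompactSupport f) :
    ∃ D : ℝ, 0 ≤ D ∧ (∀ u, ‖FF f u‖ ≤ D * (1 + u ^ 2)⁻¹) ∧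
      (∀ u, ‖deriv (FF f) u‖ ≤ D * (1 + u ^ 2)⁻¹) ∧
      (∀ u, HasDerivAt (FF f) (deriv (FF f) u) u) ∧ Continuous (deriv (FF f)) := by
  obtain ⟨D1, hD1, h1⟩ := ADML.decay' hf hs
  have hg : ContDiff ℝ 2 (fun s => s * f s) := contDiff_id.mul hf
  have hgs : HasCompactSupport (fun s => s * f s) := hs.mul_left
  obtain ⟨D2, hD2, h2⟩ := ADML.decay' hg hgs
  have h3 := VARL.FF_hasDeriv hf.continuous hs
  have h4 : deriv (FF f) = fun ξ => -I * FF (fun s => s * f s) ξ := funext fun ξ => (h3 ξ).deriv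
  refine ⟨D1 + D2, by positivity, fun u => ?_, fun u => ?_, fun u => ?_, ?_⟩
  · refine (h1 u).trans (mul_le_mul_of_nonneg_right (by linarith) (by positivity))
  · rw [h4]
    simp only [norm_mul, norm_neg, Complex.norm_I, one_mul]
    exact (h2 u).trans (mul_le_mul_of_nonneg_right (by linarith) (by positivity))
  · rw [h4]
    exact h3 u
  · rw [h4]
    exact continuous_const.mul (VARL.FF_cont hg.continuous hgs)

/-- the weight -/
noncomputable def al (h x : ℝ) : ℝ := (1 + (h * x) ^ 2)⁻¹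

theorem al_pos (h x : ℝ) : 0 < al h x := by unfold al; positivity

theorem al_le (h x : ℝ) : al h x ≤ 1 := by
  unfold al
  exact inv_le_one_of_one_le₀ (by nlinarith [sq_nonneg (h * x)])

theorem sq_al (h x : ℝ) : (h * x) ^ 2 * al h x ≤ 1 := by
  unfold al
  rw [← div_eq_mul_inv, div_le_one (by positivity)]
  linarith

theorem lin_al (h x : ℝ) : (h * x) * al h x ≤ 1 := by
  unfold al
  rw [← div_eq_mul_inv, div_le_one (by positivity)]
  nlinarith [sq_nonneg (h * x - 1)]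

theorem al_cont (h : ℝ) : Continuous (al h) := by
  unfold al
  exact Continuous.inv₀ (by fun_prop) fun x => by positivity

theorem al_deriv (h x : ℝ) : HasDerivAt (al h) (-(2 * h * (h * x)) * al h x ^ 2) x := by
  have h1 : HasDerivAt (fun x : ℝ => 1 + (h * x) ^ 2) (2 * (h * x) * h) x := by
    have h2 : HasDerivAt (fun x : ℝ => h * x) h x := by
      simpa using (hasDerivAt_id x).const_mul h
    have h3 := (h2.pow 2).const_add 1
    simpa using h3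
  have h2 := h1.inv (by positivity)
  unfold al
  have e : -(2 * (h * x) * h) / (1 + (h * x) ^ 2) ^ 2 =
      -(2 * h * (h * x)) * ((1 + (h * x) ^ 2)⁻¹) ^ 2 := by
    rw [inv_pow, div_eq_mul_inv]
    ring
  rw [← e]
  exact h2

/-- the integral of the weight -/
theorem int_al (h c : ℝ) : ∫ x in (0 : ℝ)..c, h * al h x = Real.arctan (h * c) := by
  have h1 : ∀ x ∈ uIcc (0 : ℝ) c, HasDerivAt (fun x => Real.arctan (h * x)) (h * al h x) x := by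
    intro x _
    have h2 : HasDerivAt (fun x : ℝ => h * x) h x := by
      simpa using (hasDerivAt_id x).const_mul h
    have h3 := (Real.hasDerivAt_arctan (h * x)).comp x h2
    have e : 1 / (1 + (h * x) ^ 2) * h = h * al h x := by
      unfold al
      rw [one_div]
      ring
    rw [e] at h3
    exact h3
  rw [intervalIntegral.integral_eq_sub_of_hasDerivAt h1
    ((continuous_const.mul (al_cont h)).intervalIntegrable _ _)]
  simp

theorem int_al_le (h c : ℝ) : ∫ x in (0 : ℝ)..c, h * al h x ≤ 2 := by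
  rw [int_al]
  have h1 := Real.arctan_lt_pi_div_two (h * c)
  have h2 := Real.pi_le_four
  linarith

/-- the weighted product -/
noncomputable def Ph (f g : ℝ → ℝ) (h₁ h₂ x : ℝ) : ℂ :=
  ((x * h₁ * h₂ : ℝ) : ℂ) * (FF f (h₁ * x) * (starRingEnd ℂ) (FF g (h₂ * x)))

noncomputable def Ph' (f g : ℝ → ℝ) (h₁ h₂ x : ℝ) : ℂ :=
  ((h₁ * h₂ : ℝ) : ℂ) * (FF f (h₁ * x) * (starRingEnd ℂ) (FF g (h₂ * x))) +
    ((x * h₁ * h₂ : ℝ) : ℂ) * ((h₁ : ℂ) * deriv (FF f) (h₁ * x) * (starRingEnd ℂ) (FF g (h₂ * x)) +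
      FF f (h₁ * x) * ((h₂ : ℂ) * (starRingEnd ℂ) (deriv (FF g) (h₂ * x))))

theorem scomp_lin {F : ℝ → ℂ} (h x : ℝ) (hd : HasDerivAt F (deriv F (h * x)) (h * x)) :
    HasDerivAt (fun x => F (h * x)) ((h : ℂ) * deriv F (h * x)) x := by
  have h2 : HasDerivAt (fun x : ℝ => h * x) h x := by
    simpa using (hasDerivAt_id x).const_mul h
  have h3 := hd.scomp x h2
  rw [Complex.real_smul] at h3
  exact h3

theorem Ph_deriv {f g : ℝ → ℝ} (hf : ∀ u, HasDerivAt (FF f) (deriv (FF f) u) u)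
    (hg : ∀ u, HasDerivAt (FF g) (deriv (FF g) u) u) (h₁ h₂ x : ℝ) :
    HasDerivAt (Ph f g h₁ h₂) (Ph' f g h₁ h₂ x) x := by
  have a1 := scomp_lin h₁ x (hf (h₁ * x))
  have a2 := scomp_lin h₂ x (hg (h₂ * x))
  have a3 : HasDerivAt (fun x => (starRingEnd ℂ) (FF g (h₂ * x)))
      ((starRingEnd ℂ) ((h₂ : ℂ) * deriv (FF g) (h₂ * x))) x :=
    Complex.conjCLE.toContinuousLinearMap.hasFDerivAt.comp_hasDerivAt x a2
  have a4 : HasDerivAt (fun x : ℝ => ((x * h₁ * h₂ : ℝ) : ℂ)) ((h₁ * h₂ : ℝ) : ℂ) x := by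
    have : HasDerivAt (fun x : ℝ => x * h₁ * h₂) (h₁ * h₂) x := by
      simpa using ((hasDerivAt_id x).mul_const h₁).mul_const h₂
    exact this.ofReal_comp
  have a5 := a4.mul (a1.mul a3)
  have e : ((h₁ * h₂ : ℝ) : ℂ) * (FF f (h₁ * x) * (starRingEnd ℂ) (FF g (h₂ * x))) +
      ((x * h₁ * h₂ : ℝ) : ℂ) * ((h₁ : ℂ) * deriv (FF f) (h₁ * x) *
        (starRingEnd ℂ) (FF g (h₂ * x)) +
      FF f (h₁ * x) * ((starRingEnd ℂ) ((h₂ : ℂ) * deriv (FF g) (h₂ * x)))) =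
      Ph' f g h₁ h₂ x := by
    unfold Ph'
    rw [map_mul, Complex.conj_ofReal]
  rw [← e]
  exact a5

theorem Ph'_cont {f g : ℝ → ℝ} (hf : ∀ u, HasDerivAt (FF f) (deriv (FF f) u) u)
    (hg : ∀ u, HasDerivAt (FF g) (deriv (FF g) u) u) (hf' : Continuous (deriv (FF f)))
    (hg' : Continuous (deriv (FF g))) (h₁ h₂ : ℝ) : Continuous (Ph' f g h₁ h₂) := by
  have hfc : Continuous (FF f) := continuous_iff_continuousAt.2 fun u => (hf u).continuousAt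
  have hgc : Continuous (FF g) := continuous_iff_continuousAt.2 fun u => (hg u).continuousAt
  have c1 : Continuous (fun x => FF f (h₁ * x)) := hfc.comp (by fun_prop)
  have c2 : Continuous (fun x => (starRingEnd ℂ) (FF g (h₂ * x))) :=
    Complex.continuous_conj.comp (hgc.comp (by fun_prop))
  have c3 : Continuous (fun x => deriv (FF f) (h₁ * x)) := hf'.comp (by fun_prop)
  have c4 : Continuous (fun x => (starRingEnd ℂ) (deriv (FF g) (h₂ * x))) :=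
    Complex.continuous_conj.comp (hg'.comp (by fun_prop))
  have c5 : Continuous (fun x : ℝ => ((x * h₁ * h₂ : ℝ) : ℂ)) := by fun_prop
  exact (continuous_const.mul (c1.mul c2)).add
    (c5.mul (((continuous_const.mul c3).mul c2).add (c1.mul (continuous_const.mul c4))))

theorem Ph_le {f g : ℝ → ℝ} {D : ℝ} (hD : 0 ≤ D) (hf : ∀ u, ‖FF f u‖ ≤ D * (1 + u ^ 2)⁻¹)
    (hg : ∀ u, ‖FF g u‖ ≤ D * (1 + u ^ 2)⁻¹) {h₁ h₂ x : ℝ} (h1 : 0 < h₁) (h2 : 0 < h₂)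
    (hx : 0 ≤ x) : ‖Ph f g h₁ h₂ x‖ ≤ D ^ 2 * (x * h₁ * h₂ * al h₁ x * al h₂ x) := by
  unfold Ph
  rw [norm_mul, norm_mul, Complex.norm_real, Real.norm_of_nonneg (by positivity),
    Complex.norm_conj]
  have a1 : ‖FF f (h₁ * x)‖ ≤ D * al h₁ x := hf _
  have a2 : ‖FF g (h₂ * x)‖ ≤ D * al h₂ x := hg _
  have b1 := (al_pos h₁ x).le
  have b2 := (al_pos h₂ x).le
  calc x * h₁ * h₂ * (‖FF f (h₁ * x)‖ * ‖FF g (h₂ * x)‖) ≤
        x * h₁ * h₂ * ((D * al h₁ x) * (D * al h₂ x)) := by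
        apply mul_le_mul_of_nonneg_left _ (by positivity)
        exact mul_le_mul a1 a2 (norm_nonneg _) (by positivity)
    _ = _ := by ring

theorem Ph_le1 {f g : ℝ → ℝ} {D : ℝ} (hD : 0 ≤ D) (hf : ∀ u, ‖FF f u‖ ≤ D * (1 + u ^ 2)⁻¹)
    (hg : ∀ u, ‖FF g u‖ ≤ D * (1 + u ^ 2)⁻¹) {h₁ h₂ x : ℝ} (h1 : 0 < h₁) (h2 : 0 < h₂)
    (hx : 0 ≤ x) : ‖Ph f g h₁ h₂ x‖ ≤ D ^ 2 * h₁ := by
  refine (Ph_le hD hf hg h1 h2 hx).trans (mul_le_mul_of_nonneg_left ?_ (by positivity))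
  have b1 := (al_pos h₁ x).le
  have b2 := (al_pos h₂ x).le
  calc x * h₁ * h₂ * al h₁ x * al h₂ x = h₁ * (al h₁ x * ((h₂ * x) * al h₂ x)) := by ring
    _ ≤ h₁ * (1 * 1) := by
        apply mul_le_mul_of_nonneg_left _ h1.le
        exact mul_le_mul (al_le _ _) (lin_al _ _) (by positivity) (by norm_num)
    _ = h₁ := by ring

theorem Ph_le2 {f g : ℝ → ℝ} {D : ℝ} (hD : 0 ≤ D) (hf : ∀ u, ‖FF f u‖ ≤ D * (1 + u ^ 2)⁻¹)
    (hg : ∀ u, ‖FF g u‖ ≤ D * (1 + u ^ 2)⁻¹) {h₁ h₂ x : ℝ} (h1 : 0 < h₁) (h2 : 0 < h₂)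
    (hx : 0 ≤ x) : ‖Ph f g h₁ h₂ x‖ ≤ D ^ 2 * (h₁ * h₂) * x := by
  refine (Ph_le hD hf hg h1 h2 hx).trans ?_
  have b1 := (al_pos h₁ x).le
  have b2 := (al_pos h₂ x).le
  calc D ^ 2 * (x * h₁ * h₂ * al h₁ x * al h₂ x) =
        (D ^ 2 * (h₁ * h₂) * x) * (al h₁ x * al h₂ x) := by ring
    _ ≤ (D ^ 2 * (h₁ * h₂) * x) * (1 * 1) := by
        apply mul_le_mul_of_nonneg_left _ (by positivity)
        exact mul_le_mul (al_le _ _) (al_le _ _) b2 (by norm_num)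
    _ = _ := by ring

theorem Ph'_le {f g : ℝ → ℝ} {D : ℝ} (hD : 0 ≤ D) (hf : ∀ u, ‖FF f u‖ ≤ D * (1 + u ^ 2)⁻¹)
    (hg : ∀ u, ‖FF g u‖ ≤ D * (1 + u ^ 2)⁻¹)
    (hf' : ∀ u, ‖deriv (FF f) u‖ ≤ D * (1 + u ^ 2)⁻¹)
    (hg' : ∀ u, ‖deriv (FF g) u‖ ≤ D * (1 + u ^ 2)⁻¹) {h₁ h₂ x : ℝ} (h1 : 0 < h₁)
    (h2 : 0 < h₂) (hx : 0 ≤ x) :
    ‖Ph' f g h₁ h₂ x‖ ≤ D ^ 2 * ((h₁ + h₂) * (h₁ * al h₁ x) + h₂ * (h₂ * al h₂ x)) := by
  unfold Ph'
  have a1 : ‖FF f (h₁ * x)‖ ≤ D * al h₁ x := hf _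
  have a2 : ‖FF g (h₂ * x)‖ ≤ D * al h₂ x := hg _
  have a3 : ‖deriv (FF f) (h₁ * x)‖ ≤ D * al h₁ x := hf' _
  have a4 : ‖deriv (FF g) (h₂ * x)‖ ≤ D * al h₂ x := hg' _
  have b1 := (al_pos h₁ x).le
  have b2 := (al_pos h₂ x).le
  have c1 : ‖((h₁ * h₂ : ℝ) : ℂ) * (FF f (h₁ * x) * (starRingEnd ℂ) (FF g (h₂ * x)))‖ ≤
      h₁ * h₂ * ((D * al h₁ x) * (D * al h₂ x)) := by
    rw [norm_mul, norm_mul, Complex.norm_real, Real.norm_of_nonneg (by positivity),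
      Complex.norm_conj]
    apply mul_le_mul_of_nonneg_left _ (by positivity)
    exact mul_le_mul a1 a2 (norm_nonneg _) (by positivity)
  have c2 : ‖(h₁ : ℂ) * deriv (FF f) (h₁ * x) * (starRingEnd ℂ) (FF g (h₂ * x))‖ ≤
      h₁ * ((D * al h₁ x) * (D * al h₂ x)) := by
    rw [norm_mul, norm_mul, Complex.norm_real, Real.norm_of_nonneg h1.le, Complex.norm_conj,
      mul_assoc]
    apply mul_le_mul_of_nonneg_left _ h1.le
    exact mul_le_mul a3 a2 (norm_nonneg _) (by positivity)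
  have c3 : ‖FF f (h₁ * x) * ((h₂ : ℂ) * (starRingEnd ℂ) (deriv (FF g) (h₂ * x)))‖ ≤
      h₂ * ((D * al h₁ x) * (D * al h₂ x)) := by
    rw [norm_mul, norm_mul, Complex.norm_real, Real.norm_of_nonneg h2.le, Complex.norm_conj]
    calc ‖FF f (h₁ * x)‖ * (h₂ * ‖deriv (FF g) (h₂ * x)‖) =
          h₂ * (‖FF f (h₁ * x)‖ * ‖deriv (FF g) (h₂ * x)‖) := by ring
      _ ≤ _ := by
          apply mul_le_mul_of_nonneg_left _ h2.le
          exact mul_le_mul a1 a4 (norm_nonneg _) (by positivity)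
  have c4 : ‖((x * h₁ * h₂ : ℝ) : ℂ) * ((h₁ : ℂ) * deriv (FF f) (h₁ * x) *
      (starRingEnd ℂ) (FF g (h₂ * x)) +
      FF f (h₁ * x) * ((h₂ : ℂ) * (starRingEnd ℂ) (deriv (FF g) (h₂ * x))))‖ ≤
      x * h₁ * h₂ * (h₁ * ((D * al h₁ x) * (D * al h₂ x)) +
        h₂ * ((D * al h₁ x) * (D * al h₂ x))) := by
    rw [norm_mul, Complex.norm_real, Real.norm_of_nonneg (by positivity)]
    apply mul_le_mul_of_nonneg_left _ (by positivity)
    exact (norm_add_le _ _).trans (add_le_add c2 c3)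
  refine ((norm_add_le _ _).trans (add_le_add c1 c4)).trans ?_
  have d1 : h₁ * h₂ * (al h₁ x * al h₂ x) ≤ h₂ * (h₁ * al h₁ x) := by
    calc h₁ * h₂ * (al h₁ x * al h₂ x) ≤ h₁ * h₂ * (al h₁ x * 1) := by
          apply mul_le_mul_of_nonneg_left _ (by positivity)
          exact mul_le_mul_of_nonneg_left (al_le _ _) b1
      _ = _ := by ring
  have d2 : x * h₁ * h₂ * (h₁ * (al h₁ x * al h₂ x)) ≤ h₁ * (h₁ * al h₁ x) := by
    calc x * h₁ * h₂ * (h₁ * (al h₁ x * al h₂ x)) =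
          (h₁ * (h₁ * al h₁ x)) * ((h₂ * x) * al h₂ x) := by ring
      _ ≤ (h₁ * (h₁ * al h₁ x)) * 1 := mul_le_mul_of_nonneg_left (lin_al _ _) (by positivity)
      _ = _ := by ring
  have d3 : x * h₁ * h₂ * (h₂ * (al h₁ x * al h₂ x)) ≤ h₂ * (h₂ * al h₂ x) := by
    calc x * h₁ * h₂ * (h₂ * (al h₁ x * al h₂ x)) =
          (h₂ * (h₂ * al h₂ x)) * ((h₁ * x) * al h₁ x) := by ring
      _ ≤ (h₂ * (h₂ * al h₂ x)) * 1 := mul_le_mul_of_nonneg_left (lin_al _ _) (by positivity)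
      _ = _ := by ring
  calc h₁ * h₂ * ((D * al h₁ x) * (D * al h₂ x)) + x * h₁ * h₂ *
        (h₁ * ((D * al h₁ x) * (D * al h₂ x)) + h₂ * ((D * al h₁ x) * (D * al h₂ x))) =
        D ^ 2 * (h₁ * h₂ * (al h₁ x * al h₂ x) + x * h₁ * h₂ * (h₁ * (al h₁ x * al h₂ x)) +
          x * h₁ * h₂ * (h₂ * (al h₁ x * al h₂ x))) := by ring
    _ ≤ D ^ 2 * (h₂ * (h₁ * al h₁ x) + h₁ * (h₁ * al h₁ x) + h₂ * (h₂ * al h₂ x)) := by
        apply mul_le_mul_of_nonneg_left _ (by positivity)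
        linarith
    _ = _ := by ring

theorem int_Ph' {f g : ℝ → ℝ} {D : ℝ} (hD : 0 ≤ D) (hf : ∀ u, ‖FF f u‖ ≤ D * (1 + u ^ 2)⁻¹)
    (hg : ∀ u, ‖FF g u‖ ≤ D * (1 + u ^ 2)⁻¹)
    (hf' : ∀ u, ‖deriv (FF f) u‖ ≤ D * (1 + u ^ 2)⁻¹)
    (hg' : ∀ u, ‖deriv (FF g) u‖ ≤ D * (1 + u ^ 2)⁻¹)
    (hfd : ∀ u, HasDerivAt (FF f) (deriv (FF f) u) u)
    (hgd : ∀ u, HasDerivAt (FF g) (deriv (FF g) u) u) (hfc : Continuous (deriv (FF f)))
    (hgc : Continuous (deriv (FF g))) {h₁ h₂ c : ℝ} (h1 : 0 < h₁)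
    (h2 : 0 < h₂) (hc : 0 ≤ c) :
    ∫ x in (0 : ℝ)..c, ‖Ph' f g h₁ h₂ x‖ ≤ 4 * D ^ 2 * (h₁ + h₂) := by
  have i1 : IntervalIntegrable (fun x => h₁ * al h₁ x) volume 0 c :=
    (continuous_const.mul (al_cont h₁)).intervalIntegrable _ _
  have i2 : IntervalIntegrable (fun x => h₂ * al h₂ x) volume 0 c :=
    (continuous_const.mul (al_cont h₂)).intervalIntegrable _ _
  have e1 : ∫ x in (0 : ℝ)..c, D ^ 2 * ((h₁ + h₂) * (h₁ * al h₁ x) + h₂ * (h₂ * al h₂ x)) =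
      D ^ 2 * ((h₁ + h₂) * (∫ x in (0 : ℝ)..c, h₁ * al h₁ x) +
        h₂ * ∫ x in (0 : ℝ)..c, h₂ * al h₂ x) := by
    rw [intervalIntegral.integral_const_mul,
      intervalIntegral.integral_add (i1.const_mul _) (i2.const_mul _),
      intervalIntegral.integral_const_mul (h₁ + h₂),
      intervalIntegral.integral_const_mul h₂ (fun x => h₂ * al h₂ x)]
  have e2 : ∫ x in (0 : ℝ)..c, ‖Ph' f g h₁ h₂ x‖ ≤
      ∫ x in (0 : ℝ)..c, D ^ 2 * ((h₁ + h₂) * (h₁ * al h₁ x) + h₂ * (h₂ * al h₂ x)) := by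
    refine intervalIntegral.integral_mono_on hc
      ((Ph'_cont hfd hgd hfc hgc h₁ h₂).norm.intervalIntegrable _ _) ?_ ?_
    · exact ((i1.const_mul _).add (i2.const_mul _)).const_mul _
    · intro x hx
      exact Ph'_le hD hf hg hf' hg' h1 h2 hx.1
  refine e2.trans ?_
  rw [e1]
  have f1 := int_al_le h₁ c
  have f2 := int_al_le h₂ c
  calc D ^ 2 * ((h₁ + h₂) * (∫ x in (0 : ℝ)..c, h₁ * al h₁ x) +
        h₂ * ∫ x in (0 : ℝ)..c, h₂ * al h₂ x) ≤ D ^ 2 * ((h₁ + h₂) * 2 + h₂ * 2) := by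
        apply mul_le_mul_of_nonneg_left _ (by positivity)
        exact add_le_add (mul_le_mul_of_nonneg_left f1 (by positivity))
          (mul_le_mul_of_nonneg_left f2 h2.le)
    _ ≤ D ^ 2 * (4 * (h₁ + h₂)) := by
        apply mul_le_mul_of_nonneg_left _ (by positivity)
        linarith
    _ = _ := by ring

/-- partial summation with bounded sums -/
theorem abel {v : ℕ → ℂ} {C : ℝ}
    (hC : ∀ M : ℕ, ‖∑ n ∈ Finset.Icc 1 M, ((vonMangoldt n / n : ℝ) : ℂ) * v n‖ ≤ C)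
    {Φ Φ' : ℝ → ℂ} (hd : ∀ x, HasDerivAt Φ (Φ' x) x) (hc : Continuous Φ') (N : ℕ) (hN : 1 ≤ N) :
    ‖(∑ n ∈ Finset.Icc 1 N, ((vonMangoldt n / n : ℝ) : ℂ) * v n * Φ (Real.log n)) -
      (∑ n ∈ Finset.Icc 1 N, ((vonMangoldt n / n : ℝ) : ℂ) * v n) * Φ (Real.log N)‖ ≤
      C * ∫ x in (0 : ℝ)..(Real.log N), ‖Φ' x‖ := by
  have hC0 : 0 ≤ C := (norm_nonneg _).trans (hC 0)
  induction N, hN using Nat.le_induction with
  | base => simp
  | succ n hn ih =>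
    obtain ⟨a, ha⟩ : ∃ a : ℝ, a = Real.log (n : ℝ) := ⟨_, rfl⟩
    obtain ⟨b, hb⟩ : ∃ b : ℝ, b = Real.log ((n + 1 : ℕ) : ℝ) := ⟨_, rfl⟩
    have hab : a ≤ b := by
      rw [ha, hb]
      exact VARL.log_mono n hn
    rw [Finset.sum_Icc_succ_top (by omega), Finset.sum_Icc_succ_top (by omega), ← hb]
    rw [← ha] at ih
    rw [← intervalIntegral.integral_add_adjacent_intervals (hc.norm.intervalIntegrable 0 a)
      (hc.norm.intervalIntegrable a b)]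
    obtain ⟨S, hS⟩ : ∃ S : ℂ,
      S = ∑ n ∈ Finset.Icc 1 n, ((vonMangoldt n / n : ℝ) : ℂ) * v n * Φ (Real.log n) := ⟨_, rfl⟩
    obtain ⟨A, hA⟩ : ∃ A : ℂ,
      A = ∑ k ∈ Finset.Icc 1 n, ((vonMangoldt k / k : ℝ) : ℂ) * v k := ⟨_, rfl⟩
    have hAC : ‖A‖ ≤ C := by rw [hA]; exact hC n
    rw [← hS, ← hA] at ih
    rw [← hS, ← hA]
    have h1 : Φ b - Φ a = ∫ x in a..b, Φ' x :=
      (intervalIntegral.integral_eq_sub_of_hasDerivAt (fun y _ => hd y)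
        (hc.intervalIntegrable _ _)).symm
    have h2 : ‖Φ b - Φ a‖ ≤ ∫ x in a..b, ‖Φ' x‖ := by
      rw [h1]
      exact intervalIntegral.norm_integral_le_integral_norm hab
    have h3 : ‖A * (Φ b - Φ a)‖ ≤ C * ∫ x in a..b, ‖Φ' x‖ := by
      rw [norm_mul]
      exact mul_le_mul hAC h2 (norm_nonneg _) hC0
    obtain ⟨t, ht⟩ : ∃ t : ℂ,
      t = ((vonMangoldt (n + 1) / ((n + 1 : ℕ) : ℝ) : ℝ) : ℂ) * v (n + 1) := ⟨_, rfl⟩
    rw [← ht]
    have h4 : S + t * Φ b - (A + t) * Φ b = (S - A * Φ a) - A * (Φ b - Φ a) := by ring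
    rw [h4, mul_add]
    exact (norm_sub_le _ _).trans (add_le_add ih h3)

/-- the majorant -/
noncomputable def ps (h₁ h₂ x : ℝ) : ℝ := x * h₁ * h₂ * al h₁ x * al h₂ x

noncomputable def ps' (h₁ h₂ x : ℝ) : ℝ :=
  h₁ * h₂ * al h₁ x * al h₂ x + x * h₁ * h₂ * (-(2 * h₁ * (h₁ * x)) * al h₁ x ^ 2) * al h₂ x +
    x * h₁ * h₂ * al h₁ x * (-(2 * h₂ * (h₂ * x)) * al h₂ x ^ 2)

theorem ps_symm (h₁ h₂ x : ℝ) : ps h₁ h₂ x = ps h₂ h₁ x := by
  unfold ps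
  ring

theorem ps_deriv (h₁ h₂ x : ℝ) : HasDerivAt (ps h₁ h₂) (ps' h₁ h₂ x) x := by
  have h1 : HasDerivAt (fun x : ℝ => x * h₁ * h₂) (h₁ * h₂) x := by
    simpa using ((hasDerivAt_id x).mul_const h₁).mul_const h₂
  have h2 := (h1.mul (al_deriv h₁ x)).mul (al_deriv h₂ x)
  have e : (h₁ * h₂ * al h₁ x + x * h₁ * h₂ * (-(2 * h₁ * (h₁ * x)) * al h₁ x ^ 2)) * al h₂ x +
      x * h₁ * h₂ * al h₁ x * (-(2 * h₂ * (h₂ * x)) * al h₂ x ^ 2) = ps' h₁ h₂ x := by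
    unfold ps'
    ring
  rw [← e]
  exact h2

theorem ps'_cont (h₁ h₂ : ℝ) : Continuous (ps' h₁ h₂) := by
  have c1 := al_cont h₁
  have c2 := al_cont h₂
  unfold ps'
  fun_prop

theorem ps_cont (h₁ h₂ : ℝ) : Continuous (ps h₁ h₂) := by
  have c1 := al_cont h₁
  have c2 := al_cont h₂
  unfold ps
  fun_prop

theorem ps_nonneg {h₁ h₂ x : ℝ} (h1 : 0 < h₁) (h2 : 0 < h₂) (hx : 0 ≤ x) : 0 ≤ ps h₁ h₂ x := by
  have b1 := (al_pos h₁ x).le
  have b2 := (al_pos h₂ x).le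
  unfold ps
  positivity

theorem ps_le1 {h₁ h₂ x : ℝ} (h1 : 0 < h₁) (h2 : 0 < h₂) (hx : 0 ≤ x) : ps h₁ h₂ x ≤ h₁ := by
  have b1 := (al_pos h₁ x).le
  have b2 := (al_pos h₂ x).le
  unfold ps
  calc x * h₁ * h₂ * al h₁ x * al h₂ x = h₁ * (al h₁ x * ((h₂ * x) * al h₂ x)) := by ring
    _ ≤ h₁ * (1 * 1) := by
        apply mul_le_mul_of_nonneg_left _ h1.le
        exact mul_le_mul (al_le _ _) (lin_al _ _) (by positivity) (by norm_num)
    _ = h₁ := by ring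

theorem ps'_le {h₁ h₂ x : ℝ} (h1 : 0 < h₁) (h2 : 0 < h₂) (_hx : 0 ≤ x) :
    |ps' h₁ h₂ x| ≤ 5 * h₂ * (h₁ * al h₁ x) := by
  have b1 := (al_pos h₁ x).le
  have b2 := (al_pos h₂ x).le
  have e : ps' h₁ h₂ x = h₁ * h₂ * al h₁ x * al h₂ x *
      (1 - 2 * ((h₁ * x) ^ 2 * al h₁ x) - 2 * ((h₂ * x) ^ 2 * al h₂ x)) := by
    unfold ps'
    ring
  have s1 := sq_al h₁ x
  have s2 := sq_al h₂ x
  have t1 : 0 ≤ (h₁ * x) ^ 2 * al h₁ x := by positivity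
  have t2 : 0 ≤ (h₂ * x) ^ 2 * al h₂ x := by positivity
  have h3 : |1 - 2 * ((h₁ * x) ^ 2 * al h₁ x) - 2 * ((h₂ * x) ^ 2 * al h₂ x)| ≤ 5 := by
    rw [abs_le]
    constructor <;> linarith
  have h4 : 0 ≤ h₁ * h₂ * al h₁ x * al h₂ x := by positivity
  rw [e, abs_mul, abs_of_nonneg h4]
  calc h₁ * h₂ * al h₁ x * al h₂ x *
        |1 - 2 * ((h₁ * x) ^ 2 * al h₁ x) - 2 * ((h₂ * x) ^ 2 * al h₂ x)| ≤
        h₁ * h₂ * al h₁ x * al h₂ x * 5 := mul_le_mul_of_nonneg_left h3 h4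
    _ ≤ h₁ * h₂ * al h₁ x * 1 * 5 := by
        have := al_le h₂ x
        gcongr
    _ = _ := by ring

theorem ps_le2 {h₁ h₂ x : ℝ} (h1 : 0 < h₁) (h2 : 0 < h₂) (_hx : 0 ≤ x) :
    ps h₁ h₂ x ≤ Real.sqrt (h₁ / h₂) / 2 * (h₁ * al h₁ x + h₂ * al h₂ x) := by
  obtain ⟨r, hr⟩ : ∃ r : ℝ, r = Real.sqrt (h₁ / h₂) := ⟨_, rfl⟩
  have hr0 : 0 ≤ r := by rw [hr]; exact Real.sqrt_nonneg _
  have hr2 : r ^ 2 * h₂ = h₁ := by
    rw [hr, Real.sq_sqrt (by positivity), div_mul_cancel₀ _ h2.ne']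
  rw [← hr]
  have b1 := (al_pos h₁ x).le
  have b2 := (al_pos h₂ x).le
  have s0 := al_le h₁ x
  have s2 := sq_al h₂ x
  obtain ⟨α, hα⟩ : ∃ α : ℝ, α = al h₁ x := ⟨_, rfl⟩
  obtain ⟨β, hβ⟩ : ∃ β : ℝ, β = al h₂ x := ⟨_, rfl⟩
  unfold ps
  rw [← hα, ← hβ]
  rw [← hα] at b1 s0
  rw [← hβ] at b2 s2
  have k1 : x * h₁ * h₂ * α * β ≤ r / 2 * (h₁ * α ^ 2 + h₂ * ((h₂ * x) ^ 2 * β) * β) := by
    rw [← hr2]
    have := mul_nonneg (mul_nonneg hr0 h2.le) (sq_nonneg (r * α - h₂ * x * β))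
    nlinarith
  have k2 : h₁ * α ^ 2 ≤ h₁ * α := by
    apply mul_le_mul_of_nonneg_left _ h1.le
    nlinarith
  have k3 : h₂ * ((h₂ * x) ^ 2 * β) * β ≤ h₂ * β := by
    calc h₂ * ((h₂ * x) ^ 2 * β) * β = (h₂ * β) * ((h₂ * x) ^ 2 * β) := by ring
      _ ≤ (h₂ * β) * 1 := mul_le_mul_of_nonneg_left s2 (by positivity)
      _ = _ := by ring
  refine k1.trans (mul_le_mul_of_nonneg_left (add_le_add k2 k3) (by positivity))

/-- the sum of the majorant -/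
theorem sum_ps {h₁ h₂ : ℝ} (h1 : 0 < h₁) (h2 : 0 < h₂) (N : ℕ) (hN : 1 ≤ N) :
    ∑ n ∈ Finset.Icc 1 N, vonMangoldt n / n * ps h₁ h₂ (Real.log n) ≤
      2 * Real.sqrt (h₁ / h₂) + 6 * h₁ + 70 * h₂ := by
  have hlog : 0 ≤ Real.log (N : ℝ) := Real.log_natCast_nonneg N
  have a1 := VARL.sum_int (ps_deriv h₁ h₂) (ps'_cont h₁ h₂) N hN
  have a2 := VARL.mert N hN
  obtain ⟨c, hc⟩ : ∃ c : ℝ, c = Real.log (N : ℝ) := ⟨_, rfl⟩
  rw [← hc] at a1 a2 hlog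
  have a3 : |((∑ k ∈ Finset.Icc 1 N, vonMangoldt k / k) - c) * ps h₁ h₂ c| ≤ 6 * h₁ := by
    rw [abs_mul, abs_of_nonneg (ps_nonneg h1 h2 hlog)]
    exact mul_le_mul a2 (ps_le1 h1 h2 hlog) (ps_nonneg h1 h2 hlog) (by norm_num)
  have i1 : IntervalIntegrable (fun x => h₁ * al h₁ x) volume 0 c :=
    (continuous_const.mul (al_cont h₁)).intervalIntegrable _ _
  have i2 : IntervalIntegrable (fun x => h₂ * al h₂ x) volume 0 c :=
    (continuous_const.mul (al_cont h₂)).intervalIntegrable _ _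
  have f1 := int_al_le h₁ c
  have f2 := int_al_le h₂ c
  have a4 : ∫ x in (0 : ℝ)..c, |ps' h₁ h₂ x| ≤ 10 * h₂ := by
    have e1 : ∫ x in (0 : ℝ)..c, 5 * h₂ * (h₁ * al h₁ x) =
        5 * h₂ * ∫ x in (0 : ℝ)..c, h₁ * al h₁ x :=
      intervalIntegral.integral_const_mul _ _
    calc ∫ x in (0 : ℝ)..c, |ps' h₁ h₂ x| ≤ ∫ x in (0 : ℝ)..c, 5 * h₂ * (h₁ * al h₁ x) := by
          refine intervalIntegral.integral_mono_on hlog
            ((ps'_cont h₁ h₂).abs.intervalIntegrable _ _) (i1.const_mul _) ?_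
          intro x hx
          exact ps'_le h1 h2 hx.1
      _ = 5 * h₂ * ∫ x in (0 : ℝ)..c, h₁ * al h₁ x := e1
      _ ≤ 5 * h₂ * 2 := mul_le_mul_of_nonneg_left f1 (by positivity)
      _ = _ := by ring
  have a5 : ∫ x in (0 : ℝ)..c, ps h₁ h₂ x ≤ 2 * Real.sqrt (h₁ / h₂) := by
    have hr0 : 0 ≤ Real.sqrt (h₁ / h₂) := Real.sqrt_nonneg _
    calc ∫ x in (0 : ℝ)..c, ps h₁ h₂ x ≤
          ∫ x in (0 : ℝ)..c, Real.sqrt (h₁ / h₂) / 2 * (h₁ * al h₁ x + h₂ * al h₂ x) := by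
          refine intervalIntegral.integral_mono_on hlog
            ((ps_cont h₁ h₂).intervalIntegrable _ _) ((i1.add i2).const_mul _) ?_
          intro x hx
          exact ps_le2 h1 h2 hx.1
      _ = Real.sqrt (h₁ / h₂) / 2 * ((∫ x in (0 : ℝ)..c, h₁ * al h₁ x) +
            ∫ x in (0 : ℝ)..c, h₂ * al h₂ x) := by
          rw [intervalIntegral.integral_const_mul, intervalIntegral.integral_add i1 i2]
      _ ≤ Real.sqrt (h₁ / h₂) / 2 * (2 + 2) := by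
          apply mul_le_mul_of_nonneg_left _ (by positivity)
          exact add_le_add f1 f2
      _ = _ := by ring
  rw [abs_le] at a1 a3
  linarith [a1.2, a3.2]

/-- the covariance in terms of `Ph` -/
theorem KV_eq (v : ℕ → ℂ) (f g : ℝ → ℝ) (h₁ h₂ : ℝ) (N : ℕ) : KV v f g h₁ h₂ N =
    1 / (2 * Real.pi ^ 2) * (∑ p ∈ (Finset.Icc 1 N).filter Nat.Prime,
      ((vonMangoldt p / p : ℝ) : ℂ) * v p * Ph f g h₁ h₂ (Real.log p)).re := by
  unfold KV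
  congr 1
  rw [Complex.re_sum]
  refine Finset.sum_congr rfl fun p hp => ?_
  rw [vonMangoldt_apply_prime (Finset.mem_filter.1 hp).2, ← Complex.re_ofReal_mul]
  congr 1
  unfold Ph
  rw [map_mul, Complex.conj_ofReal]
  push_cast
  ring

theorem pi_small : 1 / (2 * Real.pi ^ 2) ≤ 1 ∧ 0 ≤ 1 / (2 * Real.pi ^ 2) := by
  have h1 := Real.pi_gt_three
  constructor
  · rw [div_le_one (by positivity)]
    nlinarith
  · positivity

theorem KV_abs (v : ℕ → ℂ) (f g : ℝ → ℝ) (h₁ h₂ : ℝ) (N : ℕ) : |KV v f g h₁ h₂ N| ≤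
    ‖∑ p ∈ (Finset.Icc 1 N).filter Nat.Prime,
      ((vonMangoldt p / p : ℝ) : ℂ) * v p * Ph f g h₁ h₂ (Real.log p)‖ := by
  rw [KV_eq, abs_mul, abs_of_nonneg pi_small.2]
  calc 1 / (2 * Real.pi ^ 2) * |(∑ p ∈ (Finset.Icc 1 N).filter Nat.Prime,
      ((vonMangoldt p / p : ℝ) : ℂ) * v p * Ph f g h₁ h₂ (Real.log p)).re| ≤
      1 * ‖∑ p ∈ (Finset.Icc 1 N).filter Nat.Prime,
      ((vonMangoldt p / p : ℝ) : ℂ) * v p * Ph f g h₁ h₂ (Real.log p)‖ :=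
        mul_le_mul pi_small.1 (Complex.abs_re_le_norm _) (abs_nonneg _) (by norm_num)
    _ = _ := one_mul _

theorem sum_norm_le (S : Finset ℕ) (v : ℕ → ℂ) (hv : ∀ n, ‖v n‖ ≤ 1) (Φ : ℝ → ℂ) (ψ : ℝ → ℝ)
    (h : ∀ x, 0 ≤ x → ‖Φ x‖ ≤ ψ x) :
    ‖∑ n ∈ S, ((vonMangoldt n / n : ℝ) : ℂ) * v n * Φ (Real.log n)‖ ≤
      ∑ n ∈ S, vonMangoldt n / n * ψ (Real.log n) := by
  refine (norm_sum_le _ _).trans (Finset.sum_le_sum fun n _ => ?_)
  have h1 : (0 : ℝ) ≤ vonMangoldt n / n := div_nonneg vonMangoldt_nonneg (Nat.cast_nonneg n)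
  rw [norm_mul, norm_mul, Complex.norm_real, Real.norm_of_nonneg h1]
  have h2 := h (Real.log n) (Real.log_natCast_nonneg n)
  calc vonMangoldt n / n * ‖v n‖ * ‖Φ (Real.log n)‖ ≤ vonMangoldt n / n * 1 * ψ (Real.log n) := by
        apply mul_le_mul _ h2 (norm_nonneg _) (by positivity)
        exact mul_le_mul_of_nonneg_left (hv n) h1
    _ = _ := by ring

/-- (b) -/
theorem part_b {f g : ℝ → ℝ} (hf : ContDiff ℝ 2 f) (hfs : HasCompactSupport f)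
    (hg : ContDiff ℝ 2 g) (hgs : HasCompactSupport g) : ∃ K : ℝ, 0 ≤ K ∧ ∀ (v : ℕ → ℂ),
    (∀ n, ‖v n‖ ≤ 1) → ∀ (h₁ h₂ : ℝ), 0 < h₁ → 0 < h₂ → ∀ N : ℕ, 1 ≤ N →
      |KV v f g h₁ h₂ N| ≤ K * (Real.sqrt (h₁ / h₂) + h₁ + h₂) ∧
      |KV v f g h₁ h₂ N| ≤ K * (Real.sqrt (h₂ / h₁) + h₁ + h₂) := by
  obtain ⟨D1, hD1, f1, -, -, -⟩ := bd hf hfs
  obtain ⟨D2, hD2, g1, -, -, -⟩ := bd hg hgs
  obtain ⟨D, hD⟩ : ∃ D : ℝ, D = D1 + D2 := ⟨_, rfl⟩
  have hD0 : 0 ≤ D := by rw [hD]; positivity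
  have f1' : ∀ u, ‖FF f u‖ ≤ D * (1 + u ^ 2)⁻¹ := fun u =>
    (f1 u).trans (mul_le_mul_of_nonneg_right (by linarith) (by positivity))
  have g1' : ∀ u, ‖FF g u‖ ≤ D * (1 + u ^ 2)⁻¹ := fun u =>
    (g1 u).trans (mul_le_mul_of_nonneg_right (by linarith) (by positivity))
  refine ⟨70 * D ^ 2, by positivity, fun v hv h₁ h₂ h1 h2 N hN => ?_⟩
  have key : |KV v f g h₁ h₂ N| ≤
      D ^ 2 * ∑ n ∈ Finset.Icc 1 N, vonMangoldt n / n * ps h₁ h₂ (Real.log n) := by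
    refine (KV_abs v f g h₁ h₂ N).trans ?_
    refine (sum_norm_le _ v hv (Ph f g h₁ h₂) (fun x => D ^ 2 * ps h₁ h₂ x)
      (fun x hx => Ph_le hD0 f1' g1' h1 h2 hx)).trans ?_
    rw [Finset.mul_sum]
    have hnn : ∀ n : ℕ, 0 ≤ vonMangoldt n / n * (D ^ 2 * ps h₁ h₂ (Real.log n)) := by
      intro n
      have a1 : (0 : ℝ) ≤ vonMangoldt n / n := div_nonneg vonMangoldt_nonneg (Nat.cast_nonneg n)
      have a2 := ps_nonneg h1 h2 (Real.log_natCast_nonneg n)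
      positivity
    refine (Finset.sum_le_sum_of_subset_of_nonneg (Finset.filter_subset _ _)
      (fun n _ _ => hnn n)).trans (le_of_eq ?_)
    exact Finset.sum_congr rfl fun n _ => by ring
  have s1 := sum_ps h1 h2 N hN
  have s2 := sum_ps h2 h1 N hN
  have e : ∑ n ∈ Finset.Icc 1 N, vonMangoldt n / n * ps h₂ h₁ (Real.log n) =
      ∑ n ∈ Finset.Icc 1 N, vonMangoldt n / n * ps h₁ h₂ (Real.log n) :=
    Finset.sum_congr rfl fun n _ => by rw [ps_symm]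
  rw [e] at s2
  have r1 : 0 ≤ Real.sqrt (h₁ / h₂) := Real.sqrt_nonneg _
  have r2 : 0 ≤ Real.sqrt (h₂ / h₁) := Real.sqrt_nonneg _
  constructor
  · calc |KV v f g h₁ h₂ N| ≤ D ^ 2 * (2 * Real.sqrt (h₁ / h₂) + 6 * h₁ + 70 * h₂) :=
          key.trans (mul_le_mul_of_nonneg_left s1 (by positivity))
      _ ≤ D ^ 2 * (70 * (Real.sqrt (h₁ / h₂) + h₁ + h₂)) := by
          apply mul_le_mul_of_nonneg_left _ (by positivity)
          linarith
      _ = _ := by ring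
  · calc |KV v f g h₁ h₂ N| ≤ D ^ 2 * (2 * Real.sqrt (h₂ / h₁) + 6 * h₂ + 70 * h₁) :=
          key.trans (mul_le_mul_of_nonneg_left s2 (by positivity))
      _ ≤ D ^ 2 * (70 * (Real.sqrt (h₂ / h₁) + h₁ + h₂)) := by
          apply mul_le_mul_of_nonneg_left _ (by positivity)
          linarith
      _ = _ := by ring

/-- (c) -/
theorem part_c {f g : ℝ → ℝ} (hf : ContDiff ℝ 2 f) (hfs : HasCompactSupport f)
    (hg : ContDiff ℝ 2 g) (hgs : HasCompactSupport g) : ∃ K : ℝ, 0 ≤ K ∧ ∀ (v : ℕ → ℂ),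
    (∀ n, ‖v n‖ ≤ 1) → ∀ C : ℝ,
    (∀ M : ℕ, ‖∑ n ∈ Finset.Icc 1 M, ((vonMangoldt n / n : ℝ) : ℂ) * v n‖ ≤ C) →
    ∀ (h₁ h₂ : ℝ), 0 < h₁ → 0 < h₂ → ∀ N : ℕ, 1 ≤ N →
      |KV v f g h₁ h₂ N| ≤ K * (C * (h₁ + h₂) + h₁ * h₂) := by
  obtain ⟨D1, hD1, f1, f2, f3, f4⟩ := bd hf hfs
  obtain ⟨D2, hD2, g1, g2, g3, g4⟩ := bd hg hgs
  obtain ⟨D, hD⟩ : ∃ D : ℝ, D = D1 + D2 := ⟨_, rfl⟩
  have hD0 : 0 ≤ D := by rw [hD]; positivity
  have f1' : ∀ u, ‖FF f u‖ ≤ D * (1 + u ^ 2)⁻¹ := fun u =>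
    (f1 u).trans (mul_le_mul_of_nonneg_right (by linarith) (by positivity))
  have g1' : ∀ u, ‖FF g u‖ ≤ D * (1 + u ^ 2)⁻¹ := fun u =>
    (g1 u).trans (mul_le_mul_of_nonneg_right (by linarith) (by positivity))
  have f2' : ∀ u, ‖deriv (FF f) u‖ ≤ D * (1 + u ^ 2)⁻¹ := fun u =>
    (f2 u).trans (mul_le_mul_of_nonneg_right (by linarith) (by positivity))
  have g2' : ∀ u, ‖deriv (FF g) u‖ ≤ D * (1 + u ^ 2)⁻¹ := fun u =>
    (g2 u).trans (mul_le_mul_of_nonneg_right (by linarith) (by positivity))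
  obtain ⟨C1, hC1, hpp⟩ := VARL.pp
  refine ⟨5 * D ^ 2 + D ^ 2 * C1, by positivity, fun v hv C hC h₁ h₂ h1 h2 N hN => ?_⟩
  have hC0 : 0 ≤ C := (norm_nonneg _).trans (hC 0)
  have hlog : 0 ≤ Real.log (N : ℝ) := Real.log_natCast_nonneg N
  refine (KV_abs v f g h₁ h₂ N).trans ?_
  have a1 := abel hC (Ph_deriv f3 g3 h₁ h₂) (Ph'_cont f3 g3 f4 g4 h₁ h₂) N hN
  have a2 := int_Ph' hD0 f1' g1' f2' g2' f3 g3 f4 g4 h1 h2 hlog
  have a3 : ‖(∑ n ∈ Finset.Icc 1 N, ((vonMangoldt n / n : ℝ) : ℂ) * v n) *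
      Ph f g h₁ h₂ (Real.log N)‖ ≤ C * (D ^ 2 * h₁) := by
    rw [norm_mul]
    exact mul_le_mul (hC N) (Ph_le1 hD0 f1' g1' h1 h2 hlog) (norm_nonneg _) hC0
  have a4 : ‖∑ n ∈ (Finset.Icc 1 N).filter (fun n => ¬ n.Prime),
      ((vonMangoldt n / n : ℝ) : ℂ) * v n * Ph f g h₁ h₂ (Real.log n)‖ ≤
      D ^ 2 * (h₁ * h₂) * C1 := by
    refine (sum_norm_le _ v hv (Ph f g h₁ h₂) (fun x => D ^ 2 * (h₁ * h₂) * x)
      (fun x hx => Ph_le2 hD0 f1' g1' h1 h2 hx)).trans ?_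
    calc ∑ n ∈ (Finset.Icc 1 N).filter (fun n => ¬ n.Prime),
          vonMangoldt n / n * (D ^ 2 * (h₁ * h₂) * Real.log n) =
          D ^ 2 * (h₁ * h₂) * ∑ n ∈ (Finset.Icc 1 N).filter (fun n => ¬ n.Prime),
            vonMangoldt n / n * Real.log n := by
          rw [Finset.mul_sum]
          exact Finset.sum_congr rfl fun n _ => by ring
      _ ≤ _ := mul_le_mul_of_nonneg_left (hpp N) (by positivity)
  have e := Finset.sum_filter_add_sum_filter_not (Finset.Icc 1 N) Nat.Prime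
    (fun n => ((vonMangoldt n / n : ℝ) : ℂ) * v n * Ph f g h₁ h₂ (Real.log n))
  have e2 : ∑ p ∈ (Finset.Icc 1 N).filter Nat.Prime,
      ((vonMangoldt p / p : ℝ) : ℂ) * v p * Ph f g h₁ h₂ (Real.log p) =
      ((∑ n ∈ Finset.Icc 1 N, ((vonMangoldt n / n : ℝ) : ℂ) * v n *
        Ph f g h₁ h₂ (Real.log n)) - (∑ n ∈ Finset.Icc 1 N,
        ((vonMangoldt n / n : ℝ) : ℂ) * v n) * Ph f g h₁ h₂ (Real.log N)) +
      (∑ n ∈ Finset.Icc 1 N, ((vonMangoldt n / n : ℝ) : ℂ) * v n) *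
        Ph f g h₁ h₂ (Real.log N) -
      ∑ n ∈ (Finset.Icc 1 N).filter (fun n => ¬ n.Prime),
        ((vonMangoldt n / n : ℝ) : ℂ) * v n * Ph f g h₁ h₂ (Real.log n) := by
    rw [← e]
    ring
  rw [e2]
  have hP : 0 ≤ D ^ 2 := by positivity
  have b1 : C * ∫ x in (0 : ℝ)..(Real.log N), ‖Ph' f g h₁ h₂ x‖ ≤ C * (4 * D ^ 2 * (h₁ + h₂)) :=
    mul_le_mul_of_nonneg_left a2 hC0
  refine ((norm_sub_le _ _).trans (add_le_add ((norm_add_le _ _).trans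
    (add_le_add (a1.trans b1) a3)) a4)).trans ?_
  have p1 : 0 ≤ C * D ^ 2 * h₂ := by positivity
  have p2 : 0 ≤ D ^ 2 * C1 * (C * (h₁ + h₂)) := by positivity
  have p3 : 0 ≤ D ^ 2 * (h₁ * h₂) := by positivity
  nlinarith

/-- the integrand of the limit -/
noncomputable def ww (f g : ℝ → ℝ) (u : ℝ) : ℝ := u * (FF f u * (starRingEnd ℂ) (FF g u)).re

/-- (a) -/
theorem part_a {f g : ℝ → ℝ} (hf : ContDiff ℝ 2 f) (hfs : HasCompactSupport f)
    (hg : ContDiff ℝ 2 g) (hgs : HasCompactSupport g) : ∃ K : ℝ, 0 ≤ K ∧ ∀ (v : ℕ → ℂ),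
    (∀ n, ‖v n‖ ≤ 1) → ∀ p₀ : ℕ, (∀ p : ℕ, p.Prime → p₀ ≤ p → v p = 1) →
    ∀ h : ℝ, 0 < h → ∀ N : ℕ, 1 ≤ N →
      |KV v f g h h N - 1 / (2 * Real.pi ^ 2) * ∫ u in (0 : ℝ)..(h * Real.log N), ww f g u| ≤
        K * (h + h ^ 2 * (1 + ∑ n ∈ Finset.Icc 1 p₀, vonMangoldt n / n * Real.log n)) := by
  obtain ⟨D1, hD1, f1, f2, f3, f4⟩ := bd hf hfs
  obtain ⟨D2, hD2, g1, g2, g3, g4⟩ := bd hg hgs
  obtain ⟨D, hD⟩ : ∃ D : ℝ, D = D1 + D2 := ⟨_, rfl⟩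
  have hD0 : 0 ≤ D := by rw [hD]; positivity
  have f1' : ∀ u, ‖FF f u‖ ≤ D * (1 + u ^ 2)⁻¹ := fun u =>
    (f1 u).trans (mul_le_mul_of_nonneg_right (by linarith) (by positivity))
  have g1' : ∀ u, ‖FF g u‖ ≤ D * (1 + u ^ 2)⁻¹ := fun u =>
    (g1 u).trans (mul_le_mul_of_nonneg_right (by linarith) (by positivity))
  have f2' : ∀ u, ‖deriv (FF f) u‖ ≤ D * (1 + u ^ 2)⁻¹ := fun u =>
    (f2 u).trans (mul_le_mul_of_nonneg_right (by linarith) (by positivity))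
  have g2' : ∀ u, ‖deriv (FF g) u‖ ≤ D * (1 + u ^ 2)⁻¹ := fun u =>
    (g2 u).trans (mul_le_mul_of_nonneg_right (by linarith) (by positivity))
  obtain ⟨C1, hC1, hpp⟩ := VARL.pp
  refine ⟨62 * D ^ 2 + D ^ 2 * C1, by positivity, fun v hv p₀ hp₀ h h0 N hN => ?_⟩
  obtain ⟨c, hc⟩ : ∃ c : ℝ, c = Real.log (N : ℝ) := ⟨_, rfl⟩
  have hlog : 0 ≤ c := by rw [hc]; exact Real.log_natCast_nonneg N
  obtain ⟨C3, hC3⟩ : ∃ C3 : ℝ,
    C3 = ∑ n ∈ Finset.Icc 1 p₀, vonMangoldt n / n * Real.log n := ⟨_, rfl⟩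
  have hnn : ∀ n : ℕ, 0 ≤ vonMangoldt n / n * Real.log n := fun n =>
    mul_nonneg (div_nonneg vonMangoldt_nonneg (Nat.cast_nonneg n)) (Real.log_natCast_nonneg n)
  have hC30 : 0 ≤ C3 := by
    rw [hC3]
    exact Finset.sum_nonneg fun n _ => hnn n
  rw [← hC3, ← hc]
  -- the real part
  obtain ⟨φ, hφ⟩ : ∃ φ : ℝ → ℝ, φ = fun x => (Ph f g h h x).re := ⟨_, rfl⟩
  obtain ⟨φ', hφ'⟩ : ∃ φ' : ℝ → ℝ, φ' = fun x => (Ph' f g h h x).re := ⟨_, rfl⟩
  have hd : ∀ x, HasDerivAt φ (φ' x) x := by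
    intro x
    rw [hφ, hφ']
    exact Complex.reCLM.hasFDerivAt.comp_hasDerivAt x (Ph_deriv f3 g3 h h x)
  have hdc : Continuous φ' := by
    rw [hφ']
    exact Complex.continuous_re.comp (Ph'_cont f3 g3 f4 g4 h h)
  have hφc : Continuous φ := continuous_iff_continuousAt.2 fun x => (hd x).continuousAt
  have a1 := VARL.sum_int hd hdc N hN
  have a2 := VARL.mert N hN
  rw [← hc] at a1 a2
  have a3 : ∫ x in (0 : ℝ)..c, |φ' x| ≤ 8 * D ^ 2 * h := by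
    calc ∫ x in (0 : ℝ)..c, |φ' x| ≤ ∫ x in (0 : ℝ)..c, ‖Ph' f g h h x‖ := by
          refine intervalIntegral.integral_mono_on hlog (hdc.abs.intervalIntegrable _ _)
            ((Ph'_cont f3 g3 f4 g4 h h).norm.intervalIntegrable _ _) ?_
          intro x _
          rw [hφ']
          exact Complex.abs_re_le_norm _
      _ ≤ 4 * D ^ 2 * (h + h) := int_Ph' hD0 f1' g1' f2' g2' f3 g3 f4 g4 h0 h0 hlog
      _ = _ := by ring
  have a4 : |((∑ k ∈ Finset.Icc 1 N, vonMangoldt k / k) - c) * φ c| ≤ 6 * (D ^ 2 * h) := by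
    rw [abs_mul]
    refine mul_le_mul a2 ?_ (abs_nonneg _) (by norm_num)
    rw [hφ]
    exact (Complex.abs_re_le_norm _).trans (Ph_le1 hD0 f1' g1' h0 h0 hlog)
  have a5 : ∫ x in (0 : ℝ)..c, φ x = ∫ u in (0 : ℝ)..(h * c), ww f g u := by
    have e1 : ∀ x, φ x = h * ww f g (h * x) := by
      intro x
      rw [hφ]
      unfold Ph ww
      simp only
      rw [Complex.re_ofReal_mul]
      ring
    have e2 : ∫ x in (0 : ℝ)..c, φ x = h * ∫ x in (0 : ℝ)..c, ww f g (h * x) := by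
      rw [← intervalIntegral.integral_const_mul]
      exact intervalIntegral.integral_congr fun x _ => e1 x
    rw [e2, intervalIntegral.mul_integral_comp_mul_left, mul_zero]
  rw [a5] at a1
  -- non-primes
  have a6 : |∑ n ∈ (Finset.Icc 1 N).filter (fun n => ¬ n.Prime),
      vonMangoldt n / n * φ (Real.log n)| ≤ D ^ 2 * h ^ 2 * C1 := by
    calc |∑ n ∈ (Finset.Icc 1 N).filter (fun n => ¬ n.Prime),
          vonMangoldt n / n * φ (Real.log n)| ≤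
          ∑ n ∈ (Finset.Icc 1 N).filter (fun n => ¬ n.Prime),
            D ^ 2 * h ^ 2 * (vonMangoldt n / n * Real.log n) := by
          refine (Finset.abs_sum_le_sum_abs _ _).trans (Finset.sum_le_sum fun n _ => ?_)
          have b1 : (0 : ℝ) ≤ vonMangoldt n / n :=
            div_nonneg vonMangoldt_nonneg (Nat.cast_nonneg n)
          rw [abs_mul, abs_of_nonneg b1]
          have b2 : |φ (Real.log n)| ≤ D ^ 2 * (h * h) * Real.log n := by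
            rw [hφ]
            exact (Complex.abs_re_le_norm _).trans
              (Ph_le2 hD0 f1' g1' h0 h0 (Real.log_natCast_nonneg n))
          calc vonMangoldt n / n * |φ (Real.log n)| ≤
                vonMangoldt n / n * (D ^ 2 * (h * h) * Real.log n) :=
                mul_le_mul_of_nonneg_left b2 b1
            _ = _ := by ring
      _ = D ^ 2 * h ^ 2 * ∑ n ∈ (Finset.Icc 1 N).filter (fun n => ¬ n.Prime),
            (vonMangoldt n / n * Real.log n) := by rw [Finset.mul_sum]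
      _ ≤ _ := mul_le_mul_of_nonneg_left (hpp N) (by positivity)
  -- the small primes
  obtain ⟨T2, hT2⟩ : ∃ T2 : ℝ, T2 = ∑ p ∈ (Finset.Icc 1 N).filter Nat.Prime,
    (((vonMangoldt p / p : ℝ) : ℂ) * (v p - 1) * Ph f g h h (Real.log p)).re := ⟨_, rfl⟩
  have a7 : |T2| ≤ 2 * (D ^ 2 * h ^ 2) * C3 := by
    rw [hT2]
    calc |∑ p ∈ (Finset.Icc 1 N).filter Nat.Prime,
          (((vonMangoldt p / p : ℝ) : ℂ) * (v p - 1) * Ph f g h h (Real.log p)).re| ≤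
          ∑ p ∈ (Finset.Icc 1 N).filter Nat.Prime, (if p < p₀ then
            2 * (D ^ 2 * h ^ 2) * (vonMangoldt p / p * Real.log p) else 0) := by
          refine (Finset.abs_sum_le_sum_abs _ _).trans (Finset.sum_le_sum fun p hp => ?_)
          have b1 : (0 : ℝ) ≤ vonMangoldt p / p :=
            div_nonneg vonMangoldt_nonneg (Nat.cast_nonneg p)
          split_ifs with hpp₀
          · refine (Complex.abs_re_le_norm _).trans ?_
            rw [norm_mul, norm_mul, Complex.norm_real, Real.norm_of_nonneg b1]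
            have b2 : ‖v p - 1‖ ≤ 2 := by
              refine (norm_sub_le _ _).trans ?_
              rw [norm_one]
              linarith [hv p]
            have b3 := Ph_le2 hD0 f1' g1' h0 h0 (Real.log_natCast_nonneg p)
            calc vonMangoldt p / p * ‖v p - 1‖ * ‖Ph f g h h (Real.log p)‖ ≤
                  vonMangoldt p / p * 2 * (D ^ 2 * (h * h) * Real.log p) := by
                  apply mul_le_mul (mul_le_mul_of_nonneg_left b2 b1) b3 (norm_nonneg _)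
                    (by positivity)
              _ = _ := by ring
          · rw [hp₀ p (Finset.mem_filter.1 hp).2 (not_lt.1 hpp₀), sub_self, mul_zero, zero_mul]
            simp
      _ = ∑ p ∈ ((Finset.Icc 1 N).filter Nat.Prime).filter (fun p => p < p₀),
            2 * (D ^ 2 * h ^ 2) * (vonMangoldt p / p * Real.log p) :=
          (Finset.sum_filter _ _).symm
      _ ≤ ∑ p ∈ Finset.Icc 1 p₀, 2 * (D ^ 2 * h ^ 2) * (vonMangoldt p / p * Real.log p) := by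
          refine Finset.sum_le_sum_of_subset_of_nonneg ?_ fun n _ _ => by
            have := hnn n
            positivity
          intro p hp
          rw [Finset.mem_filter, Finset.mem_filter, Finset.mem_Icc] at hp
          rw [Finset.mem_Icc]
          exact ⟨hp.1.1.1, hp.2.le⟩
      _ = _ := by rw [← Finset.mul_sum, hC3]
  -- the total
  have e1 : (∑ p ∈ (Finset.Icc 1 N).filter Nat.Prime,
      ((vonMangoldt p / p : ℝ) : ℂ) * v p * Ph f g h h (Real.log p)).re =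
      (∑ p ∈ (Finset.Icc 1 N).filter Nat.Prime, vonMangoldt p / p * φ (Real.log p)) + T2 := by
    rw [Complex.re_sum, hT2, ← Finset.sum_add_distrib]
    refine Finset.sum_congr rfl fun p _ => ?_
    rw [hφ]
    simp only
    rw [← Complex.re_ofReal_mul, ← Complex.add_re]
    congr 1
    ring
  have e2 := Finset.sum_filter_add_sum_filter_not (Finset.Icc 1 N) Nat.Prime
    (fun n => vonMangoldt n / n * φ (Real.log n))
  rw [KV_eq, ← mul_sub, e1, abs_mul, abs_of_nonneg pi_small.2]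
  have hP := pi_small
  have hfin : |(∑ p ∈ (Finset.Icc 1 N).filter Nat.Prime, vonMangoldt p / p * φ (Real.log p)) +
      T2 - ∫ u in (0 : ℝ)..(h * c), ww f g u| ≤
      (62 * D ^ 2 + D ^ 2 * C1) * (h + h ^ 2 * (1 + C3)) := by
    have q1 : 0 ≤ D ^ 2 := by positivity
    have q2 : 0 ≤ D ^ 2 * h := by positivity
    have q3 : 0 ≤ D ^ 2 * h ^ 2 := by positivity
    have q4 : 0 ≤ D ^ 2 * h ^ 2 * C3 := by positivity
    have q5 : 0 ≤ D ^ 2 * h * C1 := by positivity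
    have q6 : 0 ≤ D ^ 2 * h ^ 2 * C3 * C1 := by positivity
    have q7 : 0 ≤ D ^ 2 * h ^ 2 * C1 := by positivity
    rw [abs_le] at a1 a4 a6 a7 ⊢
    constructor
    · nlinarith [a1.1, a1.2, a4.1, a4.2, a6.1, a6.2, a7.1, a7.2]
    · nlinarith [a1.1, a1.2, a4.1, a4.2, a6.1, a6.2, a7.1, a7.2]
  calc 1 / (2 * Real.pi ^ 2) * |(∑ p ∈ (Finset.Icc 1 N).filter Nat.Prime,
        vonMangoldt p / p * φ (Real.log p)) + T2 - ∫ u in (0 : ℝ)..(h * c), ww f g u| ≤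
        1 * ((62 * D ^ 2 + D ^ 2 * C1) * (h + h ^ 2 * (1 + C3))) :=
        mul_le_mul hP.1 hfin (abs_nonneg _) (by norm_num)
    _ = _ := one_mul _

theorem ww_int {f g : ℝ → ℝ} (hf : ContDiff ℝ 2 f) (hfs : HasCompactSupport f)
    (hg : ContDiff ℝ 2 g) (hgs : HasCompactSupport g) : IntegrableOn (ww f g) (Ioi 0) := by
  obtain ⟨D1, hD1, f1, -, -, -⟩ := bd hf hfs
  obtain ⟨D2, hD2, g1, -, -, -⟩ := bd hg hgs
  have hfc := VARL.FF_cont hf.continuous hfs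
  have hgc := VARL.FF_cont hg.continuous hgs
  have hc : Continuous (ww f g) := by
    unfold ww
    exact continuous_id.mul (Complex.continuous_re.comp
      (hfc.mul (Complex.continuous_conj.comp hgc)))
  refine VARL.io hc (D1 * D2) fun x hx => ?_
  have hx0 : 0 < x := by linarith
  unfold ww
  rw [abs_mul, abs_of_pos hx0]
  have h1 : |(FF f x * (starRingEnd ℂ) (FF g x)).re| ≤
      (D1 * (1 + x ^ 2)⁻¹) * (D2 * (1 + x ^ 2)⁻¹) := by
    refine (Complex.abs_re_le_norm _).trans ?_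
    rw [norm_mul, Complex.norm_conj]
    exact mul_le_mul (f1 x) (g1 x) (norm_nonneg _) (by positivity)
  have h2 : x * ((1 + x ^ 2)⁻¹ * (1 + x ^ 2)⁻¹) ≤ 1 / x ^ 2 := by
    have h3 : (1 + x ^ 2)⁻¹ ≤ (x ^ 2)⁻¹ := inv_anti₀ (by positivity) (by linarith)
    have h4 : x * (1 + x ^ 2)⁻¹ ≤ 1 := by
      rw [← div_eq_mul_inv, div_le_one (by positivity)]
      nlinarith
    calc x * ((1 + x ^ 2)⁻¹ * (1 + x ^ 2)⁻¹) = (x * (1 + x ^ 2)⁻¹) * (1 + x ^ 2)⁻¹ := by ring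
      _ ≤ 1 * (x ^ 2)⁻¹ := mul_le_mul h4 h3 (by positivity) (by norm_num)
      _ = _ := by rw [one_mul, one_div]
  calc x * |(FF f x * (starRingEnd ℂ) (FF g x)).re| ≤
        x * ((D1 * (1 + x ^ 2)⁻¹) * (D2 * (1 + x ^ 2)⁻¹)) := mul_le_mul_of_nonneg_left h1 hx0.le
    _ = (D1 * D2) * (x * ((1 + x ^ 2)⁻¹ * (1 + x ^ 2)⁻¹)) := by ring
    _ ≤ (D1 * D2) * (1 / x ^ 2) := mul_le_mul_of_nonneg_left h2 (by positivity)
    _ = _ := by ring

end COXL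

open COXL in
theorem t_COX : S_COX := by
  intro f g hf hfs hg hgs v hv h₁ h₂ N hp1 hp2 hl1 hl2 hn1 hn2
  have hN : ∀ᶠ T in atTop, 1 ≤ N T := by
    filter_upwards [hn1.eventually_gt_atTop 0] with T hT
    by_contra hcon
    have h0 : N T = 0 := by omega
    rw [h0] at hT
    simp at hT
  refine ⟨?_, ?_, ?_⟩
  · rintro ⟨p₀, hp₀⟩ rfl
    obtain ⟨K, hK, hmain⟩ := part_a hf hfs hg hgs
    obtain ⟨C3, hC3⟩ : ∃ C3 : ℝ, C3 = ∑ n ∈ Finset.Icc 1 p₀,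
      ArithmeticFunction.vonMangoldt n / n * Real.log n := ⟨_, rfl⟩
    have hlim : Tendsto (fun T => 1 / (2 * Real.pi ^ 2) *
        ∫ u in (0 : ℝ)..(h₁ T * Real.log (N T)), ww f g u) atTop (𝓝 (cv f g)) := by
      have h3 := intervalIntegral_tendsto_integral_Ioi 0 (ww_int hf hfs hg hgs) hn1
      exact h3.const_mul _
    have herr : Tendsto (fun T => KV v f g (h₁ T) (h₁ T) (N T) - 1 / (2 * Real.pi ^ 2) *
        ∫ u in (0 : ℝ)..(h₁ T * Real.log (N T)), ww f g u) atTop (𝓝 0) := by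
      have h3 : Tendsto (fun T => K * (h₁ T + h₁ T ^ 2 * (1 + C3))) atTop (𝓝 0) := by
        have := (hl1.add ((hl1.pow 2).mul_const (1 + C3))).const_mul K
        simpa using this
      refine squeeze_zero_norm' ?_ h3
      filter_upwards [hp1, hN] with T hT1 hT2
      rw [hC3]
      exact hmain v hv p₀ hp₀ (h₁ T) hT1 (N T) hT2
    have := herr.add hlim
    rw [zero_add] at this
    refine this.congr fun T => ?_
    ring
  · intro hr
    obtain ⟨K, hK, hmain⟩ := part_b hf hfs hg hgs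
    rcases hr with hr | hr
    · have h3 : Tendsto (fun T => K * (Real.sqrt (h₁ T / h₂ T) + h₁ T + h₂ T)) atTop (𝓝 0) := by
        have h4 : Tendsto (fun T => Real.sqrt (h₁ T / h₂ T)) atTop (𝓝 0) := by
          have := (Real.continuous_sqrt.tendsto 0).comp hr
          rw [Real.sqrt_zero] at this
          exact this
        have := ((h4.add hl1).add hl2).const_mul K
        simpa using this
      refine squeeze_zero_norm' ?_ h3
      filter_upwards [hp1, hp2, hN] with T hT1 hT2 hT3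
      exact (hmain v hv (h₁ T) (h₂ T) hT1 hT2 (N T) hT3).1
    · have h3 : Tendsto (fun T => K * (Real.sqrt (h₂ T / h₁ T) + h₁ T + h₂ T)) atTop (𝓝 0) := by
        have h4 : Tendsto (fun T => Real.sqrt (h₂ T / h₁ T)) atTop (𝓝 0) := by
          have := (Real.continuous_sqrt.tendsto 0).comp hr
          rw [Real.sqrt_zero] at this
          exact this
        have := ((h4.add hl1).add hl2).const_mul K
        simpa using this
      refine squeeze_zero_norm' ?_ h3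
      filter_upwards [hp1, hp2, hN] with T hT1 hT2 hT3
      exact (hmain v hv (h₁ T) (h₂ T) hT1 hT2 (N T) hT3).2
  · rintro ⟨C, hC⟩
    obtain ⟨K, hK, hmain⟩ := part_c hf hfs hg hgs
    have h3 : Tendsto (fun T => K * (C * (h₁ T + h₂ T) + h₁ T * h₂ T)) atTop (𝓝 0) := by
      have := (((hl1.add hl2).const_mul C).add (hl1.mul hl2)).const_mul K
      simpa using this
    refine squeeze_zero_norm' ?_ h3
    filter_upwards [hp1, hp2, hN] with T hT1 hT2 hT3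
    exact hmain v hv C hC (h₁ T) (h₂ T) hT1 hT2 (N T) hT3

end Pool.Agent.H203.GE
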