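import Pool.Agent.H203.GE.Defs2

open MeasureTheory Set Filter Topology

namespace Pool.Agent.H203.GE

namespace CVRL

lemma sub (α β T : ℝ) (hT : 0 < T) (g g' φ : ℝ → ℝ) (hα : ∀ s ∈ Icc T (2 * T), α ≤ g s ∧ g s ≤ β)
    (hc : ContinuousOn g' (Icc T (2 * T))) (hd : ∀ s ∈ Icc T (2 * T), HasDerivAt g (g' s) s)
    (hφ : ContinuousOn φ (Icc α β)) :
    ∫ s in T..(2 * T), φ (g s) * g' s = ∫ v in (g T)..(g (2 * T)), φ v := by
  have hle : T ≤ 2 * T := by linarith
  have hu : uIcc T (2 * T) = Icc T (2 * T) := uIcc_of_le hle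
  have h := intervalIntegral.integral_comp_mul_deriv' (a := T) (b := 2 * T) (f := g) (f' := g') (g := φ)
    (by rw [hu]; exact hd) (by rw [hu]; exact hc) (by
      rw [hu]
      refine hφ.mono ?_
      rintro _ ⟨s, hs, rfl⟩
      exact hα s hs)
  exact h

lemma cvr : S_CVR := by
  intro E a b T ha hab hT g hg φ hφ hφ0
  obtain ⟨g', hc, hd, hs, hb⟩ := hg.der
  have hle : T ≤ 2 * T := by linarith
  have hu : uIcc T (2 * T) = Icc T (2 * T) := uIcc_of_le hle
  have hA : 0 < a * T ^ (E - 1) := mul_pos ha (Real.rpow_pos_of_pos hT _)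
  have hTm : T ∈ Icc T (2 * T) := ⟨le_refl _, hle⟩
  have hTm2 : 2 * T ∈ Icc T (2 * T) := ⟨hle, le_refl _⟩
  have hgc : ContinuousOn g (Icc T (2 * T)) := fun s hs => (hd s hs).continuousAt.continuousWithinAt
  have hφg : ContinuousOn (fun s => φ (g s)) (Icc T (2 * T)) := hφ.comp hgc (fun s hs => hg.maps s hs)
  have hi1 : IntervalIntegrable (fun s => φ (g s)) volume T (2 * T) := by
    apply ContinuousOn.intervalIntegrable
    rw [hu]
    exact hφg
  have hi2 : IntervalIntegrable (fun s => φ (g s) * g' s) volume T (2 * T) := by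
    apply ContinuousOn.intervalIntegrable
    rw [hu]
    exact hφg.mul hc
  have key := sub (a * T ^ E) (b * T ^ E) T hT g g' φ hg.maps hc hd hφ
  have hab' : a * T ^ E ≤ b * T ^ E := by
    have := Real.rpow_pos_of_pos hT E
    gcongr
  have hi3 : ∀ x ∈ Icc (a * T ^ E) (b * T ^ E), ∀ y ∈ Icc (a * T ^ E) (b * T ^ E), x ≤ y →
      ∫ v in x..y, φ v ≤ ∫ v in (a * T ^ E)..(b * T ^ E), φ v := by
    intro x hx y hy hxy
    apply intervalIntegral.integral_mono_interval hx.1 hxy hy.2
    · exact Eventually.of_forall hφ0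
    · apply ContinuousOn.intervalIntegrable
      rw [uIcc_of_le hab']
      exact hφ
  rw [one_div, ← div_eq_inv_mul, le_div_iff₀ hA]
  rcases hs with hs | hs
  · have h1 : (∫ s in T..(2 * T), φ (g s)) * (a * T ^ (E - 1)) ≤ ∫ s in T..(2 * T), φ (g s) * g' s := by
      rw [← intervalIntegral.integral_mul_const]
      apply intervalIntegral.integral_mono_on hle (hi1.mul_const _) hi2
      intro s hs'
      exact mul_le_mul_of_nonneg_left (hs s hs') (hφ0 _)
    have hmono : g T ≤ g (2 * T) := by
      have hm : MonotoneOn g (Icc T (2 * T)) := by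
        apply monotoneOn_of_deriv_nonneg (convex_Icc _ _) hgc
        · intro s hs'
          rw [interior_Icc] at hs'
          exact (hd s (Ioo_subset_Icc_self hs')).differentiableAt.differentiableWithinAt
        · intro s hs'
          rw [interior_Icc] at hs'
          rw [(hd s (Ioo_subset_Icc_self hs')).deriv]
          exact hA.le.trans (hs s (Ioo_subset_Icc_self hs'))
      exact hm hTm hTm2 hle
    refine h1.trans ?_
    rw [key]
    exact hi3 _ (hg.maps T hTm) _ (hg.maps _ hTm2) hmono
  · have h1 : (∫ s in T..(2 * T), φ (g s)) * (a * T ^ (E - 1)) ≤ -∫ s in T..(2 * T), φ (g s) * g' s := by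
      rw [← intervalIntegral.integral_mul_const, ← intervalIntegral.integral_neg]
      apply intervalIntegral.integral_mono_on hle (hi1.mul_const _) hi2.neg
      intro s hs'
      have h2 := mul_le_mul_of_nonneg_left (hs s hs') (hφ0 (g s))
      have h3 : φ (g s) * -(a * T ^ (E - 1)) = -(φ (g s) * (a * T ^ (E - 1))) := by ring
      rw [h3] at h2
      show φ (g s) * (a * T ^ (E - 1)) ≤ -(φ (g s) * g' s)
      linarith
    have hmono : g (2 * T) ≤ g T := by
      have hm : AntitoneOn g (Icc T (2 * T)) := by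
        apply antitoneOn_of_deriv_nonpos (convex_Icc _ _) hgc
        · intro s hs'
          rw [interior_Icc] at hs'
          exact (hd s (Ioo_subset_Icc_self hs')).differentiableAt.differentiableWithinAt
        · intro s hs'
          rw [interior_Icc] at hs'
          rw [(hd s (Ioo_subset_Icc_self hs')).deriv]
          linarith [hs s (Ioo_subset_Icc_self hs')]
      exact hm hTm hTm2 hle
    refine h1.trans ?_
    rw [key, ← intervalIntegral.integral_symm]
    exact hi3 _ (hg.maps _ hTm2) _ (hg.maps T hTm) hmono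

end CVRL

theorem t_CVR : S_CVR := CVRL.cvr

end Pool.Agent.H203.GE
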