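import Pool.Agent.H203.ME.ALL2

set_option autoImplicit false

/-! Mesoscopic statistics of the zeros of all Dirichlet L-functions at polynomial heights: definitions and statements of
the parts.  (`Pool.Agent.H203.ME` does this for zeta at a random height.) -/

open Complex Filter Topology Set MeasureTheory

namespace Pool.Agent.H203.GE

open Pool.Agent.H203.ME

/-- an L-function of degree one, `Λ(n) u(n)` the coefficients of `-G'/G`, with a density theorem for its zeros -/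
structure Lf (G : ℂ → ℂ) (u : ℕ → ℂ) : Prop where
  good : H370.GoodL G
  le1 : ∀ n : ℕ, ‖u n‖ ≤ 1
  ld : ∀ s : ℂ, 1 < s.re → 1 ≤ s.im →
    deriv G s / G s = - ∑' n : ℕ, ((ArithmeticFunction.vonMangoldt n : ℂ) * u n) * (n : ℂ) ^ (-s)
  dens : ∃ C T0 : ℝ, 0 < C ∧ 10 ≤ T0 ∧ ∀ T : ℝ, T0 ≤ T → ∀ U1 U2 : ℝ, T ≤ U1 → U1 ≤ T + 1 →
    2 * T - 1 ≤ U2 → U2 ≤ 2 * T →
    ∑ s ∈ H370.Zf G U1 U2, (H370.mult G s : ℝ) *
      ((s.re - 1 / 2) ^ 2 * Real.exp (Real.log T * |s.re - 1 / 2| / 4)) ≤ C * T / Real.log T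

/-- the zeros in the open critical strip -/
def ZG (G : ℂ → ℂ) : Set ℂ := {s : ℂ | G s = 0 ∧ 0 < s.re ∧ s.re < 1}

/-- the centered linear statistic of the ordinates of the zeros of `G` (compare `ME.XF`) -/
noncomputable def XG (G : ℂ → ℂ) (F : ℝ → ℝ) (T t : ℝ) : ℝ :=
  (∑ᶠ s ∈ ZG G, (H370.mult G s : ℝ) * F (s.im - t)) - Real.log T / (2 * Real.pi) * ∫ x : ℝ, F x

/-- the prime side of the explicit formula for the kernel (compare `ME.PR`) -/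
noncomputable def PG (u : ℕ → ℂ) (R t : ℝ) : ℝ := 2 / Real.sqrt (2 * Real.pi) *
  (∑' n : ℕ, ((ArithmeticFunction.vonMangoldt n / Real.sqrt n * cR R (Real.log n) : ℝ) : ℂ) * (u n * ee n t)).re

/-- the prime side for the test function `F` (compare `ME.BB`) -/
noncomputable def BG (u : ℕ → ℂ) (F : ℝ → ℝ) (R t : ℝ) : ℝ := 2 / Real.sqrt (2 * Real.pi) *
  (∑' n : ℕ, ((ArithmeticFunction.vonMangoldt n / Real.sqrt n * cR R (Real.log n) : ℝ) : ℂ) *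
    FF F (Real.log n) * (u n * ee n t)).re

/-- the prime sum over the primes up to `N` (compare `ME.Y1`) -/
noncomputable def YG (u : ℕ → ℂ) (F : ℝ → ℝ) (N : ℕ) (t : ℝ) : ℝ :=
  (∑ p ∈ (Finset.Icc 1 N).filter Nat.Prime,
    ((1 / Real.pi * (Real.log p / Real.sqrt p) : ℝ) : ℂ) * FF F (Real.log p) * (u p * ee p t)).re

/-! ### the statements of the parts -/

/-- (LFX) the Dirichlet L-functions of the primitive characters (`q = 1`: zeta).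
Proof.  `good`: `H370.good_dirichlet`.  `ld`: Mathlib (`DirichletCharacter.LSeries_twist_vonMangoldt_eq` or
`ArithmeticFunction.LSeries_...`; see the proof of `good_dirichlet` in DirGood.lean, which proves exactly this).
`dens`: for `q > 1` `Pool.Agent.N802.LX.dens_right` gives, for `δ ≥ 0`, `∑ m ≤ A T L e^{-δL/2}` for the zeros with
`re ≥ 1/2 + δ` and `T < im ≤ 2T`; proceed as in `Pool.Agent.N802.LX.dens_of` / `dens_both` (shells `k ≤ L |re - 1/2| < k+1`, the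
weight there is at most `(k+1)² L^{-2} e^{(k+1)/4}` and `∑_k (k+1)² e^{(k+1)/4 - k/2} < ∞`; the zeros on the left by the symmetry).
For `q = 1` the function is `riemannZeta` (`DirichletCharacter.LFunction_modOne_eq`): `ME.t_DEN` (its weight is larger). -/
def S_LFX : Prop := ∀ (q : ℕ) [NeZero q] (χ : DirichletCharacter ℂ q), χ.IsPrimitive →
  Lf (DirichletCharacter.LFunction χ) (fun n : ℕ => χ n)

/-- (BBI) compare `ME.t_BBI`, `ME.t_PRC`, `ME.t_BBC` (files BBI.lean, PRC.lean and the file with `t_BBC`): the same proofs with the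
additional factor `u n`, `‖u n‖ ≤ 1`. -/
def S_BBI : Prop := ∀ u : ℕ → ℂ, (∀ n, ‖u n‖ ≤ 1) → ∀ (F : ℝ → ℝ), C2c F → ∀ R : ℝ, 1 ≤ R →
  Continuous (PG u R) ∧ Continuous (BG u F R) ∧ ∀ t : ℝ, ∫ s : ℝ, F s * PG u R (t + s) = BG u F R t

/-- (EFW) compare `ME.t_EFW` (EFW.lean): the same proof for `G` instead of `riemannZeta` (`hG.good` instead of
`H370.good_zeta`) and `a n = Λ n * u n` in `H370.A2.ef_known`. -/
def S_EFW : Prop := ∀ (G : ℂ → ℂ) (u : ℕ → ℂ), Lf G u → ∃ C T0 : ℝ, 0 < C ∧ 10 ≤ T0 ∧ ∀ T : ℝ, T0 ≤ T →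
  ∃ U1 U2 : ℝ, T ≤ U1 ∧ U1 ≤ T + 1 ∧ 2 * T - 1 ≤ U2 ∧ U2 ≤ 2 * T ∧
    ∀ R t : ℝ, 1 ≤ R → R ≤ Real.log T → T + Real.log T ≤ t → t ≤ 2 * T - Real.log T →
      ‖(∑ s ∈ H370.Zf G U1 U2, (H370.mult G s : ℂ) * WR R (H370.zz s - t)) -
        ((Real.log T / (2 * Real.pi) * om R - PG u R t : ℝ) : ℂ)‖ ≤ C

/-- (APX) compare `ME.t_APX` (APX.lean, APX2.lean, APX3.lean): the same proof (the weight in `Lf.dens` is what is needed for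
`R = L / 4`). -/
def S_APX : Prop := ∀ (G : ℂ → ℂ) (u : ℕ → ℂ), Lf G u → ∃ C T0 : ℝ, 0 < C ∧ 10 ≤ T0 ∧ ∀ T : ℝ, T0 ≤ T →
  20 ≤ Real.log T ∧ ∀ (η V : ℝ) (F : ℝ → ℝ), 0 < η → Adm η V (Real.log T) F →
    ContinuousOn (XG G F T) (Icc (T + 2 * Real.log T) (2 * T - 2 * Real.log T)) ∧
    T + 2 * Real.log T ≤ 2 * T - 2 * Real.log T ∧
    ∫ t in (T + 2 * Real.log T)..(2 * T - 2 * Real.log T), |XG G F T t + BG u F (Real.log T / 4) t| ≤ C * T * η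

/-- (PRM) compare `ME.t_PRM` (PRM.lean): the same proof with the additional factor `u n`, `‖u n‖ ≤ 1` (it only enters through
absolute values), and with an arbitrary `N`, `ε L / 4 ≤ log N ≤ 2 ε L`, instead of `⌊T ^ ε⌋` (so adapt the constants; `N ≤ T^{1/2}`
remains true as `2 ε ≤ 1/2`). -/
def S_PRM : Prop := ∃ C : ℝ, 0 < C ∧ ∀ ε : ℝ, 0 < ε → ε ≤ 1 / 4 → ∃ T0 : ℝ, 10 ≤ T0 ∧ ∀ T : ℝ, T0 ≤ T →
  ∀ (u : ℕ → ℂ), (∀ n, ‖u n‖ ≤ 1) → ∀ N : ℕ, ε * Real.log T / 4 ≤ Real.log N → Real.log N ≤ 2 * ε * Real.log T →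
  ∀ (η V : ℝ) (F : ℝ → ℝ), 0 < η → η ≤ 1 → 0 ≤ V → Adm η V (Real.log T) F →
  ∫ t in T..(2 * T), (BG u F (Real.log T / 4) t - YG u F N t) ^ 2 ≤ C * T * (η ^ 2 / ε ^ 2 + ε ^ 4 * (V + 1))

/-- (AP) approximation in mean by the prime sum, on `[aT, bT]`.
Proof.  Put `W_i = (a/2) (3/2)^i T`, `i ≤ m`, with `(3/2)^m (a/2) ≥ b` (`m` depends on `a`, `b` only).  For large `T` the intervals
`[W_i + 2 log W_i, 2 W_i - 2 log W_i]` cover `[aT, bT]`.  `L_i = log W_i = L + O(1)`, so for large `T` an `Adm η V L` function is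
`Adm (2η) V L_i` (only the condition `l2` depends on `L`; `l1`, `va`, `tv` are monotone in `η`), and
`|XG G F W_i t - XG G F T t| = |L_i - L| / (2π) |∫ F| ≤ C η`.  Use (APX) at `W_i`, (PRM) at `W_i` with `N = ⌊T^ε⌋`
(`ε L_i / 4 ≤ log N ≤ 2 ε L_i` for large `T`, and `|x| ≤ δ/8 + 2 x²/δ` or Cauchy-Schwarz).  Choose first `ε0` with
`C (V+1) ε0⁴ ≤` small, then for `ε ≤ ε0` choose `η` with `C η²/ε²` small, then `T0`.  (The integrand is continuous on `[aT, bT]` or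
at least integrable: `XG G F T` is there a finite sum of continuous functions, see `XF_eq` in ME/APX.lean; `YG` is continuous.) -/
def S_AP : Prop := ∀ (G : ℂ → ℂ) (u : ℕ → ℂ), Lf G u → ∀ a b V δ : ℝ, 0 < a → a < b → 0 < V → 0 < δ →
  ∃ ε0 : ℝ, 0 < ε0 ∧ ∀ ε : ℝ, 0 < ε → ε ≤ ε0 → ∃ η T0 : ℝ, 0 < η ∧ η ≤ 1 ∧ 10 ≤ T0 ∧ ∀ T : ℝ, T0 ≤ T →
    ∀ F : ℝ → ℝ, Adm η V (Real.log T) F →
      ContinuousOn (XG G F T) (Icc (a * T) (b * T)) ∧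
      ∫ t in (a * T)..(b * T), |XG G F T t + YG u F ⌊T ^ ε⌋₊ t| ≤ δ * T

/-- (OSC) first derivative test.
Proof.  Let `d₀` be the largest index with `lam d₀ ≠ 0`, `Φ(t) = ∑ lam d t^{d+1}`.  For `t ≥ T` (large) `|Φ'(t)| ≥ (d₀+1) |lam d₀| t^{d₀} -
D² T^{1/8} (2t)^{d₀ - 1} ≥ T^{-1/8}/2` if `d₀ ≥ 1` (and exactly `|lam 0| ≥ T^{-1/8}` if `d₀ = 0`), and in the same way `Φ''` has a constant sign
(or vanishes identically, `d₀ = 0`).  So `∫_T^{2T} e^{-iΦ} = ∫ (Φ' e^{-iΦ}) / Φ'` is at most `4 / min |Φ'| ≤ 8 T^{1/8} ≤ T^{1/2}` (integrate by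
parts; `∫ |(1/Φ')'| = |1/Φ'(2T) - 1/Φ'(T)|` by monotonicity). -/
def S_OSC : Prop := ∀ D : ℕ, ∃ T0 : ℝ, 1 ≤ T0 ∧ ∀ T : ℝ, T0 ≤ T → ∀ lam : Fin D → ℝ, (∃ d, lam d ≠ 0) →
  (∀ d, lam d = 0 ∨ T ^ (-(1 / 8 : ℝ)) ≤ |lam d|) → (∀ d, |lam d| ≤ T ^ (1 / 8 : ℝ)) →
  ‖∫ t in T..(2 * T), cexp (-(((∑ d, lam d * t ^ ((d : ℕ) + 1) : ℝ) : ℂ) * I))‖ ≤ T ^ (1 / 2 : ℝ)

open Classical in
/-- (MONO) time averages of monomials in the prime phases at polynomial heights.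
Proof.  `∏ i, ee (x i) (∑ d, β i d t^{d+1}) = exp(-i ∑_d lam_d t^{d+1})`, `lam_d = ∑_i β i d log (x i) = ∑_{p} (∑_{i : x i = p} β i d) log p`, the
logarithm of a positive rational number with numerator and denominator at most `N^{B m}`, `B = max |β i d|`; so `lam_d = 0` or
`|lam_d| ≥ N^{-B m}`, `lam_d = 0` iff all the exponents vanish (unique factorisation), `|lam_d| ≤ B m log N`.  Use (OSC);
`N ≤ T^κ`, `κ = 1/(16 B m + 16)`. -/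
def S_MONO : Prop := ∀ (m D : ℕ) (β : Fin m → Fin D → ℤ), ∃ κ T0 : ℝ, 0 < κ ∧ κ ≤ 1 ∧ 1 ≤ T0 ∧ ∀ T : ℝ, T0 ≤ T → ∀ N : ℕ,
  (N : ℝ) ≤ T ^ κ → ∀ x : Fin m → ℕ, (∀ i, (x i).Prime ∧ x i ≤ N) →
    ‖(1 / T : ℂ) * (∫ t in T..(2 * T), ∏ i, ee (x i) (∑ d, (β i d : ℝ) * t ^ ((d : ℕ) + 1))) -
      (if ∀ (d : Fin D) (p : ℕ), ∑ i, (if x i = p then β i d else 0) = 0 then 1 else 0)‖ ≤ T ^ (-(1 / 2 : ℝ))

/-- (CLG) the central limit theorem for prime polynomials at polynomial heights.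
Proof.  Let `P` be the primes `≤ N` and let the `θ_{p,d}` (`p ∈ P`, `d < D`) be independent and uniform on the circle (the product of the
Haar probability measures on `P × Fin D → AddCircle 1`, or on `P → (Fin D → AddCircle 1)`).  Put `Y(t) = Re ∑_j ∑_p b j p ee p (∑_d A j d t^{d+1})`
and `Y'(θ) = ∑_p X_p(θ_p)`, `X_p = Re ∑_j b j p e(-∑_d A j d θ_{p,d})`.
(1) For each `m`, expanding the powers (`Re z = (z + conj z)/2`) into at most `(2kN)^m` monomials with coefficients at most `η^m ≤ 1`,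
(MONO) gives `|(1/T) ∫_T^{2T} Y^m - E Y'^m| ≤ (2kN)^m T^{-1/2} ≤ T^{-1/4}` if `N ≤ T^κ`, `κ = κ(m, k, A)` small, `T ≥ T0`.
(2) The `X_p` are independent, of mean `0` (`A j ≠ 0` because `A j ≠ - A j`), `|X_p| ≤ ∑_j ‖b j p‖`, so (Hoeffding's lemma)
`E exp(λ Y') ≤ exp(λ² k ∑_j ∑_p ‖b j p‖² / 2) ≤ exp(λ² k² S0 / 2)` and `E Y'^{2m} / (2m)! ≤ λ^{-2m} E cosh(λ Y') ≤ λ^{-2m} exp(λ² k² S0 / 2)`;
with `λ = 2` and `m` large this is at most `ε/8`.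
(3) `|e^{iy} - ∑_{l < 2m} (iy)^l / l!| ≤ y^{2m} / (2m)!`, so by (1), (2) the time average of `e^{iY}` and `E e^{iY'}` differ by at most `ε/2`.
(4) `E e^{iY'} = ∏_p E e^{i X_p}`, `|E e^{i X_p} - exp(-E X_p² / 2)| ≤ C (kη) E X_p²`-small, `E X_p² = (1/2) ∑_{i,j : A i = A j} Re(b i p conj (b j p))`
(the products `b i p b j p e(-(A i + A j) θ)` have mean `0` as `A i ≠ - A j`); `|∏ z_p - ∏ w_p| ≤ ∑ |z_p - w_p|` for `|z_p|, |w_p| ≤ 1`. -/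
def S_CLG : Prop := ∀ (k D : ℕ) (A : Fin k → Fin D → ℤ), (∀ i j, A i ≠ - A j) → ∀ S0 ε : ℝ, 0 < S0 → 0 < ε →
  ∃ η κ T0 : ℝ, 0 < η ∧ 0 < κ ∧ κ ≤ 1 ∧ 1 ≤ T0 ∧ ∀ T : ℝ, T0 ≤ T → ∀ (N : ℕ) (b : Fin k → ℕ → ℂ), (N : ℝ) ≤ T ^ κ →
    (∀ j p, ‖b j p‖ ≤ η) → (∀ j, ∑ p ∈ (Finset.Icc 1 N).filter Nat.Prime, ‖b j p‖ ^ 2 ≤ S0) →
  ‖(1 / T : ℂ) * (∫ t in T..(2 * T), cexp (I * ((∑ j, ∑ p ∈ (Finset.Icc 1 N).filter Nat.Prime,
      b j p * ee p (∑ d, (A j d : ℝ) * t ^ ((d : ℕ) + 1))).re : ℂ))) -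
    cexp (-((1 / 4 * ∑ i, ∑ j, (if A i = A j then
      ∑ p ∈ (Finset.Icc 1 N).filter Nat.Prime, (b i p * (starRingEnd ℂ) (b j p)).re else 0) : ℝ) : ℂ))‖ ≤ ε

/-- (MRT) the Mertens sums of two different primitive characters, or of the same with a shift, are bounded.
Proof.  `v(n) = χ₁(n) conj χ₂(n)` is (the function of) a character `ψ` modulo `q₁ q₂`; it is the principal one iff `χ₁`, `χ₂` agree on the
integers prime to `q₁ q₂`, and then they are equal as functions (both primitive, so equal conductors; Mathlib: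
`DirichletCharacter.primitiveCharacter`, `changeLevel`, `IsPrimitive`).
First case, `ψ` not principal: `∑_{n ≤ x} ψ(n) n^{-1-iτ} log n = ∑_{d ≤ x} Λ(d) ψ(d) d^{-1-iτ} ∑_{m ≤ x/d} ψ(m) m^{-1-iτ}`; the inner sum is
`L(1+iτ, ψ) + O(d/x)` and the left side is bounded (partial summation, bounded character sums); `∑_{d ≤ x} Λ(d)/d · d/x = ψ(x)/x = O(1)`;
`L(1+iτ, ψ) ≠ 0` (Mathlib: `DirichletCharacter.LFunction_ne_zero_of_one_le_re`).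
Second case, `ψ` principal and `τ ≠ 0`: the terms with `(n, q₁ q₂) > 1` are bounded (prime powers of finitely many primes); for the
others the same with zeta: `∑_{m ≤ y} m^{-1-iτ} = ζ(1+iτ) - y^{-iτ}/(iτ) + O(1/y)` and
`∑_{n ≤ x} n^{-1-iτ} log n = - x^{-iτ} log x / (iτ) + O(1)`, so
`ζ(1+iτ) ∑_{d ≤ x} Λ(d) d^{-1-iτ} = (x^{-iτ}/(iτ)) (∑_{d ≤ x} Λ(d)/d - log x) + O(1) = O(1)` by Mertens (`H370.nt_mertens_lower`,
`H370.nt_mertens_upper`), and `ζ(1+iτ) ≠ 0`.  (Or any other proof, e.g. library results on `∑ Λ(n) χ(n)/n`.) -/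
def S_MRT : Prop := ∀ (q₁ q₂ : ℕ) [NeZero q₁] [NeZero q₂] (χ₁ : DirichletCharacter ℂ q₁) (χ₂ : DirichletCharacter ℂ q₂)
  (τ : ℝ), χ₁.IsPrimitive → χ₂.IsPrimitive → ((fun n : ℕ => χ₁ n) ≠ (fun n : ℕ => χ₂ n) ∨ τ ≠ 0) →
  ∃ C : ℝ, ∀ N : ℕ, ‖∑ n ∈ Finset.Icc 1 N, ((ArithmeticFunction.vonMangoldt n / n : ℝ) : ℂ) *
    (χ₁ n * (starRingEnd ℂ) (χ₂ n) * ee n τ)‖ ≤ C

/-- the covariance of two prime sums -/
noncomputable def KV (v : ℕ → ℂ) (f g : ℝ → ℝ) (h₁ h₂ : ℝ) (N : ℕ) : ℝ := 1 / (2 * Real.pi ^ 2) *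
  ∑ p ∈ (Finset.Icc 1 N).filter Nat.Prime, (Real.log p) ^ 2 / p *
    (((h₁ : ℂ) * FF f (h₁ * Real.log p)) * (starRingEnd ℂ) ((h₂ : ℂ) * FF g (h₂ * Real.log p)) * v p).re

/-- (COX) the limits of the covariances.
Proof.  For `f`, `g` of class `C²` with compact support `‖FF f x‖, ‖(FF f)' x‖ ≤ C/(1+x²)` (see ADM.lean, VAR.lean, `VARL`).
(a) By polarization (`f ± g`; the function `F(x) = (f ± g)(x/h)` has `FF F ξ = h FF (f ± g) (h ξ)`) and `t_VAR` with `L = log N`: by `t_ADM`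
(`k = 1`, `c = 1`) `F` is `Adm η V (log N)` with `η → 0`, as `h → 0`, `h log N → ∞`; the finitely many primes below `p₀` contribute `O(h²)`.
`∫_0^∞ ξ h² FF f (hξ) conj (FF g (hξ)) dξ` does not depend on `h`.
(b) `‖term‖ ≤ C (log p)²/p h₁ h₂ / ((1 + h₁² x²)(1 + h₂² x²))`, `x = log p`; dyadic blocks `x ∈ [2^i, 2^{i+1}]`, `∑_{block} (log p)/p ≤ 2^i + 14`
(Mertens): with `h₁ ≤ h₂` the sum is at most `C (h₁/h₂) (1 + log(h₂/h₁)) + C (h₁ + h₂)`.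
(c) Partial summation: `∑_{p ≤ x} (log p)/p v(p)` is bounded (the higher prime powers contribute `O(1)`) and
`φ(x) = x h₁ h₂ FF f (h₁ x) conj FF g (h₂ x)` has sup norm and total variation at most `C (h₁ + h₂) (1 + |log(h₁/h₂)|)`, or simply at most
`C (h₁ + h₂)^{1/2}`: `∫ x h₁² h₂ / ((1+h₁²x²)(1+h₂²x²)) dx ≤ C h₁² h₂ / (h₁^{2} ) ^{..}`; use `x h₂/(1+h₂²x²) ≤ 1` and `∫ h₁²/(1+h₁²x²) ≤ C h₁`. -/
def S_COX : Prop := ∀ (f g : ℝ → ℝ), ContDiff ℝ 2 f → HasCompactSupport f → ContDiff ℝ 2 g → HasCompactSupport g →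
  ∀ (v : ℕ → ℂ), (∀ n, ‖v n‖ ≤ 1) → ∀ (h₁ h₂ : ℝ → ℝ) (N : ℝ → ℕ), (∀ᶠ T in atTop, 0 < h₁ T) → (∀ᶠ T in atTop, 0 < h₂ T) →
    Tendsto h₁ atTop (𝓝 0) → Tendsto h₂ atTop (𝓝 0) →
    Tendsto (fun T => h₁ T * Real.log (N T)) atTop atTop → Tendsto (fun T => h₂ T * Real.log (N T)) atTop atTop →
  ((∃ p₀ : ℕ, ∀ p : ℕ, p.Prime → p₀ ≤ p → v p = 1) → h₁ = h₂ →
    Tendsto (fun T => KV v f g (h₁ T) (h₂ T) (N T)) atTop (𝓝 (cv f g))) ∧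
  ((Tendsto (fun T => h₁ T / h₂ T) atTop (𝓝 0) ∨ Tendsto (fun T => h₂ T / h₁ T) atTop (𝓝 0)) →
    Tendsto (fun T => KV v f g (h₁ T) (h₂ T) (N T)) atTop (𝓝 0)) ∧
  ((∃ C : ℝ, ∀ M : ℕ, ‖∑ n ∈ Finset.Icc 1 M, ((ArithmeticFunction.vonMangoldt n / n : ℝ) : ℂ) * v n‖ ≤ C) →
    Tendsto (fun T => KV v f g (h₁ T) (h₂ T) (N T)) atTop (𝓝 0))

end Pool.Agent.H203.GE
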