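import Pool.Agent.H203.GE.Defs

set_option autoImplicit false

/-! Mesoscopic statistics of the zeros of all Dirichlet L-functions, second stage: several independent parameters (real
numbers or ordinates of zeros), heights which are sums of real powers of the parameters. -/

open Complex Filter Topology Set MeasureTheory

namespace Pool.Agent.H203.GE

open Pool.Agent.H203.ME

/-- the uniform law on `(T, 2T]` -/
noncomputable def mT (T : ℝ) : Measure ℝ := (ENNReal.ofReal T)⁻¹ • volume.restrict (Ioc T (2 * T))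

/-- the law of the ordinate of a random zero of `G` with ordinate in `(T, 2T]` (with multiplicity) -/
noncomputable def mZ (G : ℂ → ℂ) (T : ℝ) : Measure ℝ :=
  ∑ z ∈ H370.Zf G T (2 * T), ENNReal.ofReal ((H370.mult G z : ℝ) / (H370.NN G T (2 * T) : ℝ)) • Measure.dirac z.im

/-- the box -/
def Bx (n : ℕ) (T : ℝ) : Set (Fin n → ℝ) := {t | ∀ i, T ≤ t i ∧ t i ≤ 2 * T}

open Classical in
/-- the averages of the monomials of degree at most `M` in the prime phases are those of independent uniform phases, up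
to `δ` -/
def MonoB {Ω : Type} [MeasurableSpace Ω] (μ : Measure Ω) {ι : Type} [Fintype ι] (Ψ : ι → Ω → ℝ) (M B N : ℕ) (δ : ℝ) :
    Prop :=
  ∀ m : ℕ, m ≤ M → ∀ β : Fin m → ι → ℤ, (∀ i d, |β i d| ≤ B) → ∀ x : Fin m → ℕ, (∀ i, (x i).Prime ∧ x i ≤ N) →
    ‖(∫ ω, ∏ i, ee (x i) (∑ d, (β i d : ℝ) * Ψ d ω) ∂μ) -
      (if ∀ (d : ι) (p : ℕ), ∑ i, (if x i = p then β i d else 0) = 0 then 1 else 0)‖ ≤ δ

open Classical in
/-- (CLA) abstract form of `S_CLG`: the average enters only through `MonoB` (see the sketch of `S_CLG`; the constants `(2k)^M`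
are absorbed in `η`).  `M`, `B`, `η` depend on `k, A, S0, ε` only. -/
def S_CLA : Prop := ∀ (k : ℕ) (ι : Type) [Fintype ι] (A : Fin k → ι → ℤ), (∀ i j, A i ≠ - A j) →
  ∀ S0 ε : ℝ, 0 < S0 → 0 < ε → ∃ (η : ℝ) (M B : ℕ), 0 < η ∧
  ∀ (Ω : Type) [MeasurableSpace Ω] (μ : Measure Ω) [IsProbabilityMeasure μ] (Ψ : ι → Ω → ℝ), (∀ d, Measurable (Ψ d)) →
  ∀ (N : ℕ) (δ : ℝ), MonoB μ Ψ M B N δ → δ * ((N : ℝ) + 1) ^ M ≤ η → ∀ b : Fin k → ℕ → ℂ,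
    (∀ j p, ‖b j p‖ ≤ η) → (∀ j, ∑ p ∈ (Finset.Icc 1 N).filter Nat.Prime, ‖b j p‖ ^ 2 ≤ S0) →
  ‖(∫ ω, cexp (I * ((∑ j, ∑ p ∈ (Finset.Icc 1 N).filter Nat.Prime,
      b j p * ee p (∑ d, (A j d : ℝ) * Ψ d ω)).re : ℂ)) ∂μ) -
    cexp (-((1 / 4 * ∑ i, ∑ j, (if A i = A j then
      ∑ p ∈ (Finset.Icc 1 N).filter Nat.Prime, (b i p * (starRingEnd ℂ) (b j p)).re else 0) : ℝ) : ℂ))‖ ≤ ε

/-- (OSR) first derivative test, real exponents (compare `S_OSC`, `t_OSC`).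
Proof.  `Φ(t) = ∑ lam d t^{e d}`, `d₀` the largest index with `lam d₀ ≠ 0`, `g > 0` the smallest gap `e d - e d'`, `d' < d`
(and `g ≤ e 0`).  With `σ ≤ g/8` and `T ≥ T0`: `|Φ'(t)| ≥ (e d₀ / 2) |lam d₀| t^{e d₀ - 1} ≥ c T^{e d₀ - 1 - σ}` on `[T, 2T]`, and
`|Φ''(t)| ≤ C T^{e d₀ - 2 + σ}`, so by integration by parts `|∫ e^{-iΦ}| ≤ 2 / min |Φ'| + ∫ |Φ''| / Φ'^2 ≤ C T^{1 - e d₀ + 3σ} ≤ T^{1-σ}`
if `5 σ ≤ e 0`, say. -/
def S_OSR : Prop := ∀ (D : ℕ) (e : Fin D → ℝ), (∀ d, 0 < e d) → StrictMono e → ∃ σ T0 : ℝ, 0 < σ ∧ 1 ≤ T0 ∧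
  ∀ T : ℝ, T0 ≤ T → ∀ lam : Fin D → ℝ, (∃ d, lam d ≠ 0) → (∀ d, lam d = 0 ∨ T ^ (-σ) ≤ |lam d|) →
  (∀ d, |lam d| ≤ T ^ σ) → ‖∫ t in T..(2 * T), cexp (-(((∑ d, lam d * t ^ (e d) : ℝ) : ℂ) * I))‖ ≤ T ^ (1 - σ)

/-- (MOR) monomials in the prime phases at heights with real exponents (compare `t_MONO`).
Proof.  As `t_MONO`: `lam d = c ∑_i β i d log (x i)`, zero or of size between `c N^{-B M}` and `c B M log N`. -/
def S_MOR : Prop := ∀ (D : ℕ) (e : Fin D → ℝ), (∀ d, 0 < e d) → StrictMono e → ∀ c : ℝ, 0 < c → ∀ M B : ℕ,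
  ∃ κ σ T0 : ℝ, 0 < κ ∧ 0 < σ ∧ 1 ≤ T0 ∧ ∀ T : ℝ, T0 ≤ T → ∀ N : ℕ, (N : ℝ) ≤ T ^ κ →
    MonoB (mT T) (fun (d : Fin D) (t : ℝ) => c * t ^ (e d)) M B N (T ^ (-σ))

/-- (MOV) the same for `n` independent parameters.
Proof.  The integrand is `∏_{i < n} G_i(t i)` with `G_i` a monomial in one parameter, so the integral is the product of the
integrals (`MeasureTheory.integral_fintype_prod_eq_prod`), each of them is within `T^{-σ}` of `0` or `1` (and of norm at most `1`), and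
the product of the indicators is the indicator of (∀ i d p, ...).  So the error is at most `n T^{-σ} ≤ T^{-σ/2}`. -/
def S_MOV : Prop := ∀ (n D : ℕ) (e : Fin D → ℝ), (∀ d, 0 < e d) → StrictMono e → ∀ c : ℝ, 0 < c → ∀ M B : ℕ,
  ∃ κ σ T0 : ℝ, 0 < κ ∧ 0 < σ ∧ 1 ≤ T0 ∧ ∀ T : ℝ, T0 ≤ T → ∀ N : ℕ, (N : ℝ) ≤ T ^ κ →
    MonoB (Measure.pi (fun _ : Fin n => mT T)) (fun (d : Fin n × Fin D) (t : Fin n → ℝ) => c * (t d.1) ^ (e d.2))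
      M B N (T ^ (-σ))

/-- `g` is monotone on `[T, 2T]` with derivative of order `T^(E-1)`, and maps `[T, 2T]` into `[a T^E, b T^E]` -/
structure Mon (E a b T : ℝ) (g : ℝ → ℝ) : Prop where
  maps : ∀ s ∈ Icc T (2 * T), a * T ^ E ≤ g s ∧ g s ≤ b * T ^ E
  der : ∃ g' : ℝ → ℝ, ContinuousOn g' (Icc T (2 * T)) ∧ (∀ s ∈ Icc T (2 * T), HasDerivAt g (g' s) s) ∧
    ((∀ s ∈ Icc T (2 * T), a * T ^ (E - 1) ≤ g' s) ∨ (∀ s ∈ Icc T (2 * T), g' s ≤ -(a * T ^ (E - 1)))) ∧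
    ∀ s ∈ Icc T (2 * T), |g' s| ≤ b * T ^ (E - 1)

/-- a height function of `n` parameters in `[T, 2T]` -/
structure Ht {n : ℕ} (E a b T : ℝ) (H : (Fin n → ℝ) → ℝ) : Prop where
  cont : Continuous H
  maps : ∀ t ∈ Bx n T, a * T ^ E ≤ H t ∧ H t ≤ b * T ^ E
  part : ∀ i, (∀ t s, H (Function.update t i s) = H t) ∨ ∀ t ∈ Bx n T, Mon E a b T (fun s => H (Function.update t i s))
  ex : ∃ i, ∀ t ∈ Bx n T, Mon E a b T (fun s => H (Function.update t i s))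

/-- (CVR) change of variables.
Proof.  `φ(g s) ≤ (a T^{E-1})⁻¹ |g' s| φ(g s)` and `∫ |g'| φ(g) = ∫_{g(T)}^{g(2T)} φ` up to the sign
(`intervalIntegral.integral_comp_mul_deriv'` or `MeasureTheory.integral_image_eq_integral_abs_deriv_smul`). -/
def S_CVR : Prop := ∀ (E a b T : ℝ), 0 < a → a < b → 0 < T → ∀ g : ℝ → ℝ, Mon E a b T g →
  ∀ φ : ℝ → ℝ, ContinuousOn φ (Icc (a * T ^ E) (b * T ^ E)) → (∀ x, 0 ≤ φ x) →
    (∫ s in T..(2 * T), φ (g s)) ≤ 1 / (a * T ^ (E - 1)) * ∫ v in (a * T ^ E)..(b * T ^ E), φ v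

/-- (MAR) if all the integrals over the `i`-th variable are at most `C` then so is the integral.
Proof.  `Measure.pi` is isomorphic to `ν i × Measure.pi (the others)` (`MeasureTheory.measurePreserving_piFinSuccAbove`, `n = n' + 1`), Fubini.
(Replace `f` outside `Bx` by `0`.) -/
def S_MAR : Prop := ∀ (n : ℕ) (T : ℝ), 0 < T → ∀ (ν : Fin n → Measure ℝ), (∀ i, IsProbabilityMeasure (ν i)) →
  (∀ i, ν i (Icc T (2 * T))ᶜ = 0) → ∀ (i : Fin n) (f : (Fin n → ℝ) → ℝ) (C : ℝ), (∀ t, 0 ≤ f t) →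
  AEStronglyMeasurable f (Measure.pi ν) →
  (∀ t ∈ Bx n T, Integrable (fun s => f (Function.update t i s)) (ν i) ∧ ∫ s, f (Function.update t i s) ∂(ν i) ≤ C) →
    Integrable f (Measure.pi ν) ∧ ∫ t, f t ∂(Measure.pi ν) ≤ C

/-- (APN) approximation in mean by the prime sum at the height `H`.
Proof.  `S_AP` at `T ^ E` (`log (T ^ E) = E log T`) with `δ a / 2`, `ε / E`: `∫_{a T^E}^{b T^E} |XG + YG| ≤ (a δ) T^E`, by (CVR) the integral over the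
`i`-th variable (`i` from `Ht.ex`) is at most `δ` (`∫ s, φ s ∂mT T = (1/T) ∫_T^{2T} φ`), then (MAR). -/
def S_APN : Prop := ∀ (G : ℂ → ℂ) (u : ℕ → ℂ), Lf G u → ∀ (n : ℕ) (E a b V δ : ℝ), 0 < E → 0 < a → a < b → 0 < V → 0 < δ →
  ∃ ε0 : ℝ, 0 < ε0 ∧ ∀ ε : ℝ, 0 < ε → ε ≤ ε0 → ∃ η T0 : ℝ, 0 < η ∧ η ≤ 1 ∧ 10 ≤ T0 ∧ ∀ T : ℝ, T0 ≤ T →
    ∀ F : ℝ → ℝ, Adm η V (E * Real.log T) F → ∀ H : (Fin n → ℝ) → ℝ, Ht E a b T H →
      ContinuousOn (fun t => XG G F (T ^ E) (H t)) (Bx n T) ∧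
      Integrable (fun t => |XG G F (T ^ E) (H t) + YG u F ⌊T ^ ε⌋₊ (H t)|) (Measure.pi (fun _ : Fin n => mT T)) ∧
      ∫ t, |XG G F (T ^ E) (H t) + YG u F ⌊T ^ ε⌋₊ (H t)| ∂(Measure.pi (fun _ : Fin n => mT T)) ≤ δ

/-- (L1G) the linear statistics are bounded in `L¹`.
Proof.  `S_AP` with `δ = 1`, `ε = min ε0 (1/16)`: it is enough to bound `∫_{aT}^{bT} |YG u F N|`, `N = ⌊T^ε⌋`; cover `[aT, bT]` by finitely many
`[W, 2W]` and use Cauchy-Schwarz and `ME.L1XL.mom2` (with `ME.t_MOM`) with the coefficients `(1/π) (log p)/√p FF F (log p) u p`,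
`∑ ‖·‖² ≤ (1/π²) (V + C(η + η² + (η L/log N)²))` by `ME.t_VAR` (see the proof of `ME.t_L1X` in L1X.lean). -/
def S_L1G : Prop := ∀ (G : ℂ → ℂ) (u : ℕ → ℂ), Lf G u → ∀ a b V : ℝ, 0 < a → a < b → 0 < V →
  ∃ C η T0 : ℝ, 0 < C ∧ 0 < η ∧ η ≤ 1 ∧ 10 ≤ T0 ∧ ∀ T : ℝ, T0 ≤ T → ∀ F : ℝ → ℝ, Adm η V (Real.log T) F →
    ContinuousOn (XG G F T) (Icc (a * T) (b * T)) ∧ ∫ t in (a * T)..(b * T), |XG G F T t| ≤ C * T

/-- number of zeros (with multiplicity) with ordinate in `(a, b]`, among those with ordinate in `(T, 2T]` -/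
noncomputable def cnG (G : ℂ → ℂ) (T a b : ℝ) : ℝ :=
  ∑ z ∈ H370.Zf G T (2 * T), (H370.mult G z : ℝ) * (Set.Ioc a b).indicator (fun _ => (1 : ℝ)) z.im

/-- (LLG) law of large numbers for windows (compare `ME.t_LLN`: the same proof, with `S_L1G` (`a = 1`, `b = 2`) instead of `S_L1X`; the
functions `f^±(x/s)` are `Adm η V L` for every `η` if `K` is large). -/
def S_LLG : Prop := ∀ (G : ℂ → ℂ) (u : ℕ → ℂ), Lf G u → ∀ ε : ℝ, 0 < ε → ∃ K T0 : ℝ, 1 ≤ K ∧ 10 ≤ T0 ∧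
  ∀ T : ℝ, T0 ≤ T → ∀ s : ℝ, K ≤ s * Real.log T → s ≤ 1 / K →
  ∫ t in (T + 2 * Real.log T)..(2 * T - 2 * Real.log T), |cnG G T t (t + s) - s * Real.log T / (2 * Real.pi)| ≤
    ε * s * Real.log T * T

/-- (TRG) from random zeros to random real numbers (compare `ME.t_ZER`, steps (1)-(4), and `ME.ZERL.pass`: the same proof, with a general
`Φ` instead of `exp (i X)`; `W` bounds the variation of `Φ`). -/
def S_TRG : Prop := ∀ (G : ℂ → ℂ) (u : ℕ → ℂ), Lf G u → ∀ ε : ℝ, 0 < ε → ∃ K T0 : ℝ, 1 ≤ K ∧ 10 ≤ T0 ∧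
  ∀ T : ℝ, T0 ≤ T → IsProbabilityMeasure (mZ G T) ∧ mZ G T (Icc T (2 * T))ᶜ = 0 ∧
  ∀ w : ℝ, K ≤ w * Real.log T → w ≤ 1 / K → ∀ (Φ : ℝ → ℂ) (W : ℝ → ℝ), (∀ t, ‖Φ t‖ ≤ 1) →
    ContinuousOn Φ (Icc T (2 * T)) → ContinuousOn W (Icc T (2 * T)) → (∀ t, 0 ≤ W t) →
    (∀ x y : ℝ, T ≤ x → x ≤ y → y ≤ 2 * T → ‖Φ y - Φ x‖ ≤ ∫ r in x..y, W r) →
    ‖(∫ t, Φ t ∂(mZ G T)) - ∫ t, Φ t ∂(mT T)‖ ≤ ε + 2 * w * (1 / T * ∫ r in T..(2 * T), W r)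

/-- (TRN) the same for `n` independent parameters, some of them random zeros.
Proof.  Replace the measures one after the other; for the `i`-th one integrate the bound of (TRG) for `s ↦ Φ (update t i s)`
over the other variables (Fubini: `MeasureTheory.measurePreserving_piFinSuccAbove`; `Φ` is continuous on `Bx`, which has full measure).
Induction over the number of the `i` with `ν i ≠ mT T`, or `n + 1` hybrid products. -/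
def S_TRN : Prop := ∀ (n : ℕ) (G : Fin n → ℂ → ℂ) (u : Fin n → ℕ → ℂ), (∀ i, Lf (G i) (u i)) → ∀ ε : ℝ, 0 < ε →
  ∃ K T0 : ℝ, 1 ≤ K ∧ 10 ≤ T0 ∧ ∀ T : ℝ, T0 ≤ T → ∀ w : ℝ, K ≤ w * Real.log T → w ≤ 1 / K →
  ∀ (ν : Fin n → Measure ℝ), (∀ i, ν i = mT T ∨ ν i = mZ (G i) T) →
  ∀ (Φ : (Fin n → ℝ) → ℂ) (W : Fin n → (Fin n → ℝ) → ℝ) (Λ : ℝ), (∀ t, ‖Φ t‖ ≤ 1) → ContinuousOn Φ (Bx n T) →
    (∀ i, ContinuousOn (W i) (Bx n T)) → (∀ i t, 0 ≤ W i t) →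
    (∀ i, ∀ t ∈ Bx n T, ∀ x y : ℝ, T ≤ x → x ≤ y → y ≤ 2 * T →
      ‖Φ (Function.update t i y) - Φ (Function.update t i x)‖ ≤ ∫ r in x..y, W i (Function.update t i r)) →
    (∀ i, ∀ t ∈ Bx n T, 1 / T * (∫ r in T..(2 * T), W i (Function.update t i r)) ≤ Λ) →
    ‖(∫ t, Φ t ∂(Measure.pi ν)) - ∫ t, Φ t ∂(Measure.pi (fun _ : Fin n => mT T))‖ ≤ n * (ε + 2 * w * Λ)

/-- the heights: sums of real powers of the parameters with rational coefficients, plus a real constant -/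
noncomputable def HH {n D : ℕ} (e : Fin D → ℝ) (A : Fin n → Fin D → ℚ) (τ : ℝ) (t : Fin n → ℝ) : ℝ :=
  (∑ i, ∑ d, (A i d : ℝ) * (t i) ^ (e d)) + τ

/-- (HTP) one parameter.
Proof.  `d₀` the largest index with `A 0 d₀ ≠ 0`, `E = e d₀`: `H(t) ~ A t^E`, `H'(t) ~ E A t^{E-1}`; the other terms are smaller by a power
of `T`; take `a = min (A/2) (E A 2^{-|E-1|}/2)` and `b` large. -/
def S_HTP : Prop := ∀ (D : ℕ) (e : Fin D → ℝ), (∀ d, 0 < e d) → StrictMono e → ∀ (A : Fin 1 → Fin D → ℚ) (τ : ℝ) (d₀ : Fin D),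
  0 < A 0 d₀ → (∀ d, d₀ < d → A 0 d = 0) → ∃ a b T0 : ℝ, 0 < a ∧ a < b ∧ 1 ≤ T0 ∧ ∀ T : ℝ, T0 ≤ T → Ht (e d₀) a b T (HH e A τ)

/-- (HTL) linear forms, positive on the box `[1, 2]^n`.
Proof.  `D = 1`, `e = 1`.  On the compact box `[1,2]^n` the form is `≥ 2a > 0` and `≤ b/2`; decrease `a` such that also `a ≤ |A i|` for all the
`A i ≠ 0`; `E = 1`, `T^0 = 1`. -/
def S_HTL : Prop := ∀ (n : ℕ) (r : Fin n → ℚ) (τ : ℝ), (∀ x : Fin n → ℝ, (∀ i, 1 ≤ x i ∧ x i ≤ 2) → 0 < ∑ i, (r i : ℝ) * x i) →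
  ∃ a b T0 : ℝ, 0 < a ∧ a < b ∧ 1 ≤ T0 ∧ ∀ T : ℝ, T0 ≤ T →
    Ht 1 a b T (HH (fun _ : Fin 1 => (1 : ℝ)) (fun i (_ : Fin 1) => r i) τ)

end Pool.Agent.H203.GE
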