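import Pool.Agent.H203.GE.Defs2
import Pool.Agent.H203.ME.ALL5

set_option autoImplicit false

/-! Mesoscopic statistics of the zeros of all Dirichlet L-functions, fourth stage: all moments of the linear statistics.
The zeta versions are in ME/Defs5.lean and the files KPT, PT, BMB, NCL, FAR, DEC, CVR, WIN5, EDG, BMX of ME; the proofs are the same
with `G` for `riemannZeta`, `H370.mult G s` for `mz s`, `XG G`, `BG u`, `Lf.good` for `H370.good_zeta` and the density theorem `Lf.dens`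
(weight `e^{L |β - 1/2| / 4}`) for `S_DEN` (weight `e^{L |β - 1/2| / 2}`); `16 (m+1)` replaces `8 (m+1)` in `Rm`.
(Do not import GE/Defs3.lean together with this file: name clashes in ME.) -/

open Complex Filter Topology Set MeasureTheory

namespace Pool.Agent.H203.GE

open Pool.Agent.H203.ME hiding BG S_PT S_BBI S_EFW S_APX S_PRM

/-- weighted number of ordinates near `t` at the scale `h` (compare `ME.NW`) -/
noncomputable def NWG (G : ℂ → ℂ) (T h t : ℝ) : ℝ :=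
  ∑ s ∈ H370.Zf G T (2 * T), (H370.mult G s : ℝ) * w1 ((s.im - t) / h)

/-- the bandwidth `log T / (16 (m+1) log log T)` (compare `ME.Rm`) -/
noncomputable def RG (m : ℕ) (T : ℝ) : ℝ := Real.log T / (16 * (m + 1) * Real.log (Real.log T))

open Classical in
/-- the contribution of the zeros at distance more than `1 / RG` from the critical line (compare `ME.PF`) -/
noncomputable def PFG (G : ℂ → ℂ) (m : ℕ) (T h t : ℝ) : ℝ :=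
  ∑ s ∈ (H370.Zf G T (2 * T)).filter (fun s => 1 < RG m T * |s.re - 1 / 2|),
    (H370.mult G s : ℝ) * (w1 ((s.im - t) / h) * (((s.re - 1 / 2) / h) ^ 2 * Real.exp (RG m T * |s.re - 1 / 2|)))

/-- a smooth count of the ordinates (compare `ME.BG`) -/
noncomputable def SCG (G : ℂ → ℂ) (T h t : ℝ) : ℝ :=
  ∑ s ∈ H370.Zf G T (2 * T), (H370.mult G s : ℝ) * LLNL.bu (-1) 2 1 ((s.im - t) / h)

/-- (PTH) the approximate formula, pointwise, for every `R` (compare `ME.t_PT` of ME/PT.lean, i.e. `S_PT` of ME/Defs5.lean). -/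
def S_PTH : Prop := ∀ (G : ℂ → ℂ) (u : ℕ → ℂ), Lf G u → ∃ C T0 : ℝ, 0 < C ∧ 10 ≤ T0 ∧ ∀ T : ℝ, T0 ≤ T → 20 ≤ Real.log T ∧
  T + 2 * Real.log T ≤ 2 * T - 2 * Real.log T ∧
  ∀ F : ℝ → ℝ, C2c F → ∀ R : ℝ, 1 ≤ R → R ≤ Real.log T →
    ∀ t ∈ Icc (T + 2 * Real.log T) (2 * T - 2 * Real.log T),
      |XG G F T t + BG u F R t| ≤ (∑ s ∈ H370.Zf G T (2 * T), (H370.mult G s : ℝ) *
        (‖KF F R ((s.im - t : ℝ) : ℂ) - F (s.im - t)‖ +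
          ‖KF F R (((s.im - t : ℝ) : ℂ) + ((s.re - 1 / 2 : ℝ) : ℂ) * I) +
            KF F R (((s.im - t : ℝ) : ℂ) - ((s.re - 1 / 2 : ℝ) : ℂ) * I) - 2 * KF F R ((s.im - t : ℝ) : ℂ)‖)) +
        C * (1 + Real.log T / R ^ 2) * ∫ x : ℝ, |F x|

/-- (BMG) all moments of the prime side are bounded (compare `ME.t_BMB` in ME/BMB.lean; the factor `u n`, `‖u n‖ ≤ 1`, is harmless: it
goes into the coefficients; for the prime squares `u (p²)` and the phase `ee p (2t)`). -/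
def S_BMG : Prop := ∀ (m : ℕ) (f : ℝ → ℝ), ContDiff ℝ 2 f → HasCompactSupport f → ∃ C K T0 : ℝ, 0 < C ∧ 1 ≤ K ∧ 10 ≤ T0 ∧
  ∀ T : ℝ, T0 ≤ T → ∀ u : ℕ → ℂ, (∀ n, ‖u n‖ ≤ 1) → ∀ h R : ℝ, 0 < h → h ≤ 1 / K → 1 ≤ h * R →
    R ≤ Real.log T / (64 * (m + 1)) → ∫ t in T..(2 * T), (BG u (fun x => f (x / h)) R t) ^ (2 * m) ≤ C * T

/-- (NCG) crude bound for the weighted count (compare `ME.t_NCL`). -/
def S_NCG : Prop := ∀ (G : ℂ → ℂ) (u : ℕ → ℂ), Lf G u → ∃ C T0 : ℝ, 0 < C ∧ 10 ≤ T0 ∧ ∀ T : ℝ, T0 ≤ T → ∀ h : ℝ, 0 < h → h ≤ 1 →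
  ∀ t : ℝ, NWG G T h t ≤ C * Real.log T

/-- (FAG) moments of the contribution of the zeros far from the line (compare `ME.t_FAR`).  Here `m R ≤ L/16`, so
`q^m ≤ h^{-2m} y² e^{L|y|/4} e^{-(3/16) L |y|}` and on the far zeros `(3/16) L |y| ≥ (3/16) L / R = 3 (m+1) log L`. -/
def S_FAG : Prop := ∀ (G : ℂ → ℂ) (u : ℕ → ℂ), Lf G u → ∀ m : ℕ, ∃ T0 : ℝ, 10 ≤ T0 ∧ ∀ T : ℝ, T0 ≤ T → ∀ h : ℝ,
  (Real.log (Real.log T)) ^ 2 ≤ h * Real.log T → h ≤ 1 → ∫ t in T..(2 * T), (PFG G m T h t) ^ m ≤ T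

/-- (DEG) the decomposition (compare `ME.t_DEC`). -/
def S_DEG : Prop := ∀ (G : ℂ → ℂ) (u : ℕ → ℂ), Lf G u → ∀ (m : ℕ) (f : ℝ → ℝ), ContDiff ℝ 2 f → HasCompactSupport f →
  ∃ C K T0 : ℝ, 0 < C ∧ 1 ≤ K ∧ 10 ≤ T0 ∧
  ∀ T : ℝ, T0 ≤ T → ∀ h : ℝ, (Real.log (Real.log T)) ^ 2 ≤ h * Real.log T → h ≤ 1 / K →
    ∀ t ∈ Icc (T + 2 * Real.log T) (2 * T - 2 * Real.log T),
      |XG G (fun x => f (x / h)) T t| ≤ |BG u (fun x => f (x / h)) (RG m T) t| +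
        C * (Real.log (Real.log T)) ^ 2 / (h * Real.log T) ^ 2 * NWG G T h t + C * PFG G m T h t + C

/-- (CVG) covering (compare `ME.t_CVR` in ME/CVR.lean). -/
def S_CVG : Prop := ∀ (G : ℂ → ℂ) (u : ℕ → ℂ), Lf G u → ∃ C T0 : ℝ, 0 < C ∧ 10 ≤ T0 ∧ ∀ T : ℝ, T0 ≤ T → ∀ h : ℝ, 0 < h → h ≤ 1 →
  ∀ t ∈ Icc T (2 * T),
  NWG G T h t ≤ C * ∑ j ∈ Finset.Icc (-⌈1 / h⌉) ⌈1 / h⌉, 1 / (1 + (j : ℝ) ^ 2) * SCG G T h (t + j * h) +
    C * (h ^ 2 * Real.log T)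

/-- (WIG) moments of the weighted count (compare `ME.t_WIN5` in ME/WIN5.lean). -/
def S_WIG : Prop := ∀ (G : ℂ → ℂ) (u : ℕ → ℂ), Lf G u → ∀ m : ℕ, ∃ C K T0 : ℝ, 0 < C ∧ 1 ≤ K ∧ 10 ≤ T0 ∧
  ∀ T : ℝ, T0 ≤ T → ∀ h : ℝ, (Real.log (Real.log T)) ^ 2 ≤ h * Real.log T → h ≤ 1 / K →
    ∫ t in (T + 2 * Real.log T)..(2 * T - 2 * Real.log T), (NWG G T h t) ^ m ≤ C * (h * Real.log T) ^ m * T

/-- (BMH) all moments of the linear statistics are bounded (compare `ME.t_BMX` in ME/BMX.lean), here only on `[T + 2L, 2T - 2L]`. -/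
def S_BMH : Prop := ∀ (G : ℂ → ℂ) (u : ℕ → ℂ), Lf G u → ∀ (m : ℕ) (f : ℝ → ℝ), ContDiff ℝ 2 f → HasCompactSupport f →
  ∃ C K T0 : ℝ, 0 < C ∧ 1 ≤ K ∧ 10 ≤ T0 ∧
  ∀ T : ℝ, T0 ≤ T → ∀ h : ℝ, (Real.log (Real.log T)) ^ 2 ≤ h * Real.log T → h ≤ 1 / K →
    ∫ t in (T + 2 * Real.log T)..(2 * T - 2 * Real.log T), |XG G (fun x => f (x / h)) T t| ^ m ≤ C * T

/-- (BMI) the same on `[aT, bT]`.
Proof.  Cover `[aT, bT]` by finitely many `[W_i + 2 log W_i, 2 W_i - 2 log W_i]`, `W_i = (a/2) (3/2)^i T` (see `t_AP` in AP.lean);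
`|XG G F W_i t - XG G F T t| = |log W_i - log T| / (2π) |∫ F| ≤ C`; the condition `2 (log log T)² ≤ h log T` gives
`(log log W_i)² ≤ h log W_i` for large `T`. -/
def S_BMI : Prop := ∀ (G : ℂ → ℂ) (u : ℕ → ℂ), Lf G u → ∀ (m : ℕ) (f : ℝ → ℝ), ContDiff ℝ 2 f → HasCompactSupport f →
  ∀ a b : ℝ, 0 < a → a < b → ∃ C K T0 : ℝ, 0 < C ∧ 1 ≤ K ∧ 10 ≤ T0 ∧
  ∀ T : ℝ, T0 ≤ T → ∀ h : ℝ, 2 * (Real.log (Real.log T)) ^ 2 ≤ h * Real.log T → h ≤ 1 / K →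
    ContinuousOn (XG G (fun x => f (x / h)) T) (Icc (a * T) (b * T)) ∧
    ∫ t in (a * T)..(b * T), |XG G (fun x => f (x / h)) T t| ^ m ≤ C * T

/-- (ONP) the moment method backwards, for probability measures (compare `ME.t_ONE` in ME/ONE.lean).  (The hypothesis on the even moments
gives the integrability of all powers.) -/
def S_ONP : Prop := ∀ (Ω : Type) [MeasurableSpace Ω] (P : ℝ → Measure Ω) (Y : ℝ → Ω → ℝ) (σ : ℝ), 0 ≤ σ →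
  (∀ᶠ T : ℝ in atTop, IsProbabilityMeasure (P T)) → (∀ᶠ T : ℝ in atTop, AEStronglyMeasurable (Y T) (P T)) →
  (∀ m : ℕ, ∃ C : ℝ, ∀ᶠ T : ℝ in atTop, Integrable (fun ω => |Y T ω| ^ m) (P T) ∧ ∫ ω, |Y T ω| ^ m ∂(P T) ≤ C) →
  (∀ v : ℝ, Tendsto (fun T : ℝ => ∫ ω, cexp (I * ((v * Y T ω : ℝ) : ℂ)) ∂(P T)) atTop
    (𝓝 (cexp (-((v ^ 2 * σ : ℝ) : ℂ) / 2)))) →
  ∀ k : ℕ, Tendsto (fun T : ℝ => ∫ ω, (Y T ω) ^ k ∂(P T)) atTop (𝓝 (gm k σ))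

end Pool.Agent.H203.GE
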