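import Pool.Agent.H203.GE.Defs4

set_option autoImplicit false

/-! Moments of the linear statistics seen from random zeros. -/

open Complex Filter Topology Set MeasureTheory

namespace Pool.Agent.H203.GE

open Pool.Agent.H203.ME hiding BG S_PT S_BBI S_EFW S_APX S_PRM

/-- (MZ) all moments of the linear statistics, at the heights `g(γ)`, `γ` the ordinate of a random zero of `G₀`, are bounded.
Proof.  `L = log T`, `F(x) = f(x/h)`, `F₁(x) = f'(x/h)`, `X = XG G F (T^E)`, `X₁ = XG G F₁ (T^E)`; `X` is differentiable on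
`[a T^E, b T^E]` with `X' = -(1/h) X₁` (`ENGL.XG_deriv`, `ENGL.var_bd` in ENE.lean), `w = h / K'` with a suitable constant `K'` (so that
`(log log T)² ≤ w log T` and `w ≤ 1/K''`).  For a zero with ordinate `γ ∈ [T + w + 2L, 2T - 2L]`, by Jensen
`|X(g γ)|^m ≤ 2^{m-1} [(1/w) ∫_{γ-w}^γ |X(g t)|^m dt + (b w T^{E-1} / h)^m (1/w) ∫_{γ-w}^γ |X₁(g t)|^m dt]`, and `T^{E-1} ≤ 1`, `w ≤ h`.  Sum over
the zeros: `∑_γ m(γ) (1/w) ∫_{γ-w}^γ U = (1/w) ∫ U(t) #{γ ∈ [t, t+w]} dt ≤ (1/w) (∫ U²)^{1/2} (∫ (2 NWG G₀ T w t)²)^{1/2}` over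
`[T + 2L, 2T - 2L]`, which is at most `(1/w) (C T)^{1/2} (C (wL)² T)^{1/2} = C T L` by `S_BMI` (exponent `2m`, at `T^E`, with (CVR) for the
change of variables `g`) and `S_WIG` (exponent `2`, `h = w`).  The other zeros are `O(L²)` in number (`H370.zcount`; compare
`ME.ZERL.bad_le` and TRG.lean) and there `|X| ≤ C L`, so they contribute `≤ C L^{m+2} ≤ T`.  Divide by `NN ~ T L / (2π)`
(`H370.nn_asymp`). -/
def S_MZ : Prop := ∀ (G₀ : ℂ → ℂ) (u₀ : ℕ → ℂ), Lf G₀ u₀ → ∀ (G : ℂ → ℂ) (u : ℕ → ℂ), Lf G u →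
  ∀ (m : ℕ) (f : ℝ → ℝ), ContDiff ℝ 3 f → HasCompactSupport f → ∀ E a b : ℝ, 0 < E → E ≤ 1 → 0 < a → a < b →
  ∃ C K T0 : ℝ, 0 < C ∧ 1 ≤ K ∧ 10 ≤ T0 ∧
  ∀ T : ℝ, T0 ≤ T → ∀ h : ℝ, K * (Real.log (Real.log T)) ^ 2 ≤ h * Real.log T → h ≤ 1 / K → ∀ g : ℝ → ℝ, Mon E a b T g →
    Integrable (fun s => |XG G (fun x => f (x / h)) (T ^ E) (g s)| ^ m) (mZ G₀ T) ∧
    ∫ s, |XG G (fun x => f (x / h)) (T ^ E) (g s)| ^ m ∂(mZ G₀ T) ≤ C

end Pool.Agent.H203.GE
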