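import Pool.Agent.H203.GE.Defs2

set_option autoImplicit false

/-! The coefficients of the prime sums and their covariances. -/

open Complex Filter Topology Set MeasureTheory

namespace Pool.Agent.H203.GE

open Pool.Agent.H203.ME

namespace ENGL

lemma ee_add (p : ℕ) (x y : ℝ) : ee p (x + y) = ee p x * ee p y := by
  unfold ee
  rw [← Complex.exp_add]
  congr 1
  push_cast
  ring

lemma norm_ee (p : ℕ) (x : ℝ) : ‖ee p x‖ = 1 := by
  unfold ee
  rw [← neg_mul, ← Complex.ofReal_neg, Complex.norm_exp_ofReal_mul_I]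

lemma conj_ee (p : ℕ) (x : ℝ) : (starRingEnd ℂ) (ee p x) = ee p (-x) := by
  unfold ee
  rw [← Complex.exp_conj]
  congr 1
  rw [map_neg, map_mul, Complex.conj_ofReal, Complex.conj_I]
  push_cast
  ring

/-- the coefficients of the prime sum at height `x + τ` -/
noncomputable def bb (F : ℝ → ℝ) (u : ℕ → ℂ) (τ v : ℝ) (p : ℕ) : ℂ := (v : ℂ) * (ap F p * (u p * ee p τ))

lemma bb_le {F : ℝ → ℝ} {u : ℕ → ℂ} (hu : ∀ n, ‖u n‖ ≤ 1) (τ v : ℝ) (p : ℕ) :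
    ‖bb F u τ v p‖ ≤ |v| * ∫ x : ℝ, |F x| := by
  unfold bb
  rw [norm_mul, norm_mul, norm_mul, norm_ee, mul_one, Complex.norm_real, Real.norm_eq_abs]
  have h0 : 0 ≤ ∫ x : ℝ, |F x| := integral_nonneg fun _ => abs_nonneg _
  calc |v| * (‖ap F p‖ * ‖u p‖) ≤ |v| * ((∫ x : ℝ, |F x|) * 1) := by
        gcongr
        · exact ap_le F p
        · exact hu p
    _ = _ := by rw [mul_one]

lemma bb_YG (F : ℝ → ℝ) (u : ℕ → ℂ) (τ v : ℝ) (N : ℕ) (x : ℝ) :
    ((∑ p ∈ (Finset.Icc 1 N).filter Nat.Prime, bb F u τ v p * ee p x).re : ℝ) = - (v * YG u F N (x + τ)) := by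
  have h1 : ∑ p ∈ (Finset.Icc 1 N).filter Nat.Prime, bb F u τ v p * ee p x =
      -((v : ℂ) * ∑ p ∈ (Finset.Icc 1 N).filter Nat.Prime,
        ((1 / Real.pi * (Real.log p / Real.sqrt p) : ℝ) : ℂ) * FF F (Real.log p) * (u p * ee p (x + τ))) := by
    rw [Finset.mul_sum, ← Finset.sum_neg_distrib]
    refine Finset.sum_congr rfl fun p _ => ?_
    unfold bb ap
    rw [ee_add]
    ring
  rw [h1, Complex.neg_re, Complex.re_ofReal_mul]
  rfl

lemma FF_scale (f : ℝ → ℝ) {h : ℝ} (hh : 0 < h) (ξ : ℝ) :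
    FF (fun x => f (x / h)) ξ = (h : ℂ) * FF f (h * ξ) := by
  unfold FF
  have h1 := Measure.integral_comp_div (fun y : ℝ => (f y : ℂ) * cexp (-(((h * ξ * y : ℝ) : ℂ) * I))) h
  rw [abs_of_pos hh] at h1
  rw [← Complex.real_smul, ← h1]
  congr 1
  funext s
  congr 4
  field_simp

/-- the phase weights -/
noncomputable def wf (u₁ u₂ : ℕ → ℂ) (τ₁ τ₂ : ℝ) (n : ℕ) : ℂ := u₁ n * (starRingEnd ℂ) (u₂ n) * ee n (τ₁ - τ₂)

lemma wf_le {u₁ u₂ : ℕ → ℂ} (h₁ : ∀ n, ‖u₁ n‖ ≤ 1) (h₂ : ∀ n, ‖u₂ n‖ ≤ 1) (τ₁ τ₂ : ℝ) (n : ℕ) :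
    ‖wf u₁ u₂ τ₁ τ₂ n‖ ≤ 1 := by
  unfold wf
  rw [norm_mul, norm_mul, norm_ee, mul_one, RCLike.norm_conj]
  exact mul_le_one₀ (h₁ n) (norm_nonneg _) (h₂ n)

lemma bb_cov (f g : ℝ → ℝ) {h₁ h₂ : ℝ} (p1 : 0 < h₁) (p2 : 0 < h₂) (u₁ u₂ : ℕ → ℂ) (τ₁ τ₂ v₁ v₂ : ℝ) (N : ℕ) :
    ∑ p ∈ (Finset.Icc 1 N).filter Nat.Prime, (bb (fun x => f (x / h₁)) u₁ τ₁ v₁ p *
      (starRingEnd ℂ) (bb (fun x => g (x / h₂)) u₂ τ₂ v₂ p)).re =
    2 * (v₁ * v₂ * KV (wf u₁ u₂ τ₁ τ₂) f g h₁ h₂ N) := by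
  unfold KV
  rw [show ∀ x : ℝ, 2 * (v₁ * v₂ * (1 / (2 * Real.pi ^ 2) * x)) = (v₁ * v₂ * (1 / Real.pi ^ 2)) * x from
    fun x => by ring, Finset.mul_sum]
  refine Finset.sum_congr rfl fun p hp => ?_
  have hp0 : (0 : ℝ) < p := by exact_mod_cast (Finset.mem_filter.1 hp).2.pos
  have hs : Real.sqrt (p : ℝ) * Real.sqrt (p : ℝ) = p := Real.mul_self_sqrt hp0.le
  have hs0 : Real.sqrt (p : ℝ) ≠ 0 := (Real.sqrt_pos.2 hp0).ne'
  have e1 : bb (fun x => f (x / h₁)) u₁ τ₁ v₁ p * (starRingEnd ℂ) (bb (fun x => g (x / h₂)) u₂ τ₂ v₂ p) =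
      ((v₁ * v₂ * (1 / Real.pi ^ 2) * ((Real.log p) ^ 2 / p) : ℝ) : ℂ) *
        (((h₁ : ℂ) * FF f (h₁ * Real.log p)) * (starRingEnd ℂ) ((h₂ : ℂ) * FF g (h₂ * Real.log p)) *
          wf u₁ u₂ τ₁ τ₂ p) := by
    unfold bb ap wf
    rw [FF_scale f p1, FF_scale g p2, sub_eq_add_neg, ee_add]
    simp only [map_mul, map_neg, Complex.conj_ofReal, conj_ee]
    have e2 : ((v₁ * v₂ * (1 / Real.pi ^ 2) * ((Real.log p) ^ 2 / p) : ℝ) : ℂ) =
        (v₁ : ℂ) * (v₂ : ℂ) * ((1 / Real.pi * (Real.log p / Real.sqrt p) : ℝ) : ℂ) *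
          ((1 / Real.pi * (Real.log p / Real.sqrt p) : ℝ) : ℂ) := by
      rw [← Complex.ofReal_mul, ← Complex.ofReal_mul, ← Complex.ofReal_mul]
      congr 1
      have e3 : (Real.log p) ^ 2 / (p : ℝ) = Real.log p / Real.sqrt p * (Real.log p / Real.sqrt p) := by
        rw [div_mul_div_comm, hs, sq]
      rw [e3]
      ring
    rw [e2]
    ring
  rw [e1, Complex.re_ofReal_mul]
  ring

/-- the law of the parameters is concentrated on the box -/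
lemma ae_Bx {n : ℕ} {T : ℝ} {ν : Fin n → Measure ℝ} (hp : ∀ i, IsProbabilityMeasure (ν i))
    (hs : ∀ i, ν i (Icc T (2 * T))ᶜ = 0) : ∀ᵐ t ∂(Measure.pi ν), t ∈ Bx n T := by
  have h : ∀ i, ∀ᵐ t ∂(Measure.pi ν), t i ∈ Icc T (2 * T) := by
    intro i
    have h1 : ∀ᵐ s ∂(ν i), s ∈ Icc T (2 * T) := by
      rw [ae_iff]; exact hs i
    exact (measurePreserving_eval ν i).quasiMeasurePreserving.ae h1
  filter_upwards [ae_all_iff.2 h] with t ht
  exact fun i => ht i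

lemma meas_Bx (n : ℕ) (T : ℝ) : MeasurableSet (Bx n T) := by
  have : Bx n T = Set.pi univ (fun _ => Icc T (2 * T)) := by
    ext t
    constructor
    · exact fun h i _ => h i
    · exact fun h i => h i (mem_univ i)
  rw [this]
  exact MeasurableSet.univ_pi fun _ => measurableSet_Icc

lemma aesm_Bx {n : ℕ} {T : ℝ} {ν : Fin n → Measure ℝ} (hp : ∀ i, IsProbabilityMeasure (ν i))
    (hs : ∀ i, ν i (Icc T (2 * T))ᶜ = 0) {β : Type} [TopologicalSpace β] [TopologicalSpace.PseudoMetrizableSpace β]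
    [SecondCountableTopology β]
    {φ : (Fin n → ℝ) → β} (hφ : ContinuousOn φ (Bx n T)) : AEStronglyMeasurable φ (Measure.pi ν) := by
  have h1 : Measure.pi ν = (Measure.pi ν).restrict (Bx n T) :=
    (Measure.restrict_eq_self_of_ae_mem (ae_Bx hp hs)).symm
  rw [h1]
  exact hφ.aestronglyMeasurable (meas_Bx n T)

lemma mT_prob {T : ℝ} (hT : 0 < T) : IsProbabilityMeasure (mT T) := by
  constructor
  unfold mT
  rw [Measure.smul_apply, smul_eq_mul, Measure.restrict_apply_univ, Real.volume_Ioc, show 2 * T - T = T by ring]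
  exact ENNReal.inv_mul_cancel (by simpa using hT) ENNReal.ofReal_ne_top

lemma mT_supp (T : ℝ) : mT T (Icc T (2 * T))ᶜ = 0 := by
  unfold mT
  rw [Measure.smul_apply, Measure.restrict_apply' measurableSet_Ioc, smul_eq_mul]
  have : (Icc T (2 * T))ᶜ ∩ Ioc T (2 * T) = ∅ := by
    ext x
    simp only [mem_inter_iff, mem_compl_iff, mem_Icc, mem_Ioc, mem_empty_iff_false, iff_false]
    intro h
    exact h.1 ⟨h.2.1.le, h.2.2⟩
  rw [this, measure_empty, mul_zero]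

/-- number of primes in the sums -/
lemma log_floor_tendsto {κ : ℝ} (hκ : 0 < κ) {h : ℝ → ℝ} (hh : Tendsto (fun T => h T * Real.log T) atTop atTop) :
    Tendsto (fun T => h T * Real.log (⌊T ^ κ⌋₊ : ℝ)) atTop atTop := by
  have h1 : Tendsto (fun T => (κ / 2) * (h T * Real.log T)) atTop atTop := hh.const_mul_atTop (by positivity)
  refine tendsto_atTop_mono' _ ?_ h1
  filter_upwards [hh.eventually (eventually_gt_atTop 0), eventually_gt_atTop (1 : ℝ),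
    (tendsto_rpow_atTop hκ).eventually (eventually_ge_atTop 4)] with T a1 a2 a3
  have a4 := Real.log_pos a2
  have a5 : 0 < h T := by
    by_contra h4
    push Not at h4
    nlinarith
  have h2 := (floor_log a3).1
  rw [Real.log_rpow (by linarith)] at h2
  calc κ / 2 * (h T * Real.log T) = h T * (κ * Real.log T / 2) := by ring
    _ ≤ h T * Real.log (⌊T ^ κ⌋₊ : ℝ) := by gcongr

end ENGL

end Pool.Agent.H203.GE
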