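import Pool.Agent.H203.GE.Defs
import Pool.Graph.R_pool_sql_team_seeded_63374d34.N802.LX.DensChi

set_option autoImplicit false

/-! (LFX) the L-functions of the primitive Dirichlet characters. -/

open Complex Filter Topology Set MeasureTheory

namespace Pool.Agent.H203.GE

open Pool.Agent.H203.ME

namespace LFXL

/-- the logarithmic derivative -/
lemma ld_chi {q : ℕ} [NeZero q] (χ : DirichletCharacter ℂ q) (s : ℂ) (hs : 1 < s.re) :
    deriv (DirichletCharacter.LFunction χ) s / DirichletCharacter.LFunction χ s =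
      - ∑' n : ℕ, ((ArithmeticFunction.vonMangoldt n : ℂ) * χ n) * (n : ℂ) ^ (-s) := by
  have h1 := DirichletCharacter.LSeries_twist_vonMangoldt_eq χ hs
  rw [DirichletCharacter.deriv_LFunction_eq_deriv_LSeries χ hs,
    DirichletCharacter.LFunction_eq_LSeries χ hs]
  rw [neg_div, eq_neg_iff_add_eq_zero, add_comm, ← eq_neg_iff_add_eq_zero] at h1
  rw [h1]
  congr 1
  unfold LSeries
  refine tsum_congr fun n => ?_
  rw [H370.DL.term_eq_mul_cpow _ (by simp)]
  simp [mul_comm]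

lemma sq_le_exp (k : ℕ) : ((k : ℝ) + 1) ^ 2 ≤ 128 * Real.exp ((k + 1) / 8) := by
  have h3 := Real.quadratic_le_exp_of_nonneg (show (0 : ℝ) ≤ ((k : ℝ) + 1) / 8 by positivity)
  have h4 : (0 : ℝ) ≤ (k : ℝ) := Nat.cast_nonneg k
  nlinarith

/-- the density estimate -/
lemma dens_weight {F : ℂ → ℂ} (hF : H370.GoodL F) {A T0 : ℝ} (hA : 0 < A) (hT0 : 10 ≤ T0)
    (h : ∀ T : ℝ, T0 ≤ T → ∀ δ : ℝ, 0 ≤ δ → ∀ Z : Finset ℂ,
      (∀ z ∈ Z, 1 / 2 + δ ≤ z.re ∧ T ≤ z.im ∧ z.im ≤ 2 * T) →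
      ∑ z ∈ Z, (H370.mult F z : ℝ) ≤ A * (T * Real.log T * Real.exp (-(1 / 2 * δ * Real.log T)))) :
    ∃ C T0 : ℝ, 0 < C ∧ 10 ≤ T0 ∧ ∀ T : ℝ, T0 ≤ T → ∀ U1 U2 : ℝ, T ≤ U1 → U1 ≤ T + 1 →
    2 * T - 1 ≤ U2 → U2 ≤ 2 * T →
    ∑ s ∈ H370.Zf F U1 U2, (H370.mult F s : ℝ) *
      ((s.re - 1 / 2) ^ 2 * Real.exp (Real.log T * |s.re - 1 / 2| / 4)) ≤ C * T / Real.log T := by
  classical
  have hq : Real.exp (-(1 / 8 : ℝ)) < 1 := Real.exp_lt_one_iff.2 (by norm_num)
  refine ⟨256 * A * Real.exp (3 / 8) / (1 - Real.exp (-(1 / 8))), T0,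
    div_pos (by positivity) (by linarith), hT0, fun T hT U1 U2 hU1 _ _ hU2 => ?_⟩
  have hT10 : 10 ≤ T := hT0.trans hT
  have hTp : 0 < T := by linarith
  obtain ⟨L, hL⟩ : ∃ L : ℝ, L = Real.log T := ⟨_, rfl⟩
  have hL0 : 0 < L := by rw [hL]; exact Real.log_pos (by linarith)
  rw [← hL]
  obtain ⟨S, hS⟩ : ∃ S : Finset ℂ, S = H370.Zf F U1 U2 := ⟨_, rfl⟩
  rw [← hS]
  have hmem : ∀ s ∈ S, s ∈ H370.zset F T (2 * T) := fun s hs => by
    rw [hS, H370.mem_Zf hF (by linarith)] at hs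
    obtain ⟨g1, g2, g3, g4, g5⟩ := hs
    exact ⟨g1, g2, by linarith, by linarith, g5⟩
  obtain ⟨nn, hnn⟩ : ∃ nn : ℂ → ℕ, nn = fun s => ⌊|s.re - 1 / 2| * L⌋₊ := ⟨_, rfl⟩
  have hn1 : ∀ s, (nn s : ℝ) ≤ |s.re - 1 / 2| * L := fun s => by
    rw [hnn]; exact Nat.floor_le (by positivity)
  have hn2 : ∀ s, |s.re - 1 / 2| * L < (nn s : ℝ) + 1 := fun s => by
    rw [hnn]; exact Nat.lt_floor_add_one _
  have hmaps : ∀ s ∈ S, nn s ∈ Finset.range (⌊L⌋₊ + 1) := by
    intro s hs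
    obtain ⟨g1, g2, -, -, -⟩ := hmem s hs
    rw [Finset.mem_range, Nat.lt_succ_iff, hnn]
    refine Nat.floor_le_floor ?_
    have hx1 : |s.re - 1 / 2| ≤ 1 := by rw [abs_le]; constructor <;> linarith
    calc |s.re - 1 / 2| * L ≤ 1 * L := mul_le_mul_of_nonneg_right hx1 hL0.le
      _ = L := one_mul L
  have hcl : ∀ k : ℕ, ∑ s ∈ S.filter (fun s => nn s = k), (H370.mult F s : ℝ) ≤
      2 * A * (T * L) * Real.exp (-(1 / 2 * k)) := by
    intro k
    have h1 := Pool.Agent.N802.LX.dens_both hF hT0 h hT (δ := k / L) (by positivity)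
      (S.filter (fun s => nn s = k)) (fun z hz => by
        obtain ⟨c1, c2⟩ := Finset.mem_filter.mp hz
        refine ⟨hmem z c1, ?_⟩
        rw [div_le_iff₀ hL0]
        have := hn1 z
        rwa [c2] at this)
    refine h1.trans (le_of_eq ?_)
    rw [← hL]
    have e : 1 / 2 * ((k : ℝ) / L) * L = 1 / 2 * k := by field_simp
    rw [e]
    ring
  calc ∑ s ∈ S, (H370.mult F s : ℝ) * ((s.re - 1 / 2) ^ 2 * Real.exp (L * |s.re - 1 / 2| / 4))
      = ∑ k ∈ Finset.range (⌊L⌋₊ + 1), ∑ s ∈ S.filter (fun s => nn s = k),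
          (H370.mult F s : ℝ) * ((s.re - 1 / 2) ^ 2 * Real.exp (L * |s.re - 1 / 2| / 4)) :=
        (Finset.sum_fiberwise_of_maps_to hmaps _).symm
    _ ≤ ∑ k ∈ Finset.range (⌊L⌋₊ + 1), ∑ s ∈ S.filter (fun s => nn s = k),
          (H370.mult F s : ℝ) * (128 / L ^ 2 * Real.exp (3 / 8 * ((k : ℝ) + 1))) := by
        refine Finset.sum_le_sum fun k _ => Finset.sum_le_sum fun s hs => ?_
        obtain ⟨c1, c2⟩ := Finset.mem_filter.mp hs
        refine mul_le_mul_of_nonneg_left ?_ (Nat.cast_nonneg _)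
        have hx := hn2 s
        rw [c2] at hx
        have hx0 : 0 ≤ |s.re - 1 / 2| * L := by positivity
        have a1 : (s.re - 1 / 2) ^ 2 ≤ ((k : ℝ) + 1) ^ 2 / L ^ 2 := by
          rw [le_div_iff₀ (by positivity), ← sq_abs, ← mul_pow]
          exact pow_le_pow_left₀ hx0 hx.le 2
        have a2 : Real.exp (L * |s.re - 1 / 2| / 4) ≤ Real.exp (((k : ℝ) + 1) / 4) :=
          Real.exp_le_exp.2 (by rw [mul_comm]; linarith)
        calc (s.re - 1 / 2) ^ 2 * Real.exp (L * |s.re - 1 / 2| / 4)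
            ≤ ((k : ℝ) + 1) ^ 2 / L ^ 2 * Real.exp (((k : ℝ) + 1) / 4) :=
              mul_le_mul a1 a2 (Real.exp_pos _).le (by positivity)
          _ ≤ (128 * Real.exp ((k + 1) / 8)) / L ^ 2 * Real.exp (((k : ℝ) + 1) / 4) := by
              refine mul_le_mul_of_nonneg_right ?_ (Real.exp_pos _).le
              exact div_le_div_of_nonneg_right (sq_le_exp k) (by positivity)
          _ = 128 / L ^ 2 * (Real.exp ((k + 1) / 8) * Real.exp (((k : ℝ) + 1) / 4)) := by ring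
          _ = 128 / L ^ 2 * Real.exp (3 / 8 * ((k : ℝ) + 1)) := by
              rw [← Real.exp_add]
              congr 2
              ring
    _ ≤ ∑ k ∈ Finset.range (⌊L⌋₊ + 1),
          256 * A * T / L * Real.exp (3 / 8) * Real.exp (-(1 / 8)) ^ k := by
        refine Finset.sum_le_sum fun k _ => ?_
        rw [← Finset.sum_mul]
        calc (∑ s ∈ S.filter (fun s => nn s = k), (H370.mult F s : ℝ)) *
              (128 / L ^ 2 * Real.exp (3 / 8 * ((k : ℝ) + 1))) ≤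
            (2 * A * (T * L) * Real.exp (-(1 / 2 * k))) *
              (128 / L ^ 2 * Real.exp (3 / 8 * ((k : ℝ) + 1))) :=
              mul_le_mul_of_nonneg_right (hcl k) (by positivity)
          _ = 256 * A * T / L * (Real.exp (-(1 / 2 * k)) * Real.exp (3 / 8 * ((k : ℝ) + 1))) := by
              field_simp
              ring
          _ = 256 * A * T / L * Real.exp (3 / 8) * Real.exp (-(1 / 8)) ^ k := by
              rw [mul_assoc (256 * A * T / L), ← Real.exp_add, ← Real.exp_nat_mul,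
                ← Real.exp_add]
              congr 2
              ring
    _ = 256 * A * T / L * Real.exp (3 / 8) *
          ∑ k ∈ Finset.range (⌊L⌋₊ + 1), Real.exp (-(1 / 8)) ^ k := by
        rw [Finset.mul_sum]
    _ ≤ 256 * A * T / L * Real.exp (3 / 8) * (1 - Real.exp (-(1 / 8)))⁻¹ := by
        apply mul_le_mul_of_nonneg_left _ (by positivity)
        have h5 := (summable_geometric_of_lt_one (Real.exp_pos _).le hq).sum_le_tsum
          (Finset.range (⌊L⌋₊ + 1)) (fun i _ => pow_nonneg (Real.exp_pos _).le i)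
        rwa [tsum_geometric_of_lt_one (Real.exp_pos _).le hq] at h5
    _ = _ := by
        rw [div_eq_mul_inv _ (1 - Real.exp (-(1 / 8)))]
        ring

/-- the density estimate for zeta -/
lemma dens_zeta : ∃ C T0 : ℝ, 0 < C ∧ 10 ≤ T0 ∧ ∀ T : ℝ, T0 ≤ T → ∀ U1 U2 : ℝ, T ≤ U1 →
    U1 ≤ T + 1 → 2 * T - 1 ≤ U2 → U2 ≤ 2 * T →
    ∑ s ∈ H370.Zf riemannZeta U1 U2, (H370.mult riemannZeta s : ℝ) *
      ((s.re - 1 / 2) ^ 2 * Real.exp (Real.log T * |s.re - 1 / 2| / 4)) ≤ C * T / Real.log T := by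
  obtain ⟨C, T0, hC, hT0, h⟩ := t_DEN
  refine ⟨C, T0, hC, hT0, fun T hT U1 U2 h1 h2 h3 h4 => le_trans ?_ (h T hT U1 U2 h1 h2 h3 h4)⟩
  refine Finset.sum_le_sum fun s _ => ?_
  have hL : 0 ≤ Real.log T := Real.log_nonneg (by linarith)
  have h5 : Real.exp (Real.log T * |s.re - 1 / 2| / 4) ≤
      Real.exp (Real.log T * |s.re - 1 / 2| / 2) := by
    apply Real.exp_le_exp.2
    have : 0 ≤ Real.log T * |s.re - 1 / 2| := by positivity
    linarith
  unfold mz
  refine mul_le_mul_of_nonneg_left ?_ (Nat.cast_nonneg _)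
  exact mul_le_mul_of_nonneg_left h5 (sq_nonneg _)

end LFXL

open LFXL

theorem t_LFX : S_LFX := by
  intro q _ χ hχ
  refine ⟨H370.good_dirichlet χ hχ, fun n => DirichletCharacter.norm_le_one χ _,
    fun s hs _ => ld_chi χ s hs, ?_⟩
  by_cases hq : 1 < q
  · obtain ⟨A, T0, hA, hT0, h⟩ := Pool.Agent.N802.LX.dens_right hq hχ
    exact dens_weight (H370.good_dirichlet χ hχ) hA hT0 h
  · have hq1 : q = 1 := by
      have := NeZero.pos q
      omega
    subst hq1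
    rw [DirichletCharacter.LFunction_modOne_eq]
    exact dens_zeta

end Pool.Agent.H203.GE
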