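import Pool.Agent.H203.GE.Defs
import Pool.Graph.R_seed8.H307R2.LU

set_option autoImplicit false

/-! Bounded Mertens sums for two different primitive characters with a shift. -/

open Complex Filter Topology Set MeasureTheory

namespace Pool.Agent.H203.GE

open Pool.Agent.H203.ME

namespace MRTL

theorem ee_norm (n : ℕ) (t : ℝ) : ‖ee n t‖ = 1 := by
  unfold ee
  have : -(((t * Real.log n : ℝ) : ℂ) * I) = ((-(t * Real.log n) : ℝ) : ℂ) * I := by
    push_cast; ring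
  rw [this]
  exact Complex.norm_exp_ofReal_mul_I _

theorem ee_mul (a b : ℕ) (ha : a ≠ 0) (hb : b ≠ 0) (t : ℝ) : ee (a * b) t = ee a t * ee b t := by
  have h : Real.log ((a * b : ℕ) : ℝ) = Real.log a + Real.log b := by
    push_cast
    exact Real.log_mul (by exact_mod_cast ha) (by exact_mod_cast hb)
  unfold ee
  rw [← Complex.exp_add, h]
  congr 1
  push_cast
  ring

theorem ee_cpow (n : ℕ) (hn : n ≠ 0) (t : ℝ) : ee n t / n = (n : ℂ) ^ (-(1 + (t : ℂ) * I)) := by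
  have hnc : (n : ℂ) ≠ 0 := by exact_mod_cast hn
  have h1 : -(1 + (t : ℂ) * I) = -((t : ℂ) * I) + (-1) := by ring
  rw [h1, Complex.cpow_add _ _ hnc, Complex.cpow_neg_one, Complex.cpow_def_of_ne_zero hnc]
  unfold ee
  rw [← Complex.natCast_log]
  rw [div_eq_mul_inv]
  congr 2
  push_cast
  ring

/-- the phase as a function of the logarithm -/
noncomputable def w (τ x : ℝ) : ℂ := cexp (-(((τ * x : ℝ) : ℂ) * I))

theorem w_norm (τ x : ℝ) : ‖w τ x‖ = 1 := by
  unfold w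
  have : -(((τ * x : ℝ) : ℂ) * I) = ((-(τ * x) : ℝ) : ℂ) * I := by
    push_cast; ring
  rw [this]
  exact Complex.norm_exp_ofReal_mul_I _

theorem w_add (τ x y : ℝ) : w τ (x + y) = w τ x * w τ y := by
  unfold w
  rw [← Complex.exp_add]
  congr 1
  push_cast
  ring

theorem w_deriv (τ x : ℝ) : HasDerivAt (w τ) (-((τ : ℂ) * I) * w τ x) x := by
  unfold w
  have h1 : HasDerivAt (fun x : ℝ => -(((τ * x : ℝ) : ℂ) * I)) (-((τ : ℂ) * I)) x := by
    have h2 : HasDerivAt (fun x : ℝ => ((τ * x : ℝ) : ℂ)) ((τ * 1 : ℝ) : ℂ) x :=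
      ((hasDerivAt_id x).const_mul τ).ofReal_comp
    have h3 := (h2.mul_const I).neg
    rw [mul_one] at h3
    exact h3
  have h4 := h1.cexp
  refine h4.congr_deriv ?_
  ring

theorem w_sub (τ x y : ℝ) : ‖w τ y - w τ x‖ ≤ |τ| * |y - x| := by
  have h := Convex.norm_image_sub_le_of_norm_hasDerivWithin_le (f := w τ)
    (f' := fun x => -((τ : ℂ) * I) * w τ x) (C := |τ|) (s := Set.univ)
    (fun x _ => (w_deriv τ x).hasDerivWithinAt) (fun x _ => by
      rw [norm_mul, w_norm, mul_one, norm_neg, norm_mul, Complex.norm_I, mul_one,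
        Complex.norm_real, Real.norm_eq_abs]) convex_univ (Set.mem_univ x) (Set.mem_univ y)
  rwa [Real.norm_eq_abs] at h

/-- the integral of the phase -/
theorem w_int (τ : ℝ) (hτ : τ ≠ 0) (x y : ℝ) (hxy : x ≤ y) :
    ‖w τ x * ((y - x : ℝ) : ℂ) - (w τ x - w τ y) / ((τ : ℂ) * I)‖ ≤ |τ| * (y - x) ^ 2 := by
  have hτI : (τ : ℂ) * I ≠ 0 := mul_ne_zero (by exact_mod_cast hτ) I_ne_zero
  have hτc : (τ : ℂ) ≠ 0 := by exact_mod_cast hτ
  have h := Convex.norm_image_sub_le_of_norm_hasDerivWithin_le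
    (f := fun u : ℝ => w τ x * ((u : ℝ) : ℂ) + w τ u / ((τ : ℂ) * I))
    (f' := fun u => w τ x * 1 + (-((τ : ℂ) * I) * w τ u) / ((τ : ℂ) * I))
    (C := |τ| * (y - x)) (s := Set.Icc x y)
    (fun u _ => ((((hasDerivAt_id u).ofReal_comp).const_mul (w τ x)).add
      ((w_deriv τ u).div_const ((τ : ℂ) * I))).hasDerivWithinAt)
    (fun u hu => by
      have e1 : w τ x * 1 + (-((τ : ℂ) * I) * w τ u) / ((τ : ℂ) * I) = w τ x - w τ u := by
        rw [neg_mul, neg_div, mul_div_cancel_left₀ _ hτI]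
        ring
      rw [e1]
      refine (w_sub τ u x).trans ?_
      refine mul_le_mul_of_nonneg_left ?_ (abs_nonneg _)
      rw [abs_le]
      constructor <;> linarith [hu.1, hu.2]) (convex_Icc x y) (Set.left_mem_Icc.2 hxy)
    (Set.right_mem_Icc.2 hxy)
  have e2 : w τ x * ((y - x : ℝ) : ℂ) - (w τ x - w τ y) / ((τ : ℂ) * I) =
      (w τ x * ((y : ℝ) : ℂ) + w τ y / ((τ : ℂ) * I)) -
        (w τ x * ((x : ℝ) : ℂ) + w τ x / ((τ : ℂ) * I)) := by
    push_cast
    field_simp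
    ring
  rw [e2]
  refine h.trans (le_of_eq ?_)
  rw [Real.norm_eq_abs, abs_of_nonneg (sub_nonneg.2 hxy)]
  ring

theorem ee_w (n : ℕ) (t : ℝ) : ee n t = w t (Real.log n) := rfl

theorem log_step (k : ℕ) (hk : 1 ≤ k) :
    0 ≤ Real.log ((k + 1 : ℕ) : ℝ) - Real.log k ∧
    Real.log ((k + 1 : ℕ) : ℝ) - Real.log k ≤ 1 / k := by
  have hk0 : (0 : ℝ) < k := by exact_mod_cast hk
  have h1 : Real.log ((k + 1 : ℕ) : ℝ) - Real.log k = Real.log ((k + 1 : ℝ) / k) := by
    push_cast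
    rw [Real.log_div (by positivity) hk0.ne']
  rw [h1]
  constructor
  · apply Real.log_nonneg
    rw [le_div_iff₀ hk0]
    linarith
  · have h2 := Real.log_le_sub_one_of_pos (show 0 < ((k + 1 : ℝ) / k) by positivity)
    have h3 : (k + 1 : ℝ) / k - 1 = 1 / k := by field_simp; ring
    linarith

/-- `log (N / d)` and the logarithm of the floor -/
theorem log_floor (N d : ℕ) (hd : 1 ≤ d) (hdN : d ≤ N) :
    |(Real.log N - Real.log d) - Real.log ((N / d : ℕ) : ℝ)| ≤ 2 * d / N := by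
  have hd0 : (0 : ℝ) < d := by exact_mod_cast hd
  have hN0 : (0 : ℝ) < N := by exact_mod_cast (hd.trans hdN)
  have hM1 : 1 ≤ N / d := (Nat.one_le_div_iff (by omega)).2 hdN
  have hM0 : (0 : ℝ) < ((N / d : ℕ) : ℝ) := by exact_mod_cast hM1
  have h1 : ((N / d : ℕ) : ℝ) ≤ N / d := Nat.cast_div_le
  have h2 : (N : ℝ) / d < ((N / d : ℕ) : ℝ) + 1 := by
    rw [← Nat.floor_div_eq_div (K := ℝ)]
    exact Nat.lt_floor_add_one _
  have h3 : Real.log N - Real.log d = Real.log (N / d) := by rw [Real.log_div hN0.ne' hd0.ne']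
  rw [h3]
  have h4 : Real.log (N / d : ℝ) - Real.log ((N / d : ℕ) : ℝ) =
      Real.log ((N / d : ℝ) / ((N / d : ℕ) : ℝ)) := by
    rw [Real.log_div (by positivity) hM0.ne']
  have h5 : 0 ≤ Real.log (N / d : ℝ) - Real.log ((N / d : ℕ) : ℝ) := by
    have := Real.log_le_log hM0 h1
    linarith
  rw [abs_of_nonneg h5, h4]
  have h6 := Real.log_le_sub_one_of_pos
    (show 0 < ((N / d : ℝ) / ((N / d : ℕ) : ℝ)) by positivity)
  have h7 : (N : ℝ) / d ≤ 2 * ((N / d : ℕ) : ℝ) := by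
    have : (1 : ℝ) ≤ ((N / d : ℕ) : ℝ) := by exact_mod_cast hM1
    linarith
  have h8 : ((N / d : ℝ) / ((N / d : ℕ) : ℝ)) - 1 ≤ 1 / ((N / d : ℕ) : ℝ) := by
    rw [div_sub_one hM0.ne']
    exact div_le_div_of_nonneg_right (by linarith) hM0.le
  have h9 : 1 / ((N / d : ℕ) : ℝ) ≤ 2 * d / N := by
    rw [div_le_div_iff₀ hM0 hN0]
    rw [div_le_iff₀ hd0] at h7
    linarith
  linarith

theorem inv_floor (N d : ℕ) (hd : 1 ≤ d) (hdN : d ≤ N) :
    1 / ((N / d : ℕ) : ℝ) ≤ 2 * d / N := by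
  have hd0 : (0 : ℝ) < d := by exact_mod_cast hd
  have hN0 : (0 : ℝ) < N := by exact_mod_cast (hd.trans hdN)
  have hM1 : 1 ≤ N / d := (Nat.one_le_div_iff (by omega)).2 hdN
  have hM0 : (0 : ℝ) < ((N / d : ℕ) : ℝ) := by exact_mod_cast hM1
  have h2 : (N : ℝ) / d < ((N / d : ℕ) : ℝ) + 1 := by
    rw [← Nat.floor_div_eq_div (K := ℝ)]
    exact Nat.lt_floor_add_one _
  have h7 : (N : ℝ) / d ≤ 2 * ((N / d : ℕ) : ℝ) := by
    have : (1 : ℝ) ≤ ((N / d : ℕ) : ℝ) := by exact_mod_cast hM1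
    linarith
  rw [div_le_div_iff₀ hM0 hN0]
  rw [div_le_iff₀ hd0] at h7
  linarith

theorem cheb (N : ℕ) : ∑ d ∈ Finset.Icc 1 N, ArithmeticFunction.vonMangoldt d ≤ 6 * N := by
  have h := Chebyshev.psi_le_const_mul_self (x := (N : ℝ)) (Nat.cast_nonneg N)
  rw [Chebyshev.psi, Nat.floor_natCast] at h
  have h3 : Real.log 4 ≤ 2 := by
    have : Real.log 4 = 2 * Real.log 2 := by
      rw [show (4 : ℝ) = 2 ^ 2 by norm_num, Real.log_pow]; norm_num
    have := Real.log_two_lt_d9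
    linarith
  have h4 : (Real.log 4 + 4) * N ≤ 6 * N :=
    mul_le_mul_of_nonneg_right (by linarith) (Nat.cast_nonneg N)
  exact le_trans (le_of_eq rfl) (h.trans h4)

/-- weights `d / N` against `Λ(d) / d` -/
theorem cheb_div (N : ℕ) (hN : 1 ≤ N) (e : ℕ → ℂ) (K : ℝ) (hK : 0 ≤ K) (f : ℕ → ℂ)
    (hf : ∀ n, ‖f n‖ ≤ 1) (he : ∀ d ∈ Finset.Icc 1 N, ‖e d‖ ≤ K * (2 * d / N)) :
    ‖∑ d ∈ Finset.Icc 1 N, ((ArithmeticFunction.vonMangoldt d / d : ℝ) : ℂ) * f d * e d‖ ≤
      12 * K := by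
  have hN0 : (0 : ℝ) < N := by exact_mod_cast hN
  refine (norm_sum_le _ _).trans ?_
  have h1 : ∀ d ∈ Finset.Icc 1 N,
      ‖((ArithmeticFunction.vonMangoldt d / d : ℝ) : ℂ) * f d * e d‖ ≤
        (2 * K / N) * ArithmeticFunction.vonMangoldt d := by
    intro d hd
    have hd0 : (0 : ℝ) < d := by exact_mod_cast (Finset.mem_Icc.1 hd).1
    have hΛ : 0 ≤ ArithmeticFunction.vonMangoldt d := ArithmeticFunction.vonMangoldt_nonneg
    rw [norm_mul, norm_mul, Complex.norm_real, Real.norm_eq_abs, abs_of_nonneg (by positivity)]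
    calc ArithmeticFunction.vonMangoldt d / d * ‖f d‖ * ‖e d‖
        ≤ ArithmeticFunction.vonMangoldt d / d * 1 * (K * (2 * d / N)) := by
          gcongr
          · exact hf d
          · exact he d hd
      _ = _ := by field_simp
  refine (Finset.sum_le_sum h1).trans ?_
  rw [← Finset.mul_sum]
  calc 2 * K / N * ∑ d ∈ Finset.Icc 1 N, ArithmeticFunction.vonMangoldt d ≤
        2 * K / N * (6 * N) := mul_le_mul_of_nonneg_left (cheb N) (by positivity)
    _ = 12 * K := by field_simp; ring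

/-- summation by parts -/
theorem parts (S : ℕ → ℂ) (a : ℕ → ℂ) (g : ℕ → ℂ) (hS : ∀ n, S n = ∑ m ∈ Finset.Icc 1 n, a m)
    (N : ℕ) (hN : 1 ≤ N) : ∑ n ∈ Finset.Icc 1 N, a n * g n =
      S N * g N - ∑ k ∈ Finset.Ico 1 N, S k * (g (k + 1) - g k) := by
  induction N, hN using Nat.le_induction with
  | base => simp [hS]
  | succ n hn ih =>
    rw [Finset.sum_Icc_succ_top (by omega), ih, Finset.sum_Ico_succ_top hn]
    have h1 : S (n + 1) = S n + a (n + 1) := by
      rw [hS, hS, Finset.sum_Icc_succ_top (by omega)]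
    rw [h1]
    ring

theorem sq_sum (N : ℕ) : ∑ k ∈ Finset.Ico 1 N, (1 : ℝ) / k ^ 2 ≤ 2 := by
  have h := sum_Ioo_inv_sq_le (α := ℝ) 0 N
  have h1 : Finset.Ioo 0 N = Finset.Ico 1 N := by
    ext x; simp [Finset.mem_Ioo, Finset.mem_Ico, Nat.succ_le_iff]
  rw [h1] at h
  simp only [Nat.cast_zero, zero_add, div_one] at h
  simpa using h

/-- `∑ f(n)/n log n = ∑ Λ(d) f(d)/d S(N/d)` -/
theorem conv (f : ℕ → ℂ) (hf : ∀ a b : ℕ, a ≠ 0 → b ≠ 0 → f (a * b) = f a * f b) (N : ℕ) :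
    ∑ n ∈ Finset.Icc 1 N, f n / n * (Real.log n : ℂ) =
      ∑ d ∈ Finset.Icc 1 N, ((ArithmeticFunction.vonMangoldt d / d : ℝ) : ℂ) * f d *
        ∑ m ∈ Finset.Icc 1 (N / d), f m / m := by
  obtain ⟨F, hF⟩ : ∃ F : ArithmeticFunction ℂ, ∀ n, F n =
      ((ArithmeticFunction.vonMangoldt n / n : ℝ) : ℂ) * f n :=
    ⟨⟨fun n => ((ArithmeticFunction.vonMangoldt n / n : ℝ) : ℂ) * f n, by simp⟩, fun _ => rfl⟩
  obtain ⟨G, hG⟩ : ∃ G : ArithmeticFunction ℂ, ∀ n, G n = f n / n :=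
    ⟨⟨fun n => f n / n, by simp⟩, fun _ => rfl⟩
  have h := ArithmeticFunction.sum_Ioc_mul_eq_sum_sum F G N
  have h1 : ∀ n ∈ Finset.Ioc 0 N, (F * G) n = f n / n * (Real.log n : ℂ) := by
    intro n hn
    have hn0 : n ≠ 0 := by have := (Finset.mem_Ioc.1 hn).1; omega
    rw [ArithmeticFunction.mul_apply]
    have h2 : ∀ x ∈ n.divisorsAntidiagonal, F x.1 * G x.2 =
        f n / n * ((ArithmeticFunction.vonMangoldt x.1 : ℝ) : ℂ) := by
      intro x hx
      have hx1 := (Nat.mem_divisorsAntidiagonal.1 hx).1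
      have ha : x.1 ≠ 0 := by rintro h; rw [h, zero_mul] at hx1; exact hn0 hx1.symm
      have hb : x.2 ≠ 0 := by rintro h; rw [h, mul_zero] at hx1; exact hn0 hx1.symm
      rw [hF, hG, ← hx1, hf _ _ ha hb]
      have hac : (x.1 : ℂ) ≠ 0 := by exact_mod_cast ha
      have hbc : (x.2 : ℂ) ≠ 0 := by exact_mod_cast hb
      push_cast
      field_simp
    rw [Finset.sum_congr rfl h2, ← Finset.mul_sum]
    congr 1
    rw [← Complex.ofReal_sum]
    congr 1
    rw [← ArithmeticFunction.vonMangoldt_sum, Nat.sum_divisorsAntidiagonal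
      (fun d _ => ArithmeticFunction.vonMangoldt d)]
  rw [Finset.sum_congr rfl h1] at h
  have h3 : Finset.Ioc 0 N = Finset.Icc 1 N := rfl
  rw [h3] at h
  rw [h]
  refine Finset.sum_congr rfl fun d _ => ?_
  rw [hF]
  congr 1
  have h4 : Finset.Ioc 0 (N / d) = Finset.Icc 1 (N / d) := rfl
  rw [h4]
  exact Finset.sum_congr rfl fun m _ => hG m

/-- the main lemma -/
theorem main (f : ℕ → ℂ) (hf : ∀ a b : ℕ, a ≠ 0 → b ≠ 0 → f (a * b) = f a * f b)
    (hf1 : ∀ n, ‖f n‖ ≤ 1) (L ρ : ℂ) (hL : L ≠ 0) (τ K : ℝ) (hK : 0 ≤ K)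
    (hρ : ρ = 0 ∨ (τ ≠ 0 ∧ ρ = 1 / ((τ : ℂ) * I) ∧ ∀ n, f n = ee n τ))
    (hS : ∀ M : ℕ, 1 ≤ M → ‖∑ m ∈ Finset.Icc 1 M, f m / m - (L - ρ * w τ (Real.log M))‖ ≤ K / M) :
    ∃ C : ℝ, ∀ N : ℕ,
      ‖∑ n ∈ Finset.Icc 1 N, ((ArithmeticFunction.vonMangoldt n / n : ℝ) : ℂ) * f n‖ ≤ C := by
  obtain ⟨S, hSdef⟩ : ∃ S : ℕ → ℂ, S = fun n => ∑ m ∈ Finset.Icc 1 n, f m / m := ⟨_, rfl⟩
  have hSn : ∀ n, S n = ∑ m ∈ Finset.Icc 1 n, f m / m := fun n => by rw [hSdef]
  obtain ⟨E, hEdef⟩ : ∃ E : ℕ → ℂ, E = fun n => S n - (L - ρ * w τ (Real.log n)) := ⟨_, rfl⟩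
  have hE : ∀ M : ℕ, 1 ≤ M → ‖E M‖ ≤ K / M := by
    intro M hM
    rw [hEdef]
    simp only [hSn]
    exact hS M hM
  have hSE : ∀ n, S n = L - ρ * w τ (Real.log n) + E n := by
    intro n; rw [hEdef]; ring
  -- the bound for the sum of the steps of `R`
  have hb1 : ∃ C1 : ℝ, ∀ N : ℕ, 1 ≤ N → ‖∑ k ∈ Finset.Ico 1 N, ρ * w τ (Real.log k) *
      ((Real.log ((k + 1 : ℕ) : ℝ) : ℂ) - (Real.log (k : ℝ) : ℂ))‖ ≤ C1 := by
    rcases hρ with h0 | ⟨hτ, hρ', -⟩
    · refine ⟨0, fun N _ => ?_⟩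
      rw [h0]
      simp
    · refine ⟨‖ρ‖ * (2 * ‖ρ‖ + |τ| * 2), fun N hN => ?_⟩
      have e1 : ∑ k ∈ Finset.Ico 1 N, ρ * w τ (Real.log k) *
          ((Real.log ((k + 1 : ℕ) : ℝ) : ℂ) - (Real.log (k : ℝ) : ℂ)) =
          ρ * (∑ k ∈ Finset.Ico 1 N, (w τ (Real.log k) *
            (((Real.log ((k + 1 : ℕ) : ℝ) - Real.log k : ℝ) : ℂ)) -
            (w τ (Real.log k) - w τ (Real.log ((k + 1 : ℕ) : ℝ))) / ((τ : ℂ) * I)) +
            (w τ (Real.log 1) - w τ (Real.log N)) / ((τ : ℂ) * I)) := by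
        have e2 : (w τ (Real.log 1) - w τ (Real.log N)) / ((τ : ℂ) * I) =
            ∑ k ∈ Finset.Ico 1 N, (w τ (Real.log k) - w τ (Real.log ((k + 1 : ℕ) : ℝ))) /
              ((τ : ℂ) * I) := by
          induction N, hN using Nat.le_induction with
          | base => simp
          | succ n hn ih =>
            rw [Finset.sum_Ico_succ_top hn, ← ih]
            ring
        rw [e2, ← Finset.sum_add_distrib, Finset.mul_sum]
        refine Finset.sum_congr rfl fun k _ => ?_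
        push_cast
        ring
      rw [e1, norm_mul]
      refine mul_le_mul_of_nonneg_left ?_ (norm_nonneg _)
      refine (norm_add_le _ _).trans ?_
      have e3 : ‖(w τ (Real.log 1) - w τ (Real.log N)) / ((τ : ℂ) * I)‖ ≤ 2 * ‖ρ‖ := by
        rw [div_eq_mul_one_div, ← hρ', norm_mul]
        refine mul_le_mul_of_nonneg_right ?_ (norm_nonneg _)
        refine (norm_sub_le _ _).trans ?_
        rw [w_norm, w_norm]
        norm_num
      have e4 : ‖∑ k ∈ Finset.Ico 1 N, (w τ (Real.log k) *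
            (((Real.log ((k + 1 : ℕ) : ℝ) - Real.log k : ℝ) : ℂ)) -
            (w τ (Real.log k) - w τ (Real.log ((k + 1 : ℕ) : ℝ))) / ((τ : ℂ) * I))‖ ≤ |τ| * 2 := by
        refine (norm_sum_le _ _).trans ?_
        have e5 : ∀ k ∈ Finset.Ico 1 N, ‖w τ (Real.log k) *
            (((Real.log ((k + 1 : ℕ) : ℝ) - Real.log k : ℝ) : ℂ)) -
            (w τ (Real.log k) - w τ (Real.log ((k + 1 : ℕ) : ℝ))) / ((τ : ℂ) * I)‖ ≤
              |τ| * (1 / (k : ℝ) ^ 2) := by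
          intro k hk
          have hk1 := (Finset.mem_Ico.1 hk).1
          obtain ⟨l1, l2⟩ := log_step k hk1
          refine (w_int τ hτ _ _ (by linarith)).trans ?_
          refine mul_le_mul_of_nonneg_left ?_ (abs_nonneg _)
          calc (Real.log ((k + 1 : ℕ) : ℝ) - Real.log k) ^ 2 ≤ (1 / (k : ℝ)) ^ 2 :=
                pow_le_pow_left₀ l1 l2 2
            _ = _ := by ring
        refine (Finset.sum_le_sum e5).trans ?_
        rw [← Finset.mul_sum]
        exact mul_le_mul_of_nonneg_left (sq_sum N) (abs_nonneg _)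
      linarith
  -- the bound for the main part of the convolution
  have hb2 : ∃ C2 : ℝ, ∀ N : ℕ, 1 ≤ N → ‖∑ d ∈ Finset.Icc 1 N,
      ((ArithmeticFunction.vonMangoldt d / d : ℝ) : ℂ) * f d * (ρ * w τ (Real.log ((N / d : ℕ) : ℝ))) -
        ρ * w τ (Real.log N) * (Real.log N : ℂ)‖ ≤ C2 := by
    rcases hρ with h0 | ⟨hτ, hρ', hfe⟩
    · refine ⟨0, fun N _ => ?_⟩
      rw [h0]
      simp
    · refine ⟨12 * (‖ρ‖ * |τ|) + ‖ρ‖ * 6, fun N hN => ?_⟩
      have e1 : ∑ d ∈ Finset.Icc 1 N,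
          ((ArithmeticFunction.vonMangoldt d / d : ℝ) : ℂ) * f d *
            (ρ * w τ (Real.log ((N / d : ℕ) : ℝ))) - ρ * w τ (Real.log N) * (Real.log N : ℂ) =
          ∑ d ∈ Finset.Icc 1 N, ((ArithmeticFunction.vonMangoldt d / d : ℝ) : ℂ) * f d *
            (ρ * (w τ (Real.log ((N / d : ℕ) : ℝ)) - w τ (Real.log N - Real.log d))) +
          ρ * w τ (Real.log N) * ((∑ d ∈ Finset.Icc 1 N, ArithmeticFunction.vonMangoldt d / d -
            Real.log N : ℝ) : ℂ) := by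
        have e2 : ∑ d ∈ Finset.Icc 1 N, ((ArithmeticFunction.vonMangoldt d / d : ℝ) : ℂ) * f d *
            (ρ * w τ (Real.log ((N / d : ℕ) : ℝ))) =
            ∑ d ∈ Finset.Icc 1 N, ((ArithmeticFunction.vonMangoldt d / d : ℝ) : ℂ) * f d *
            (ρ * (w τ (Real.log ((N / d : ℕ) : ℝ)) - w τ (Real.log N - Real.log d))) +
            ρ * w τ (Real.log N) *
              ∑ d ∈ Finset.Icc 1 N, ((ArithmeticFunction.vonMangoldt d / d : ℝ) : ℂ) := by
          rw [Finset.mul_sum, ← Finset.sum_add_distrib]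
          refine Finset.sum_congr rfl fun d _ => ?_
          have e3 : w τ (Real.log N) = f d * w τ (Real.log N - Real.log d) := by
            rw [hfe, ee_w, ← w_add]
            congr 1
            ring
          rw [e3]
          ring
        rw [e2]
        push_cast
        ring
      rw [e1]
      refine (norm_add_le _ _).trans (add_le_add ?_ ?_)
      · refine cheb_div N hN _ (‖ρ‖ * |τ|) (by positivity) f hf1 ?_
        intro d hd
        obtain ⟨d1, d2⟩ := Finset.mem_Icc.1 hd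
        rw [norm_mul, mul_assoc]
        refine mul_le_mul_of_nonneg_left ?_ (norm_nonneg _)
        refine (w_sub τ _ _).trans ?_
        refine mul_le_mul_of_nonneg_left ?_ (abs_nonneg _)
        rw [abs_sub_comm]
        exact log_floor N d d1 d2
      · rw [norm_mul, norm_mul, w_norm, mul_one, Complex.norm_real, Real.norm_eq_abs]
        refine mul_le_mul_of_nonneg_left ?_ (norm_nonneg _)
        have m1 := H370.nt_mertens_lower N hN
        have m2 := H370.nt_mertens_upper N hN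
        rw [abs_le]
        constructor <;> linarith
  obtain ⟨C1, hb1⟩ := hb1
  obtain ⟨C2, hb2⟩ := hb2
  refine ⟨max 0 ((C1 + C2 + K + 2 * K + 12 * K) / ‖L‖), fun N => ?_⟩
  rcases Nat.eq_zero_or_pos N with rfl | hN
  · simp
  refine le_trans ?_ (le_max_right _ _)
  have hLn : 0 < ‖L‖ := norm_pos_iff.2 hL
  rw [le_div_iff₀ hLn, mul_comm, ← norm_mul]
  have hN0 : (0 : ℝ) < N := by exact_mod_cast hN
  -- partial summation
  have hU := parts S (fun m => f m / m) (fun n => (Real.log n : ℂ)) hSn N hN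
  have hV := conv f hf N
  rw [hU] at hV
  have key : L * ∑ n ∈ Finset.Icc 1 N, ((ArithmeticFunction.vonMangoldt n / n : ℝ) : ℂ) * f n =
      (∑ k ∈ Finset.Ico 1 N, ρ * w τ (Real.log k) *
        ((Real.log ((k + 1 : ℕ) : ℝ) : ℂ) - (Real.log (k : ℝ) : ℂ))) +
      (∑ d ∈ Finset.Icc 1 N,
        ((ArithmeticFunction.vonMangoldt d / d : ℝ) : ℂ) * f d *
          (ρ * w τ (Real.log ((N / d : ℕ) : ℝ))) - ρ * w τ (Real.log N) * (Real.log N : ℂ)) +
      E N * (Real.log N : ℂ) -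
      (∑ k ∈ Finset.Ico 1 N, E k * ((Real.log ((k + 1 : ℕ) : ℝ) : ℂ) - (Real.log (k : ℝ) : ℂ))) -
      ∑ d ∈ Finset.Icc 1 N, ((ArithmeticFunction.vonMangoldt d / d : ℝ) : ℂ) * f d * E (N / d) := by
    have t1 : ∑ k ∈ Finset.Ico 1 N, S k * ((Real.log ((k + 1 : ℕ) : ℝ) : ℂ) -
        (Real.log (k : ℝ) : ℂ)) = L * (Real.log N : ℂ) -
        (∑ k ∈ Finset.Ico 1 N, ρ * w τ (Real.log k) *
        ((Real.log ((k + 1 : ℕ) : ℝ) : ℂ) - (Real.log (k : ℝ) : ℂ))) +
        (∑ k ∈ Finset.Ico 1 N, E k * ((Real.log ((k + 1 : ℕ) : ℝ) : ℂ) - (Real.log (k : ℝ) : ℂ))) := by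
      have t2 : L * (Real.log N : ℂ) = ∑ k ∈ Finset.Ico 1 N, L *
          ((Real.log ((k + 1 : ℕ) : ℝ) : ℂ) - (Real.log (k : ℝ) : ℂ)) := by
        rw [← Finset.mul_sum]
        congr 1
        clear hU hV
        induction N, hN using Nat.le_induction with
        | base => simp
        | succ n hn ih =>
          have hn0 : (0 : ℝ) < n := by exact_mod_cast hn
          rw [Finset.sum_Ico_succ_top hn, ← ih hn0]
          ring
      rw [t2, ← Finset.sum_sub_distrib, ← Finset.sum_add_distrib]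
      refine Finset.sum_congr rfl fun k _ => ?_
      rw [hSE k]
      ring
    have t3 : ∑ d ∈ Finset.Icc 1 N, ((ArithmeticFunction.vonMangoldt d / d : ℝ) : ℂ) * f d *
        ∑ m ∈ Finset.Icc 1 (N / d), f m / m =
        L * (∑ n ∈ Finset.Icc 1 N, ((ArithmeticFunction.vonMangoldt n / n : ℝ) : ℂ) * f n) -
        (∑ d ∈ Finset.Icc 1 N, ((ArithmeticFunction.vonMangoldt d / d : ℝ) : ℂ) * f d *
          (ρ * w τ (Real.log ((N / d : ℕ) : ℝ)))) +
        ∑ d ∈ Finset.Icc 1 N, ((ArithmeticFunction.vonMangoldt d / d : ℝ) : ℂ) * f d *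
          E (N / d) := by
      rw [Finset.mul_sum, ← Finset.sum_sub_distrib, ← Finset.sum_add_distrib]
      refine Finset.sum_congr rfl fun d _ => ?_
      rw [← hSn, hSE (N / d)]
      ring
    rw [t1, t3] at hV
    have t4 := hSE N
    rw [t4] at hV
    linear_combination -hV
  rw [key]
  have r1 : ‖E N * (Real.log N : ℂ)‖ ≤ K := by
    rw [norm_mul, Complex.norm_real, Real.norm_eq_abs,
      abs_of_nonneg (Real.log_natCast_nonneg N)]
    have h1 : Real.log N ≤ N := (Real.log_le_sub_one_of_pos hN0).trans (by linarith)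
    calc ‖E N‖ * Real.log N ≤ K / N * N :=
          mul_le_mul (hE N hN) h1 (Real.log_natCast_nonneg N) (by positivity)
      _ = K := by field_simp
  have r2 : ‖∑ k ∈ Finset.Ico 1 N, E k * ((Real.log ((k + 1 : ℕ) : ℝ) : ℂ) -
      (Real.log (k : ℝ) : ℂ))‖ ≤ 2 * K := by
    refine (norm_sum_le _ _).trans ?_
    have h1 : ∀ k ∈ Finset.Ico 1 N, ‖E k * ((Real.log ((k + 1 : ℕ) : ℝ) : ℂ) -
        (Real.log (k : ℝ) : ℂ))‖ ≤ K * (1 / (k : ℝ) ^ 2) := by
      intro k hk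
      have hk1 := (Finset.mem_Ico.1 hk).1
      have hk0 : (0 : ℝ) < k := by exact_mod_cast hk1
      obtain ⟨l1, l2⟩ := log_step k hk1
      rw [norm_mul, ← Complex.ofReal_sub, Complex.norm_real, Real.norm_eq_abs, abs_of_nonneg l1]
      calc ‖E k‖ * (Real.log ((k + 1 : ℕ) : ℝ) - Real.log k) ≤ K / k * (1 / k) :=
            mul_le_mul (hE k hk1) l2 l1 (by positivity)
        _ = _ := by ring
    refine (Finset.sum_le_sum h1).trans ?_
    rw [← Finset.mul_sum]
    have := mul_le_mul_of_nonneg_left (sq_sum N) hK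
    linarith
  have r3 : ‖∑ d ∈ Finset.Icc 1 N, ((ArithmeticFunction.vonMangoldt d / d : ℝ) : ℂ) * f d *
      E (N / d)‖ ≤ 12 * K := by
    refine cheb_div N hN _ K hK f hf1 ?_
    intro d hd
    obtain ⟨d1, d2⟩ := Finset.mem_Icc.1 hd
    have hM1 : 1 ≤ N / d := (Nat.one_le_div_iff (by omega)).2 d2
    refine (hE _ hM1).trans ?_
    rw [div_eq_mul_one_div]
    exact mul_le_mul_of_nonneg_left (inv_floor N d d1 d2) hK
  refine (norm_sub_le _ _).trans ?_
  refine (add_le_add ((norm_sub_le _ _).trans (add_le_add ((norm_add_le _ _).trans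
    (add_le_add ((norm_add_le _ _).trans (add_le_add (hb1 N hN) (hb2 N hN))) r1)) r2)) r3)

open Pool.Agent.H307R2 in
/-- a non-principal character with a shift -/
theorem caseA (Q : ℕ) [NeZero Q] (ψ : DirichletCharacter ℂ Q) (hψ : ψ ≠ 1) (τ : ℝ) :
    ∃ C : ℝ, ∀ N : ℕ, ‖∑ n ∈ Finset.Icc 1 N, ((ArithmeticFunction.vonMangoldt n / n : ℝ) : ℂ) *
      (ψ n * ee n τ)‖ ≤ C := by
  obtain ⟨s, hs⟩ : ∃ s : ℂ, s = 1 + (τ : ℂ) * I := ⟨_, rfl⟩
  have hsre : s.re = 1 := by rw [hs]; simp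
  refine main (fun n => ψ n * ee n τ) ?_ ?_ (ψ.LFunction s) 0 ?_ τ (‖s‖ * Q) (by positivity)
    (Or.inl rfl) ?_
  · intro a b ha hb
    rw [ee_mul a b ha hb]
    push_cast
    rw [map_mul]
    ring
  · intro n
    rw [norm_mul, ee_norm, mul_one]
    exact ψ.norm_le_one _
  · exact DirichletCharacter.LFunction_ne_zero_of_one_le_re ψ (Or.inl hψ) hsre.ge
  · intro M hM
    have h := LFunction_eq hψ hM (s := s) (by rw [hsre]; norm_num)
    have h1 : ∑ m ∈ Finset.Icc 1 M, ψ m * ee m τ / m =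
        ∑ n ∈ Finset.Icc 1 M, ψ (n : ZMod Q) * (n : ℂ) ^ (-s) := by
      refine Finset.sum_congr rfl fun n hn => ?_
      have hn0 : n ≠ 0 := by have := (Finset.mem_Icc.1 hn).1; omega
      rw [mul_div_assoc, ee_cpow n hn0, hs]
    rw [h1, h]
    have h2 : ∑ n ∈ Finset.Icc 1 M, ψ (n : ZMod Q) * (n : ℂ) ^ (-s) -
        (∑ n ∈ Finset.Icc 1 M, ψ (n : ZMod Q) * (n : ℂ) ^ (-s) + s * TM M (Ech ψ M) s -
          0 * w τ (Real.log M)) = -(s * TM M (Ech ψ M) s) := by ring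
    rw [h2, norm_neg, norm_mul]
    have h3 := TM_norm_le hM (Ech_norm_le hψ M) (s := s) (by rw [hsre]; norm_num)
    rw [hsre, Real.rpow_neg_one, div_one] at h3
    calc ‖s‖ * ‖TM M (Ech ψ M) s‖ ≤ ‖s‖ * (Q * (M : ℝ)⁻¹) :=
          mul_le_mul_of_nonneg_left h3 (norm_nonneg _)
      _ = _ := by ring

open Pool.Agent.H307R2 in
/-- zeta with a shift -/
theorem caseB (τ : ℝ) (hτ : τ ≠ 0) :
    ∃ C : ℝ, ∀ N : ℕ, ‖∑ n ∈ Finset.Icc 1 N, ((ArithmeticFunction.vonMangoldt n / n : ℝ) : ℂ) *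
      ee n τ‖ ≤ C := by
  have hτI : (τ : ℂ) * I ≠ 0 := mul_ne_zero (by exact_mod_cast hτ) I_ne_zero
  obtain ⟨s, hs⟩ : ∃ s : ℂ, s = 1 + (τ : ℂ) * I := ⟨_, rfl⟩
  have hsre : s.re = 1 := by rw [hs]; simp
  have hs1 : s ≠ 1 := by
    intro h
    apply hτI
    rw [hs] at h
    linear_combination h
  refine main (fun n => ee n τ) (fun a b ha hb => ee_mul a b ha hb τ) (fun n => (ee_norm n τ).le)
    (riemannZeta s) (1 / ((τ : ℂ) * I)) ?_ τ ‖s‖ (norm_nonneg _)
    (Or.inr ⟨hτ, rfl, fun _ => rfl⟩) ?_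
  · exact riemannZeta_ne_zero_of_one_le_re hsre.ge
  · intro M hM
    have hM0 : M ≠ 0 := by omega
    have hMc : (M : ℂ) ≠ 0 := by exact_mod_cast hM0
    have h := zeta_eq hM (s := s) (by rw [hsre]; norm_num) hs1
    have h1 : ∑ m ∈ Finset.Icc 1 M, ee m τ / m = ∑ n ∈ Finset.Icc 1 M, (n : ℂ) ^ (-s) := by
      refine Finset.sum_congr rfl fun n hn => ?_
      have hn0 : n ≠ 0 := by have := (Finset.mem_Icc.1 hn).1; omega
      rw [ee_cpow n hn0, hs]
    have h4 : (M : ℂ) ^ (1 - s) / (s - 1) = 1 / ((τ : ℂ) * I) * w τ (Real.log M) := by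
      have e1 : s - 1 = (τ : ℂ) * I := by rw [hs]; ring
      have e2 : (M : ℂ) ^ (1 - s) = w τ (Real.log M) := by
        rw [Complex.cpow_def_of_ne_zero hMc, ← Complex.natCast_log]
        unfold w
        congr 1
        rw [hs]
        push_cast
        ring
      rw [e1, e2]
      ring
    rw [h1, h, h4]
    have h2 : ∑ n ∈ Finset.Icc 1 M, (n : ℂ) ^ (-s) -
        (∑ n ∈ Finset.Icc 1 M, (n : ℂ) ^ (-s) + 1 / ((τ : ℂ) * I) * w τ (Real.log M) +
          s * TM M Ez s - 1 / ((τ : ℂ) * I) * w τ (Real.log M)) = -(s * TM M Ez s) := by ring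
    rw [h2, norm_neg, norm_mul]
    have h3 := TM_norm_le hM Ez_norm_le (s := s) (by rw [hsre]; norm_num)
    rw [hsre, Real.rpow_neg_one, div_one, one_mul] at h3
    calc ‖s‖ * ‖TM M Ez s‖ ≤ ‖s‖ * (M : ℝ)⁻¹ :=
          mul_le_mul_of_nonneg_left h3 (norm_nonneg _)
      _ = _ := by ring

theorem geo (N : ℕ) : ∑ k ∈ Finset.Icc 1 N, (1 / 2 : ℝ) ^ (k - 1 : ℕ) ≤ 2 := by
  have h6 : ∑ k ∈ Finset.Icc 1 N, (1 / 2 : ℝ) ^ (k - 1 : ℕ) =
      ∑ k ∈ Finset.range N, (1 / 2 : ℝ) ^ k := by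
    induction N with
    | zero => simp
    | succ n ih =>
      rw [Finset.sum_Icc_succ_top (by omega), ih, Finset.sum_range_succ]
      rfl
  rw [h6]
  exact sum_geometric_two_le N

/-- the prime powers of the primes dividing `q` -/
theorem powers (q : ℕ) (hq : q ≠ 0) : ∃ C : ℝ, ∀ N : ℕ, ∑ n ∈ Finset.Icc 1 N,
    (if n.Coprime q then 0 else ArithmeticFunction.vonMangoldt n / n : ℝ) ≤ C := by
  refine ⟨∑ p ∈ q.primeFactors, Real.log p * 2, fun N => ?_⟩
  obtain ⟨W, hW⟩ : ∃ W : ℕ × ℕ → ℝ, W = fun x => Real.log (x.1 : ℝ) * (1 / 2 : ℝ) ^ (x.2 - 1 : ℕ) :=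
    ⟨_, rfl⟩
  have h1 : ∑ n ∈ Finset.Icc 1 N,
      (if n.Coprime q then 0 else ArithmeticFunction.vonMangoldt n / n : ℝ) ≤
      ∑ x ∈ q.primeFactors ×ˢ Finset.Icc 1 N, W x := by
    have h2 : ∑ n ∈ Finset.Icc 1 N,
        (if n.Coprime q then 0 else ArithmeticFunction.vonMangoldt n / n : ℝ) =
        ∑ n ∈ (Finset.Icc 1 N).filter (fun n => IsPrimePow n ∧ ¬ n.Coprime q),
          ArithmeticFunction.vonMangoldt n / n := by
      rw [Finset.sum_filter]
      refine Finset.sum_congr rfl fun n _ => ?_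
      by_cases hc : n.Coprime q
      · rw [if_pos hc, if_neg (fun h => h.2 hc)]
      · rw [if_neg hc]
        by_cases hp : IsPrimePow n
        · rw [if_pos ⟨hp, hc⟩]
        · rw [if_neg (fun h => hp h.1), ArithmeticFunction.vonMangoldt_eq_zero_iff.2 hp, zero_div]
    rw [h2]
    have h3 : ∀ n ∈ (Finset.Icc 1 N).filter (fun n => IsPrimePow n ∧ ¬ n.Coprime q),
        (n.minFac, n.factorization n.minFac) ∈ q.primeFactors ×ˢ Finset.Icc 1 N ∧
        n.minFac ^ n.factorization n.minFac = n ∧ n.minFac.Prime ∧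
        1 ≤ n.factorization n.minFac := by
      intro n hn
      obtain ⟨hn1, hpp, hc⟩ := Finset.mem_filter.1 hn
      obtain ⟨hn1, hnN⟩ := Finset.mem_Icc.1 hn1
      have hne : n ≠ 1 := hpp.ne_one
      have hmp : n.minFac.Prime := Nat.minFac_prime hne
      have he : n.minFac ^ n.factorization n.minFac = n :=
        hpp.minFac_pow_factorization_eq
      have hk : 1 ≤ n.factorization n.minFac := by
        rw [Nat.one_le_iff_ne_zero]
        intro h0
        rw [h0, pow_zero] at he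
        exact hne he.symm
      have hdq : n.minFac ∣ q := by
        by_contra hnd
        apply hc
        rw [← he]
        exact Nat.Coprime.pow_left _ ((Nat.Prime.coprime_iff_not_dvd hmp).2 hnd)
      refine ⟨?_, he, hmp, hk⟩
      rw [Finset.mem_product]
      refine ⟨Nat.mem_primeFactors.2 ⟨hmp, hdq, hq⟩, Finset.mem_Icc.2 ⟨hk, ?_⟩⟩
      have : n.factorization n.minFac < n := Nat.factorization_lt _ (by omega)
      exact (this.trans_le hnN).le
    calc ∑ n ∈ (Finset.Icc 1 N).filter (fun n => IsPrimePow n ∧ ¬ n.Coprime q),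
          ArithmeticFunction.vonMangoldt n / n
        ≤ ∑ n ∈ (Finset.Icc 1 N).filter (fun n => IsPrimePow n ∧ ¬ n.Coprime q),
          W (n.minFac, n.factorization n.minFac) := by
          refine Finset.sum_le_sum fun n hn => ?_
          obtain ⟨-, he, hmp, hk⟩ := h3 n hn
          obtain ⟨-, hpp, -⟩ := Finset.mem_filter.1 hn
          have hΛ : ArithmeticFunction.vonMangoldt n = Real.log n.minFac := by
            rw [ArithmeticFunction.vonMangoldt_apply, if_pos hpp]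
          rw [hΛ, div_eq_mul_one_div, hW]
          refine mul_le_mul_of_nonneg_left ?_ (Real.log_natCast_nonneg _)
          have hn0 : (0 : ℝ) < n := by
            exact_mod_cast (Finset.mem_Icc.1 (Finset.mem_filter.1 hn).1).1
          rw [one_div_pow]
          apply one_div_le_one_div_of_le (by positivity)
          have h5 : (2 : ℕ) ^ (n.factorization n.minFac - 1) ≤ n := by
            calc 2 ^ (n.factorization n.minFac - 1) ≤ 2 ^ (n.factorization n.minFac) :=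
                  Nat.pow_le_pow_right (by norm_num) (by omega)
              _ ≤ n.minFac ^ (n.factorization n.minFac) := Nat.pow_le_pow_left hmp.two_le _
              _ = n := he
          exact_mod_cast h5
      _ = ∑ x ∈ ((Finset.Icc 1 N).filter (fun n => IsPrimePow n ∧ ¬ n.Coprime q)).image
            (fun n => (n.minFac, n.factorization n.minFac)), W x := by
          rw [Finset.sum_image]
          intro a ha b hb hab
          rw [Prod.mk.injEq] at hab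
          have ea := (h3 a ha).2.1
          have eb := (h3 b hb).2.1
          rw [← ea, ← eb, hab.2, hab.1]
      _ ≤ _ := by
          refine Finset.sum_le_sum_of_subset_of_nonneg ?_ ?_
          · intro x hx
            obtain ⟨n, hn, rfl⟩ := Finset.mem_image.1 hx
            exact (h3 n hn).1
          · intro x _ _
            rw [hW]
            exact mul_nonneg (Real.log_natCast_nonneg _) (by positivity)
  refine h1.trans ?_
  rw [Finset.sum_product]
  refine Finset.sum_le_sum fun p _ => ?_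
  rw [hW]
  simp only
  rw [← Finset.mul_sum]
  exact mul_le_mul_of_nonneg_left (geo N) (Real.log_natCast_nonneg _)

/-- the product with the conjugate -/
theorem conj_apply {q : ℕ} (χ : DirichletCharacter ℂ q) (a : ZMod q) :
    (starRingEnd ℂ) (χ a) = χ⁻¹ a := by
  rw [← MulChar.star_apply']
  rfl

/-- equal primitive characters -/
theorem prim_eq {q₁ q₂ : ℕ} [NeZero q₁] [NeZero q₂] (χ₁ : DirichletCharacter ℂ q₁)
    (χ₂ : DirichletCharacter ℂ q₂) (h₁ : χ₁.IsPrimitive) (h₂ : χ₂.IsPrimitive)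
    (h : DirichletCharacter.changeLevel (Nat.dvd_mul_right q₁ q₂) χ₁ =
      DirichletCharacter.changeLevel (Nat.dvd_mul_left q₂ q₁) χ₂) :
    (fun n : ℕ => χ₁ n) = (fun n : ℕ => χ₂ n) := by
  haveI hQ : NeZero (q₁ * q₂) := ⟨mul_ne_zero (NeZero.ne q₁) (NeZero.ne q₂)⟩
  have e1 : q₁ = q₂ := by
    have c1 := DirichletCharacter.conductor_changeLevel (χ := χ₁) (Nat.dvd_mul_right q₁ q₂)
    have c2 := DirichletCharacter.conductor_changeLevel (χ := χ₂) (Nat.dvd_mul_left q₂ q₁)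
    rw [h, c2, (DirichletCharacter.isPrimitive_def _).1 h₁,
      (DirichletCharacter.isPrimitive_def _).1 h₂] at c1
    exact c1.symm
  subst e1
  have e2 : χ₁ = χ₂ := DirichletCharacter.changeLevel_injective (Nat.dvd_mul_right q₁ q₁) h
  rw [e2]

theorem psi_apply {q₁ q₂ : ℕ} (χ₁ : DirichletCharacter ℂ q₁) (χ₂ : DirichletCharacter ℂ q₂)
    (n : ℕ) : χ₁ n * (starRingEnd ℂ) (χ₂ n) =
    (DirichletCharacter.changeLevel (Nat.dvd_mul_right q₁ q₂) χ₁ *
      (DirichletCharacter.changeLevel (Nat.dvd_mul_left q₂ q₁) χ₂)⁻¹) (n : ZMod (q₁ * q₂)) := by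
  rw [MulChar.mul_apply, ← conj_apply]
  by_cases hc : n.Coprime (q₁ * q₂)
  · have hi : IsCoprime (n : ℤ) ((q₁ * q₂ : ℕ) : ℤ) := Nat.isCoprime_iff_coprime.2 hc
    have a1 := DirichletCharacter.changeLevel_eq_cast_of_dvd' (χ := χ₁)
      (Nat.dvd_mul_right q₁ q₂) hi
    have a2 := DirichletCharacter.changeLevel_eq_cast_of_dvd' (χ := χ₂)
      (Nat.dvd_mul_left q₂ q₁) hi
    simp only [Int.cast_natCast] at a1 a2
    rw [a1, a2]
  · have hu : ¬ IsUnit ((n : ℕ) : ZMod (q₁ * q₂)) := by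
      rwa [ZMod.isUnit_iff_coprime]
    rw [MulChar.map_nonunit _ hu, zero_mul]
    rw [Nat.coprime_mul_iff_right, not_and_or] at hc
    rcases hc with h | h
    · have : ¬ IsUnit ((n : ℕ) : ZMod q₁) := by rwa [ZMod.isUnit_iff_coprime]
      rw [MulChar.map_nonunit _ this, zero_mul]
    · have : ¬ IsUnit ((n : ℕ) : ZMod q₂) := by rwa [ZMod.isUnit_iff_coprime]
      rw [MulChar.map_nonunit _ this, map_zero, mul_zero]

end MRTL

open MRTL in
theorem t_MRT : S_MRT := by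
  intro q₁ q₂ _ _ χ₁ χ₂ τ h₁ h₂ hne
  haveI hQ : NeZero (q₁ * q₂) := ⟨mul_ne_zero (NeZero.ne q₁) (NeZero.ne q₂)⟩
  obtain ⟨ψ, hψ⟩ : ∃ ψ : DirichletCharacter ℂ (q₁ * q₂),
    ψ = DirichletCharacter.changeLevel (Nat.dvd_mul_right q₁ q₂) χ₁ *
      (DirichletCharacter.changeLevel (Nat.dvd_mul_left q₂ q₁) χ₂)⁻¹ := ⟨_, rfl⟩
  have hap : ∀ n : ℕ, χ₁ n * (starRingEnd ℂ) (χ₂ n) = ψ (n : ZMod (q₁ * q₂)) := by
    intro n
    rw [hψ]
    exact psi_apply χ₁ χ₂ n
  simp only [hap]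
  by_cases h1 : ψ = 1
  · have hτ : τ ≠ 0 := by
      refine hne.resolve_left (fun hne => hne (prim_eq χ₁ χ₂ h₁ h₂ ?_))
      rw [hψ] at h1
      exact mul_inv_eq_one.1 h1
    obtain ⟨C1, hC1⟩ := caseB τ hτ
    obtain ⟨C2, hC2⟩ := powers (q₁ * q₂) (NeZero.ne _)
    refine ⟨C1 + C2, fun N => ?_⟩
    have e1 : ∑ n ∈ Finset.Icc 1 N, ((ArithmeticFunction.vonMangoldt n / n : ℝ) : ℂ) *
        (ψ (n : ZMod (q₁ * q₂)) * ee n τ) =
        ∑ n ∈ Finset.Icc 1 N, ((ArithmeticFunction.vonMangoldt n / n : ℝ) : ℂ) * ee n τ -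
        ∑ n ∈ Finset.Icc 1 N, (if n.Coprime (q₁ * q₂) then 0 else
          ((ArithmeticFunction.vonMangoldt n / n : ℝ) : ℂ) * ee n τ) := by
      rw [← Finset.sum_sub_distrib]
      refine Finset.sum_congr rfl fun n _ => ?_
      rw [h1]
      split_ifs with hc
      · rw [MulChar.one_apply ((ZMod.isUnit_iff_coprime _ _).2 hc)]
        ring
      · rw [MulChar.map_nonunit _ (fun h => hc ((ZMod.isUnit_iff_coprime _ _).1 h))]
        ring
    rw [e1]
    refine (norm_sub_le _ _).trans (add_le_add (hC1 N) ((norm_sum_le _ _).trans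
      (le_trans (Finset.sum_le_sum fun n _ => ?_) (hC2 N))))
    split_ifs with hc
    · rw [norm_zero]
    · rw [norm_mul, ee_norm, mul_one, Complex.norm_real, Real.norm_eq_abs, abs_of_nonneg]
      exact div_nonneg ArithmeticFunction.vonMangoldt_nonneg (Nat.cast_nonneg _)
  · exact caseA (q₁ * q₂) ψ h1 τ

end Pool.Agent.H203.GE
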