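import Pool.Agent.H203.GE.ENA
import Pool.Agent.H203.GE.COX
import Pool.Agent.H203.GE.MRT
import Pool.Agent.H203.GE.LFX

set_option autoImplicit false

/-! The data of a family of linear statistics and the limits of the covariances. -/

open Complex Filter Topology Set MeasureTheory

namespace Pool.Agent.H203.GE

open Pool.Agent.H203.ME

/-- a family of linear statistics of the zeros of Dirichlet L-functions: characters, heights, shifts, test functions, scales;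
`E j` is the growth exponent of the `j`-th height -/
structure Dt (k n D : ℕ) where
  q : Fin k → ℕ
  nz : ∀ j, NeZero (q j)
  χ : ∀ j, DirichletCharacter ℂ (q j)
  e : Fin D → ℝ
  A : Fin k → Fin n → Fin D → ℚ
  τ : Fin k → ℝ
  f : Fin k → ℝ → ℝ
  h : Fin k → ℝ → ℝ
  E : Fin k → ℝ

instance {k n D : ℕ} (d : Dt k n D) (j : Fin k) : NeZero (d.q j) := d.nz j

/-- the coefficients -/
noncomputable def Dt.u {k n D : ℕ} (d : Dt k n D) (j : Fin k) : ℕ → ℂ := fun m => d.χ j m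

/-- the L-functions -/
noncomputable def Dt.G {k n D : ℕ} (d : Dt k n D) (j : Fin k) : ℂ → ℂ := DirichletCharacter.LFunction (d.χ j)

/-- the heights -/
noncomputable def Dt.H {k n D : ℕ} (d : Dt k n D) (j : Fin k) : (Fin n → ℝ) → ℝ := HH d.e (d.A j) (d.τ j)

/-- the test function at the scale `h` -/
noncomputable def Dt.F {k n D : ℕ} (d : Dt k n D) (j : Fin k) (T : ℝ) : ℝ → ℝ := fun x => d.f j (x / d.h j T)

/-- the statistics -/
noncomputable def Dt.X {k n D : ℕ} (d : Dt k n D) (T : ℝ) (j : Fin k) (t : Fin n → ℝ) : ℝ :=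
  XG (d.G j) (d.F j T) (T ^ d.E j) (d.H j t)

/-- the hypotheses -/
structure Ok {k n D : ℕ} (d : Dt k n D) : Prop where
  prim : ∀ j, (d.χ j).IsPrimitive
  epos : ∀ i, 0 < d.e i
  emono : StrictMono d.e
  Epos : ∀ j, 0 < d.E j
  cd : ∀ j, ContDiff ℝ 2 (d.f j)
  cs : ∀ j, HasCompactSupport (d.f j)
  sc : Scales d.h
  ht : ∃ a b T0 : ℝ, 0 < a ∧ a < b ∧ 1 ≤ T0 ∧ ∀ T : ℝ, T0 ≤ T → ∀ j, Ht (d.E j) a b T (d.H j)

open Classical in
/-- the covariance matrix -/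
noncomputable def Dt.cM {k n D : ℕ} (d : Dt k n D) : Matrix (Fin k) (Fin k) ℝ :=
  Matrix.of fun i j => if d.A i = d.A j ∧ (∀ m : ℕ, d.χ i m = d.χ j m) ∧ d.τ i = d.τ j ∧ d.h i = d.h j then
    cv (d.f i) (d.f j) else 0

namespace ENGL

variable {k n D : ℕ}

lemma u_le (d : Dt k n D) (j : Fin k) (m : ℕ) : ‖d.u j m‖ ≤ 1 := DirichletCharacter.norm_le_one _ _

lemma lf (d : Dt k n D) (ok : Ok d) (j : Fin k) : Lf (d.G j) (d.u j) := t_LFX (d.q j) (d.χ j) (ok.prim j)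

/-- integer exponents -/
lemma den (A : Fin k → Fin n → Fin D → ℚ) : ∃ (B : ℕ) (A' : Fin k → Fin n × Fin D → ℤ), 0 < B ∧
    ∀ j c, (A' j c : ℝ) = B * (A j c.1 c.2 : ℝ) := by
  classical
  refine ⟨∏ j, ∏ i, ∏ d, (A j i d).den, fun j c => ((∏ j, ∏ i, ∏ d, ((A j i d).den : ℕ) : ℕ) * A j c.1 c.2 : ℚ).num, ?_, ?_⟩
  · exact Finset.prod_pos fun j _ => Finset.prod_pos fun i _ => Finset.prod_pos fun d _ => (A j i d).den_pos
  · intro j c
    set B : ℕ := ∏ j, ∏ i, ∏ d, (A j i d).den with hB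
    have hdvd : (A j c.1 c.2).den ∣ B := by
      refine ((Finset.dvd_prod_of_mem (fun d => (A j c.1 d).den) (Finset.mem_univ c.2)).trans
        (Finset.dvd_prod_of_mem (fun i => ∏ d, (A j i d).den) (Finset.mem_univ c.1))).trans ?_
      exact Finset.dvd_prod_of_mem (fun j => ∏ i, ∏ d, (A j i d).den) (Finset.mem_univ j)
    obtain ⟨m, hm⟩ := hdvd
    have h1 : ((B : ℚ) * A j c.1 c.2) = (((m : ℤ) * (A j c.1 c.2).num : ℤ) : ℚ) := by
      rw [hm]
      push_cast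
      have h2 : ((A j c.1 c.2).den : ℚ) * A j c.1 c.2 = (A j c.1 c.2).num := Rat.den_mul_eq_num _
      calc ((A j c.1 c.2).den : ℚ) * m * A j c.1 c.2 = m * (((A j c.1 c.2).den : ℚ) * A j c.1 c.2) := by ring
        _ = _ := by rw [h2]
    have h3 : ((B : ℚ) * A j c.1 c.2).num = (m : ℤ) * (A j c.1 c.2).num := by
      rw [h1, Rat.num_intCast]
    have h4 : ((((B : ℚ) * A j c.1 c.2).num : ℤ) : ℚ) = (B : ℚ) * A j c.1 c.2 := by rw [h3, h1]
    have h5 : (((((B : ℚ) * A j c.1 c.2).num : ℤ) : ℚ) : ℝ) = (((B : ℚ) * A j c.1 c.2 : ℚ) : ℝ) := by rw [h4]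
    push_cast at h5
    exact_mod_cast h5

lemma HH_eq (e : Fin D → ℝ) (A : Fin n → Fin D → ℚ) (τ : ℝ) {B : ℕ} (hB : 0 < B) {A' : Fin n × Fin D → ℤ}
    (hA : ∀ c, (A' c : ℝ) = B * (A c.1 c.2 : ℝ)) (t : Fin n → ℝ) :
    HH e A τ t = (∑ c : Fin n × Fin D, (A' c : ℝ) * (1 / B * (t c.1) ^ (e c.2))) + τ := by
  unfold HH
  rw [Fintype.sum_prod_type]
  congr 1
  refine Finset.sum_congr rfl fun i _ => Finset.sum_congr rfl fun d _ => ?_
  rw [hA]
  have : (B : ℝ) ≠ 0 := by positivity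
  field_simp

/-- the box is not empty -/
lemma pt_mem {T : ℝ} (hT : 0 < T) : (fun _ : Fin n => T) ∈ Bx n T := fun _ => ⟨le_rfl, by linarith⟩

lemma A_ne {d : Dt k n D} (ok : Ok d) {B : ℕ} (hB : 0 < B) {A' : Fin k → Fin n × Fin D → ℤ}
    (hA : ∀ j c, (A' j c : ℝ) = B * (d.A j c.1 c.2 : ℝ)) (i j : Fin k) : A' i ≠ - A' j := by
  intro h
  obtain ⟨a, b, T0, ha, -, hT0, hH⟩ := ok.ht
  have h1 : Tendsto (fun T : ℝ => a * T ^ d.E i) atTop atTop := (tendsto_rpow_atTop (ok.Epos i)).const_mul_atTop ha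
  obtain ⟨T, hT1, hT2⟩ := ((h1.eventually (eventually_gt_atTop (d.τ i + d.τ j))).and (eventually_ge_atTop T0)).exists
  have hT : 0 < T := by linarith
  have e1 := ((hH T hT2 i).maps _ (pt_mem hT)).1
  have e2 := ((hH T hT2 j).maps _ (pt_mem hT)).1
  have e3 : 0 < a * T ^ d.E j := mul_pos ha (Real.rpow_pos_of_pos hT _)
  have e4 : d.H i (fun _ => T) + d.H j (fun _ => T) = d.τ i + d.τ j := by
    unfold Dt.H
    rw [HH_eq d.e (d.A i) (d.τ i) hB (hA i), HH_eq d.e (d.A j) (d.τ j) hB (hA j), h]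
    have : ∑ c : Fin n × Fin D, (((- A' j) c : ℤ) : ℝ) * (1 / B * T ^ (d.e c.2)) =
        -∑ c : Fin n × Fin D, (A' j c : ℝ) * (1 / B * T ^ (d.e c.2)) := by
      rw [← Finset.sum_neg_distrib]
      refine Finset.sum_congr rfl fun c _ => ?_
      rw [Pi.neg_apply]
      push_cast
      ring
    rw [this]
    ring
  linarith

lemma A_iff {d : Dt k n D} {B : ℕ} (hB : 0 < B) {A' : Fin k → Fin n × Fin D → ℤ}
    (hA : ∀ j c, (A' j c : ℝ) = B * (d.A j c.1 c.2 : ℝ)) (i j : Fin k) : A' i = A' j ↔ d.A i = d.A j := by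
  have hB' : (B : ℝ) ≠ 0 := by positivity
  constructor
  · intro h
    funext x y
    have h1 := hA i (x, y)
    rw [h, hA j (x, y)] at h1
    have h2 := mul_left_cancel₀ hB' h1
    exact_mod_cast h2.symm
  · intro h
    funext c
    have h1 := hA i c
    rw [h, ← hA j c] at h1
    exact_mod_cast h1

open Classical in
/-- the limits of the covariances -/
lemma KV_lim {d : Dt k n D} (ok : Ok d) (i j : Fin k) {κ : ℝ} (hκ : 0 < κ) :
    Tendsto (fun T => KV (wf (d.u i) (d.u j) (d.τ i) (d.τ j)) (d.f i) (d.f j) (d.h i T) (d.h j T) ⌊T ^ κ⌋₊) atTop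
      (𝓝 (if (∀ m : ℕ, d.χ i m = d.χ j m) ∧ d.τ i = d.τ j ∧ d.h i = d.h j then cv (d.f i) (d.f j) else 0)) := by
  classical
  have hp := FINL.pos ok.sc
  obtain ⟨c1, c2, c3⟩ := t_COX (d.f i) (d.f j) (ok.cd i) (ok.cs i) (ok.cd j) (ok.cs j)
    (wf (d.u i) (d.u j) (d.τ i) (d.τ j)) (wf_le (u_le d i) (u_le d j) _ _) (d.h i) (d.h j) (fun T => ⌊T ^ κ⌋₊)
    (hp.mono fun T h => h i) (hp.mono fun T h => h j) (ok.sc.zero i) (ok.sc.zero j)
    (log_floor_tendsto hκ (ok.sc.infty i)) (log_floor_tendsto hκ (ok.sc.infty j))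
  by_cases hh : d.h i = d.h j
  · by_cases hχ : (∀ m : ℕ, d.χ i m = d.χ j m) ∧ d.τ i = d.τ j
    · rw [if_pos ⟨hχ.1, hχ.2, hh⟩]
      refine c1 ⟨d.q i + 1, fun p hp1 hp2 => ?_⟩ hh
      unfold wf Dt.u
      rw [← hχ.1 p, hχ.2, sub_self]
      have hcop : Nat.Coprime p (d.q i) :=
        Nat.coprime_of_lt_prime (NeZero.ne (d.q i)) (by omega) hp1
      have hu : IsUnit ((p : ℕ) : ZMod (d.q i)) := (ZMod.isUnit_iff_coprime p (d.q i)).2 hcop
      have h1 : ‖d.χ i (p : ZMod (d.q i))‖ = 1 := by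
        obtain ⟨x, hx⟩ := hu
        rw [← hx]
        exact DirichletCharacter.unit_norm_eq_one _ x
      have h2 : d.χ i (p : ZMod (d.q i)) * (starRingEnd ℂ) (d.χ i (p : ZMod (d.q i))) = 1 := by
        rw [Complex.mul_conj, Complex.normSq_eq_norm_sq, h1]
        norm_num
      rw [h2, one_mul]
      unfold ee
      simp
    · rw [if_neg (fun h => hχ ⟨h.1, h.2.1⟩)]
      refine c3 ?_
      refine t_MRT (d.q i) (d.q j) (d.χ i) (d.χ j) (d.τ i - d.τ j) (ok.prim i) (ok.prim j) ?_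
      by_contra hcon
      push Not at hcon
      exact hχ ⟨fun m => congrFun hcon.1 m, by linarith [hcon.2]⟩
  · rw [if_neg (fun h => hh h.2.2)]
    exact c2 (ok.sc.sep i j hh)

end ENGL

end Pool.Agent.H203.GE
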