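import Pool.Agent.H203.GE.ENC

set_option autoImplicit false

/-! Positive semidefinite covariances and convergence in law. -/

open Complex Filter Topology Set MeasureTheory ProbabilityTheory
open scoped BoundedContinuousFunction RealInnerProductSpace

namespace Pool.Agent.H203.GE

open Pool.Agent.H203.ME

namespace ENGL

variable {k n D : ℕ}

lemma cv_symm (f g : ℝ → ℝ) : cv f g = cv g f := by
  unfold cv
  congr 2
  funext ξ
  congr 1
  rw [← Complex.conj_re, map_mul, Complex.conj_conj, mul_comm]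

lemma cM_symm (d : Dt k n D) (i j : Fin k) : d.cM i j = d.cM j i := by
  classical
  unfold Dt.cM
  simp only [Matrix.of_apply]
  have h : (d.A i = d.A j ∧ (∀ m : ℕ, d.χ i m = d.χ j m) ∧ d.τ i = d.τ j ∧ d.h i = d.h j) ↔
      (d.A j = d.A i ∧ (∀ m : ℕ, d.χ j m = d.χ i m) ∧ d.τ j = d.τ i ∧ d.h j = d.h i) := by
    constructor
    · rintro ⟨a, b, c, e⟩
      exact ⟨a.symm, fun m => (b m).symm, c.symm, e.symm⟩
    · rintro ⟨a, b, c, e⟩
      exact ⟨a.symm, fun m => (b m).symm, c.symm, e.symm⟩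
  by_cases h1 : d.A i = d.A j ∧ (∀ m : ℕ, d.χ i m = d.χ j m) ∧ d.τ i = d.τ j ∧ d.h i = d.h j
  · rw [if_pos h1, if_pos (h.1 h1), cv_symm]
  · rw [if_neg h1, if_neg (fun h2 => h1 (h.2 h2))]

/-- the covariance matrix is positive semidefinite, because the characteristic functions are bounded by one -/
lemma cM_psd (hCLA : S_CLA) (hMOV : S_MOV) (hAPN : S_APN) (d : Dt k n D) (ok : Ok d) : d.cM.PosSemidef := by
  rw [Matrix.posSemidef_iff_dotProduct_mulVec]
  refine ⟨?_, fun v => ?_⟩
  · ext i j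
    rw [Matrix.conjTranspose_apply, star_trivial]
    exact cM_symm d j i
  · have h1 := (eng1 hCLA hMOV hAPN d ok v).norm
    have h2 : ∀ᶠ T : ℝ in atTop, ‖∫ t, cexp (I * ((∑ j, v j * d.X T j t : ℝ) : ℂ)) ∂(Measure.pi (fun _ : Fin n => mT T))‖ ≤ 1 := by
      filter_upwards [eventually_gt_atTop (0 : ℝ)] with T hT
      have := mT_prob hT
      refine (norm_integral_le_of_norm_le_const (C := 1) (Eventually.of_forall fun t => ?_)).trans ?_
      · rw [mul_comm, Complex.norm_exp_ofReal_mul_I]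
      · simp
    have h3 := le_of_tendsto h1 h2
    have h4 : -((∑ i, ∑ j, v i * v j * d.cM i j : ℝ) : ℂ) / 2 = ((-(∑ i, ∑ j, v i * v j * d.cM i j) / 2 : ℝ) : ℂ) := by
      push_cast; ring
    rw [h4, Complex.norm_exp_ofReal, Real.exp_le_one_iff] at h3
    have h5 : (star v ⬝ᵥ d.cM.mulVec v) = ∑ i, ∑ j, v i * v j * d.cM i j := by
      simp only [dotProduct, Matrix.mulVec, Finset.mul_sum, star_trivial]
      exact Finset.sum_congr rfl fun i _ => Finset.sum_congr rfl fun j _ => by ring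
    rw [h5]
    linarith

/-- the vector of the statistics -/
noncomputable def _root_.Pool.Agent.H203.GE.Dt.Xv (d : Dt k n D) (T : ℝ) (t : Fin n → ℝ) : EuclideanSpace ℝ (Fin k) :=
  WithLp.toLp 2 (fun j => d.X T j t)

/-- convergence in law from the convergence of the characteristic functions -/
lemma wk {C : Matrix (Fin k) (Fin k) ℝ} (hC : C.PosSemidef) {P : ℝ → Measure (Fin n → ℝ)}
    {X : ℝ → (Fin n → ℝ) → EuclideanSpace ℝ (Fin k)} (hP : ∀ᶠ T in atTop, IsProbabilityMeasure (P T))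
    (hX : ∀ᶠ T in atTop, AEMeasurable (X T) (P T))
    (hc : ∀ v : Fin k → ℝ, Tendsto (fun T => ∫ t, cexp (I * ((∑ j, v j * X T t j : ℝ) : ℂ)) ∂(P T)) atTop
      (𝓝 (cexp (-((∑ i, ∑ j, v i * v j * C i j : ℝ) : ℂ) / 2)))) (φ : EuclideanSpace ℝ (Fin k) →ᵇ ℝ) :
    Tendsto (fun T => ∫ t, φ (X T t) ∂(P T)) atTop (𝓝 (∫ x, φ x ∂(multivariateGaussian 0 C))) := by
  have h1 := FINL.weak (μ := fun T => (P T).map (X T)) (ν := multivariateGaussian 0 C) ?_ ?_ φ
  · refine h1.congr' ?_
    filter_upwards [hX] with T hT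
    rw [integral_map hT φ.continuous.aestronglyMeasurable]
  · filter_upwards [hP, hX] with T h1 h2
    exact Measure.isProbabilityMeasure_map h2
  · intro v
    rw [charFun_multivariateGaussian hC]
    have e1 : cexp (⟪v, (0 : EuclideanSpace ℝ (Fin k))⟫ * I - v.ofLp ⬝ᵥ C.mulVec v / 2) =
        cexp (-((∑ i, ∑ j, v i * v j * C i j : ℝ) : ℂ) / 2) := by
      congr 1
      have : (v.ofLp ⬝ᵥ C.mulVec v.ofLp) = ∑ i, ∑ j, v i * v j * C i j := by
        simp only [dotProduct, Matrix.mulVec, Finset.mul_sum]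
        exact Finset.sum_congr rfl fun i _ => Finset.sum_congr rfl fun j _ => by ring
      rw [this]
      simp
      ring
    rw [e1]
    refine (hc v).congr' ?_
    filter_upwards [hX] with T hT
    rw [charFun_apply, integral_map hT (by fun_prop)]
    congr 1
    funext t
    rw [mul_comm]
    congr 2

end ENGL

end Pool.Agent.H203.GE
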