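import Pool.Agent.H203.GE.END
import Pool.Agent.H203.GE.APX

set_option autoImplicit false

/-! The characteristic function when some of the parameters are random zeros. -/

open Complex Filter Topology Set MeasureTheory ProbabilityTheory

namespace Pool.Agent.H203.GE

open Pool.Agent.H203.ME hiding S_EFW S_BBI S_APX XF_eq Zf_symm Z_eq point_diff

/-- the same data with the derivatives of the test functions -/
noncomputable def Dt.dd {k n D : ℕ} (d : Dt k n D) : Dt k n D := { d with f := fun j => deriv (d.f j) }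

namespace ENGL

variable {k n D : ℕ}

lemma ok_dd {d : Dt k n D} (ok : Ok d) (h3 : ∀ j, ContDiff ℝ 3 (d.f j)) : Ok d.dd where
  prim := ok.prim
  epos := ok.epos
  emono := ok.emono
  Epos := ok.Epos
  cd := fun j => by
    have h1 := h3 j
    rw [show (3 : WithTop ℕ∞) = 2 + 1 by norm_num, contDiff_succ_iff_deriv] at h1
    exact h1.2.2
  cs := fun j => (ok.cs j).deriv
  sc := ok.sc
  ht := ok.ht

lemma int_deriv0 {f : ℝ → ℝ} (hf : ContDiff ℝ 2 f) (hs : HasCompactSupport f) : ∫ x, deriv f x = 0 := by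
  have hd : Differentiable ℝ f := hf.differentiable (by norm_num)
  have hc : Continuous (deriv f) := hf.continuous_deriv (by norm_num)
  exact integral_eq_zero_of_hasDerivAt_of_integrable (fun x => (hd x).hasDerivAt)
    (hc.integrable_of_hasCompactSupport hs.deriv) (hf.continuous.integrable_of_hasCompactSupport hs)

lemma XG_deriv {G : ℂ → ℂ} {u : ℕ → ℂ} (hG : Lf G u) {f : ℝ → ℝ} (hf : ContDiff ℝ 2 f) (hs : HasCompactSupport f)
    {h : ℝ} (hh : 0 < h) (c1 : C2c (fun x => f (x / h))) (c2 : C2c (fun x => deriv f (x / h))) {T r : ℝ} (hr : 4 ≤ r) :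
    HasDerivAt (XG G (fun x => f (x / h)) T) (-(1 / h * XG G (fun x => deriv f (x / h)) T r)) r := by
  have hd : Differentiable ℝ f := hf.differentiable (by norm_num)
  have e1 : ∀ t ∈ Ioo (r - 1) (r + 1), XG G (fun x => f (x / h)) T t =
      (∑ s ∈ H370.Zf G (r - 2) (r + 2), (H370.mult G s : ℝ) * f ((s.im - t) / h)) -
        Real.log T / (2 * Real.pi) * ∫ x : ℝ, f (x / h) := fun t ht =>
    XG_eq hG c1 (by linarith) (by linarith [ht.1]) (by linarith [ht.2])
  have e2 : XG G (fun x => deriv f (x / h)) T r =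
      ∑ s ∈ H370.Zf G (r - 2) (r + 2), (H370.mult G s : ℝ) * deriv f ((s.im - r) / h) := by
    rw [XG_eq hG c2 (U1 := r - 2) (U2 := r + 2) (by linarith) (by linarith) (by linarith),
      Measure.integral_comp_div, int_deriv0 hf hs, smul_zero, mul_zero, sub_zero]
  rw [e2]
  have h3 : HasDerivAt (fun t => (∑ s ∈ H370.Zf G (r - 2) (r + 2), (H370.mult G s : ℝ) * f ((s.im - t) / h)) -
      Real.log T / (2 * Real.pi) * ∫ x : ℝ, f (x / h))
      (∑ s ∈ H370.Zf G (r - 2) (r + 2), (H370.mult G s : ℝ) * (deriv f ((s.im - r) / h) * (-1 / h))) r := by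
    refine HasDerivAt.sub_const _ (HasDerivAt.fun_sum fun s _ => ?_)
    refine HasDerivAt.const_mul _ ?_
    have h4 : HasDerivAt (fun t : ℝ => (s.im - t) / h) (-1 / h) r := ((hasDerivAt_id r).const_sub s.im).div_const h
    exact HasDerivAt.comp r (hd ((s.im - r) / h)).hasDerivAt h4
  have h5 : -(1 / h * ∑ s ∈ H370.Zf G (r - 2) (r + 2), (H370.mult G s : ℝ) * deriv f ((s.im - r) / h)) =
      ∑ s ∈ H370.Zf G (r - 2) (r + 2), (H370.mult G s : ℝ) * (deriv f ((s.im - r) / h) * (-1 / h)) := by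
    rw [Finset.mul_sum, ← Finset.sum_neg_distrib]
    exact Finset.sum_congr rfl fun s _ => by ring
  rw [h5]
  refine h3.congr_of_eventuallyEq ?_
  filter_upwards [isOpen_Ioo.mem_nhds (show r ∈ Ioo (r - 1) (r + 1) from ⟨by linarith, by linarith⟩)] with t ht
  exact e1 t ht

lemma c2c_F {d : Dt k n D} (ok : Ok d) : ∀ᶠ T in atTop, ∀ j, C2c (d.F j T) := FINL.c2c_ev ok.cd ok.cs ok.sc

/-- the statistics are continuous along the heights and the variation is bounded by the derivative -/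
lemma var_bd {d : Dt k n D} (ok : Ok d) {a b T : ℝ} (ha : 0 < a) (hT : 0 < T) {j : Fin k} (h4 : 4 ≤ a * T ^ d.E j)
    (hh : 0 < d.h j T) (c1 : C2c (d.F j T)) (c2 : C2c (d.dd.F j T)) {g : ℝ → ℝ} (hg : Mon (d.E j) a b T g)
    (hc : ContinuousOn (XG (d.G j) (d.dd.F j T) (T ^ d.E j)) (Icc (a * T ^ d.E j) (b * T ^ d.E j)))
    {x y : ℝ} (hx : T ≤ x) (hxy : x ≤ y) (hy : y ≤ 2 * T) :
    |XG (d.G j) (d.F j T) (T ^ d.E j) (g y) - XG (d.G j) (d.F j T) (T ^ d.E j) (g x)| ≤
      ∫ r in x..y, b * T ^ (d.E j - 1) * (1 / d.h j T * |XG (d.G j) (d.dd.F j T) (T ^ d.E j) (g r)|) := by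
  obtain ⟨g', hg1, hg2, -, hg4⟩ := hg.der
  have hsub : Icc x y ⊆ Icc T (2 * T) := Icc_subset_Icc hx hy
  have hgc : ContinuousOn g (Icc x y) := fun s hs => (hg2 s (hsub hs)).continuousAt.continuousWithinAt
  have hmap : MapsTo g (Icc x y) (Icc (a * T ^ d.E j) (b * T ^ d.E j)) := fun s hs => hg.maps s (hsub hs)
  have hder : ∀ r ∈ Icc x y, HasDerivAt (fun s => XG (d.G j) (d.F j T) (T ^ d.E j) (g s))
      (-(1 / d.h j T * XG (d.G j) (d.dd.F j T) (T ^ d.E j) (g r)) * g' r) r := by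
    intro r hr
    have h1 := XG_deriv (lf d ok j) (ok.cd j) (ok.cs j) hh c1 c2 (T := T ^ d.E j) (r := g r)
      (h4.trans (hg.maps r (hsub hr)).1)
    exact HasDerivAt.comp r h1 (hg2 r (hsub hr))
  have hcc : ContinuousOn (fun r => XG (d.G j) (d.dd.F j T) (T ^ d.E j) (g r)) (Icc x y) := hc.comp hgc hmap
  have hint : IntervalIntegrable (fun r => -(1 / d.h j T * XG (d.G j) (d.dd.F j T) (T ^ d.E j) (g r)) * g' r) volume x y := by
    refine ContinuousOn.intervalIntegrable ?_
    rw [uIcc_of_le hxy]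
    exact ((continuousOn_const.mul hcc).neg).mul (hg1.mono hsub)
  rw [← intervalIntegral.integral_eq_sub_of_hasDerivAt (fun r hr => hder r (by rwa [uIcc_of_le hxy] at hr)) hint]
  have hint2 : IntervalIntegrable (fun r => b * T ^ (d.E j - 1) * (1 / d.h j T *
      |XG (d.G j) (d.dd.F j T) (T ^ d.E j) (g r)|)) volume x y := by
    refine ContinuousOn.intervalIntegrable ?_
    rw [uIcc_of_le hxy]
    exact continuousOn_const.mul (continuousOn_const.mul hcc.abs)
  rw [← Real.norm_eq_abs]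
  refine intervalIntegral.norm_integral_le_of_norm_le hxy ?_ hint2
  refine Eventually.of_forall fun r hr => ?_
  have hr' : r ∈ Icc T (2 * T) := hsub ⟨hr.1.le, hr.2⟩
  rw [norm_mul, norm_neg, norm_mul, Real.norm_eq_abs, Real.norm_eq_abs, Real.norm_eq_abs, abs_of_pos (by positivity), mul_comm]
  exact mul_le_mul_of_nonneg_right (hg4 r hr') (by positivity)

end ENGL

end Pool.Agent.H203.GE
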