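import Pool.Agent.H203.GE.ENE

set_option autoImplicit false

/-! The characteristic function when some of the parameters are random zeros, conclusion. -/

open Complex Filter Topology Set MeasureTheory ProbabilityTheory

namespace Pool.Agent.H203.GE

open Pool.Agent.H203.ME hiding S_EFW S_BBI S_APX XF_eq Zf_symm Z_eq point_diff

namespace ENGL

variable {k n D : ℕ}

lemma upd_mem {T : ℝ} {t : Fin n → ℝ} (ht : t ∈ Bx n T) (i : Fin n) {r : ℝ} (hr : r ∈ Icc T (2 * T)) :
    Function.update t i r ∈ Bx n T := by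
  intro i'
  by_cases h : i' = i
  · subst h; rw [Function.update_self]; exact hr
  · rw [Function.update_of_ne h]; exact ht i'

open Classical in
/-- the bound for the variation -/
noncomputable def WW (d : Dt k n D) (v : Fin k → ℝ) (b T : ℝ) (i : Fin n) (j : Fin k) (t : Fin n → ℝ) : ℝ :=
  if (∀ t s, d.H j (Function.update t i s) = d.H j t) then 0 else
    |v j| * (b * T ^ (d.E j - 1) * (1 / d.h j T * |XG (d.G j) (d.dd.F j T) (T ^ d.E j) (d.H j t)|))

lemma WW_nonneg (d : Dt k n D) (v : Fin k → ℝ) {b T : ℝ} (hb : 0 < b) (hT : 0 < T) (i : Fin n) (j : Fin k)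
    (hh : 0 < d.h j T) (t : Fin n → ℝ) : 0 ≤ WW d v b T i j t := by
  unfold WW
  split_ifs
  · exact le_rfl
  · positivity

lemma WW_cont {d : Dt k n D} (v : Fin k → ℝ) {a b T : ℝ} (i : Fin n) (j : Fin k)
    (hH : Ht (d.E j) a b T (d.H j))
    (hc : ContinuousOn (XG (d.G j) (d.dd.F j T) (T ^ d.E j)) (Icc (a * T ^ d.E j) (b * T ^ d.E j))) :
    ContinuousOn (WW d v b T i j) (Bx n T) := by
  unfold WW
  split_ifs
  · exact continuousOn_const
  · refine continuousOn_const.mul (continuousOn_const.mul (continuousOn_const.mul (ContinuousOn.abs ?_)))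
    exact hc.comp hH.cont.continuousOn (fun t ht => hH.maps t ht)

lemma WW_var {d : Dt k n D} (ok : Ok d) (v : Fin k → ℝ) {a b T : ℝ} (ha : 0 < a) (hT : 0 < T) {j : Fin k}
    (h4 : 4 ≤ a * T ^ d.E j) (hh : 0 < d.h j T) (c1 : C2c (d.F j T)) (c2 : C2c (d.dd.F j T))
    (hH : Ht (d.E j) a b T (d.H j))
    (hc : ContinuousOn (XG (d.G j) (d.dd.F j T) (T ^ d.E j)) (Icc (a * T ^ d.E j) (b * T ^ d.E j)))
    (i : Fin n) {t : Fin n → ℝ} (ht : t ∈ Bx n T) {x y : ℝ} (hx : T ≤ x) (hxy : x ≤ y) (hy : y ≤ 2 * T) :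
    |v j * d.X T j (Function.update t i y) - v j * d.X T j (Function.update t i x)| ≤
      ∫ r in x..y, WW d v b T i j (Function.update t i r) := by
  classical
  rw [← mul_sub, abs_mul]
  unfold WW Dt.X
  split_ifs with h
  · rw [h t y, h t x, sub_self, abs_zero, mul_zero]
    simp
  · rcases hH.part i with h1 | h1
    · exact absurd h1 h
    · rw [intervalIntegral.integral_const_mul]
      exact mul_le_mul_of_nonneg_left (var_bd ok ha hT h4 hh c1 c2 (h1 t ht) hc hx hxy hy) (abs_nonneg _)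

lemma WW_avg (hCVR : S_CVR) {d : Dt k n D} (v : Fin k → ℝ) {a b T C : ℝ} (ha : 0 < a) (hab : a < b)
    (hT : 1 ≤ T) {j : Fin k} (hE : d.E j ≤ 1) (hC : 0 < C) (hh : 0 < d.h j T) (hH : Ht (d.E j) a b T (d.H j))
    (hc : ContinuousOn (XG (d.G j) (d.dd.F j T) (T ^ d.E j)) (Icc (a * T ^ d.E j) (b * T ^ d.E j)))
    (hi : ∫ x in (a * T ^ d.E j)..(b * T ^ d.E j), |XG (d.G j) (d.dd.F j T) (T ^ d.E j) x| ≤ C * T ^ d.E j)
    (i : Fin n) {t : Fin n → ℝ} (ht : t ∈ Bx n T) :
    1 / T * ∫ r in T..(2 * T), WW d v b T i j (Function.update t i r) ≤ |v j| * (b / a) * C / d.h j T := by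
  classical
  have hT0 : 0 < T := by linarith
  have hb : 0 < b := by linarith
  unfold WW
  split_ifs with h
  · simp only [intervalIntegral.integral_zero, mul_zero]
    positivity
  · rcases hH.part i with h1 | h1
    · exact absurd h1 h
    · have h2 := hCVR (d.E j) a b T ha hab hT0 _ (h1 t ht)
        (fun x => |v j| * (b * T ^ (d.E j - 1) * (1 / d.h j T * |XG (d.G j) (d.dd.F j T) (T ^ d.E j) x|)))
        (continuousOn_const.mul (continuousOn_const.mul (continuousOn_const.mul hc.abs))) (fun x => by positivity)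
      simp only [intervalIntegral.integral_const_mul] at h2 ⊢
      have hp : 0 < T ^ (d.E j - 1) := Real.rpow_pos_of_pos hT0 _
      have h3 : T ^ d.E j ≤ T := by
        calc T ^ d.E j ≤ T ^ (1 : ℝ) := Real.rpow_le_rpow_of_exponent_le hT hE
          _ = T := Real.rpow_one T
      refine (mul_le_mul_of_nonneg_left h2 (by positivity)).trans ?_
      calc 1 / T * (1 / (a * T ^ (d.E j - 1)) * (|v j| * (b * T ^ (d.E j - 1) * (1 / d.h j T *
            ∫ x in (a * T ^ d.E j)..(b * T ^ d.E j), |XG (d.G j) (d.dd.F j T) (T ^ d.E j) x|))))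
          ≤ 1 / T * (1 / (a * T ^ (d.E j - 1)) * (|v j| * (b * T ^ (d.E j - 1) * (1 / d.h j T *
            (C * T ^ d.E j))))) := by gcongr
        _ ≤ 1 / T * (1 / (a * T ^ (d.E j - 1)) * (|v j| * (b * T ^ (d.E j - 1) * (1 / d.h j T *
            (C * T))))) := by gcongr
        _ = _ := by field_simp

end ENGL

open ENGL

/-- the characteristic function when some parameters are random zeros -/
theorem eng2 (hCLA : S_CLA) (hMOV : S_MOV) (hAPN : S_APN) (hCVR : S_CVR) (hL1 : S_L1G) (hTRN : S_TRN) {k n D : ℕ}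
    (d : Dt k n D) (ok : Ok d) (h3 : ∀ j, ContDiff ℝ 3 (d.f j)) (hE : ∀ j, d.E j ≤ 1)
    (G' : Fin n → ℂ → ℂ) (u' : Fin n → ℕ → ℂ) (hG' : ∀ i, Lf (G' i) (u' i))
    (ν : Fin n → ℝ → Measure ℝ) (hν : ∀ i T, ν i T = mT T ∨ ν i T = mZ (G' i) T) (v : Fin k → ℝ) :
    Tendsto (fun T => ∫ t, cexp (I * ((∑ j, v j * d.X T j t : ℝ) : ℂ)) ∂(Measure.pi (fun i => ν i T))) atTop
      (𝓝 (cexp (-((∑ i, ∑ j, v i * v j * d.cM i j : ℝ) : ℂ) / 2))) := by
  classical
  have h1 := eng1 hCLA hMOV hAPN d ok v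
  have hdiff : Tendsto (fun T => (∫ t, cexp (I * ((∑ j, v j * d.X T j t : ℝ) : ℂ)) ∂(Measure.pi (fun i => ν i T))) -
      ∫ t, cexp (I * ((∑ j, v j * d.X T j t : ℝ) : ℂ)) ∂(Measure.pi (fun _ : Fin n => mT T))) atTop (𝓝 0) := by
    rw [NormedAddGroup.tendsto_nhds_zero]
    intro ε hε
    obtain ⟨a, b, TH, ha, hab, hTH, hH⟩ := ok.ht
    have hb : 0 < b := ha.trans hab
    have okd := ok_dd ok h3
    choose V hV hadm using adm_ev' d.dd okd
    choose V1 hV1 hadm1 using adm_ev' d ok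
    choose C η T0 hC hη hη1 hT0 hl1 using fun j => hL1 (d.G j) (d.u j) (lf d ok j) a b (V j) ha hab (hV j)
    choose C1 η2 T2 hC1 hη2 hη21 hT2 hl2 using fun j => hL1 (d.G j) (d.u j) (lf d ok j) a b (V1 j) ha hab (hV1 j)
    obtain ⟨K, T1, hK, hT1, htr⟩ := hTRN n G' u' hG' (ε / (4 * (n + 1))) (by positivity)
    obtain ⟨Cs, hCs⟩ : ∃ Cs : ℝ, Cs = ∑ j, |v j| * (b / a) * C j := ⟨_, rfl⟩
    have hCs0 : 0 ≤ Cs := by
      rw [hCs]
      exact Finset.sum_nonneg fun j _ => by have := hC j; positivity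
    obtain ⟨ω, hω⟩ : ∃ ω : ℝ, ω = ε / (8 * (n + 1) * (Cs + 1)) := ⟨_, rfl⟩
    have hω0 : 0 < ω := by rw [hω]; positivity
    have hη0 : 0 < min (ω / K) (1 / (ω * K)) := by positivity
    have hpow : ∀ j, ∀ᶠ T : ℝ in atTop, 4 ≤ a * T ^ d.E j := fun j =>
      ((tendsto_rpow_atTop (ok.Epos j)).const_mul_atTop ha).eventually (eventually_ge_atTop 4)
    have hbig : ∀ j, ∀ᶠ T : ℝ in atTop, T0 j ≤ T ^ d.E j := fun j =>
      (tendsto_rpow_atTop (ok.Epos j)).eventually (eventually_ge_atTop _)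
    have hbig2 : ∀ j, ∀ᶠ T : ℝ in atTop, T2 j ≤ T ^ d.E j := fun j =>
      (tendsto_rpow_atTop (ok.Epos j)).eventually (eventually_ge_atTop _)
    filter_upwards [eventually_ge_atTop TH, eventually_ge_atTop T1, FINL.pos ok.sc, FINL.hm_ev ok.sc hη0,
      eventually_all.2 hpow, eventually_all.2 hbig, eventually_all.2 (fun j => hadm j (η j) (hη j)),
      c2c_F ok, c2c_F okd, (eventually_all.2 hbig2).and (eventually_all.2 (fun j => hadm1 j (η2 j) (hη2 j)))]
      with T a1 a2 a3 a4 a5 a6 a7 a8 a9 a10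
    obtain ⟨a10, a11⟩ := a10
    have hTone : 1 ≤ T := hTH.trans a1
    have hT : 0 < T := by linarith
    have hlog : ∀ j, Real.log (T ^ d.E j) = d.E j * Real.log T := fun j => Real.log_rpow hT _
    have hL : ∀ j, ContinuousOn (XG (d.G j) (d.dd.F j T) (T ^ d.E j)) (Icc (a * T ^ d.E j) (b * T ^ d.E j)) ∧
        ∫ x in (a * T ^ d.E j)..(b * T ^ d.E j), |XG (d.G j) (d.dd.F j T) (T ^ d.E j) x| ≤ C j * T ^ d.E j := fun j =>
      hl1 j (T ^ d.E j) (a6 j) (d.dd.F j T) (by rw [hlog]; exact a7 j)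
    have hL2 : ∀ j, ContinuousOn (XG (d.G j) (d.F j T) (T ^ d.E j)) (Icc (a * T ^ d.E j) (b * T ^ d.E j)) := fun j =>
      (hl2 j (T ^ d.E j) (a10 j) (d.F j T) (by rw [hlog]; exact a11 j)).1
    obtain ⟨w, hw⟩ : ∃ w : ℝ, w = ω * FINL.hm d.h T := ⟨_, rfl⟩
    have hlogT : 0 < Real.log T := by
      by_contra hcon
      push Not at hcon
      have := mul_nonpos_of_nonneg_of_nonpos a4.1.le hcon
      nlinarith [a4.2.2]
    have hw1 : K ≤ w * Real.log T := by
      have e1 : 1 ≤ ω / K * (FINL.hm d.h T * Real.log T) := by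
        refine a4.2.2.trans ?_
        exact mul_le_mul_of_nonneg_right (min_le_left _ _) (mul_pos a4.1 hlogT).le
      rw [hw]
      calc K = K * 1 := (mul_one K).symm
        _ ≤ K * (ω / K * (FINL.hm d.h T * Real.log T)) := by gcongr
        _ = ω * FINL.hm d.h T * Real.log T := by field_simp
    have hw2 : w ≤ 1 / K := by
      have e1 := a4.2.1.trans (min_le_right _ _)
      rw [hw]
      calc ω * FINL.hm d.h T ≤ ω * (1 / (ω * K)) := by gcongr
        _ = 1 / K := by field_simp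
    have hres := htr T a2 w hw1 hw2 (fun i => ν i T) (fun i => hν i T)
      (fun t => cexp (I * ((∑ j, v j * d.X T j t : ℝ) : ℂ))) (fun i t => ∑ j, WW d v b T i j t)
      (∑ j, |v j| * (b / a) * C j / d.h j T)
      (fun t => by rw [mul_comm, Complex.norm_exp_ofReal_mul_I]) ?_ ?_ ?_ ?_ ?_
    · refine hres.trans_lt ?_
      have e1 : 2 * w * (∑ j, |v j| * (b / a) * C j / d.h j T) ≤ 2 * ω * Cs := by
        rw [mul_assoc, mul_assoc]
        refine mul_le_mul_of_nonneg_left ?_ (by norm_num)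
        rw [hCs, Finset.mul_sum, Finset.mul_sum, hw]
        refine Finset.sum_le_sum fun j _ => ?_
        have e2 : FINL.hm d.h T / d.h j T ≤ 1 := (div_le_one (a3 j)).2 (FINL.hm_le d.h T j)
        calc ω * FINL.hm d.h T * (|v j| * (b / a) * C j / d.h j T) =
            ω * (|v j| * (b / a) * C j) * (FINL.hm d.h T / d.h j T) := by ring
          _ ≤ ω * (|v j| * (b / a) * C j) * 1 := by
              have := hC j
              gcongr
          _ = _ := by ring
      have e3 : 2 * ω * Cs ≤ ε / (4 * (n + 1)) := by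
        rw [hω]
        rw [show 2 * (ε / (8 * ((n : ℝ) + 1) * (Cs + 1))) * Cs = ε / (4 * (n + 1)) * (Cs / (Cs + 1)) by
          field_simp; ring]
        have : Cs / (Cs + 1) ≤ 1 := (div_le_one (by positivity)).2 (by linarith)
        calc ε / (4 * ((n : ℝ) + 1)) * (Cs / (Cs + 1)) ≤ ε / (4 * (n + 1)) * 1 := by gcongr
          _ = _ := mul_one _
      calc (n : ℝ) * (ε / (4 * (n + 1)) + 2 * w * (∑ j, |v j| * (b / a) * C j / d.h j T))
          ≤ n * (ε / (4 * (n + 1)) + ε / (4 * (n + 1))) := by gcongr; exact e1.trans e3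
        _ = ε / 2 * (n / (n + 1)) := by field_simp; ring
        _ ≤ ε / 2 * 1 := by
            have : (n : ℝ) / (n + 1) ≤ 1 := (div_le_one (by positivity)).2 (by linarith)
            gcongr
        _ < ε := by linarith
    · have e1 : Continuous fun x : ℝ => cexp (I * (x : ℂ)) := by fun_prop
      have e2 : ContinuousOn (fun t => ∑ j, v j * d.X T j t) (Bx n T) := by
        refine continuousOn_finsetSum _ fun j _ => continuousOn_const.mul ?_
        exact (hL2 j).comp (hH T a1 j).cont.continuousOn (fun t ht => (hH T a1 j).maps t ht)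
      exact e1.comp_continuousOn e2
    · exact fun i => continuousOn_finsetSum _ fun j _ => WW_cont v i j (hH T a1 j) (hL j).1
    · exact fun i t => Finset.sum_nonneg fun j _ => WW_nonneg d v hb hT i j (a3 j) t
    · intro i t ht x y hx hxy hy
      refine (exp_diff _ _).trans ?_
      rw [← Finset.sum_sub_distrib]
      refine (Finset.abs_sum_le_sum_abs _ _).trans ?_
      rw [intervalIntegral.integral_finsetSum]
      · exact Finset.sum_le_sum fun j _ => WW_var ok v ha hT (a5 j) (a3 j) (a8 j) (a9 j) (hH T a1 j) (hL j).1 i ht hx hxy hy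
      · intro j _
        refine ContinuousOn.intervalIntegrable ?_
        rw [uIcc_of_le hxy]
        refine (WW_cont v i j (hH T a1 j) (hL j).1).comp (by fun_prop) (fun r hr => ?_)
        exact upd_mem ht i ⟨hx.trans hr.1, hr.2.trans hy⟩
    · intro i t ht
      rw [intervalIntegral.integral_finsetSum, Finset.mul_sum]
      · exact Finset.sum_le_sum fun j _ => WW_avg hCVR v ha hab hTone (hE j) (hC j) (a3 j) (hH T a1 j) (hL j).1 (hL j).2 i ht
      · intro j _
        refine ContinuousOn.intervalIntegrable ?_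
        rw [uIcc_of_le (by linarith)]
        refine (WW_cont v i j (hH T a1 j) (hL j).1).comp (by fun_prop) (fun r hr => ?_)
        exact upd_mem ht i hr
  have h2 := hdiff.add h1
  rw [zero_add] at h2
  exact h2.congr fun T => by ring

end Pool.Agent.H203.GE
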