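import Pool.Agent.H203.GE.Defs2

set_option autoImplicit false

/-! helper870 for helper203: positive linear forms are heights -/

open Filter Topology Set MeasureTheory

namespace Pool.Agent.H203.GE

namespace HTLL

theorem HH_eq {n : ℕ} (r : Fin n → ℚ) (τ : ℝ) (t : Fin n → ℝ) :
    HH (fun _ : Fin 1 => (1 : ℝ)) (fun i (_ : Fin 1) => r i) τ t = (∑ i, (r i : ℝ) * t i) + τ := by
  unfold HH
  simp [Real.rpow_one]

theorem sum_update {n : ℕ} (r : Fin n → ℚ) (t : Fin n → ℝ) (i : Fin n) (s : ℝ) :
    ∑ j, (r j : ℝ) * Function.update t i s j = (∑ j, (r j : ℝ) * t j) + (r i : ℝ) * (s - t i) := by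
  have h : ∀ j, (r j : ℝ) * Function.update t i s j =
      (r j : ℝ) * t j + (if j = i then (r i : ℝ) * (s - t i) else 0) := by
    intro j
    by_cases hj : j = i
    · subst hj
      simp only [Function.update_self, if_true]
      ring
    · simp only [Function.update_of_ne hj, if_neg hj, add_zero]
  rw [Finset.sum_congr rfl (fun j _ => h j), Finset.sum_add_distrib]
  simp

theorem update_mem {n : ℕ} {T : ℝ} {t : Fin n → ℝ} (ht : t ∈ Bx n T) (i : Fin n) {s : ℝ}
    (hs : s ∈ Icc T (2 * T)) : Function.update t i s ∈ Bx n T := by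
  intro j
  by_cases hj : j = i
  · subst hj
    simpa only [Function.update_self] using And.intro hs.1 hs.2
  · simpa only [Function.update_of_ne hj] using ht j

theorem exists_c {n : ℕ} (r : Fin n → ℚ) : ∃ c : ℝ, 0 < c ∧ ∀ i, r i ≠ 0 → c ≤ |(r i : ℝ)| := by
  have h : ∀ᶠ c : ℝ in 𝓝[>] 0, ∀ i, r i ≠ 0 → c ≤ |(r i : ℝ)| := by
    rw [eventually_all]
    intro i
    by_cases hi : r i = 0
    · exact Eventually.of_forall fun c h => absurd hi h
    · have hp : (0 : ℝ) < |(r i : ℝ)| := abs_pos.mpr (by exact_mod_cast hi)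
      filter_upwards [Ioo_mem_nhdsGT hp] with c hc _
      exact hc.2.le
  obtain ⟨c, hc, hc0⟩ := (h.and self_mem_nhdsWithin).exists
  exact ⟨c, hc0, hc⟩

end HTLL

open HTLL in
theorem t_HTL : S_HTL := by
  intro n r τ hpos
  obtain ⟨c, hc0, hc⟩ := exists_c r
  -- the minimum over the box
  set x₀ : Fin n → ℝ := fun i => if 0 ≤ r i then 1 else 2 with hx₀
  set m : ℝ := ∑ i, (r i : ℝ) * x₀ i with hm
  have hm0 : 0 < m := by
    apply hpos
    intro i
    simp only [hx₀]
    split_ifs <;> norm_num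
  set R : ℝ := ∑ i, |(r i : ℝ)| with hR
  have hR0 : 0 ≤ R := Finset.sum_nonneg fun i _ => abs_nonneg _
  have hle : ∀ i, |(r i : ℝ)| ≤ R := fun i =>
    Finset.single_le_sum (f := fun i => |(r i : ℝ)|) (fun j _ => abs_nonneg _) (Finset.mem_univ i)
  have hne : ∃ i, r i ≠ 0 := by
    by_contra hcon
    push Not at hcon
    have h1 := hpos (fun _ => 1) (fun _ => by norm_num)
    simp [hcon] at h1
  refine ⟨min (m / 2) c, 2 * R + |τ| + min (m / 2) c + 1, max 1 (2 * |τ| / m), ?_, ?_,
    le_max_left _ _, ?_⟩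
  · exact lt_min (by positivity) hc0
  · have := abs_nonneg τ
    linarith
  intro T hT
  have hT1 : 1 ≤ T := (le_max_left _ _).trans hT
  have hT2 : 2 * |τ| / m ≤ T := (le_max_right _ _).trans hT
  rw [div_le_iff₀ hm0] at hT2
  have hτ0 := abs_nonneg τ
  have hτ1 := neg_abs_le τ
  have hτ2 := le_abs_self τ
  set a : ℝ := min (m / 2) c with ha
  have ha0 : 0 < a := lt_min (by positivity) hc0
  have ham : a ≤ m / 2 := min_le_left _ _
  have hac : a ≤ c := min_le_right _ _
  have hmaps : ∀ t ∈ Bx n T, a * T ^ (1 : ℝ) ≤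
      HH (fun _ : Fin 1 => (1 : ℝ)) (fun i (_ : Fin 1) => r i) τ t ∧
      HH (fun _ : Fin 1 => (1 : ℝ)) (fun i (_ : Fin 1) => r i) τ t ≤
        (2 * R + |τ| + a + 1) * T ^ (1 : ℝ) := by
    intro t ht
    rw [HH_eq, Real.rpow_one]
    have h1 : m * T ≤ ∑ i, (r i : ℝ) * t i := by
      rw [hm, Finset.sum_mul]
      refine Finset.sum_le_sum fun i _ => ?_
      have hti := ht i
      simp only [hx₀]
      split_ifs with h
      · have h' : (0 : ℝ) ≤ r i := by exact_mod_cast h
        nlinarith [hti.1]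
      · have h' : (r i : ℝ) < 0 := by exact_mod_cast not_le.mp h
        nlinarith [hti.2]
    have h2 : ∑ i, (r i : ℝ) * t i ≤ R * (2 * T) := by
      rw [hR, Finset.sum_mul]
      refine Finset.sum_le_sum fun i _ => ?_
      have hti := ht i
      have h3 : (r i : ℝ) * t i ≤ |(r i : ℝ)| * t i :=
        mul_le_mul_of_nonneg_right (le_abs_self _) (by linarith [hti.1])
      exact h3.trans (mul_le_mul_of_nonneg_left hti.2 (abs_nonneg _))
    constructor
    · nlinarith
    · nlinarith
  have hmon : ∀ i, r i ≠ 0 → ∀ t ∈ Bx n T, Mon 1 a (2 * R + |τ| + a + 1) T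
      (fun s => HH (fun _ : Fin 1 => (1 : ℝ)) (fun i (_ : Fin 1) => r i) τ (Function.update t i s)) := by
    intro i hi t ht
    refine ⟨fun s hs => hmaps _ (update_mem ht i hs), fun _ => (r i : ℝ), continuousOn_const, ?_, ?_, ?_⟩
    · intro s _
      have he : (fun s => HH (fun _ : Fin 1 => (1 : ℝ)) (fun i (_ : Fin 1) => r i) τ
          (Function.update t i s)) = fun s : ℝ => (∑ j, (r j : ℝ) * t j) + (r i : ℝ) * (s - t i) + τ := by
        funext s
        rw [HH_eq, sum_update]
      rw [he]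
      have h1 : HasDerivAt (fun s : ℝ => (r i : ℝ) * (s - t i)) ((r i : ℝ) * 1) s :=
        ((hasDerivAt_id s).sub_const (t i)).const_mul _
      rw [mul_one] at h1
      exact (h1.const_add _).add_const _
    · have h1 := hc i hi
      have e0 : (1 : ℝ) - 1 = 0 := sub_self _
      rw [e0, Real.rpow_zero]
      by_cases h : 0 ≤ (r i : ℝ)
      · left
        intro s _
        rw [abs_of_nonneg h] at h1
        linarith
      · right
        intro s _
        rw [abs_of_neg (not_le.mp h)] at h1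
        linarith
    · intro s _
      have e0 : (1 : ℝ) - 1 = 0 := sub_self _
      rw [e0, Real.rpow_zero]
      have := hle i
      linarith
  refine ⟨?_, hmaps, ?_, ?_⟩
  · have he : HH (fun _ : Fin 1 => (1 : ℝ)) (fun i (_ : Fin 1) => r i) τ =
        fun t : Fin n → ℝ => (∑ i, (r i : ℝ) * t i) + τ := by
      funext t
      exact HH_eq r τ t
    rw [he]
    fun_prop
  · intro i
    by_cases hi : r i = 0
    · left
      intro t s
      rw [HH_eq, HH_eq, sum_update, hi]
      simp
    · right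
      exact hmon i hi
  · obtain ⟨i, hi⟩ := hne
    exact ⟨i, hmon i hi⟩

end Pool.Agent.H203.GE
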