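import Pool.Agent.H203.GE.Defs2

set_option autoImplicit false

/-! (HTP) sums of real powers are heights, one parameter -/

open Complex Filter Topology Set MeasureTheory

namespace Pool.Agent.H203.GE

namespace HTPL

theorem two_bd {P T s : ℝ} (hT : 0 < T) (hs : s ∈ Icc T (2 * T)) :
    (2 : ℝ) ^ (-|P|) * T ^ P ≤ s ^ P ∧ s ^ P ≤ (2 : ℝ) ^ |P| * T ^ P := by
  obtain ⟨u, hu⟩ : ∃ u, u = s / T := ⟨_, rfl⟩
  have hsu : s = u * T := by rw [hu]; field_simp
  have hu1 : 1 ≤ u := by rw [hu, le_div_iff₀ hT]; linarith [hs.1]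
  have hu2 : u ≤ 2 := by rw [hu, div_le_iff₀ hT]; linarith [hs.2]
  have hu0 : 0 < u := by linarith
  have hTP : 0 < T ^ P := Real.rpow_pos_of_pos hT P
  rw [hsu, Real.mul_rpow hu0.le hT.le]
  have h2 : u ^ |P| ≤ (2 : ℝ) ^ |P| := Real.rpow_le_rpow hu0.le hu2 (abs_nonneg P)
  constructor
  · refine mul_le_mul_of_nonneg_right ?_ hTP.le
    have h1 : u ^ (-|P|) ≤ u ^ P := Real.rpow_le_rpow_of_exponent_le hu1 (neg_abs_le P)
    refine le_trans ?_ h1
    rw [Real.rpow_neg (by norm_num), Real.rpow_neg hu0.le]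
    exact inv_anti₀ (Real.rpow_pos_of_pos hu0 _) h2
  · refine mul_le_mul_of_nonneg_right ?_ hTP.le
    exact (Real.rpow_le_rpow_of_exponent_le hu1 (le_abs_self P)).trans h2

theorem lim {ι : Type} [Fintype ι] (k p : ι → ℝ) (d₀ : ι)
    (h : ∀ d, d ≠ d₀ → k d = 0 ∨ p d < p d₀) :
    Tendsto (fun s : ℝ => ∑ d, k d * s ^ (p d - p d₀)) atTop (𝓝 (k d₀)) := by
  classical
  have e : k d₀ = ∑ d, (if d = d₀ then k d₀ else 0) := by
    rw [Finset.sum_ite_eq' Finset.univ d₀, if_pos (Finset.mem_univ _)]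
  rw [e]
  refine tendsto_finsetSum _ fun d _ => ?_
  by_cases hd : d = d₀
  · subst hd
    rw [if_pos rfl, sub_self]
    simp only [Real.rpow_zero, mul_one]
    exact tendsto_const_nhds
  · rw [if_neg hd]
    rcases h d hd with h0 | h0
    · rw [h0]
      simp only [zero_mul]
      exact tendsto_const_nhds
    · have h1 : Tendsto (fun s : ℝ => s ^ (-(p d₀ - p d))) atTop (𝓝 0) :=
        tendsto_rpow_neg_atTop (by linarith)
      have h2 := h1.const_mul (k d)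
      rw [mul_zero] at h2
      have e2 : -(p d₀ - p d) = p d - p d₀ := by ring
      rw [e2] at h2
      exact h2

theorem main {ι : Type} [Fintype ι] (k p : ι → ℝ) (d₀ : ι) (hk : 0 < k d₀)
    (h : ∀ d, d ≠ d₀ → k d = 0 ∨ p d < p d₀) :
    ∃ a b T0 : ℝ, 0 < a ∧ a < b ∧ 1 ≤ T0 ∧ ∀ T : ℝ, T0 ≤ T → ∀ s ∈ Icc T (2 * T),
      a * T ^ (p d₀) ≤ ∑ d, k d * s ^ (p d) ∧ ∑ d, k d * s ^ (p d) ≤ b * T ^ (p d₀) := by
  have hlim := lim k p d₀ h
  have h1 : ∀ᶠ s : ℝ in atTop, k d₀ / 2 ≤ ∑ d, k d * s ^ (p d - p d₀) ∧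
      ∑ d, k d * s ^ (p d - p d₀) ≤ 2 * k d₀ :=
    (hlim.eventually (eventually_ge_nhds (by linarith))).and
      (hlim.eventually (eventually_le_nhds (by linarith)))
  obtain ⟨T1, hT1⟩ := eventually_atTop.1 h1
  have hp : 0 < (2 : ℝ) ^ |p d₀| := Real.rpow_pos_of_pos (by norm_num) _
  have hn : 0 < (2 : ℝ) ^ (-|p d₀|) := Real.rpow_pos_of_pos (by norm_num) _
  have hpn : (2 : ℝ) ^ (-|p d₀|) ≤ (2 : ℝ) ^ |p d₀| :=
    Real.rpow_le_rpow_of_exponent_le (by norm_num) (by linarith [abs_nonneg (p d₀)])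
  refine ⟨k d₀ / 2 * (2 : ℝ) ^ (-|p d₀|), 2 * k d₀ * (2 : ℝ) ^ |p d₀|, max T1 1, by positivity,
    ?_, le_max_right _ _, fun T hT s hs => ?_⟩
  · calc k d₀ / 2 * (2 : ℝ) ^ (-|p d₀|) ≤ k d₀ / 2 * (2 : ℝ) ^ |p d₀| :=
          mul_le_mul_of_nonneg_left hpn (by linarith)
      _ < 2 * k d₀ * (2 : ℝ) ^ |p d₀| := mul_lt_mul_of_pos_right (by linarith) hp
  · have hT0 : 0 < T := lt_of_lt_of_le one_pos ((le_max_right _ _).trans hT)
    have hs0 : 0 < s := lt_of_lt_of_le hT0 hs.1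
    obtain ⟨h2, h3⟩ := hT1 s (((le_max_left _ _).trans hT).trans hs.1)
    obtain ⟨h4, h5⟩ := two_bd (P := p d₀) hT0 hs
    have hsP : 0 < s ^ p d₀ := Real.rpow_pos_of_pos hs0 _
    have hTP : 0 < T ^ p d₀ := Real.rpow_pos_of_pos hT0 _
    have e : ∑ d, k d * s ^ (p d) = (∑ d, k d * s ^ (p d - p d₀)) * s ^ (p d₀) := by
      rw [Finset.sum_mul]
      refine Finset.sum_congr rfl fun d _ => ?_
      rw [mul_assoc, ← Real.rpow_add hs0, sub_add_cancel]
    rw [e]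
    constructor
    · calc k d₀ / 2 * (2 : ℝ) ^ (-|p d₀|) * T ^ p d₀
          = k d₀ / 2 * ((2 : ℝ) ^ (-|p d₀|) * T ^ p d₀) := by ring
        _ ≤ (∑ d, k d * s ^ (p d - p d₀)) * s ^ (p d₀) :=
            mul_le_mul h2 h4 (by positivity) (by linarith)
    · calc (∑ d, k d * s ^ (p d - p d₀)) * s ^ (p d₀)
          ≤ 2 * k d₀ * ((2 : ℝ) ^ |p d₀| * T ^ p d₀) :=
            mul_le_mul h3 h5 hsP.le (by linarith)
        _ = _ := by ring

end HTPL

theorem t_HTP : S_HTP := by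
  intro D e he hmono A τ d₀ hA hA0
  have hAr : (0 : ℝ) < (A 0 d₀ : ℝ) := by exact_mod_cast hA
  have hlt : ∀ d, d ≠ d₀ → (A 0 d : ℝ) = 0 ∨ e d < e d₀ := by
    intro d hd
    rcases lt_or_gt_of_ne hd with h | h
    · exact Or.inr (hmono h)
    · left
      rw [hA0 d h]
      norm_num
  -- the function
  obtain ⟨a1, b1, T1, ha1, hab1, hT1, h1⟩ := HTPL.main
    (fun o : Option (Fin D) => o.elim τ fun d => (A 0 d : ℝ))
    (fun o : Option (Fin D) => o.elim 0 e) (some d₀) hAr (by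
      rintro (_ | d) hd
      · exact Or.inr (he d₀)
      · exact hlt d (fun h => hd (by rw [h])))
  -- its derivative
  obtain ⟨a2, b2, T2, ha2, hab2, hT2, h2⟩ := HTPL.main
    (fun d : Fin D => (A 0 d : ℝ) * e d) (fun d => e d - 1) d₀ (mul_pos hAr (he d₀)) (by
      intro d hd
      rcases hlt d hd with h | h
      · left
        show (A 0 d : ℝ) * e d = 0
        rw [h, zero_mul]
      · right
        show e d - 1 < e d₀ - 1
        linarith)
  have hH : ∀ t : Fin 1 → ℝ, HH e A τ t = (∑ d, (A 0 d : ℝ) * (t 0) ^ (e d)) + τ := by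
    intro t
    unfold HH
    rw [Fin.sum_univ_one]
  have hg1 : ∀ T, T1 ≤ T → ∀ s ∈ Icc T (2 * T),
      a1 * T ^ e d₀ ≤ (∑ d, (A 0 d : ℝ) * s ^ (e d)) + τ ∧
        (∑ d, (A 0 d : ℝ) * s ^ (e d)) + τ ≤ b1 * T ^ e d₀ := by
    intro T hT s hs
    have h3 := h1 T hT s hs
    rw [Fintype.sum_option] at h3
    simp only [Option.elim_none, Option.elim_some, Real.rpow_zero, mul_one] at h3
    rw [add_comm]
    exact h3
  refine ⟨min a1 a2, max b1 b2, max T1 T2, lt_min ha1 ha2,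
    lt_of_le_of_lt (min_le_left _ _) (lt_of_lt_of_le hab1 (le_max_left _ _)),
    hT1.trans (le_max_left _ _), fun T hT => ?_⟩
  have hT1' : T1 ≤ T := (le_max_left _ _).trans hT
  have hT2' : T2 ≤ T := (le_max_right _ _).trans hT
  have hT0 : 0 < T := lt_of_lt_of_le one_pos (hT1.trans hT1')
  have hTE : 0 < T ^ e d₀ := Real.rpow_pos_of_pos hT0 _
  have hTE1 : 0 < T ^ (e d₀ - 1) := Real.rpow_pos_of_pos hT0 _
  have hmaps : ∀ s ∈ Icc T (2 * T), min a1 a2 * T ^ e d₀ ≤ (∑ d, (A 0 d : ℝ) * s ^ (e d)) + τ ∧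
      (∑ d, (A 0 d : ℝ) * s ^ (e d)) + τ ≤ max b1 b2 * T ^ e d₀ := fun s hs =>
    ⟨(mul_le_mul_of_nonneg_right (min_le_left _ _) hTE.le).trans (hg1 T hT1' s hs).1,
      (hg1 T hT1' s hs).2.trans (mul_le_mul_of_nonneg_right (le_max_left _ _) hTE.le)⟩
  have hMon : ∀ t : Fin 1 → ℝ, Mon (e d₀) (min a1 a2) (max b1 b2) T
      (fun s => HH e A τ (Function.update t 0 s)) := by
    intro t
    have e1 : (fun s => HH e A τ (Function.update t 0 s))
        = fun s => (∑ d, (A 0 d : ℝ) * s ^ (e d)) + τ := by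
      funext s
      rw [hH, Function.update_self]
    rw [e1]
    refine ⟨hmaps, fun s => ∑ d, (A 0 d : ℝ) * e d * s ^ (e d - 1), ?_, ?_, Or.inl ?_, ?_⟩
    · refine continuousOn_finsetSum _ fun d _ => continuousOn_const.mul ?_
      exact fun s hs => (Real.continuousAt_rpow_const s (e d - 1)
        (Or.inl (lt_of_lt_of_le hT0 hs.1).ne')).continuousWithinAt
    · intro s hs
      have hs0 : s ≠ 0 := (lt_of_lt_of_le hT0 hs.1).ne'
      refine HasDerivAt.add_const _ ?_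
      refine HasDerivAt.fun_sum fun d _ => ?_
      refine ((Real.hasDerivAt_rpow_const (p := e d) (Or.inl hs0)).const_mul
        (A 0 d : ℝ)).congr_deriv ?_
      ring
    · intro s hs
      exact (mul_le_mul_of_nonneg_right (min_le_right _ _) hTE1.le).trans (h2 T hT2' s hs).1
    · intro s hs
      have h3 := h2 T hT2' s hs
      rw [abs_of_nonneg (le_trans (mul_pos ha2 hTE1).le h3.1)]
      exact h3.2.trans (mul_le_mul_of_nonneg_right (le_max_right _ _) hTE1.le)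
  refine ⟨?_, fun t ht => ?_, fun i => ?_, ⟨0, fun t _ => hMon t⟩⟩
  · have e1 : HH e A τ = fun t : Fin 1 → ℝ => (∑ d, (A 0 d : ℝ) * (t 0) ^ (e d)) + τ :=
      funext hH
    rw [e1]
    refine Continuous.add (continuous_finsetSum _ fun d _ => continuous_const.mul ?_)
      continuous_const
    exact (Real.continuous_rpow_const (he d).le).comp (continuous_apply 0)
  · rw [hH]
    exact hmaps (t 0) (ht 0)
  · right
    intro t _
    have hi : i = 0 := Subsingleton.elim _ _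
    rw [hi]
    exact hMon t

end Pool.Agent.H203.GE
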