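import Pool.Agent.H203.GE.Defs2
import Pool.Agent.H203.GE.APX
import Pool.Agent.H203.ME.LLN
import Pool.Agent.H203.ME.ADM

set_option autoImplicit false

/-! Leaf LLG: law of large numbers for windows (after ME/LLN.lean). -/

open Complex Filter Topology Set MeasureTheory

namespace Pool.Agent.H203.GE

open Pool.Agent.H203.ME hiding S_EFW S_BBI S_APX XF_eq Zf_symm Z_eq point_diff

namespace LLGL

open Pool.Agent.H203.ME.LLNL

/-- the admissibility of the scaled bump, every `η` -/
theorem adm_bu (hA : S_ADM) {p q ν : ℝ} (hν : 0 < ν) :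
    ∃ V : ℝ, 0 < V ∧ ∀ η : ℝ, 0 < η → ∃ K : ℝ, 1 ≤ K ∧ ∀ L s : ℝ, 1 ≤ L → 0 < s → s ≤ 1 / K →
      K ≤ s * L → Adm η V L (fun x => bu p q ν (x / s)) := by
  obtain ⟨V, hV, h⟩ := hA 1 (fun _ => bu p q ν) (fun _ => bu_cd p q ν) (fun _ => bu_cs hν)
  refine ⟨V, hV, fun η hη => ?_⟩
  obtain ⟨K, hK, h2⟩ := h η hη
  refine ⟨K, hK, fun L s hL hs h3 h4 => ?_⟩
  have := h2 L (fun _ => s) (fun _ => 1) hL (fun _ => ⟨hs, h3, h4⟩) (fun _ => by simp)
  simpa using this

end LLGL

open LLGL Pool.Agent.H203.ME.LLNL in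
theorem t_LLG (hL : S_L1G) : S_LLG := by
  intro G u hG ε hε
  -- the smoothing parameter
  set ν : ℝ := min (1 / 4) (ε / 4) with hνdef
  have hν : 0 < ν := lt_min (by norm_num) (by positivity)
  have hν1 : ν ≤ 1 / 4 := min_le_left _ _
  have hν2 : ν ≤ ε / 4 := min_le_right _ _
  obtain ⟨Vp, hVp, hAp0⟩ := LLGL.adm_bu t_ADM (p := -ν) (q := 1 + ν) hν
  obtain ⟨Vm, hVm, hAm0⟩ := LLGL.adm_bu t_ADM (p := 0) (q := 1) hν
  obtain ⟨Cp, ηp, Tp, hCp, hηp, -, hTp, hXp⟩ := hL G u hG 1 2 Vp one_pos one_lt_two hVp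
  obtain ⟨Cm, ηm, Tm, hCm, hηm, -, hTm, hXm⟩ := hL G u hG 1 2 Vm one_pos one_lt_two hVm
  obtain ⟨Kp, hKp, hAp⟩ := hAp0 ηp hηp
  obtain ⟨Km, hKm, hAm⟩ := hAm0 ηm hηm
  set D : ℝ := Cp + Cm with hD
  have hD0 : 0 ≤ D := by positivity
  set K : ℝ := max (max Kp Km) (2 * D / ε) with hKdef
  have hK1 : Kp ≤ K := (le_max_left _ _).trans (le_max_left _ _)
  have hK2 : Km ≤ K := (le_max_right _ _).trans (le_max_left _ _)
  have hK3 : 2 * D / ε ≤ K := le_max_right _ _
  have hK0 : 1 ≤ K := hKp.trans hK1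
  refine ⟨K, max (max Tp Tm) 64, hK0, hTp.trans ((le_max_left _ _).trans (le_max_left _ _)),
    fun T hT s hs1 hs2 => ?_⟩
  have hTTp : Tp ≤ T := ((le_max_left _ _).trans (le_max_left _ _)).trans hT
  have hTTm : Tm ≤ T := ((le_max_right _ _).trans (le_max_left _ _)).trans hT
  have hT64 : 64 ≤ T := (le_max_right _ _).trans hT
  have hT0 : 0 < T := by linarith
  set L : ℝ := Real.log T with hLdef
  have hL1 : 1 ≤ L := by
    rw [hLdef, Real.le_log_iff_exp_le hT0]
    have := Real.exp_one_lt_d9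
    linarith
  have hL4 : 4 * L ≤ T := log_le_quarter hT64
  have hL0 : 0 < L := by linarith
  have hs0 : 0 < s := by
    by_contra hcon
    push Not at hcon
    have : s * L ≤ 0 := mul_nonpos_of_nonpos_of_nonneg hcon hL0.le
    linarith
  have hadp : Adm ηp Vp L (fun x => bu (-ν) (1 + ν) ν (x / s)) :=
    hAp L s hL1 hs0 (hs2.trans (one_div_le_one_div_of_le (by linarith) hK1)) (hK1.trans hs1)
  have hadm : Adm ηm Vm L (fun x => bu 0 1 ν (x / s)) :=
    hAm L s hL1 hs0 (hs2.trans (one_div_le_one_div_of_le (by linarith) hK2)) (hK2.trans hs1)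
  obtain ⟨hcp0, hIp0⟩ := hXp T hTTp _ hadp
  obtain ⟨hcm0, hIm0⟩ := hXm T hTTm _ hadm
  set Fp : ℝ → ℝ := fun x => bu (-ν) (1 + ν) ν (x / s) with hFp
  set Fm : ℝ → ℝ := fun x => bu 0 1 ν (x / s) with hFm
  set a : ℝ := T + 2 * L with ha
  set b : ℝ := 2 * T - 2 * L with hb
  have hab : a ≤ b := by linarith
  have hπ : 0 < 2 * Real.pi := by positivity
  have hsubI : Icc a b ⊆ Icc (1 * T) (2 * T) := by
    apply Icc_subset_Icc <;> linarith
  have hTT : 1 * T ≤ 2 * T := by linarith
  have restr : ∀ f : ℝ → ℝ, ContinuousOn f (Icc (1 * T) (2 * T)) →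
      ∫ t in a..b, |f t| ≤ ∫ t in (1 * T)..(2 * T), |f t| := by
    intro f hf
    have hi : IntervalIntegrable (fun t => |f t|) volume (1 * T) (2 * T) := by
      apply ContinuousOn.intervalIntegrable
      rw [uIcc_of_le hTT]
      exact hf.abs
    exact intervalIntegral.integral_mono_interval (by linarith) hab (by linarith)
      (Filter.Eventually.of_forall fun _ => abs_nonneg _) hi
  have hIp := (restr _ hcp0).trans hIp0
  have hIm := (restr _ hcm0).trans hIm0
  -- the pointwise bound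
  have eFp : ∫ x, Fp x = s * ∫ x, bu (-ν) (1 + ν) ν x := by
    rw [hFp, Measure.integral_comp_div (fun x => bu (-ν) (1 + ν) ν x) s, abs_of_pos hs0,
      smul_eq_mul]
  have eFm : ∫ x, Fm x = s * ∫ x, bu 0 1 ν x := by
    rw [hFm, Measure.integral_comp_div (fun x => bu 0 1 ν x) s, abs_of_pos hs0, smul_eq_mul]
  have b1 : ∫ x, bu (-ν) (1 + ν) ν x ≤ 1 + 2 * ν := by
    have := bu_int_le (p := -ν) (q := 1 + ν) hν (by linarith)
    linarith
  have b2 : 1 - 2 * ν ≤ ∫ x, bu 0 1 ν x := by
    have := bu_int_ge (p := 0) (q := 1) hν (by linarith)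
    linarith
  have hsL : 0 ≤ s * L / (2 * Real.pi) := by positivity
  have hpt : ∀ t ∈ Icc a b, |cnG G T t (t + s) - s * L / (2 * Real.pi)| ≤
      |XG G Fp T t| + |XG G Fm T t| + s * L / (2 * Real.pi) * (2 * ν) := by
    intro t ht
    have ht1 : T + 1 ≤ t := by linarith [ht.1]
    have ht2 : t ≤ 2 * T - 1 := by linarith [ht.2]
    have xp := XG_eq hG hadp.c2 (U1 := T) (U2 := 2 * T) (T := T) (t := t) (by linarith) ht1 ht2
    have xm := XG_eq hG hadm.c2 (U1 := T) (U2 := 2 * T) (T := T) (t := t) (by linarith) ht1 ht2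
    have cp : cnG G T t (t + s) ≤
        ∑ z ∈ H370.Zf G T (2 * T), (H370.mult G z : ℝ) * Fp (z.im - t) := by
      unfold cnG
      refine Finset.sum_le_sum fun z _ => mul_le_mul_of_nonneg_left ?_ (Nat.cast_nonneg _)
      by_cases hz : z.im ∈ Ioc t (t + s)
      · rw [indicator_of_mem hz, hFp]
        simp only
        rw [bu_one hν]
        · have : 0 ≤ (z.im - t) / s := div_nonneg (by linarith [hz.1]) hs0.le
          linarith
        · have : (z.im - t) / s ≤ 1 := (div_le_one hs0).2 (by linarith [hz.2])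
          linarith
      · rw [indicator_of_notMem hz]
        exact bu_nonneg _ _ _ _
    have cm : ∑ z ∈ H370.Zf G T (2 * T), (H370.mult G z : ℝ) * Fm (z.im - t) ≤
        cnG G T t (t + s) := by
      unfold cnG
      refine Finset.sum_le_sum fun z _ => mul_le_mul_of_nonneg_left ?_ (Nat.cast_nonneg _)
      by_cases hz : z.im ∈ Ioc t (t + s)
      · rw [indicator_of_mem hz]
        exact bu_le _ _ _ _
      · rw [indicator_of_notMem hz, hFm]
        simp only
        rw [mem_Ioc, not_and_or, not_lt, not_le] at hz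
        rcases hz with hz | hz
        · exact (bu_left hν (div_nonpos_of_nonpos_of_nonneg (by linarith) hs0.le)).le
        · exact (bu_right hν ((one_le_div hs0).2 (by linarith))).le
    rw [← hLdef] at xp xm
    have e1 : L / (2 * Real.pi) * ∫ x : ℝ, Fp x ≤
        s * L / (2 * Real.pi) + s * L / (2 * Real.pi) * (2 * ν) := by
      rw [eFp]
      have := mul_le_mul_of_nonneg_left b1 hsL
      calc L / (2 * Real.pi) * (s * ∫ x, bu (-ν) (1 + ν) ν x) =
          s * L / (2 * Real.pi) * ∫ x, bu (-ν) (1 + ν) ν x := by ring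
        _ ≤ s * L / (2 * Real.pi) * (1 + 2 * ν) := this
        _ = _ := by ring
    have e2 : s * L / (2 * Real.pi) - s * L / (2 * Real.pi) * (2 * ν) ≤
        L / (2 * Real.pi) * ∫ x : ℝ, Fm x := by
      rw [eFm]
      have := mul_le_mul_of_nonneg_left b2 hsL
      calc s * L / (2 * Real.pi) - s * L / (2 * Real.pi) * (2 * ν) =
          s * L / (2 * Real.pi) * (1 - 2 * ν) := by ring
        _ ≤ s * L / (2 * Real.pi) * ∫ x, bu 0 1 ν x := this
        _ = _ := by ring
    rw [abs_le]
    have q1 := le_abs_self (XG G Fp T t)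
    have q2 := neg_abs_le (XG G Fm T t)
    have q3 := abs_nonneg (XG G Fp T t)
    have q4 := abs_nonneg (XG G Fm T t)
    constructor
    · linarith
    · linarith
  -- the integral
  have hcp : ContinuousOn (XG G Fp T) (uIcc a b) := by
    rw [uIcc_of_le hab]; exact hcp0.mono hsubI
  have hcm : ContinuousOn (XG G Fm T) (uIcc a b) := by
    rw [uIcc_of_le hab]; exact hcm0.mono hsubI
  have ip : IntervalIntegrable (fun t => |XG G Fp T t|) volume a b := hcp.abs.intervalIntegrable
  have im : IntervalIntegrable (fun t => |XG G Fm T t|) volume a b := hcm.abs.intervalIntegrable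
  have ic : IntervalIntegrable (fun _ : ℝ => s * L / (2 * Real.pi) * (2 * ν)) volume a b :=
    intervalIntegrable_const
  have hRHS : ∫ t in a..b, (|XG G Fp T t| + |XG G Fm T t| + s * L / (2 * Real.pi) * (2 * ν)) ≤
      ε * s * L * T := by
    have e1 : ∫ t in a..b, (|XG G Fp T t| + |XG G Fm T t| + s * L / (2 * Real.pi) * (2 * ν)) =
        (∫ t in a..b, |XG G Fp T t|) + (∫ t in a..b, |XG G Fm T t|) +
          (b - a) * (s * L / (2 * Real.pi) * (2 * ν)) := by
      rw [intervalIntegral.integral_add (ip.add im) ic, intervalIntegral.integral_add ip im,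
        intervalIntegral.integral_const, smul_eq_mul]
    rw [e1]
    have e2 : (b - a) * (s * L / (2 * Real.pi) * (2 * ν)) ≤ T * (s * L * (ε / 2)) := by
      have h1 : b - a ≤ T := by linarith
      have h2 : s * L / (2 * Real.pi) * (2 * ν) ≤ s * L * (ε / 2) := by
        have h3 : s * L / (2 * Real.pi) ≤ s * L := by
          refine div_le_self (by positivity) ?_
          have := Real.pi_gt_three
          linarith
        have h4 : 2 * ν ≤ ε / 2 := by linarith
        exact mul_le_mul h3 h4 (by positivity) (by positivity)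
      exact mul_le_mul h1 h2 (by positivity) hT0.le
    have e3 : Cp * T + Cm * T ≤ T * (s * L * (ε / 2)) := by
      have h1 : D ≤ s * L * (ε / 2) := by
        have h2 : 2 * D / ε ≤ s * L := hK3.trans hs1
        rw [div_le_iff₀ hε] at h2
        linarith
      calc Cp * T + Cm * T = T * D := by rw [hD]; ring
        _ ≤ T * (s * L * (ε / 2)) := mul_le_mul_of_nonneg_left h1 hT0.le
    calc _ ≤ Cp * T + Cm * T + T * (s * L * (ε / 2)) := by
          linarith
      _ ≤ T * (s * L * (ε / 2)) + T * (s * L * (ε / 2)) := by linarith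
      _ = ε * s * L * T := by ring
  by_cases hI : IntervalIntegrable (fun t => |cnG G T t (t + s) - s * L / (2 * Real.pi)|) volume a b
  · exact (intervalIntegral.integral_mono_on hab hI ((ip.add im).add ic) hpt).trans hRHS
  · rw [intervalIntegral.integral_undef hI]
    positivity

end Pool.Agent.H203.GE
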