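import Pool.Agent.H203.GE.Defs2

open MeasureTheory Set Filter Topology

namespace Pool.Agent.H203.GE

namespace MARL

lemma mar : S_MAR := by
  intro n T hT ν hν hsup i f C hf0 hfm hfi
  cases n with
  | zero => exact i.elim0
  | succ n =>
    have hmp := measurePreserving_piFinSuccAbove (fun j => ν j) i
    set e := MeasurableEquiv.piFinSuccAbove (fun _ : Fin (n + 1) => ℝ) i with he
    set ρ := Measure.pi (fun j : Fin n => ν (i.succAbove j)) with hρ
    have hmps : MeasurePreserving e.symm ((ν i).prod ρ) (Measure.pi ν) := hmp.symm e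
    have hFm : AEStronglyMeasurable (fun p : ℝ × (Fin n → ℝ) => f (e.symm p)) ((ν i).prod ρ) :=
      hfm.comp_measurePreserving hmps
    have hes : ∀ (s : ℝ) (r : Fin n → ℝ), e.symm (s, r) = i.insertNth s r := fun s r => rfl
    have hr : ∀ᵐ r ∂ρ, ∀ j, T ≤ r j ∧ r j ≤ 2 * T := by
      rw [ae_all_iff]
      intro j
      have h1 : ∀ᵐ x ∂(ν (i.succAbove j)), x ∈ Icc T (2 * T) := by
        rw [ae_iff]
        exact hsup _
      have h2 := (measurePreserving_eval (fun j : Fin n => ν (i.succAbove j)) j).quasiMeasurePreserving.ae h1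
      exact h2
    have hT2 : T ≤ T ∧ T ≤ 2 * T := ⟨le_refl _, by linarith⟩
    have key : ∀ r : Fin n → ℝ, (∀ j, T ≤ r j ∧ r j ≤ 2 * T) →
        Integrable (fun s => f (e.symm (s, r))) (ν i) ∧ ∫ s, f (e.symm (s, r)) ∂(ν i) ≤ C := by
      intro r hr
      have hb : (i.insertNth T r : Fin (n + 1) → ℝ) ∈ Bx (n + 1) T := by
        intro j
        refine Fin.succAboveCases i ?_ ?_ j
        · simpa using hT2
        · intro k
          simpa using hr k
      have hu : ∀ s, Function.update (i.insertNth T r : Fin (n + 1) → ℝ) i s = e.symm (s, r) := by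
        intro s
        rw [hes]
        exact Fin.update_insertNth (α := fun _ => ℝ) i T s r
      have h := hfi _ hb
      simp only [hu] at h
      exact h
    have hn : ∀ p, ‖f (e.symm p)‖ = f (e.symm p) := fun p => by rw [Real.norm_eq_abs, abs_of_nonneg (hf0 _)]
    have hI : Integrable (fun p : ℝ × (Fin n → ℝ) => f (e.symm p)) ((ν i).prod ρ) := by
      rw [integrable_prod_iff' hFm]
      constructor
      · filter_upwards [hr] with r hr
        exact (key r hr).1
      · simp only [hn]
        refine Integrable.mono' (integrable_const C) ?_ ?_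
        · exact hFm.prod_swap.integral_prod_right'
        · filter_upwards [hr] with r hr
          rw [Real.norm_eq_abs, abs_of_nonneg (integral_nonneg fun s => hf0 _)]
          exact (key r hr).2
    constructor
    · have h := (hmps.integrable_comp_emb e.symm.measurableEmbedding (g := f)).1 hI
      exact h
    · have h1 : ∫ t, f t ∂(Measure.pi ν) = ∫ p, f (e.symm p) ∂((ν i).prod ρ) :=
        (hmps.integral_comp e.symm.measurableEmbedding f).symm
      rw [h1, integral_prod_symm _ hI]
      calc ∫ r, ∫ s, f (e.symm (s, r)) ∂(ν i) ∂ρ ≤ ∫ r, C ∂ρ := by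
            apply integral_mono_ae hI.integral_prod_right (integrable_const C)
            filter_upwards [hr] with r hr
            exact (key r hr).2
        _ = C := by simp

end MARL

theorem t_MAR : S_MAR := MARL.mar

end Pool.Agent.H203.GE
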