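import Pool.Agent.H203.GE.Defs2

set_option autoImplicit false

/-! Monomials in the prime phases for several independent parameters. -/

open Complex Filter Topology Set MeasureTheory

namespace Pool.Agent.H203.GE

open Pool.Agent.H203.ME

namespace MOVL

theorem ee_norm (p : ℕ) (x : ℝ) : ‖ee p x‖ = 1 := by
  unfold ee
  have h : (-(((x * Real.log p : ℝ) : ℂ) * I)).re = 0 := by
    rw [Complex.neg_re, Complex.re_ofReal_mul, Complex.I_re, mul_zero, neg_zero]
  rw [Complex.norm_exp, h, Real.exp_zero]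

open Classical in
/-- indicator -/
noncomputable def ind (p : Prop) : ℂ := if p then 1 else 0

theorem ite_eq_ind (p : Prop) [Decidable p] : (if p then (1 : ℂ) else 0) = ind p := by
  unfold ind
  by_cases h : p
  · rw [if_pos h, if_pos h]
  · rw [if_neg h, if_neg h]

theorem ee_add (p : ℕ) (x y : ℝ) : ee p (x + y) = ee p x * ee p y := by
  unfold ee
  rw [← Complex.exp_add]
  congr 1
  push_cast
  ring

theorem ee_zero (p : ℕ) : ee p 0 = 1 := by
  unfold ee
  simp

theorem ee_sum {κ : Type} (p : ℕ) (s : Finset κ) (f : κ → ℝ) :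
    ee p (∑ a ∈ s, f a) = ∏ a ∈ s, ee p (f a) := by
  classical
  induction s using Finset.induction_on with
  | empty => simp [ee_zero]
  | insert a s ha ih => rw [Finset.sum_insert ha, Finset.prod_insert ha, ee_add, ih]

theorem prod_sub_prod {κ : Type} (s : Finset κ) (z w : κ → ℂ) (hz : ∀ a ∈ s, ‖z a‖ ≤ 1)
    (hw : ∀ a ∈ s, ‖w a‖ ≤ 1) : ‖∏ a ∈ s, z a - ∏ a ∈ s, w a‖ ≤ ∑ a ∈ s, ‖z a - w a‖ := by
  classical
  induction s using Finset.induction_on with
  | empty => simp
  | insert a s ha ih =>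
    rw [Finset.prod_insert ha, Finset.prod_insert ha, Finset.sum_insert ha]
    have h1 : z a * ∏ b ∈ s, z b - w a * ∏ b ∈ s, w b =
        (z a - w a) * ∏ b ∈ s, z b + w a * (∏ b ∈ s, z b - ∏ b ∈ s, w b) := by ring
    have h2 := ih (fun b hb => hz b (Finset.mem_insert_of_mem hb))
      (fun b hb => hw b (Finset.mem_insert_of_mem hb))
    have h3 : ‖∏ b ∈ s, z b‖ ≤ 1 := by
      rw [norm_prod]
      exact Finset.prod_le_one (fun b _ => norm_nonneg _)
        fun b hb => hz b (Finset.mem_insert_of_mem hb)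
    have h4 := hw a (Finset.mem_insert_self a s)
    rw [h1]
    refine (norm_add_le _ _).trans ?_
    rw [norm_mul, norm_mul]
    refine add_le_add ?_ ?_
    · calc ‖z a - w a‖ * ‖∏ b ∈ s, z b‖ ≤ ‖z a - w a‖ * 1 :=
            mul_le_mul_of_nonneg_left h3 (norm_nonneg _)
        _ = _ := mul_one _
    · calc ‖w a‖ * ‖∏ b ∈ s, z b - ∏ b ∈ s, w b‖ ≤ 1 * ‖∏ b ∈ s, z b - ∏ b ∈ s, w b‖ :=
            mul_le_mul_of_nonneg_right h4 (norm_nonneg _)
        _ ≤ _ := by rw [one_mul]; exact h2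

theorem mT_prob {T : ℝ} (hT : 0 < T) : IsProbabilityMeasure (mT T) := by
  constructor
  unfold mT
  rw [Measure.smul_apply, Measure.restrict_apply MeasurableSet.univ, univ_inter, Real.volume_Ioc,
    smul_eq_mul]
  have h1 : 2 * T - T = T := by ring
  rw [h1]
  exact ENNReal.inv_mul_cancel (by simpa using hT) ENNReal.ofReal_ne_top

end MOVL

open MOVL

theorem t_MOV (hM : S_MOR) : S_MOV := by
  classical
  intro n D e he hmono c hc M B
  obtain ⟨κ, σ, T0, hκ, hσ, hT0, h⟩ := hM D e he hmono c hc M B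
  refine ⟨κ, σ / 2, max T0 (((n : ℝ) + 1) ^ (2 / σ)), hκ, by positivity, le_max_of_le_left hT0,
    fun T hT N hN => ?_⟩
  have hT1 : T0 ≤ T := (le_max_left _ _).trans hT
  have hTn : ((n : ℝ) + 1) ^ (2 / σ) ≤ T := (le_max_right _ _).trans hT
  have hTpos : 0 < T := lt_of_lt_of_le one_pos (hT0.trans hT1)
  have hprob : IsProbabilityMeasure (mT T) := mT_prob hTpos
  have key := h T hT1 N hN
  intro m hm β hβ x hx
  -- the integrand is a product
  have e1 : ∀ t : Fin n → ℝ,
      (∏ i, ee (x i) (∑ d : Fin n × Fin D, (β i d : ℝ) * (c * (t d.1) ^ (e d.2)))) =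
      ∏ a, (fun s : ℝ => ∏ i, ee (x i) (∑ b : Fin D, (β i (a, b) : ℝ) * (c * s ^ (e b)))) (t a) := by
    intro t
    rw [Finset.prod_comm]
    refine Finset.prod_congr rfl fun i _ => ?_
    rw [Fintype.sum_prod_type, ee_sum]
  simp only [e1]
  rw [integral_fintype_prod_eq_prod (μ := fun _ : Fin n => mT T)
    (f := fun (a : Fin n) (s : ℝ) => ∏ i, ee (x i) (∑ b : Fin D, (β i (a, b) : ℝ) * (c * s ^ (e b))))]
  -- the indicator is a product
  have e2 : ind (∀ (d : Fin n × Fin D) (p : ℕ), ∑ i, (if x i = p then β i d else 0) = 0) =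
      ∏ a : Fin n, ind (∀ (b : Fin D) (p : ℕ), ∑ i, (if x i = p then β i (a, b) else 0) = 0) := by
    unfold ind
    by_cases hall : ∀ (d : Fin n × Fin D) (p : ℕ), ∑ i, (if x i = p then β i d else 0) = 0
    · rw [if_pos hall]
      symm
      refine Finset.prod_eq_one fun a _ => ?_
      rw [if_pos fun b p => hall (a, b) p]
    · rw [if_neg hall]
      symm
      push Not at hall
      obtain ⟨⟨a, b⟩, p, hp⟩ := hall
      refine Finset.prod_eq_zero (Finset.mem_univ a) ?_
      rw [if_neg fun hcon => hp (hcon b p)]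
  rw [ite_eq_ind, e2]
  have hn1 : ∀ a : Fin n, ‖∫ s, ∏ i, ee (x i) (∑ b : Fin D, (β i (a, b) : ℝ) * (c * s ^ (e b)))
      ∂(mT T)‖ ≤ 1 := by
    intro a
    have h1 := norm_integral_le_of_norm_le_const (μ := mT T) (C := 1)
      (f := fun s : ℝ => ∏ i, ee (x i) (∑ b : Fin D, (β i (a, b) : ℝ) * (c * s ^ (e b))))
      (Eventually.of_forall fun s => by
        rw [norm_prod]
        exact (Finset.prod_eq_one fun i _ => ee_norm _ _).le)
    simpa using h1
  have hn2 : ∀ a : Fin n,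
      ‖ind (∀ (b : Fin D) (p : ℕ), ∑ i, (if x i = p then β i (a, b) else 0) = 0)‖ ≤ 1 := by
    intro a
    unfold ind
    split_ifs <;> simp
  refine (prod_sub_prod Finset.univ _ _ (fun a _ => hn1 a) (fun a _ => hn2 a)).trans ?_
  have h3 : ∀ a ∈ (Finset.univ : Finset (Fin n)),
      ‖(∫ s, ∏ i, ee (x i) (∑ b : Fin D, (β i (a, b) : ℝ) * (c * s ^ (e b))) ∂(mT T)) -
        ind (∀ (b : Fin D) (p : ℕ), ∑ i, (if x i = p then β i (a, b) else 0) = 0)‖ ≤
        T ^ (-σ) := by
    intro a _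
    have h5 := key m hm (fun i b => β i (a, b)) (fun i b => hβ i (a, b)) x hx
    rw [ite_eq_ind] at h5
    exact h5
  refine (Finset.sum_le_sum h3).trans ?_
  rw [Finset.sum_const, Finset.card_univ, Fintype.card_fin, nsmul_eq_mul]
  have h4 : (n : ℝ) ≤ T ^ (σ / 2) := by
    calc (n : ℝ) ≤ (n : ℝ) + 1 := by linarith
      _ = (((n : ℝ) + 1) ^ (2 / σ)) ^ (σ / 2) := by
          rw [← Real.rpow_mul (by positivity)]
          have : 2 / σ * (σ / 2) = 1 := by field_simp
          rw [this, Real.rpow_one]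
      _ ≤ T ^ (σ / 2) := Real.rpow_le_rpow (by positivity) hTn (by positivity)
  calc (n : ℝ) * T ^ (-σ) ≤ T ^ (σ / 2) * T ^ (-σ) :=
        mul_le_mul_of_nonneg_right h4 (Real.rpow_nonneg hTpos.le _)
    _ = T ^ (-(σ / 2)) := by
        rw [← Real.rpow_add hTpos]
        congr 1
        ring

end Pool.Agent.H203.GE
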