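import Pool.Agent.H203.GE.Defs2

set_option autoImplicit false

/-! From random zeros to random real numbers, several independent parameters. -/

open Complex Filter Topology Set MeasureTheory

namespace Pool.Agent.H203.GE

open Pool.Agent.H203.ME

namespace TRNL

theorem ae_box {n : ℕ} (T : ℝ) (μ : Fin n → Measure ℝ) [∀ i, IsProbabilityMeasure (μ i)]
    (h0 : ∀ i, μ i (Icc T (2 * T))ᶜ = 0) : ∀ᵐ t ∂(Measure.pi μ), t ∈ Bx n T := by
  have h1 : ∀ i, ∀ᵐ t ∂(Measure.pi μ), T ≤ t i ∧ t i ≤ 2 * T := by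
    intro i
    have h2 : ∀ᵐ x ∂(μ i), T ≤ x ∧ x ≤ 2 * T := by
      rw [ae_iff]
      exact h0 i
    exact (Measure.tendsto_eval_ae_ae (μ := μ) (i := i)).eventually h2
  exact ae_all_iff.2 h1

theorem Bx_meas (n : ℕ) (T : ℝ) : MeasurableSet (Bx n T) := by
  have : Bx n T = ⋂ i, (fun t : Fin n → ℝ => t i) ⁻¹' (Icc T (2 * T)) := by
    ext t
    simp only [Bx, mem_ofPred_eq, mem_iInter, mem_preimage, mem_Icc]
  rw [this]
  exact MeasurableSet.iInter fun i => measurable_pi_apply i measurableSet_Icc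

theorem integ {n : ℕ} (T : ℝ) (μ : Fin n → Measure ℝ) [∀ i, IsProbabilityMeasure (μ i)]
    (h0 : ∀ i, μ i (Icc T (2 * T))ᶜ = 0) (Φ : (Fin n → ℝ) → ℂ) (hΦ : ∀ t, ‖Φ t‖ ≤ 1)
    (hc : ContinuousOn Φ (Bx n T)) : Integrable Φ (Measure.pi μ) := by
  refine Integrable.of_bound ?_ 1 (Eventually.of_forall hΦ)
  have h1 := hc.aestronglyMeasurable (μ := Measure.pi μ) (Bx_meas n T)
  rwa [Measure.restrict_eq_self_of_ae_mem (ae_box T μ h0)] at h1

theorem fub {m : ℕ} (i : Fin (m + 1)) (μ : Fin (m + 1) → Measure ℝ) [∀ i, IsProbabilityMeasure (μ i)]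
    (Φ : (Fin (m + 1) → ℝ) → ℂ) (hI : Integrable Φ (Measure.pi μ)) :
    ∫ t, Φ t ∂(Measure.pi μ) =
      ∫ t', (∫ s, Φ (i.insertNth s t') ∂(μ i)) ∂(Measure.pi fun j => μ (i.succAbove j)) ∧
    Integrable (fun t' : Fin m → ℝ => ∫ s, Φ (i.insertNth s t') ∂(μ i))
      (Measure.pi fun j => μ (i.succAbove j)) := by
  have hmp := (measurePreserving_piFinSuccAbove μ i).symm
  have h1 := hmp.integral_comp' Φ
  have hI2 : Integrable (fun p : ℝ × (Fin m → ℝ) => Φ (i.insertNth p.1 p.2))
      ((μ i).prod (Measure.pi fun j => μ (i.succAbove j))) :=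
    (hmp.integrable_comp_emb (MeasurableEquiv.measurableEmbedding _)).2 hI
  constructor
  · rw [← h1]
    exact integral_prod_symm (fun p : ℝ × (Fin m → ℝ) => Φ (i.insertNth p.1 p.2)) hI2
  · exact hI2.integral_prod_right

theorem step {m : ℕ} (i : Fin (m + 1)) (T : ℝ) (hT : 0 < T) (μ μ' : Fin (m + 1) → Measure ℝ)
    (hμ : ∀ i, IsProbabilityMeasure (μ i)) (hμ' : ∀ i, IsProbabilityMeasure (μ' i))
    (h0 : ∀ i, μ i (Icc T (2 * T))ᶜ = 0) (h0' : ∀ i, μ' i (Icc T (2 * T))ᶜ = 0)
    (hsame : ∀ j, j ≠ i → μ' j = μ j) (Φ : (Fin (m + 1) → ℝ) → ℂ) (hΦ : ∀ t, ‖Φ t‖ ≤ 1)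
    (hc : ContinuousOn Φ (Bx (m + 1) T)) (C : ℝ)
    (hC : ∀ t ∈ Bx (m + 1) T, ‖(∫ s, Φ (Function.update t i s) ∂(μ' i)) -
      ∫ s, Φ (Function.update t i s) ∂(μ i)‖ ≤ C) :
    ‖(∫ t, Φ t ∂(Measure.pi μ')) - ∫ t, Φ t ∂(Measure.pi μ)‖ ≤ C := by
  obtain ⟨f1, g1⟩ := fub i μ Φ (integ T μ h0 Φ hΦ hc)
  obtain ⟨f2, g2⟩ := fub i μ' Φ (integ T μ' h0' Φ hΦ hc)
  have he : (fun j => μ' (i.succAbove j)) = fun j => μ (i.succAbove j) := by
    funext j
    exact hsame _ (Fin.succAbove_ne i j)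
  rw [he] at f2 g2
  rw [f1, f2, ← integral_sub g2 g1]
  have hb := ae_box T (fun j => μ (i.succAbove j)) (fun j => h0 _)
  refine (norm_integral_le_of_norm_le_const (C := C) ?_).trans (le_of_eq ?_)
  · filter_upwards [hb] with t' ht'
    have ht : i.insertNth T t' ∈ Bx (m + 1) T := by
      intro j
      rcases eq_or_ne j i with h | h
      · subst h
        have e : (j.insertNth T t' : Fin (m + 1) → ℝ) j = T := Fin.insertNth_apply_same _ _ _
        rw [e]
        exact ⟨le_rfl, by linarith⟩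
      · obtain ⟨l, rfl⟩ := Fin.exists_succAbove_eq h
        have e : (i.insertNth T t' : Fin (m + 1) → ℝ) (i.succAbove l) = t' l :=
          Fin.insertNth_apply_succAbove _ _ _ _
        rw [e]
        exact ht' l
    have h1 := hC _ ht
    have e : ∀ s : ℝ, Function.update (i.insertNth T t' : Fin (m + 1) → ℝ) i s = i.insertNth s t' := by
      intro s
      exact Fin.update_insertNth _ _ _ _
    simp_rw [e] at h1
    exact h1
  · simp

theorem mT_prob (T : ℝ) (hT : 0 < T) : IsProbabilityMeasure (mT T) := by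
  constructor
  unfold mT
  rw [Measure.smul_apply, Measure.restrict_apply_univ, Real.volume_Ioc, smul_eq_mul,
    show 2 * T - T = T by ring]
  exact ENNReal.inv_mul_cancel (by simpa using hT) ENNReal.ofReal_ne_top

theorem mT_supp (T : ℝ) : mT T (Icc T (2 * T))ᶜ = 0 := by
  unfold mT
  rw [Measure.smul_apply, Measure.restrict_apply measurableSet_Icc.compl]
  have : (Icc T (2 * T))ᶜ ∩ Ioc T (2 * T) = ∅ := by
    ext x
    simp only [mem_inter_iff, mem_compl_iff, mem_Icc, mem_Ioc, mem_empty_iff_false, iff_false]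
    rintro ⟨h1, h2, h3⟩
    exact h1 ⟨h2.le, h3⟩
  rw [this, measure_empty, smul_zero]

end TRNL

open TRNL in
theorem t_TRN (hT : S_TRG) : S_TRN := by
  intro n G u hG ε hε
  choose Kf Tf hK1 hT10 hTRG using fun i => hT (G i) (u i) (hG i) ε hε
  obtain ⟨K, hK⟩ : ∃ K : ℝ, ∀ i, Kf i ≤ K := by
    obtain ⟨K, hK⟩ := (Set.finite_range Kf).bddAbove
    exact ⟨K, fun i => hK (Set.mem_range_self i)⟩
  obtain ⟨T1, hT1⟩ : ∃ T1 : ℝ, ∀ i, Tf i ≤ T1 := by
    obtain ⟨K, hK⟩ := (Set.finite_range Tf).bddAbove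
    exact ⟨K, fun i => hK (Set.mem_range_self i)⟩
  refine ⟨max K 1, max T1 10, le_max_right _ _, le_max_right _ _, ?_⟩
  intro T hTT w hw1 hw2 ν hν Φ W Λ hΦ hΦc hWc hW0 hΦW hΛ
  have hT10' : 10 ≤ T := (le_max_right _ _).trans hTT
  have hTpos : 0 < T := by linarith
  have hmTp := mT_prob T hTpos
  have hlog : 0 < Real.log T := Real.log_pos (by linarith)
  have hw : 0 < w := by
    have h1 : 1 ≤ w * Real.log T := (le_max_right _ _).trans hw1
    by_contra h
    push Not at h
    nlinarith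
  -- the data of (TRG)
  have hdat : ∀ i, IsProbabilityMeasure (mZ (G i) T) ∧ mZ (G i) T (Icc T (2 * T))ᶜ = 0 ∧
      ∀ (φ : ℝ → ℂ) (V : ℝ → ℝ), (∀ t, ‖φ t‖ ≤ 1) → ContinuousOn φ (Icc T (2 * T)) →
        ContinuousOn V (Icc T (2 * T)) → (∀ t, 0 ≤ V t) →
        (∀ x y : ℝ, T ≤ x → x ≤ y → y ≤ 2 * T → ‖φ y - φ x‖ ≤ ∫ r in x..y, V r) →
        ‖(∫ t, φ t ∂(mZ (G i) T)) - ∫ t, φ t ∂(mT T)‖ ≤ ε + 2 * w * (1 / T * ∫ r in T..(2 * T), V r) := by
    intro i
    obtain ⟨h1, h2, h3⟩ := hTRG i T ((hT1 i).trans ((le_max_left _ _).trans hTT))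
    refine ⟨h1, h2, h3 w ((hK i).trans ((le_max_left _ _).trans hw1)) (hw2.trans ?_)⟩
    have h4 : 0 < Kf i := by
      have := hK1 i
      linarith
    exact one_div_le_one_div_of_le h4 ((hK i).trans (le_max_left _ _))
  have hνp : ∀ i, IsProbabilityMeasure (ν i) := by
    intro i
    rcases hν i with h | h
    · rw [h]
      exact hmTp
    · rw [h]
      exact (hdat i).1
  have hν0 : ∀ i, ν i (Icc T (2 * T))ᶜ = 0 := by
    intro i
    rcases hν i with h | h
    · rw [h]
      exact mT_supp T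
    · rw [h]
      exact (hdat i).2.1
  have hupd : ∀ (i : Fin n) (t : Fin n → ℝ), t ∈ Bx n T → ∀ s, T ≤ s → s ≤ 2 * T →
      Function.update t i s ∈ Bx n T := by
    intro i t ht s h1 h2 j
    rcases eq_or_ne j i with h | h
    · subst h
      rw [Function.update_self]
      exact ⟨h1, h2⟩
    · rw [Function.update_of_ne h]
      exact ht j
  -- one variable
  have hone : ∀ i, ∀ t ∈ Bx n T, ‖(∫ s, Φ (Function.update t i s) ∂(ν i)) -
      ∫ s, Φ (Function.update t i s) ∂(mT T)‖ ≤ ε + 2 * w * Λ := by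
    intro i t ht
    have hcu : Continuous fun s : ℝ => Function.update t i s := continuous_const.update i continuous_id
    have hmaps : MapsTo (fun s : ℝ => Function.update t i s) (Icc T (2 * T)) (Bx n T) :=
      fun s hs => hupd i t ht s hs.1 hs.2
    have hL := hΛ i t ht
    have hΛ0 : 0 ≤ Λ := by
      refine le_trans ?_ hL
      refine mul_nonneg (by positivity) (intervalIntegral.integral_nonneg (by linarith) fun r _ => hW0 i _)
    rcases hν i with h | h
    · rw [h, sub_self, norm_zero]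
      positivity
    · rw [h]
      refine ((hdat i).2.2 (fun s => Φ (Function.update t i s)) (fun s => W i (Function.update t i s))
        (fun s => hΦ _) (hΦc.comp hcu.continuousOn hmaps) ((hWc i).comp hcu.continuousOn hmaps)
        (fun s => hW0 i _) (hΦW i t ht)).trans ?_
      have := mul_le_mul_of_nonneg_left hL (show 0 ≤ 2 * w by positivity)
      linarith
  -- the hybrid measures
  have hhyb : ∀ k : ℕ, k ≤ n → ‖(∫ t, Φ t ∂(Measure.pi fun i : Fin n => if (i : ℕ) < k then ν i else mT T)) -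
      ∫ t, Φ t ∂(Measure.pi (fun _ : Fin n => mT T))‖ ≤ k * (ε + 2 * w * Λ) := by
    intro k
    induction k with
    | zero =>
      intro _
      simp
    | succ k ih =>
      intro hk
      have ih' := ih (by omega)
      have hstep : ‖(∫ t, Φ t ∂(Measure.pi fun i : Fin n => if (i : ℕ) < k + 1 then ν i else mT T)) -
          ∫ t, Φ t ∂(Measure.pi fun i : Fin n => if (i : ℕ) < k then ν i else mT T)‖ ≤ ε + 2 * w * Λ := by
        obtain ⟨m, rfl⟩ : ∃ m, n = m + 1 := ⟨n - 1, by omega⟩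
        refine step ⟨k, by omega⟩ T hTpos _ _ ?_ ?_ ?_ ?_ ?_ Φ hΦ hΦc _ ?_
        · intro i
          split_ifs
          · exact hνp i
          · exact hmTp
        · intro i
          split_ifs
          · exact hνp i
          · exact hmTp
        · intro i
          split_ifs
          · exact hν0 i
          · exact mT_supp T
        · intro i
          split_ifs
          · exact hν0 i
          · exact mT_supp T
        · intro j hj
          have hjk : (j : ℕ) ≠ k := fun h => hj (Fin.ext h)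
          by_cases h1 : (j : ℕ) < k
          · rw [if_pos h1, if_pos (by omega)]
          · rw [if_neg h1, if_neg (by omega)]
        · intro t ht
          have e1 : (if ((⟨k, by omega⟩ : Fin (m + 1)) : ℕ) < k + 1 then ν ⟨k, by omega⟩ else mT T) = ν ⟨k, by omega⟩ :=
            if_pos (Nat.lt_succ_self k)
          have e2 : (if ((⟨k, by omega⟩ : Fin (m + 1)) : ℕ) < k then ν ⟨k, by omega⟩ else mT T) = mT T :=
            if_neg (lt_irrefl k)
          rw [e1, e2]
          exact hone _ t ht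
      have htri := norm_sub_le_norm_sub_add_norm_sub
        (∫ t, Φ t ∂(Measure.pi fun i : Fin n => if (i : ℕ) < k + 1 then ν i else mT T))
        (∫ t, Φ t ∂(Measure.pi fun i : Fin n => if (i : ℕ) < k then ν i else mT T))
        (∫ t, Φ t ∂(Measure.pi (fun _ : Fin n => mT T)))
      push_cast
      linarith
  have hfin := hhyb n le_rfl
  have e : (fun i : Fin n => if (i : ℕ) < n then ν i else mT T) = ν := by
    funext i
    exact if_pos i.2
  rwa [e] at hfin

end Pool.Agent.H203.GE
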