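import Pool.Agent.H203.GE.ENF
import Pool.Agent.H203.GE.OSR
import Pool.Agent.H203.GE.MOR
import Pool.Agent.H203.GE.MOV
import Pool.Agent.H203.GE.CVR
import Pool.Agent.H203.GE.MAR
import Pool.Agent.H203.GE.APN
import Pool.Agent.H203.GE.L1G
import Pool.Agent.H203.GE.LLG
import Pool.Agent.H203.GE.TRG
import Pool.Agent.H203.GE.TRN
import Pool.Agent.H203.GE.HTP
import Pool.Agent.H203.GE.HTL
import Pool.Agent.H203.GE.PRM
import Pool.Agent.H203.GE.AP
import Pool.Agent.H203.GE.BBI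
import Pool.Agent.H203.GE.EFW

set_option autoImplicit false

/-! The laws of the families of linear statistics. -/

open Complex Filter Topology Set MeasureTheory ProbabilityTheory
open scoped BoundedContinuousFunction RealInnerProductSpace

namespace Pool.Agent.H203.GE

open Pool.Agent.H203.ME hiding S_EFW S_BBI S_APX S_PRM XF_eq Zf_symm Z_eq point_diff t_BBI t_EFW t_APX t_PRM

theorem p_AP : S_AP := t_AP (t_APX t_EFW t_BBI) t_PRM t_BBI

theorem p_APN : S_APN := t_APN p_AP t_CVR t_MAR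

theorem p_MOV : S_MOV := t_MOV (t_MOR t_OSR)

theorem p_L1G : S_L1G := t_L1G p_AP

theorem p_TRG : S_TRG := t_TRG (t_LLG p_L1G)

theorem p_TRN : S_TRN := t_TRN p_TRG

namespace ENGL

variable {k n D : ℕ}

lemma X_cont (d : Dt k n D) (ok : Ok d) : ∀ᶠ T in atTop, ContinuousOn (fun t => d.Xv T t) (Bx n T) := by
  obtain ⟨a, b, TH, ha, hab, hTH, hH⟩ := ok.ht
  choose V1 hV1 hadm1 using adm_ev' d ok
  choose C1 η2 T2 hC1 hη2 hη21 hT2 hl2 using fun j => p_L1G (d.G j) (d.u j) (lf d ok j) a b (V1 j) ha hab (hV1 j)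
  have hbig2 : ∀ j, ∀ᶠ T : ℝ in atTop, T2 j ≤ T ^ d.E j := fun j =>
    (tendsto_rpow_atTop (ok.Epos j)).eventually (eventually_ge_atTop _)
  filter_upwards [eventually_ge_atTop TH, eventually_all.2 hbig2, eventually_all.2 (fun j => hadm1 j (η2 j) (hη2 j))]
    with T a1 a2 a3
  have hT : 0 < T := by linarith
  have hlog : ∀ j, Real.log (T ^ d.E j) = d.E j * Real.log T := fun j => Real.log_rpow hT _
  have hL2 : ∀ j, ContinuousOn (XG (d.G j) (d.F j T) (T ^ d.E j)) (Icc (a * T ^ d.E j) (b * T ^ d.E j)) := fun j =>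
    (hl2 j (T ^ d.E j) (a2 j) (d.F j T) (by rw [hlog]; exact a3 j)).1
  unfold Dt.Xv
  refine (PiLp.continuous_toLp 2 _).comp_continuousOn ?_
  rw [continuousOn_pi]
  intro j
  exact (hL2 j).comp (hH T a1 j).cont.continuousOn (fun t ht => (hH T a1 j).maps t ht)

end ENGL

open ENGL

/-- uniform parameters -/
theorem lawA (hCLA : S_CLA) {k n D : ℕ} (d : Dt k n D) (ok : Ok d) (φ : EuclideanSpace ℝ (Fin k) →ᵇ ℝ) :
    Tendsto (fun T => ∫ t, φ (d.Xv T t) ∂(Measure.pi (fun _ : Fin n => mT T))) atTop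
      (𝓝 (∫ x, φ x ∂(multivariateGaussian 0 d.cM))) := by
  refine wk (cM_psd hCLA p_MOV p_APN d ok) (P := fun T => Measure.pi (fun _ : Fin n => mT T))
    (X := fun T t => d.Xv T t) ?_ ?_ ?_ φ
  · filter_upwards [eventually_gt_atTop (0 : ℝ)] with T hT
    have := mT_prob hT
    infer_instance
  · filter_upwards [eventually_gt_atTop (0 : ℝ), X_cont d ok] with T hT h1
    exact (aesm_Bx (fun _ => mT_prob hT) (fun _ => mT_supp T) h1).aemeasurable
  · exact fun v => eng1 hCLA p_MOV p_APN d ok v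

/-- some parameters are random zeros -/
theorem lawB (hCLA : S_CLA) {k n D : ℕ} (d : Dt k n D) (ok : Ok d) (h3 : ∀ j, ContDiff ℝ 3 (d.f j)) (hE : ∀ j, d.E j ≤ 1)
    (G' : Fin n → ℂ → ℂ) (u' : Fin n → ℕ → ℂ) (hG' : ∀ i, Lf (G' i) (u' i))
    (ν : Fin n → ℝ → Measure ℝ) (hν : ∀ i T, ν i T = mT T ∨ ν i T = mZ (G' i) T) (φ : EuclideanSpace ℝ (Fin k) →ᵇ ℝ) :
    Tendsto (fun T => ∫ t, φ (d.Xv T t) ∂(Measure.pi (fun i => ν i T))) atTop
      (𝓝 (∫ x, φ x ∂(multivariateGaussian 0 d.cM))) := by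
  have hz : ∀ i, ∃ T0 : ℝ, 10 ≤ T0 ∧ ∀ T : ℝ, T0 ≤ T → IsProbabilityMeasure (mZ (G' i) T) ∧
      mZ (G' i) T (Icc T (2 * T))ᶜ = 0 := by
    intro i
    obtain ⟨K, T0, hK, hT0, h⟩ := p_TRG (G' i) (u' i) (hG' i) 1 one_pos
    exact ⟨T0, hT0, fun T hT => ⟨(h T hT).1, (h T hT).2.1⟩⟩
  choose T0 hT0 hz using hz
  have hν' : ∀ᶠ T : ℝ in atTop, ∀ i, IsProbabilityMeasure (ν i T) ∧ ν i T (Icc T (2 * T))ᶜ = 0 := by
    rw [eventually_all]
    intro i
    filter_upwards [eventually_ge_atTop (T0 i), eventually_gt_atTop (0 : ℝ)] with T a1 a2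
    rcases hν i T with h | h
    · rw [h]; exact ⟨mT_prob a2, mT_supp T⟩
    · rw [h]; exact hz i T a1
  refine wk (cM_psd hCLA p_MOV p_APN d ok) (P := fun T => Measure.pi (fun i => ν i T))
    (X := fun T t => d.Xv T t) ?_ ?_ ?_ φ
  · filter_upwards [hν'] with T hT
    have := fun i => (hT i).1
    infer_instance
  · filter_upwards [hν', X_cont d ok] with T hT h1
    exact (aesm_Bx (fun i => (hT i).1) (fun i => (hT i).2) h1).aemeasurable
  · exact fun v => eng2 hCLA p_MOV p_APN t_CVR p_L1G p_TRN d ok h3 hE G' u' hG' ν hν v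

end Pool.Agent.H203.GE
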