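import Pool.Agent.H203.GE.ENH
import Pool.Agent.H203.GE.CLA

set_option autoImplicit false

/-! Conversion of the measures to averages. -/

open Complex Filter Topology Set MeasureTheory ProbabilityTheory
open scoped BoundedContinuousFunction RealInnerProductSpace

namespace Pool.Agent.H203.GE

open Pool.Agent.H203.ME hiding S_EFW S_BBI S_APX S_PRM XF_eq Zf_symm Z_eq point_diff t_BBI t_EFW t_APX t_PRM

namespace ENGL

variable {k n D : ℕ}

lemma Mon.mono {E a b a' b' T : ℝ} {g : ℝ → ℝ} (hT : 0 < T) (h : Mon E a b T g) (ha : a' ≤ a) (hb : b ≤ b') :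
    Mon E a' b' T g := by
  have h1 : 0 < T ^ E := Real.rpow_pos_of_pos hT _
  have h2 : 0 < T ^ (E - 1) := Real.rpow_pos_of_pos hT _
  refine ⟨fun s hs => ⟨?_, ?_⟩, ?_⟩
  · exact (mul_le_mul_of_nonneg_right ha h1.le).trans (h.maps s hs).1
  · exact (h.maps s hs).2.trans (mul_le_mul_of_nonneg_right hb h1.le)
  · obtain ⟨g', a1, a2, a3, a4⟩ := h.der
    refine ⟨g', a1, a2, ?_, fun s hs => (a4 s hs).trans (mul_le_mul_of_nonneg_right hb h2.le)⟩
    have h3 : a' * T ^ (E - 1) ≤ a * T ^ (E - 1) := mul_le_mul_of_nonneg_right ha h2.le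
    rcases a3 with a3 | a3
    · left; exact fun s hs => h3.trans (a3 s hs)
    · right; exact fun s hs => (a3 s hs).trans (neg_le_neg h3)

lemma Ht.mono {E a b a' b' T : ℝ} {H : (Fin n → ℝ) → ℝ} (hT : 0 < T) (h : Ht E a b T H) (ha : a' ≤ a) (hb : b ≤ b') :
    Ht E a' b' T H := by
  have h1 : 0 < T ^ E := Real.rpow_pos_of_pos hT _
  refine ⟨h.cont, fun t ht => ⟨?_, ?_⟩, fun i => ?_, ?_⟩
  · exact (mul_le_mul_of_nonneg_right ha h1.le).trans (h.maps t ht).1
  · exact (h.maps t ht).2.trans (mul_le_mul_of_nonneg_right hb h1.le)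
  · rcases h.part i with h2 | h2
    · left; exact h2
    · right; exact fun t ht => Mon.mono hT (h2 t ht) ha hb
  · obtain ⟨i, hi⟩ := h.ex
    exact ⟨i, fun t ht => Mon.mono hT (hi t ht) ha hb⟩

/-- common constants for finitely many heights -/
lemma common {E : Fin k → ℝ} {H : Fin k → (Fin n → ℝ) → ℝ}
    (h : ∀ j, ∃ a b T0 : ℝ, 0 < a ∧ a < b ∧ 1 ≤ T0 ∧ ∀ T : ℝ, T0 ≤ T → Ht (E j) a b T (H j)) :
    ∃ a b T0 : ℝ, 0 < a ∧ a < b ∧ 1 ≤ T0 ∧ ∀ T : ℝ, T0 ≤ T → ∀ j, Ht (E j) a b T (H j) := by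
  choose a b T0 ha hab hT0 hH using h
  rcases Nat.eq_zero_or_pos k with hk | hk
  · subst hk
    exact ⟨1, 2, 1, one_pos, by norm_num, le_rfl, fun T _ j => j.elim0⟩
  · have : Nonempty (Fin k) := ⟨⟨0, hk⟩⟩
    obtain ⟨j1, -, hj1⟩ := Finset.exists_min_image Finset.univ a Finset.univ_nonempty
    obtain ⟨j2, -, hj2⟩ := Finset.exists_max_image Finset.univ b Finset.univ_nonempty
    obtain ⟨j3, -, hj3⟩ := Finset.exists_max_image Finset.univ T0 Finset.univ_nonempty
    refine ⟨a j1, b j2, T0 j3, ha j1, (hab j1).trans_le (hj2 j1 (Finset.mem_univ _)), hT0 j3, fun T hT j => ?_⟩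
    have hT' : 0 < T := by linarith [hT0 j3]
    exact Ht.mono hT' (hH j T ((hj3 j (Finset.mem_univ _)).trans hT)) (hj1 j (Finset.mem_univ _)) (hj2 j (Finset.mem_univ _))

lemma int_mT {T : ℝ} (hT : 0 < T) (g : ℝ → ℝ) : ∫ t, g t ∂(mT T) = 1 / T * ∫ t in T..(2 * T), g t := by
  unfold mT
  rw [integral_smul_measure, intervalIntegral.integral_of_le (by linarith), ENNReal.toReal_inv,
    ENNReal.toReal_ofReal hT.le, one_div, smul_eq_mul]

lemma int_mZ {G : ℂ → ℂ} (hG : H370.GoodL G) {T : ℝ} (hT : 1 ≤ T) (g : ℝ → ℝ) :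
    ∫ t, g t ∂(mZ G T) = (∑ᶠ s ∈ H370.zset G T (2 * T), (H370.mult G s : ℝ) * g s.im) /
      (∑ᶠ s ∈ H370.zset G T (2 * T), (H370.mult G s : ℝ)) := by
  unfold mZ
  rw [integral_finsetSum_measure]
  · rw [H370.finsum_Zf hG hT, H370.finsum_Zf hG hT, Finset.sum_div]
    refine Finset.sum_congr rfl fun z _ => ?_
    rw [integral_smul_measure, integral_dirac, ENNReal.toReal_ofReal (by positivity), smul_eq_mul,
      H370.NN_eq hG hT]
    push_cast
    ring
  · intro z _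
    refine Integrable.smul_measure ?_ ENNReal.ofReal_ne_top
    exact integrable_dirac (by finiteness)

/-- a product of discrete measures -/
lemma pi_disc {ι : Type} [Fintype ι] [DecidableEq ι] (Z : ι → Finset ℂ) (c : ι → ℂ → ENNReal)
    (hc : ∀ i, ∀ z ∈ Z i, c i z ≠ ⊤) :
    Measure.pi (fun i => ∑ z ∈ Z i, c i z • Measure.dirac z.im) =
      ∑ z ∈ Fintype.piFinset Z, (∏ i, c i (z i)) • Measure.dirac (fun i => (z i).im) := by
  classical
  have hfin : ∀ i, IsFiniteMeasure (∑ z ∈ Z i, c i z • Measure.dirac z.im : Measure ℝ) := by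
    intro i
    constructor
    rw [Measure.coe_finsetSum, Finset.sum_apply]
    refine ENNReal.sum_lt_top.2 fun z hz => ?_
    rw [Measure.smul_apply, smul_eq_mul, measure_univ, mul_one]
    exact (hc i z hz).lt_top
  refine Measure.pi_eq fun s hs => ?_
  rw [Measure.coe_finsetSum, Finset.sum_apply]
  have h1 : ∀ i, (∑ z ∈ Z i, c i z • Measure.dirac z.im : Measure ℝ) (s i) =
      ∑ z ∈ Z i, c i z * (s i).indicator 1 z.im := by
    intro i
    rw [Measure.coe_finsetSum, Finset.sum_apply]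
    refine Finset.sum_congr rfl fun z _ => ?_
    rw [Measure.smul_apply, smul_eq_mul, Measure.dirac_apply' _ (hs i)]
  simp_rw [h1]
  rw [Finset.prod_univ_sum]
  refine Finset.sum_congr rfl fun z _ => ?_
  rw [Measure.smul_apply, smul_eq_mul, Measure.dirac_apply' _ (MeasurableSet.univ_pi hs), Finset.prod_mul_distrib]
  congr 1
  by_cases h : (fun i => (z i).im) ∈ Set.pi univ s
  · rw [indicator_of_mem h]
    symm
    exact Finset.prod_eq_one fun i _ => indicator_of_mem (h i (mem_univ i)) _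
  · rw [indicator_of_notMem h]
    rw [Set.mem_pi] at h
    push Not at h
    obtain ⟨i, -, hi⟩ := h
    symm
    exact Finset.prod_eq_zero (Finset.mem_univ i) (indicator_of_notMem hi _)

lemma int_pi_mZ {G : Fin n → ℂ → ℂ} (hG : ∀ i, H370.GoodL (G i)) {T : ℝ} (hT : 1 ≤ T) (g : (Fin n → ℝ) → ℝ) :
    ∫ t, g t ∂(Measure.pi (fun i => mZ (G i) T)) =
      (∑ᶠ z ∈ {z : Fin n → ℂ | ∀ i, z i ∈ H370.zset (G i) T (2 * T)},
        (∏ i, (H370.mult (G i) (z i) : ℝ)) * g (fun i => (z i).im)) /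
      (∑ᶠ z ∈ {z : Fin n → ℂ | ∀ i, z i ∈ H370.zset (G i) T (2 * T)}, (∏ i, (H370.mult (G i) (z i) : ℝ))) := by
  classical
  have e1 : (fun i => mZ (G i) T) = fun i => ∑ z ∈ H370.Zf (G i) T (2 * T),
      ENNReal.ofReal ((H370.mult (G i) z : ℝ) / (H370.NN (G i) T (2 * T) : ℝ)) • Measure.dirac z.im := rfl
  rw [e1, pi_disc _ _ (fun i z _ => ENNReal.ofReal_ne_top)]
  have hset : {z : Fin n → ℂ | ∀ i, z i ∈ H370.zset (G i) T (2 * T)} =
      ((Fintype.piFinset (fun i => H370.Zf (G i) T (2 * T)) : Finset (Fin n → ℂ)) : Set (Fin n → ℂ)) := by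
    ext z
    simp only [mem_ofPred_eq, SetLike.mem_coe, Fintype.mem_piFinset]
    exact forall_congr' fun i => (H370.mem_Zf (hG i) hT).symm
  rw [hset, finsum_mem_coe_finset, finsum_mem_coe_finset, integral_finsetSum_measure]
  · have e2 : ∑ z ∈ Fintype.piFinset (fun i => H370.Zf (G i) T (2 * T)), (∏ i, (H370.mult (G i) (z i) : ℝ)) =
        ∏ i, (H370.NN (G i) T (2 * T) : ℝ) := by
      rw [← Finset.prod_univ_sum (fun i => H370.Zf (G i) T (2 * T)) (fun i z => (H370.mult (G i) z : ℝ))]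
      refine Finset.prod_congr rfl fun i _ => ?_
      rw [H370.NN_eq (hG i) hT]
      push_cast
      rfl
    rw [e2, Finset.sum_div]
    refine Finset.sum_congr rfl fun z _ => ?_
    rw [integral_smul_measure, integral_dirac, smul_eq_mul, ENNReal.toReal_prod]
    have e3 : ∏ i, (ENNReal.ofReal ((H370.mult (G i) (z i) : ℝ) / (H370.NN (G i) T (2 * T) : ℝ))).toReal =
        (∏ i, (H370.mult (G i) (z i) : ℝ)) / ∏ i, (H370.NN (G i) T (2 * T) : ℝ) := by
      rw [← Finset.prod_div_distrib]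
      exact Finset.prod_congr rfl fun i _ => ENNReal.toReal_ofReal (by positivity)
    rw [e3]
    ring
  · intro z _
    refine Integrable.smul_measure ?_ ?_
    · exact integrable_dirac (by finiteness)
    · exact ENNReal.prod_ne_top fun i _ => ENNReal.ofReal_ne_top

/-- the statistics in the usual form -/
lemma X_eq (d : Dt k n D) {T : ℝ} (hT : 0 < T) (j : Fin k) (hh : 0 < d.h j T) (t : Fin n → ℝ) :
    d.X T j t = (∑ᶠ s ∈ {s : ℂ | d.G j s = 0 ∧ 0 < s.re ∧ s.re < 1}, (analyticOrderNatAt (d.G j) s : ℝ) *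
      d.f j ((s.im - d.H j t) / d.h j T)) - d.h j T * (d.E j * Real.log T) / (2 * Real.pi) * ∫ x, d.f j x := by
  unfold Dt.X XG Dt.F
  rw [Measure.integral_comp_div, abs_of_pos hh, smul_eq_mul, Real.log_rpow hT]
  have : (∑ᶠ s ∈ ZG (d.G j), (H370.mult (d.G j) s : ℝ) * d.f j ((s.im - d.H j t) / d.h j T)) =
      ∑ᶠ s ∈ {s : ℂ | d.G j s = 0 ∧ 0 < s.re ∧ s.re < 1}, (analyticOrderNatAt (d.G j) s : ℝ) *
      d.f j ((s.im - d.H j t) / d.h j T) := rfl
  rw [this]
  ring

end ENGL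

end Pool.Agent.H203.GE
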