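import Pool.Agent.H203.GE.WKM
import Pool.Agent.H203.GE.ENI
import Pool.Agent.H203.GE.Defs5

set_option autoImplicit false

/-! Bounds for the moments of the statistics, and the convergence of all mixed moments. -/

open Complex Filter Topology Set MeasureTheory ProbabilityTheory

namespace Pool.Agent.H203.GE

open Pool.Agent.H203.ME hiding BG S_PT S_BBI S_EFW S_APX S_PRM XF_eq Zf_symm Z_eq point_diff t_BBI t_EFW t_APX t_PRM S_CVR
  t_CVR

namespace ENML

open ENGL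

variable {k n D : ℕ}

/-- the scales are larger than `(log log T)² / log T` -/
def Big (d : Dt k n D) : Prop :=
  ∀ j, Tendsto (fun T => d.h j T * Real.log T / (Real.log (Real.log T)) ^ 2) atTop atTop

lemma ll_pos : ∀ᶠ T : ℝ in atTop, 1 ≤ Real.log (Real.log T) :=
  (Real.tendsto_log_atTop.comp Real.tendsto_log_atTop).eventually (eventually_ge_atTop 1)

lemma big_ev {d : Dt k n D} (hl : Big d) (j : Fin k) (K : ℝ) :
    ∀ᶠ T : ℝ in atTop, K * (Real.log (Real.log T)) ^ 2 ≤ d.h j T * Real.log T := by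
  filter_upwards [(hl j).eventually (eventually_ge_atTop K), ll_pos] with T h1 h2
  have h3 : 0 < (Real.log (Real.log T)) ^ 2 := by positivity
  exact (le_div_iff₀ h3).1 h1

lemma big_ev2 {d : Dt k n D} (ok : Ok d) (hl : Big d) (j : Fin k) :
    ∀ᶠ T : ℝ in atTop, 2 * (Real.log (Real.log (T ^ d.E j))) ^ 2 ≤ d.h j T * Real.log (T ^ d.E j) := by
  have hE := ok.Epos j
  filter_upwards [big_ev hl j (8 / d.E j), ll_pos, eventually_gt_atTop (1 : ℝ),
    (Real.tendsto_log_atTop.comp Real.tendsto_log_atTop).eventually (eventually_ge_atTop |Real.log (d.E j)|)]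
    with T h1 h2 h3 h4
  have hL : 0 < Real.log T := Real.log_pos h3
  rw [Real.log_rpow (by linarith), Real.log_mul hE.ne' hL.ne']
  have h5 : |Real.log (d.E j) + Real.log (Real.log T)| ≤ 2 * Real.log (Real.log T) := by
    refine (abs_add_le _ _).trans ?_
    rw [abs_of_nonneg (by linarith : (0 : ℝ) ≤ Real.log (Real.log T))]
    have : |Real.log (d.E j)| ≤ Real.log (Real.log T) := h4
    linarith
  have h6 : (Real.log (d.E j) + Real.log (Real.log T)) ^ 2 ≤ 4 * (Real.log (Real.log T)) ^ 2 := by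
    rw [← sq_abs]
    calc |Real.log (d.E j) + Real.log (Real.log T)| ^ 2 ≤ (2 * Real.log (Real.log T)) ^ 2 :=
          pow_le_pow_left₀ (abs_nonneg _) h5 2
      _ = _ := by ring
  have h7 : d.E j * (8 / d.E j * (Real.log (Real.log T)) ^ 2) ≤ d.E j * (d.h j T * Real.log T) :=
    mul_le_mul_of_nonneg_left h1 hE.le
  have h8 : d.E j * (8 / d.E j * (Real.log (Real.log T)) ^ 2) = 8 * (Real.log (Real.log T)) ^ 2 := by
    field_simp
  rw [h8] at h7
  calc 2 * (Real.log (d.E j) + Real.log (Real.log T)) ^ 2 ≤ 8 * (Real.log (Real.log T)) ^ 2 := by linarith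
    _ ≤ d.E j * (d.h j T * Real.log T) := h7
    _ = d.h j T * (d.E j * Real.log T) := by ring

lemma h_small {d : Dt k n D} (ok : Ok d) (j : Fin k) {K : ℝ} (hK : 1 ≤ K) : ∀ᶠ T : ℝ in atTop, d.h j T ≤ 1 / K :=
  (ok.sc.zero j).eventually (eventually_le_nhds (by positivity))

/-- the integrals over one uniform parameter -/
lemma one_U (hB : S_BMI) {d : Dt k n D} (ok : Ok d) (hl : Big d) (j : Fin k) (m : ℕ) {a b : ℝ} (ha : 0 < a) (hab : a < b) :
    ∃ B : ℝ, 0 < B ∧ ∀ᶠ T : ℝ in atTop, ContinuousOn (XG (d.G j) (d.F j T) (T ^ d.E j)) (Icc (a * T ^ d.E j) (b * T ^ d.E j)) ∧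
      ∀ g : ℝ → ℝ, Mon (d.E j) a b T g → Integrable (fun s => |XG (d.G j) (d.F j T) (T ^ d.E j) (g s)| ^ m) (mT T) ∧
        ∫ s, |XG (d.G j) (d.F j T) (T ^ d.E j) (g s)| ^ m ∂(mT T) ≤ B := by
  obtain ⟨C, K, T0, hC, hK, hT0, h⟩ := hB (d.G j) (d.u j) (lf d ok j) m (d.f j) (ok.cd j) (ok.cs j) a b ha hab
  refine ⟨C / a, by positivity, ?_⟩
  filter_upwards [(tendsto_rpow_atTop (ok.Epos j)).eventually (eventually_ge_atTop T0), big_ev2 ok hl j,
    h_small ok j hK, eventually_gt_atTop (0 : ℝ)] with T h1 h2 h3 hT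
  obtain ⟨h4, h5⟩ := h (T ^ d.E j) h1 (d.h j T) h2 h3
  have hF : (fun x => d.f j (x / d.h j T)) = d.F j T := rfl
  rw [hF] at h4 h5
  refine ⟨h4, fun g hg => ?_⟩
  have hc : ContinuousOn (fun v => |XG (d.G j) (d.F j T) (T ^ d.E j) v| ^ m) (Icc (a * T ^ d.E j) (b * T ^ d.E j)) :=
    h4.abs.pow m
  have hgc : ContinuousOn g (Icc T (2 * T)) := by
    obtain ⟨g', -, hg2, -, -⟩ := hg.der
    exact fun s hs => (hg2 s hs).continuousAt.continuousWithinAt
  refine ⟨APNL.integrable_mT hT _ (hc.comp hgc fun s hs => hg.maps s hs), ?_⟩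
  rw [int_mT hT]
  have h6 := t_CVR (d.E j) a b T ha hab hT g hg _ hc (fun v => pow_nonneg (abs_nonneg _) _)
  have hp : 0 < T ^ (d.E j - 1) := Real.rpow_pos_of_pos hT _
  have hTE : T ^ d.E j = T ^ (d.E j - 1) * T := by
    rw [Real.rpow_sub hT, Real.rpow_one]; field_simp
  calc 1 / T * ∫ s in T..(2 * T), |XG (d.G j) (d.F j T) (T ^ d.E j) (g s)| ^ m
      ≤ 1 / T * (1 / (a * T ^ (d.E j - 1)) * (C * T ^ d.E j)) := by
        refine mul_le_mul_of_nonneg_left (h6.trans ?_) (by positivity)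
        exact mul_le_mul_of_nonneg_left h5 (by positivity)
    _ = C / a := by rw [hTE]; field_simp

/-- bounds for the moments, uniform parameters -/
lemma mom_U (hB : S_BMI) {d : Dt k n D} (ok : Ok d) (hl : Big d) (j : Fin k) (m : ℕ) :
    ∃ B : ℝ, ∀ᶠ T : ℝ in atTop, Integrable (fun t => |d.X T j t| ^ m) (Measure.pi (fun _ : Fin n => mT T)) ∧
      ∫ t, |d.X T j t| ^ m ∂(Measure.pi (fun _ : Fin n => mT T)) ≤ B := by
  obtain ⟨a, b, TH, ha, hab, hTH, hH⟩ := ok.ht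
  obtain ⟨B, hB0, hB1⟩ := one_U hB ok hl j m ha hab
  refine ⟨B, ?_⟩
  filter_upwards [hB1, eventually_ge_atTop TH] with T h1 h2
  have hT : 0 < T := by linarith
  have hHj := hH T h2 j
  obtain ⟨i, hi⟩ := hHj.ex
  refine t_MAR n T hT (fun _ => mT T) (fun _ => mT_prob hT) (fun _ => mT_supp T) i (fun t => |d.X T j t| ^ m) B
    (fun t => pow_nonneg (abs_nonneg _) _) ?_ (fun t ht => h1.2 _ (hi t ht))
  refine aesm_Bx (fun _ => mT_prob hT) (fun _ => mT_supp T) ?_
  exact ((h1.1.comp hHj.cont.continuousOn (fun t ht => hHj.maps t ht)).abs).pow m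

/-- bounds for the moments, some of the parameters are random zeros -/
lemma mom_Z (hB : S_BMI) (hZ : S_MZ) {d : Dt k n D} (ok : Ok d) (hl : Big d) (h3 : ∀ j, ContDiff ℝ 3 (d.f j))
    (hE : ∀ j, d.E j ≤ 1) (G' : Fin n → ℂ → ℂ) (u' : Fin n → ℕ → ℂ) (hG' : ∀ i, Lf (G' i) (u' i))
    (ν : Fin n → ℝ → Measure ℝ) (hν : ∀ i T, ν i T = mT T ∨ ν i T = mZ (G' i) T)
    (hν' : ∀ᶠ T : ℝ in atTop, ∀ i, IsProbabilityMeasure (ν i T) ∧ ν i T (Icc T (2 * T))ᶜ = 0) (j : Fin k) (m : ℕ) :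
    ∃ B : ℝ, ∀ᶠ T : ℝ in atTop, Integrable (fun t => |d.X T j t| ^ m) (Measure.pi (fun i => ν i T)) ∧
      ∫ t, |d.X T j t| ^ m ∂(Measure.pi (fun i => ν i T)) ≤ B := by
  obtain ⟨a, b, TH, ha, hab, hTH, hH⟩ := ok.ht
  obtain ⟨B, hB0, hB1⟩ := one_U hB ok hl j m ha hab
  choose C K T0 hC hK hT0 hz using fun i =>
    hZ (G' i) (u' i) (hG' i) (d.G j) (d.u j) (lf d ok j) m (d.f j) (h3 j) (ok.cs j) (d.E j) a b (ok.Epos j) (hE j) ha hab
  refine ⟨B + ∑ i, C i, ?_⟩
  filter_upwards [hB1, eventually_ge_atTop TH, hν', eventually_all.2 fun i => eventually_ge_atTop (T0 i),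
    eventually_all.2 fun i => big_ev hl j (K i), eventually_all.2 fun i => h_small ok j (hK i)] with T h1 h2 h3 h4 h5 h6
  have hT : 0 < T := by linarith
  have hHj := hH T h2 j
  obtain ⟨i, hi⟩ := hHj.ex
  refine t_MAR n T hT (fun i => ν i T) (fun i => (h3 i).1) (fun i => (h3 i).2) i (fun t => |d.X T j t| ^ m) _
    (fun t => pow_nonneg (abs_nonneg _) _) ?_ (fun t ht => ?_)
  · refine aesm_Bx (fun i => (h3 i).1) (fun i => (h3 i).2) ?_
    exact ((h1.1.comp hHj.cont.continuousOn (fun t ht => hHj.maps t ht)).abs).pow m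
  · have hCs : C i ≤ ∑ i, C i := Finset.single_le_sum (f := C) (fun i _ => (hC i).le) (Finset.mem_univ i)
    have hC0 : 0 ≤ ∑ i, C i := Finset.sum_nonneg fun i _ => (hC i).le
    rcases hν i T with h | h
    · have h7 := h1.2 _ (hi t ht)
      show Integrable (fun s => |XG (d.G j) (d.F j T) (T ^ d.E j) (d.H j (Function.update t i s))| ^ m) (ν i T) ∧ _
      rw [h]
      exact ⟨h7.1, h7.2.trans (by linarith)⟩
    · have h7 := hz i T (h4 i) (d.h j T) (h5 i) (h6 i) _ (hi t ht)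
      show Integrable (fun s => |XG (d.G j) (d.F j T) (T ^ d.E j) (d.H j (Function.update t i s))| ^ m) (ν i T) ∧ _
      rw [h]
      exact ⟨h7.1, h7.2.trans (by linarith)⟩

lemma quad_nonneg {d : Dt k n D} (ok : Ok d) (c : Fin k → ℝ) : 0 ≤ ∑ i, ∑ j, c i * c j * d.cM i j := by
  have h1 := (cM_psd t_CLA p_MOV p_APN d ok).dotProduct_mulVec_nonneg c
  have h2 : star c ⬝ᵥ d.cM.mulVec c = ∑ i, ∑ j, c i * c j * d.cM i j := by
    simp only [dotProduct, Matrix.mulVec, star_trivial, Finset.mul_sum]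
    exact Finset.sum_congr rfl fun i _ => Finset.sum_congr rfl fun j _ => by ring
  rw [← h2]; exact h1

/-- all mixed moments, uniform parameters -/
theorem momA (hB : S_BMI) (d : Dt k n D) (ok : Ok d) (hl : Big d) :
    Tendsto (fun T => ∫ t, ∏ j, d.X T j t ∂(Measure.pi (fun _ : Fin n => mT T))) atTop (𝓝 (wick fun i j => d.cM i j)) := by
  refine WKML.wkM (P := fun T => Measure.pi (fun _ : Fin n => mT T)) (X := fun j T t => d.X T j t)
    (fun i j => d.cM i j) (quad_nonneg ok) ?_ ?_ (fun j m => mom_U hB ok hl j m) (fun v => eng1 t_CLA p_MOV p_APN d ok v)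
  · filter_upwards [eventually_gt_atTop (0 : ℝ)] with T hT
    have := mT_prob hT
    infer_instance
  · filter_upwards [eventually_gt_atTop (0 : ℝ), X_cont d ok] with T hT h1 j
    refine aesm_Bx (fun _ => mT_prob hT) (fun _ => mT_supp T) ?_
    exact (EuclideanSpace.proj (𝕜 := ℝ) j).continuous.comp_continuousOn h1

/-- all mixed moments, some of the parameters are random zeros -/
theorem momB (hB : S_BMI) (hZ : S_MZ) (d : Dt k n D) (ok : Ok d) (hl : Big d) (h3 : ∀ j, ContDiff ℝ 3 (d.f j))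
    (hE : ∀ j, d.E j ≤ 1) (G' : Fin n → ℂ → ℂ) (u' : Fin n → ℕ → ℂ) (hG' : ∀ i, Lf (G' i) (u' i))
    (ν : Fin n → ℝ → Measure ℝ) (hν : ∀ i T, ν i T = mT T ∨ ν i T = mZ (G' i) T) :
    Tendsto (fun T => ∫ t, ∏ j, d.X T j t ∂(Measure.pi (fun i => ν i T))) atTop (𝓝 (wick fun i j => d.cM i j)) := by
  have hz : ∀ i, ∃ T0 : ℝ, 10 ≤ T0 ∧ ∀ T : ℝ, T0 ≤ T → IsProbabilityMeasure (mZ (G' i) T) ∧
      mZ (G' i) T (Icc T (2 * T))ᶜ = 0 := by
    intro i
    obtain ⟨K, T0, hK, hT0, h⟩ := p_TRG (G' i) (u' i) (hG' i) 1 one_pos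
    exact ⟨T0, hT0, fun T hT => ⟨(h T hT).1, (h T hT).2.1⟩⟩
  choose T0 hT0 hz using hz
  have hν' : ∀ᶠ T : ℝ in atTop, ∀ i, IsProbabilityMeasure (ν i T) ∧ ν i T (Icc T (2 * T))ᶜ = 0 := by
    filter_upwards [eventually_all.2 (fun i => eventually_ge_atTop (T0 i)), eventually_gt_atTop (0 : ℝ)] with T h1 h2 i
    rcases hν i T with h | h
    · rw [h]; exact ⟨mT_prob h2, mT_supp T⟩
    · rw [h]; exact hz i T (h1 i)
  refine WKML.wkM (P := fun T => Measure.pi (fun i => ν i T)) (X := fun j T t => d.X T j t)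
    (fun i j => d.cM i j) (quad_nonneg ok) ?_ ?_ (fun j m => mom_Z hB hZ ok hl h3 hE G' u' hG' ν hν hν' j m)
    (fun v => eng2 t_CLA p_MOV p_APN t_CVR p_L1G p_TRN d ok h3 hE G' u' hG' ν hν v)
  · filter_upwards [hν'] with T hT
    have := fun i => (hT i).1
    infer_instance
  · filter_upwards [hν', X_cont d ok] with T hT h1 j
    refine aesm_Bx (fun i => (hT i).1) (fun i => (hT i).2) ?_
    exact (EuclideanSpace.proj (𝕜 := ℝ) j).continuous.comp_continuousOn h1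

end ENML

end Pool.Agent.H203.GE
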