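import Pool.Agent.H203.GE.Defs5
import Pool.Agent.H203.GE.APX
import Pool.Agent.H203.GE.TRG

set_option autoImplicit false

/-! All moments of the linear statistics seen from random zeros are bounded (leaf MZ). -/

open Complex Filter Topology Set MeasureTheory

namespace Pool.Agent.H203.GE

open Pool.Agent.H203.ME hiding BG S_PT S_BBI S_EFW S_APX S_PRM XF_eq Zf_symm Z_eq point_diff

namespace MZL

open Pool.Agent.H203.ME.ZERL (dn dn_nonneg dn_int dn_mul_int' sum_ii)

/- `int_deriv0` and `XG_deriv` are copied from ENE.lean -/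

lemma int_deriv0 {f : ℝ → ℝ} (hf : ContDiff ℝ 2 f) (hs : HasCompactSupport f) : ∫ x, deriv f x = 0 := by
  have hd : Differentiable ℝ f := hf.differentiable (by norm_num)
  have hc : Continuous (deriv f) := hf.continuous_deriv (by norm_num)
  exact integral_eq_zero_of_hasDerivAt_of_integrable (fun x => (hd x).hasDerivAt)
    (hc.integrable_of_hasCompactSupport hs.deriv) (hf.continuous.integrable_of_hasCompactSupport hs)

lemma XG_deriv {G : ℂ → ℂ} {u : ℕ → ℂ} (hG : Lf G u) {f : ℝ → ℝ} (hf : ContDiff ℝ 2 f) (hs : HasCompactSupport f)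
    {h : ℝ} (_hh : 0 < h) (c1 : C2c (fun x => f (x / h))) (c2 : C2c (fun x => deriv f (x / h))) {T r : ℝ} (hr : 4 ≤ r) :
    HasDerivAt (XG G (fun x => f (x / h)) T) (-(1 / h * XG G (fun x => deriv f (x / h)) T r)) r := by
  have hd : Differentiable ℝ f := hf.differentiable (by norm_num)
  have e1 : ∀ t ∈ Ioo (r - 1) (r + 1), XG G (fun x => f (x / h)) T t =
      (∑ s ∈ H370.Zf G (r - 2) (r + 2), (H370.mult G s : ℝ) * f ((s.im - t) / h)) -
        Real.log T / (2 * Real.pi) * ∫ x : ℝ, f (x / h) := fun t ht =>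
    XG_eq hG c1 (by linarith) (by linarith [ht.1]) (by linarith [ht.2])
  have e2 : XG G (fun x => deriv f (x / h)) T r =
      ∑ s ∈ H370.Zf G (r - 2) (r + 2), (H370.mult G s : ℝ) * deriv f ((s.im - r) / h) := by
    rw [XG_eq hG c2 (U1 := r - 2) (U2 := r + 2) (by linarith) (by linarith) (by linarith),
      Measure.integral_comp_div, int_deriv0 hf hs, smul_zero, mul_zero, sub_zero]
  rw [e2]
  have h3 : HasDerivAt (fun t => (∑ s ∈ H370.Zf G (r - 2) (r + 2), (H370.mult G s : ℝ) * f ((s.im - t) / h)) -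
      Real.log T / (2 * Real.pi) * ∫ x : ℝ, f (x / h))
      (∑ s ∈ H370.Zf G (r - 2) (r + 2), (H370.mult G s : ℝ) * (deriv f ((s.im - r) / h) * (-1 / h))) r := by
    refine HasDerivAt.sub_const _ (HasDerivAt.fun_sum fun s _ => ?_)
    refine HasDerivAt.const_mul _ ?_
    have h4 : HasDerivAt (fun t : ℝ => (s.im - t) / h) (-1 / h) r := ((hasDerivAt_id r).const_sub s.im).div_const h
    exact HasDerivAt.comp r (hd ((s.im - r) / h)).hasDerivAt h4
  have h5 : -(1 / h * ∑ s ∈ H370.Zf G (r - 2) (r + 2), (H370.mult G s : ℝ) * deriv f ((s.im - r) / h)) =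
      ∑ s ∈ H370.Zf G (r - 2) (r + 2), (H370.mult G s : ℝ) * (deriv f ((s.im - r) / h) * (-1 / h)) := by
    rw [Finset.mul_sum, ← Finset.sum_neg_distrib]
    exact Finset.sum_congr rfl fun s _ => by ring
  rw [h5]
  refine h3.congr_of_eventuallyEq ?_
  filter_upwards [isOpen_Ioo.mem_nhds (show r ∈ Ioo (r - 1) (r + 1) from ⟨by linarith, by linarith⟩)] with t ht
  exact e1 t ht

/-- continuity of the statistic -/
lemma cont {G : ℂ → ℂ} {u : ℕ → ℂ} (hG : Lf G u) {F : ℝ → ℝ} (hF : C2c F) (T : ℝ) {x y : ℝ}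
    (hx : 2 ≤ x) : ContinuousOn (XG G F T) (Icc x y) := by
  have hFc : Continuous F := hF.cd.continuous
  have hc : Continuous fun t : ℝ => (∑ s ∈ H370.Zf G (x - 1) (y + 1), (H370.mult G s : ℝ) * F (s.im - t)) -
      Real.log T / (2 * Real.pi) * ∫ x : ℝ, F x := by
    fun_prop
  refine hc.continuousOn.congr fun t ht => ?_
  exact XG_eq hG hF (by linarith) (by linarith [ht.1]) (by linarith [ht.2])

/-- the crude bound for the statistic -/
lemma crude {G : ℂ → ℂ} {u : ℕ → ℂ} (hG : Lf G u) {F : ℝ → ℝ} (hF : C2c F) {C M I0 : ℝ} (hM : ∀ x, |F x| ≤ M)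
    (hz : ∀ t : ℝ, 3 ≤ t → (H370.NN G (t - 1) (t + 1) : ℝ) ≤ C * Real.log t) (hI : |∫ x : ℝ, F x| ≤ I0)
    {T t : ℝ} (ht : 3 ≤ t) (hT : 1 ≤ T) : |XG G F T t| ≤ M * (C * Real.log t) + Real.log T * I0 := by
  have hM0 : 0 ≤ M := (abs_nonneg _).trans (hM 0)
  rw [XG_eq hG hF (U1 := t - 1) (U2 := t + 1) (by linarith) (by linarith) (by linarith)]
  refine (abs_sub _ _).trans (add_le_add ?_ ?_)
  · refine (Finset.abs_sum_le_sum_abs _ _).trans ?_
    have h1 := hz t ht
    rw [H370.NN_eq hG.good (by linarith)] at h1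
    push_cast at h1
    refine le_trans ?_ (mul_le_mul_of_nonneg_left h1 hM0)
    rw [Finset.mul_sum]
    refine Finset.sum_le_sum fun s _ => ?_
    rw [abs_mul, Nat.abs_cast, mul_comm]
    exact mul_le_mul_of_nonneg_right (hM _) (Nat.cast_nonneg _)
  · rw [abs_mul, abs_of_nonneg (div_nonneg (Real.log_nonneg hT) (by positivity))]
    refine mul_le_mul ?_ hI (abs_nonneg _) (Real.log_nonneg hT)
    exact div_le_self (Real.log_nonneg hT) (by linarith [Real.pi_gt_three])

lemma NWc (G : ℂ → ℂ) (T h : ℝ) : Continuous (NWG G T h) := by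
  unfold NWG
  refine continuous_finsetSum _ fun s _ => continuous_const.mul ?_
  have : Continuous w1 := by
    unfold w1
    exact continuous_const.div (by fun_prop) fun x => by positivity
  exact this.comp (by fun_prop)

/-- the count is at most twice the weighted count -/
lemma cnt_le (G : ℂ → ℂ) (T : ℝ) {w : ℝ} (hw : 0 < w) (t : ℝ) :
    ∑ z ∈ H370.Zf G T (2 * T), (H370.mult G z : ℝ) * ZERL.dn w z.im t ≤ 2 * NWG G T w t := by
  unfold NWG
  rw [Finset.mul_sum]
  refine Finset.sum_le_sum fun z _ => ?_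
  have h : ZERL.dn w z.im t ≤ 2 * w1 ((z.im - t) / w) := by
    unfold ZERL.dn w1
    by_cases ht : t ∈ Ico (z.im - w) z.im
    · rw [indicator_of_mem ht]
      have h1 : 0 ≤ (z.im - t) / w := div_nonneg (by linarith [ht.2]) hw.le
      have h2 : (z.im - t) / w ≤ 1 := by
        rw [div_le_one hw]
        linarith [ht.1]
      have h3 : ((z.im - t) / w) ^ 2 ≤ 1 := by nlinarith
      have h4 : (1 : ℝ) / 2 ≤ 1 / (1 + ((z.im - t) / w) ^ 2) :=
        one_div_le_one_div_of_le (by positivity) (by linarith)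
      linarith
    · rw [indicator_of_notMem ht]
      positivity
  calc (H370.mult G z : ℝ) * ZERL.dn w z.im t ≤ (H370.mult G z : ℝ) * (2 * w1 ((z.im - t) / w)) :=
        mul_le_mul_of_nonneg_left h (Nat.cast_nonneg _)
    _ = _ := by ring

/-- the integral against the law of a random zero -/
lemma mZ_intR {G : ℂ → ℂ} (T : ℝ) (Φ : ℝ → ℝ) :
    Integrable Φ (mZ G T) ∧ ∫ t, Φ t ∂(mZ G T) = (1 / (H370.NN G T (2 * T) : ℝ)) *
      ∑ z ∈ H370.Zf G T (2 * T), (H370.mult G z : ℝ) * Φ z.im := by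
  have hi : ∀ z ∈ H370.Zf G T (2 * T), Integrable Φ
      (ENNReal.ofReal ((H370.mult G z : ℝ) / (H370.NN G T (2 * T) : ℝ)) • Measure.dirac z.im) := fun z _ =>
    (integrable_dirac (by simp)).smul_measure ENNReal.ofReal_ne_top
  unfold mZ
  refine ⟨integrable_finsetSum_measure.2 hi, ?_⟩
  rw [integral_finsetSum_measure hi, Finset.mul_sum]
  refine Finset.sum_congr rfl fun z _ => ?_
  rw [integral_smul_measure, integral_dirac, ENNReal.toReal_ofReal (by positivity), smul_eq_mul]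
  ring

/-- the integral over the heights which see a point -/
lemma dn_integral {w γ a b : ℝ} (h1 : a + w ≤ γ) (h2 : γ ≤ b) (hw : 0 ≤ w) (U : ℝ → ℝ) :
    ∫ t in a..b, dn w γ t * U t = ∫ t in (γ - w)..γ, U t := by
  rw [intervalIntegral.integral_of_le (by linarith), intervalIntegral.integral_of_le (by linarith),
    ← integral_Icc_eq_integral_Ioc, ← integral_Icc_eq_integral_Ioc, integral_Icc_eq_integral_Ico (x := γ - w)]
  have h : (fun t => dn w γ t * U t) = (Ico (γ - w) γ).indicator U := by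
    funext t
    unfold dn
    by_cases ht : t ∈ Ico (γ - w) γ
    · rw [indicator_of_mem ht, indicator_of_mem ht, one_mul]
    · rw [indicator_of_notMem ht, indicator_of_notMem ht, zero_mul]
  rw [h, setIntegral_indicator measurableSet_Ico, inter_eq_self_of_subset_right]
  intro t ht
  exact ⟨by linarith [ht.1], by linarith [ht.2]⟩

/-- Jensen's inequality for the powers -/
lemma jensen {x y : ℝ} (hxy : x < y) {V : ℝ → ℝ} (hV : ContinuousOn V (Icc x y)) (h0 : ∀ t, 0 ≤ V t) (m : ℕ) :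
    ((1 / (y - x)) * ∫ t in x..y, V t) ^ m ≤ (1 / (y - x)) * ∫ t in x..y, V t ^ m := by
  have hvol : volume (Ioc x y) = ENNReal.ofReal (y - x) := Real.volume_Ioc
  have hi : IntegrableOn V (Ioc x y) volume := (hV.integrableOn_Icc).mono_set Ioc_subset_Icc_self
  have hi2 : IntegrableOn (fun t => V t ^ m) (Ioc x y) volume :=
    ((hV.pow m).integrableOn_Icc).mono_set Ioc_subset_Icc_self
  have h := ConvexOn.map_set_average_le (μ := volume) (t := Ioc x y) (s := Ici (0 : ℝ)) (g := fun u : ℝ => u ^ m)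
    (f := V) (convexOn_pow m) (continuous_pow m).continuousOn isClosed_Ici
    (by rw [hvol]; simp; linarith) (by rw [hvol]; exact ENNReal.ofReal_ne_top)
    (Eventually.of_forall fun t => h0 t) hi hi2
  rw [setAverage_eq, setAverage_eq, Real.volume_real_Ioc_of_le hxy.le, smul_eq_mul, smul_eq_mul,
    ← intervalIntegral.integral_of_le hxy.le, ← intervalIntegral.integral_of_le hxy.le] at h
  rw [one_div]
  exact h

/-- a value is at most an average of the function and of its derivative -/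
lemma avg {x y c : ℝ} (hxy : x < y) {X Y : ℝ → ℝ} (hX : ContinuousOn X (Icc x y)) (hY : ContinuousOn Y (Icc x y))
    (hinc : ∀ t ∈ Icc x y, |X y - X t| ≤ ∫ r in t..y, c * |Y r|) (hc : 0 ≤ c) :
    |X y| ≤ (1 / (y - x)) * ∫ t in x..y, (|X t| + (y - x) * c * |Y t|) := by
  have hle := hxy.le
  have hd : 0 < y - x := by linarith
  have hXi : IntervalIntegrable (fun t => |X t|) volume x y := by
    apply ContinuousOn.intervalIntegrable
    rw [uIcc_of_le hle]; exact hX.abs
  have hYc : ContinuousOn (fun r => c * |Y r|) (Icc x y) := continuousOn_const.mul hY.abs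
  have hYi : IntervalIntegrable (fun t => c * |Y t|) volume x y := by
    apply ContinuousOn.intervalIntegrable
    rw [uIcc_of_le hle]; exact hYc
  have h1 : ∀ t ∈ Icc x y, |X y| ≤ |X t| + ∫ r in x..y, c * |Y r| := by
    intro t ht
    have h2 := hinc t ht
    have h3 : ∫ r in t..y, c * |Y r| ≤ ∫ r in x..y, c * |Y r| :=
      intervalIntegral.integral_mono_interval ht.1 ht.2 le_rfl
        (Eventually.of_forall fun r => by positivity) hYi
    have h4 : |X y| ≤ |X t| + |X y - X t| := by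
      have := abs_add_le (X t) (X y - X t)
      rwa [add_sub_cancel] at this
    linarith
  have h2 : ∫ t in x..y, |X y| ≤ ∫ t in x..y, (|X t| + ∫ r in x..y, c * |Y r|) :=
    intervalIntegral.integral_mono_on hle intervalIntegrable_const (hXi.add intervalIntegrable_const) h1
  rw [intervalIntegral.integral_const, smul_eq_mul, intervalIntegral.integral_add hXi intervalIntegrable_const,
    intervalIntegral.integral_const, smul_eq_mul] at h2
  have h3 : ∫ t in x..y, (|X t| + (y - x) * c * |Y t|) = (∫ t in x..y, |X t|) + (y - x) * ∫ t in x..y, c * |Y t| := by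
    have e : ∀ t, (y - x) * c * |Y t| = (y - x) * (c * |Y t|) := fun t => by ring
    simp_rw [e]
    rw [intervalIntegral.integral_add hXi (hYi.const_mul _), intervalIntegral.integral_const_mul]
  rw [h3]
  rw [one_div, ← div_eq_inv_mul, le_div_iff₀ hd, mul_comm]
  exact h2

/-- the sum over the good points -/
lemma core {Z : Finset ℂ} {μ : ℂ → ℝ} (hμ : ∀ z ∈ Z, 0 ≤ μ z) {X Y : ℝ → ℝ} {α β w c : ℝ} (hαβ : α ≤ β) (hw : 0 < w)
    (hc : 0 ≤ c) (hX : ContinuousOn X (Icc α β)) (hY : ContinuousOn Y (Icc α β))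
    (hinc : ∀ x y : ℝ, α ≤ x → x ≤ y → y ≤ β → |X y - X x| ≤ ∫ r in x..y, c * |Y r|) (m : ℕ) {N : ℝ → ℝ}
    (hN : Continuous N) (hcnt : ∀ t, ∑ z ∈ Z, μ z * dn w z.im t ≤ 2 * N t) :
    w * ∑ z ∈ Z.filter (fun z => α + w ≤ z.im ∧ z.im ≤ β), μ z * |X z.im| ^ m ≤
      2 * ∫ t in α..β, (|X t| + w * c * |Y t|) ^ m * N t := by
  set V : ℝ → ℝ := fun t => |X t| + w * c * |Y t| with hV
  have hV0 : ∀ t, 0 ≤ V t := fun t => by rw [hV]; positivity
  have hVc : ContinuousOn V (Icc α β) := hX.abs.add (continuousOn_const.mul hY.abs)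
  have hVm : IntervalIntegrable (fun t => V t ^ m) volume α β := by
    apply ContinuousOn.intervalIntegrable
    rw [uIcc_of_le hαβ]
    exact hVc.pow m
  have hone : ∀ z ∈ Z.filter (fun z => α + w ≤ z.im ∧ z.im ≤ β), w * |X z.im| ^ m ≤
      ∫ t in α..β, dn w z.im t * V t ^ m := by
    intro z hz
    obtain ⟨-, h1, h2⟩ := Finset.mem_filter.1 hz
    rw [dn_integral h1 h2 hw.le]
    have hsub : Icc (z.im - w) z.im ⊆ Icc α β := Icc_subset_Icc (by linarith) h2
    have h3 := avg (x := z.im - w) (y := z.im) (c := c) (by linarith) (hX.mono hsub) (hY.mono hsub)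
      (fun t ht => hinc t z.im (by linarith [ht.1]) ht.2 h2) hc
    have e : z.im - (z.im - w) = w := by ring
    rw [e] at h3
    have h4 := jensen (x := z.im - w) (y := z.im) (by linarith) (hVc.mono hsub) hV0 m
    rw [e] at h4
    have h5 := (pow_le_pow_left₀ (abs_nonneg _) h3 m).trans h4
    calc w * |X z.im| ^ m ≤ w * (1 / w * ∫ t in (z.im - w)..z.im, V t ^ m) := mul_le_mul_of_nonneg_left h5 hw.le
      _ = _ := by field_simp
  have hpos : ∀ z ∈ Z, 0 ≤ μ z * ∫ t in α..β, dn w z.im t * V t ^ m := fun z hz =>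
    mul_nonneg (hμ z hz) (intervalIntegral.integral_nonneg hαβ fun t _ =>
      mul_nonneg (dn_nonneg _ _ _) (pow_nonneg (hV0 t) m))
  have hi : ∀ z, IntervalIntegrable (fun t => μ z * (dn w z.im t * V t ^ m)) volume α β := fun z =>
    (dn_mul_int' w z.im hVm).const_mul _
  have hsum : ∑ z ∈ Z, μ z * ∫ t in α..β, dn w z.im t * V t ^ m =
      ∫ t in α..β, ∑ z ∈ Z, μ z * (dn w z.im t * V t ^ m) := by
    rw [intervalIntegral.integral_finsetSum fun z _ => hi z]
    exact Finset.sum_congr rfl fun z _ => (intervalIntegral.integral_const_mul _ _).symm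
  have hVN : IntervalIntegrable (fun t => 2 * (V t ^ m * N t)) volume α β := by
    apply ContinuousOn.intervalIntegrable
    rw [uIcc_of_le hαβ]
    exact continuousOn_const.mul ((hVc.pow m).mul hN.continuousOn)
  calc w * ∑ z ∈ Z.filter (fun z => α + w ≤ z.im ∧ z.im ≤ β), μ z * |X z.im| ^ m
      = ∑ z ∈ Z.filter (fun z => α + w ≤ z.im ∧ z.im ≤ β), μ z * (w * |X z.im| ^ m) := by
        rw [Finset.mul_sum]
        exact Finset.sum_congr rfl fun z _ => by ring
    _ ≤ ∑ z ∈ Z.filter (fun z => α + w ≤ z.im ∧ z.im ≤ β), μ z * ∫ t in α..β, dn w z.im t * V t ^ m :=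
        Finset.sum_le_sum fun z hz => mul_le_mul_of_nonneg_left (hone z hz) (hμ z (Finset.mem_filter.1 hz).1)
    _ ≤ ∑ z ∈ Z, μ z * ∫ t in α..β, dn w z.im t * V t ^ m :=
        Finset.sum_le_sum_of_subset_of_nonneg (Finset.filter_subset _ _) fun z hz _ => hpos z hz
    _ = ∫ t in α..β, ∑ z ∈ Z, μ z * (dn w z.im t * V t ^ m) := hsum
    _ ≤ ∫ t in α..β, 2 * (V t ^ m * N t) := by
        refine intervalIntegral.integral_mono_on hαβ (sum_ii Z _ fun z _ => hi z) hVN fun t _ => ?_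
        have h1 : ∑ z ∈ Z, μ z * (dn w z.im t * V t ^ m) = (∑ z ∈ Z, μ z * dn w z.im t) * V t ^ m := by
          rw [Finset.sum_mul]
          exact Finset.sum_congr rfl fun z _ => by ring
        rw [h1]
        calc (∑ z ∈ Z, μ z * dn w z.im t) * V t ^ m ≤ (2 * N t) * V t ^ m :=
              mul_le_mul_of_nonneg_right (hcnt t) (pow_nonneg (hV0 t) m)
          _ = _ := by ring
    _ = 2 * ∫ t in α..β, V t ^ m * N t := intervalIntegral.integral_const_mul _ _

/-- the arithmetic-geometric mean inequality for the integral of a product -/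
lemma amgm {X Y : ℝ → ℝ} {α β κ lam : ℝ} (hαβ : α ≤ β) (hl : 0 < lam) (hκ : 0 ≤ κ)
    (hX : ContinuousOn X (Icc α β)) (hY : ContinuousOn Y (Icc α β)) (m : ℕ) {N : ℝ → ℝ} (hN : Continuous N) :
    2 * ∫ t in α..β, (|X t| + κ * |Y t|) ^ m * N t ≤
      lam * (2 ^ (2 * m) * ((∫ t in α..β, |X t| ^ (2 * m)) + κ ^ (2 * m) * ∫ t in α..β, |Y t| ^ (2 * m))) +
        1 / lam * ∫ t in α..β, N t ^ 2 := by
  have hVc : ContinuousOn (fun t => |X t| + κ * |Y t|) (Icc α β) := hX.abs.add (continuousOn_const.mul hY.abs)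
  have ii : ∀ {f : ℝ → ℝ}, ContinuousOn f (Icc α β) → IntervalIntegrable f volume α β := by
    intro f hf
    apply ContinuousOn.intervalIntegrable
    rwa [uIcc_of_le hαβ]
  have i1 : IntervalIntegrable (fun t => |X t| ^ (2 * m)) volume α β := ii (hX.abs.pow _)
  have i2 : IntervalIntegrable (fun t => |Y t| ^ (2 * m)) volume α β := ii (hY.abs.pow _)
  have i3 : IntervalIntegrable (fun t => N t ^ 2) volume α β := ii (hN.continuousOn.pow 2)
  have i4 : IntervalIntegrable (fun t => 2 * ((|X t| + κ * |Y t|) ^ m * N t)) volume α β :=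
    ii (continuousOn_const.mul ((hVc.pow m).mul hN.continuousOn))
  rw [← intervalIntegral.integral_const_mul]
  calc ∫ t in α..β, 2 * ((|X t| + κ * |Y t|) ^ m * N t)
      ≤ ∫ t in α..β, (lam * (2 ^ (2 * m) * (|X t| ^ (2 * m) + κ ^ (2 * m) * |Y t| ^ (2 * m))) + 1 / lam * N t ^ 2) := by
        refine intervalIntegral.integral_mono_on hαβ i4
          ((((i1.add (i2.const_mul _)).const_mul _).const_mul _).add (i3.const_mul _)) fun t _ => ?_
        set x := |X t| with hx
        set y := κ * |Y t| with hy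
        have hx0 : 0 ≤ x := abs_nonneg _
        have hy0 : 0 ≤ y := mul_nonneg hκ (abs_nonneg _)
        have h1 : (x + y) ^ (2 * m) ≤ 2 ^ (2 * m) * (x ^ (2 * m) + κ ^ (2 * m) * |Y t| ^ (2 * m)) := by
          rw [← mul_pow, ← hy]
          have e3 : (x + y) ^ (2 * m) ≤ 2 ^ (2 * m - 1) * (x ^ (2 * m) + y ^ (2 * m)) := add_pow_le hx0 hy0 (2 * m)
          have e4 : (2 : ℝ) ^ (2 * m - 1) ≤ 2 ^ (2 * m) := pow_le_pow_right₀ (by norm_num) (Nat.sub_le _ _)
          exact e3.trans (mul_le_mul_of_nonneg_right e4 (by positivity))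
        set v := (x + y) ^ m with hv
        have h2 : (x + y) ^ (2 * m) = v ^ 2 := by rw [hv, ← pow_mul, mul_comm]
        rw [h2] at h1
        have h3 : 2 * (v * N t) ≤ lam * v ^ 2 + 1 / lam * N t ^ 2 := by
          have h4 : lam * v ^ 2 + 1 / lam * N t ^ 2 - 2 * (v * N t) = 1 / lam * (lam * v - N t) ^ 2 := by
            field_simp
            ring
          have h5 : 0 ≤ 1 / lam * (lam * v - N t) ^ 2 := by positivity
          linarith
        have h6 := mul_le_mul_of_nonneg_left h1 hl.le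
        linarith
    _ = _ := by
        rw [intervalIntegral.integral_add (((i1.add (i2.const_mul _)).const_mul _).const_mul _) (i3.const_mul _),
          intervalIntegral.integral_const_mul, intervalIntegral.integral_const_mul, intervalIntegral.integral_const_mul,
          intervalIntegral.integral_add i1 (i2.const_mul _), intervalIntegral.integral_const_mul]

end MZL

open MZL in
theorem t_MZ (hB : S_BMI) (hW : S_WIG) (hC : S_CVR) : S_MZ := by
  intro G₀ u₀ hG₀ G u hG m f hf hs E a b hE hE1 ha hab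
  have hb : 0 < b := ha.trans hab
  have hf2 : ContDiff ℝ 2 f := hf.of_le (by norm_num)
  have hf' : ContDiff ℝ 2 (deriv f) := by
    have h1 := hf
    rw [show (3 : WithTop ℕ∞) = 2 + 1 by norm_num, contDiff_succ_iff_deriv] at h1
    exact h1.2.2
  obtain ⟨C1, K1, T1, hC1, hK1, hT1, h1⟩ := hB G u hG (2 * m) f hf2 hs a b ha hab
  obtain ⟨C2, K2, T2, hC2, hK2, hT2, h2⟩ := hB G u hG (2 * m) (deriv f) hf' hs.deriv a b ha hab
  obtain ⟨C3, K3, T3, hC3, hK3, hT3, h3⟩ := hW G₀ u₀ hG₀ 2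
  obtain ⟨CB, hCB, hbad⟩ := TRGL.bad_le hG₀.good
  obtain ⟨CN, TN, hCN, hTN, hNN⟩ := H370.nn_asymp hG₀.good
  obtain ⟨Cz, hCz, hz⟩ := H370.zcount hG.good
  obtain ⟨A, hA, hA'⟩ := FINL.bd hs
  obtain ⟨A2, hA2, hA2'⟩ := FINL.bd hs.deriv
  obtain ⟨M, hM⟩ := hf2.continuous.bounded_above_of_compact_support hs
  have hM0 : 0 ≤ M := (norm_nonneg _).trans (hM 0)
  obtain ⟨I0, hI0⟩ : ∃ I0 : ℝ, I0 = |∫ x : ℝ, f x| := ⟨_, rfl⟩
  have hI00 : 0 ≤ I0 := by rw [hI0]; exact abs_nonneg _
  obtain ⟨C5, hC5⟩ : ∃ C5 : ℝ, C5 = 2 * M * Cz + I0 := ⟨_, rfl⟩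
  have hC50 : 0 ≤ C5 := by rw [hC5]; positivity
  obtain ⟨C4, hC4⟩ : ∃ C4 : ℝ, C4 = 2 ^ (2 * m) * (C1 / a + b ^ (2 * m) * (C2 / a)) := ⟨_, rfl⟩
  have hC40 : 0 ≤ C4 := by rw [hC4]; positivity
  -- large `T`
  have hll : Tendsto (fun T : ℝ => Real.log (Real.log T)) atTop atTop :=
    Real.tendsto_log_atTop.comp Real.tendsto_log_atTop
  have hTE : Tendsto (fun T : ℝ => T ^ E) atTop atTop := tendsto_rpow_atTop hE
  have hev : ∀ᶠ T : ℝ in atTop, (T1 ≤ T ^ E ∧ T2 ≤ T ^ E ∧ 4 / a ≤ T ^ E) ∧ (T3 ≤ T ∧ TN ≤ T ∧ 100 ≤ T) ∧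
      1 ≤ Real.log (Real.log T) ∧ (1 / E ≤ Real.log T ∧ |Real.log b| ≤ Real.log T ∧ 16 * CN ≤ Real.log T) ∧
      CB * Real.log T ^ 2 * (C5 * Real.log T) ^ m ≤ T := by
    refine ((hTE.eventually_ge_atTop T1).and ((hTE.eventually_ge_atTop T2).and (hTE.eventually_ge_atTop (4 / a)))).and
      (((eventually_ge_atTop T3).and ((eventually_ge_atTop TN).and (eventually_ge_atTop 100))).and
      ((hll.eventually_ge_atTop 1).and (((Real.tendsto_log_atTop.eventually_ge_atTop (1 / E)).and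
        ((Real.tendsto_log_atTop.eventually_ge_atTop |Real.log b|).and
          (Real.tendsto_log_atTop.eventually_ge_atTop (16 * CN)))).and ?_)))
    have h4 : 0 < CB * C5 ^ m + 1 := by positivity
    have h5 := (Real.isLittleO_pow_log_id_atTop (n := m + 2)).bound (show 0 < 1 / (CB * C5 ^ m + 1) by positivity)
    filter_upwards [h5, eventually_ge_atTop (1 : ℝ)] with T h6 h7
    have hL0 : 0 ≤ Real.log T := Real.log_nonneg h7
    rw [Real.norm_eq_abs, abs_of_nonneg (pow_nonneg hL0 _)] at h6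
    simp only [id, Real.norm_eq_abs] at h6
    rw [abs_of_nonneg (by linarith : (0 : ℝ) ≤ T)] at h6
    calc CB * Real.log T ^ 2 * (C5 * Real.log T) ^ m = (CB * C5 ^ m) * Real.log T ^ (m + 2) := by ring
      _ ≤ (CB * C5 ^ m + 1) * (1 / (CB * C5 ^ m + 1) * T) :=
          mul_le_mul (by linarith) h6 (by positivity) h4.le
      _ = T := by field_simp
  obtain ⟨T4, hT4⟩ := eventually_atTop.1 hev
  refine ⟨16 * (C4 + C3 + 1), K1 + K2 + K3 + 2 / E + A + A2, max T4 10, by positivity, ?_, le_max_right _ _,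
    fun T hT h hhL hhK g hg => ?_⟩
  · have : 0 ≤ 2 / E := by positivity
    linarith
  obtain ⟨⟨e1, e2, e3⟩, ⟨e4, e5, e6⟩, e7, ⟨e8, e9, e10⟩, e11⟩ := hT4 T ((le_max_left _ _).trans hT)
  obtain ⟨K, hK⟩ : ∃ K : ℝ, K = K1 + K2 + K3 + 2 / E + A + A2 := ⟨_, rfl⟩
  rw [← hK] at hhL hhK
  have hEpos : 0 ≤ 2 / E := by positivity
  have hK0 : 1 ≤ K := by rw [hK]; linarith
  set L := Real.log T with hLdef
  have hT0 : 0 < T := by linarith
  have hL1 : 1 ≤ L := by
    rw [hLdef, Real.le_log_iff_exp_le (by linarith)]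
    linarith [Real.exp_one_lt_d9]
  have hLT : 8 * L ≤ T := by
    have h1 : Real.log (T / 32) ≤ T / 32 - 1 := Real.log_le_sub_one_of_pos (by linarith)
    rw [Real.log_div (by linarith) (by norm_num), ← hLdef] at h1
    have h2 : Real.log 32 ≤ 4 := by
      have h3 : (32 : ℝ) = 2 ^ 5 := by norm_num
      rw [h3, Real.log_pow]
      have := Real.log_two_lt_d9
      push_cast
      linarith
    linarith
  -- the scale
  have hll2 : 1 ≤ Real.log L ^ 2 := one_le_pow₀ e7
  have hhL0 : 0 < h * L := lt_of_lt_of_le (mul_pos (by linarith) (by linarith)) hhL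
  have hh0 : 0 < h := pos_of_mul_pos_left hhL0 (by linarith)
  have hle : ∀ {x : ℝ}, 0 < x → x ≤ K → h ≤ 1 / x := fun hx hxK => hhK.trans (one_div_le_one_div_of_le hx hxK)
  have hh1 : h ≤ 1 := (hle one_pos hK0).trans (by norm_num)
  have hhA : h * A ≤ 1 := by
    have := hle hA (by rw [hK]; linarith)
    rwa [le_div_iff₀ hA] at this
  have hhA2 : h * A2 ≤ 1 := by
    have := hle hA2 (by rw [hK]; linarith)
    rwa [le_div_iff₀ hA2] at this
  have hc1 : C2c (fun x => f (x / h)) := FINL.c2c_scale hf2 hA' hh0 hhA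
  have hc2 : C2c (fun x => deriv f (x / h)) := FINL.c2c_scale hf' hA2' hh0 hhA2
  have hTE0 : 0 < T ^ E := Real.rpow_pos_of_pos hT0 _
  have hlogE : Real.log (T ^ E) = E * L := Real.log_rpow hT0 _
  have hTE1 : 1 ≤ E * L := by
    rw [div_le_iff₀ hE] at e8
    linarith
  have hTE2 : E * L ≤ L := mul_le_of_le_one_left (by linarith) hE1
  have hcond : 2 * Real.log (Real.log (T ^ E)) ^ 2 ≤ h * Real.log (T ^ E) := by
    rw [hlogE]
    have h4 : 0 ≤ Real.log (E * L) := Real.log_nonneg hTE1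
    have h5 : Real.log (E * L) ≤ Real.log L := Real.log_le_log (by linarith) hTE2
    have h6 : Real.log (E * L) ^ 2 ≤ Real.log L ^ 2 := pow_le_pow_left₀ h4 h5 2
    have h7 : 2 / E * Real.log L ^ 2 ≤ h * L := by
      refine le_trans (mul_le_mul_of_nonneg_right ?_ (by positivity)) hhL
      rw [hK]; linarith
    have h8 : 2 * Real.log L ^ 2 ≤ E * (h * L) := by
      have h9 := mul_le_mul_of_nonneg_left h7 hE.le
      have h10 : E * (2 / E * Real.log L ^ 2) = 2 * Real.log L ^ 2 := by field_simp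
      rwa [h10] at h9
    calc 2 * Real.log (E * L) ^ 2 ≤ 2 * Real.log L ^ 2 := by linarith
      _ ≤ E * (h * L) := h8
      _ = h * (E * L) := by ring
  obtain ⟨hX1, hX2⟩ := h1 (T ^ E) e1 h hcond (hle (by linarith) (by rw [hK]; linarith))
  obtain ⟨hY1, hY2⟩ := h2 (T ^ E) e2 h hcond (hle (by linarith) (by rw [hK]; linarith))
  have hN2 := h3 T e4 h (le_trans (le_mul_of_one_le_left (by positivity) hK0) hhL) (hle (by linarith) (by rw [hK]; linarith))
  rw [← hLdef] at hN2
  have hbad' := hbad T h e6 hh0 hh1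
  rw [← hLdef] at hbad'
  -- the functions
  obtain ⟨g', hg1, hg2, -, hg4⟩ := hg.der
  have hgc : ContinuousOn g (Icc T (2 * T)) := fun s hs => (hg2 s hs).continuousAt.continuousWithinAt
  have hmap : MapsTo g (Icc T (2 * T)) (Icc (a * T ^ E) (b * T ^ E)) := fun s hs => hg.maps s hs
  set X : ℝ → ℝ := fun s => XG G (fun x => f (x / h)) (T ^ E) (g s) with hX
  set Y : ℝ → ℝ := fun s => XG G (fun x => deriv f (x / h)) (T ^ E) (g s) with hY
  have hXc : ContinuousOn X (Icc T (2 * T)) := hX1.comp hgc hmap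
  have hYc : ContinuousOn Y (Icc T (2 * T)) := hY1.comp hgc hmap
  have h4a : 4 ≤ a * T ^ E := by
    rw [div_le_iff₀ ha] at e3
    linarith
  obtain ⟨c, hc⟩ : ∃ c : ℝ, c = b * T ^ (E - 1) * (1 / h) := ⟨_, rfl⟩
  have hT1E : 0 < T ^ (E - 1) := Real.rpow_pos_of_pos hT0 _
  have hc0 : 0 ≤ c := by rw [hc]; positivity
  have hinc : ∀ x y : ℝ, T ≤ x → x ≤ y → y ≤ 2 * T → |X y - X x| ≤ ∫ r in x..y, c * |Y r| := by
    intro x y hx hxy hy
    have hsub : Icc x y ⊆ Icc T (2 * T) := Icc_subset_Icc hx hy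
    have hder : ∀ r ∈ Icc x y, HasDerivAt X (-(1 / h * Y r) * g' r) r := by
      intro r hr
      have h5 := XG_deriv hG hf2 hs hh0 hc1 hc2 (T := T ^ E) (r := g r) (h4a.trans (hg.maps r (hsub hr)).1)
      exact HasDerivAt.comp r h5 (hg2 r (hsub hr))
    have hcc : ContinuousOn Y (Icc x y) := hYc.mono hsub
    have hint : IntervalIntegrable (fun r => -(1 / h * Y r) * g' r) volume x y := by
      refine ContinuousOn.intervalIntegrable ?_
      rw [uIcc_of_le hxy]
      exact ((continuousOn_const.mul hcc).neg).mul (hg1.mono hsub)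
    rw [← intervalIntegral.integral_eq_sub_of_hasDerivAt (fun r hr => hder r (by rwa [uIcc_of_le hxy] at hr)) hint]
    have hint2 : IntervalIntegrable (fun r => c * |Y r|) volume x y := by
      refine ContinuousOn.intervalIntegrable ?_
      rw [uIcc_of_le hxy]
      exact continuousOn_const.mul hcc.abs
    rw [← Real.norm_eq_abs]
    refine intervalIntegral.norm_integral_le_of_norm_le hxy ?_ hint2
    refine Eventually.of_forall fun r hr => ?_
    have hr' : r ∈ Icc T (2 * T) := hsub ⟨hr.1.le, hr.2⟩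
    rw [norm_mul, norm_neg, norm_mul, Real.norm_eq_abs, Real.norm_eq_abs, Real.norm_eq_abs,
      abs_of_pos (by positivity : 0 < 1 / h), hc]
    calc 1 / h * |Y r| * |g' r| ≤ 1 / h * |Y r| * (b * T ^ (E - 1)) :=
          mul_le_mul_of_nonneg_left (hg4 r hr') (by positivity)
      _ = _ := by ring
  -- the second moments
  have hTT : T * T ^ (E - 1) = T ^ E := by
    rw [Real.rpow_sub_one hT0.ne']
    field_simp
  have hmom : ∀ {F : ℝ → ℝ} {C0 : ℝ}, ContinuousOn (XG G F (T ^ E)) (Icc (a * T ^ E) (b * T ^ E)) →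
      ∫ t in (a * T ^ E)..(b * T ^ E), |XG G F (T ^ E) t| ^ (2 * m) ≤ C0 * T ^ E →
      ∫ t in (T + 2 * L)..(2 * T - 2 * L), |XG G F (T ^ E) (g t)| ^ (2 * m) ≤ C0 / a * T := by
    intro F C0 hFc hFi
    have h5 := hC E a b T ha hab hT0 g hg (fun v => |XG G F (T ^ E) v| ^ (2 * m)) (hFc.abs.pow _)
      (fun v => by positivity)
    have hi : IntervalIntegrable (fun s => |XG G F (T ^ E) (g s)| ^ (2 * m)) volume T (2 * T) := by
      refine ContinuousOn.intervalIntegrable ?_
      rw [uIcc_of_le (by linarith)]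
      exact (hFc.comp hgc hmap).abs.pow _
    have h6 : ∫ t in (T + 2 * L)..(2 * T - 2 * L), |XG G F (T ^ E) (g t)| ^ (2 * m) ≤
        ∫ t in T..(2 * T), |XG G F (T ^ E) (g t)| ^ (2 * m) :=
      intervalIntegral.integral_mono_interval (by linarith) (by linarith) (by linarith)
        (Eventually.of_forall fun t => by positivity) hi
    refine h6.trans (h5.trans ?_)
    calc 1 / (a * T ^ (E - 1)) * ∫ v in (a * T ^ E)..(b * T ^ E), |XG G F (T ^ E) v| ^ (2 * m)
        ≤ 1 / (a * T ^ (E - 1)) * (C0 * T ^ E) := mul_le_mul_of_nonneg_left hFi (by positivity)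
      _ = C0 / a * T := by
          rw [← hTT]
          field_simp
  have hXm := hmom hX1 hX2
  have hYm := hmom hY1 hY2
  have hαβ : T + 2 * L ≤ 2 * T - 2 * L := by linarith
  have hsub : Icc (T + 2 * L) (2 * T - 2 * L) ⊆ Icc T (2 * T) := Icc_subset_Icc (by linarith) (by linarith)
  have hcore := core (Z := H370.Zf G₀ T (2 * T)) (μ := fun z => (H370.mult G₀ z : ℝ)) (fun z _ => Nat.cast_nonneg _)
    hαβ hh0 hc0 (hXc.mono hsub) (hYc.mono hsub)
    (fun x y hx hxy hy => hinc x y (by linarith) hxy (by linarith)) m (NWc G₀ T h) (fun t => cnt_le G₀ T hh0 t)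
  have hκ : h * c = b * T ^ (E - 1) := by rw [hc]; field_simp
  have hκb : b * T ^ (E - 1) ≤ b := by
    refine mul_le_of_le_one_right hb.le ?_
    exact Real.rpow_le_one_of_one_le_of_nonpos (by linarith) (by linarith)
  rw [hκ] at hcore
  have ham := amgm (κ := b * T ^ (E - 1)) (lam := h * L) hαβ hhL0 (by positivity) (hXc.mono hsub) (hYc.mono hsub) m
    (NWc G₀ T h)
  obtain ⟨SG, hSG⟩ : ∃ SG : ℝ, SG = ∑ z ∈ (H370.Zf G₀ T (2 * T)).filter
      (fun z => T + 2 * L + h ≤ z.im ∧ z.im ≤ 2 * T - 2 * L), (H370.mult G₀ z : ℝ) * |X z.im| ^ m := ⟨_, rfl⟩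
  obtain ⟨SB, hSB⟩ : ∃ SB : ℝ, SB = ∑ z ∈ (H370.Zf G₀ T (2 * T)).filter
      (fun z => ¬ (T + 2 * L + h ≤ z.im ∧ z.im ≤ 2 * T - 2 * L)), (H370.mult G₀ z : ℝ) * |X z.im| ^ m := ⟨_, rfl⟩
  have hgood : SG ≤ (C4 + C3) * (L * T) := by
    have h5 : h * SG ≤ h * ((C4 + C3) * (L * T)) := by
      rw [hSG]
      refine hcore.trans (ham.trans ?_)
      have h6 : (b * T ^ (E - 1)) ^ (2 * m) ≤ b ^ (2 * m) := pow_le_pow_left₀ (by positivity) hκb _
      have h7 : 0 ≤ ∫ t in (T + 2 * L)..(2 * T - 2 * L), |Y t| ^ (2 * m) :=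
        intervalIntegral.integral_nonneg hαβ fun t _ => by positivity
      have h8 : (b * T ^ (E - 1)) ^ (2 * m) * (∫ t in (T + 2 * L)..(2 * T - 2 * L), |Y t| ^ (2 * m)) ≤
          b ^ (2 * m) * (C2 / a * T) := mul_le_mul h6 hYm h7 (by positivity)
      have h9 : h * L * (2 ^ (2 * m) * ((∫ t in (T + 2 * L)..(2 * T - 2 * L), |X t| ^ (2 * m)) +
          (b * T ^ (E - 1)) ^ (2 * m) * ∫ t in (T + 2 * L)..(2 * T - 2 * L), |Y t| ^ (2 * m))) ≤
          h * L * (2 ^ (2 * m) * (C1 / a * T + b ^ (2 * m) * (C2 / a * T))) := by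
        refine mul_le_mul_of_nonneg_left (mul_le_mul_of_nonneg_left (add_le_add hXm h8) (by positivity)) hhL0.le
      have h10 : 1 / (h * L) * (∫ t in (T + 2 * L)..(2 * T - 2 * L), NWG G₀ T h t ^ 2) ≤
          1 / (h * L) * (C3 * (h * L) ^ 2 * T) := mul_le_mul_of_nonneg_left hN2 (by positivity)
      refine (add_le_add h9 h10).trans (le_of_eq ?_)
      rw [hC4]
      field_simp
    exact le_of_mul_le_mul_left h5 hh0
  -- the zeros near the ends
  have hXle : ∀ z ∈ H370.Zf G₀ T (2 * T), |X z.im| ≤ C5 * L := by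
    intro z hz'
    have hz2 := (H370.mem_Zf hG₀.good (by linarith)).1 hz'
    have hzm : z.im ∈ Icc T (2 * T) := ⟨hz2.2.2.1.le, hz2.2.2.2.1⟩
    obtain ⟨k1, k2⟩ := hg.maps _ hzm
    have h5 : 3 ≤ g z.im := by linarith
    have h6 : Real.log (g z.im) ≤ 2 * L := by
      refine (Real.log_le_log (by linarith) k2).trans ?_
      rw [Real.log_mul hb.ne' hTE0.ne', hlogE]
      have := le_abs_self (Real.log b)
      linarith
    have h7 : |∫ x : ℝ, f (x / h)| ≤ I0 := by
      rw [Measure.integral_comp_div, smul_eq_mul, abs_mul, abs_abs, abs_of_pos hh0, ← hI0]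
      exact mul_le_of_le_one_left hI00 hh1
    have h8 := crude hG hc1 (M := M) (fun x => hM (x / h)) hz h7 (T := T ^ E) h5
      (Real.one_le_rpow (by linarith) hE.le)
    refine h8.trans ?_
    rw [hlogE, hC5]
    calc M * (Cz * Real.log (g z.im)) + E * L * I0 ≤ M * (Cz * (2 * L)) + L * I0 := by gcongr
      _ = _ := by ring
  have hbadS : SB ≤ L * T := by
    have h5 : SB ≤ (C5 * L) ^ m * (CB * L ^ 2) := by
      rw [hSB]
      refine le_trans ?_ (mul_le_mul_of_nonneg_left hbad' (by positivity))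
      rw [Finset.mul_sum]
      refine Finset.sum_le_sum fun z hz' => ?_
      rw [mul_comm]
      exact mul_le_mul_of_nonneg_right
        (pow_le_pow_left₀ (abs_nonneg _) (hXle z (Finset.mem_filter.1 hz').1) m) (Nat.cast_nonneg _)
    have h6 : (C5 * L) ^ m * (CB * L ^ 2) ≤ T := by linarith
    have h7 : T ≤ L * T := le_mul_of_one_le_left hT0.le hL1
    linarith
  -- the number of zeros
  have hpi := Real.pi_gt_three
  have hpi4 := Real.pi_le_four
  obtain ⟨P, hP⟩ : ∃ P : ℝ, P = L / (2 * Real.pi) := ⟨_, rfl⟩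
  have hPL8 : L ≤ 8 * P := by
    rw [hP, ← mul_div_assoc, le_div_iff₀ (by positivity)]
    nlinarith
  have hNN' : |(H370.NN G₀ T (2 * T) : ℝ) - T * P| ≤ CN * T := by
    have h1 := hNN T e5 T (2 * T) le_rfl (by linarith) (by linarith) le_rfl
    have h2 : T * Real.log T / (2 * Real.pi) = T * P := by rw [hP]; ring
    rwa [h2] at h1
  obtain ⟨Q, hQ⟩ : ∃ Q : ℝ, Q = (H370.NN G₀ T (2 * T) : ℝ) := ⟨_, rfl⟩
  have hQP : L * T / 16 ≤ Q := by
    have h5 := (abs_le.1 hNN').1
    rw [← hQ] at h5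
    have h6 : CN * T ≤ L / 16 * T := mul_le_mul_of_nonneg_right (by linarith) hT0.le
    have h7 : L / 8 * T ≤ P * T := mul_le_mul_of_nonneg_right (by linarith) hT0.le
    linarith
  have hQ0 : 0 < Q := lt_of_lt_of_le (by positivity) hQP
  obtain ⟨hi, he⟩ := mZ_intR (G := G₀) T (fun s => |X s| ^ m)
  refine ⟨hi, ?_⟩
  have hsum : ∑ z ∈ H370.Zf G₀ T (2 * T), (H370.mult G₀ z : ℝ) * |X z.im| ^ m = SG + SB := by
    rw [hSG, hSB]
    exact (Finset.sum_filter_add_sum_filter_not _ _ _).symm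
  have he' : ∫ s, |X s| ^ m ∂(mZ G₀ T) = 1 / Q * (SG + SB) := by
    rw [he, ← hQ, hsum]
  refine he'.le.trans ?_
  rw [one_div, inv_mul_le_iff₀ hQ0]
  have h5 : SG + SB ≤ (C4 + C3 + 1) * (L * T) := by linarith
  refine h5.trans ?_
  calc (C4 + C3 + 1) * (L * T) = (L * T / 16) * (16 * (C4 + C3 + 1)) := by ring
    _ ≤ Q * (16 * (C4 + C3 + 1)) := mul_le_mul_of_nonneg_right hQP (by positivity)

end Pool.Agent.H203.GE
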