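import Pool.Agent.H203.GE.Defs4

set_option autoImplicit false

/-! ONP (helper225 for helper203): the moment method backwards, for probability measures -/

open Complex Filter Topology Set MeasureTheory

namespace Pool.Agent.H203.GE

open Pool.Agent.H203.ME hiding BG S_PT S_BBI S_EFW S_APX S_PRM

namespace ONPL

lemma avg {Ω : Type} [MeasurableSpace Ω] {P : Measure Ω} [IsProbabilityMeasure P] {y : Ω → ℝ}
    {u C1 M : ℝ} {k : ℕ} (hy : AEStronglyMeasurable y P) (hu : 0 < u) (hC1 : 0 ≤ C1)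
    (h1 : ∀ x : ℝ, ‖cexp (I * (x : ℂ)) - ∑ j ∈ Finset.range (k + 1), (I * (x : ℂ)) ^ j / (j.factorial : ℂ)‖ ≤ C1 * |x| ^ (k + 1))
    (hint : ∀ j ∈ Finset.range (k + 2), Integrable (fun ω => |y ω| ^ j) P)
    (hM : ∫ ω, |y ω| ^ (k + 1) ∂P ≤ M) :
    ‖(∫ ω, cexp (I * ((u * y ω : ℝ) : ℂ)) ∂P) -
      ∑ j ∈ Finset.range (k + 1), (I * (u : ℂ)) ^ j / (j.factorial : ℂ) * ((∫ ω, (y ω) ^ j ∂P : ℝ) : ℂ)‖
      ≤ C1 * |M| * u ^ (k + 1) := by
  have hyj : ∀ j ∈ Finset.range (k + 1), Integrable (fun ω => (y ω) ^ j) P := by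
    intro j hj
    refine (hint j (Finset.mem_range.2 ((Finset.mem_range.1 hj).trans (Nat.lt_succ_self _)))).mono'
      (hy.pow j) (Eventually.of_forall fun ω => ?_)
    rw [norm_pow, Real.norm_eq_abs]
  have hpj : ∀ j ∈ Finset.range (k + 1),
      Integrable (fun ω => (I * ((u * y ω : ℝ) : ℂ)) ^ j / (j.factorial : ℂ)) P := by
    intro j hj
    have e : (fun ω => (I * ((u * y ω : ℝ) : ℂ)) ^ j / (j.factorial : ℂ)) =
        fun ω => ((I * (u : ℂ)) ^ j / (j.factorial : ℂ)) * (((y ω) ^ j : ℝ) : ℂ) := by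
      funext t
      push_cast
      rw [← mul_assoc, mul_pow (I * (u : ℂ))]
      ring
    rw [e]
    exact (hyj j hj).ofReal.const_mul _
  have hce : Integrable (fun ω => cexp (I * ((u * y ω : ℝ) : ℂ))) P := by
    refine Integrable.of_bound ?_ 1 (Eventually.of_forall fun ω => ?_)
    · have hc : Continuous fun x : ℝ => cexp (I * ((u * x : ℝ) : ℂ)) := by fun_prop
      exact hc.comp_aestronglyMeasurable hy
    · rw [mul_comm, Complex.norm_exp_ofReal_mul_I]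
  have e1 : ∑ j ∈ Finset.range (k + 1), (I * (u : ℂ)) ^ j / (j.factorial : ℂ) * ((∫ ω, (y ω) ^ j ∂P : ℝ) : ℂ)
      = ∫ ω, ∑ j ∈ Finset.range (k + 1), (I * ((u * y ω : ℝ) : ℂ)) ^ j / (j.factorial : ℂ) ∂P := by
    rw [integral_finsetSum _ hpj]
    refine Finset.sum_congr rfl fun j _ => ?_
    have : ∀ ω, (I * ((u * y ω : ℝ) : ℂ)) ^ j / (j.factorial : ℂ) =
        ((I * (u : ℂ)) ^ j / (j.factorial : ℂ)) * (((y ω) ^ j : ℝ) : ℂ) := by
      intro t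
      push_cast
      rw [← mul_assoc, mul_pow (I * (u : ℂ))]
      ring
    simp_rw [this]
    rw [integral_const_mul, integral_complex_ofReal]
  rw [e1, ← integral_sub hce (integrable_finsetSum _ hpj)]
  have e2 : ‖∫ ω, (cexp (I * ((u * y ω : ℝ) : ℂ)) -
      ∑ j ∈ Finset.range (k + 1), (I * ((u * y ω : ℝ) : ℂ)) ^ j / (j.factorial : ℂ)) ∂P‖ ≤
      ∫ ω, (C1 * u ^ (k + 1)) * |y ω| ^ (k + 1) ∂P := by
    apply norm_integral_le_of_norm_le
    · exact (hint (k + 1) (Finset.mem_range.2 (Nat.lt_succ_self _))).const_mul _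
    · refine Filter.Eventually.of_forall fun ω => ?_
      refine (h1 (u * y ω)).trans (le_of_eq ?_)
      rw [abs_mul, mul_pow, abs_of_pos hu]
      ring
  rw [integral_const_mul] at e2
  have e4 : ∫ ω, |y ω| ^ (k + 1) ∂P ≤ |M| := hM.trans (le_abs_self M)
  have e5 : (0 : ℝ) ≤ C1 * u ^ (k + 1) := by positivity
  calc _ ≤ (C1 * u ^ (k + 1)) * |M| := e2.trans (mul_le_mul_of_nonneg_left e4 e5)
    _ = C1 * |M| * u ^ (k + 1) := by ring

end ONPL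

open ONPL in
theorem t_ONP : S_ONP := by
  intro Ω _ P Y σ hσ hP hc hb hlim k
  induction k using Nat.strong_induction_on with
  | _ k ih =>
  obtain ⟨C1, hC1, h1⟩ := Pool.Agent.H203.ME.ONEL.tay (k + 1)
  obtain ⟨C2, hC2, h2⟩ := Pool.Agent.H203.ME.ONEL.gau σ hσ (k + 1)
  choose Mf hMf using hb
  obtain ⟨M, hMd⟩ : ∃ M, M = Mf (k + 1) := ⟨_, rfl⟩
  have hall : ∀ᶠ T : ℝ in atTop, ∀ j ∈ Finset.range (k + 2),
      Integrable (fun ω => |Y T ω| ^ j) (P T) ∧ ∫ ω, |Y T ω| ^ j ∂(P T) ≤ Mf j := by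
    rw [Filter.eventually_all_finset]
    exact fun j _ => hMf j
  rw [Metric.tendsto_nhds]
  intro δ hδ
  have hfk : (0 : ℝ) < (k.factorial : ℝ) := by exact_mod_cast k.factorial_pos
  obtain ⟨B, hB⟩ : ∃ B : ℝ, B = C1 * |M| + C2 + 1 := ⟨_, rfl⟩
  have hBpos : 0 < B := by rw [hB]; positivity
  obtain ⟨u, hu⟩ : ∃ u : ℝ, u = min 1 (δ / (2 * (k.factorial : ℝ) * B)) := ⟨_, rfl⟩
  have hu0 : 0 < u := by rw [hu]; exact lt_min one_pos (by positivity)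
  have hu1 : u ≤ 1 := by rw [hu]; exact min_le_left _ _
  have hu2 : u ≤ δ / (2 * (k.factorial : ℝ) * B) := by rw [hu]; exact min_le_right _ _
  have hε : 0 < u ^ (k + 1) / 2 := by positivity
  have hl1 := (Metric.tendsto_nhds.1 (hlim u)) _ hε
  have hl2 : Tendsto (fun T : ℝ => ∑ j ∈ Finset.range k, (I * (u : ℂ)) ^ j / (j.factorial : ℂ) *
      (((∫ ω, (Y T ω) ^ j ∂(P T) : ℝ) : ℂ) - ((gm j σ : ℝ) : ℂ))) atTop (𝓝 0) := by
    have : (0 : ℂ) = ∑ j ∈ Finset.range k, (I * (u : ℂ)) ^ j / (j.factorial : ℂ) * (((gm j σ : ℝ) : ℂ) - ((gm j σ : ℝ) : ℂ)) := by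
      simp
    rw [this]
    apply tendsto_finsetSum
    intro j hj
    apply Tendsto.const_mul
    apply Tendsto.sub_const
    exact (continuous_ofReal.tendsto _).comp (ih j (Finset.mem_range.1 hj))
  have hl2' := (Metric.tendsto_nhds.1 hl2) _ hε
  filter_upwards [hP, hc, hall, hl1, hl2'] with T hPT hcT haT ha hbT
  have hav := avg (y := Y T) (M := M) hcT hu0 hC1 h1 (fun j hj => (haT j hj).1)
    (by rw [hMd]; exact (haT (k + 1) (Finset.mem_range.2 (Nat.lt_succ_self _))).2)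
  have hga := h2 u hu0 hu1
  rw [dist_eq_norm] at ha hbT
  rw [sub_zero] at hbT
  rw [Finset.sum_range_succ] at hav hga
  rw [Real.dist_eq]
  simp only [mul_sub, Finset.sum_sub_distrib] at hbT
  obtain ⟨S1, hS1⟩ : ∃ S1 : ℂ, S1 = ∑ j ∈ Finset.range k, (I * (u : ℂ)) ^ j / (j.factorial : ℂ) *
    ((∫ ω, (Y T ω) ^ j ∂(P T) : ℝ) : ℂ) := ⟨_, rfl⟩
  obtain ⟨S2, hS2⟩ : ∃ S2 : ℂ, S2 = ∑ j ∈ Finset.range k, (I * (u : ℂ)) ^ j / (j.factorial : ℂ) * ((gm j σ : ℝ) : ℂ) :=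
    ⟨_, rfl⟩
  obtain ⟨E, hE⟩ : ∃ E : ℂ, E = ∫ ω, cexp (I * ((u * Y T ω : ℝ) : ℂ)) ∂(P T) := ⟨_, rfl⟩
  obtain ⟨G, hG⟩ : ∃ G : ℂ, G = cexp (-((u ^ 2 * σ : ℝ) : ℂ) / 2) := ⟨_, rfl⟩
  obtain ⟨m, hm⟩ : ∃ m : ℝ, m = ∫ ω, (Y T ω) ^ k ∂(P T) := ⟨_, rfl⟩
  rw [← hS1, ← hE, ← hm] at hav
  rw [← hS2, ← hG] at hga
  rw [← hS1, ← hS2] at hbT
  rw [← hE, ← hG] at ha
  rw [← hm]
  have key : (I * (u : ℂ)) ^ k / (k.factorial : ℂ) * ((m - gm k σ : ℝ) : ℂ) =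
      -(E - (S1 + (I * (u : ℂ)) ^ k / (k.factorial : ℂ) * (m : ℂ))) + (E - G) +
      (G - (S2 + (I * (u : ℂ)) ^ k / (k.factorial : ℂ) * ((gm k σ : ℝ) : ℂ))) - (S1 - S2) := by
    push_cast
    ring
  have hn : ‖(I * (u : ℂ)) ^ k / (k.factorial : ℂ) * ((m - gm k σ : ℝ) : ℂ)‖ = u ^ k / (k.factorial : ℝ) * |m - gm k σ| := by
    rw [norm_mul, norm_div, norm_pow, norm_mul, Complex.norm_I, one_mul, Complex.norm_real, Complex.norm_natCast,
      Complex.norm_real, Real.norm_eq_abs, Real.norm_eq_abs, abs_of_pos hu0]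
  have hbd : u ^ k / (k.factorial : ℝ) * |m - gm k σ| ≤ B * u ^ (k + 1) := by
    rw [← hn, key]
    refine (norm_sub_le _ _).trans ?_
    have t1 := norm_add_le (-(E - (S1 + (I * (u : ℂ)) ^ k / (k.factorial : ℂ) * (m : ℂ))) + (E - G))
      (G - (S2 + (I * (u : ℂ)) ^ k / (k.factorial : ℂ) * ((gm k σ : ℝ) : ℂ)))
    have t2 := norm_add_le (-(E - (S1 + (I * (u : ℂ)) ^ k / (k.factorial : ℂ) * (m : ℂ)))) (E - G)
    rw [norm_neg] at t2
    rw [hB]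
    nlinarith
  have hbd2 : |m - gm k σ| ≤ (k.factorial : ℝ) * B * u := by
    have h3 : 0 < u ^ k / (k.factorial : ℝ) := by positivity
    have h4 : u ^ k / (k.factorial : ℝ) * |m - gm k σ| ≤ u ^ k / (k.factorial : ℝ) * ((k.factorial : ℝ) * B * u) := by
      refine hbd.trans (le_of_eq ?_)
      rw [pow_succ]
      field_simp
    exact le_of_mul_le_mul_left h4 h3
  refine hbd2.trans_lt ?_
  calc (k.factorial : ℝ) * B * u ≤ (k.factorial : ℝ) * B * (δ / (2 * (k.factorial : ℝ) * B)) :=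
        mul_le_mul_of_nonneg_left hu2 (by positivity)
    _ = δ / 2 := by field_simp
    _ < δ := by linarith

end Pool.Agent.H203.GE
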