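import Pool.Agent.H203.GE.ONP
import Pool.Agent.H203.ME.ALL5

set_option autoImplicit false

/-! Convergence of all mixed moments from the convergence of the characteristic functions and bounds for the moments. -/

open Complex Filter Topology Set MeasureTheory

namespace Pool.Agent.H203.GE

namespace WKML

open Pool.Agent.H203.ME (wick gm sn)

variable {k : ℕ} {Ω : Type} [MeasurableSpace Ω]

lemma lin_bd {P : Measure Ω} [IsProbabilityMeasure P] {x : Fin k → Ω → ℝ}
    (hm : ∀ j, AEStronglyMeasurable (x j) P) {B : Fin k → ℝ} {m : ℕ}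
    (hb : ∀ j, Integrable (fun ω => |x j ω| ^ m) P ∧ ∫ ω, |x j ω| ^ m ∂P ≤ B j) (c : Fin k → ℝ) :
    Integrable (fun ω => |∑ j, c j * x j ω| ^ m) P ∧
      ∫ ω, |∑ j, c j * x j ω| ^ m ∂P ≤ (k : ℝ) ^ m * (∑ j, |c j| ^ m * B j) + 1 := by
  have hpt : ∀ ω, |∑ j, c j * x j ω| ^ m ≤ (k : ℝ) ^ m * (∑ j, |c j| ^ m * |x j ω| ^ m) + 1 := by
    intro ω
    have e1 : |∑ j, c j * x j ω| ≤ ∑ j, |c j * x j ω| := Finset.abs_sum_le_sum_abs _ _
    have e2 := Pool.Agent.H203.ME.F6L.pow_sum_le (fun j => |c j * x j ω|) (fun j => abs_nonneg _) m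
    have e3 : |∑ j, c j * x j ω| ^ m ≤ (∑ j, |c j * x j ω|) ^ m := pow_le_pow_left₀ (abs_nonneg _) e1 m
    have e4 : ∑ j, |c j * x j ω| ^ m = ∑ j, |c j| ^ m * |x j ω| ^ m :=
      Finset.sum_congr rfl fun j _ => by rw [abs_mul, mul_pow]
    rw [e4] at e2
    exact e3.trans e2
  have hI : Integrable (fun ω => (k : ℝ) ^ m * (∑ j, |c j| ^ m * |x j ω| ^ m) + 1) P :=
    ((integrable_finsetSum _ fun j _ => (hb j).1.const_mul _).const_mul _).add (integrable_const _)
  have hY : AEStronglyMeasurable (fun ω => |∑ j, c j * x j ω| ^ m) P := by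
    have h1 : AEStronglyMeasurable (fun ω => ∑ j, c j * x j ω) P := by
      have := Finset.aestronglyMeasurable_sum (μ := P) Finset.univ (f := fun j ω => c j * x j ω)
        (fun j _ => (hm j).const_mul (c j))
      convert this using 1
      funext ω
      simp
    exact (continuous_abs.comp_aestronglyMeasurable h1).pow m
  have hYi : Integrable (fun ω => |∑ j, c j * x j ω| ^ m) P :=
    hI.mono' hY (Eventually.of_forall fun ω => by
      rw [Real.norm_eq_abs, abs_of_nonneg (pow_nonneg (abs_nonneg _) _)]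
      exact hpt ω)
  refine ⟨hYi, (integral_mono hYi hI hpt).trans ?_⟩
  rw [integral_add ((integrable_finsetSum _ fun j _ => (hb j).1.const_mul _).const_mul _) (integrable_const _),
    integral_const_mul, integral_finsetSum _ fun j _ => (hb j).1.const_mul _]
  have h1 : ∫ _ω, (1 : ℝ) ∂P = 1 := by simp
  rw [h1]
  gcongr with j _
  rw [integral_const_mul]
  gcongr
  exact (hb j).2

/-- convergence of the mixed moments -/
theorem wkM (P : ℝ → Measure Ω) (X : Fin k → ℝ → Ω → ℝ) (C : Fin k → Fin k → ℝ)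
    (hC : ∀ c : Fin k → ℝ, 0 ≤ ∑ i, ∑ j, c i * c j * C i j)
    (hP : ∀ᶠ T in atTop, IsProbabilityMeasure (P T))
    (hm : ∀ᶠ T in atTop, ∀ j, AEStronglyMeasurable (X j T) (P T))
    (hb : ∀ j m, ∃ B : ℝ, ∀ᶠ T in atTop, Integrable (fun ω => |X j T ω| ^ m) (P T) ∧ ∫ ω, |X j T ω| ^ m ∂(P T) ≤ B)
    (hch : ∀ v : Fin k → ℝ, Tendsto (fun T => ∫ ω, cexp (I * ((∑ j, v j * X j T ω : ℝ) : ℂ)) ∂(P T)) atTop
      (𝓝 (cexp (-((∑ i, ∑ j, v i * v j * C i j : ℝ) : ℂ) / 2)))) :
    Tendsto (fun T => ∫ ω, ∏ j, X j T ω ∂(P T)) atTop (𝓝 (wick C)) := by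
  have hbd : ∀ (c : Fin k → ℝ) (m : ℕ), ∃ B : ℝ, ∀ᶠ T in atTop, Integrable (fun ω => |∑ j, c j * X j T ω| ^ m) (P T) ∧
      ∫ ω, |∑ j, c j * X j T ω| ^ m ∂(P T) ≤ B := by
    intro c m
    choose B hB using fun j => hb j m
    refine ⟨(k : ℝ) ^ m * (∑ j, |c j| ^ m * B j) + 1, ?_⟩
    filter_upwards [eventually_all.2 hB, hm, hP] with T h1 h2 h3
    exact lin_bd h2 h1 c
  have hYm : ∀ c : Fin k → ℝ, ∀ᶠ T in atTop, AEStronglyMeasurable (fun ω => ∑ j, c j * X j T ω) (P T) := by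
    intro c
    filter_upwards [hm] with T h2
    have := Finset.aestronglyMeasurable_sum (μ := P T) Finset.univ (f := fun j ω => c j * X j T ω)
      (fun j _ => (h2 j).const_mul (c j))
    convert this using 1
    funext ω
    simp
  have hlim : ∀ c : Fin k → ℝ, Tendsto (fun T : ℝ => ∫ ω, (∑ j, c j * X j T ω) ^ k ∂(P T)) atTop
      (𝓝 (gm k (∑ i, ∑ j, c i * c j * C i j))) := by
    intro c
    refine t_ONP Ω P (fun T ω => ∑ j, c j * X j T ω) _ (hC c) hP (hYm c) (hbd c) (fun v => ?_) k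
    have h1 := hch (fun j => v * c j)
    have e1 : (∑ i, ∑ j, (v * c i) * (v * c j) * C i j) = v ^ 2 * (∑ i, ∑ j, c i * c j * C i j) := by
      simp only [Finset.mul_sum]
      exact Finset.sum_congr rfl fun i _ => Finset.sum_congr rfl fun j _ => by ring
    rw [e1] at h1
    refine h1.congr fun T => ?_
    congr 1
    funext ω
    congr 3
    rw [Finset.mul_sum]
    exact Finset.sum_congr rfl fun j _ => by ring
  have hsum : Tendsto (fun T : ℝ => (1 / (2 ^ k * (k.factorial : ℝ))) * ∑ ε : Fin k → Bool, (∏ j, sn (ε j)) *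
      (∫ ω, (∑ j, sn (ε j) * X j T ω) ^ k ∂(P T))) atTop (𝓝 (wick C)) := by
    have h1 : Tendsto (fun T : ℝ => (1 / (2 ^ k * (k.factorial : ℝ))) * ∑ ε : Fin k → Bool, (∏ j, sn (ε j)) *
      (∫ ω, (∑ j, sn (ε j) * X j T ω) ^ k ∂(P T))) atTop
      (𝓝 ((1 / (2 ^ k * (k.factorial : ℝ))) * ∑ ε : Fin k → Bool, (∏ j, sn (ε j)) *
        gm k (∑ i, ∑ j, sn (ε i) * sn (ε j) * C i j))) := by
      refine Tendsto.const_mul _ (tendsto_finsetSum _ fun ε _ => Tendsto.const_mul _ (hlim fun j => sn (ε j)))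
    rw [Pool.Agent.H203.ME.t_PO2 k C] at h1
    have e1 : 1 / (2 ^ k * (k.factorial : ℝ)) * (2 ^ k * (k.factorial : ℝ) * wick C) = wick C := by
      field_simp
    rw [e1] at h1
    exact h1
  refine hsum.congr' ?_
  filter_upwards [eventually_all.2 fun ε : Fin k → Bool => (hbd (fun j => sn (ε j)) k).choose_spec,
    eventually_all.2 fun ε : Fin k → Bool => hYm (fun j => sn (ε j))] with T h1 h2
  have hYi : ∀ ε : Fin k → Bool, Integrable (fun ω => (∑ j, sn (ε j) * X j T ω) ^ k) (P T) := fun ε =>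
    (h1 ε).1.mono' ((h2 ε).pow k) (Eventually.of_forall fun ω => by rw [norm_pow, Real.norm_eq_abs])
  have e1 : ∀ ω, ∏ j, X j T ω =
      (1 / (2 ^ k * (k.factorial : ℝ))) * ∑ ε : Fin k → Bool, (∏ j, sn (ε j)) * (∑ j, sn (ε j) * X j T ω) ^ k := by
    intro ω
    have := Pool.Agent.H203.ME.t_PO1 k (fun j => X j T ω)
    rw [this]
    field_simp
  simp_rw [e1]
  rw [integral_const_mul, integral_finsetSum _ fun ε _ => (hYi ε).const_mul _]
  simp_rw [integral_const_mul]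

end WKML

end Pool.Agent.H203.GE
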